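import Pool.Agent.Half.SlB

/-! Module SLN. Neighbouring slices of the same width. PROOF: `(a, b)` in exactly one of `sl n k`, `sl n' k` has
`a + fl b ∈ [n, n')` or `a + fl b ∈ [n + k, n' + k)` (`mem_sl`); for every value `v` of `a + fl b` there are at most
`v + 1` pairs. So the symmetric difference has at most `(n' - n)(2 n' + k + 2) ≤ 7 n (n' - n)` elements, and
`|S'/c' - S/c| ≤ 2 |symmDiff| / c'`, `c' ≥ k * bb n' ≥ k n / 2`. -/

open MeasureTheory Filter Topology

namespace Pool.Agent.Half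

private theorem sln_le_fl (b : ℕ) : b ≤ Ord2.fl b := by
  unfold Ord2.fl
  apply Nat.le_floor
  have := Ord2.al_bounds.1
  nlinarith [(Nat.cast_nonneg b : (0 : ℝ) ≤ b)]

/-- upper bound for the size of a slice -/
private theorem sln_card_le (n r : ℕ) : (sl n r).card ≤ r * (n + r) := by
  have h : (sl n r).card ≤ (Finset.range r ×ˢ Finset.range (n + r)).card := by
    apply Finset.card_le_card_of_injOn (fun p => (p.1 + Ord2.fl p.2 - n, p.2))
    · rintro ⟨a, b⟩ hp
      rw [Finset.mem_coe, mem_sl] at hp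
      rw [Finset.mem_coe, Finset.mem_product, Finset.mem_range, Finset.mem_range]
      have := sln_le_fl b
      simp only
      omega
    · rintro ⟨a, b⟩ hp ⟨a', b'⟩ hp' he
      rw [Finset.mem_coe, mem_sl] at hp hp'
      simp only [Prod.mk.injEq] at he ⊢
      obtain ⟨h1, rfl⟩ := he
      exact ⟨by omega, rfl⟩
  rwa [Finset.card_product, Finset.card_range, Finset.card_range] at h

private theorem sln_gen (A B : Finset (ℕ × ℕ)) (hA : A.Nonempty) (hB : B.Nonempty) (m : ℤ) (x : T) :
    ‖avgC B (fourier m) x - avgC A (fourier m) x‖ ≤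
      2 * (((B \ A).card : ℝ) + ((A \ B).card : ℝ)) / B.card := by
  set f : ℕ × ℕ → ℂ := fun p => fourier m ((2 ^ p.1 * 3 ^ p.2 : ℕ) • x) with hf
  have hfn : ∀ p, ‖f p‖ ≤ 1 := by
    intro p
    simp only [hf, fourier_apply, Circle.norm_coe, le_refl]
  have hsum : ∀ S : Finset (ℕ × ℕ), ‖∑ p ∈ S, f p‖ ≤ (S.card : ℝ) := by
    intro S
    calc ‖∑ p ∈ S, f p‖ ≤ ∑ p ∈ S, (1 : ℝ) := norm_sum_le_of_le _ (fun p _ => hfn p)
      _ = (S.card : ℝ) := by simp
  have hcA : (0 : ℝ) < A.card := by exact_mod_cast hA.card_pos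
  have hcB : (0 : ℝ) < B.card := by exact_mod_cast hB.card_pos
  have hcA' : (A.card : ℂ) ≠ 0 := by exact_mod_cast hcA.ne'
  have hcB' : (B.card : ℂ) ≠ 0 := by exact_mod_cast hcB.ne'
  have hdiff : ∑ p ∈ B, f p - ∑ p ∈ A, f p = ∑ p ∈ B \ A, f p - ∑ p ∈ A \ B, f p :=
    (Finset.sum_sdiff_sub_sum_sdiff).symm
  have hcard : (B.card : ℝ) - A.card = ((B \ A).card : ℝ) - ((A \ B).card : ℝ) := by
    have h1 := Finset.card_sdiff_add_card_inter B A
    have h2 := Finset.card_sdiff_add_card_inter A B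
    rw [Finset.inter_comm A B] at h2
    have h1' : ((B \ A).card : ℝ) + ((B ∩ A).card : ℝ) = B.card := by exact_mod_cast h1
    have h2' : ((A \ B).card : ℝ) + ((B ∩ A).card : ℝ) = A.card := by exact_mod_cast h2
    linarith
  have e : avgC B (fourier m) x - avgC A (fourier m) x =
      (∑ p ∈ B \ A, f p - ∑ p ∈ A \ B, f p) / B.card +
        (∑ p ∈ A, f p) / A.card * (((A.card : ℝ) - B.card : ℝ) / B.card) := by
    unfold avgC
    show (∑ p ∈ B, f p) / (B.card : ℂ) - (∑ p ∈ A, f p) / (A.card : ℂ) = _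
    rw [← hdiff]
    push_cast
    field_simp
    ring
  rw [e]
  have hD : (0 : ℝ) ≤ ((B \ A).card : ℝ) + ((A \ B).card : ℝ) := by positivity
  calc ‖(∑ p ∈ B \ A, f p - ∑ p ∈ A \ B, f p) / B.card +
        (∑ p ∈ A, f p) / A.card * (((A.card : ℝ) - B.card : ℝ) / B.card)‖
      ≤ ‖(∑ p ∈ B \ A, f p - ∑ p ∈ A \ B, f p) / (B.card : ℂ)‖ +
        ‖(∑ p ∈ A, f p) / (A.card : ℂ) * ((((A.card : ℝ) - B.card : ℝ) : ℂ) / (B.card : ℂ))‖ := norm_add_le _ _
    _ ≤ (((B \ A).card : ℝ) + ((A \ B).card : ℝ)) / B.card +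
        1 * ((((B \ A).card : ℝ) + ((A \ B).card : ℝ)) / B.card) := by
        apply add_le_add
        · rw [norm_div, Complex.norm_natCast]
          apply div_le_div_of_nonneg_right _ hcB.le
          exact (norm_sub_le _ _).trans (add_le_add (hsum _) (hsum _))
        · rw [norm_mul]
          apply mul_le_mul _ _ (norm_nonneg _) zero_le_one
          · rw [norm_div, Complex.norm_natCast, div_le_one hcA]
            exact hsum _
          · rw [norm_div, Complex.norm_natCast, Complex.norm_real, Real.norm_eq_abs]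
            apply div_le_div_of_nonneg_right _ hcB.le
            rw [abs_sub_comm, hcard, abs_sub_le_iff]
            have h1 : (0 : ℝ) ≤ ((B \ A).card : ℝ) := by positivity
            have h2 : (0 : ℝ) ≤ ((A \ B).card : ℝ) := by positivity
            constructor <;> linarith
    _ = _ := by ring

theorem sl_near (n n' k : ℕ) (hk : 1 ≤ k) (hkn : k ≤ n) (h1 : n ≤ n') (h2 : n' ≤ 2 * n) (m : ℤ) (x : T) :
    ‖avgC (sl n' k) (fourier m) x - avgC (sl n k) (fourier m) x‖ ≤ 28 * ((n' : ℝ) - n) / k := by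
  have hbb := bb_bounds n
  have hbb' := bb_bounds n'
  have hcn := sl_card n k
  have hcn' := sl_card n' k
  have hA : (sl n k).Nonempty := by
    rw [← Finset.card_pos]
    have : 0 < k * bb n := Nat.mul_pos (by omega) (by omega)
    omega
  have hB : (sl n' k).Nonempty := by
    rw [← Finset.card_pos]
    have : 0 < k * bb n' := Nat.mul_pos (by omega) (by omega)
    omega
  refine (sln_gen (sl n k) (sl n' k) hA hB m x).trans ?_
  have d1 : (sl n' k \ sl n k).card ≤ (n' - n) * (n + k + (n' - n)) := by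
    refine (Finset.card_le_card ?_).trans (sln_card_le (n + k) (n' - n))
    rintro ⟨a, b⟩ hp
    rw [Finset.mem_sdiff, mem_sl, mem_sl] at hp
    rw [mem_sl]
    omega
  have d2 : (sl n k \ sl n' k).card ≤ (n' - n) * (n + (n' - n)) := by
    refine (Finset.card_le_card ?_).trans (sln_card_le n (n' - n))
    rintro ⟨a, b⟩ hp
    rw [Finset.mem_sdiff, mem_sl, mem_sl] at hp
    rw [mem_sl]
    omega
  have hk0 : (0 : ℝ) < k := by exact_mod_cast hk
  have hc : (k : ℝ) * n ≤ 2 * ((sl n' k).card : ℝ) := by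
    have : k * n ≤ 2 * (sl n' k).card := by
      calc k * n ≤ k * (2 * bb n') := Nat.mul_le_mul_left k (by omega)
        _ = 2 * (k * bb n') := by ring
        _ ≤ 2 * (sl n' k).card := Nat.mul_le_mul_left 2 hcn'
    exact_mod_cast this
  have hc0 : (0 : ℝ) < ((sl n' k).card : ℝ) := by exact_mod_cast hB.card_pos
  set e : ℕ := n' - n with he
  have hn' : (n' : ℝ) - n = (e : ℝ) := by
    rw [he, Nat.cast_sub h1]
  have d : (sl n' k \ sl n k).card + (sl n k \ sl n' k).card ≤ e * (5 * n) := by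
    calc (sl n' k \ sl n k).card + (sl n k \ sl n' k).card
        ≤ e * (n + k + e) + e * (n + e) := add_le_add d1 d2
      _ = e * (2 * n + k + 2 * e) := by ring
      _ ≤ e * (5 * n) := Nat.mul_le_mul_left e (by omega)
  have d' : ((sl n' k \ sl n k).card : ℝ) + ((sl n k \ sl n' k).card : ℝ) ≤ (e : ℝ) * (5 * n) := by
    exact_mod_cast d
  rw [hn', div_le_div_iff₀ hc0 hk0]
  have he0 : (0 : ℝ) ≤ (e : ℝ) := by positivity
  calc 2 * (((sl n' k \ sl n k).card : ℝ) + ((sl n k \ sl n' k).card : ℝ)) * k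
      ≤ 2 * ((e : ℝ) * (5 * n)) * k := by
        apply mul_le_mul_of_nonneg_right _ hk0.le
        linarith
    _ = 10 * e * (k * n) := by ring
    _ ≤ 10 * e * (2 * ((sl n' k).card : ℝ)) := by
        apply mul_le_mul_of_nonneg_left hc (by positivity)
    _ ≤ 28 * e * ((sl n' k).card : ℝ) := by nlinarith [mul_nonneg he0 hc0.le]

end Pool.Agent.Half
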