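import Pool.Agent.Half.VarV
import Pool.Agent.Half.SlN

/-! Module AEV. Almost everywhere convergence for Lebesgue measure, `r n = Nat.log 2 n`. PROOF: fix `l ≥ 1`. For `k ≥ l`
let `h = k / l ≥ 1` and `n_{k,j} = 2^k + j h < 2^(k+1)`. `∑_k ∑_j 1/|sl n_{k,j} k| ≤ ∑_k (2^k/h + 1) * 2/(k 2^k) < ∞`
(`sl_card`, `bb_bounds`, `h ≥ k/(2l)`), so by `var_vol` and monotone convergence
`∑_{k,j} ‖avgC (sl n_{k,j} k) (fourier m) x‖^2 < ∞` for almost every `x`, and these means tend to `0` as `k → ∞`, uniformly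
in `j`. For `2^k ≤ n < 2^(k+1)`, `j = (n - 2^k) / h`: by `sl_near` the mean of the slice `sl n k` differs by at most
`28 h / k ≤ 28 / l`. So `limsup ≤ 28 / l` for every `l`. -/

open MeasureTheory Filter Topology
open scoped ENNReal

namespace Pool.Agent.Half

private noncomputable def aevJ (l k : ℕ) : Finset ℕ :=
  (Finset.range (2 ^ k)).filter fun j => l ≤ k ∧ j * (k / l) < 2 ^ k

private noncomputable def aevF (m : ℤ) (l k : ℕ) (x : T) : ℝ≥0∞ :=
  ∑ j ∈ aevJ l k, ENNReal.ofReal (‖avgC (sl (2 ^ k + j * (k / l)) k) (fourier m) x‖ ^ 2)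

private theorem aev_meas (m : ℤ) (G : Finset (ℕ × ℕ)) :
    Measurable (fun x : T => ENNReal.ofReal (‖avgC G (fourier m) x‖ ^ 2)) := by
  have hc : Continuous (fun x : T => avgC G (fourier m) x) := by
    unfold avgC
    exact (continuous_finsetSum _ fun p _ =>
      (map_continuous (fourier m)).comp (continuous_nsmul _)).div_const _
  exact ENNReal.measurable_ofReal.comp ((hc.norm.pow 2).measurable)

private theorem aev_card (l k : ℕ) (hl : 1 ≤ l) (hk : l ≤ k) :
    ((aevJ l k).card : ℝ) * (2 / (k * 2 ^ k)) ≤ 8 * l / k ^ 2 := by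
  have hk0 : 0 < k := by omega
  have hh : 1 ≤ k / l := (Nat.one_le_div_iff (by omega)).2 hk
  set h := k / l with hh'
  have h1 : (aevJ l k).card ≤ 2 ^ k / h + 1 := by
    rw [← Finset.card_range (2 ^ k / h + 1)]
    apply Finset.card_le_card
    intro j hj
    unfold aevJ at hj
    rw [Finset.mem_filter] at hj
    rw [Finset.mem_range]
    have h2 := (Nat.le_div_iff_mul_le (show 0 < h by omega)).2 hj.2.2.le
    omega
  have hkl : (k : ℝ) ≤ 2 * l * h := by
    have h2 : k < l * h + l := by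
      have := Nat.lt_mul_div_succ k (show 0 < l by omega)
      rw [← hh'] at this
      linarith [this]
    have h3 : k ≤ 2 * l * h := by nlinarith
    exact_mod_cast h3
  have hk2 : (h : ℝ) ≤ 2 ^ k := by
    have h2 : h ≤ k := Nat.div_le_self k l
    have h3 : k < 2 ^ k := Nat.lt_two_pow_self
    exact_mod_cast (h2.trans h3.le)
  have hhR : (1 : ℝ) ≤ h := by exact_mod_cast hh
  have hkR : (0 : ℝ) < k := by exact_mod_cast hk0
  have hlR : (1 : ℝ) ≤ l := by exact_mod_cast hl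
  have h3 : ((aevJ l k).card : ℝ) ≤ 2 * 2 ^ k / h := by
    have h4 : ((aevJ l k).card : ℝ) ≤ ((2 ^ k / h + 1 : ℕ) : ℝ) := by exact_mod_cast h1
    have h5 : ((2 ^ k / h : ℕ) : ℝ) ≤ ((2 ^ k : ℕ) : ℝ) / h := Nat.cast_div_le
    push_cast at h4 h5
    have h6 : (1 : ℝ) ≤ 2 ^ k / h := by
      rw [le_div_iff₀ (by linarith)]
      linarith
    calc ((aevJ l k).card : ℝ) ≤ 2 ^ k / h + 2 ^ k / h := by linarith
      _ = 2 * 2 ^ k / h := by ring
  have hp : (0 : ℝ) < 2 ^ k := by positivity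
  calc ((aevJ l k).card : ℝ) * (2 / (k * 2 ^ k)) ≤ (2 * 2 ^ k / h) * (2 / (k * 2 ^ k)) := by
        gcongr
    _ = 4 / (k * h) := by
        field_simp
        ring
    _ ≤ 8 * l / k ^ 2 := by
        rw [div_le_div_iff₀ (by positivity) (by positivity)]
        nlinarith [mul_le_mul_of_nonneg_left hkl hkR.le]

private theorem aev_lint (m : ℤ) (hm : m ≠ 0) (l k : ℕ) (hl : 1 ≤ l) :
    ∫⁻ x, aevF m l k x ∂(volume : Measure T) ≤ ENNReal.ofReal (8 * l / k ^ 2) := by
  by_cases hk : l ≤ k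
  · have hk0 : 0 < k := by omega
    have hkR : (0 : ℝ) < k := by exact_mod_cast hk0
    unfold aevF
    rw [lintegral_finset_sum _ (fun j _ => aev_meas m _)]
    have h1 : ∀ j ∈ aevJ l k,
        ∫⁻ x, ENNReal.ofReal (‖avgC (sl (2 ^ k + j * (k / l)) k) (fourier m) x‖ ^ 2)
          ∂(volume : Measure T) ≤ ENNReal.ofReal (2 / (k * 2 ^ k)) := by
      intro j _
      set n := 2 ^ k + j * (k / l) with hn
      have h2 := sl_card n k
      have h3 := (bb_bounds n).1
      have h4 : 2 ^ k ≤ n := by omega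
      have h5 : k * 2 ^ k ≤ 2 * (sl n k).card := by
        have h6 : k * (2 ^ k) ≤ k * (2 * bb n) := Nat.mul_le_mul_left k (by omega)
        calc k * 2 ^ k ≤ k * (2 * bb n) := h6
          _ = 2 * (k * bb n) := by ring
          _ ≤ _ := Nat.mul_le_mul_left 2 h2
      have hpos : 0 < k * 2 ^ k := Nat.mul_pos hk0 (by positivity)
      have h7 : 0 < (sl n k).card := by omega
      refine (var_vol (sl n k) (Finset.card_pos.1 h7) m hm).trans ?_
      have h8 : (((sl n k).card : ℕ) : ℝ≥0∞)⁻¹ = ENNReal.ofReal (((sl n k).card : ℝ)⁻¹) := by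
        rw [ENNReal.ofReal_inv_of_pos (by exact_mod_cast h7), ENNReal.ofReal_natCast]
      rw [h8]
      apply ENNReal.ofReal_le_ofReal
      have h9 : (k : ℝ) * 2 ^ k ≤ 2 * (sl n k).card := by exact_mod_cast h5
      have h10 : (0 : ℝ) < (sl n k).card := by exact_mod_cast h7
      rw [inv_eq_one_div, div_le_div_iff₀ h10 (by positivity)]
      linarith
    refine (Finset.sum_le_card_nsmul _ _ _ h1).trans ?_
    rw [nsmul_eq_mul, ← ENNReal.ofReal_natCast, ← ENNReal.ofReal_mul (Nat.cast_nonneg _)]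
    exact ENNReal.ofReal_le_ofReal (aev_card l k hl hk)
  · have h1 : aevJ l k = ∅ := by
      unfold aevJ
      rw [Finset.filter_eq_empty_iff]
      intro j _ hj
      exact hk hj.1
    unfold aevF
    rw [h1]
    simp

theorem ae_net (m : ℤ) (hm : m ≠ 0) (l : ℕ) (hl : 1 ≤ l) :
    ∀ᵐ x ∂(volume : Measure T), ∀ ε : ℝ, 0 < ε → ∃ k0 : ℕ, ∀ k, k0 ≤ k → ∀ j, 2 ^ k + j * (k / l) < 2 ^ (k + 1) →
      ‖avgC (sl (2 ^ k + j * (k / l)) k) (fourier m) x‖ ≤ ε := by
  have hmeas : ∀ k, Measurable (aevF m l k) := fun k =>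
    Finset.measurable_sum _ fun j _ => aev_meas m _
  have hsum : ∫⁻ x, (∑' k, aevF m l k x) ∂(volume : Measure T) ≠ ⊤ := by
    rw [lintegral_tsum fun k => (hmeas k).aemeasurable]
    have h1 : Summable (fun k : ℕ => 8 * (l : ℝ) / (k : ℝ) ^ 2) := by
      have h2 := (Real.summable_one_div_nat_pow (p := 2)).2 (by norm_num)
      refine (h2.mul_left (8 * (l : ℝ))).congr fun k => ?_
      ring
    refine ne_top_of_le_ne_top ?_ (ENNReal.tsum_le_tsum fun k => aev_lint m hm l k hl)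
    exact h1.tsum_ofReal_ne_top
  have hae := ae_lt_top (Measurable.ennreal_tsum hmeas) hsum
  filter_upwards [hae] with x hx ε hε
  have h1 := ENNReal.tendsto_atTop_zero_of_tsum_ne_top hx.ne
  rw [ENNReal.tendsto_atTop_zero] at h1
  obtain ⟨K, hK⟩ := h1 (ENNReal.ofReal (ε ^ 2)) (by positivity)
  refine ⟨max K l, fun k hk j hj => ?_⟩
  have hkK : K ≤ k := le_trans (le_max_left _ _) hk
  have hkl : l ≤ k := le_trans (le_max_right _ _) hk
  have hh : 1 ≤ k / l := (Nat.one_le_div_iff (by omega)).2 hkl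
  have hj1 : j * (k / l) < 2 ^ k := by
    rw [pow_succ] at hj
    omega
  have hj2 : j < 2 ^ k := lt_of_le_of_lt (Nat.le_mul_of_pos_right j (by omega)) hj1
  have hjm : j ∈ aevJ l k := by
    unfold aevJ
    rw [Finset.mem_filter, Finset.mem_range]
    exact ⟨hj2, hkl, hj1⟩
  have h2 := hK k hkK
  have h3 : ENNReal.ofReal (‖avgC (sl (2 ^ k + j * (k / l)) k) (fourier m) x‖ ^ 2) ≤
      ENNReal.ofReal (ε ^ 2) := by
    refine le_trans ?_ h2
    unfold aevF
    exact Finset.single_le_sum (f := fun j => ENNReal.ofReal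
      (‖avgC (sl (2 ^ k + j * (k / l)) k) (fourier m) x‖ ^ 2)) (fun _ _ => by simp) hjm
  rw [ENNReal.ofReal_le_ofReal_iff (by positivity)] at h3
  exact le_of_sq_le_sq h3 hε.le

theorem ae_vol (m : ℤ) (hm : m ≠ 0) :
    ∀ᵐ x ∂(volume : Measure T),
      Tendsto (fun n => avgC (sl n (Nat.log 2 n)) (fourier m) x) atTop (𝓝 0) := by
  have h1 : ∀ᵐ x ∂(volume : Measure T), ∀ l : ℕ, ∀ ε : ℝ, 0 < ε → ∃ k0 : ℕ, ∀ k, k0 ≤ k →
      ∀ j, 2 ^ k + j * (k / (l + 1)) < 2 ^ (k + 1) →
      ‖avgC (sl (2 ^ k + j * (k / (l + 1))) k) (fourier m) x‖ ≤ ε := by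
    rw [ae_all_iff]
    intro l
    exact ae_net m hm (l + 1) (by omega)
  filter_upwards [h1] with x hx
  rw [Metric.tendsto_atTop]
  intro ε hε
  obtain ⟨l, hl⟩ := exists_nat_gt (56 / ε)
  have hl1 : 28 / ((l : ℝ) + 1) < ε / 2 := by
    rw [div_lt_iff₀ (by positivity)]
    rw [div_lt_iff₀ hε] at hl
    nlinarith
  obtain ⟨k0, hk0⟩ := hx l (ε / 2) (by positivity)
  refine ⟨2 ^ (max k0 (l + 1)), fun n hn => ?_⟩
  set k := Nat.log 2 n with hk
  have hn0 : n ≠ 0 := by
    have : 0 < 2 ^ (max k0 (l + 1)) := by positivity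
    omega
  have hkm : max k0 (l + 1) ≤ k := by
    rw [hk]
    exact (Nat.le_log_iff_pow_le (by norm_num) hn0).2 hn
  have hk1 : k0 ≤ k := le_trans (le_max_left _ _) hkm
  have hk2 : l + 1 ≤ k := le_trans (le_max_right _ _) hkm
  have hlow : 2 ^ k ≤ n := Nat.pow_log_le_self 2 hn0
  have hup : n < 2 ^ (k + 1) := Nat.lt_pow_succ_log_self (by norm_num) n
  have hh : 1 ≤ k / (l + 1) := (Nat.one_le_div_iff (by omega)).2 hk2
  set h := k / (l + 1) with hhd
  set j := (n - 2 ^ k) / h with hj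
  have hj1 : j * h ≤ n - 2 ^ k := Nat.div_mul_le_self _ _
  have hj2 : n - 2 ^ k < j * h + h := by
    have := Nat.lt_mul_div_succ (n - 2 ^ k) (show 0 < h by omega)
    rw [← hj] at this
    linarith [this]
  set n' := 2 ^ k + j * h with hn'
  have hk2' : k < 2 ^ k := Nat.lt_two_pow_self
  have h2 := hk0 k hk1 j (by rw [← hhd]; omega)
  rw [← hhd, ← hn'] at h2
  have h3 := sl_near n' n k (by omega) (by omega) (by omega) (by rw [pow_succ] at hup; omega) m x
  have h4 : 28 * ((n : ℝ) - n') / k ≤ 28 / ((l : ℝ) + 1) := by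
    have h5 : (n : ℝ) - n' ≤ h := by
      have h6 : n ≤ n' + h := by omega
      have h7 : (n : ℝ) ≤ n' + h := by exact_mod_cast h6
      linarith
    have h6 : (h : ℝ) * (l + 1) ≤ k := by
      have h7 : h * (l + 1) ≤ k := Nat.div_mul_le_self _ _
      exact_mod_cast h7
    have hkR : (0 : ℝ) < k := by exact_mod_cast (show 0 < k by omega)
    rw [div_le_div_iff₀ hkR (by positivity)]
    have h8 : ((n : ℝ) - n') * (l + 1) ≤ h * (l + 1) :=
      mul_le_mul_of_nonneg_right h5 (by positivity)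
    nlinarith
  rw [dist_zero_right]
  calc ‖avgC (sl n k) (fourier m) x‖
      = ‖(avgC (sl n k) (fourier m) x - avgC (sl n' k) (fourier m) x) +
          avgC (sl n' k) (fourier m) x‖ := by rw [sub_add_cancel]
    _ ≤ ‖avgC (sl n k) (fourier m) x - avgC (sl n' k) (fourier m) x‖ +
          ‖avgC (sl n' k) (fourier m) x‖ := norm_add_le _ _
    _ < ε := by linarith

end Pool.Agent.Half
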