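import Pool.Agent.Half.HDefs

/-! Boxes (theorem H). -/

open MeasureTheory Filter Topology

namespace Pool.Agent.Half

/-- the pairs (exponent of 2, exponent of 3) of the numbers `p ^ i * q ^ b`, `i < N`, `b < R`, for `{p, q} = {2, 3}` -/
def bx (p N R : ℕ) : Finset (ℕ × ℕ) :=
  if p = 2 then Finset.range N ×ˢ Finset.range R else Finset.range R ×ˢ Finset.range N

/-- the two pairs of multipliers -/
def PQ (p q : ℕ) : Prop := (p = 2 ∧ q = 3) ∨ (p = 3 ∧ q = 2)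

/-- equidistribution of `p ^ i θ`, `i < N`, for `θ` of order `q ^ t`, `t0 ≤ t ≤ K N` -/
def KorP (p q : ℕ) (K : ℕ → ℕ) : Prop :=
  ∀ m : ℤ, m ≠ 0 → ∀ ε : ℝ, 0 < ε → ∃ t0 N0 : ℕ, ∀ N, N0 ≤ N → ∀ t, t0 ≤ t → t ≤ K N → ∀ θ : T,
    addOrderOf θ = q ^ t → ‖∑ i ∈ Finset.range N, fourier m ((p ^ i) • θ)‖ ≤ ε * N

end Pool.Agent.Half
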