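import Pool.Agent.Half.SlN

/-! Module NETC. PROOF: `lintegral_tsum` and `ae_lt_top`: for almost every `x` the squares are summable, so `avgC (sl (n j) r_j) (fourier m) x → c(m)`. For
`n j ≤ k < n (j+1)`: `sl_near` (same thickness `r_j`): difference `≤ 28 (k - n_j) / r_j → 0` (`κ < κ'`), and the thickness changes at most from
`r_j` to `r_j + 1` for large `j` (`(log k) ^ κ' - (log n_j) ^ κ' → 0`), which changes the mean by at most `C / r_j` (`sl n r ⊆ sl n (r+1)`, cardinalities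
from `SLB_main_card`, `sl_rest`, `sl_card`). -/

open MeasureTheory Filter Topology
open scoped ENNReal

namespace Pool.Agent.Half

private theorem NETC_gen (A B : Finset (ℕ × ℕ)) (hAB : A ⊆ B) (hA : A.Nonempty) (m : ℤ) (x : T) :
    ‖avgC B (fourier m) x - avgC A (fourier m) x‖ ≤ 2 * ((B \ A).card : ℝ) / B.card := by
  set f : ℕ × ℕ → ℂ := fun p => fourier m ((2 ^ p.1 * 3 ^ p.2 : ℕ) • x) with hf
  have hB : B.Nonempty := hA.mono hAB
  have hfn : ∀ p, ‖f p‖ ≤ 1 := by
    intro p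
    simp only [hf, fourier_apply, Circle.norm_coe, le_refl]
  have hsum : ∀ S : Finset (ℕ × ℕ), ‖∑ p ∈ S, f p‖ ≤ (S.card : ℝ) := by
    intro S
    calc ‖∑ p ∈ S, f p‖ ≤ ∑ p ∈ S, (1 : ℝ) := norm_sum_le_of_le _ (fun p _ => hfn p)
      _ = (S.card : ℝ) := by simp
  have hcA : (0 : ℝ) < A.card := by exact_mod_cast hA.card_pos
  have hcB : (0 : ℝ) < B.card := by exact_mod_cast hB.card_pos
  have hcA' : (A.card : ℂ) ≠ 0 := by exact_mod_cast hcA.ne'
  have hcB' : (B.card : ℂ) ≠ 0 := by exact_mod_cast hcB.ne'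
  have hdiff : ∑ p ∈ B, f p = ∑ p ∈ B \ A, f p + ∑ p ∈ A, f p :=
    (Finset.sum_sdiff hAB).symm
  have hcard : (B.card : ℝ) = ((B \ A).card : ℝ) + A.card := by
    exact_mod_cast (Finset.card_sdiff_add_card_eq_card hAB).symm
  have e : avgC B (fourier m) x - avgC A (fourier m) x =
      (∑ p ∈ B \ A, f p) / B.card - (∑ p ∈ A, f p) / A.card * (((B \ A).card : ℂ) / B.card) := by
    unfold avgC
    show (∑ p ∈ B, f p) / (B.card : ℂ) - (∑ p ∈ A, f p) / (A.card : ℂ) = _
    have hc : ((B \ A).card : ℂ) = B.card - A.card := by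
      have : (B.card : ℂ) = ((B \ A).card : ℂ) + A.card := by exact_mod_cast hcard
      rw [this]
      ring
    rw [hdiff, hc]
    field_simp
    ring
  rw [e]
  refine (norm_sub_le _ _).trans ?_
  have e1 : ‖(∑ p ∈ B \ A, f p) / (B.card : ℂ)‖ ≤ ((B \ A).card : ℝ) / B.card := by
    rw [norm_div, Complex.norm_natCast]
    exact div_le_div_of_nonneg_right (hsum _) hcB.le
  have e2 : ‖(∑ p ∈ A, f p) / (A.card : ℂ) * (((B \ A).card : ℂ) / B.card)‖ ≤
      1 * (((B \ A).card : ℝ) / B.card) := by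
    rw [norm_mul]
    apply mul_le_mul _ _ (norm_nonneg _) zero_le_one
    · rw [norm_div, Complex.norm_natCast, div_le_one hcA]
      exact hsum _
    · rw [norm_div, Complex.norm_natCast, Complex.norm_natCast]
  calc _ ≤ ((B \ A).card : ℝ) / B.card + 1 * (((B \ A).card : ℝ) / B.card) := add_le_add e1 e2
    _ = 2 * ((B \ A).card : ℝ) / B.card := by ring

private theorem NETC_thick (n r : ℕ) (hr : 1 ≤ r) (hrn : r ≤ n) (m : ℤ) (x : T) :
    ‖avgC (sl n (r + 1)) (fourier m) x - avgC (sl n r) (fourier m) x‖ ≤ 12 / r := by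
  have hbb := bb_bounds n
  have hc := sl_card n r
  have hc1 := sl_card n (r + 1)
  have hA : (sl n r).Nonempty := by
    rw [← Finset.card_pos]
    have : 0 < r * bb n := Nat.mul_pos (by omega) (by omega)
    omega
  have hsub : sl n r ⊆ sl n (r + 1) := by
    rintro ⟨a, b⟩ h
    rw [mem_sl] at h ⊢
    omega
  refine (NETC_gen _ _ hsub hA m x).trans ?_
  have hd : (sl n (r + 1) \ sl n r).card ≤ n + r + 1 := by
    have h : (sl n (r + 1) \ sl n r).card ≤ (Finset.range (n + r + 1)).card := by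
      apply Finset.card_le_card_of_injOn (fun p => p.2)
      · rintro ⟨a, b⟩ hp
        rw [Finset.mem_coe, Finset.mem_sdiff, mem_sl, mem_sl] at hp
        rw [Finset.mem_coe, Finset.mem_range]
        have := SLB_le_fl b
        simp only
        omega
      · rintro ⟨a, b⟩ hp ⟨a', b'⟩ hp' he
        rw [Finset.mem_coe, Finset.mem_sdiff, mem_sl, mem_sl] at hp hp'
        simp only at he
        subst he
        simp only [Prod.mk.injEq, and_true]
        omega
    rwa [Finset.card_range] at h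
  have hr0 : (0 : ℝ) < r := by exact_mod_cast hr
  have hB0 : 0 < (sl n (r + 1)).card := lt_of_lt_of_le hA.card_pos (Finset.card_le_card hsub)
  have hB0' : (0 : ℝ) < ((sl n (r + 1)).card : ℝ) := by exact_mod_cast hB0
  rw [div_le_div_iff₀ hB0' hr0]
  have h1 : r * n ≤ 2 * (sl n (r + 1)).card := by
    calc r * n ≤ (r + 1) * (2 * bb n) := Nat.mul_le_mul (by omega) (by omega)
      _ = 2 * ((r + 1) * bb n) := by ring
      _ ≤ 2 * (sl n (r + 1)).card := Nat.mul_le_mul_left 2 hc1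
  have h2 : 2 * (sl n (r + 1) \ sl n r).card * r ≤ 12 * (sl n (r + 1)).card := by
    calc 2 * (sl n (r + 1) \ sl n r).card * r ≤ 2 * (3 * n) * r := by
          apply Nat.mul_le_mul_right
          omega
      _ = 6 * (r * n) := by ring
      _ ≤ 6 * (2 * (sl n (r + 1)).card) := Nat.mul_le_mul_left 6 h1
      _ = _ := by ring
  exact_mod_cast h2

private theorem NETC_log {n : ℕ} (hn : 3 ≤ n) : 1 < Real.log n := by
  have h1 : (3 : ℝ) ≤ n := by exact_mod_cast hn
  have h2 : Real.exp 1 < 3 := Real.exp_one_lt_three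
  rw [Real.lt_log_iff_exp_lt (by linarith)]
  linarith

/-- slow growth of the thickness -/
private theorem NETC_grow {u v κ κ' N : ℝ} (hκ' : 0 < κ') (hu : 1 ≤ u) (huv : u ≤ v)
    (hN : 0 < N) (hv : v - u ≤ 2 * u ^ κ / N) (hN1 : 2 * κ' * u ^ κ ≤ N)
    (hN2 : 4 * κ' * u ^ (κ + κ') ≤ N) : v ^ κ' ≤ u ^ κ' + 1 := by
  have hu0 : 0 < u := by linarith
  have hv0 : 0 < v := hu0.trans_le huv
  have h1 : Real.log (v / u) ≤ (v - u) / u := by
    have := Real.log_le_sub_one_of_pos (div_pos hv0 hu0)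
    rw [sub_div, div_self hu0.ne']
    exact this
  set t : ℝ := κ' * (2 * u ^ κ / N) with ht
  have hpos : 0 < u ^ κ := Real.rpow_pos_of_pos hu0 _
  have ht0 : 0 ≤ t := by positivity
  have ht1 : t ≤ 1 := by
    rw [ht, ← mul_div_assoc, div_le_one hN]
    linarith
  have h2 : (v / u) ^ κ' ≤ Real.exp t := by
    rw [Real.rpow_def_of_pos (div_pos hv0 hu0)]
    apply Real.exp_le_exp.2
    have h3 : (v - u) / u ≤ 2 * u ^ κ / N := by
      refine le_trans ?_ hv
      exact div_le_self (by linarith) hu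
    calc Real.log (v / u) * κ' ≤ (2 * u ^ κ / N) * κ' :=
          mul_le_mul_of_nonneg_right (h1.trans h3) hκ'.le
      _ = t := by rw [ht]; ring
  have h4 : Real.exp t ≤ 1 + 2 * t := by
    have := Real.exp_bound' ht0 ht1 (n := 2) (by norm_num)
    simp [Finset.sum_range_succ] at this
    nlinarith
  have h5 : v ^ κ' = u ^ κ' * (v / u) ^ κ' := by
    rw [← Real.mul_rpow hu0.le (div_pos hv0 hu0).le, mul_div_cancel₀ _ hu0.ne']
  have h6 : 0 < u ^ κ' := Real.rpow_pos_of_pos hu0 _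
  rw [h5]
  calc u ^ κ' * (v / u) ^ κ' ≤ u ^ κ' * (1 + 2 * t) :=
        mul_le_mul_of_nonneg_left (h2.trans h4) h6.le
    _ = u ^ κ' + 4 * κ' * u ^ (κ + κ') / N := by
        rw [ht, Real.rpow_add hu0]
        field_simp
        ring
    _ ≤ u ^ κ' + 1 := by
        have : 4 * κ' * u ^ (κ + κ') / N ≤ 1 := (div_le_one hN).2 hN2
        linarith

private theorem NETC_idx (n : ℕ → ℕ) (hn : StrictMono n) (j0 k : ℕ) (hk : n j0 ≤ k) :
    ∃ j, j0 ≤ j ∧ n j ≤ k ∧ k < n (j + 1) := by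
  have hex : ∃ j, k < n j := ⟨k + 1, (Nat.lt_succ_self k).trans_le (hn.id_le (k + 1))⟩
  have h1 := Nat.find_spec hex
  have h0 : Nat.find hex ≠ 0 := by
    intro h
    rw [h] at h1
    have := hn.monotone (Nat.zero_le j0)
    omega
  obtain ⟨j, hj⟩ := Nat.exists_eq_succ_of_ne_zero h0
  have h2 : n j ≤ k := by
    by_contra h
    exact Nat.find_min hex (m := j) (by omega) (by omega)
  rw [hj] at h1
  refine ⟨j, ?_, h2, h1⟩
  have h3 : n j0 < n (j + 1) := lt_of_le_of_lt hk h1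
  have := hn.lt_iff_lt.1 h3
  omega

theorem net_conv (μ : Measure T) [IsProbabilityMeasure μ] (m : ℤ) (κ κ' : ℝ) (h0 : 0 < κ) (h1 : κ < κ')
    (n : ℕ → ℕ) (hn : StrictMono n) (hn3 : ∀ j, 3 ≤ n j)
    (hgap : ∀ j, (n (j + 1) : ℝ) ≤ n j + 2 * (Real.log (n j)) ^ κ) (c : ℂ)
    (hsum : ∑' j, ∫⁻ x, ENNReal.ofReal
      (‖avgC (sl (n j) ⌊(Real.log (n j)) ^ κ'⌋₊) (fourier m) x - c‖ ^ 2) ∂μ ≠ ⊤) :
    ∀ᵐ x ∂μ, Tendsto (fun k : ℕ => avgC (sl k ⌊(Real.log k) ^ κ'⌋₊) (fourier m) x) atTop (𝓝 c) := by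
  have hκ' : 0 < κ' := h0.trans h1
  have hmeas : ∀ j, Measurable fun x : T => ENNReal.ofReal
      (‖avgC (sl (n j) ⌊(Real.log (n j)) ^ κ'⌋₊) (fourier m) x - c‖ ^ 2) := by
    intro j
    have hc : Continuous fun x : T =>
        avgC (sl (n j) ⌊(Real.log (n j)) ^ κ'⌋₊) (fourier m) x := by
      unfold avgC
      apply Continuous.div_const
      refine continuous_finsetSum _ (fun p _ => ?_)
      exact (fourier m).continuous.comp (continuous_nsmul _)
    exact (ENNReal.continuous_ofReal.comp ((hc.sub continuous_const).norm.pow 2)).measurable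
  rw [← lintegral_tsum fun j => (hmeas j).aemeasurable] at hsum
  have hae := ae_lt_top (Measurable.ennreal_tsum hmeas) hsum
  -- the scales
  have hN : Tendsto (fun j => (n j : ℝ)) atTop atTop :=
    tendsto_natCast_atTop_atTop.comp hn.tendsto_atTop
  have hU : Tendsto (fun j => Real.log (n j)) atTop atTop := Real.tendsto_log_atTop.comp hN
  have hlit : ∀ (s ε : ℝ), 0 < ε → ∀ᶠ j in atTop, (Real.log (n j)) ^ s ≤ ε * n j := by
    intro s ε hε
    have e1 := (isLittleO_log_rpow_rpow_atTop s one_pos).def hε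
    have e2 := hN.eventually e1
    filter_upwards [e2] with j hj
    rw [Real.rpow_one, Real.norm_of_nonneg (Nat.cast_nonneg _)] at hj
    exact (le_abs_self _).trans hj
  have hr1 : ∀ j, 1 ≤ ⌊(Real.log (n j)) ^ κ'⌋₊ := fun j => by
    rw [Nat.one_le_floor_iff]
    exact Real.one_le_rpow (NETC_log (hn3 j)).le hκ'.le
  have hrge : ∀ j, (Real.log (n j)) ^ κ' / 2 ≤ (⌊(Real.log (n j)) ^ κ'⌋₊ : ℝ) := fun j => by
    have e1 := Nat.lt_floor_add_one ((Real.log (n j)) ^ κ')
    have e2 : (1 : ℝ) ≤ (⌊(Real.log (n j)) ^ κ'⌋₊ : ℝ) := by exact_mod_cast hr1 j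
    linarith
  have hz1 : Tendsto (fun j => 112 * (Real.log (n j)) ^ (-(κ' - κ))) atTop (𝓝 0) := by
    have := ((tendsto_rpow_neg_atTop (show 0 < κ' - κ by linarith)).comp hU).const_mul 112
    simpa using this
  have hz2 : Tendsto (fun j => 24 * (Real.log (n j)) ^ (-κ')) atTop (𝓝 0) := by
    have := ((tendsto_rpow_neg_atTop hκ').comp hU).const_mul 24
    simpa using this
  filter_upwards [hae] with x hx
  have hx1 := ENNReal.tendsto_atTop_zero_of_tsum_ne_top hx.ne
  have hx2 : Tendsto (fun j => ‖avgC (sl (n j) ⌊(Real.log (n j)) ^ κ'⌋₊) (fourier m) x - c‖)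
      atTop (𝓝 0) := by
    have e1 := (ENNReal.tendsto_toReal ENNReal.zero_ne_top).comp hx1
    have e2 := (Real.continuous_sqrt.tendsto _).comp e1
    have e3 : (Real.sqrt ∘ ENNReal.toReal ∘ fun j => ENNReal.ofReal
        (‖avgC (sl (n j) ⌊(Real.log (n j)) ^ κ'⌋₊) (fourier m) x - c‖ ^ 2)) =
        fun j => ‖avgC (sl (n j) ⌊(Real.log (n j)) ^ κ'⌋₊) (fourier m) x - c‖ := by
      funext j
      simp only [Function.comp]
      rw [ENNReal.toReal_ofReal (by positivity), Real.sqrt_sq (norm_nonneg _)]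
    rw [← e3]
    simpa using e2
  rw [Metric.tendsto_atTop]
  intro ε hε
  have hε3 : 0 < ε / 3 := by linarith
  have ev1 := (hx2.eventually (gt_mem_nhds hε3))
  have ev2 := hlit κ' 1 one_pos
  have ev3 := hlit κ (1 / 2) (by norm_num)
  have ev4 := hz1.eventually (gt_mem_nhds hε3)
  have ev5 := hz2.eventually (gt_mem_nhds hε3)
  have ev6 := hlit κ (1 / (2 * κ')) (by positivity)
  have ev7 := hlit (κ + κ') (1 / (4 * κ')) (by positivity)
  obtain ⟨j0, hj0⟩ := eventually_atTop.1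
    (ev1.and (ev2.and (ev3.and (ev4.and (ev5.and (ev6.and ev7))))))
  refine ⟨n j0, fun k hk => ?_⟩
  obtain ⟨j, hj, hjk, hkj⟩ := NETC_idx n hn j0 k hk
  obtain ⟨a1, a2, a3, a4, a5, a6, a7⟩ := hj0 j hj
  set u : ℝ := Real.log (n j) with hu
  have hu1 : 1 < u := NETC_log (hn3 j)
  have hu0 : 0 < u := by linarith
  set r : ℕ := ⌊u ^ κ'⌋₊ with hr
  have hrr : 1 ≤ r := hr1 j
  have hr0 : (0 : ℝ) < r := by exact_mod_cast hrr
  have hrge' : u ^ κ' / 2 ≤ (r : ℝ) := hrge j
  have hrle : (r : ℝ) ≤ u ^ κ' := Nat.floor_le (Real.rpow_nonneg hu0.le _)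
  have hrn : r ≤ n j := by
    have : (r : ℝ) ≤ n j := by linarith
    exact_mod_cast this
  have hkr : (k : ℝ) ≤ n j + 2 * u ^ κ := by
    have e1 := hgap j
    have e2 : (k : ℝ) < n (j + 1) := by exact_mod_cast hkj
    linarith
  have hk2 : k ≤ 2 * n j := by
    have : (k : ℝ) ≤ 2 * n j := by linarith
    exact_mod_cast this
  have hnj0 : (0 : ℝ) < n j := by
    have := hn3 j
    exact_mod_cast (by omega : 0 < n j)
  have hjk' : (n j : ℝ) ≤ k := by exact_mod_cast hjk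
  have hk0 : (0 : ℝ) < k := hnj0.trans_le hjk'
  have p1 : 0 < u ^ κ' := Real.rpow_pos_of_pos hu0 _
  have p2 : 0 < u ^ κ := Real.rpow_pos_of_pos hu0 _
  -- same thickness
  have b1 : ‖avgC (sl k r) (fourier m) x - avgC (sl (n j) r) (fourier m) x‖ < ε / 3 := by
    refine lt_of_le_of_lt (sl_near (n j) k r hrr hrn hjk hk2 m x) ?_
    refine lt_of_le_of_lt ?_ a4
    rw [div_le_iff₀ hr0]
    have e1 : u ^ (-(κ' - κ)) = u ^ κ / u ^ κ' := by
      rw [neg_sub, Real.rpow_sub hu0]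
    rw [e1]
    have e2 : 112 * (u ^ κ / u ^ κ') * (u ^ κ' / 2) = 56 * u ^ κ := by
      field_simp
      ring
    have e3 : 112 * (u ^ κ / u ^ κ') * (u ^ κ' / 2) ≤ 112 * (u ^ κ / u ^ κ') * r :=
      mul_le_mul_of_nonneg_left hrge' (by positivity)
    linarith
  -- the thickness
  have hv : Real.log k - u ≤ 2 * u ^ κ / n j := by
    rw [hu, ← Real.log_div hk0.ne' hnj0.ne']
    have e1 := Real.log_le_sub_one_of_pos (div_pos hk0 hnj0)
    refine e1.trans ?_
    have e2 : (k : ℝ) / n j - 1 = (k - n j) / n j := by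
      rw [sub_div, div_self hnj0.ne']
    rw [e2]
    exact div_le_div_of_nonneg_right (by linarith) hnj0.le
  have huv : u ≤ Real.log k := Real.log_le_log hnj0 hjk'
  have hgrow : (Real.log k) ^ κ' ≤ u ^ κ' + 1 := by
    refine NETC_grow hκ' hu1.le huv hnj0 hv ?_ ?_
    · calc 2 * κ' * u ^ κ ≤ 2 * κ' * (1 / (2 * κ') * n j) :=
            mul_le_mul_of_nonneg_left a6 (by positivity)
        _ = n j := by field_simp
    · calc 4 * κ' * u ^ (κ + κ') ≤ 4 * κ' * (1 / (4 * κ') * n j) :=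
            mul_le_mul_of_nonneg_left a7 (by positivity)
        _ = n j := by field_simp
  have hr2 : ⌊(Real.log k) ^ κ'⌋₊ = r ∨ ⌊(Real.log k) ^ κ'⌋₊ = r + 1 := by
    have e1 : r ≤ ⌊(Real.log k) ^ κ'⌋₊ :=
      Nat.floor_le_floor (Real.rpow_le_rpow hu0.le huv hκ'.le)
    have e2 : ⌊(Real.log k) ^ κ'⌋₊ ≤ r + 1 := by
      have e3 := Nat.floor_le_floor hgrow
      rwa [Nat.floor_add_one p1.le] at e3
    omega
  have b2 : ‖avgC (sl k ⌊(Real.log k) ^ κ'⌋₊) (fourier m) x - avgC (sl k r) (fourier m) x‖ < ε / 3 := by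
    rcases hr2 with h | h
    · rw [h, sub_self, norm_zero]
      exact hε3
    · rw [h]
      refine lt_of_le_of_lt (NETC_thick k r hrr (hrn.trans hjk) m x) ?_
      refine lt_of_le_of_lt ?_ a5
      rw [div_le_iff₀ hr0]
      have e1 : u ^ (-κ') = (u ^ κ')⁻¹ := Real.rpow_neg hu0.le _
      rw [e1]
      have e2 : 24 * (u ^ κ')⁻¹ * (u ^ κ' / 2) = 12 := by
        field_simp
        norm_num
      have e3 : 24 * (u ^ κ')⁻¹ * (u ^ κ' / 2) ≤ 24 * (u ^ κ')⁻¹ * r :=
        mul_le_mul_of_nonneg_left hrge' (by positivity)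
      linarith
  rw [dist_eq_norm]
  have e : avgC (sl k ⌊(Real.log k) ^ κ'⌋₊) (fourier m) x - c =
      (avgC (sl k ⌊(Real.log k) ^ κ'⌋₊) (fourier m) x - avgC (sl k r) (fourier m) x) +
      (avgC (sl k r) (fourier m) x - avgC (sl (n j) r) (fourier m) x) +
      (avgC (sl (n j) r) (fourier m) x - c) := by ring
  rw [e]
  refine lt_of_le_of_lt (norm_add₃_le) ?_
  linarith

end Pool.Agent.Half
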