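import Pool.Agent.Half.HDefs
import Pool.Agent.Ord2.Arith

/-! Module SLB. Elements of the slices. PROOF: `2^a 3^b = 2^(a + fl b) θ_b`, `1 ≤ θ_b < 2` (`Ord2.three_pow`,
`Ord2.th_mem`). `fl` is strictly increasing since `α > 1` and `fl b ≤ 2 b` since `α < 2`, so `{b : fl b ≤ n}` is the
initial segment `range (bb n)` and `n/2 + 1 ≤ bb n ≤ n + 1`. For `b < bb n` exactly the `r` values `a = n - fl b + i`,
`i < r`; for the other `b` (at most `r` of them, since `n < fl b < n + r`) at most `r` values. -/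

open MeasureTheory Filter Topology

namespace Pool.Agent.Half

theorem SLB_two_le (k a b : ℕ) : 2 ^ k ≤ 2 ^ a * 3 ^ b ↔ k ≤ a + Ord2.fl b := by
  have e : ((2 ^ a * 3 ^ b : ℕ) : ℝ) = 2 ^ (a + Ord2.fl b) * Ord2.th b := by
    push_cast
    rw [Ord2.three_pow b, pow_add]
    ring
  have hth := Ord2.th_mem b
  constructor
  · intro h
    by_contra hc
    have hk : a + Ord2.fl b + 1 ≤ k := by omega
    have h1 : ((2 ^ k : ℕ) : ℝ) ≤ ((2 ^ a * 3 ^ b : ℕ) : ℝ) := by exact_mod_cast h
    rw [e] at h1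
    push_cast at h1
    have h2 : (2 : ℝ) ^ (a + Ord2.fl b + 1) ≤ 2 ^ k := pow_le_pow_right₀ (by norm_num) hk
    have h3 : (2 : ℝ) ^ (a + Ord2.fl b) * Ord2.th b < 2 ^ (a + Ord2.fl b) * 2 :=
      mul_lt_mul_of_pos_left hth.2 (by positivity)
    rw [pow_succ] at h2
    linarith
  · intro h
    have h2 : (2 : ℝ) ^ k ≤ 2 ^ (a + Ord2.fl b) := pow_le_pow_right₀ (by norm_num) h
    have h3 : (2 : ℝ) ^ (a + Ord2.fl b) * 1 ≤ 2 ^ (a + Ord2.fl b) * Ord2.th b :=
      mul_le_mul_of_nonneg_left hth.1 (by positivity)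
    have h1 : ((2 ^ k : ℕ) : ℝ) ≤ ((2 ^ a * 3 ^ b : ℕ) : ℝ) := by
      rw [e]
      push_cast
      linarith
    exact_mod_cast h1

theorem SLB_le_fl (b : ℕ) : b ≤ Ord2.fl b := by
  unfold Ord2.fl
  apply Nat.le_floor
  have := Ord2.al_bounds.1
  nlinarith [(Nat.cast_nonneg b : (0 : ℝ) ≤ b)]

theorem SLB_fl_succ (b : ℕ) : Ord2.fl b + 1 ≤ Ord2.fl (b + 1) := by
  unfold Ord2.fl
  apply Nat.le_floor
  have h0 : 0 ≤ (b : ℝ) * Ord2.al := mul_nonneg (Nat.cast_nonneg b) (by linarith [Ord2.al_bounds.1])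
  have h1 := Nat.floor_le h0
  have := Ord2.al_bounds.1
  push_cast
  nlinarith

theorem SLB_fl_mono : StrictMono Ord2.fl := strictMono_nat_of_lt_succ fun b => SLB_fl_succ b

theorem mem_sl (n r a b : ℕ) : (a, b) ∈ sl n r ↔ n ≤ a + Ord2.fl b ∧ a + Ord2.fl b < n + r := by
  unfold sl
  rw [Finset.mem_filter, Finset.mem_product, Finset.mem_range, Finset.mem_range]
  have h1 := SLB_two_le n a b
  have h2 := SLB_two_le (n + r) a b
  have h3 := SLB_le_fl b
  simp only
  constructor
  · rintro ⟨-, h4, h5⟩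
    refine ⟨h1.1 h4, ?_⟩
    by_contra hc
    exact absurd (h2.2 (not_lt.1 hc)) (not_le.2 h5)
  · rintro ⟨h4, h5⟩
    refine ⟨⟨by omega, by omega⟩, h1.2 h4, ?_⟩
    by_contra hc
    exact absurd (h2.1 (not_lt.1 hc)) (not_le.2 h5)

theorem fl_lt_iff (n b : ℕ) : Ord2.fl b ≤ n ↔ b < bb n := by
  unfold bb
  constructor
  · intro h
    have hsub : Finset.range (b + 1) ⊆ (Finset.range (n + 1)).filter fun b => Ord2.fl b ≤ n := by
      intro c hc
      rw [Finset.mem_range] at hc
      have h1 : Ord2.fl c ≤ Ord2.fl b := SLB_fl_mono.monotone (by omega)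
      have h2 := SLB_le_fl c
      rw [Finset.mem_filter, Finset.mem_range]
      exact ⟨by omega, by omega⟩
    have := Finset.card_le_card hsub
    rw [Finset.card_range] at this
    omega
  · intro h
    by_contra hc
    have hsub : ((Finset.range (n + 1)).filter fun b => Ord2.fl b ≤ n) ⊆ Finset.range b := by
      intro c hcm
      rw [Finset.mem_filter, Finset.mem_range] at hcm
      rw [Finset.mem_range]
      by_contra hcb
      have h1 : Ord2.fl b ≤ Ord2.fl c := SLB_fl_mono.monotone (by omega)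
      omega
    have := Finset.card_le_card hsub
    rw [Finset.card_range] at this
    omega

theorem bb_bounds (n : ℕ) : n < 2 * bb n ∧ bb n ≤ n + 1 := by
  constructor
  · have h1 : Ord2.fl (n / 2) ≤ n := (Ord2.fl_le (n / 2)).trans (by omega)
    have h2 := (fl_lt_iff n (n / 2)).1 h1
    omega
  · unfold bb
    refine (Finset.card_filter_le _ _).trans ?_
    rw [Finset.card_range]

/-- the main part of the slice -/
theorem sl_main (n r : ℕ) : (sl n r).filter (fun p => p.2 < bb n) =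
    (Finset.range r ×ˢ Finset.range (bb n)).image (fun p => (n - Ord2.fl p.2 + p.1, p.2)) := by
  ext ⟨a, b⟩
  rw [Finset.mem_filter, mem_sl, Finset.mem_image]
  constructor
  · rintro ⟨⟨h1, h2⟩, h3⟩
    have h4 := (fl_lt_iff n b).2 h3
    refine ⟨(a + Ord2.fl b - n, b), ?_, ?_⟩
    · rw [Finset.mem_product, Finset.mem_range, Finset.mem_range]
      exact ⟨by simp only; omega, h3⟩
    · simp only [Prod.mk.injEq, and_true]
      omega
  · rintro ⟨⟨i, c⟩, h1, h2⟩
    rw [Finset.mem_product, Finset.mem_range, Finset.mem_range] at h1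
    simp only [Prod.mk.injEq] at h2 h1
    obtain ⟨h3, rfl⟩ := h2
    have h4 := (fl_lt_iff n c).2 h1.2
    exact ⟨⟨by omega, by omega⟩, h1.2⟩

theorem sl_rest (n r : ℕ) : ((sl n r).filter (fun p => ¬ p.2 < bb n)).card ≤ r * r := by
  have h : ((sl n r).filter (fun p => ¬ p.2 < bb n)).card ≤
      (Finset.range r ×ˢ Finset.range r).card := by
    apply Finset.card_le_card_of_injOn (fun p => (p.1, Ord2.fl p.2 - n))
    · rintro ⟨a, b⟩ hp
      rw [Finset.mem_coe, Finset.mem_filter, mem_sl] at hp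
      rw [Finset.mem_coe, Finset.mem_product, Finset.mem_range, Finset.mem_range]
      have h1 : ¬ Ord2.fl b ≤ n := fun h => hp.2 ((fl_lt_iff n b).1 h)
      simp only
      exact ⟨by omega, by omega⟩
    · rintro ⟨a, b⟩ hp ⟨a', b'⟩ hp' he
      rw [Finset.mem_coe, Finset.mem_filter] at hp hp'
      simp only [Prod.mk.injEq] at he ⊢
      have h1 : ¬ Ord2.fl b ≤ n := fun h => hp.2 ((fl_lt_iff n b).1 h)
      have h2 : ¬ Ord2.fl b' ≤ n := fun h => hp'.2 ((fl_lt_iff n b').1 h)
      refine ⟨he.1, SLB_fl_mono.injective ?_⟩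
      omega
  rw [Finset.card_product, Finset.card_range] at h
  exact h

theorem SLB_main_card (n r : ℕ) : ((sl n r).filter (fun p => p.2 < bb n)).card = r * bb n := by
  rw [sl_main, Finset.card_image_of_injOn, Finset.card_product, Finset.card_range, Finset.card_range]
  rintro ⟨a, b⟩ - ⟨a', b'⟩ - he
  simp only [Prod.mk.injEq] at he ⊢
  obtain ⟨h1, rfl⟩ := he
  exact ⟨by omega, rfl⟩

theorem sl_card (n r : ℕ) : r * bb n ≤ (sl n r).card := by
  rw [← SLB_main_card]
  exact Finset.card_filter_le _ _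

end Pool.Agent.Half
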