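import Pool.Agent.Half.SlB

/-! Module SLC (S1). PROOF: on the main part `2^(n - fl b + i) 3^b z = 2^(n+i) θ_b z`, so its sum is
`∑_{i<r} bb n * FB (bb n) (m 2^i (2^n z))`; the rest has at most `r * r` terms of norm `1`; divide by
`card ≥ r * bb n`. -/

open MeasureTheory Filter Topology

namespace Pool.Agent.Half

theorem SLC_term (n i b : ℕ) (hb : Ord2.fl b ≤ n) (m : ℤ) (z : ℝ) :
    fourier m ((2 ^ (n - Ord2.fl b + i) * 3 ^ b : ℕ) • (z : T)) =
      Complex.exp (2 * Real.pi * Complex.I * (((m : ℝ) * 2 ^ i * (2 ^ n * z)) * Ord2.th b : ℝ)) := by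
  have e : ((2 ^ (n - Ord2.fl b + i) * 3 ^ b : ℕ) : ℝ) = 2 ^ (n + i) * Ord2.th b := by
    push_cast
    rw [Ord2.three_pow b, ← mul_assoc, ← pow_add]
    congr 2
    omega
  have e2 : (2 ^ (n - Ord2.fl b + i) * 3 ^ b : ℕ) • (z : T) =
      (((2 ^ (n - Ord2.fl b + i) * 3 ^ b : ℕ) : ℝ) * z : ℝ) := by
    rw [← AddCircle.coe_nsmul, nsmul_eq_mul]
  rw [e2, fourier_coe_apply, e]
  congr 1
  push_cast
  rw [pow_add]
  ring

theorem SLC_main (n r : ℕ) (m : ℤ) (z : ℝ) :
    ∑ p ∈ (sl n r).filter (fun p => p.2 < bb n), fourier m ((2 ^ p.1 * 3 ^ p.2 : ℕ) • (z : T)) =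
      ∑ i ∈ Finset.range r, (bb n : ℂ) * FB (bb n) ((m : ℝ) * 2 ^ i * (2 ^ n * z)) := by
  rw [sl_main, Finset.sum_image, Finset.sum_product]
  · apply Finset.sum_congr rfl
    intro i _
    have hb : (bb n : ℂ) ≠ 0 := by
      have := (bb_bounds n).1
      have h2 : bb n ≠ 0 := by omega
      exact_mod_cast h2
    unfold FB
    rw [mul_div_cancel₀ _ hb]
    apply Finset.sum_congr rfl
    intro b hbm
    rw [Finset.mem_range] at hbm
    exact SLC_term n i b ((fl_lt_iff n b).2 hbm) m z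
  · rintro ⟨a, b⟩ - ⟨a', b'⟩ - he
    simp only [Prod.mk.injEq] at he ⊢
    obtain ⟨h1, rfl⟩ := he
    exact ⟨by omega, rfl⟩

theorem sl_char (n r : ℕ) (hr : 0 < r) (m : ℤ) (z : ℝ) :
    ‖avgC (sl n r) (fourier m) (z : T)‖ ≤
      (∑ i ∈ Finset.range r, ‖FB (bb n) ((m : ℝ) * 2 ^ i * (2 ^ n * z))‖) / r + (r : ℝ) / bb n := by
  have hb : 0 < bb n := by
    have := (bb_bounds n).1
    omega
  have hb' : (0 : ℝ) < bb n := by exact_mod_cast hb
  have hr' : (0 : ℝ) < r := by exact_mod_cast hr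
  set S := ∑ i ∈ Finset.range r, ‖FB (bb n) ((m : ℝ) * 2 ^ i * (2 ^ n * z))‖ with hS
  have hS0 : 0 ≤ S := Finset.sum_nonneg fun _ _ => norm_nonneg _
  have hsum : ‖∑ p ∈ sl n r, fourier m ((2 ^ p.1 * 3 ^ p.2 : ℕ) • (z : T))‖ ≤ bb n * S + r * r := by
    rw [← Finset.sum_filter_add_sum_filter_not (sl n r) (fun p => p.2 < bb n)]
    refine (norm_add_le _ _).trans (add_le_add ?_ ?_)
    · rw [SLC_main, hS, Finset.mul_sum]
      refine (norm_sum_le _ _).trans (Finset.sum_le_sum ?_)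
      intro i _
      rw [norm_mul, Complex.norm_natCast]
    · refine (norm_sum_le _ _).trans ?_
      have h1 : ∑ p ∈ (sl n r).filter (fun p => ¬ p.2 < bb n),
          ‖fourier m ((2 ^ p.1 * 3 ^ p.2 : ℕ) • (z : T))‖ =
          ((sl n r).filter (fun p => ¬ p.2 < bb n)).card := by
        rw [Finset.sum_congr rfl (g := fun _ => (1 : ℝ))]
        · rw [Finset.sum_const, nsmul_eq_mul, mul_one]
        · intro p _
          rw [fourier_apply]
          exact Circle.norm_coe _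
      rw [h1]
      exact_mod_cast sl_rest n r
  unfold avgC
  rw [norm_div, Complex.norm_natCast]
  have hcard : (r : ℝ) * bb n ≤ ((sl n r).card : ℝ) := by exact_mod_cast sl_card n r
  have hpos : (0 : ℝ) < r * bb n := mul_pos hr' hb'
  calc ‖∑ p ∈ sl n r, fourier m ((2 ^ p.1 * 3 ^ p.2 : ℕ) • (z : T))‖ / ((sl n r).card : ℝ)
      ≤ (bb n * S + r * r) / ((sl n r).card : ℝ) :=
        div_le_div_of_nonneg_right hsum (by positivity)
    _ ≤ (bb n * S + r * r) / (r * bb n) :=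
        div_le_div_of_nonneg_left (by positivity) hpos hcard
    _ = S / r + (r : ℝ) / bb n := by
        field_simp

end Pool.Agent.Half
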