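import Pool.Agent.Half.NetA
import Pool.Agent.Half.NetC
import Pool.Agent.Half.SlB
import Pool.Agent.Half.SlC
import Pool.Agent.Ord2.Cor

/-! A Bessel bound growing like `(log N) ^ β`, `β < 2`, and convergence along slices (helper56). -/

open MeasureTheory Filter Topology
open scoped ENNReal

namespace Pool.Agent.Half

theorem BC_weight {w r : ℕ → ℝ} (hw : ∀ j, 0 ≤ w j) (hr : ∀ j, 0 ≤ r j) {C c b : ℝ} (hb : 0 ≤ b) (hbc : b < c)
    (hC : ∀ L : ℝ, 0 ≤ L → ∀ J : ℕ, ∑ j ∈ (Finset.range J).filter (fun j => L ≤ r j + 1), w j ≤ C * (1 + L) ^ (-c)) :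
    ∃ C' : ℝ, ∀ J : ℕ, ∑ j ∈ Finset.range J, (r j + 1) ^ b * w j ≤ C' := by
  have hC0 : 0 ≤ C := by
    have h := hC 0 le_rfl 0
    simpa using h
  set q : ℝ := (2 : ℝ) ^ (b - c) with hq
  have hq0 : 0 < q := by positivity
  have hq1 : q < 1 := Real.rpow_lt_one_of_one_lt_of_neg (by norm_num) (by linarith)
  refine ⟨2 ^ b * C * (1 - q)⁻¹, fun J => ?_⟩
  obtain ⟨K, hK⟩ : ∃ K : ℕ, ∀ j ∈ Finset.range J, r j + 1 < 2 ^ K := by
    obtain ⟨K0, hK0⟩ := exists_nat_gt (∑ j ∈ Finset.range J, (r j + 1))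
    refine ⟨K0, fun j hj => ?_⟩
    have h1 : r j + 1 ≤ ∑ j ∈ Finset.range J, (r j + 1) :=
      Finset.single_le_sum (f := fun j => r j + 1) (fun i _ => by have := hr i; linarith) hj
    have h2 : (K0 : ℝ) < 2 ^ K0 := by exact_mod_cast Nat.lt_two_pow_self
    linarith
  have h1 : ∀ j ∈ Finset.range J, (r j + 1) ^ b * w j ≤
      ∑ k ∈ Finset.range K, (if (2 : ℝ) ^ k ≤ r j + 1 then (2 : ℝ) ^ (((k : ℝ) + 1) * b) * w j else 0) := by
    intro j hj
    have hrj := hr j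
    have h2 : 1 ≤ r j + 1 := by linarith
    obtain ⟨k, hk1, hk2⟩ : ∃ k : ℕ, (2 : ℝ) ^ k ≤ r j + 1 ∧ r j + 1 < 2 ^ (k + 1) :=
      exists_nat_pow_near h2 (by norm_num)
    have hkK : k ∈ Finset.range K := by
      rw [Finset.mem_range]
      have h3 : (2 : ℝ) ^ k < 2 ^ K := lt_of_le_of_lt hk1 (hK j hj)
      exact (pow_lt_pow_iff_right₀ (by norm_num : (1 : ℝ) < 2)).1 h3
    calc (r j + 1) ^ b * w j ≤ (2 : ℝ) ^ (((k : ℝ) + 1) * b) * w j := by
          apply mul_le_mul_of_nonneg_right _ (hw j)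
          rw [Real.rpow_mul (by norm_num)]
          apply Real.rpow_le_rpow (by linarith) _ hb
          have : (2 : ℝ) ^ ((k : ℝ) + 1) = 2 ^ (k + 1) := by
            rw [← Nat.cast_add_one, Real.rpow_natCast]
          rw [this]
          exact hk2.le
      _ = (if (2 : ℝ) ^ k ≤ r j + 1 then (2 : ℝ) ^ (((k : ℝ) + 1) * b) * w j else 0) := by
          rw [if_pos hk1]
      _ ≤ _ := Finset.single_le_sum
          (f := fun k : ℕ => (if (2 : ℝ) ^ k ≤ r j + 1 then (2 : ℝ) ^ (((k : ℝ) + 1) * b) * w j else 0))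
          (fun i _ => by
            split_ifs
            · exact mul_nonneg (by positivity) (hw j)
            · exact le_rfl) hkK
  calc ∑ j ∈ Finset.range J, (r j + 1) ^ b * w j
      ≤ ∑ j ∈ Finset.range J, ∑ k ∈ Finset.range K,
          (if (2 : ℝ) ^ k ≤ r j + 1 then (2 : ℝ) ^ (((k : ℝ) + 1) * b) * w j else 0) := Finset.sum_le_sum h1
    _ = ∑ k ∈ Finset.range K, ∑ j ∈ Finset.range J,
          (if (2 : ℝ) ^ k ≤ r j + 1 then (2 : ℝ) ^ (((k : ℝ) + 1) * b) * w j else 0) := Finset.sum_comm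
    _ ≤ ∑ k ∈ Finset.range K, 2 ^ b * C * q ^ k := by
        apply Finset.sum_le_sum
        intro k _
        rw [← Finset.sum_filter, ← Finset.mul_sum]
        have h3 := hC ((2 : ℝ) ^ k) (by positivity) J
        have h4 : (1 + (2 : ℝ) ^ k) ^ (-c) ≤ ((2 : ℝ) ^ k) ^ (-c) := by
          apply Real.rpow_le_rpow_of_nonpos (by positivity) (by linarith) (by linarith)
        calc (2 : ℝ) ^ (((k : ℝ) + 1) * b) * ∑ j ∈ (Finset.range J).filter (fun j => (2 : ℝ) ^ k ≤ r j + 1), w j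
            ≤ (2 : ℝ) ^ (((k : ℝ) + 1) * b) * (C * ((2 : ℝ) ^ k) ^ (-c)) := by
              apply mul_le_mul_of_nonneg_left _ (by positivity)
              exact h3.trans (mul_le_mul_of_nonneg_left h4 hC0)
          _ = 2 ^ b * C * q ^ k := by
              rw [hq, ← Real.rpow_natCast (2 : ℝ) k, ← Real.rpow_mul (by norm_num), ← Real.rpow_natCast,
                ← Real.rpow_mul (by norm_num)]
              have e : (2 : ℝ) ^ (((k : ℝ) + 1) * b) * (2 : ℝ) ^ ((k : ℝ) * -c) =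
                  2 ^ b * (2 : ℝ) ^ ((b - c) * (k : ℝ)) := by
                rw [← Real.rpow_add (by norm_num), ← Real.rpow_add (by norm_num)]
                congr 1
                ring
              calc _ = C * ((2 : ℝ) ^ (((k : ℝ) + 1) * b) * (2 : ℝ) ^ ((k : ℝ) * -c)) := by ring
                _ = _ := by rw [e]; ring
    _ = 2 ^ b * C * ∑ k ∈ Finset.range K, q ^ k := by rw [Finset.mul_sum]
    _ ≤ 2 ^ b * C * (1 - q)⁻¹ := by
        apply mul_le_mul_of_nonneg_left _ (by positivity)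
        have h5 := (summable_geometric_of_lt_one hq0.le hq1).sum_le_tsum (Finset.range K) (fun i _ => by positivity)
        rwa [tsum_geometric_of_lt_one hq0.le hq1] at h5

theorem BC_var (μ : Measure T) [IsProbabilityMeasure μ] {β C : ℝ} (m : ℤ)
    (hB : ∀ N : ℕ, 1 ≤ N → ∀ (S : Finset (ℕ × ℕ)) (a : ℕ × ℕ → ℂ), (∀ p ∈ S, p.1 + p.2 ≤ N) →
      ∫ x, ‖∑ p ∈ S, a p * (fourier (m * (2 ^ p.1 * 3 ^ p.2)) x - Ord2.cf μ m)‖ ^ 2 ∂μ ≤
        C * (1 + Real.log N) ^ β * ∑ p ∈ S, ‖a p‖ ^ 2) (n r : ℕ) (hn : 1 ≤ n) (hr : 1 ≤ r) :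
    ∫⁻ x, ENNReal.ofReal (‖avgC (sl n r) (fourier m) x - Ord2.cf μ m‖ ^ 2) ∂μ ≤
      ENNReal.ofReal (C * (1 + Real.log ((n : ℝ) + r)) ^ β / (sl n r).card) := by
  have hbb : 0 < bb n := by
    have := (bb_bounds n).1
    omega
  have hcard : 0 < (sl n r).card := lt_of_lt_of_le (Nat.mul_pos (by omega) hbb) (sl_card n r)
  have hcR : (0 : ℝ) < (sl n r).card := by exact_mod_cast hcard
  have hcC : ((sl n r).card : ℂ) ≠ 0 := by exact_mod_cast hcard.ne'
  have h1 := hB (n + r) (by omega) (sl n r) (fun _ => ((sl n r).card : ℂ)⁻¹) (by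
    rintro ⟨a, b⟩ hp
    rw [mem_sl] at hp
    have := SLB_le_fl b
    simp only
    omega)
  have h2 : ∀ x : T, ∑ p ∈ sl n r, ((sl n r).card : ℂ)⁻¹ * (fourier (m * (2 ^ p.1 * 3 ^ p.2)) x - Ord2.cf μ m) =
      avgC (sl n r) (fourier m) x - Ord2.cf μ m := by
    intro x
    unfold avgC
    rw [← Finset.mul_sum, Finset.sum_sub_distrib, Finset.sum_const, nsmul_eq_mul, mul_sub,
      ← mul_assoc, inv_mul_cancel₀ hcC, one_mul, div_eq_inv_mul]
    congr 2
    apply Finset.sum_congr rfl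
    rintro ⟨a, b⟩ _
    rw [Ord2.fourier_nsmul']
    push_cast
    ring_nf
  simp only [h2] at h1
  rw [Finset.sum_const, norm_inv, Complex.norm_natCast, nsmul_eq_mul] at h1
  rw [← ofReal_integral_eq_lintegral_ofReal]
  · apply ENNReal.ofReal_le_ofReal
    refine h1.trans (le_of_eq ?_)
    push_cast
    field_simp
  · have hc : Continuous (fun x : T => ‖avgC (sl n r) (fourier m) x - Ord2.cf μ m‖ ^ 2) := by
      unfold avgC
      exact (((continuous_finsetSum _ fun p _ =>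
        (map_continuous (fourier m)).comp (continuous_nsmul _)).div_const _).sub continuous_const).norm.pow 2
    exact hc.integrable_of_hasCompactSupport (HasCompactSupport.of_compactSpace _)
  · exact Filter.Eventually.of_forall fun x => by positivity

theorem bessel_conv (μ : Measure T) [IsProbabilityMeasure μ] {κ κ' β C : ℝ} (h0 : 0 < κ) (h1 : κ < κ')
    (hβ0 : 0 ≤ β) (hβ : β < κ + κ' - 1) (m : ℤ)
    (hB : ∀ N : ℕ, 1 ≤ N → ∀ (S : Finset (ℕ × ℕ)) (a : ℕ × ℕ → ℂ), (∀ p ∈ S, p.1 + p.2 ≤ N) →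
      ∫ x, ‖∑ p ∈ S, a p * (fourier (m * (2 ^ p.1 * 3 ^ p.2)) x - Ord2.cf μ m)‖ ^ 2 ∂μ ≤
        C * (1 + Real.log N) ^ β * ∑ p ∈ S, ‖a p‖ ^ 2) :
    ∀ᵐ x ∂μ, Tendsto (fun k : ℕ => avgC (sl k ⌊(Real.log k) ^ κ'⌋₊) (fourier m) x) atTop
      (𝓝 (Ord2.cf μ m)) := by
  have hκ'0 : 0 < κ' := h0.trans h1
  obtain ⟨n, Cn, hn, hn3, hgap, hC⟩ := net_exists h0 h1 (by linarith) (le_refl ((κ + κ' - 1) / κ'))
  have hC0 : 0 ≤ C := by
    have h := hB 1 le_rfl {(0, 0)} (fun _ => 1) (by simp)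
    have h2 : 0 ≤ ∫ x, ‖∑ p ∈ ({(0, 0)} : Finset (ℕ × ℕ)), (1 : ℂ) * (fourier (m * (2 ^ p.1 * 3 ^ p.2)) x - Ord2.cf μ m)‖ ^ 2 ∂μ :=
      integral_nonneg fun x => by positivity
    have h3 := h2.trans h
    simpa using h3
  obtain ⟨C', hC'⟩ := BC_weight (w := fun j => 1 / ((n j : ℝ) * ⌊(Real.log (n j)) ^ κ'⌋₊))
    (r := fun j => (⌊(Real.log (n j)) ^ κ'⌋₊ : ℝ)) (fun j => by positivity) (fun j => by positivity)
    (b := β / κ') (c := (κ + κ' - 1) / κ') (by positivity) (div_lt_div_of_pos_right hβ hκ'0) hC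
  refine net_conv μ m κ κ' h0 h1 n hn (fun j => (hn3 j).1) hgap _ ?_
  have hle : ∀ j, ∫⁻ x, ENNReal.ofReal
      (‖avgC (sl (n j) ⌊(Real.log (n j)) ^ κ'⌋₊) (fourier m) x - Ord2.cf μ m‖ ^ 2) ∂μ ≤
      ENNReal.ofReal (2 * C * (3 + κ') ^ β * (((⌊(Real.log (n j)) ^ κ'⌋₊ : ℝ) + 1) ^ (β / κ') *
        (1 / ((n j : ℝ) * ⌊(Real.log (n j)) ^ κ'⌋₊)))) := by
    intro j
    obtain ⟨hj1, hj2⟩ := hn3 j
    set N := n j with hN
    set r := ⌊(Real.log N) ^ κ'⌋₊ with hr
    have hNR : (3 : ℝ) ≤ N := by exact_mod_cast hj1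
    have hrR : (1 : ℝ) ≤ r := by exact_mod_cast hj2
    have hx1 : 1 ≤ Real.log N := by
      rw [Real.le_log_iff_exp_le (by linarith)]
      have := Real.exp_one_lt_d9
      linarith
    set x := Real.log N with hx
    have hrx : (r : ℝ) ≤ x ^ κ' := Nat.floor_le (by positivity)
    have hrx2 : x ^ κ' ≤ r + 1 := (Nat.lt_floor_add_one _).le
    refine (BC_var μ m hB N r (by omega) hj2).trans (ENNReal.ofReal_le_ofReal ?_)
    have hcard : (N : ℝ) * r / 2 ≤ (sl N r).card := by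
      have h2 := sl_card N r
      have h3 := (bb_bounds N).1
      have h4 : r * N ≤ 2 * (sl N r).card := by
        calc r * N ≤ r * (2 * bb N) := Nat.mul_le_mul_left _ h3.le
          _ = 2 * (r * bb N) := by ring
          _ ≤ 2 * (sl N r).card := by omega
      have h5 : (r : ℝ) * N ≤ 2 * (sl N r).card := by exact_mod_cast h4
      linarith
    have hpos : 0 < (N : ℝ) * r / 2 := by positivity
    have hlog : 1 + Real.log ((N : ℝ) + r) ≤ (3 + κ') * x := by
      have e1 : (N : ℝ) + r ≤ N * (2 * x ^ κ') := by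
        have h6 : 1 ≤ x ^ κ' := Real.one_le_rpow hx1 hκ'0.le
        nlinarith
      have e2 : Real.log ((N : ℝ) + r) ≤ Real.log (N * (2 * x ^ κ')) :=
        Real.log_le_log (by positivity) e1
      rw [Real.log_mul (by positivity) (by positivity), Real.log_mul (by norm_num) (by positivity),
        Real.log_rpow (by linarith)] at e2
      have e3 : Real.log x ≤ x := (Real.log_le_sub_one_of_pos (by linarith)).trans (by linarith)
      have e4 : Real.log 2 ≤ 1 := by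
        have := Real.log_two_lt_d9
        linarith
      have e5 : κ' * Real.log x ≤ κ' * x := mul_le_mul_of_nonneg_left e3 hκ'0.le
      nlinarith
    have hlog0 : 0 ≤ 1 + Real.log ((N : ℝ) + r) := by
      have : 0 ≤ Real.log ((N : ℝ) + r) := Real.log_nonneg (by linarith)
      linarith
    have h7 : (1 + Real.log ((N : ℝ) + r)) ^ β ≤ (3 + κ') ^ β * ((r : ℝ) + 1) ^ (β / κ') := by
      calc (1 + Real.log ((N : ℝ) + r)) ^ β ≤ ((3 + κ') * x) ^ β := Real.rpow_le_rpow hlog0 hlog hβ0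
        _ = (3 + κ') ^ β * x ^ β := Real.mul_rpow (by linarith) (by linarith)
        _ = (3 + κ') ^ β * (x ^ κ') ^ (β / κ') := by
            rw [← Real.rpow_mul (by linarith), mul_div_cancel₀ _ hκ'0.ne']
        _ ≤ _ := by
            apply mul_le_mul_of_nonneg_left _ (by positivity)
            exact Real.rpow_le_rpow (by positivity) hrx2 (by positivity)
    calc C * (1 + Real.log ((N : ℝ) + r)) ^ β / (sl N r).card
        ≤ C * (1 + Real.log ((N : ℝ) + r)) ^ β / ((N : ℝ) * r / 2) := by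
          apply div_le_div_of_nonneg_left _ hpos hcard
          exact mul_nonneg hC0 (Real.rpow_nonneg hlog0 _)
      _ ≤ C * ((3 + κ') ^ β * ((r : ℝ) + 1) ^ (β / κ')) / ((N : ℝ) * r / 2) := by
          apply div_le_div_of_nonneg_right _ hpos.le
          exact mul_le_mul_of_nonneg_left h7 hC0
      _ = _ := by
          field_simp
  have hsum : ∀ J : ℕ, ∑ j ∈ Finset.range J, ∫⁻ x, ENNReal.ofReal
      (‖avgC (sl (n j) ⌊(Real.log (n j)) ^ κ'⌋₊) (fourier m) x - Ord2.cf μ m‖ ^ 2) ∂μ ≤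
      ENNReal.ofReal (2 * C * (3 + κ') ^ β * C') := by
    intro J
    calc _ ≤ ∑ j ∈ Finset.range J, ENNReal.ofReal (2 * C * (3 + κ') ^ β * (((⌊(Real.log (n j)) ^ κ'⌋₊ : ℝ) + 1) ^ (β / κ') *
        (1 / ((n j : ℝ) * ⌊(Real.log (n j)) ^ κ'⌋₊)))) := Finset.sum_le_sum fun j _ => hle j
      _ = ENNReal.ofReal (∑ j ∈ Finset.range J, (2 * C * (3 + κ') ^ β * (((⌊(Real.log (n j)) ^ κ'⌋₊ : ℝ) + 1) ^ (β / κ') *
        (1 / ((n j : ℝ) * ⌊(Real.log (n j)) ^ κ'⌋₊))))) := by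
          rw [ENNReal.ofReal_sum_of_nonneg]
          intro j _
          positivity
      _ ≤ _ := by
          apply ENNReal.ofReal_le_ofReal
          rw [← Finset.mul_sum]
          exact mul_le_mul_of_nonneg_left (hC' J) (by positivity)
  exact ne_top_of_le_ne_top ENNReal.ofReal_ne_top (ENNReal.tsum_le_of_sum_range_le hsum)

end Pool.Agent.Half
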