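import Pool.Agent.Half.SlB

/-! Module SLF (S2). PROOF: an element of `sl n r \ sh (1,0) (sl n r)` has `a = 0` or `a + fl b = n`; an element of
`sh (1,0) (sl n r) \ sl n r` has `a + fl b = n + r`; for every `b` at most one `a`, and `b < n + r + 1`. For `(0, 1)`:
`fl (b+1) - fl b ∈ {1, 2}`: `b = 0` or `a + fl b ∈ {n, n + 1}` resp. `a + fl b ∈ {n + r, n + r + 1}` (at most two `a` for
every `b`). So both symmetric differences have at most `8 (n + r + 2)` elements, and `card ≥ r * bb n ≥ r * n / 2`. -/

open MeasureTheory Filter Topology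

namespace Pool.Agent.Half

private theorem slf_zero : Ord2.fl 0 = 0 := by
  unfold Ord2.fl
  simp

private theorem slf_succ (b : ℕ) : Ord2.fl b + 1 ≤ Ord2.fl (b + 1) ∧ Ord2.fl (b + 1) ≤ Ord2.fl b + 2 := by
  have h := Ord2.al_bounds
  have h0 : 0 ≤ (b : ℝ) * Ord2.al := mul_nonneg (Nat.cast_nonneg b) (by linarith [h.1])
  unfold Ord2.fl
  constructor
  · rw [← Nat.floor_add_one h0]
    apply Nat.floor_le_floor
    push_cast
    linarith [h.1]
  · have e : ⌊(b : ℝ) * Ord2.al⌋₊ + 2 = ⌊(b : ℝ) * Ord2.al + (2 : ℕ)⌋₊ :=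
      (Nat.floor_add_natCast h0 2).symm
    rw [e]
    apply Nat.floor_le_floor
    push_cast
    linarith [h.2]

private theorem slf_le (b : ℕ) : b ≤ Ord2.fl b := by
  induction b with
  | zero => exact Nat.zero_le _
  | succ n ih => have := (slf_succ n).1; omega

private theorem slf_card (n r : ℕ) (f : ℕ → ℕ × ℕ) :
    ((Finset.range (n + r + 2)).image f).card ≤ n + r + 2 := by
  refine Finset.card_image_le.trans ?_
  rw [Finset.card_range]

theorem symm_one (n r : ℕ) : (symmDiff (sl n r) (sh (1, 0) (sl n r))).card ≤ 8 * (n + r + 2) := by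
  have hsub : symmDiff (sl n r) (sh (1, 0) (sl n r)) ⊆
      ((Finset.range (n + r + 2)).image fun b => (0, b)) ∪
      (((Finset.range (n + r + 2)).image fun b => (n - Ord2.fl b, b)) ∪
      ((Finset.range (n + r + 2)).image fun b => (n + r - Ord2.fl b, b))) := by
    rintro ⟨a, b⟩ h
    simp only [Finset.mem_union, Finset.mem_image, Finset.mem_range, Prod.mk.injEq,
      exists_eq_right_right]
    rw [Finset.mem_symmDiff] at h
    rcases h with ⟨h1, h2⟩ | ⟨h1, h2⟩
    · rw [mem_sl] at h1
      have hb := slf_le b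
      rcases Nat.eq_zero_or_pos a with ha | ha
      · left
        exact ⟨by omega, ha.symm⟩
      · right; left
        refine ⟨by omega, ?_⟩
        by_contra hne
        apply h2
        unfold sh
        rw [Finset.mem_image]
        refine ⟨(a - 1, b), ?_, ?_⟩
        · rw [mem_sl]; omega
        · simp only [Prod.mk.injEq]
          omega
    · unfold sh at h1
      rw [Finset.mem_image] at h1
      obtain ⟨⟨a', b'⟩, h3, h4⟩ := h1
      simp only [Prod.mk.injEq] at h4
      obtain ⟨h4, h5⟩ := h4
      rw [mem_sl] at h3 h2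
      have hb := slf_le b
      have hbb : b' = b := by omega
      subst hbb
      right; right
      refine ⟨by omega, by omega⟩
  refine (Finset.card_le_card hsub).trans ?_
  have h1 := slf_card n r (fun b => (0, b))
  have h2 := slf_card n r (fun b => (n - Ord2.fl b, b))
  have h3 := slf_card n r (fun b => (n + r - Ord2.fl b, b))
  refine (Finset.card_union_le _ _).trans ?_
  have h4 := Finset.card_union_le ((Finset.range (n + r + 2)).image fun b => (n - Ord2.fl b, b))
    ((Finset.range (n + r + 2)).image fun b => (n + r - Ord2.fl b, b))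
  omega

theorem symm_two (n r : ℕ) : (symmDiff (sl n r) (sh (0, 1) (sl n r))).card ≤ 8 * (n + r + 2) := by
  have hsub : symmDiff (sl n r) (sh (0, 1) (sl n r)) ⊆
      ((Finset.range (n + r + 2)).image fun a => (a, 0)) ∪
      (((Finset.range (n + r + 2)).image fun b => (n - Ord2.fl b, b)) ∪
      (((Finset.range (n + r + 2)).image fun b => (n + 1 - Ord2.fl b, b)) ∪
      (((Finset.range (n + r + 2)).image fun b => (n + r - Ord2.fl b, b)) ∪
      ((Finset.range (n + r + 2)).image fun b => (n + r + 1 - Ord2.fl b, b))))) := by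
    rintro ⟨a, b⟩ h
    simp only [Finset.mem_union, Finset.mem_image, Finset.mem_range, Prod.mk.injEq,
      exists_eq_right_right, exists_eq_right, exists_eq_left]
    rw [Finset.mem_symmDiff] at h
    have hb := slf_le b
    rcases h with ⟨h1, h2⟩ | ⟨h1, h2⟩
    · rw [mem_sl] at h1
      rcases Nat.eq_zero_or_pos b with hb0 | hb0
      · left
        refine ⟨a, by omega, rfl, hb0.symm⟩
      · right
        have hs := slf_succ (b - 1)
        rw [Nat.sub_add_cancel hb0] at hs
        have h3 : ¬ (n ≤ a + Ord2.fl (b - 1)) := by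
          intro h3
          apply h2
          unfold sh
          rw [Finset.mem_image]
          refine ⟨(a, b - 1), ?_, ?_⟩
          · rw [mem_sl]; omega
          · simp only [Prod.mk.injEq]
            omega
        by_cases h4 : a + Ord2.fl b = n
        · left; exact ⟨by omega, by omega⟩
        · right; left; exact ⟨by omega, by omega⟩
    · unfold sh at h1
      rw [Finset.mem_image] at h1
      obtain ⟨⟨a', b'⟩, h3, h4⟩ := h1
      simp only [Prod.mk.injEq] at h4
      obtain ⟨h4, h5⟩ := h4
      rw [mem_sl] at h3 h2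
      have haa : a' = a := by omega
      subst haa
      have hbb : b = b' + 1 := by omega
      subst hbb
      have hs := slf_succ b'
      right; right; right
      have hb' := slf_le b'
      by_cases h6 : a' + Ord2.fl (b' + 1) = n + r
      · left; exact ⟨by omega, by omega⟩
      · right; exact ⟨by omega, by omega⟩
  refine (Finset.card_le_card hsub).trans ?_
  have h0 := slf_card n r (fun a => (a, 0))
  have h1 := slf_card n r (fun b => (n - Ord2.fl b, b))
  have h2 := slf_card n r (fun b => (n + 1 - Ord2.fl b, b))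
  have h3 := slf_card n r (fun b => (n + r - Ord2.fl b, b))
  have h4 := slf_card n r (fun b => (n + r + 1 - Ord2.fl b, b))
  refine (Finset.card_union_le _ _).trans ?_
  have h5 := Finset.card_union_le ((Finset.range (n + r + 2)).image fun b => (n - Ord2.fl b, b))
    (((Finset.range (n + r + 2)).image fun b => (n + 1 - Ord2.fl b, b)) ∪
      (((Finset.range (n + r + 2)).image fun b => (n + r - Ord2.fl b, b)) ∪
      ((Finset.range (n + r + 2)).image fun b => (n + r + 1 - Ord2.fl b, b))))
  have h6 := Finset.card_union_le ((Finset.range (n + r + 2)).image fun b => (n + 1 - Ord2.fl b, b))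
      (((Finset.range (n + r + 2)).image fun b => (n + r - Ord2.fl b, b)) ∪
      ((Finset.range (n + r + 2)).image fun b => (n + r + 1 - Ord2.fl b, b)))
  have h7 := Finset.card_union_le ((Finset.range (n + r + 2)).image fun b => (n + r - Ord2.fl b, b))
      ((Finset.range (n + r + 2)).image fun b => (n + r + 1 - Ord2.fl b, b))
  omega

private theorem slf_fol (e : ℕ × ℕ) (n ρ : ℕ → ℕ) (hρ : Tendsto ρ atTop atTop)
    (hle : ∀ᶠ k in atTop, ρ k ≤ n k)
    (h : ∀ n r : ℕ, (symmDiff (sl n r) (sh e (sl n r))).card ≤ 8 * (n + r + 2)) :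
    Fol e (fun k => sl (n k) (ρ k)) := by
  unfold Fol
  have hlim : Tendsto (fun k => 64 / (ρ k : ℝ)) atTop (𝓝 0) :=
    tendsto_const_nhds.div_atTop (tendsto_natCast_atTop_atTop.comp hρ)
  refine squeeze_zero' (Eventually.of_forall fun k => by positivity) ?_ hlim
  filter_upwards [hle, hρ.eventually_ge_atTop 1] with k h1 h2
  have h3 := h (n k) (ρ k)
  have h4 := sl_card (n k) (ρ k)
  have h5 := (bb_bounds (n k)).1
  have hρpos : (0 : ℝ) < ρ k := by exact_mod_cast h2
  have hbpos : (0 : ℝ) < bb (n k) := by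
    have : 0 < bb (n k) := by omega
    exact_mod_cast this
  have hcard : (ρ k : ℝ) * bb (n k) ≤ ((sl (n k) (ρ k)).card : ℝ) := by exact_mod_cast h4
  have hcpos : (0 : ℝ) < ((sl (n k) (ρ k)).card : ℝ) := lt_of_lt_of_le (by positivity) hcard
  rw [div_le_div_iff₀ hcpos hρpos]
  have h6 : ((symmDiff (sl (n k) (ρ k)) (sh e (sl (n k) (ρ k)))).card : ℝ) ≤ 64 * bb (n k) := by
    have : (symmDiff (sl (n k) (ρ k)) (sh e (sl (n k) (ρ k)))).card ≤ 64 * bb (n k) := by omega
    exact_mod_cast this
  calc ((symmDiff (sl (n k) (ρ k)) (sh e (sl (n k) (ρ k)))).card : ℝ) * ρ k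
      ≤ (64 * bb (n k)) * ρ k := mul_le_mul_of_nonneg_right h6 hρpos.le
    _ = 64 * ((ρ k : ℝ) * bb (n k)) := by ring
    _ ≤ 64 * ((sl (n k) (ρ k)).card : ℝ) := by linarith

theorem fol_sl (n ρ : ℕ → ℕ) (hρ : Tendsto ρ atTop atTop) (hle : ∀ᶠ k in atTop, ρ k ≤ n k) :
    Fol (1, 0) (fun k => sl (n k) (ρ k)) ∧ Fol (0, 1) (fun k => sl (n k) (ρ k)) :=
  ⟨slf_fol _ n ρ hρ hle symm_one, slf_fol _ n ρ hρ hle symm_two⟩

end Pool.Agent.Half
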