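import Pool.Agent.Half.SlT
import Pool.Agent.Half.SlF

/-! Admissible widths of the slices, and the slices of small differences. -/

open MeasureTheory Filter Topology

namespace Pool.Agent.Half

/-- Widths for which the exponential sums over the slices are small. -/
structure Thick (r : ℕ → ℕ) : Prop where
  tend : Tendsto r atTop atTop
  small : ∀ ε : ℝ, 0 < ε → ∀ᶠ n in atTop, (r n : ℝ) ≤ ε * bb n
  weyl : ∀ c ε : ℝ, 0 < c → 0 < ε → ∃ K0 : ℝ, 0 < K0 ∧ ∃ n0 : ℕ, ∀ n, n0 ≤ n → ∀ B, bb n ≤ B →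
    ∀ s : ℝ, K0 ≤ |s| → |s| ≤ c * 2 ^ r n → ‖FB B s‖ ≤ ε

private theorem kt_pow (r : ℕ → ℕ) (A : ℝ) (hA : ∀ n : ℕ, (r n : ℝ) ≤ A * Real.log (n + 2)) (n : ℕ)
    (hn : 2 ≤ n) : (2 : ℝ) ^ r n ≤ (n : ℝ) ^ (2 * |A|) := by
  have hn' : (2 : ℝ) ≤ n := by exact_mod_cast hn
  have hlog : 0 ≤ Real.log ((n : ℝ) + 2) := Real.log_nonneg (by linarith)
  have h1 : (r n : ℝ) ≤ |A| * Real.log (n + 2) :=
    (hA n).trans (mul_le_mul_of_nonneg_right (le_abs_self A) hlog)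
  calc (2 : ℝ) ^ r n = Real.exp (Real.log 2 * r n) := by
        rw [← Real.rpow_natCast, Real.rpow_def_of_pos (by norm_num)]
    _ ≤ Real.exp (Real.log ((n : ℝ) + 2) * |A|) := by
        apply Real.exp_le_exp.2
        have h2 : Real.log 2 ≤ 1 := by
          have := Real.log_two_lt_d9
          linarith
        have h3 : 0 ≤ (r n : ℝ) := Nat.cast_nonneg _
        nlinarith [Real.log_nonneg (by norm_num : (1 : ℝ) ≤ 2)]
    _ = ((n : ℝ) + 2) ^ |A| := by rw [Real.rpow_def_of_pos (by linarith)]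
    _ ≤ ((n : ℝ) ^ (2 : ℝ)) ^ |A| := by
        apply Real.rpow_le_rpow (by linarith) _ (abs_nonneg A)
        rw [show (2 : ℝ) = ((2 : ℕ) : ℝ) by norm_num, Real.rpow_natCast]
        push_cast
        nlinarith
    _ = (n : ℝ) ^ (2 * |A|) := by rw [← Real.rpow_mul (by linarith)]

theorem KT_bb_mono (n C : ℕ) : bb n ≤ bb (n + C) := by
  by_contra h
  rw [not_le] at h
  have h1 := (fl_lt_iff n (bb (n + C))).2 h
  have h2 := (fl_lt_iff (n + C) (bb (n + C))).1 (by omega)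
  omega

/-- Logarithmic widths are admissible. -/
theorem thick_log (r : ℕ → ℕ) (hr : Tendsto r atTop atTop) (A : ℝ)
    (hA : ∀ n : ℕ, (r n : ℝ) ≤ A * Real.log (n + 2)) : Thick r := by
  have hbb0 : ∀ n, 0 < bb n := fun n => by have := (bb_bounds n).1; omega
  refine ⟨hr, fun ε hε => ?_, fun c ε hc hε => ?_⟩
  · have h1 := SLT_small id r tendsto_id (2 * |A|) (by positivity)
      (by filter_upwards [eventually_ge_atTop 2] with n hn using kt_pow r A hA n hn) ε hε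
    filter_upwards [h1] with n hn
    have hb : (0 : ℝ) < bb n := by exact_mod_cast hbb0 n
    exact (div_le_iff₀ hb).1 hn
  · set A0 := 2 * |A| with hA0
    have hA0' : 0 ≤ A0 := by positivity
    obtain ⟨K0, hK0, B0, hB0⟩ := Pool.Agent.Half.weyl (A0 + 1) ε hε
    have hbbT : Tendsto (fun n : ℕ => bb n) atTop atTop := SLT_bb_tendsto id tendsto_id
    have hbbR : Tendsto (fun n : ℕ => (bb n : ℝ)) atTop atTop := tendsto_natCast_atTop_atTop.comp hbbT
    obtain ⟨n0, hn0⟩ := eventually_atTop.1 ((hbbT.eventually_ge_atTop B0).and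
      ((hbbR.eventually_ge_atTop (c * 2 ^ A0)).and (eventually_ge_atTop 2)))
    refine ⟨K0, hK0, n0, fun n hn B hB s hs1 hs2 => ?_⟩
    obtain ⟨h1, h2, h3⟩ := hn0 n hn
    refine hB0 B (h1.trans hB) s hs1 (hs2.trans ?_)
    have hb : (0 : ℝ) < bb n := by exact_mod_cast hbb0 n
    have hBR : (bb n : ℝ) ≤ B := by exact_mod_cast hB
    have hnB : (n : ℝ) ≤ 2 * bb n := by exact_mod_cast (bb_bounds n).1.le
    have e1 : (2 : ℝ) ^ r n ≤ (2 * bb n : ℝ) ^ A0 :=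
      (kt_pow r A hA n h3).trans (Real.rpow_le_rpow (Nat.cast_nonneg _) hnB hA0')
    rw [Real.mul_rpow (by norm_num) hb.le] at e1
    calc c * 2 ^ r n ≤ c * (2 ^ A0 * (bb n : ℝ) ^ A0) := mul_le_mul_of_nonneg_left e1 hc.le
      _ = (c * 2 ^ A0) * (bb n : ℝ) ^ A0 := by ring
      _ ≤ (bb n : ℝ) * (bb n : ℝ) ^ A0 :=
          mul_le_mul_of_nonneg_right h2 (Real.rpow_nonneg hb.le _)
      _ = (bb n : ℝ) ^ (A0 + 1) := by
          rw [Real.rpow_add hb, Real.rpow_one, mul_comm]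
      _ ≤ (B : ℝ) ^ (A0 + 1) := Real.rpow_le_rpow hb.le hBR (by linarith)

/-- Characters on the slices of differences between `2 ^ (-n - C)` and `2 ^ (-n)`. -/
theorem sl_thick {r : ℕ → ℕ} (h : Thick r) {m : ℤ} (hm : m ≠ 0) {ε : ℝ} (hε : 0 < ε) :
    ∃ n0 : ℕ, ∀ n C : ℕ, n0 ≤ n → 4 * C ≤ r n → ∀ z : T, (1 / 2 : ℝ) ^ (n + C) ≤ ‖z‖ →
      ‖z‖ ≤ (1 / 2 : ℝ) ^ n → ‖avgC (sl (n + C) (r n - C)) (fourier m) z‖ ≤ ε := by
  have hm1 : (1 : ℝ) ≤ |(m : ℝ)| := by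
    have : (1 : ℤ) ≤ |m| := Int.one_le_abs hm
    exact_mod_cast this
  obtain ⟨K0, hK0, n0, hn0⟩ := h.weyl |(m : ℝ)| (ε / 4) (by linarith) (by linarith)
  obtain ⟨c, hc⟩ := pow_unbounded_of_one_lt K0 (by norm_num : (1 : ℝ) < 2)
  have hr' : Tendsto (fun n => (r n : ℝ)) atTop atTop := tendsto_natCast_atTop_atTop.comp h.tend
  obtain ⟨n1, hn1⟩ := eventually_atTop.1 ((h.small (ε / 4) (by linarith)).and
    ((hr'.eventually_ge_atTop (8 * (c : ℝ) / ε)).and (h.tend.eventually_ge_atTop 1)))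
  refine ⟨max n0 n1, fun n C hn hC z hz1 hz2 => ?_⟩
  obtain ⟨h2, h5, h6⟩ := hn1 n ((le_max_right _ _).trans hn)
  have hW := hn0 n ((le_max_left _ _).trans hn) (bb (n + C)) (KT_bb_mono n C)
  obtain ⟨ζ, hζ, hζn⟩ := SLT_rep z
  set ρ := r n - C with hρ
  have hρC : ρ + C = r n := by omega
  have hρpos : (0 : ℝ) < ρ := by exact_mod_cast (by omega : 0 < ρ)
  have h9 : (2 : ℝ) ^ (n + C) * ((1 / 2) ^ (n + C)) = 1 := by
    rw [← mul_pow]; norm_num
  have ht1 : 1 ≤ 2 ^ (n + C) * |ζ| := by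
    rw [← hζn] at hz1
    have h10 : (2 : ℝ) ^ (n + C) * ((1 / 2) ^ (n + C)) ≤ 2 ^ (n + C) * |ζ| :=
      mul_le_mul_of_nonneg_left hz1 (by positivity)
    linarith
  have ht2 : 2 ^ (n + C) * |ζ| ≤ 2 ^ C := by
    rw [← hζn] at hz2
    have h10 : (2 : ℝ) ^ (n + C) * |ζ| ≤ 2 ^ (n + C) * (1 / 2) ^ n :=
      mul_le_mul_of_nonneg_left hz2 (by positivity)
    have h11 : (2 : ℝ) ^ (n + C) * (1 / 2) ^ n = 2 ^ C := by
      rw [pow_add]
      have : (2 : ℝ) ^ n * (1 / 2) ^ n = 1 := by rw [← mul_pow]; norm_num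
      calc (2 : ℝ) ^ n * 2 ^ C * (1 / 2) ^ n = 2 ^ C * ((2 : ℝ) ^ n * (1 / 2) ^ n) := by ring
        _ = 2 ^ C := by rw [this, mul_one]
    linarith
  have habs : ∀ i : ℕ, |(m : ℝ) * 2 ^ i * (2 ^ (n + C) * ζ)| =
      |(m : ℝ)| * 2 ^ i * (2 ^ (n + C) * |ζ|) := by
    intro i
    rw [abs_mul, abs_mul, abs_mul, abs_of_pos (by positivity : (0 : ℝ) < 2 ^ i),
      abs_of_pos (by positivity : (0 : ℝ) < 2 ^ (n + C))]
  have hterm : ∀ i ∈ Finset.range ρ, ‖FB (bb (n + C)) ((m : ℝ) * 2 ^ i * (2 ^ (n + C) * ζ))‖ ≤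
      (if i < c then 1 else 0) + ε / 4 := by
    intro i hi
    rw [Finset.mem_range] at hi
    split_ifs with hic
    · have := SLT_FB_le (bb (n + C)) ((m : ℝ) * 2 ^ i * (2 ^ (n + C) * ζ))
      linarith
    · rw [zero_add]
      refine hW _ ?_ ?_
      · rw [habs]
        have hpc : (2 : ℝ) ^ c ≤ 2 ^ i := pow_le_pow_right₀ (by norm_num) (not_lt.1 hic)
        have e1 : (1 : ℝ) * 2 ^ i ≤ |(m : ℝ)| * 2 ^ i :=
          mul_le_mul_of_nonneg_right hm1 (by positivity)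
        have e2 : (|(m : ℝ)| * 2 ^ i) * 1 ≤ |(m : ℝ)| * 2 ^ i * (2 ^ (n + C) * |ζ|) :=
          mul_le_mul_of_nonneg_left ht1 (by positivity)
        linarith
      · rw [habs]
        have e1 : |(m : ℝ)| * 2 ^ i * (2 ^ (n + C) * |ζ|) ≤ |(m : ℝ)| * 2 ^ i * 2 ^ C :=
          mul_le_mul_of_nonneg_left ht2 (by positivity)
        have e2 : |(m : ℝ)| * (2 : ℝ) ^ i * 2 ^ C ≤ |(m : ℝ)| * 2 ^ (r n) := by
          rw [← hρC, pow_add, mul_assoc]
          exact mul_le_mul_of_nonneg_left (mul_le_mul_of_nonneg_right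
            (pow_le_pow_right₀ (by norm_num) hi.le) (by positivity)) (abs_nonneg _)
        linarith
  have hsum : ∑ i ∈ Finset.range ρ, ‖FB (bb (n + C)) ((m : ℝ) * 2 ^ i * (2 ^ (n + C) * ζ))‖ ≤
      c + ρ * (ε / 4) := by
    refine (Finset.sum_le_sum hterm).trans ?_
    rw [Finset.sum_add_distrib, Finset.sum_const, Finset.card_range, nsmul_eq_mul]
    refine add_le_add ?_ le_rfl
    rw [← Finset.sum_filter, Finset.sum_const, nsmul_eq_mul, mul_one]
    have hsub : (Finset.range ρ).filter (fun i => i < c) ⊆ Finset.range c := by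
      intro i hi
      rw [Finset.mem_filter] at hi
      exact Finset.mem_range.2 hi.2
    have := Finset.card_le_card hsub
    rw [Finset.card_range] at this
    exact_mod_cast this
  have hmain := sl_char (n + C) ρ (by omega) m ζ
  rw [hζ] at hmain
  have hCr : (4 : ℝ) * C ≤ r n := by exact_mod_cast hC
  have hρr : (ρ : ℝ) + C = r n := by exact_mod_cast hρC
  have h10 : (∑ i ∈ Finset.range ρ, ‖FB (bb (n + C)) ((m : ℝ) * 2 ^ i * (2 ^ (n + C) * ζ))‖) / ρ ≤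
      ε / 4 + ε / 4 := by
    rw [div_le_iff₀ hρpos]
    have h11 : (c : ℝ) ≤ ε / 4 * ρ := by
      rw [div_le_iff₀ hε] at h5
      nlinarith
    linarith
  have hb : (0 : ℝ) < bb n := by
    have : 0 < bb n := by have := (bb_bounds n).1; omega
    exact_mod_cast this
  have hb' : (bb n : ℝ) ≤ bb (n + C) := by exact_mod_cast KT_bb_mono n C
  have h12 : (ρ : ℝ) / bb (n + C) ≤ ε / 4 := by
    rw [div_le_iff₀ (hb.trans_le hb')]
    have h13 : ε / 4 * bb n ≤ ε / 4 * bb (n + C) := mul_le_mul_of_nonneg_left hb' (by linarith)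
    have : (0 : ℝ) ≤ C := Nat.cast_nonneg _
    linarith
  linarith

end Pool.Agent.Half
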