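import Pool.Agent.Half.KGen
import Pool.Agent.Half.KThick

/-! `k` points with pairwise distances between `2 ^ (-n - C)` and `2 ^ (-n)`, `C` at most a small multiple of the width
`r n` of the slice: their slices at scale `n`. -/

open MeasureTheory Filter Topology

namespace Pool.Agent.Half

theorem KP_sub (n r C : ℕ) (hC : C ≤ r) : sl (n + C) (r - C) ⊆ sl n r := by
  rintro ⟨a, b⟩ h
  rw [mem_sl] at h ⊢
  omega

theorem KP_card (n r : ℕ) : (sl n r).card ≤ r * bb n + r * r := by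
  classical
  have h1 := Finset.card_filter_add_card_filter_not (s := sl n r) (fun p => p.2 < bb n)
  rw [SLB_main_card] at h1
  have h2 := sl_rest n r
  omega

theorem KP_avg {G' G : Finset (ℕ × ℕ)} (h : G' ⊆ G) (hG' : G'.Nonempty) (f : T → ℝ) (hf : ∀ z, 0 ≤ f z)
    (B : ℝ) (hB : ∀ z, f z ≤ B) (ε : ℝ) (hε : 0 ≤ ε) (hc : (1 - ε) * (G.card : ℝ) ≤ G'.card) (x : T) :
    avg G' f x - ε * B ≤ avg G f x := by
  have hc' : (0 : ℝ) < G'.card := by exact_mod_cast hG'.card_pos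
  have hc0 : (0 : ℝ) < G.card := by exact_mod_cast (hG'.mono h).card_pos
  set s' := ∑ p ∈ G', f ((2 ^ p.1 * 3 ^ p.2 : ℕ) • x) with hs'
  set s := ∑ p ∈ G, f ((2 ^ p.1 * 3 ^ p.2 : ℕ) • x) with hs
  have h1 : s' ≤ s := Finset.sum_le_sum_of_subset_of_nonneg h fun p _ _ => hf _
  have h2 : s' ≤ G'.card * B := by
    rw [← nsmul_eq_mul]
    exact Finset.sum_le_card_nsmul _ _ _ fun p _ => hB _
  have h0 : 0 ≤ s' := Finset.sum_nonneg fun p _ => hf _
  have e1 : avg G' f x = s' / G'.card := rfl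
  have e2 : avg G f x = s / G.card := rfl
  rw [e1, e2]
  set a := s' / (G'.card : ℝ) with ha
  have ha0 : 0 ≤ a := div_nonneg h0 hc'.le
  have haB : a ≤ B := by
    rw [ha, div_le_iff₀ hc']
    linarith [mul_comm B (G'.card : ℝ)]
  have has : s' = a * G'.card := by rw [ha, div_mul_cancel₀ _ hc'.ne']
  have h5 : s' / G.card ≤ s / G.card := div_le_div_of_nonneg_right h1 hc0.le
  have h6 : a * (1 - ε) ≤ s' / G.card := by
    rw [le_div_iff₀ hc0, has, mul_assoc]
    exact mul_le_mul_of_nonneg_left hc ha0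
  have h7 : ε * a ≤ ε * B := mul_le_mul_of_nonneg_left haB hε
  linarith [mul_comm ε a]

/-- **`k`-point theorem for slices.** For points with pairwise distances between `2 ^ (-n - C)` and `2 ^ (-n)`, `n` large,
`C` small against the width `r n`, the slices at scale `n` miss together at most one copy of Lebesgue measure. -/
theorem k_point (ι : Type) [Fintype ι] [Nonempty ι] {r : ℕ → ℕ} (h : Thick r) (F : Finset C(T, ℝ))
    (hF : ∀ f ∈ F, ∀ z, 0 ≤ f z) (δ : ℝ) (hδ : 0 < δ) :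
    ∃ ε : ℝ, 0 < ε ∧ ∃ n1 : ℕ, ∀ n C : ℕ, n1 ≤ n → (C : ℝ) ≤ ε * r n → ∀ x : ι → T,
      (∀ i j, i ≠ j → (1 / 2 : ℝ) ^ (n + C) ≤ ‖x j - x i‖ ∧ ‖x j - x i‖ ≤ (1 / 2 : ℝ) ^ n) →
      ∃ t : ι → ℝ, (∀ i, 0 ≤ t i ∧ t i ≤ 1) ∧ ∑ i, (1 - t i) ≤ 1 ∧
        ∀ i, ∀ f ∈ F, t i * (∫ z, f z ∂(volume : Measure T)) - δ ≤ avg (sl n (r n)) f (x i) := by
  obtain ⟨B, hB1, hB⟩ : ∃ B : ℝ, 1 ≤ B ∧ ∀ f ∈ F, ∀ z, f z ≤ B := by
    refine ⟨1 + ∑ f ∈ F, ‖f‖, ?_, fun f hf z => ?_⟩
    · have : 0 ≤ ∑ f ∈ F, ‖f‖ := Finset.sum_nonneg fun _ _ => norm_nonneg _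
      linarith
    · have h1 : ‖f‖ ≤ ∑ f ∈ F, ‖f‖ :=
        Finset.single_le_sum (f := fun f : C(T, ℝ) => ‖f‖) (fun _ _ => norm_nonneg _) hf
      have h2 : f z ≤ ‖f‖ := (le_abs_self _).trans (f.norm_coe_le_norm z)
      linarith
  set ε : ℝ := min (δ / (4 * B)) (1 / 4) with hε
  have hε0 : 0 < ε := lt_min (by positivity) (by norm_num)
  have hε4 : ε ≤ 1 / 4 := min_le_right _ _
  have hεB : 2 * ε * B ≤ δ / 2 := by
    have h1 : ε ≤ δ / (4 * B) := min_le_left _ _
    rw [le_div_iff₀ (by positivity)] at h1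
    linarith
  refine ⟨ε, hε0, ?_⟩
  by_contra hcon
  push Not at hcon
  obtain ⟨n1, hn1⟩ := eventually_atTop.1 ((h.tend.eventually_ge_atTop 1).and
    ((h.small 1 one_pos).and ((eventually_ge_atTop 2).and (h.small ε hε0))))
  choose n C hn hC x hz hxy using fun k : ℕ => hcon (k + n1)
  have hnt : Tendsto n atTop atTop :=
    tendsto_atTop_mono (fun k => (by have := hn k; omega : k ≤ n k)) tendsto_id
  have hrt : Tendsto (fun k => r (n k)) atTop atTop := h.tend.comp hnt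
  have hp : ∀ k, 1 ≤ r (n k) ∧ r (n k) ≤ n k + 1 ∧ 2 ≤ n k ∧ (r (n k) : ℝ) ≤ ε * bb (n k) := by
    intro k
    obtain ⟨a1, a2, a3, a4⟩ := hn1 (n k) (by have := hn k; omega)
    refine ⟨a1, ?_, a3, a4⟩
    rw [one_mul] at a2
    have a5 : r (n k) ≤ bb (n k) := by exact_mod_cast a2
    exact a5.trans (bb_bounds (n k)).2
  have hCr : ∀ k, 4 * C k ≤ r (n k) := by
    intro k
    have h1 : (C k : ℝ) ≤ 1 / 4 * r (n k) :=
      (hC k).trans (mul_le_mul_of_nonneg_right hε4 (Nat.cast_nonneg _))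
    have h2 : (4 : ℝ) * C k ≤ r (n k) := by linarith
    exact_mod_cast h2
  have hrC : Tendsto (fun k => r (n k) - C k) atTop atTop := by
    rw [tendsto_atTop]
    intro b
    filter_upwards [hrt.eventually_ge_atTop (2 * b)] with k hk
    have := hCr k
    omega
  have hne : ∀ k, (sl (n k + C k) (r (n k) - C k)).Nonempty := by
    intro k
    rw [← Finset.card_pos]
    have h1 := sl_card (n k + C k) (r (n k) - C k)
    have h2 := (bb_bounds (n k + C k)).1
    have h3 := (hp k).1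
    have h5 := hCr k
    have h4 : 0 < (r (n k) - C k) * bb (n k + C k) := Nat.mul_pos (by omega) (by omega)
    omega
  obtain ⟨f1, f2⟩ := fol_sl (fun k => n k + C k) (fun k => r (n k) - C k) hrC (by
    obtain ⟨n2, hn2⟩ := eventually_atTop.1 (h.small (1 / 2) (by norm_num))
    filter_upwards [hnt.eventually_ge_atTop n2] with k hk
    have h1 := hn2 (n k) hk
    have h2 : 2 * r (n k) ≤ bb (n k) := by
      have : (2 : ℝ) * r (n k) ≤ bb (n k) := by linarith
      exact_mod_cast this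
    have h3 := (bb_bounds (n k)).2
    have h4 := (hp k).2.2.1
    omega)
  have hd : ∀ i j, i ≠ j → ∀ m : ℤ, m ≠ 0 → Tendsto (fun k => avgC
      (sl (n k + C k) (r (n k) - C k)) (fourier m) (x k j - x k i)) atTop (𝓝 0) := by
    intro i j hij m hm
    rw [Metric.tendsto_atTop]
    intro ε' hε'
    obtain ⟨n2, hn2⟩ := sl_thick h hm (half_pos hε')
    obtain ⟨N, hN⟩ := eventually_atTop.1 (hnt.eventually_ge_atTop n2)
    refine ⟨N, fun k hk => ?_⟩
    rw [dist_zero_right]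
    have h1 := hn2 (n k) (C k) (hN k hk) (hCr k) (x k j - x k i) (hz k i j hij).1 (hz k i j hij).2
    linarith
  have hgen := k_general (fun k => sl (n k + C k) (r (n k) - C k)) hne f1 f2 x hd F hF (δ / 2)
    (by positivity)
  obtain ⟨k, t, ht, hts, htf⟩ := hgen.exists
  obtain ⟨i, f, hf, h1⟩ := hxy k t ht hts
  have hCk := hCr k
  have hpk := hp k
  have hcard : (1 - 2 * ε) * ((sl (n k) (r (n k))).card : ℝ) ≤
      ((sl (n k + C k) (r (n k) - C k)).card : ℝ) := by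
    have hb : (0 : ℝ) < bb (n k) := by
      have := (bb_bounds (n k)).1
      have h3 : 0 < bb (n k) := by omega
      exact_mod_cast h3
    have h2 : ((sl (n k) (r (n k))).card : ℝ) ≤ r (n k) * bb (n k) + r (n k) * r (n k) := by
      exact_mod_cast KP_card (n k) (r (n k))
    have h3 : ((r (n k) : ℝ) - C k) * bb (n k) ≤ ((sl (n k + C k) (r (n k) - C k)).card : ℝ) := by
      have h4 := sl_card (n k + C k) (r (n k) - C k)
      have h5 : (r (n k) - C k) * bb (n k) ≤ (r (n k) - C k) * bb (n k + C k) :=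
        Nat.mul_le_mul_left _ (KT_bb_mono _ _)
      have h6 : (((r (n k) - C k) * bb (n k) : ℕ) : ℝ) ≤
        ((sl (n k + C k) (r (n k) - C k)).card : ℝ) := by exact_mod_cast h5.trans h4
      rw [Nat.cast_mul, Nat.cast_sub (by omega)] at h6
      exact h6
    have h7 : (r (n k) : ℝ) ≤ ε * bb (n k) := hpk.2.2.2
    have hr0 : (0 : ℝ) ≤ r (n k) := Nat.cast_nonneg _
    have h8 := hC k
    have e1 : (1 - 2 * ε) * ((sl (n k) (r (n k))).card : ℝ) ≤
        (1 - 2 * ε) * (r (n k) * bb (n k) + r (n k) * r (n k)) :=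
      mul_le_mul_of_nonneg_left h2 (by linarith)
    have e2 : (r (n k) : ℝ) * r (n k) ≤ r (n k) * (ε * bb (n k)) := mul_le_mul_of_nonneg_left h7 hr0
    have e3 : (1 - 2 * ε) * (r (n k) * bb (n k) + r (n k) * r (n k) : ℝ) ≤
        (1 - 2 * ε) * (r (n k) * bb (n k) + r (n k) * (ε * bb (n k))) :=
      mul_le_mul_of_nonneg_left (by linarith) (by linarith)
    have e4 : ((r (n k) : ℝ) - ε * r (n k)) * bb (n k) ≤ ((r (n k) : ℝ) - C k) * bb (n k) :=
      mul_le_mul_of_nonneg_right (by linarith) hb.le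
    have e5 : (1 - 2 * ε) * (r (n k) * bb (n k) + r (n k) * (ε * bb (n k)) : ℝ) ≤
        ((r (n k) : ℝ) - ε * r (n k)) * bb (n k) := by
      have : 0 ≤ (r (n k) : ℝ) * bb (n k) := by positivity
      nlinarith [mul_nonneg this (mul_nonneg hε0.le hε0.le)]
    linarith
  have h9 := KP_avg (KP_sub (n k) (r (n k)) (C k) (by omega)) (hne k) f (hF f hf) B (hB f hf)
    (2 * ε) (by linarith) hcard (x k i)
  have h10 := htf i f hf
  linarith

end Pool.Agent.Half
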