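import Pool.Agent.Half.CntB

/-! Module VKN. PROOF: `Ord2.params` and `cnt_le` (with `β = 0`) for the intervals `[0, u)` and `[1 - u, 1)`: at most
`2 (B (u + 16 / 2 ^ (4 r)) + B_r)`; `u = ε / 16`, `r` with `16 / 2 ^ (4 r) ≤ ε / 16`, `B0 ≥ 8 B_r / ε`. (`1 - u < fract` implies
`1 - u ≤ fract < 1`.) -/

open MeasureTheory Filter Topology

namespace Pool.Agent.Half

theorem few_near {ε : ℝ} (hε : 0 < ε) : ∃ u : ℝ, 0 < u ∧ ∃ B0 : ℕ, ∀ B : ℕ, B0 ≤ B →
    (((Finset.range B).filter fun b : ℕ =>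
      Int.fract ((b : ℝ) * Ord2.al) < u ∨ 1 - u < Int.fract ((b : ℝ) * Ord2.al)).card : ℝ) ≤ ε * B := by
  classical
  obtain ⟨M, -, Bf, r0, -, hpar⟩ := Ord2.params
  set u : ℝ := min (ε / 16) (1 / 2) with hu
  have hu0 : 0 < u := lt_min (by positivity) (by norm_num)
  have hu1 : u ≤ ε / 16 := min_le_left _ _
  have hu2 : u ≤ 1 / 2 := min_le_right _ _
  obtain ⟨r1, hr1⟩ := pow_unbounded_of_one_lt (16 / u) (show (1 : ℝ) < 2 by norm_num)
  set r := max r0 r1 with hr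
  have hP := hpar r (le_max_left _ _)
  have h16 : (16 : ℝ) / 2 ^ (4 * r) ≤ u := by
    have h1 : (2 : ℝ) ^ r1 ≤ 2 ^ (4 * r) := by
      apply pow_le_pow_right₀ (by norm_num)
      have : r1 ≤ r := le_max_right _ _
      omega
    rw [div_le_iff₀ (by positivity)]
    rw [div_lt_iff₀ hu0] at hr1
    nlinarith
  refine ⟨u, hu0, ⌈8 * (Bf r : ℝ) / ε⌉₊, fun B hB => ?_⟩
  have hB' : 8 * (Bf r : ℝ) / ε ≤ B := (Nat.le_ceil _).trans (by exact_mod_cast hB)
  rw [div_le_iff₀ hε] at hB'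
  have hsub : ((Finset.range B).filter fun b : ℕ =>
      Int.fract ((b : ℝ) * Ord2.al) < u ∨ 1 - u < Int.fract ((b : ℝ) * Ord2.al)) ⊆
      ((Finset.range B).filter fun b : ℕ =>
        0 ≤ Int.fract ((b : ℝ) * Ord2.al + 0) ∧ Int.fract ((b : ℝ) * Ord2.al + 0) < u) ∪
      ((Finset.range B).filter fun b : ℕ =>
        1 - u ≤ Int.fract ((b : ℝ) * Ord2.al + 0) ∧ Int.fract ((b : ℝ) * Ord2.al + 0) < 1) := by
    intro b hb
    rw [Finset.mem_filter] at hb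
    rw [Finset.mem_union, Finset.mem_filter, Finset.mem_filter, add_zero]
    rcases hb.2 with h | h
    · exact Or.inl ⟨hb.1, Int.fract_nonneg _, h⟩
    · exact Or.inr ⟨hb.1, h.le, Int.fract_lt_one _⟩
  have h1 := cnt_le hP B 0 0 u le_rfl hu0.le (by linarith)
  have h2 := cnt_le hP B 0 (1 - u) 1 (by linarith) (by linarith) le_rfl
  have h3 : (((Finset.range B).filter fun b : ℕ =>
      Int.fract ((b : ℝ) * Ord2.al) < u ∨ 1 - u < Int.fract ((b : ℝ) * Ord2.al)).card : ℝ) ≤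
      (((Finset.range B).filter fun b : ℕ =>
        0 ≤ Int.fract ((b : ℝ) * Ord2.al + 0) ∧ Int.fract ((b : ℝ) * Ord2.al + 0) < u).card : ℝ) +
      (((Finset.range B).filter fun b : ℕ =>
        1 - u ≤ Int.fract ((b : ℝ) * Ord2.al + 0) ∧ Int.fract ((b : ℝ) * Ord2.al + 0) < 1).card : ℝ) := by
    exact_mod_cast (Finset.card_le_card hsub).trans (Finset.card_union_le _ _)
  have hBn : (0 : ℝ) ≤ B := Nat.cast_nonneg _
  have e1 : (B : ℝ) * (u - 0 + 16 / 2 ^ (4 * r)) ≤ B * (2 * u) :=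
    mul_le_mul_of_nonneg_left (by linarith) hBn
  have e2 : (B : ℝ) * (1 - (1 - u) + 16 / 2 ^ (4 * r)) ≤ B * (2 * u) :=
    mul_le_mul_of_nonneg_left (by linarith) hBn
  have e3 : (B : ℝ) * (4 * u) ≤ B * (ε / 4) := mul_le_mul_of_nonneg_left (by linarith) hBn
  nlinarith

end Pool.Agent.Half
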