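import Pool.Agent.Half.HDefs

/-! Module VKS. The shift by `q x y`. PROOF: `g b = e(s θ_b)`. For every `n ≤ X ^ 2`: `|∑_{b < B} g b - ∑_{b < B} g (b + q n)| ≤ 2 q n`.
Mean over `n = x y`, `x, y < X`: `|∑_{b<B} g b| ≤ X ^ (-2) ∑_{b < B} |∑_{x, y} g (b + q x y)| + 2 q X ^ 2`. For `b` with
`u ≤ fract (b α) ≤ 1 - u` and `n < X ^ 2`: `(b + q n) α = b α + n (q α - p) + n p`, `|n (q α - p)| < u`, so
`fract ((b + q n) α) = fract (b α) + n (q α - p)` and `θ_{b + q n} = θ_b exp (n (q α - p) log 2)`: hypothesis `hW`. The other `b`: trivial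
bound `X ^ 2`. -/

open MeasureTheory Filter Topology

namespace Pool.Agent.Half

private noncomputable def vksG (s : ℝ) (b : ℕ) : ℂ :=
  Complex.exp (2 * Real.pi * Complex.I * (s * Ord2.th b : ℝ))

private theorem vks_norm (r : ℝ) : ‖Complex.exp (2 * Real.pi * Complex.I * (r : ℝ))‖ = 1 := by
  have e : (2 * Real.pi * Complex.I * (r : ℝ) : ℂ) = ((2 * Real.pi * r : ℝ) : ℂ) * Complex.I := by
    push_cast
    ring
  rw [e, Complex.norm_exp_ofReal_mul_I]

private theorem vks_shift (s : ℝ) (B m : ℕ) :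
    ‖∑ b ∈ Finset.range B, vksG s b - ∑ b ∈ Finset.range B, vksG s (b + m)‖ ≤ 2 * m := by
  induction m with
  | zero => simp
  | succ m ih =>
    have h1 : ∑ b ∈ Finset.range B, vksG s (b + m) - ∑ b ∈ Finset.range B, vksG s (b + (m + 1)) =
        vksG s m - vksG s (B + m) := by
      have h2 := Finset.sum_range_sub' (fun b => vksG s (b + m)) B
      rw [← Finset.sum_sub_distrib]
      simp only [zero_add] at h2
      rw [← h2]
      refine Finset.sum_congr rfl fun b _ => ?_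
      rw [show b + (m + 1) = b + 1 + m by ring]
    have h3 : ∑ b ∈ Finset.range B, vksG s b - ∑ b ∈ Finset.range B, vksG s (b + (m + 1)) =
        (∑ b ∈ Finset.range B, vksG s b - ∑ b ∈ Finset.range B, vksG s (b + m)) +
          (vksG s m - vksG s (B + m)) := by
      rw [← h1]; ring
    rw [h3]
    refine (norm_add_le _ _).trans ?_
    have h4 : ‖vksG s m - vksG s (B + m)‖ ≤ 2 := by
      refine (norm_sub_le _ _).trans ?_
      have e1 : ‖vksG s m‖ = 1 := vks_norm _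
      have e2 : ‖vksG s (B + m)‖ = 1 := vks_norm _
      rw [e1, e2]
      norm_num
    push_cast
    linarith

private theorem vks_th (b q n : ℕ) (p : ℤ) (u : ℝ)
    (hn : |(n : ℝ) * ((q : ℝ) * Ord2.al - p)| < u)
    (h1 : u ≤ Int.fract ((b : ℝ) * Ord2.al)) (h2 : Int.fract ((b : ℝ) * Ord2.al) ≤ 1 - u) :
    Ord2.th (b + q * n) =
      Ord2.th b * Real.exp (((q : ℝ) * Ord2.al - p) * Real.log 2 * (n : ℝ)) := by
  have h3 := abs_lt.mp hn
  have hf : Int.fract (((b + q * n : ℕ) : ℝ) * Ord2.al) =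
      Int.fract ((b : ℝ) * Ord2.al) + (n : ℝ) * ((q : ℝ) * Ord2.al - p) := by
    rw [Int.fract_eq_iff]
    refine ⟨by linarith, by linarith, ⌊(b : ℝ) * Ord2.al⌋ + n * p, ?_⟩
    push_cast
    have := Int.floor_add_fract ((b : ℝ) * Ord2.al)
    linear_combination -this
  unfold Ord2.th
  rw [hf, Real.rpow_add (by norm_num)]
  congr 1
  rw [Real.rpow_def_of_pos (by norm_num)]
  congr 1
  ring

theorem vks (B q X : ℕ) (hB : 0 < B) (hX : 0 < X) (p : ℤ) (s u W : ℝ) (hW0 : 0 ≤ W) (hu0 : 0 < u)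
    (hu : |(q : ℝ) * Ord2.al - p| * (X : ℝ) ^ 2 ≤ u)
    (hW : ∀ b < B, u ≤ Int.fract ((b : ℝ) * Ord2.al) → Int.fract ((b : ℝ) * Ord2.al) ≤ 1 - u →
      ‖∑ x ∈ Finset.range X, ∑ y ∈ Finset.range X,
        Complex.exp (2 * Real.pi * Complex.I *
          (s * Ord2.th b * Real.exp (((q : ℝ) * Ord2.al - p) * Real.log 2 * ((x * y : ℕ) : ℝ)) : ℝ))‖ ≤
        W * (X : ℝ) ^ 2) :
    ‖FB B s‖ ≤ W + (((Finset.range B).filter fun b : ℕ =>
      Int.fract ((b : ℝ) * Ord2.al) < u ∨ 1 - u < Int.fract ((b : ℝ) * Ord2.al)).card : ℝ) / B +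
      2 * q * (X : ℝ) ^ 2 / B := by
  classical
  have hBr : (0 : ℝ) < B := by exact_mod_cast hB
  have hXr : (0 : ℝ) < X := by exact_mod_cast hX
  set bad := (Finset.range B).filter fun b : ℕ =>
      Int.fract ((b : ℝ) * Ord2.al) < u ∨ 1 - u < Int.fract ((b : ℝ) * Ord2.al) with hbad
  -- the inner sums
  have hin : ∀ b ∈ Finset.range B,
      ‖∑ x ∈ Finset.range X, ∑ y ∈ Finset.range X, vksG s (b + q * (x * y))‖ ≤
        W * (X : ℝ) ^ 2 + if b ∈ bad then (X : ℝ) ^ 2 else 0 := by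
    intro b hb
    by_cases hbb : b ∈ bad
    · rw [if_pos hbb]
      have h1 : ‖∑ x ∈ Finset.range X, ∑ y ∈ Finset.range X, vksG s (b + q * (x * y))‖ ≤
          (X : ℝ) ^ 2 := by
        refine (norm_sum_le _ _).trans ?_
        refine (Finset.sum_le_sum (g := fun _ => (X : ℝ)) fun x _ => ?_).trans ?_
        · refine (norm_sum_le _ _).trans ?_
          refine (Finset.sum_le_sum (g := fun _ => (1 : ℝ)) fun y _ => ?_).trans ?_
          · exact (vks_norm _).le
          · simp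
        · simp [sq]
      have h2 : 0 ≤ W * (X : ℝ) ^ 2 := by positivity
      linarith
    · rw [if_neg hbb, add_zero]
      have hg : ¬ (Int.fract ((b : ℝ) * Ord2.al) < u ∨ 1 - u < Int.fract ((b : ℝ) * Ord2.al)) := by
        intro h
        exact hbb (Finset.mem_filter.mpr ⟨hb, h⟩)
      rw [not_or, not_lt, not_lt] at hg
      have h1 := hW b (Finset.mem_range.mp hb) hg.1 hg.2
      refine le_trans (le_of_eq ?_) h1
      congr 1
      refine Finset.sum_congr rfl fun x hx => Finset.sum_congr rfl fun y hy => ?_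
      unfold vksG
      have hn : |((x * y : ℕ) : ℝ) * ((q : ℝ) * Ord2.al - p)| < u := by
        have hx' := Finset.mem_range.mp hx
        have hy' := Finset.mem_range.mp hy
        have hxy : x * y < X ^ 2 := by
          rw [sq]
          exact Nat.mul_lt_mul'' hx' hy'
        have hxy' : ((x * y : ℕ) : ℝ) < (X : ℝ) ^ 2 := by exact_mod_cast hxy
        rw [abs_mul, Nat.abs_cast]
        rcases (abs_nonneg ((q : ℝ) * Ord2.al - p)).eq_or_lt with h0 | h0
        · rw [← h0, mul_zero]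
          exact hu0
        · calc ((x * y : ℕ) : ℝ) * |(q : ℝ) * Ord2.al - p|
              < (X : ℝ) ^ 2 * |(q : ℝ) * Ord2.al - p| := mul_lt_mul_of_pos_right hxy' h0
            _ = |(q : ℝ) * Ord2.al - p| * (X : ℝ) ^ 2 := mul_comm _ _
            _ ≤ u := hu
      rw [vks_th b q (x * y) p u hn hg.1 hg.2, mul_assoc s]
  have htot : ‖∑ b ∈ Finset.range B, ∑ x ∈ Finset.range X, ∑ y ∈ Finset.range X,
      vksG s (b + q * (x * y))‖ ≤ B * (W * (X : ℝ) ^ 2) + bad.card * (X : ℝ) ^ 2 := by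
    refine (norm_sum_le _ _).trans ((Finset.sum_le_sum hin).trans (le_of_eq ?_))
    rw [Finset.sum_add_distrib, Finset.sum_const, Finset.card_range, nsmul_eq_mul,
      Finset.sum_ite_mem, Finset.sum_const, nsmul_eq_mul,
      Finset.inter_eq_right.mpr (Finset.filter_subset _ _)]
  have hdiff : ‖((X : ℂ) ^ 2) * ∑ b ∈ Finset.range B, vksG s b -
      ∑ b ∈ Finset.range B, ∑ x ∈ Finset.range X, ∑ y ∈ Finset.range X,
      vksG s (b + q * (x * y))‖ ≤ (X : ℝ) ^ 2 * (2 * q * (X : ℝ) ^ 2) := by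
    have e1 : ∑ b ∈ Finset.range B, ∑ x ∈ Finset.range X, ∑ y ∈ Finset.range X,
        vksG s (b + q * (x * y)) = ∑ x ∈ Finset.range X, ∑ y ∈ Finset.range X,
        ∑ b ∈ Finset.range B, vksG s (b + q * (x * y)) := by
      rw [Finset.sum_comm]
      exact Finset.sum_congr rfl fun x _ => Finset.sum_comm
    have e2 : ((X : ℂ) ^ 2) * ∑ b ∈ Finset.range B, vksG s b =
        ∑ x ∈ Finset.range X, ∑ y ∈ Finset.range X, ∑ b ∈ Finset.range B, vksG s b := by
      rw [Finset.sum_const, Finset.sum_const, Finset.card_range, nsmul_eq_mul, nsmul_eq_mul]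
      ring
    rw [e1, e2, ← Finset.sum_sub_distrib]
    refine (norm_sum_le _ _).trans ?_
    refine (Finset.sum_le_sum (g := fun _ => (X : ℝ) * (2 * q * (X : ℝ) ^ 2)) fun x hx => ?_).trans ?_
    · rw [← Finset.sum_sub_distrib]
      refine (norm_sum_le _ _).trans ?_
      refine (Finset.sum_le_sum (g := fun _ => (2 * q * (X : ℝ) ^ 2)) fun y hy => ?_).trans ?_
      · refine (vks_shift s B (q * (x * y))).trans ?_
        have hx' := Finset.mem_range.mp hx
        have hy' := Finset.mem_range.mp hy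
        have hxy : x * y ≤ X ^ 2 := by
          rw [sq]
          exact Nat.mul_le_mul hx'.le hy'.le
        have hxy' : ((x * y : ℕ) : ℝ) ≤ (X : ℝ) ^ 2 := by exact_mod_cast hxy
        have : ((q * (x * y) : ℕ) : ℝ) = q * ((x * y : ℕ) : ℝ) := by push_cast; ring
        rw [this]
        have hq : (0 : ℝ) ≤ q := Nat.cast_nonneg _
        nlinarith
      · simp
    · rw [Finset.sum_const, Finset.card_range, nsmul_eq_mul]
      exact le_of_eq (by ring)
  have hmain : (X : ℝ) ^ 2 * ‖∑ b ∈ Finset.range B, vksG s b‖ ≤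
      B * (W * (X : ℝ) ^ 2) + bad.card * (X : ℝ) ^ 2 + (X : ℝ) ^ 2 * (2 * q * (X : ℝ) ^ 2) := by
    have h1 : ‖((X : ℂ) ^ 2) * ∑ b ∈ Finset.range B, vksG s b‖ =
        (X : ℝ) ^ 2 * ‖∑ b ∈ Finset.range B, vksG s b‖ := by
      rw [norm_mul, norm_pow, Complex.norm_natCast]
    rw [← h1]
    have h2 := norm_le_norm_add_norm_sub' (((X : ℂ) ^ 2) * ∑ b ∈ Finset.range B, vksG s b)
      (∑ b ∈ Finset.range B, ∑ x ∈ Finset.range X, ∑ y ∈ Finset.range X, vksG s (b + q * (x * y)))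
    linarith
  have hFB : ‖FB B s‖ = ‖∑ b ∈ Finset.range B, vksG s b‖ / B := by
    unfold FB
    rw [norm_div, Complex.norm_natCast]
    rfl
  rw [hFB, div_le_iff₀ hBr]
  have e3 : (W + (bad.card : ℝ) / B + 2 * q * (X : ℝ) ^ 2 / B) * B =
      B * W + bad.card + 2 * q * (X : ℝ) ^ 2 := by
    field_simp
  rw [e3]
  have hX2 : (0 : ℝ) < (X : ℝ) ^ 2 := by positivity
  have h5 : (X : ℝ) ^ 2 * ‖∑ b ∈ Finset.range B, vksG s b‖ ≤
      (X : ℝ) ^ 2 * (B * W + bad.card + 2 * q * (X : ℝ) ^ 2) := by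
    refine hmain.trans (le_of_eq ?_)
    ring
  exact le_of_mul_le_mul_left h5 hX2

end Pool.Agent.Half
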