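import Pool.Agent.Half.WStep

/-! Module WEYL. Final form. PROOF: `Ord2.params` gives `M`, `Bf`, `r0`; by induction `PW M j` for all `j ≥ 1`. Given `A`
take `N ≥ A` natural, `j = 2 (M + 2) N + 1`, `r = log_2 B / (M + 2)` (floor): `2^((M+2) r) ≤ B` and
`B^A ≤ 2^((M+2)(r+1) N) ≤ 2^(jr)` for `r ≥ 1`. -/

open MeasureTheory Filter Topology

namespace Pool.Agent.Half

theorem weyl (A ε : ℝ) (hε : 0 < ε) : ∃ K0 : ℝ, 0 < K0 ∧ ∃ B0 : ℕ, ∀ B : ℕ, B0 ≤ B → ∀ s : ℝ,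
    K0 ≤ |s| → |s| ≤ (B : ℝ) ^ A → ‖FB B s‖ ≤ ε := by
  obtain ⟨M, hM, Bf, r0, hr0, h⟩ := Ord2.params
  have hPW : ∀ j : ℕ, PW M (j + 1) := by
    intro j
    induction j with
    | zero => exact pw_one h
    | succ j ih => exact pw_succ h (j + 1) (by omega) ih
  obtain ⟨N, hN⟩ := exists_nat_ge A
  obtain ⟨K0, hK0, r1, hr1⟩ := hPW (2 * (M + 2) * N) ε hε
  refine ⟨K0, hK0, 2 ^ ((M + 2) * (r1 + 1)), fun B hB s hs1 hs2 => ?_⟩
  have hB0 : B ≠ 0 := by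
    have : 0 < 2 ^ ((M + 2) * (r1 + 1)) := by positivity
    omega
  set r : ℕ := Nat.log 2 B / (M + 2) with hr
  have hlog : (M + 2) * (r1 + 1) ≤ Nat.log 2 B := Nat.le_log_of_pow_le (by norm_num) hB
  have hr2 : r1 + 1 ≤ r := by
    rw [hr, Nat.le_div_iff_mul_le (by omega)]
    rwa [mul_comm] at hlog
  have hle : (M + 2) * r ≤ Nat.log 2 B := Nat.mul_div_le _ _
  have hlt : Nat.log 2 B < (M + 2) * (r + 1) := by
    have := Nat.lt_mul_div_succ (Nat.log 2 B) (show 0 < M + 2 by omega)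
    exact this
  have h1 : 2 ^ ((M + 2) * r) ≤ B := (Nat.pow_le_pow_right (by norm_num) hle).trans
    (Nat.pow_log_le_self 2 hB0)
  have h2 : B < 2 ^ ((M + 2) * (r + 1)) := (Nat.lt_pow_succ_log_self (by norm_num) B).trans_le
    (Nat.pow_le_pow_right (by norm_num) hlt)
  refine hr1 r (by omega) B h1 s hs1 (hs2.trans ?_)
  have hB1 : (1 : ℝ) ≤ B := by exact_mod_cast Nat.one_le_iff_ne_zero.2 hB0
  calc (B : ℝ) ^ A ≤ (B : ℝ) ^ (N : ℝ) := Real.rpow_le_rpow_of_exponent_le hB1 hN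
    _ = (B : ℝ) ^ N := Real.rpow_natCast _ _
    _ ≤ (2 ^ ((M + 2) * (r + 1))) ^ N := by
      apply pow_le_pow_left₀ (by positivity)
      exact_mod_cast h2.le
    _ = 2 ^ ((M + 2) * (r + 1) * N) := by rw [← pow_mul]
    _ ≤ 2 ^ ((2 * (M + 2) * N + 1) * r) := by
      apply pow_le_pow_right₀ (by norm_num)
      have h3 : r + 1 ≤ 2 * r := by omega
      calc (M + 2) * (r + 1) * N ≤ (M + 2) * (2 * r) * N := by gcongr
        _ = 2 * (M + 2) * N * r := by ring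
        _ ≤ (2 * (M + 2) * N + 1) * r := by
          apply Nat.mul_le_mul_right
          omega

end Pool.Agent.Half
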