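import Pool.Agent.Half.VkE
import Pool.Agent.Half.VkN
import Pool.Agent.Half.VkS
import Pool.Agent.Half.Weyl

/-! Module VKF. Vinogradov bound for `F_B(s)`. PROOF. `c`, `τ` from `Ord2.type_log` (enlarge: `τ ≥ 1`, `c ≤ 1`); `C`, `h0` from `vke` with `ε / 4`;
`u`, `B1` from `few_near` with `ε / 4`; `L = log B`. `A = 200 + 24 (h0 + 1)`: if `|s| ≤ B ^ A` use `weyl A ε`. Otherwise let
`Q = ⌊B ^ (1 / (2 τ + 4))⌋`, `q ≤ Q`, `p` with `0 < η = |q α - p| ≤ 1 / Q` (`Real.exists_int_int_abs_mul_sub_le`), `β = (q α - p) log 2`,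
`X1 = |β| ^ (- 1 / 4)`, so `|β| X1 ^ 4 = 1`. `η ≥ c / Q ^ τ` gives `log X1 ≤ L / 4`, and `log X1 ≥ (log Q) / 4 ≥ L / (8 τ + 17)` for large `B`.
`σ = log |s| / log X1 > 4 A` and `σ ≤ (8 τ + 17) L ^ (κ - 1)`. `h = ⌈(σ + 3) / 24⌉`: then `h ≥ h0`, `σ + 1 ≤ 24 h - 2`, and `45 h / 2 ≤
(15/16)(σ + 27) ≤ σ` (`σ ≥ 405`). Every `t = s θ_b`, `1 ≤ θ_b < 2`, satisfies `X1 ^ (45 h) ≤ |t| ^ 2` and `|t| X1 ^ 2 ≤ X1 ^ (24 h)`
(`X1 ≥ 2`). `C h ^ 2 ≤ C' L ^ (2 κ - 2) ≤ L / (8 τ + 17) ≤ log X1` for large `B` as `2 κ - 2 < 1`. So `vke` gives `X ≤ X1` (it depends on `h`, `X1`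
only) and `hW` of `vks` holds with `W = ε / 4`. `η X ^ 2 ≤ η X1 ^ 2 ≤ 2 η ^ (1 / 2) ≤ u` for large `B`; `q X ^ 2 ≤ Q X1 ^ 2 ≤ C'' Q ^ (1 + τ / 2) ≤
C'' B ^ (1 / 4)`, so `2 q X ^ 2 / B ≤ ε / 4`. -/

open MeasureTheory Filter Topology

namespace Pool.Agent.Half

/-- the arithmetic parameters -/
theorem VkF_par {c : ℝ} (hc : 0 < c) {τ : ℕ}
    (htl : ∀ q : ℕ, 1 ≤ q → ∀ p : ℤ, c / (q : ℝ) ^ τ ≤ |(q : ℝ) * Ord2.al - p|)
    {B : ℕ} (hB : 1 ≤ B) (hL : 2 * (Real.log (1 / c) + 1) ≤ Real.log B) :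
    ∃ (q : ℕ) (p : ℤ) (X1 : ℝ), 1 ≤ q ∧ (q : ℝ) ≤ Real.exp (Real.log B / 4) ∧ 0 < X1 ∧
      |((q : ℝ) * Ord2.al - p) * Real.log 2| * X1 ^ 4 = 1 ∧
      |(q : ℝ) * Ord2.al - p| * X1 ^ 4 ≤ 2 ∧
      Real.log B / (8 * τ + 16) ≤ Real.log X1 ∧ Real.log X1 ≤ Real.log B / 4 := by
  have hBpos : (0 : ℝ) < B := by exact_mod_cast hB
  have hL0 : 0 ≤ Real.log B := Real.log_nonneg (by exact_mod_cast hB)
  set L := Real.log B with hLdef
  set m : ℝ := 2 * τ + 4 with hm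
  have hτ : (0 : ℝ) ≤ τ := Nat.cast_nonneg τ
  have hm0 : 0 < m := by positivity
  have hm4 : 4 ≤ m := by linarith
  set N : ℕ := ⌊Real.exp (L / m)⌋₊ with hN
  have hN1 : 1 ≤ N := by
    rw [hN, Nat.one_le_floor_iff]
    exact Real.one_le_exp (by positivity)
  have hNle : (N : ℝ) ≤ Real.exp (L / m) := Nat.floor_le (Real.exp_pos _).le
  have hNlt : Real.exp (L / m) < N + 1 := Nat.lt_floor_add_one _
  obtain ⟨j, k, hk0, hkN, hjk⟩ := Real.exists_int_int_abs_mul_sub_le Ord2.al (n := N) (by omega)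
  obtain ⟨q, rfl⟩ := Int.eq_ofNat_of_zero_le hk0.le
  have hq1 : 1 ≤ q := by omega
  have hqN : q ≤ N := by exact_mod_cast hkN
  have hqN' : (q : ℝ) ≤ N := by exact_mod_cast hqN
  have hq0 : (0 : ℝ) < q := by exact_mod_cast hq1
  have hjk' : |(q : ℝ) * Ord2.al - j| ≤ 1 / (N + 1) := by
    have h1 := hjk
    push_cast at h1
    exact h1
  set η := |(q : ℝ) * Ord2.al - j| with hη
  have hη1 : c / (q : ℝ) ^ τ ≤ η := htl q hq1 j
  have hη0 : 0 < η := lt_of_lt_of_le (by positivity) hη1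
  have hl2 : 0 < Real.log 2 := Real.log_pos (by norm_num)
  have hl2' : Real.log 2 ≤ 1 := by linarith [Real.log_two_lt_d9]
  have hl2h : 1 / 2 ≤ Real.log 2 := by linarith [Real.log_two_gt_d9]
  have hβ : |((q : ℝ) * Ord2.al - j) * Real.log 2| = η * Real.log 2 := by
    rw [abs_mul, abs_of_pos hl2]
  have hβ0 : 0 < η * Real.log 2 := by positivity
  have hX4 : Real.exp (-Real.log (η * Real.log 2) / 4) ^ 4 = 1 / (η * Real.log 2) := by
    rw [← Real.exp_nat_mul]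
    have h1 : ((4 : ℕ) : ℝ) * (-Real.log (η * Real.log 2) / 4) = -Real.log (η * Real.log 2) := by
      push_cast
      ring
    rw [h1, Real.exp_neg, Real.exp_log hβ0, one_div]
  refine ⟨q, j, Real.exp (-Real.log (η * Real.log 2) / 4), hq1, ?_, Real.exp_pos _, ?_, ?_, ?_, ?_⟩
  · refine hqN'.trans (hNle.trans (Real.exp_le_exp.2 ?_))
    exact div_le_div_of_nonneg_left hL0 (by norm_num) hm4
  · rw [hβ, hX4]
    field_simp
  · rw [hX4]
    have h1 : η * (1 / (η * Real.log 2)) = 1 / Real.log 2 := by field_simp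
    rw [h1, div_le_iff₀ hl2]
    linarith
  · rw [Real.log_exp, Real.log_mul hη0.ne' hl2.ne']
    have h1 : Real.log (Real.log 2) ≤ 0 := Real.log_nonpos hl2.le hl2'
    have h2 : Real.log η ≤ -(L / m) := by
      have h3 : Real.log η ≤ Real.log (1 / (N + 1)) := Real.log_le_log hη0 hjk'
      rw [one_div, Real.log_inv] at h3
      have h4 : L / m ≤ Real.log (N + 1) := by
        rw [← Real.log_exp (L / m)]
        exact Real.log_le_log (Real.exp_pos _) hNlt.le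
      linarith
    have h3 : L / (8 * τ + 16) = (L / m) / 4 := by
      rw [hm]
      field_simp
      ring
    rw [h3]
    linarith
  · rw [Real.log_exp, Real.log_mul hη0.ne' hl2.ne']
    have h1 : -1 ≤ Real.log (Real.log 2) := by
      have h2 : Real.log (1 / 2) ≤ Real.log (Real.log 2) := Real.log_le_log (by norm_num) hl2h
      rw [one_div, Real.log_inv] at h2
      linarith
    have h2 : -Real.log η ≤ L / 2 + Real.log (1 / c) := by
      have h3 : Real.log (c / (q : ℝ) ^ τ) ≤ Real.log η := Real.log_le_log (by positivity) hη1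
      rw [Real.log_div hc.ne' (by positivity), Real.log_pow] at h3
      have h4 : Real.log q ≤ L / m := by
        rw [← Real.log_exp (L / m)]
        exact Real.log_le_log hq0 (hqN'.trans hNle)
      have h5 : (τ : ℝ) * Real.log q ≤ L / 2 := by
        calc (τ : ℝ) * Real.log q ≤ τ * (L / m) := mul_le_mul_of_nonneg_left h4 hτ
          _ = L * (τ / m) := by ring
          _ ≤ L * (1 / 2) := by
              refine mul_le_mul_of_nonneg_left ?_ hL0
              rw [div_le_div_iff₀ hm0 (by norm_num)]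
              linarith
          _ = L / 2 := by ring
      rw [one_div, Real.log_inv]
      linarith
    linarith

/-- the choice of `h` -/
theorem VkF_h {A D L l S κ : ℝ} {h0 C : ℕ} (hD : 1 ≤ D) (hL : 1 ≤ L) (hl1 : L / D ≤ l)
    (hl2 : l ≤ L / 4) (hA : 200 + 24 * ((h0 : ℝ) + 1) ≤ A) (hS1 : A * L < S) (hS2 : S ≤ L ^ κ)
    (hC : C * D ^ 3 * L ^ (2 * κ - 2) ≤ L) :
    ∃ h : ℕ, h0 ≤ h ∧ C * (h : ℝ) ^ 2 ≤ l ∧ 45 * h * l ≤ 2 * S ∧ S + 3 * l ≤ 24 * h * l := by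
  have hL0 : 0 < L := by linarith
  have hD0 : 0 < D := by linarith
  have hl0 : 0 < l := lt_of_lt_of_le (by positivity) hl1
  have hA0 : 0 < A := by
    have : (0 : ℝ) ≤ h0 := Nat.cast_nonneg h0
    linarith
  set σ := S / l with hσ
  have hSσ : S = σ * l := by rw [hσ]; field_simp
  have hσA : 4 * A < σ := by
    rw [hσ, lt_div_iff₀ hl0]
    nlinarith
  have hh0 : (0 : ℝ) ≤ h0 := Nat.cast_nonneg h0
  have hσ2 : σ ≤ D * L ^ (κ - 1) := by
    have h1 : L ^ κ = L * L ^ (κ - 1) := by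
      rw [Real.rpow_sub_one hL0.ne']
      field_simp
    have h2 : S ≤ (D * L ^ (κ - 1)) * (L / D) := by
      calc S ≤ L ^ κ := hS2
        _ = (D * L ^ (κ - 1)) * (L / D) := by
            rw [h1]
            field_simp
    have h3 : (D * L ^ (κ - 1)) * (L / D) ≤ (D * L ^ (κ - 1)) * l :=
      mul_le_mul_of_nonneg_left hl1 (by positivity)
    rw [hσ, div_le_iff₀ hl0]
    linarith
  have hσ0 : 0 ≤ (σ + 3) / 24 := by linarith
  refine ⟨⌈(σ + 3) / 24⌉₊, ?_, ?_, ?_, ?_⟩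
  · have h1 : (h0 : ℝ) ≤ (⌈(σ + 3) / 24⌉₊ : ℝ) := by
      refine le_trans ?_ (Nat.le_ceil _)
      linarith
    exact_mod_cast h1
  · have h1 : (⌈(σ + 3) / 24⌉₊ : ℝ) ≤ σ := by
      have := Nat.ceil_lt_add_one hσ0
      linarith
    have h2 : (⌈(σ + 3) / 24⌉₊ : ℝ) ^ 2 ≤ D ^ 2 * L ^ (2 * κ - 2) := by
      have h3 : (⌈(σ + 3) / 24⌉₊ : ℝ) ≤ D * L ^ (κ - 1) := h1.trans hσ2
      calc (⌈(σ + 3) / 24⌉₊ : ℝ) ^ 2 ≤ (D * L ^ (κ - 1)) ^ 2 := by gcongr
        _ = D ^ 2 * L ^ (2 * κ - 2) := by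
            rw [mul_pow, ← Real.rpow_natCast (L ^ (κ - 1)) 2, ← Real.rpow_mul hL0.le]
            congr 2
            push_cast
            ring
    have h4 : (C : ℝ) * (D ^ 2 * L ^ (2 * κ - 2)) ≤ L / D := by
      rw [le_div_iff₀ hD0]
      calc (C : ℝ) * (D ^ 2 * L ^ (2 * κ - 2)) * D = C * D ^ 3 * L ^ (2 * κ - 2) := by ring
        _ ≤ L := hC
    calc (C : ℝ) * (⌈(σ + 3) / 24⌉₊ : ℝ) ^ 2 ≤ C * (D ^ 2 * L ^ (2 * κ - 2)) :=
          mul_le_mul_of_nonneg_left h2 (Nat.cast_nonneg C)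
      _ ≤ L / D := h4
      _ ≤ l := hl1
  · have h1 := (Nat.ceil_lt_add_one hσ0).le
    rw [hSσ]
    have h2 : 45 * (⌈(σ + 3) / 24⌉₊ : ℝ) ≤ 2 * σ := by linarith
    nlinarith [mul_le_mul_of_nonneg_right h2 hl0.le]
  · have h1 := Nat.le_ceil ((σ + 3) / 24)
    rw [hSσ]
    have h2 : σ + 3 ≤ 24 * (⌈(σ + 3) / 24⌉₊ : ℝ) := by linarith
    nlinarith [mul_le_mul_of_nonneg_right h2 hl0.le]

/-- the large `B` -/
theorem VkF_large {κ : ℝ} (h2 : κ < 3 / 2) (a b K : ℝ) (c D : ℝ) (hc : 0 < c) (hD : 0 < D) :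
    ∃ B0 : ℕ, ∀ B : ℕ, B0 ≤ B → 1 ≤ B ∧ a ≤ Real.log B ∧ K * (Real.log B) ^ (2 * κ - 2) ≤ Real.log B ∧
      b ≤ Real.exp (Real.log B / D) ∧ Real.exp (-(Real.log B / 4)) ≤ c := by
  have hlog : Tendsto (fun B : ℕ => Real.log (B : ℝ)) atTop atTop :=
    Real.tendsto_log_atTop.comp tendsto_natCast_atTop_atTop
  have e1 : ∀ᶠ B : ℕ in atTop, 1 ≤ B := eventually_ge_atTop 1
  have e2 : ∀ᶠ B : ℕ in atTop, a ≤ Real.log (B : ℝ) := hlog.eventually_ge_atTop a
  have e3 : ∀ᶠ x : ℝ in atTop, K * x ^ (2 * κ - 2) ≤ x := by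
    have h3 : Tendsto (fun x : ℝ => x ^ (3 - 2 * κ)) atTop atTop :=
      tendsto_rpow_atTop (by linarith)
    filter_upwards [h3.eventually_ge_atTop K, eventually_gt_atTop 0] with x hx hx0
    calc K * x ^ (2 * κ - 2) ≤ x ^ (3 - 2 * κ) * x ^ (2 * κ - 2) :=
          mul_le_mul_of_nonneg_right hx (Real.rpow_nonneg hx0.le _)
      _ = x := by
          rw [← Real.rpow_add hx0]
          have : 3 - 2 * κ + (2 * κ - 2) = 1 := by ring
          rw [this, Real.rpow_one]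
  have e3' : ∀ᶠ B : ℕ in atTop, K * (Real.log (B : ℝ)) ^ (2 * κ - 2) ≤ Real.log (B : ℝ) :=
    hlog.eventually e3
  have e4 : ∀ᶠ B : ℕ in atTop, b ≤ Real.exp (Real.log (B : ℝ) / D) := by
    have h3 : Tendsto (fun B : ℕ => Real.exp (Real.log (B : ℝ) / D)) atTop atTop :=
      Real.tendsto_exp_atTop.comp (hlog.atTop_div_const hD)
    exact h3.eventually_ge_atTop b
  have e5 : ∀ᶠ B : ℕ in atTop, Real.exp (-(Real.log (B : ℝ) / 4)) ≤ c := by
    have h3 : Tendsto (fun B : ℕ => Real.exp (-(Real.log (B : ℝ) / 4))) atTop (𝓝 0) :=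
      Real.tendsto_exp_neg_atTop_nhds_zero.comp (hlog.atTop_div_const (by norm_num))
    exact (h3.eventually (gt_mem_nhds hc)).mono fun _ h => h.le
  have e := e1.and (e2.and (e3'.and (e4.and e5)))
  obtain ⟨B0, hB0⟩ := eventually_atTop.1 e
  exact ⟨B0, fun B hB => hB0 B hB⟩

theorem weyl2 {κ : ℝ} (h1 : 1 < κ) (h2 : κ < 3 / 2) (ε : ℝ) (hε : 0 < ε) :
    ∃ K0 : ℝ, 0 < K0 ∧ ∃ B0 : ℕ, ∀ B : ℕ, B0 ≤ B → ∀ s : ℝ,
      K0 ≤ |s| → |s| ≤ Real.exp ((Real.log B) ^ κ) → ‖FB B s‖ ≤ ε := by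
  obtain ⟨c, hc, τ, htl⟩ := Ord2.type_log
  have hε4 : 0 < ε / 4 := by linarith
  obtain ⟨C, h0, hvke⟩ := vke hε4
  obtain ⟨u, hu, B1, hB1⟩ := few_near hε4
  set A : ℝ := 200 + 24 * ((h0 : ℝ) + 1) with hA
  obtain ⟨K0, hK0, B2, hB2⟩ := weyl A ε hε
  set D : ℝ := 8 * τ + 16 with hD
  have hτ : (0 : ℝ) ≤ τ := Nat.cast_nonneg τ
  have hD1 : 1 ≤ D := by linarith
  obtain ⟨B3, hB3⟩ := VkF_large h2 (max 1 (2 * (Real.log (1 / c) + 1))) (max 2 (2 / u))
    (C * D ^ 3) (ε / 8) D (by linarith) (by linarith)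
  refine ⟨K0, hK0, max B1 (max B2 B3), fun B hB s hs1 hs2 => ?_⟩
  have hBB1 : B1 ≤ B := (le_max_left _ _).trans hB
  have hBB2 : B2 ≤ B := (le_max_left _ _).trans ((le_max_right _ _).trans hB)
  have hBB3 : B3 ≤ B := (le_max_right _ _).trans ((le_max_right _ _).trans hB)
  by_cases hsA : |s| ≤ (B : ℝ) ^ A
  · exact hB2 B hBB2 s hs1 hsA
  · push Not at hsA
    obtain ⟨g1, g2, g3, g4, g5⟩ := hB3 B hBB3
    have hBpos : (0 : ℝ) < B := by exact_mod_cast g1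
    have hs0 : 0 < |s| := lt_of_lt_of_le hK0 hs1
    have hL1 : 1 ≤ Real.log B := (le_max_left _ _).trans g2
    have hLc : 2 * (Real.log (1 / c) + 1) ≤ Real.log B := (le_max_right _ _).trans g2
    obtain ⟨q, p, X1, hq1, hq2, hX1, hβ, hη, hx1, hx2⟩ := VkF_par hc htl g1 hLc
    set L := Real.log B with hL
    have hexpL : Real.exp L = B := Real.exp_log hBpos
    have hS1 : A * L < Real.log |s| := by
      have h3 := Real.log_lt_log (Real.rpow_pos_of_pos hBpos A) hsA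
      rwa [Real.log_rpow hBpos] at h3
    have hS2 : Real.log |s| ≤ L ^ κ := by
      have h3 := Real.log_le_log hs0 hs2
      rwa [Real.log_exp] at h3
    obtain ⟨h, hh0, hhC, hh1, hh2⟩ := VkF_h (h0 := h0) (C := C) hD1 hL1 hx1 hx2 hA.ge hS1 hS2 g3
    have hexpX : Real.exp (Real.log X1) = X1 := Real.exp_log hX1
    have hexpS : Real.exp (Real.log |s|) = |s| := Real.exp_log hs0
    have hpowX : ∀ m : ℕ, X1 ^ m = Real.exp (m * Real.log X1) := by
      intro m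
      rw [Real.exp_nat_mul, hexpX]
    have hXb : max 2 (2 / u) ≤ X1 := by
      rw [← hexpX]
      exact g4.trans (Real.exp_le_exp.2 hx1)
    have hX2 : 2 ≤ X1 := (le_max_left _ _).trans hXb
    have hXu : 2 / u ≤ X1 := (le_max_right _ _).trans hXb
    obtain ⟨X, hX0, hXX, hW⟩ := hvke h hh0 X1 (by
      rw [← hexpX]
      exact Real.exp_le_exp.2 hhC)
    have hXnn : (0 : ℝ) ≤ X := Nat.cast_nonneg X
    have hXsq : (X : ℝ) ^ 2 ≤ X1 ^ 2 := by gcongr
    have hu' : |(q : ℝ) * Ord2.al - p| * (X : ℝ) ^ 2 ≤ u := by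
      have h3 : |(q : ℝ) * Ord2.al - p| * (X : ℝ) ^ 2 ≤ |(q : ℝ) * Ord2.al - p| * X1 ^ 2 := by
        gcongr
      have h4 : |(q : ℝ) * Ord2.al - p| * X1 ^ 2 * X1 ≤ 2 := by
        calc |(q : ℝ) * Ord2.al - p| * X1 ^ 2 * X1 = |(q : ℝ) * Ord2.al - p| * X1 ^ 3 := by ring
          _ ≤ |(q : ℝ) * Ord2.al - p| * X1 ^ 4 := by
              have : X1 ^ 3 ≤ X1 ^ 4 := pow_le_pow_right₀ (by linarith) (by norm_num)
              gcongr
          _ ≤ 2 := hη
      have h5 : 2 ≤ u * X1 := by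
        rw [div_le_iff₀ hu] at hXu
        linarith
      have h6 : |(q : ℝ) * Ord2.al - p| * X1 ^ 2 * X1 ≤ u * X1 := h4.trans h5
      exact h3.trans (le_of_mul_le_mul_right h6 hX1)
    have hfin := vks B q X (by omega) hX0 p s u (ε / 4) hε4.le hu hu' (by
      intro b _ _ _
      have hth := Ord2.th_mem b
      have hth0 : 0 < Ord2.th b := by linarith [hth.1]
      have habs : |s * Ord2.th b| = |s| * Ord2.th b := by
        rw [abs_mul, abs_of_pos hth0]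
      refine hW (s * Ord2.th b) (((q : ℝ) * Ord2.al - p) * Real.log 2) hβ ?_ ?_
      · rw [habs, hpowX]
        calc Real.exp (((45 * h : ℕ) : ℝ) * Real.log X1) ≤ Real.exp (2 * Real.log |s|) := by
              apply Real.exp_le_exp.2
              push_cast
              linarith
          _ = |s| ^ 2 := by
              rw [two_mul, Real.exp_add, hexpS]
              ring
          _ ≤ (|s| * Ord2.th b) ^ 2 := by
              have : |s| ≤ |s| * Ord2.th b := le_mul_of_one_le_right hs0.le hth.1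
              gcongr
      · rw [habs, hpowX (24 * h)]
        have hl2 : Real.log 2 ≤ Real.log X1 := Real.log_le_log (by norm_num) hX2
        calc |s| * Ord2.th b * X1 ^ 2 ≤ |s| * 2 * X1 ^ 2 := by
              have := hth.2.le
              gcongr
          _ = Real.exp (Real.log |s| + Real.log 2 + 2 * Real.log X1) := by
              rw [Real.exp_add, Real.exp_add, hexpS, Real.exp_log (by norm_num), hpowX 2]
              push_cast
              rfl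
          _ ≤ Real.exp (((24 * h : ℕ) : ℝ) * Real.log X1) := by
              apply Real.exp_le_exp.2
              push_cast
              linarith)
    have hcard := hB1 B hBB1
    have hc1 : (((Finset.range B).filter fun b : ℕ =>
      Int.fract ((b : ℝ) * Ord2.al) < u ∨ 1 - u < Int.fract ((b : ℝ) * Ord2.al)).card : ℝ) / B ≤
        ε / 4 := by
      rw [div_le_iff₀ hBpos]
      exact hcard
    have hc2 : 2 * q * (X : ℝ) ^ 2 / B ≤ ε / 4 := by
      have h3 : X1 ^ 2 ≤ Real.exp (L / 2) := by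
        rw [hpowX 2]
        apply Real.exp_le_exp.2
        push_cast
        linarith
      have h4 : 2 * (q : ℝ) * (X : ℝ) ^ 2 ≤ 2 * Real.exp (L / 4) * Real.exp (L / 2) := by
        have := hXsq.trans h3
        gcongr
      have h5 : 2 * Real.exp (L / 4) * Real.exp (L / 2) = 2 * Real.exp (-(L / 4)) * B := by
        rw [← hexpL, mul_assoc, mul_assoc, ← Real.exp_add, ← Real.exp_add]
        congr 2
        ring
      rw [div_le_iff₀ hBpos]
      rw [h5] at h4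
      have h6 : 2 * Real.exp (-(L / 4)) * B ≤ ε / 4 * B := by
        have : 2 * Real.exp (-(L / 4)) ≤ ε / 4 := by linarith
        gcongr
      linarith
    linarith

end Pool.Agent.Half
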