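import Pool.Agent.Half.SlT
import Pool.Agent.Half.VkF

/-! Module SLT2. The same as `sl_tendsto` (copy the proof) with `weyl2` in place of `weyl`: choose `κ' = (max κ 1 + 3 / 2) / 2 ∈ (1, 3/2)`,
`κ < κ'`; for large `k` `|m| 2 ^ (ρ k) ≤ exp (log |m| + (log 2) (log n) ^ κ) ≤ exp ((log (bb n)) ^ κ')` because `n < 2 bb n`, and `ρ k / bb (n k) → 0`. -/

open MeasureTheory Filter Topology

namespace Pool.Agent.Half

private theorem slt2_small {κ : ℝ} (n ρ : ℕ → ℕ) (hn : Tendsto n atTop atTop)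
    (hA : ∀ᶠ k in atTop, (ρ k : ℝ) ≤ (Real.log (n k)) ^ κ) (ε : ℝ) (hε : 0 < ε) :
    ∀ᶠ k in atTop, (ρ k : ℝ) ≤ ε * n k := by
  have hn' : Tendsto (fun k => (n k : ℝ)) atTop atTop := tendsto_natCast_atTop_atTop.comp hn
  have h1 : (fun x : ℝ => Real.log x ^ κ) =o[atTop] fun x => x ^ (1 : ℝ) :=
    isLittleO_log_rpow_rpow_atTop κ one_pos
  filter_upwards [hA, hn'.eventually (h1.def hε)] with k ha hb
  have hb1 : ‖((n k : ℝ)) ^ (1 : ℝ)‖ = n k := by
    rw [Real.rpow_one, Real.norm_eq_abs, abs_of_nonneg (Nat.cast_nonneg (n k))]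
  rw [hb1, Real.norm_eq_abs] at hb
  exact ha.trans ((le_abs_self _).trans hb)

/-- growth: `c + 2 ^ κ₁ x ^ κ₁ ≤ x ^ κ'` for large `x` -/
private theorem slt2_grow {κ₁ κ' : ℝ} (h0 : 0 ≤ κ₁) (h : κ₁ < κ') (c : ℝ) (hc : 0 ≤ c) :
    ∀ᶠ x : ℝ in atTop, c + 2 ^ κ₁ * x ^ κ₁ ≤ x ^ κ' := by
  have h1 : Tendsto (fun x : ℝ => x ^ (κ' - κ₁)) atTop atTop :=
    tendsto_rpow_atTop (by linarith)
  filter_upwards [h1.eventually_ge_atTop (2 ^ κ₁ + c), eventually_ge_atTop (1 : ℝ)] with x hx hx1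
  have hx0 : 0 < x := by linarith
  have h2 : x ^ κ' = x ^ (κ' - κ₁) * x ^ κ₁ := by
    rw [← Real.rpow_add hx0]
    congr 1
    ring
  have h3 : 1 ≤ x ^ κ₁ := Real.one_le_rpow hx1 h0
  rw [h2]
  calc c + 2 ^ κ₁ * x ^ κ₁ ≤ c * x ^ κ₁ + 2 ^ κ₁ * x ^ κ₁ := by
        have : c * 1 ≤ c * x ^ κ₁ := mul_le_mul_of_nonneg_left h3 hc
        linarith
    _ = (2 ^ κ₁ + c) * x ^ κ₁ := by ring
    _ ≤ x ^ (κ' - κ₁) * x ^ κ₁ := mul_le_mul_of_nonneg_right hx (by linarith)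

theorem sl_tendsto2 {κ : ℝ} (hκ : κ < 3 / 2) (n ρ : ℕ → ℕ) (hn : Tendsto n atTop atTop)
    (hρ : Tendsto ρ atTop atTop) (hA : ∀ᶠ k in atTop, (ρ k : ℝ) ≤ (Real.log (n k)) ^ κ) (z : ℕ → T)
    (hz : ∀ k, (1 / 2 : ℝ) ^ (n k + 1) ≤ ‖z k‖ ∧ ‖z k‖ ≤ (1 / 2 : ℝ) ^ n k) (m : ℤ) (hm : m ≠ 0) :
    Tendsto (fun k => avgC (sl (n k) (ρ k)) (fourier m) (z k)) atTop (𝓝 0) := by
  set κ₁ : ℝ := max κ 1 with hκ₁
  have hk1 : 1 ≤ κ₁ := le_max_right _ _
  have hk2 : κ ≤ κ₁ := le_max_left _ _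
  have hk3 : κ₁ < 3 / 2 := max_lt hκ (by norm_num)
  obtain ⟨κ', hκ'⟩ : ∃ κ' : ℝ, κ' = (κ₁ + 3 / 2) / 2 := ⟨_, rfl⟩
  have hκ1 : 1 < κ' := by rw [hκ']; linarith
  have hκ2 : κ' < 3 / 2 := by rw [hκ']; linarith
  have hκ3 : κ₁ < κ' := by rw [hκ']; linarith
  rw [Metric.tendsto_atTop]
  intro ε hε
  obtain ⟨K0, hK0, B0, hB0⟩ := weyl2 hκ1 hκ2 (ε / 4) (by linarith)
  obtain ⟨c, hc⟩ := pow_unbounded_of_one_lt (2 * K0) (by norm_num : (1 : ℝ) < 2)
  have hρ' : Tendsto (fun k => (ρ k : ℝ)) atTop atTop := tendsto_natCast_atTop_atTop.comp hρ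
  have hbbT := SLT_bb_tendsto n hn
  have hbbR : Tendsto (fun k => (bb (n k) : ℝ)) atTop atTop :=
    tendsto_natCast_atTop_atTop.comp hbbT
  have hlogT : Tendsto (fun k => Real.log (bb (n k) : ℝ)) atTop atTop :=
    Real.tendsto_log_atTop.comp hbbR
  have hm1 : (1 : ℝ) ≤ |(m : ℝ)| := by
    have : (1 : ℤ) ≤ |m| := Int.one_le_abs hm
    exact_mod_cast this
  have hgrow := hlogT.eventually (slt2_grow (by linarith) hκ3 (Real.log |(m : ℝ)|)
    (Real.log_nonneg hm1))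
  have hev : ∀ᶠ k in atTop, ‖avgC (sl (n k) (ρ k)) (fourier m) (z k)‖ < ε := by
    filter_upwards [hA, slt2_small n ρ hn hA (ε / 8) (by linarith),
      hbbT.eventually_ge_atTop B0, hgrow, hlogT.eventually_ge_atTop 1,
      hρ'.eventually_ge_atTop (4 * (c : ℝ) / ε), hρ.eventually_ge_atTop 1,
      hn.eventually_ge_atTop 3] with k h1 h2 h3 h4 h4' h5 h6 h7
    obtain ⟨ζ, hζ, hζn⟩ := SLT_rep (z k)
    have hρpos : (0 : ℝ) < ρ k := by exact_mod_cast (by omega : 0 < ρ k)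
    have ht1 : 1 / 2 ≤ 2 ^ n k * |ζ| := by
      have h8 := (hz k).1
      rw [← hζn, pow_succ] at h8
      have h9 : (2 : ℝ) ^ n k * ((1 / 2) ^ n k * (1 / 2)) = 1 / 2 := by
        rw [← mul_assoc, ← mul_pow]; norm_num
      have h10 : (2 : ℝ) ^ n k * ((1 / 2) ^ n k * (1 / 2)) ≤ 2 ^ n k * |ζ| :=
        mul_le_mul_of_nonneg_left h8 (by positivity)
      linarith
    have ht2 : 2 ^ n k * |ζ| ≤ 1 := by
      have h8 := (hz k).2
      rw [← hζn] at h8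
      have h9 : (2 : ℝ) ^ n k * ((1 / 2) ^ n k) = 1 := by
        rw [← mul_pow]; norm_num
      have h10 : (2 : ℝ) ^ n k * |ζ| ≤ 2 ^ n k * ((1 / 2) ^ n k) :=
        mul_le_mul_of_nonneg_left h8 (by positivity)
      linarith
    have hnB : (n k : ℝ) ≤ 2 * bb (n k) := by
      exact_mod_cast (bb_bounds (n k)).1.le
    have hnk3 : (3 : ℝ) ≤ n k := by exact_mod_cast h7
    have hnk : (0 : ℝ) < n k := by linarith
    have hBpos : (0 : ℝ) < bb (n k) := by linarith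
    have hl2 : (0 : ℝ) < Real.log 2 := Real.log_pos (by norm_num)
    have hl2' : Real.log 2 ≤ 1 := by
      have := Real.log_two_lt_d9
      linarith
    have hlogn : 1 ≤ Real.log (n k) := by
      rw [Real.le_log_iff_exp_le hnk]
      have := Real.exp_one_lt_d9
      linarith
    have hlogB : Real.log (n k) ≤ 2 * Real.log (bb (n k)) := by
      have e1 : Real.log (n k) ≤ Real.log (2 * bb (n k)) := Real.log_le_log hnk hnB
      rw [Real.log_mul (by norm_num) hBpos.ne'] at e1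
      linarith
    have hpow : |(m : ℝ)| * 2 ^ ρ k ≤ Real.exp ((Real.log (bb (n k))) ^ κ') := by
      have e1 : (ρ k : ℝ) ≤ 2 ^ κ₁ * (Real.log (bb (n k))) ^ κ₁ := by
        calc (ρ k : ℝ) ≤ (Real.log (n k)) ^ κ := h1
          _ ≤ (Real.log (n k)) ^ κ₁ := Real.rpow_le_rpow_of_exponent_le hlogn hk2
          _ ≤ (2 * Real.log (bb (n k))) ^ κ₁ :=
              Real.rpow_le_rpow (by linarith) hlogB (by linarith)
          _ = _ := Real.mul_rpow (by norm_num) (by linarith)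
      have e2 : Real.log |(m : ℝ)| + (ρ k : ℝ) * Real.log 2 ≤ (Real.log (bb (n k))) ^ κ' := by
        have e3 : (ρ k : ℝ) * Real.log 2 ≤ ρ k := by
          calc (ρ k : ℝ) * Real.log 2 ≤ ρ k * 1 := mul_le_mul_of_nonneg_left hl2' hρpos.le
            _ = ρ k := mul_one _
        linarith
      calc |(m : ℝ)| * 2 ^ ρ k = Real.exp (Real.log |(m : ℝ)| + (ρ k : ℝ) * Real.log 2) := by
            rw [Real.exp_add, Real.exp_log (by linarith), Real.exp_nat_mul,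
              Real.exp_log (by norm_num)]
        _ ≤ _ := Real.exp_le_exp.2 e2
    have habs : ∀ i : ℕ, |(m : ℝ) * 2 ^ i * (2 ^ n k * ζ)| = |(m : ℝ)| * 2 ^ i * (2 ^ n k * |ζ|) := by
      intro i
      rw [abs_mul, abs_mul, abs_mul, abs_of_pos (by positivity : (0 : ℝ) < 2 ^ i),
        abs_of_pos (by positivity : (0 : ℝ) < 2 ^ n k)]
    have hterm : ∀ i ∈ Finset.range (ρ k), ‖FB (bb (n k)) ((m : ℝ) * 2 ^ i * (2 ^ n k * ζ))‖ ≤
        (if i < c then 1 else 0) + ε / 4 := by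
      intro i hi
      rw [Finset.mem_range] at hi
      split_ifs with hic
      · have := SLT_FB_le (bb (n k)) ((m : ℝ) * 2 ^ i * (2 ^ n k * ζ))
        linarith
      · rw [zero_add]
        refine hB0 (bb (n k)) h3 _ ?_ ?_
        · rw [habs]
          have hpc : (2 : ℝ) ^ c ≤ 2 ^ i := pow_le_pow_right₀ (by norm_num) (not_lt.1 hic)
          have e1 : (1 : ℝ) * 2 ^ i ≤ |(m : ℝ)| * 2 ^ i :=
            mul_le_mul_of_nonneg_right hm1 (by positivity)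
          have e2 : (|(m : ℝ)| * 2 ^ i) * (1 / 2) ≤ |(m : ℝ)| * 2 ^ i * (2 ^ n k * |ζ|) :=
            mul_le_mul_of_nonneg_left ht1 (by positivity)
          linarith
        · rw [habs]
          have e1 : |(m : ℝ)| * 2 ^ i * (2 ^ n k * |ζ|) ≤ |(m : ℝ)| * 2 ^ i * 1 :=
            mul_le_mul_of_nonneg_left ht2 (by positivity)
          have e2 : |(m : ℝ)| * (2 : ℝ) ^ i ≤ |(m : ℝ)| * 2 ^ ρ k :=
            mul_le_mul_of_nonneg_left (pow_le_pow_right₀ (by norm_num) hi.le) (abs_nonneg _)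
          linarith
    have hsum : ∑ i ∈ Finset.range (ρ k), ‖FB (bb (n k)) ((m : ℝ) * 2 ^ i * (2 ^ n k * ζ))‖ ≤
        c + ρ k * (ε / 4) := by
      refine (Finset.sum_le_sum hterm).trans ?_
      rw [Finset.sum_add_distrib, Finset.sum_const, Finset.card_range, nsmul_eq_mul]
      refine add_le_add ?_ le_rfl
      rw [← Finset.sum_filter, Finset.sum_const, nsmul_eq_mul, mul_one]
      have hsub : (Finset.range (ρ k)).filter (fun i => i < c) ⊆ Finset.range c := by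
        intro i hi
        rw [Finset.mem_filter] at hi
        exact Finset.mem_range.2 hi.2
      have := Finset.card_le_card hsub
      rw [Finset.card_range] at this
      exact_mod_cast this
    have hmain := sl_char (n k) (ρ k) (by omega) m ζ
    rw [hζ] at hmain
    have h10 : (∑ i ∈ Finset.range (ρ k), ‖FB (bb (n k)) ((m : ℝ) * 2 ^ i * (2 ^ n k * ζ))‖) / ρ k ≤
        ε / 4 + ε / 4 := by
      rw [div_le_iff₀ hρpos]
      have h11 : (c : ℝ) ≤ ε / 4 * ρ k := by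
        rw [div_le_iff₀ hε] at h5
        linarith
      linarith
    have h12 : (ρ k : ℝ) / bb (n k) ≤ ε / 4 := by
      rw [div_le_iff₀ hBpos]
      calc (ρ k : ℝ) ≤ ε / 8 * n k := h2
        _ ≤ ε / 8 * (2 * bb (n k)) := mul_le_mul_of_nonneg_left hnB (by linarith)
        _ = _ := by ring
    linarith
  obtain ⟨N, hN⟩ := eventually_atTop.1 hev
  refine ⟨N, fun k hk => ?_⟩
  rw [dist_zero_right]
  exact hN k hk

theorem small2 {κ : ℝ} (n ρ : ℕ → ℕ) (hn : Tendsto n atTop atTop)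
    (hA : ∀ᶠ k in atTop, (ρ k : ℝ) ≤ (Real.log (n k)) ^ κ) : ∀ᶠ k in atTop, ρ k ≤ n k := by
  filter_upwards [slt2_small n ρ hn hA 1 one_pos] with k hk
  rw [one_mul] at hk
  exact_mod_cast hk

end Pool.Agent.Half
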