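import Pool.Agent.Half.KThick
import Pool.Agent.Half.SlT2

/-! Widths up to `(log n) ^ κ`, `κ < 3 / 2`, are admissible. -/

open MeasureTheory Filter Topology

namespace Pool.Agent.Half

private theorem kp_grow {κ₁ κ' : ℝ} (h0 : 0 ≤ κ₁) (h : κ₁ < κ') (c : ℝ) (hc : 0 ≤ c) :
    ∀ᶠ x : ℝ in atTop, c + 2 ^ κ₁ * x ^ κ₁ ≤ x ^ κ' := by
  have h1 : Tendsto (fun x : ℝ => x ^ (κ' - κ₁)) atTop atTop :=
    tendsto_rpow_atTop (by linarith)
  filter_upwards [h1.eventually_ge_atTop (2 ^ κ₁ + c), eventually_ge_atTop (1 : ℝ)] with x hx hx1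
  have hx0 : 0 < x := by linarith
  have h2 : x ^ κ' = x ^ (κ' - κ₁) * x ^ κ₁ := by
    rw [← Real.rpow_add hx0]
    congr 1
    ring
  have h3 : 1 ≤ x ^ κ₁ := Real.one_le_rpow hx1 h0
  rw [h2]
  calc c + 2 ^ κ₁ * x ^ κ₁ ≤ c * x ^ κ₁ + 2 ^ κ₁ * x ^ κ₁ := by
        have : c * 1 ≤ c * x ^ κ₁ := mul_le_mul_of_nonneg_left h3 hc
        linarith
    _ = (2 ^ κ₁ + c) * x ^ κ₁ := by ring
    _ ≤ x ^ (κ' - κ₁) * x ^ κ₁ := mul_le_mul_of_nonneg_right hx (by linarith)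

/-- Widths up to `(log n) ^ κ` with `κ < 3 / 2` are admissible. -/
theorem thick_pow {κ : ℝ} (hκ : κ < 3 / 2) (r : ℕ → ℕ) (hr : Tendsto r atTop atTop)
    (hA : ∀ᶠ n : ℕ in atTop, (r n : ℝ) ≤ (Real.log n) ^ κ) : Thick r := by
  have hbbT : Tendsto (fun n : ℕ => bb n) atTop atTop := SLT_bb_tendsto id tendsto_id
  have hbbR : Tendsto (fun n : ℕ => (bb n : ℝ)) atTop atTop := tendsto_natCast_atTop_atTop.comp hbbT
  have hnB : ∀ n : ℕ, (n : ℝ) ≤ 2 * bb n := fun n => by exact_mod_cast (bb_bounds n).1.le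
  refine ⟨hr, fun ε hε => ?_, fun c ε hc hε => ?_⟩
  · have h1 : (fun x : ℝ => Real.log x ^ κ) =o[atTop] fun x => x ^ (1 : ℝ) :=
      isLittleO_log_rpow_rpow_atTop κ one_pos
    filter_upwards [hA, tendsto_natCast_atTop_atTop.eventually (h1.def (half_pos hε))] with n ha hb
    have hb1 : ‖((n : ℝ)) ^ (1 : ℝ)‖ = n := by
      rw [Real.rpow_one, Real.norm_eq_abs, abs_of_nonneg (Nat.cast_nonneg n)]
    rw [hb1, Real.norm_eq_abs] at hb
    have h2 := ha.trans ((le_abs_self _).trans hb)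
    have h3 := mul_le_mul_of_nonneg_left (hnB n) (half_pos hε).le
    linarith
  · set κ₁ : ℝ := max κ 1 with hκ₁
    have hk1 : 1 ≤ κ₁ := le_max_right _ _
    have hk2 : κ ≤ κ₁ := le_max_left _ _
    have hk3 : κ₁ < 3 / 2 := max_lt hκ (by norm_num)
    obtain ⟨κ', hκ'⟩ : ∃ κ' : ℝ, κ' = (κ₁ + 3 / 2) / 2 := ⟨_, rfl⟩
    have hκ1 : 1 < κ' := by rw [hκ']; linarith
    have hκ2 : κ' < 3 / 2 := by rw [hκ']; linarith
    have hκ3 : κ₁ < κ' := by rw [hκ']; linarith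
    obtain ⟨K0, hK0, B0, hB0⟩ := weyl2 hκ1 hκ2 ε hε
    have hlogT : Tendsto (fun n : ℕ => Real.log (bb n)) atTop atTop := Real.tendsto_log_atTop.comp hbbR
    have hlogn : Tendsto (fun n : ℕ => Real.log (n : ℝ)) atTop atTop :=
      Real.tendsto_log_atTop.comp tendsto_natCast_atTop_atTop
    obtain ⟨n0, hn0⟩ := eventually_atTop.1 (((hbbT.eventually_ge_atTop B0).and
      (hbbR.eventually_ge_atTop 2)).and ((hA.and (hlogn.eventually_ge_atTop 1)).and
      (hlogT.eventually (kp_grow (by linarith) hκ3 |Real.log c| (abs_nonneg _)))))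
    refine ⟨K0, hK0, n0, fun n hn B hB s hs1 hs2 => ?_⟩
    obtain ⟨⟨h1, h2⟩, ⟨h3, h4⟩, h5⟩ := hn0 n hn
    refine hB0 B (h1.trans hB) s hs1 (hs2.trans ?_)
    have hb : (0 : ℝ) < bb n := by linarith
    have hBR : (bb n : ℝ) ≤ B := by exact_mod_cast hB
    have hn1 : (1 : ℝ) < n := by
      by_contra hcon
      have := Real.log_nonpos (Nat.cast_nonneg n) (not_lt.1 hcon)
      linarith
    have e1 : Real.log n ≤ 2 * Real.log (bb n) := by
      calc Real.log n ≤ Real.log ((bb n : ℝ) ^ 2) := by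
            apply Real.log_le_log (by linarith)
            have := hnB n
            nlinarith
        _ = 2 * Real.log (bb n) := by rw [Real.log_pow]; norm_num
    have e2 : (r n : ℝ) ≤ 2 ^ κ₁ * Real.log (bb n) ^ κ₁ := by
      calc (r n : ℝ) ≤ Real.log n ^ κ := h3
        _ ≤ Real.log n ^ κ₁ := Real.rpow_le_rpow_of_exponent_le h4 hk2
        _ ≤ (2 * Real.log (bb n)) ^ κ₁ := Real.rpow_le_rpow (by linarith) e1 (by linarith)
        _ = 2 ^ κ₁ * Real.log (bb n) ^ κ₁ := by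
            rw [Real.mul_rpow (by norm_num) (Real.log_nonneg (by linarith))]
    have e3 : c * 2 ^ r n = Real.exp (Real.log c + Real.log 2 * r n) := by
      rw [Real.exp_add, Real.exp_log hc, ← Real.rpow_natCast, Real.rpow_def_of_pos (by norm_num)]
    rw [e3]
    apply Real.exp_le_exp.2
    have e4 : Real.log 2 * r n ≤ r n := by
      have h2 : Real.log 2 ≤ 1 := by
        have := Real.log_two_lt_d9
        linarith
      have h3 : 0 ≤ (r n : ℝ) := Nat.cast_nonneg _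
      nlinarith
    have e5 : Real.log (bb n) ^ κ' ≤ Real.log B ^ κ' :=
      Real.rpow_le_rpow (Real.log_nonneg (by linarith)) (Real.log_le_log hb hBR) (by linarith)
    have e6 := le_abs_self (Real.log c)
    linarith

end Pool.Agent.Half
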