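import Pool.Agent.Half.TMean
import Pool.Agent.Half.KPow
import Pool.Agent.Half.KPoint

/-! Theorem T, part 3: the entropy of the dyadic partitions is bounded by the accumulated measure of the exceptional
points (helper56). -/

open MeasureTheory Filter Topology
open scoped ENNReal

namespace Pool.Agent.Half

/-- points whose slice at scale `n` has at least half of the Lebesgue integral of `f`, up to `δ` -/
def Ex (r : ℕ → ℕ) (f : C(T, ℝ)) (δ : ℝ) (n : ℕ) : Set T :=
  {x | (∫ z, f z ∂(volume : Measure T)) / 2 - δ ≤ avg (sl n (r n)) f x}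

theorem measurable_Ex (r : ℕ → ℕ) (f : C(T, ℝ)) (δ : ℝ) (n : ℕ) : MeasurableSet (Ex r f δ n) := by
  have hc : Continuous fun x => avg (sl n (r n)) f x := by
    unfold avg
    refine Continuous.div_const ?_ _
    exact continuous_finsetSum _ fun p _ => f.continuous.comp (continuous_const_smul _)
  exact (isClosed_le continuous_const hc).measurableSet

theorem T_pair {r : ℕ → ℕ} (h : Thick r) (f : C(T, ℝ)) (hf : ∀ z, 0 ≤ f z) (δ : ℝ) (hδ : 0 < δ) :
    ∃ ε : ℝ, 0 < ε ∧ ∃ n1 : ℕ, ∀ n C : ℕ, n1 ≤ n → (C : ℝ) ≤ ε * r n → ∀ x y : T,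
      x ∉ Ex r f δ n → y ∉ Ex r f δ n → ‖x - y‖ ≤ (1 / 2 : ℝ) ^ n → ‖x - y‖ < (1 / 2 : ℝ) ^ (n + C) := by
  obtain ⟨ε, hε, n1, h1⟩ := k_point Bool h {f} (by simpa using hf) δ hδ
  refine ⟨ε, hε, n1, fun n C hn hC x y hx hy hxy => ?_⟩
  by_contra hcon
  rw [not_lt] at hcon
  obtain ⟨t, ht, hts, htf⟩ := h1 n C hn hC (fun b => if b then x else y) (by
    intro i j hij
    cases i <;> cases j
    · exact absurd rfl hij
    · simp only [if_true, Bool.false_eq_true, if_false]
      exact ⟨hcon, hxy⟩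
    · simp only [if_true, Bool.false_eq_true, if_false]
      rw [norm_sub_rev]
      exact ⟨hcon, hxy⟩
    · exact absurd rfl hij)
  rw [Fintype.sum_bool] at hts
  have hI : 0 ≤ ∫ z, f z ∂(volume : Measure T) := integral_nonneg hf
  have hT := htf true f (by simp)
  have hF := htf false f (by simp)
  simp only [if_true, Bool.false_eq_true, if_false] at hT hF
  simp only [Ex, Set.mem_ofPred_eq, not_le] at hx hy
  have h2 : 1 / 2 ≤ t true ∨ 1 / 2 ≤ t false := by
    by_contra hc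
    push Not at hc
    linarith [hc.1, hc.2]
  rcases h2 with h2 | h2
  · have := mul_le_mul_of_nonneg_right h2 hI
    linarith
  · have := mul_le_mul_of_nonneg_right h2 hI
    linarith

/-- lengths of the windows -/
noncomputable def Lw (e : ℝ) (m : ℕ) : ℕ := max 1 ⌊e * Real.log m⌋₊

/-- the net -/
noncomputable def Mw (e : ℝ) (m0 : ℕ) : ℕ → ℕ
  | 0 => m0
  | j + 1 => Mw e m0 j + Lw e (Mw e m0 j)

theorem Mw_lt (e : ℝ) (m0 j : ℕ) : Mw e m0 j < Mw e m0 (j + 1) := by
  have : 1 ≤ Lw e (Mw e m0 j) := le_max_left _ _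
  simp only [Mw]
  omega

theorem Mw_mono (e : ℝ) (m0 : ℕ) : StrictMono (Mw e m0) := strictMono_nat_of_lt_succ (Mw_lt e m0)

theorem Mw_ge (e : ℝ) (m0 j : ℕ) : m0 ≤ Mw e m0 j := (Mw_mono e m0).monotone (Nat.zero_le j)

theorem Lw_bounds {e : ℝ} (he0 : 0 < e) (he1 : e ≤ 1) {m : ℕ} (hm : 3 ≤ m) (hme : 2 ≤ e * Real.log m) :
    (Lw e m : ℝ) ≤ 1 + e * Real.log m ∧ Real.log m ≤ 2 / e * Lw e m ∧ Lw e m ≤ m := by
  have hm' : (3 : ℝ) ≤ m := by exact_mod_cast hm
  have hlog : 0 ≤ Real.log m := Real.log_nonneg (by linarith)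
  have h0 : 0 ≤ e * Real.log m := by positivity
  have h1 : ((⌊e * Real.log m⌋₊ : ℕ) : ℝ) ≤ e * Real.log m := Nat.floor_le h0
  have h2 : e * Real.log m < ((⌊e * Real.log m⌋₊ : ℕ) : ℝ) + 1 := Nat.lt_floor_add_one _
  have h3 : (Lw e m : ℝ) = max 1 ((⌊e * Real.log m⌋₊ : ℕ) : ℝ) := by
    unfold Lw
    push_cast
    rfl
  refine ⟨?_, ?_, ?_⟩
  · rw [h3]
    exact max_le (by linarith) (by linarith)
  · have h4 : ((⌊e * Real.log m⌋₊ : ℕ) : ℝ) ≤ Lw e m := by rw [h3]; exact le_max_right _ _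
    have h5 : e * Real.log m ≤ 2 * Lw e m := by linarith
    rw [div_mul_eq_mul_div, le_div_iff₀ he0]
    linarith
  · have h6 : (Lw e m : ℝ) ≤ m := by
      rw [h3]
      refine max_le (by linarith) (h1.trans ?_)
      have h7 : Real.log m ≤ m - 1 := Real.log_le_sub_one_of_pos (by linarith)
      nlinarith
    exact_mod_cast h6

theorem TF_sum {p : ℕ → ℝ} (hp : ∀ n, 0 ≤ p n) (m n : ℕ → ℕ) (hm : StrictMono m)
    (hn : ∀ j, ∀ k, m j ≤ k → k < m (j + 1) → p (n j) ≤ p k) (J N : ℕ) (hJ : m J ≤ N) :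
    ∑ j ∈ Finset.range J, ((m (j + 1) - m j : ℕ) : ℝ) * p (n j) ≤ ∑ k ∈ Finset.range N, p k := by
  have h1 : ∀ J, ∑ j ∈ Finset.range J, ((m (j + 1) - m j : ℕ) : ℝ) * p (n j) ≤
      ∑ k ∈ Finset.Ico (m 0) (m J), p k := by
    intro J
    induction J with
    | zero => simp
    | succ J ih =>
      rw [Finset.sum_range_succ, ← Finset.sum_Ico_consecutive p (hm.monotone (Nat.zero_le J))
        (hm.monotone (Nat.le_succ J))]
      have h2 : ((m (J + 1) - m J : ℕ) : ℝ) * p (n J) ≤ ∑ k ∈ Finset.Ico (m J) (m (J + 1)), p k := by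
        have h3 := Finset.card_nsmul_le_sum (Finset.Ico (m J) (m (J + 1))) p (p (n J)) (fun k hk => by
          rw [Finset.mem_Ico] at hk
          exact hn J k hk.1 hk.2)
        rwa [Nat.card_Ico, nsmul_eq_mul] at h3
      exact add_le_add ih h2
  refine (h1 J).trans ?_
  apply Finset.sum_le_sum_of_subset_of_nonneg
  · intro k hk
    rw [Finset.mem_Ico] at hk
    rw [Finset.mem_range]
    omega
  · intro k _ _
    exact hp k

theorem TF_log {θ : ℝ} (h0 : 0 < θ) (h1 : θ ≤ 1 / 2) : -Real.log (1 - θ) ≤ 2 * θ := by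
  have h2 := Real.one_sub_inv_le_log_of_pos (show 0 < 1 - θ by linarith)
  have h3 : (1 - θ)⁻¹ ≤ 1 + 2 * θ := by
    rw [inv_le_comm₀ (by linarith) (by linarith), inv_le_iff_one_le_mul₀ (by linarith)]
    nlinarith
  linarith

/-- **Theorem T.** The entropy of the partition into `2 ^ N` arcs is bounded by the accumulated measure of the points
whose slice at scale `n < N` is half Lebesgue for the function `f`. No invariance is assumed. -/
theorem entropy_growth {κ : ℝ} (hκ : κ < 3 / 2) (r : ℕ → ℕ) (hr : Tendsto r atTop atTop)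
    (hA : ∀ᶠ n : ℕ in atTop, (r n : ℝ) ≤ (Real.log n) ^ κ) {a : ℝ} (ha : 0 < a)
    (har : ∀ᶠ n : ℕ in atTop, a * Real.log n ≤ r n) (f : C(T, ℝ)) (hf : ∀ z, 0 ≤ f z) (δ : ℝ)
    (hδ : 0 < δ) : ∃ C : ℝ, ∀ (μ : Measure T) [IsProbabilityMeasure μ] (N : ℕ),
      Hd μ N ≤ C * (1 + ∑ n ∈ Finset.range N, μ.real (Ex r f δ n)) := by
  obtain ⟨ε, hε, n1, hpair⟩ := T_pair (thick_pow hκ r hr hA) f hf δ hδ
  set e : ℝ := min 1 (ε * a / 4) with he
  have he0 : 0 < e := lt_min one_pos (by positivity)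
  have he1 : e ≤ 1 := min_le_left _ _
  have hea : e ≤ ε * a / 4 := min_le_right _ _
  have hlogT : Tendsto (fun n : ℕ => Real.log (n : ℝ)) atTop atTop :=
    Real.tendsto_log_atTop.comp tendsto_natCast_atTop_atTop
  obtain ⟨m0, hm0⟩ := eventually_atTop.1 (((har.and (eventually_ge_atTop (max n1 3))).and
    (hlogT.eventually_ge_atTop (2 / e))).and (hlogT.eventually_ge_atTop (12 / (ε * a))))
  set M : ℕ → ℕ := Mw e m0 with hM
  have hMge : ∀ j, m0 ≤ M j := Mw_ge e m0
  have hMs : ∀ j, M (j + 1) = M j + Lw e (M j) := fun j => rfl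
  have hMm : StrictMono M := Mw_mono e m0
  -- facts for all `m ≥ m0`
  have hm : ∀ m, m0 ≤ m → a * Real.log m ≤ r m ∧ n1 ≤ m ∧ 3 ≤ m ∧ 2 ≤ e * Real.log m ∧
      12 ≤ ε * a * Real.log m := by
    intro m hmm
    obtain ⟨⟨⟨h1, h2⟩, h3⟩, h4⟩ := hm0 m hmm
    refine ⟨h1, (le_max_left _ _).trans h2, (le_max_right _ _).trans h2, ?_, ?_⟩
    · rw [div_le_iff₀ he0] at h3
      linarith
    · rw [div_le_iff₀ (by positivity)] at h4
      linarith
  have hL : ∀ j, (Lw e (M j) : ℝ) ≤ 1 + e * Real.log (M j) ∧ Real.log (M j) ≤ 2 / e * Lw e (M j) ∧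
      Lw e (M j) ≤ M j := fun j => by
    obtain ⟨-, -, h3, h4, -⟩ := hm (M j) (hMge j)
    exact Lw_bounds he0 he1 h3 h4
  have hlog2 : Real.log 2 ≤ 1 := by
    have := Real.log_two_lt_d9
    linarith
  have hlog20 : 0 < Real.log 2 := Real.log_pos (by norm_num)
  have hMlog : ∀ j, Real.log (M (j + 1)) ≤ Real.log (M j) + 1 := by
    intro j
    have h3 := (hm (M j) (hMge j)).2.2.1
    have h4 : (3 : ℝ) ≤ M j := by exact_mod_cast h3
    have h5 : (M (j + 1) : ℝ) ≤ 2 * M j := by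
      have := (hL j).2.2
      have h6 : M (j + 1) ≤ 2 * M j := by rw [hMs]; omega
      exact_mod_cast h6
    have h7 : (0 : ℝ) < M (j + 1) := by
      have := (hm (M (j + 1)) (hMge (j + 1))).2.2.1
      exact_mod_cast (by omega : 0 < M (j + 1))
    calc Real.log (M (j + 1)) ≤ Real.log (2 * M j) := Real.log_le_log h7 h5
      _ = Real.log 2 + Real.log (M j) := Real.log_mul (by norm_num) (by linarith)
      _ ≤ Real.log (M j) + 1 := by linarith
  -- the reach
  have hreach : ∀ j, ((M (j + 2) + 3 - M j : ℕ) : ℝ) ≤ ε * a * Real.log (M j) := by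
    intro j
    have h1 := (hL j).1
    have h2 := (hL (j + 1)).1
    have h3 := hMlog j
    have h4 := (hm (M j) (hMge j)).2.2.2.2
    have h5 : M (j + 2) + 3 - M j = Lw e (M j) + Lw e (M (j + 1)) + 3 := by
      rw [hMs (j + 1), hMs j]
      omega
    rw [h5]
    push_cast
    have h6 : e * Real.log (M (j + 1)) ≤ e * (Real.log (M j) + 1) := mul_le_mul_of_nonneg_left h3 he0.le
    have h7 : 0 ≤ Real.log (M j) := Real.log_natCast_nonneg _
    have h8 : e * Real.log (M j) ≤ ε * a / 4 * Real.log (M j) := mul_le_mul_of_nonneg_right hea h7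
    nlinarith
  set S : ℝ := ∑' j : ℕ, 1 / ((j : ℝ) + 1) ^ 2 with hS
  have hSs : Summable fun j : ℕ => 1 / ((j : ℝ) + 1) ^ 2 := by
    have h := (summable_nat_add_iff 1).2 (Real.summable_one_div_nat_pow.2 (by norm_num : 1 < 2))
    simpa using h
  set C1 : ℝ := 6 / e + 9 with hC1
  set K0 : ℝ := Real.log 3 + ((M 1 : ℝ) + 3) * Real.log 2 + 2 * S with hK0
  have hS0 : 0 ≤ S := tsum_nonneg fun j => by positivity
  have hC10 : 0 ≤ C1 := by positivity
  have hK00 : 0 ≤ K0 := by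
    have := Real.log_nonneg (by norm_num : (1 : ℝ) ≤ 3)
    positivity
  refine ⟨K0 + C1, fun μ hμ N => ?_⟩
  set p : ℕ → ℝ := fun n => μ.real (Ex r f δ n) with hp
  have hp0 : ∀ n, 0 ≤ p n := fun n => measureReal_nonneg
  have hchoose : ∀ j, ∃ k, M j ≤ k ∧ k < M (j + 1) ∧ ∀ k', M j ≤ k' → k' < M (j + 1) → p k ≤ p k' := by
    intro j
    obtain ⟨k, hk, hk'⟩ := Finset.exists_min_image (Finset.Ico (M j) (M (j + 1))) p
      ⟨M j, Finset.mem_Ico.2 ⟨le_rfl, hMm (Nat.lt_succ_self j)⟩⟩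
    rw [Finset.mem_Ico] at hk
    exact ⟨k, hk.1, hk.2, fun k' h1 h2 => hk' k' (Finset.mem_Ico.2 ⟨h1, h2⟩)⟩
  choose nn hn1 hn2 hn3 using hchoose
  have hexJ : ∃ J, N < M (J + 1) := by
    refine ⟨N, lt_of_lt_of_le (Nat.lt_succ_self N) (hMm.le_apply (x := N + 1))⟩
  classical
  set J := Nat.find hexJ with hJdef
  have hJ1 : N < M (J + 1) := Nat.find_spec hexJ
  have hJ2 : 0 < J → M J ≤ N := by
    intro h0
    obtain ⟨J', hJ'⟩ := Nat.exists_eq_succ_of_ne_zero h0.ne'
    have h1 : ¬ N < M (J' + 1) := Nat.find_min hexJ (by rw [← hJdef, hJ']; exact Nat.lt_succ_self J')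
    rw [hJ']
    exact not_lt.1 h1
  set n' : ℕ → ℕ := fun j => if j < J then nn j else M (j + 1) with hn'
  have hn'1 : ∀ j, M j ≤ n' j := by
    intro j
    simp only [hn']
    split_ifs
    · exact hn1 j
    · exact (hMm (Nat.lt_succ_self j)).le
  have hn'2 : ∀ j, n' j ≤ M (j + 1) := by
    intro j
    simp only [hn']
    split_ifs
    · exact (hn2 j).le
    · exact le_rfl
  have hn's : StrictMono n' := by
    refine strictMono_nat_of_lt_succ fun j => ?_
    by_cases h1 : j < J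
    · have h2 : n' j = nn j := by simp only [hn', if_pos h1]
      rw [h2]
      exact (hn2 j).trans_le (hn'1 (j + 1))
    · have h2 : n' j = M (j + 1) := by simp only [hn', if_neg h1]
      have h3 : n' (j + 1) = M (j + 2) := by simp only [hn', if_neg (show ¬ j + 1 < J by omega)]
      rw [h2, h3]
      exact hMm (Nat.lt_succ_self _)
  have hn'3 : ∀ j, 3 ≤ n' j := fun j => ((hm (M j) (hMge j)).2.2.1).trans (hn'1 j)
  set θ : ℕ → ℝ := fun j => 1 / ((n' j : ℝ) + 1) ^ 2 with hθ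
  have hθ0 : ∀ j, 0 < θ j := fun j => by simp only [hθ]; positivity
  have hθ2 : ∀ j, θ j ≤ 1 / 2 := by
    intro j
    have h1 : (3 : ℝ) ≤ n' j := by exact_mod_cast hn'3 j
    simp only [hθ]
    rw [div_le_div_iff₀ (by positivity) (by norm_num)]
    nlinarith
  have hmain := TM_net μ (Ex r f δ) (measurable_Ex r f δ) n' hn's (by have := hn'3 0; omega) θ hθ0
    (fun j => (hθ2 j).trans_lt (by norm_num)) J N (by
      have h1 : n' J = M (J + 1) := by simp only [hn', if_neg (lt_irrefl J)]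
      rw [h1]
      exact hJ1.le) (by
      intro j hj x y hx hy hxy
      have h1 : n' j = nn j := by simp only [hn', if_pos hj]
      have h2 := hn's (Nat.lt_succ_self j)
      have h3 : n' j + (n' (j + 1) + 3 - n' j) = n' (j + 1) + 3 := by
        have : n' j < n' (j + 1) := h2
        omega
      rw [← h3]
      refine hpair (n' j) _ ?_ ?_ x y hx hy hxy
      · exact ((hm (M j) (hMge j)).2.1).trans (hn'1 j)
      · have h4 : n' (j + 1) + 3 - n' j ≤ M (j + 2) + 3 - M j := by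
          have h5 := hn'1 j
          have h6 := hn'2 (j + 1)
          have h7 : n' (j + 1) ≤ M (j + 2) := h6
          omega
        have h8 := hreach j
        have h9 := (hm (n' j) ((hMge j).trans (hn'1 j))).1
        have h10 : Real.log (M j) ≤ Real.log (n' j) := by
          apply Real.log_le_log
          · have := (hm (M j) (hMge j)).2.2.1
            exact_mod_cast (by omega : 0 < M j)
          · exact_mod_cast hn'1 j
        calc ((n' (j + 1) + 3 - n' j : ℕ) : ℝ) ≤ ((M (j + 2) + 3 - M j : ℕ) : ℝ) := by exact_mod_cast h4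
          _ ≤ ε * a * Real.log (M j) := h8
          _ ≤ ε * (a * Real.log (n' j)) := by
              rw [← mul_assoc]
              exact mul_le_mul_of_nonneg_left h10 (by positivity)
          _ ≤ ε * r (n' j) := mul_le_mul_of_nonneg_left h9 hε.le)
  -- the terms
  have hterm : ∀ j ∈ Finset.range J, (-Real.log (1 - θ j) + μ.real (Ex r f δ (n' j)) *
      (-Real.log (θ j) + (((n' (j + 1) - n' j : ℕ) : ℝ) + 4) * Real.log 2)) ≤
      2 * (1 / ((j : ℝ) + 1) ^ 2) + C1 * (((M (j + 1) - M j : ℕ) : ℝ) * p (nn j)) := by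
    intro j hj
    rw [Finset.mem_range] at hj
    have h1 : n' j = nn j := by simp only [hn', if_pos hj]
    have h2 : -Real.log (1 - θ j) ≤ 2 * (1 / ((j : ℝ) + 1) ^ 2) := by
      refine (TF_log (hθ0 j) (hθ2 j)).trans ?_
      apply mul_le_mul_of_nonneg_left _ (by norm_num)
      simp only [hθ]
      apply one_div_le_one_div_of_le (by positivity)
      have h3 : (j : ℝ) ≤ n' j := by exact_mod_cast hn's.le_apply (x := j)
      exact pow_le_pow_left₀ (by positivity) (by linarith) 2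
    have h4 : -Real.log (θ j) + (((n' (j + 1) - n' j : ℕ) : ℝ) + 4) * Real.log 2 ≤
        C1 * ((M (j + 1) - M j : ℕ) : ℝ) := by
      have h5 : M (j + 1) - M j = Lw e (M j) := by rw [hMs]; omega
      rw [h5]
      have h6 : -Real.log (θ j) = 2 * Real.log ((n' j : ℝ) + 1) := by
        simp only [hθ]
        rw [one_div, Real.log_inv, Real.log_pow]
        push_cast
        ring
      have h7 : Real.log ((n' j : ℝ) + 1) ≤ Real.log (M j) + 1 := by
        have h8 : n' j + 1 ≤ M (j + 1) := by rw [h1]; exact hn2 j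
        have h9 : ((n' j : ℝ) + 1) ≤ M (j + 1) := by exact_mod_cast h8
        exact (Real.log_le_log (by positivity) h9).trans (hMlog j)
      have h10 : (((n' (j + 1) - n' j : ℕ) : ℝ)) ≤ Lw e (M j) + Lw e (M (j + 1)) := by
        have h11 : n' (j + 1) - n' j ≤ Lw e (M j) + Lw e (M (j + 1)) := by
          have h12 := hn'1 j
          have h13 : n' (j + 1) ≤ M (j + 2) := hn'2 (j + 1)
          have h14 : M (j + 2) = M (j + 1) + Lw e (M (j + 1)) := hMs (j + 1)
          have h15 : M (j + 1) = M j + Lw e (M j) := hMs j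
          omega
        exact_mod_cast h11
      obtain ⟨h16, h17, -⟩ := hL j
      have h18 := (hL (j + 1)).1
      have h19 : e * Real.log (M (j + 1)) ≤ e * (Real.log (M j) + 1) :=
        mul_le_mul_of_nonneg_left (hMlog j) he0.le
      have h20 : (1 : ℝ) ≤ Lw e (M j) := by exact_mod_cast (le_max_left _ _ : 1 ≤ Lw e (M j))
      have h21 : 0 ≤ Real.log (M j) := Real.log_natCast_nonneg _
      have h22 : e * Real.log (M j) ≤ Real.log (M j) := mul_le_of_le_one_left h21 he1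
      rw [h6]
      have h23 : (((n' (j + 1) - n' j : ℕ) : ℝ) + 4) * Real.log 2 ≤ Lw e (M j) + Real.log (M j) + 6 := by
        have h24 : (((n' (j + 1) - n' j : ℕ) : ℝ) + 4) ≤ Lw e (M j) + Real.log (M j) + 6 := by linarith
        have h25 : 0 ≤ (((n' (j + 1) - n' j : ℕ) : ℝ) + 4) := by positivity
        calc (((n' (j + 1) - n' j : ℕ) : ℝ) + 4) * Real.log 2
            ≤ (((n' (j + 1) - n' j : ℕ) : ℝ) + 4) * 1 := mul_le_mul_of_nonneg_left hlog2 h25
          _ ≤ _ := by linarith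
      have h26 : 3 * Real.log (M j) ≤ 6 / e * Lw e (M j) := by
        have : 3 * (2 / e * (Lw e (M j) : ℝ)) = 6 / e * Lw e (M j) := by ring
        linarith
      rw [hC1]
      nlinarith
    have h27 : μ.real (Ex r f δ (n' j)) = p (nn j) := by rw [h1]
    rw [h27]
    have h28 := mul_le_mul_of_nonneg_left h4 (hp0 (nn j))
    linarith
  have hsum := Finset.sum_le_sum hterm
  have hsplit : ∑ j ∈ Finset.range J, (2 * (1 / ((j : ℝ) + 1) ^ 2) +
      C1 * (((M (j + 1) - M j : ℕ) : ℝ) * p (nn j))) = 2 * ∑ j ∈ Finset.range J, 1 / ((j : ℝ) + 1) ^ 2 +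
      C1 * ∑ j ∈ Finset.range J, ((M (j + 1) - M j : ℕ) : ℝ) * p (nn j) := by
    rw [Finset.sum_add_distrib, ← Finset.mul_sum, ← Finset.mul_sum]
  rw [hsplit] at hsum
  have hs1 : ∑ j ∈ Finset.range J, 1 / ((j : ℝ) + 1) ^ 2 ≤ S :=
    hSs.sum_le_tsum _ fun j _ => by positivity
  have hs2 : ∑ j ∈ Finset.range J, ((M (j + 1) - M j : ℕ) : ℝ) * p (nn j) ≤ ∑ k ∈ Finset.range N, p k := by
    by_cases h0 : 0 < J
    · exact TF_sum hp0 M nn hMm (fun j k h1 h2 => hn3 j k h1 h2) J N (hJ2 h0)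
    · have : J = 0 := by omega
      rw [this]
      simp only [Finset.range_zero, Finset.sum_empty]
      exact Finset.sum_nonneg fun k _ => hp0 k
  have hn0 : (n' 0 : ℝ) ≤ M 1 := by exact_mod_cast hn'2 0
  have hP0 : 0 ≤ ∑ k ∈ Finset.range N, p k := Finset.sum_nonneg fun k _ => hp0 k
  have h30 : ((n' 0 : ℝ) + 3) * Real.log 2 ≤ ((M 1 : ℝ) + 3) * Real.log 2 :=
    mul_le_mul_of_nonneg_right (by linarith) hlog20.le
  have h31 : C1 * ∑ j ∈ Finset.range J, ((M (j + 1) - M j : ℕ) : ℝ) * p (nn j) ≤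
      C1 * ∑ k ∈ Finset.range N, p k := mul_le_mul_of_nonneg_left hs2 hC10
  have h32 : 0 ≤ K0 * ∑ k ∈ Finset.range N, p k := mul_nonneg hK00 hP0
  calc Hd μ N ≤ _ := hmain
    _ ≤ K0 + C1 * ∑ k ∈ Finset.range N, p k := by rw [hK0]; linarith
    _ ≤ (K0 + C1) * (1 + ∑ k ∈ Finset.range N, p k) := by nlinarith

end Pool.Agent.Half
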