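import Pool.Agent.Half.EntH
import Pool.Agent.Half.TFin

/-! Fano's inequality with three kinds of symbols (helper56). -/

open MeasureTheory Filter Topology
open scoped ENNReal

namespace Pool.Agent.Half

/-- weights of the symbols -/
noncomputable def w3 (θ : ℝ) (k m : ℕ) : Option (Fin k ⊕ Fin m) → ℝ
  | none => 1 - 2 * θ
  | some (Sum.inl _) => θ / k
  | some (Sum.inr _) => θ / m

theorem w3_pos {θ : ℝ} (h0 : 0 < θ) (h1 : θ ≤ 1 / 4) {k m : ℕ} (hk : 0 < k) (hm : 0 < m)
    (a : Option (Fin k ⊕ Fin m)) : 0 < w3 θ k m a := by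
  have hk' : (0 : ℝ) < k := by exact_mod_cast hk
  have hm' : (0 : ℝ) < m := by exact_mod_cast hm
  rcases a with _ | a | a
  · simp only [w3]; linarith
  · simp only [w3]; positivity
  · simp only [w3]; positivity

theorem w3_sum (θ : ℝ) {k m : ℕ} (hk : 0 < k) (hm : 0 < m) : ∑ a : Option (Fin k ⊕ Fin m), w3 θ k m a = 1 := by
  have hk' : (k : ℝ) ≠ 0 := by exact_mod_cast hk.ne'
  have hm' : (m : ℝ) ≠ 0 := by exact_mod_cast hm.ne'
  rw [Fintype.sum_option, Fintype.sum_sum_type]
  simp only [w3]
  rw [Finset.sum_const, Finset.card_univ, Fintype.card_fin, nsmul_eq_mul, Finset.sum_const, Finset.card_univ,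
    Fintype.card_fin, nsmul_eq_mul]
  field_simp
  ring

theorem fano_theta {b : ℕ} (hb : 2 ≤ b) (μ : Measure T) [IsProbabilityMeasure μ]
    (h : MeasurePreserving (fun x : T => b • x) μ μ) (n u s k : ℕ) (hk : 1 ≤ k)
    (E D : Set T) (hE : MeasurableSet E) (hD : MeasurableSet D)
    (hEs : ∀ x y, x ∉ E → y ∉ E → LogSc.cell b n ((b ^ (u + s)) • x) = LogSc.cell b n ((b ^ (u + s)) • y) →
      LogSc.cell b (n + s) ((b ^ u) • x) = LogSc.cell b (n + s) ((b ^ u) • y))
    (hDs : ∀ x : Fin k → T, (∀ i, x i ∉ D) →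
      (∀ i j, LogSc.cell b n ((b ^ (u + s)) • x i) = LogSc.cell b n ((b ^ (u + s)) • x j)) →
      ∃ i j, i ≠ j ∧ LogSc.cell b (n + s) ((b ^ u) • x i) = LogSc.cell b (n + s) ((b ^ u) • x j))
    {θ : ℝ} (h0 : 0 < θ) (h1 : θ ≤ 1 / 4) :
    Hb b μ (n + s) - Hb b μ n ≤ -Real.log (1 - 2 * θ) + μ.real E * (-Real.log θ + Real.log k) +
      μ.real D * (s * Real.log b) := by
  classical
  have hb0 : 0 < b := by omega
  set W : T → Fin (b ^ (n + s)) := fun x => cellF b hb0 (n + s) ((b ^ u) • x) with hW
  set B : T → Fin (b ^ n) := fun x => cellF b hb0 n ((b ^ (u + s)) • x) with hB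
  set A : T → Fin (b ^ s) := fun x => cellF b hb0 s ((b ^ u) • x) with hA
  have hsm : ∀ x : T, (b ^ s) • ((b ^ u) • x) = (b ^ (u + s)) • x := by
    intro x
    rw [← mul_smul, ← pow_add, add_comm s u]
  have hWeq : ∀ x y : T, W x = W y ↔ LogSc.cell b (n + s) ((b ^ u) • x) = LogSc.cell b (n + s) ((b ^ u) • y) :=
    fun x y => cellF_eq hb0 _ _ _
  have hBeq : ∀ x y : T, B x = B y ↔
      LogSc.cell b n ((b ^ (u + s)) • x) = LogSc.cell b n ((b ^ (u + s)) • y) :=
    fun x y => cellF_eq hb0 _ _ _
  have hAeq : ∀ x y : T, A x = A y ↔ LogSc.cell b s ((b ^ u) • x) = LogSc.cell b s ((b ^ u) • y) :=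
    fun x y => cellF_eq hb0 _ _ _
  have hpos : 0 < b ^ n := by positivity
  set g : Fin (b ^ (n + s)) → Fin (b ^ n) := fun a => ⟨a % b ^ n, Nat.mod_lt _ hpos⟩ with hg
  have hBg : ∀ x, B x = g (W x) := by
    intro x
    apply Fin.ext
    change LogSc.cell b n ((b ^ (u + s)) • x) = LogSc.cell b (n + s) ((b ^ u) • x) % b ^ n
    rw [← LogSc.cell_smul hb0 n s, hsm]
  set S : Fin (b ^ n) → Finset (Fin (b ^ (n + s))) := fun β =>
    Finset.univ.filter fun a => ∃ x, x ∉ D ∧ B x = β ∧ W x = a with hS
  have hScard : ∀ β, (S β).card ≤ k := by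
    intro β
    by_contra hcon
    rw [not_le] at hcon
    obtain ⟨S', hS', hS'c⟩ := Finset.exists_subset_card_eq hcon.le
    have e : Fin k ≃ S' := (Fintype.equivFinOfCardEq (by rw [Fintype.card_coe, hS'c])).symm
    have hex : ∀ i : Fin k, ∃ x, x ∉ D ∧ B x = β ∧ W x = (e i : Fin (b ^ (n + s))) := by
      intro i
      have := hS' (e i).2
      rw [hS, Finset.mem_filter] at this
      exact this.2
    choose x hx1 hx2 hx3 using hex
    obtain ⟨i, j, hij, hw⟩ := hDs x hx1 (fun i j => by rw [← hBeq, hx2, hx2])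
    rw [← hWeq, hx3, hx3] at hw
    exact hij (e.injective (Subtype.ext hw))
  have hf : ∀ β, ∃ f : Fin (b ^ (n + s)) → Fin k, ∀ a ∈ S β, ∀ a' ∈ S β, f a = f a' → a = a' := by
    intro β
    obtain ⟨e⟩ := Function.Embedding.nonempty_of_card_le (α := S β) (β := Fin k)
      (by rw [Fintype.card_coe, Fintype.card_fin]; exact hScard β)
    refine ⟨fun a => if ha : a ∈ S β then e ⟨a, ha⟩ else ⟨0, hk⟩, fun a ha a' ha' haa => ?_⟩
    simp only [dif_pos ha, dif_pos ha'] at haa
    exact congrArg Subtype.val (e.injective haa)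
  choose f hf using hf
  set code : T → Option (Fin k ⊕ Fin (b ^ s)) := fun x =>
    if x ∉ E then none else if x ∉ D then some (Sum.inl (f (B x) (W x))) else some (Sum.inr (A x)) with hcode
  have hdet : ∀ x y, B x = B y → code x = code y → W x = W y := by
    intro x y hBxy hc
    simp only [hcode] at hc
    by_cases hx : x ∉ E
    · by_cases hy : y ∉ E
      · rw [hWeq]
        exact hEs x y hx hy ((hBeq x y).1 hBxy)
      · rw [if_pos hx, if_neg hy] at hc
        split_ifs at hc
    · rw [if_neg hx] at hc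
      by_cases hy : y ∉ E
      · rw [if_pos hy] at hc
        split_ifs at hc
      · rw [if_neg hy] at hc
        by_cases hxD : x ∉ D
        · by_cases hyD : y ∉ D
          · rw [if_pos hxD, if_pos hyD, Option.some_inj, Sum.inl.injEq, hBxy] at hc
            exact hf (B y) (W x) (by rw [hS, Finset.mem_filter]; exact ⟨Finset.mem_univ _, x, hxD, hBxy, rfl⟩)
              (W y) (by rw [hS, Finset.mem_filter]; exact ⟨Finset.mem_univ _, y, hyD, rfl, rfl⟩) hc
          · rw [if_pos hxD, if_neg hyD, Option.some_inj] at hc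
            exact absurd hc (by simp)
        · by_cases hyD : y ∉ D
          · rw [if_neg hxD, if_pos hyD, Option.some_inj] at hc
            exact absurd hc (by simp)
          · rw [if_neg hxD, if_neg hyD, Option.some_inj, Sum.inr.injEq, hAeq] at hc
            rw [hWeq, LogSc.CELL_add hb0 n s ((b ^ u) • x), LogSc.CELL_add hb0 n s ((b ^ u) • y), hc, hsm, hsm,
              (hBeq x y).1 hBxy]
  have hk' : (0 : ℝ) < k := by exact_mod_cast hk
  have hlogk : 0 ≤ Real.log k := Real.log_natCast_nonneg _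
  have hlogb : 0 ≤ Real.log b := Real.log_natCast_nonneg _
  have hlt : 0 ≤ -Real.log θ := by
    rw [neg_nonneg]
    exact Real.log_nonpos h0.le (by linarith)
  have hl2 : 0 ≤ -Real.log (1 - 2 * θ) := by
    rw [neg_nonneg]
    exact Real.log_nonpos (by linarith) (by linarith)
  set Φ : T → ℝ := fun x => -Real.log (1 - 2 * θ) + E.indicator (fun _ => -Real.log θ + Real.log k) x +
    D.indicator (fun _ => (s : ℝ) * Real.log b) x with hΦ
  have i1 : Integrable (E.indicator fun _ : T => -Real.log θ + Real.log k) μ := (integrable_const _).indicator hE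
  have i2 : Integrable (D.indicator fun _ : T => (s : ℝ) * Real.log b) μ := (integrable_const _).indicator hD
  have hΦi : Integrable Φ μ := ((integrable_const _).add i1).add i2
  have hint : ∫ x, Φ x ∂μ = -Real.log (1 - 2 * θ) + μ.real E * (-Real.log θ + Real.log k) +
      μ.real D * (s * Real.log b) := by
    have a1 : ∫ x, Φ x ∂μ = (∫ x, (-Real.log (1 - 2 * θ) + E.indicator (fun _ => -Real.log θ + Real.log k) x) ∂μ) +
        ∫ x, D.indicator (fun _ => (s : ℝ) * Real.log b) x ∂μ := integral_add ((integrable_const _).add i1) i2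
    have a2 : ∫ x, (-Real.log (1 - 2 * θ) + E.indicator (fun _ => -Real.log θ + Real.log k) x) ∂μ =
        (∫ _x, -Real.log (1 - 2 * θ) ∂μ) + ∫ x, E.indicator (fun _ => -Real.log θ + Real.log k) x ∂μ :=
      integral_add (integrable_const _) i1
    rw [a1, a2, integral_const, integral_indicator_const _ hE, integral_indicator_const _ hD]
    simp only [probReal_univ, smul_eq_mul, one_mul]
  have hcost : ∀ x, -Real.log (w3 θ k (b ^ s) (code x)) ≤ Φ x := by
    intro x
    by_cases hx : x ∉ E
    · have e1 : code x = none := if_pos hx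
      rw [e1]
      simp only [w3, hΦ]
      have : 0 ≤ D.indicator (fun _ => (s : ℝ) * Real.log b) x :=
        Set.indicator_nonneg (fun _ _ => by positivity) _
      rw [Set.indicator_of_notMem hx]
      linarith
    · have hx' : x ∈ E := not_not.1 hx
      by_cases hxD : x ∉ D
      · have e1 : code x = some (Sum.inl (f (B x) (W x))) := by
          simp only [hcode]
          rw [if_neg hx, if_pos hxD]
        rw [e1]
        simp only [w3, hΦ]
        rw [Set.indicator_of_mem hx', Set.indicator_of_notMem hxD, Real.log_div h0.ne' hk'.ne']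
        linarith
      · have e1 : code x = some (Sum.inr (A x)) := by
          simp only [hcode]
          rw [if_neg hx, if_neg hxD]
        rw [e1]
        simp only [w3, hΦ]
        rw [Set.indicator_of_mem hx', Set.indicator_of_mem (not_not.1 hxD),
          Real.log_div h0.ne' (by positivity)]
        push_cast
        rw [Real.log_pow]
        linarith
  have hmain := ent_code μ W B code (fun a => cellF_meas' hb0 _ _ a) g hBg hdet (w3 θ k (b ^ s))
    (w3_pos h0 h1 hk (by positivity)) (w3_sum θ hk (by positivity)).le Φ hΦi hcost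
  rw [hint] at hmain
  have f1 : Ent μ W = Hb b μ (n + s) := Hb_comp hb0 μ h (n + s) u
  have f2 : Ent μ B = Hb b μ n := Hb_comp hb0 μ h n (u + s)
  rw [f1, f2] at hmain
  linarith

/-- **Fano's inequality.** -/
theorem fano3 {b : ℕ} (hb : 2 ≤ b) (μ : Measure T) [IsProbabilityMeasure μ]
    (h : MeasurePreserving (fun x : T => b • x) μ μ) (n u s k : ℕ) (hk : 1 ≤ k)
    (E D : Set T) (hE : MeasurableSet E) (hD : MeasurableSet D)
    (hEs : ∀ x y, x ∉ E → y ∉ E → LogSc.cell b n ((b ^ (u + s)) • x) = LogSc.cell b n ((b ^ (u + s)) • y) →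
      LogSc.cell b (n + s) ((b ^ u) • x) = LogSc.cell b (n + s) ((b ^ u) • y))
    (hDs : ∀ x : Fin k → T, (∀ i, x i ∉ D) →
      (∀ i j, LogSc.cell b n ((b ^ (u + s)) • x i) = LogSc.cell b n ((b ^ (u + s)) • x j)) →
      ∃ i j, i ≠ j ∧ LogSc.cell b (n + s) ((b ^ u) • x i) = LogSc.cell b (n + s) ((b ^ u) • x j)) :
    Hb b μ (n + s) - Hb b μ n ≤ s * Real.log b * μ.real D +
      (3 + Real.log k) * (μ.real E + Real.negMulLog (μ.real E)) := by
  have hlogk : 0 ≤ Real.log k := Real.log_natCast_nonneg _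
  have hE0 : 0 ≤ μ.real E := measureReal_nonneg
  have hE1 : μ.real E ≤ 1 := measureReal_le_one
  rcases hE0.eq_or_lt with h0 | h0
  · rw [← h0, Real.negMulLog_zero, add_zero, mul_zero, add_zero]
    refine le_of_forall_pos_le_add fun ε hε => ?_
    have hθ0 : 0 < min (ε / 4) (1 / 4) := lt_min (by positivity) (by norm_num)
    have h2 := fano_theta hb μ h n u s k hk E D hE hD hEs hDs hθ0 (min_le_right _ _)
    rw [← h0, zero_mul, add_zero] at h2
    have h3 := TF_log (θ := 2 * min (ε / 4) (1 / 4)) (by positivity)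
      (by have := min_le_right (ε / 4) (1 / 4 : ℝ); linarith)
    have h4 := min_le_left (ε / 4) (1 / 4 : ℝ)
    linarith
  · have h2 := fano_theta hb μ h n u s k hk E D hE hD hEs hDs (θ := μ.real E / 4) (by positivity) (by linarith)
    have h3 := TF_log (θ := 2 * (μ.real E / 4)) (by positivity) (by linarith)
    have h4 : Real.log (μ.real E / 4) = Real.log (μ.real E) - Real.log 4 := Real.log_div h0.ne' (by norm_num)
    have h5 : Real.log 4 ≤ 2 := by
      have : (4 : ℝ) = 2 ^ 2 := by norm_num
      rw [this, Real.log_pow]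
      have := Real.log_two_lt_d9
      push_cast
      linarith
    rw [h4] at h2
    have h6 : 0 ≤ Real.negMulLog (μ.real E) := Real.negMulLog_nonneg hE0 hE1
    have h7 : Real.negMulLog (μ.real E) = -(μ.real E * Real.log (μ.real E)) := by
      unfold Real.negMulLog
      ring
    have h8 : μ.real E * Real.log 4 ≤ μ.real E * 2 := mul_le_mul_of_nonneg_left h5 hE0
    have h9 : 0 ≤ Real.log k * Real.negMulLog (μ.real E) := mul_nonneg hlogk h6
    nlinarith
end Pool.Agent.Half
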