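import Pool.Agent.Half.BoxS
import Pool.Agent.LLN.Kor

/-! The arithmetic input of theorem H (helper56). -/

open MeasureTheory Filter Topology
open scoped ENNReal

namespace Pool.Agent.Half

theorem order_zsmul {q : ℕ} (hq : q.Prime) {m : ℤ} (hm : m ≠ 0) {t : ℕ} {θ : T}
    (ht : padicValNat q m.natAbs ≤ t) (hθ : addOrderOf θ = q ^ t) :
    addOrderOf (m • θ) = q ^ (t - padicValNat q m.natAbs) := by
  have hm' : m.natAbs ≠ 0 := Int.natAbs_ne_zero.2 hm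
  have h1 : addOrderOf (m • θ) = addOrderOf (m.natAbs • θ) := by
    rcases Int.natAbs_eq m with h | h
    · conv_lhs => rw [h]
      rw [natCast_zsmul]
    · conv_lhs => rw [h]
      rw [neg_smul, addOrderOf_neg, natCast_zsmul]
  rw [h1, addOrderOf_nsmul' θ hm', hθ]
  have h2 : (q ^ t).gcd m.natAbs = q ^ (padicValNat q m.natAbs) := by
    have : Fact q.Prime := ⟨hq⟩
    apply Nat.dvd_antisymm
    · obtain ⟨j, hj, hj2⟩ := (Nat.dvd_prime_pow hq).1 (Nat.gcd_dvd_left (q ^ t) m.natAbs)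
      rw [hj2]
      apply pow_dvd_pow
      have h3 : q ^ j ∣ m.natAbs := by
        rw [← hj2]
        exact Nat.gcd_dvd_right _ _
      exact (padicValNat_dvd_iff_le hm').1 h3
    · exact Nat.dvd_gcd (pow_dvd_pow q ht) pow_padicValNat_dvd
  rw [h2, Nat.pow_div ht hq.pos]

theorem korP {p q : ℕ} (hpq : PQ p q) {κ : ℝ} (h1 : 1 < κ) (h2 : κ < 3 / 2) :
    KorP p q (fun N => ⌊(Nat.log 2 N : ℝ) ^ κ⌋₊) := by
  intro m hm ε hε
  have hq : q.Prime := by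
    rcases hpq with ⟨_, rfl⟩ | ⟨_, rfl⟩
    · exact Nat.prime_three
    · exact Nat.prime_two
  obtain ⟨N0, hN0⟩ := LLN.korp hpq h1 h2 hε
  refine ⟨padicValNat q m.natAbs + 5, N0, fun N hN t ht1 ht2 θ hθ => ?_⟩
  have h3 := hN0 N hN (t - padicValNat q m.natAbs) (by omega) ?_ (m • θ) (order_zsmul hq hm (by omega) hθ)
  · have h4 : ∀ i, (fourier m ((p ^ i) • θ) : ℂ) = fourier 1 (p ^ i • (m • θ)) := by
      intro i
      rw [fourier_apply, fourier_apply, one_zsmul, smul_comm m (p ^ i) θ]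
    simp only [h4]
    exact h3
  · have h5 : (t : ℝ) ≤ (Nat.log 2 N : ℝ) ^ κ := by
      have := Nat.floor_le (show (0 : ℝ) ≤ (Nat.log 2 N : ℝ) ^ κ by positivity)
      refine le_trans ?_ this
      exact_mod_cast ht2
    refine le_trans ?_ h5
    exact_mod_cast Nat.sub_le _ _

theorem K_mono {κ : ℝ} (h1 : 1 < κ) : Monotone (fun N : ℕ => ⌊(Nat.log 2 N : ℝ) ^ κ⌋₊) := by
  intro a b hab
  apply Nat.floor_le_floor
  apply Real.rpow_le_rpow (by positivity) _ (by linarith)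
  exact_mod_cast Nat.log_mono_right hab

theorem log_tend : Tendsto (fun N : ℕ => (Nat.log 2 N : ℝ)) atTop atTop := by
  refine tendsto_natCast_atTop_atTop.comp ?_
  exact tendsto_atTop_atTop.2 fun b => ⟨2 ^ b, fun a ha => by
    have := Nat.log_mono_right (b := 2) ha
    rwa [Nat.log_pow (by norm_num)] at this⟩

/-- comparison of powers of `log` -/
theorem K_large {κ κ' : ℝ} (hκ : κ < κ') (hκ' : 1 < κ') :
    ∀ᶠ N : ℕ in atTop, 32 * (Real.log N) ^ κ ≤ (⌊(Nat.log 2 N : ℝ) ^ κ'⌋₊ : ℝ) := by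
  -- `32 (l + 1) ^ κ0 + 1 ≤ l ^ κ'` for large real `l`
  set κ0 : ℝ := max κ 0 with hκ0
  have h0 : 0 ≤ κ0 := le_max_right _ _
  have h01 : κ0 < κ' := max_lt hκ (by linarith)
  have hlim : Tendsto (fun l : ℝ => l ^ (κ' - κ0)) atTop atTop := tendsto_rpow_atTop (by linarith)
  have hev : ∀ᶠ l : ℝ in atTop, 32 * (l + 1) ^ κ0 + 1 ≤ l ^ κ' := by
    filter_upwards [hlim.eventually_ge_atTop (32 * 2 ^ κ0 + 1), eventually_ge_atTop 1] with l h1 h2
    have h3 : (l + 1) ^ κ0 ≤ (2 * l) ^ κ0 := Real.rpow_le_rpow (by linarith) (by linarith) h0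
    rw [Real.mul_rpow (by norm_num) (by linarith)] at h3
    have h4 : (1 : ℝ) ≤ l ^ κ0 := Real.one_le_rpow h2 h0
    have h5 : l ^ κ' = l ^ (κ' - κ0) * l ^ κ0 := by
      rw [← Real.rpow_add (by linarith)]
      congr 1
      ring
    rw [h5]
    nlinarith
  filter_upwards [log_tend.eventually hev, eventually_ge_atTop 3] with N h1 h2
  have hN : (0 : ℝ) < N := by exact_mod_cast (by omega : 0 < N)
  have h3 : Real.log N ≤ (Nat.log 2 N : ℝ) + 1 := by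
    have h4 : N < 2 ^ (Nat.log 2 N + 1) := Nat.lt_pow_succ_log_self (by norm_num) N
    have h5 : (N : ℝ) ≤ 2 ^ (Nat.log 2 N + 1) := by exact_mod_cast h4.le
    have h6 := Real.log_le_log hN h5
    rw [Real.log_pow] at h6
    have h7 : Real.log 2 ≤ 1 := by
      have := Real.log_two_lt_d9
      linarith
    have h8 : ((Nat.log 2 N + 1 : ℕ) : ℝ) * Real.log 2 ≤ ((Nat.log 2 N + 1 : ℕ) : ℝ) * 1 :=
      mul_le_mul_of_nonneg_left h7 (by positivity)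
    push_cast at h6 h8
    linarith
  have h9 : 1 ≤ Real.log N := by
    have h10 := Real.log_le_log (by norm_num) (show (3 : ℝ) ≤ N by exact_mod_cast h2)
    have h11 : (1 : ℝ) ≤ Real.log 3 := by
      rw [Real.le_log_iff_exp_le (by norm_num)]
      have := Real.exp_one_lt_d9
      linarith
    linarith
  have h12 : (Real.log N) ^ κ ≤ ((Nat.log 2 N : ℝ) + 1) ^ κ0 :=
    (Real.rpow_le_rpow_of_exponent_le h9 (le_max_left _ _)).trans
      (Real.rpow_le_rpow (by linarith) h3 h0)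
  have h13 := (Nat.lt_floor_add_one ((Nat.log 2 N : ℝ) ^ κ')).le
  linarith

theorem K_double {κ : ℝ} (h1 : 1 < κ) (h2 : κ < 3 / 2) : ∀ᶠ N : ℕ in atTop,
    ⌊(Nat.log 2 (2 * N) : ℝ) ^ κ⌋₊ ≤ 2 * ⌊(Nat.log 2 N : ℝ) ^ κ⌋₊ := by
  have hev : ∀ᶠ l : ℝ in atTop, (l + 1) ^ κ + 2 ≤ 2 * l ^ κ := by
    have hlim : Tendsto (fun l : ℝ => l ^ κ) atTop atTop := tendsto_rpow_atTop (by linarith)
    filter_upwards [hlim.eventually_ge_atTop 10, eventually_ge_atTop 8] with l h3 h4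
    -- `(l + 1) ^ κ ≤ (9/8) ^ κ l ^ κ ≤ (9/8)^2 l ^ κ`
    have h5 : (l + 1) ^ κ ≤ (9 / 8 * l) ^ κ := Real.rpow_le_rpow (by linarith) (by linarith) (by linarith)
    rw [Real.mul_rpow (by norm_num) (by linarith)] at h5
    have h6 : (9 / 8 : ℝ) ^ κ ≤ (9 / 8 : ℝ) ^ (2 : ℝ) :=
      Real.rpow_le_rpow_of_exponent_le (by norm_num) (by linarith)
    have h7 : (9 / 8 : ℝ) ^ (2 : ℝ) = 81 / 64 := by
      rw [show (2 : ℝ) = ((2 : ℕ) : ℝ) by norm_num, Real.rpow_natCast]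
      norm_num
    nlinarith
  filter_upwards [log_tend.eventually hev, eventually_ge_atTop 1] with N h3 h4
  have h5 : Nat.log 2 (2 * N) = Nat.log 2 N + 1 := by
    rw [mul_comm, Nat.log_mul_base (by norm_num) (by omega)]
  rw [h5]
  have h6 : (⌊((Nat.log 2 N + 1 : ℕ) : ℝ) ^ κ⌋₊ : ℝ) ≤ ((Nat.log 2 N : ℝ) + 1) ^ κ := by
    have := Nat.floor_le (show (0 : ℝ) ≤ ((Nat.log 2 N + 1 : ℕ) : ℝ) ^ κ by positivity)
    push_cast at this ⊢
    exact this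
  have h7 := (Nat.lt_floor_add_one ((Nat.log 2 N : ℝ) ^ κ)).le
  have h8 : (⌊((Nat.log 2 N + 1 : ℕ) : ℝ) ^ κ⌋₊ : ℝ) ≤ 2 * (⌊(Nat.log 2 N : ℝ) ^ κ⌋₊ : ℝ) := by
    linarith
  exact_mod_cast h8

theorem K_le {κ : ℝ} (h1 : 1 < κ) (h2 : κ < 3 / 2) : ∀ᶠ N : ℕ in atTop,
    ⌊(Nat.log 2 N : ℝ) ^ κ⌋₊ ≤ N := by
  have h3 : ∀ᶠ l : ℕ in atTop, (l : ℝ) ^ (2 : ℕ) ≤ 2 ^ l := by
    filter_upwards [eventually_ge_atTop 4] with l hl
    have : l ^ 2 ≤ 2 ^ l := by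
      induction l, hl using Nat.le_induction with
      | base => norm_num
      | succ n hn ih =>
        rw [pow_succ 2 n]
        nlinarith
    exact_mod_cast this
  have h4 : Tendsto (fun N : ℕ => Nat.log 2 N) atTop atTop :=
    tendsto_atTop_atTop.2 fun b => ⟨2 ^ b, fun a ha => by
      have := Nat.log_mono_right (b := 2) ha
      rwa [Nat.log_pow (by norm_num)] at this⟩
  filter_upwards [h4.eventually h3, h4.eventually_ge_atTop 1, eventually_ge_atTop 1] with N h5 h6 h7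
  have h8 : (1 : ℝ) ≤ (Nat.log 2 N : ℝ) := by exact_mod_cast h6
  have h9 : (Nat.log 2 N : ℝ) ^ κ ≤ (Nat.log 2 N : ℝ) ^ (2 : ℝ) :=
    Real.rpow_le_rpow_of_exponent_le h8 (by linarith)
  rw [show (2 : ℝ) = ((2 : ℕ) : ℝ) by norm_num, Real.rpow_natCast] at h9
  have h10 : (2 : ℝ) ^ Nat.log 2 N ≤ N := by
    exact_mod_cast Nat.pow_log_le_self 2 (by omega)
  have h11 := Nat.floor_le (show (0 : ℝ) ≤ (Nat.log 2 N : ℝ) ^ κ by positivity)
  have h12 : (⌊(Nat.log 2 N : ℝ) ^ κ⌋₊ : ℝ) ≤ N := by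
    push_cast at h9
    linarith
  exact_mod_cast h12

/-- THEOREM H -/
theorem boxes_final {p q : ℕ} (hpq : PQ p q) {κ : ℝ} (hκ : κ < 3 / 2)
    (μ : Measure T) [IsProbabilityMeasure μ] (hna : ∀ x, μ {x} = 0)
    (hmp : MeasurePreserving (fun x : T => q • x) μ μ) (F : Finset C(T, ℝ))
    (hF : ∀ f ∈ F, ∀ z, 0 ≤ f z) (δ : ℝ) (hδ : 0 < δ) :
    ∃ R0 : ℕ, ∀ N R : ℕ → ℕ, StrictMono N → (∀ᶠ j in atTop, R0 ≤ R j) →
      (∀ᶠ j in atTop, (R j : ℝ) ≤ (Real.log (N j)) ^ κ) →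
      (∀ᶠ j in atTop, (N (j + 1) : ℝ) - N j ≤ (Real.log (N j)) ^ κ) →
      ¬ Summable fun j : ℕ => μ.real (Lbx p F δ (N j) (R j)) := by
  obtain ⟨κ', hκ1, hκ2⟩ : ∃ κ' : ℝ, max κ 1 < κ' ∧ κ' < 3 / 2 :=
    exists_between (max_lt hκ (by norm_num))
  have h1 : κ < κ' := (le_max_left _ _).trans_lt hκ1
  have h2 : 1 < κ' := (le_max_right _ _).trans_lt hκ1
  obtain ⟨R0, hR0⟩ := boxes_seq hpq (korP hpq h2 hκ2) (K_mono h2) (K_double h2 hκ2) (K_le h2 hκ2)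
    μ hna hmp F hF δ hδ
  refine ⟨R0, fun N R hN hR hRK hgap => hR0 N R hN hR ?_ ?_⟩
  · filter_upwards [hRK, hN.tendsto_atTop.eventually (K_large h1 h2)] with j h3 h4
    have h5 : (32 : ℝ) * (R j : ℝ) ≤ (⌊(Nat.log 2 (N j) : ℝ) ^ κ'⌋₊ : ℝ) := by linarith
    exact_mod_cast h5
  · filter_upwards [hgap, hN.tendsto_atTop.eventually (K_large h1 h2)] with j h3 h4
    have h5 : (32 : ℝ) * ((N (j + 1) - N j : ℕ) : ℝ) ≤ (⌊(Nat.log 2 (N j) : ℝ) ^ κ'⌋₊ : ℝ) := by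
      rw [Nat.cast_sub (hN (Nat.lt_succ_self j)).le]
      linarith
    exact_mod_cast h5

end Pool.Agent.Half
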