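import Pool.Agent.Half.BoxK
import Pool.Agent.Half.KorD
import Pool.Agent.Half.EntF

/-! The entropy at finite scale and the averages over boxes, for a measure invariant under `x ↦ q x` (helper56). -/

open MeasureTheory Filter Topology
open scoped ENNReal

namespace Pool.Agent.Half

theorem box_entropy {p q : ℕ} (hpq : PQ p q) {κ : ℝ} (h1 : 1 < κ) (h2 : κ < 3 / 2) (F : Finset C(T, ℝ))
    (hF : ∀ f ∈ F, ∀ z, 0 ≤ f z) (δ : ℝ) (hδ : 0 < δ) :
    ∃ R0 : ℕ, ∀ N R : ℕ, R0 ≤ R → (R : ℝ) ≤ (Real.log N) ^ κ → ∀ (μ : Measure T) [IsProbabilityMeasure μ],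
      MeasurePreserving (fun x : T => q • x) μ μ →
      Hb q μ (8 * N + 1) - Hb q μ (8 * N) ≤ Real.log q * μ.real (Dbx p F δ N R) +
        (μ.real (Lbx p F δ N R) + Real.negMulLog (μ.real (Lbx p F δ N R))) / (Real.log N) ^ κ := by
  obtain ⟨κ', hκ1, hκ2⟩ : ∃ κ' : ℝ, κ < κ' ∧ κ' < 3 / 2 := exists_between h2
  obtain ⟨κ'', hκ3, hκ4⟩ : ∃ κ'' : ℝ, κ < κ'' ∧ κ'' < κ' := exists_between hκ1
  have hκ'1 : 1 < κ' := by linarith
  set K : ℕ → ℕ := fun N => ⌊(Nat.log 2 N : ℝ) ^ κ'⌋₊ with hKdef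
  have hK : KorP p q K := korP hpq hκ'1 hκ2
  obtain ⟨k, hk1, M1, hM1⟩ := boxD hpq hK F δ hδ
  obtain ⟨M2, hM2⟩ := boxE hpq hK F hF δ hδ
  have hlogk : 0 ≤ Real.log k := Real.log_natCast_nonneg _
  have hlogT : Tendsto (fun n : ℕ => Real.log (n : ℝ)) atTop atTop :=
    Real.tendsto_log_atTop.comp tendsto_natCast_atTop_atTop
  have hpow : Tendsto (fun n : ℕ => (Real.log (n : ℝ)) ^ (κ'' - κ)) atTop atTop :=
    (tendsto_rpow_atTop (by linarith)).comp hlogT
  obtain ⟨N1, hN1⟩ := eventually_atTop.1 ((K_large hκ4 hκ'1).and ((hpow.eventually_ge_atTop (3 + Real.log k)).and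
    ((K_le hκ'1 hκ2).and (eventually_ge_atTop (max (max M1 M2) 3)))))
  have hq : q.Prime := hpq.prime
  refine ⟨max (max M1 M2) (⌈(Real.log N1) ^ κ⌉₊ + 1), fun N R hR hRN μ hμ hmp => ?_⟩
  have hNN : N1 ≤ N := by
    by_contra hcon
    rw [not_le] at hcon
    have h3 : Real.log N ≤ Real.log N1 := by
      rcases Nat.eq_zero_or_pos N with h0 | h0
      · rw [h0]
        simp only [Nat.cast_zero, Real.log_zero]
        exact Real.log_natCast_nonneg _
      · exact Real.log_le_log (by exact_mod_cast h0) (by exact_mod_cast hcon.le)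
    have h4 : (Real.log N) ^ κ ≤ (Real.log N1) ^ κ :=
      Real.rpow_le_rpow (Real.log_natCast_nonneg _) h3 (by linarith)
    have h5 := Nat.le_ceil ((Real.log N1) ^ κ)
    have h6 : ⌈(Real.log N1) ^ κ⌉₊ + 1 ≤ R := (le_max_right _ _).trans hR
    have h7 : ((⌈(Real.log N1) ^ κ⌉₊ : ℕ) : ℝ) + 1 ≤ R := by exact_mod_cast h6
    linarith
  obtain ⟨a1, a2, a3, a4⟩ := hN1 N hNN
  have hN3 : 3 ≤ N := (le_max_right _ _).trans a4
  have hNM : max M1 M2 ≤ N := (le_max_left _ _).trans a4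
  have hRM : max M1 M2 ≤ R := (le_max_left _ _).trans hR
  have hlog1 : 1 ≤ Real.log N := by
    have h10 := Real.log_le_log (by norm_num) (show (3 : ℝ) ≤ N by exact_mod_cast hN3)
    have h11 : (1 : ℝ) ≤ Real.log 3 := by
      rw [Real.le_log_iff_exp_le (by norm_num)]
      have := Real.exp_one_lt_d9
      linarith
    linarith
  set L : ℝ := (Real.log N) ^ κ with hL
  have hL1 : 1 ≤ L := Real.one_le_rpow hlog1 (by linarith)
  have hL2 : (Real.log N) ^ κ'' = (Real.log N) ^ (κ'' - κ) * L := by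
    rw [hL, ← Real.rpow_add (by linarith)]
    congr 1
    ring
  have hL3 : (3 + Real.log k) * L ≤ (Real.log N) ^ κ'' := by
    rw [hL2]
    exact mul_le_mul_of_nonneg_right a2 (by linarith)
  have hKN : 32 * ((3 + Real.log k) * L) ≤ (K N : ℝ) := by
    have : 32 * (Real.log N) ^ κ'' ≤ (K N : ℝ) := a1
    linarith
  have hLk : 0 ≤ Real.log k * L := by positivity
  have h2R : 2 * R ≤ K N := by
    have : (2 : ℝ) * R ≤ K N := by nlinarith
    exact_mod_cast this
  have a3' : K N ≤ N := a3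
  have h2RN : 2 * R ≤ N := h2R.trans a3'
  set s : ℕ := K N - 2 * R with hs
  have hsR : (s : ℝ) = (K N : ℝ) - 2 * R := by
    rw [hs, Nat.cast_sub h2R]
    push_cast
    ring
  have hsL : (3 + Real.log k) * L ≤ (s : ℝ) := by
    rw [hsR]
    nlinarith
  have hs0 : (0 : ℝ) < s := lt_of_lt_of_le (by positivity) hsL
  have hus : 2 * R + s = K N := by omega
  have hhalf : ∀ m, (1 / 2 : ℝ) ^ (4 * N + m) ≤ (1 / 2 : ℝ) ^ (4 * N) := fun m =>
    pow_le_pow_of_le_one (by norm_num) (by norm_num) (by omega)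
  have hfano := fano3 hq.two_le μ hmp (4 * N) (2 * R) s k hk1 (Lbx p F δ N R) (Dbx p F δ N R)
    (measurable_Lbx p F δ N R) (measurable_Dbx p F δ N R) (by
      intro x y hx hy hxy
      by_contra hne
      obtain ⟨t, θ, ht1, ht2, hθ, hlt⟩ := cell_apart hq (4 * N) (2 * R) s x y hxy hne
      exact hM2 N R ((le_max_right _ _).trans hNM) ((le_max_right _ _).trans hRM) h2RN x y hx hy
        ⟨t, θ, ht1.le, ht2.trans hus.le, hθ, hlt.trans_le (hhalf _)⟩) (by
      intro x hx hxx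
      by_contra hcon
      push Not at hcon
      refine hM1 N R ((le_max_left _ _).trans hNM) ((le_max_left _ _).trans hRM) h2RN x hx fun i j hij => ?_
      obtain ⟨t, θ, ht1, ht2, hθ, hlt⟩ := cell_apart hq (4 * N) (2 * R) s (x i) (x j) (hxx i j) (hcon i j hij)
      exact ⟨t, θ, ht1.le, ht2.trans hus.le, hθ, hlt.trans_le (hhalf _)⟩)
  have hwin := Hb_window hq.pos μ hmp (4 * N) s (8 * N) (by omega)
  set D := μ.real (Dbx p F δ N R)
  set E := μ.real (Lbx p F δ N R) with hE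
  have hE0 : 0 ≤ E := measureReal_nonneg
  have hE1 : E ≤ 1 := measureReal_le_one
  have hφ : 0 ≤ E + Real.negMulLog E := add_nonneg hE0 (Real.negMulLog_nonneg hE0 hE1)
  have h3 : (s : ℝ) * (Hb q μ (8 * N + 1) - Hb q μ (8 * N)) ≤
      s * (Real.log q * D + (E + Real.negMulLog E) / L) := by
    have h4 : (3 + Real.log k) * (E + Real.negMulLog E) ≤ s * ((E + Real.negMulLog E) / L) := by
      have h5 : (3 + Real.log k) ≤ s / L := by
        rw [le_div_iff₀ (by linarith)]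
        exact hsL
      have h6 := mul_le_mul_of_nonneg_right h5 hφ
      calc (3 + Real.log k) * (E + Real.negMulLog E) ≤ s / L * (E + Real.negMulLog E) := h6
        _ = s * ((E + Real.negMulLog E) / L) := by ring
    linarith
  exact le_of_mul_le_mul_left h3 hs0

end Pool.Agent.Half
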