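import Pool.Agent.Half.HDefs

/-! Coverings of subsets of the circle which contain no `k` points with comparable distances. -/

open MeasureTheory Filter Topology

namespace Pool.Agent.Half

/-- `X` is covered by at most `N` closed balls of radius `R`. -/
def Cov (X : Set T) (N : ℕ) (R : ℝ) : Prop :=
  ∃ s : Finset T, s.card ≤ N ∧ X ⊆ ⋃ c ∈ s, Metric.closedBall c R

/-- `X` does not contain `k` points with pairwise distances between `2 ^ (-n - C)` and `2 ^ (-n)`. -/
def NoK (X : Set T) (k n C : ℕ) : Prop :=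
  ∀ x : Fin k → T, (∀ i, x i ∈ X) →
    ¬ ∀ i j, i ≠ j → (1 / 2 : ℝ) ^ (n + C) ≤ ‖x j - x i‖ ∧ ‖x j - x i‖ ≤ (1 / 2 : ℝ) ^ n

theorem Cov.mono {X : Set T} {N N' : ℕ} {R R' : ℝ} (h : Cov X N R) (hN : N ≤ N') (hR : R ≤ R') :
    Cov X N' R' := by
  obtain ⟨s, hs, hX⟩ := h
  refine ⟨s, hs.trans hN, hX.trans ?_⟩
  exact Set.iUnion₂_mono fun c _ => Metric.closedBall_subset_closedBall hR

theorem KC_sep {Y : Set T} {k : ℕ} {ρ : ℝ} (hρ : 0 < ρ)
    (hk : ∀ x : Fin k → T, (∀ i, x i ∈ Y) → ¬ ∀ i j, i ≠ j → ρ ≤ ‖x j - x i‖) :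
    ∃ s : Finset T, s.card ≤ k - 1 ∧ Y ⊆ ⋃ c ∈ s, Metric.closedBall c ρ := by
  classical
  let P : ℕ → Prop := fun m => ∃ s : Finset T, s.card = m ∧ (∀ a ∈ s, a ∈ Y) ∧
    ∀ a ∈ s, ∀ b ∈ s, a ≠ b → ρ ≤ ‖b - a‖
  have hP0 : P 0 := ⟨∅, by simp, by simp, by simp⟩
  have hPk : ¬ P k := by
    rintro ⟨s, hs, hsY, hsep⟩
    let e := (s.equivFinOfCardEq hs).symm
    refine hk (fun i => (e i : T)) (fun i => hsY _ (e i).2) fun i j hij => ?_
    refine hsep _ (e i).2 _ (e j).2 fun h => hij ?_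
    exact e.injective (Subtype.ext h)
  have hPm := Nat.findGreatest_spec (P := P) (Nat.zero_le k) hP0
  have hle := Nat.findGreatest_le (P := P) k
  set m := Nat.findGreatest P k with hm
  have hne : m ≠ k := fun h => hPk (h ▸ hPm)
  obtain ⟨s, hs, hsY, hsep⟩ := hPm
  refine ⟨s, by omega, fun y hy => ?_⟩
  by_contra hcon
  simp only [Set.mem_iUnion, Metric.mem_closedBall, not_exists, not_le] at hcon
  have hys : y ∉ s := fun h => by
    have := hcon y h
    rw [dist_self] at this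
    linarith
  have hP1 : P (m + 1) := by
    refine ⟨insert y s, by rw [Finset.card_insert_of_notMem hys, hs], ?_, ?_⟩
    · intro a ha
      rcases Finset.mem_insert.1 ha with rfl | ha
      · exact hy
      · exact hsY a ha
    · intro a ha b hb hab
      rcases Finset.mem_insert.1 ha with ha' | ha'
      · rcases Finset.mem_insert.1 hb with hb' | hb'
        · exact absurd (ha'.trans hb'.symm) hab
        · have := hcon b hb'
          rw [dist_comm, dist_eq_norm] at this
          rw [ha']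
          exact this.le
      · rcases Finset.mem_insert.1 hb with hb' | hb'
        · have := hcon a ha'
          rw [dist_eq_norm] at this
          rw [hb']
          exact this.le
        · exact hsep a ha' b hb' hab
  have := Nat.le_findGreatest (by omega : m + 1 ≤ k) hP1
  omega

theorem KC_step {X : Set T} {k n C N : ℕ} (h : NoK X k n C) (hc : Cov X N ((1 / 2 : ℝ) ^ (n + 1))) :
    Cov X (N * (k - 1)) ((1 / 2 : ℝ) ^ (n + C)) := by
  classical
  obtain ⟨s, hs, hX⟩ := hc
  have h1 : ∀ c : T, ∃ s' : Finset T, s'.card ≤ k - 1 ∧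
      X ∩ Metric.closedBall c ((1 / 2 : ℝ) ^ (n + 1)) ⊆
        ⋃ c' ∈ s', Metric.closedBall c' ((1 / 2 : ℝ) ^ (n + C)) := by
    intro c
    refine KC_sep (by positivity) fun x hx hsep => ?_
    refine h x (fun i => (hx i).1) fun i j hij => ⟨hsep i j hij, ?_⟩
    have h2 := (hx i).2
    have h3 := (hx j).2
    rw [Metric.mem_closedBall] at h2 h3
    rw [← dist_eq_norm]
    have h4 := dist_triangle_right (x j) (x i) c
    have h5 : (1 / 2 : ℝ) ^ n = (1 / 2 : ℝ) ^ (n + 1) + (1 / 2 : ℝ) ^ (n + 1) := by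
      rw [pow_succ]; ring
    linarith
  choose g hg hg' using h1
  refine ⟨s.biUnion g, ?_, fun x hx => ?_⟩
  · calc (s.biUnion g).card ≤ ∑ c ∈ s, (g c).card := Finset.card_biUnion_le
      _ ≤ ∑ _c ∈ s, (k - 1) := Finset.sum_le_sum fun c _ => hg c
      _ = s.card * (k - 1) := by rw [Finset.sum_const, smul_eq_mul]
      _ ≤ N * (k - 1) := Nat.mul_le_mul_right _ hs
  · have h2 := hX hx
    simp only [Set.mem_iUnion] at h2
    obtain ⟨c, hc, hxc⟩ := h2
    have h3 := hg' c ⟨hx, hxc⟩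
    simp only [Set.mem_iUnion] at h3 ⊢
    obtain ⟨c', hc', hxc'⟩ := h3
    exact ⟨c', Finset.mem_biUnion.2 ⟨c, hc, hc'⟩, hxc'⟩

theorem KC_iter {X : Set T} {k n C N : ℕ} (j : ℕ) (h : ∀ i < j, NoK X k (n + i * C) (C + 1))
    (hc : Cov X N ((1 / 2 : ℝ) ^ (n + 1))) :
    Cov X (N * (k - 1) ^ j) ((1 / 2 : ℝ) ^ (n + j * C + 1)) := by
  induction j with
  | zero => simpa using hc
  | succ j ih =>
    have h1 := ih fun i hi => h i (by omega)
    have h2 := KC_step (h j (by omega)) h1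
    have e1 : N * (k - 1) ^ j * (k - 1) = N * (k - 1) ^ (j + 1) := by rw [pow_succ]; ring
    have e2 : n + j * C + (C + 1) = n + (j + 1) * C + 1 := by ring
    rwa [e1, e2] at h2

theorem KC_base (X : Set T) (n : ℕ) : Cov X (2 ^ n) ((1 / 2 : ℝ) ^ n) := by
  classical
  refine ⟨(Finset.range (2 ^ n)).image fun i : ℕ => (((i : ℝ) / 2 ^ n : ℝ) : T), ?_, fun x _ => ?_⟩
  · exact Finset.card_image_le.trans (by rw [Finset.card_range])
  · induction x using QuotientAddGroup.induction_on with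
    | H y =>
      have h2n : (0 : ℝ) < 2 ^ n := by positivity
      have hfr : ((Int.fract y : ℝ) : T) = ((y : ℝ) : T) := by
        rw [Int.fract, AddCircle.coe_sub]
        have : ((⌊y⌋ : ℝ) : T) = 0 := by
          rw [AddCircle.coe_eq_zero_iff]
          exact ⟨⌊y⌋, by simp⟩
        rw [this, sub_zero]
      set i := ⌊Int.fract y * 2 ^ n⌋₊ with hi
      have h0 : 0 ≤ Int.fract y * 2 ^ n := mul_nonneg (Int.fract_nonneg y) h2n.le
      have hi1 : (i : ℝ) ≤ Int.fract y * 2 ^ n := Nat.floor_le h0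
      have hi2 : Int.fract y * 2 ^ n < i + 1 := Nat.lt_floor_add_one _
      have hi3 : i < 2 ^ n := by
        have h1 : (i : ℝ) < 2 ^ n := by
          have := Int.fract_lt_one y
          nlinarith
        exact_mod_cast h1
      simp only [Set.mem_iUnion]
      refine ⟨_, Finset.mem_image_of_mem _ (Finset.mem_range.2 hi3), ?_⟩
      rw [Metric.mem_closedBall]
      change dist ((y : ℝ) : T) _ ≤ _
      rw [← hfr, dist_eq_norm, ← AddCircle.coe_sub]
      refine (QuotientAddGroup.norm_mk_le_norm).trans ?_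
      rw [Real.norm_eq_abs, abs_le]
      have e1 : (1 / 2 : ℝ) ^ n = 1 / 2 ^ n := by rw [div_pow, one_pow]
      rw [e1]
      have e2 : (i : ℝ) / 2 ^ n * 2 ^ n = i := div_mul_cancel₀ _ h2n.ne'
      have e3 : 1 / (2 : ℝ) ^ n * 2 ^ n = 1 := div_mul_cancel₀ _ h2n.ne'
      constructor
      · have : 0 < 1 / (2 : ℝ) ^ n := by positivity
        have h4 : (i : ℝ) / 2 ^ n ≤ Int.fract y := by
          rw [div_le_iff₀ h2n]; exact hi1
        linarith
      · have h4 : Int.fract y ≤ (i : ℝ) / 2 ^ n + 1 / 2 ^ n := by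
          rw [← add_div, le_div_iff₀ h2n]; exact hi2.le
        linarith

end Pool.Agent.Half
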