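import Pool.Agent.Half.KPoint
import Pool.Agent.Half.KCov

/-! At every scale there are few points whose slice is not close to Lebesgue measure. -/

open MeasureTheory Filter Topology
open scoped ENNReal NNReal

namespace Pool.Agent.Half

/-- the points whose slice of scale `n` is not `δ`-close to Lebesgue measure for the functions in `F` -/
def bad (r : ℕ → ℕ) (F : Finset C(T, ℝ)) (δ : ℝ) (n : ℕ) : Set T :=
  {x | ∃ f ∈ F, δ < |avg (sl n (r n)) f x - ∫ z, f z ∂(volume : Measure T)|}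

theorem KB_const (G : Finset (ℕ × ℕ)) (hG : G.Nonempty) (f : T → ℝ) (c σ : ℝ) (x : T) :
    avg G (fun z => c + σ * f z) x = c + σ * avg G f x := by
  have hc : (G.card : ℝ) ≠ 0 := by
    have := hG.card_pos
    positivity
  unfold avg
  rw [Finset.sum_add_distrib, Finset.sum_const, nsmul_eq_mul, ← Finset.mul_sum, add_div,
    mul_div_cancel_left₀ _ hc, mul_div_assoc]

theorem KB_close (G : Finset (ℕ × ℕ)) (f g : T → ℝ) (ε : ℝ) (hε : 0 ≤ ε)
    (h : ∀ z, |f z - g z| ≤ ε) (x : T) : |avg G f x - avg G g x| ≤ ε := by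
  rcases Finset.eq_empty_or_nonempty G with rfl | hG
  · simpa [avg] using hε
  · have hc : (0 : ℝ) < G.card := by exact_mod_cast hG.card_pos
    unfold avg
    rw [← sub_div, abs_div, abs_of_pos hc, div_le_iff₀ hc, ← Finset.sum_sub_distrib]
    refine (Finset.abs_sum_le_sum_abs _ _).trans ?_
    refine (Finset.sum_le_card_nsmul _ _ ε fun p _ => h _).trans ?_
    rw [nsmul_eq_mul, mul_comm]

theorem KB_int (f : C(T, ℝ)) : Integrable (fun z => f z) (volume : Measure T) :=
  f.continuous.integrable_of_hasCompactSupport (HasCompactSupport.of_compactSpace _)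

theorem KB_intc (f : C(T, ℝ)) (c σ : ℝ) :
    ∫ z, (c + σ * f z) ∂(volume : Measure T) = c + σ * ∫ z, f z ∂(volume : Measure T) := by
  rw [integral_add (integrable_const c) ((KB_int f).const_mul σ), integral_const,
    integral_const_mul]
  simp [Measure.real, AddCircle.measure_univ]

theorem KB_int_close (f g : C(T, ℝ)) (ε : ℝ) (h : ∀ z, |f z - g z| ≤ ε) :
    |(∫ z, f z ∂(volume : Measure T)) - ∫ z, g z ∂(volume : Measure T)| ≤ ε := by
  rw [← integral_sub (KB_int f) (KB_int g)]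
  refine (abs_integral_le_integral_abs).trans ?_
  have h3 : ∫ z, |f z - g z| ∂(volume : Measure T) ≤ ∫ _z, ε ∂(volume : Measure T) :=
    integral_mono ((KB_int f).sub (KB_int g)).abs (integrable_const _) h
  refine h3.trans (le_of_eq ?_)
  rw [integral_const]
  simp [Measure.real, AddCircle.measure_univ]

theorem KB_nonempty {r : ℕ → ℕ} {n : ℕ} (h : 1 ≤ r n) : (sl n (r n)).Nonempty := by
  rw [← Finset.card_pos]
  have h3 := sl_card n (r n)
  have h4 := (bb_bounds n).1
  have h5 : 0 < r n * bb n := Nat.mul_pos (by omega) (by omega)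
  omega

theorem bad_noK {r : ℕ → ℕ} (h : Thick r) (F : Finset C(T, ℝ)) (δ : ℝ) (hδ : 0 < δ) :
    ∃ k : ℕ, ∃ ε : ℝ, 0 < ε ∧ ∃ n1 : ℕ, ∀ n C : ℕ, n1 ≤ n → (C : ℝ) ≤ ε * r n →
      NoK (bad r F δ n) k n C := by
  classical
  obtain ⟨B, hB1, hB⟩ : ∃ B : ℝ, 1 ≤ B ∧ ∀ f ∈ F, ‖f‖ ≤ B := by
    refine ⟨1 + ∑ f ∈ F, ‖f‖, ?_, fun f hf => ?_⟩
    · have : 0 ≤ ∑ f ∈ F, ‖f‖ := Finset.sum_nonneg fun _ _ => norm_nonneg _
      linarith
    · have h1 : ‖f‖ ≤ ∑ f ∈ F, ‖f‖ :=
        Finset.single_le_sum (f := fun f : C(T, ℝ) => ‖f‖) (fun _ _ => norm_nonneg _) hf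
      linarith
  have hB0 : 0 < B := by linarith
  let U : Bool → C(T, ℝ) → C(T, ℝ) := fun b g =>
    ⟨fun z => ‖g‖ + (if b then 1 else -1) * g z, by fun_prop⟩
  have hU : ∀ b g z, 0 ≤ U b g z ∧ U b g z ≤ 2 * ‖g‖ := by
    intro b g z
    have h1 := abs_le.1 (g.norm_coe_le_norm z)
    change 0 ≤ ‖g‖ + (if b then 1 else -1) * g z ∧ ‖g‖ + (if b then 1 else -1) * g z ≤ 2 * ‖g‖
    cases b
    · simp only [Bool.false_eq_true, if_false]
      constructor <;> linarith
    · simp only [if_true]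
      constructor <;> linarith
  let P : Finset C(T, ℝ) := (F ×ˢ (Finset.univ : Finset Bool)).image fun p => U p.2 p.1
  have hP : ∀ f ∈ P, ∀ z, 0 ≤ f z := by
    intro f hf z
    obtain ⟨p, -, rfl⟩ := Finset.mem_image.1 hf
    exact (hU _ _ _).1
  obtain ⟨k, hk⟩ := exists_nat_one_div_lt (show 0 < δ / (4 * B) by positivity)
  obtain ⟨ε, hε, n1, hn1⟩ := k_point (Fin (k + 1)) h P hP (δ / 4) (by positivity)
  obtain ⟨n2, hn2⟩ := eventually_atTop.1 (h.tend.eventually_ge_atTop 1)
  refine ⟨k + 1, ε, hε, max n1 n2, fun n C hn hC x hx hsep => ?_⟩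
  obtain ⟨t, -, hts, htf⟩ := hn1 n C ((le_max_left _ _).trans hn) hC x hsep
  have hG := KB_nonempty (hn2 n ((le_max_right _ _).trans hn))
  have hkp : (0 : ℝ) < (k : ℝ) + 1 := by positivity
  obtain ⟨i, hi⟩ : ∃ i, 1 - t i ≤ 1 / ((k : ℝ) + 1) := by
    by_contra hcon
    push Not at hcon
    have h1 : ∑ _i : Fin (k + 1), 1 / ((k : ℝ) + 1) < ∑ i, (1 - t i) :=
      Finset.sum_lt_sum_of_nonempty Finset.univ_nonempty fun i _ => hcon i
    rw [Finset.sum_const, Finset.card_univ, Fintype.card_fin, nsmul_eq_mul] at h1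
    push_cast at h1
    rw [mul_one_div_cancel hkp.ne'] at h1
    linarith
  obtain ⟨f, hf, h1⟩ := hx i
  have hkk : 1 / ((k : ℝ) + 1) * (2 * B) ≤ δ / 2 := by
    have : 1 / ((k : ℝ) + 1) * (2 * B) ≤ δ / (4 * B) * (2 * B) :=
      mul_le_mul_of_nonneg_right hk.le (by positivity)
    refine this.trans (le_of_eq ?_)
    field_simp
    ring
  have hmain : ∀ b : Bool, (if b then 1 else -1) * (∫ z, f z ∂(volume : Measure T)) - 3 * δ / 4 ≤
      (if b then 1 else -1) * avg (sl n (r n)) f (x i) := by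
    intro b
    have h2 := htf i (U b f) (Finset.mem_image.2 ⟨(f, b), Finset.mem_product.2
      ⟨hf, Finset.mem_univ _⟩, rfl⟩)
    have h3 : avg (sl n (r n)) (U b f) (x i) = ‖f‖ + (if b then 1 else -1) * avg (sl n (r n)) f (x i) :=
      KB_const _ hG _ _ _ _
    have h4 : ∫ z, U b f z ∂(volume : Measure T) = ‖f‖ +
        (if b then 1 else -1) * ∫ z, f z ∂(volume : Measure T) := KB_intc _ _ _
    have h5 : ∫ z, U b f z ∂(volume : Measure T) ≤ 2 * B := by
      have h6 : ∫ z, U b f z ∂(volume : Measure T) ≤ ∫ _z, 2 * B ∂(volume : Measure T) := by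
        refine integral_mono (KB_int _) (integrable_const _) fun z => ?_
        exact (hU b f z).2.trans (by linarith [hB f hf])
      refine h6.trans (le_of_eq ?_)
      rw [integral_const]
      simp [Measure.real, AddCircle.measure_univ]
    have h6 : 0 ≤ ∫ z, U b f z ∂(volume : Measure T) := integral_nonneg fun z => (hU b f z).1
    have h7 : (1 - t i) * (∫ z, U b f z ∂(volume : Measure T)) ≤ δ / 2 :=
      (mul_le_mul hi h5 h6 (by positivity)).trans hkk
    rw [h3] at h2
    linarith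
  have ht := hmain true
  have hff := hmain false
  simp only [if_true] at ht
  simp only [Bool.false_eq_true, if_false] at hff
  have h8 : |avg (sl n (r n)) f (x i) - ∫ z, f z ∂(volume : Measure T)| ≤ 3 * δ / 4 :=
    abs_le.2 ⟨by linarith, by linarith⟩
  linarith

end Pool.Agent.Half
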