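import Pool.Agent.Half.BoxS
import Pool.Agent.Half.KBad

/-! `k` points and boxes (helper56). -/

open MeasureTheory Filter Topology
open scoped ENNReal

namespace Pool.Agent.Half

theorem PQ.prime {p q : ℕ} (h : PQ p q) : q.Prime := by
  rcases h with ⟨_, rfl⟩ | ⟨_, rfl⟩
  · exact Nat.prime_three
  · exact Nat.prime_two

/-- the difference of `x` and `y` is close to a point of order `q ^ t`, `2 R ≤ t ≤ K N` -/
def Apart (q : ℕ) (K : ℕ → ℕ) (N R : ℕ) (x y : T) : Prop :=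
  ∃ t : ℕ, ∃ θ : T, 2 * R ≤ t ∧ t ≤ K N ∧ addOrderOf θ = q ^ t ∧ ‖x - y - θ‖ < (1 / 2 : ℝ) ^ (4 * N)

/-- **The `k`-point theorem for boxes.** -/
theorem boxK {p q : ℕ} (hpq : PQ p q) {K : ℕ → ℕ} (hK : KorP p q K) (ι : Type) [Fintype ι] [Nonempty ι]
    (F : Finset C(T, ℝ)) (hF : ∀ f ∈ F, ∀ z, 0 ≤ f z) (δ : ℝ) (hδ : 0 < δ) :
    ∃ M : ℕ, ∀ N R, M ≤ N → M ≤ R → 2 * R ≤ N → ∀ x : ι → T,
      (∀ i j, i ≠ j → Apart q K N R (x i) (x j)) →
        ∃ t : ι → ℝ, (∀ i, 0 ≤ t i ∧ t i ≤ 1) ∧ ∑ i, (1 - t i) ≤ 1 ∧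
          ∀ i, ∀ f ∈ F, t i * (∫ z, f z ∂(volume : Measure T)) - δ ≤ avg (bx p N R) f (x i) := by
  by_contra hcon
  push Not at hcon
  choose N R hN0 hR0 hRN x hx hs using hcon
  have hRt : Tendsto R atTop atTop := tendsto_atTop_mono hR0 tendsto_id
  have hNt : Tendsto N atTop atTop := tendsto_atTop_mono hN0 tendsto_id
  have h4 : ∀ k, 4 * N k / 4 = N k := fun k => by omega
  obtain ⟨f1, f2⟩ := fol_bx p (fun k => N (k + 1)) (fun k => R (k + 1))
    ((tendsto_add_atTop_iff_nat 1).2 hNt) ((tendsto_add_atTop_iff_nat 1).2 hRt)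
  have hne : ∀ k, (bx p (N (k + 1)) (R (k + 1))).Nonempty := by
    intro k
    have h1 := hR0 (k + 1)
    have h2 := hN0 (k + 1)
    exact bx_nonempty _ _ _ (by omega) (by omega)
  have hd : ∀ i j, i ≠ j → ∀ m : ℤ, m ≠ 0 → Tendsto (fun k => avgC (bx p (N (k + 1)) (R (k + 1)))
      (fourier m) (x (k + 1) j - x (k + 1) i)) atTop (𝓝 0) := by
    intro i j hij m hm
    choose t θ ht1 ht2 hθ hxy using fun k => hx k i j hij
    have h := sep_char hpq hK (fun k => 4 * N k) R t (fun k => x k i) (fun k => x k j) θ hRt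
      (fun k => by have := hRN k; omega) (fun k => ⟨ht1 k, by rw [h4]; exact ht2 k⟩) hθ hxy m hm
    simp only [h4] at h
    exact (tendsto_add_atTop_iff_nat
      (f := fun k => avgC (bx p (N k) (R k)) (fourier m) (x k j - x k i)) 1).2 h
  have hgen := k_general (fun k => bx p (N (k + 1)) (R (k + 1))) hne f1 f2
    (fun k => x (k + 1)) hd F hF δ hδ
  obtain ⟨k, t, ht, hts, htf⟩ := hgen.exists
  obtain ⟨i, f, hf, h1⟩ := hs (k + 1) t ht hts
  exact absurd (htf i f hf) (not_le.2 h1)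

/-- points whose box average is close to Lebesgue measure -/
def Dbx (p : ℕ) (F : Finset C(T, ℝ)) (δ : ℝ) (N R : ℕ) : Set T :=
  {x | ∀ f ∈ F, |avg (bx p N R) f x - ∫ z, f z ∂(volume : Measure T)| ≤ δ}

theorem measurable_Dbx (p : ℕ) (F : Finset C(T, ℝ)) (δ : ℝ) (N R : ℕ) :
    MeasurableSet (Dbx p F δ N R) := by
  have : Dbx p F δ N R =
      ⋂ f ∈ F, {x | |avg (bx p N R) f x - ∫ z, f z ∂(volume : Measure T)| ≤ δ} := by
    ext x
    simp [Dbx]
  rw [this]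
  exact (isClosed_biInter fun f _ =>
    isClosed_le ((continuous_avg' _ f).sub continuous_const).abs continuous_const).measurableSet

theorem boxD {p q : ℕ} (hpq : PQ p q) {K : ℕ → ℕ} (hK : KorP p q K) (F : Finset C(T, ℝ)) (δ : ℝ)
    (hδ : 0 < δ) :
    ∃ k : ℕ, 1 ≤ k ∧ ∃ M : ℕ, ∀ N R, M ≤ N → M ≤ R → 2 * R ≤ N → ∀ x : Fin k → T,
      (∀ i, x i ∉ Dbx p F δ N R) → ¬ ∀ i j, i ≠ j → Apart q K N R (x i) (x j) := by
  classical
  obtain ⟨B, hB1, hB⟩ : ∃ B : ℝ, 1 ≤ B ∧ ∀ f ∈ F, ‖f‖ ≤ B := by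
    refine ⟨1 + ∑ f ∈ F, ‖f‖, ?_, fun f hf => ?_⟩
    · have : 0 ≤ ∑ f ∈ F, ‖f‖ := Finset.sum_nonneg fun _ _ => norm_nonneg _
      linarith
    · have h1 : ‖f‖ ≤ ∑ f ∈ F, ‖f‖ :=
        Finset.single_le_sum (f := fun f : C(T, ℝ) => ‖f‖) (fun _ _ => norm_nonneg _) hf
      linarith
  have hB0 : 0 < B := by linarith
  let U : Bool → C(T, ℝ) → C(T, ℝ) := fun b g =>
    ⟨fun z => ‖g‖ + (if b then 1 else -1) * g z, by fun_prop⟩
  have hU : ∀ b g z, 0 ≤ U b g z ∧ U b g z ≤ 2 * ‖g‖ := by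
    intro b g z
    have h1 := abs_le.1 (g.norm_coe_le_norm z)
    change 0 ≤ ‖g‖ + (if b then 1 else -1) * g z ∧ ‖g‖ + (if b then 1 else -1) * g z ≤ 2 * ‖g‖
    cases b
    · simp only [Bool.false_eq_true, if_false]
      constructor <;> linarith
    · simp only [if_true]
      constructor <;> linarith
  let P : Finset C(T, ℝ) := (F ×ˢ (Finset.univ : Finset Bool)).image fun p => U p.2 p.1
  have hP : ∀ f ∈ P, ∀ z, 0 ≤ f z := by
    intro f hf z
    obtain ⟨p, -, rfl⟩ := Finset.mem_image.1 hf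
    exact (hU _ _ _).1
  obtain ⟨k, hk⟩ := exists_nat_one_div_lt (show 0 < δ / (4 * B) by positivity)
  obtain ⟨M, hM⟩ := boxK hpq hK (Fin (k + 1)) P hP (δ / 4) (by positivity)
  refine ⟨k + 1, by omega, max M 1, fun N R hN hR hRN x hx hsep => ?_⟩
  obtain ⟨t, -, hts, htf⟩ := hM N R ((le_max_left _ _).trans hN) ((le_max_left _ _).trans hR) hRN x hsep
  have hG : (bx p N R).Nonempty := bx_nonempty _ _ _
    (lt_of_lt_of_le one_pos ((le_max_right _ _).trans hN)) (lt_of_lt_of_le one_pos ((le_max_right _ _).trans hR))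
  have hkp : (0 : ℝ) < (k : ℝ) + 1 := by positivity
  obtain ⟨i, hi⟩ : ∃ i, 1 - t i ≤ 1 / ((k : ℝ) + 1) := by
    by_contra hcon
    push Not at hcon
    have h1 : ∑ _i : Fin (k + 1), 1 / ((k : ℝ) + 1) < ∑ i, (1 - t i) :=
      Finset.sum_lt_sum_of_nonempty Finset.univ_nonempty fun i _ => hcon i
    rw [Finset.sum_const, Finset.card_univ, Fintype.card_fin, nsmul_eq_mul] at h1
    push_cast at h1
    rw [mul_one_div_cancel hkp.ne'] at h1
    linarith
  have hxi := hx i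
  simp only [Dbx, Set.mem_ofPred_eq, not_forall, not_le] at hxi
  obtain ⟨f, hf, h1⟩ := hxi
  have hkk : 1 / ((k : ℝ) + 1) * (2 * B) ≤ δ / 2 := by
    have : 1 / ((k : ℝ) + 1) * (2 * B) ≤ δ / (4 * B) * (2 * B) :=
      mul_le_mul_of_nonneg_right hk.le (by positivity)
    refine this.trans (le_of_eq ?_)
    field_simp
    ring
  have hmain : ∀ b : Bool, (if b then 1 else -1) * (∫ z, f z ∂(volume : Measure T)) - 3 * δ / 4 ≤
      (if b then 1 else -1) * avg (bx p N R) f (x i) := by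
    intro b
    have h2 := htf i (U b f) (Finset.mem_image.2 ⟨(f, b), Finset.mem_product.2
      ⟨hf, Finset.mem_univ _⟩, rfl⟩)
    have h3 : avg (bx p N R) (U b f) (x i) = ‖f‖ + (if b then 1 else -1) * avg (bx p N R) f (x i) :=
      KB_const _ hG _ _ _ _
    have h4 : ∫ z, U b f z ∂(volume : Measure T) = ‖f‖ +
        (if b then 1 else -1) * ∫ z, f z ∂(volume : Measure T) := KB_intc _ _ _
    have h5 : ∫ z, U b f z ∂(volume : Measure T) ≤ 2 * B := by
      have h6 : ∫ z, U b f z ∂(volume : Measure T) ≤ ∫ _z, 2 * B ∂(volume : Measure T) := by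
        refine integral_mono (KB_int _) (integrable_const _) fun z => ?_
        exact (hU b f z).2.trans (by linarith [hB f hf])
      refine h6.trans (le_of_eq ?_)
      rw [integral_const]
      simp [Measure.real, AddCircle.measure_univ]
    have h6 : 0 ≤ ∫ z, U b f z ∂(volume : Measure T) := integral_nonneg fun z => (hU b f z).1
    have h7 : (1 - t i) * (∫ z, U b f z ∂(volume : Measure T)) ≤ δ / 2 :=
      (mul_le_mul hi h5 h6 (by positivity)).trans hkk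
    rw [h3] at h2
    linarith
  have ht := hmain true
  have hff := hmain false
  simp only [if_true] at ht
  simp only [Bool.false_eq_true, if_false] at hff
  have h8 : |avg (bx p N R) f (x i) - ∫ z, f z ∂(volume : Measure T)| ≤ 3 * δ / 4 :=
    abs_le.2 ⟨by linarith, by linarith⟩
  linarith

theorem boxE {p q : ℕ} (hpq : PQ p q) {K : ℕ → ℕ} (hK : KorP p q K) (F : Finset C(T, ℝ))
    (hF : ∀ f ∈ F, ∀ z, 0 ≤ f z) (δ : ℝ) (hδ : 0 < δ) :
    ∃ M : ℕ, ∀ N R, M ≤ N → M ≤ R → 2 * R ≤ N → ∀ x y : T,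
      x ∉ Lbx p F δ N R → y ∉ Lbx p F δ N R → ¬ Apart q K N R x y := by
  obtain ⟨M, hM⟩ := separation2 hpq hK F hF δ hδ
  refine ⟨M, fun N R hN hR hRN x y hx hy hxy => ?_⟩
  obtain ⟨t, θ, ht1, ht2, hθ, hlt⟩ := hxy
  obtain ⟨s, hs0, hs1, k1, k2⟩ := hM N R hN hR hRN t ht1 ht2 x y θ hθ hlt
  have hint : ∀ f ∈ F, 0 ≤ ∫ z, f z ∂(volume : Measure T) := fun f hf => integral_nonneg (hF f hf)
  rcases le_total (1 / 2) s with hs | hs
  · apply hx
    intro f hf
    have h2 := k1 f hf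
    have h3 := hint f hf
    nlinarith
  · apply hy
    intro f hf
    have h2 := k2 f hf
    have h3 := hint f hf
    nlinarith

/-- two points with the same digits `u + s + 1, ..., u + s + n` but not the same digits from `u + 1` on -/
theorem cell_apart {q : ℕ} (hq : q.Prime) (n u s : ℕ) (x y : T)
    (h1 : LogSc.cell q n ((q ^ (u + s)) • x) = LogSc.cell q n ((q ^ (u + s)) • y))
    (h2 : LogSc.cell q (n + s) ((q ^ u) • x) ≠ LogSc.cell q (n + s) ((q ^ u) • y)) :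
    ∃ t : ℕ, ∃ θ : T, u < t ∧ t ≤ u + s ∧ addOrderOf θ = q ^ t ∧ ‖x - y - θ‖ < (1 / 2 : ℝ) ^ (n + (u + s)) := by
  have hq0 : 0 < q := hq.pos
  have hqr : (0 : ℝ) < (q : ℝ) := by exact_mod_cast hq0
  set d : ℤ := (LogSc.cell q (u + s) x : ℤ) - LogSc.cell q (u + s) y with hd
  set θ : T := (((d : ℝ) / (q : ℝ) ^ (u + s) : ℝ) : T) with hθ
  have e1 : (q ^ (u + s)) • θ = 0 := by
    rw [hθ, ← AddCircle.coe_nsmul]
    have : (q ^ (u + s)) • ((d : ℝ) / (q : ℝ) ^ (u + s)) = d := by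
      rw [nsmul_eq_mul]
      push_cast
      field_simp
    rw [this, AddCircle.coe_eq_zero_iff]
    exact ⟨d, by simp⟩
  have hnorm : ‖x - y - θ‖ < (1 / 2 : ℝ) ^ (n + (u + s)) := by
    have h3 := LogSc.cell_near (b := q) hq0 (n + (u + s)) x y
    have h4 : ((LogSc.cell q (n + (u + s)) x : ℕ) : ℝ) - (LogSc.cell q (n + (u + s)) y : ℕ) =
        (q : ℝ) ^ n * d := by
      rw [LogSc.CELL_add hq0 n (u + s) x, LogSc.CELL_add hq0 n (u + s) y, h1, hd]
      push_cast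
      ring
    rw [h4] at h3
    have h5 : (q : ℝ) ^ n * (d : ℝ) / (q : ℝ) ^ (n + (u + s)) = (d : ℝ) / (q : ℝ) ^ (u + s) := by
      rw [pow_add]
      field_simp
    rw [h5] at h3
    refine h3.trans_le ?_
    rw [one_div, inv_pow]
    apply inv_anti₀ (by positivity)
    have : (2 : ℝ) ≤ q := by exact_mod_cast hq.two_le
    exact pow_le_pow_left₀ (by norm_num) this _
  have hdvd : addOrderOf θ ∣ q ^ (u + s) := addOrderOf_dvd_of_nsmul_eq_zero e1
  obtain ⟨t, ht, hto⟩ := (Nat.dvd_prime_pow hq).1 hdvd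
  refine ⟨t, θ, ?_, ht, hto, hnorm⟩
  by_contra hcon
  rw [not_lt] at hcon
  apply h2
  have e2 : (q ^ u) • θ = 0 := by
    rw [← addOrderOf_dvd_iff_nsmul_eq_zero, hto]
    exact pow_dvd_pow q hcon
  -- so `q ^ s` divides `d`
  have e3 : ∃ m : ℤ, (d : ℝ) / (q : ℝ) ^ s = m := by
    rw [hθ, ← AddCircle.coe_nsmul, AddCircle.coe_eq_zero_iff] at e2
    obtain ⟨m, hm⟩ := e2
    refine ⟨m, ?_⟩
    rw [zsmul_eq_mul, mul_one, nsmul_eq_mul] at hm
    rw [hm]
    push_cast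
    rw [pow_add]
    field_simp
  obtain ⟨m, hm⟩ := e3
  have e4 : d = m * (q : ℤ) ^ s := by
    rw [div_eq_iff (by positivity)] at hm
    exact_mod_cast hm
  have e5 : LogSc.cell q s ((q ^ u) • x) = LogSc.cell q s ((q ^ u) • y) := by
    rw [LogSc.cell_smul hq0 s u x, LogSc.cell_smul hq0 s u y]
    have hc : LogSc.cell q (s + u) x ≡ LogSc.cell q (s + u) y [MOD q ^ s] := by
      rw [← Int.natCast_modEq_iff, Int.modEq_iff_dvd, add_comm s u]
      refine ⟨-m, ?_⟩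
      push_cast
      linarith
    exact hc
  have hsm : ∀ x : T, (q ^ s) • ((q ^ u) • x) = (q ^ (u + s)) • x := by
    intro x
    rw [← mul_smul, ← pow_add, add_comm s u]
  rw [LogSc.CELL_add hq0 n s ((q ^ u) • x), LogSc.CELL_add hq0 n s ((q ^ u) • y), e5, hsm, hsm, h1]

end Pool.Agent.Half
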