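import Pool.Agent.Half.BoxV

/-! Polynomial decay of the correlations of characters under one map (helper56). -/

open MeasureTheory Filter Topology
open scoped ENNReal

namespace Pool.Agent.Half

private theorem bp_mul {μ : Measure T} {p : ℕ}
    (hpμ : MeasurePreserving (fun x : T => p • x) μ μ) (n : ℤ) : Ord2.cf μ (n * p) = Ord2.cf μ n := by
  unfold Ord2.cf
  have h1 : ∀ x : T, fourier (n * p) x = fourier n (p • x) := fun x => (Ord2.fourier_nsmul' n p x).symm
  simp only [h1]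
  have h2 : ∫ y, fourier n y ∂(μ.map (fun x : T => p • x)) = ∫ x, fourier n (p • x) ∂μ :=
    integral_map hpμ.measurable.aemeasurable (fourier n).continuous.aestronglyMeasurable
  rw [← h2, hpμ.map_eq]

private theorem bp_pow {μ : Measure T} {p : ℕ}
    (hpμ : MeasurePreserving (fun x : T => p • x) μ μ) (n : ℤ) (j : ℕ) :
    Ord2.cf μ (n * (p : ℤ) ^ j) = Ord2.cf μ n := by
  induction j with
  | zero => simp
  | succ j ih =>
    rw [pow_succ, ← mul_assoc, bp_mul hpμ, ih]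

private theorem bp_neg (μ : Measure T) (n : ℤ) : Ord2.cf μ (-n) = (starRingEnd ℂ) (Ord2.cf μ n) := by
  unfold Ord2.cf
  rw [← integral_conj]
  simp only [fourier_neg]

/-- the correlation of two terms of the sum -/
private theorem bp_int {μ : Measure T} [IsProbabilityMeasure μ] {p : ℕ}
    (hpμ : MeasurePreserving (fun x : T => p • x) μ μ) (m : ℤ) (i j : ℕ) :
    ∫ x, (fourier (m * (p : ℤ) ^ i) x - Ord2.cf μ m) *
      (starRingEnd ℂ) (fourier (m * (p : ℤ) ^ j) x - Ord2.cf μ m) ∂μ =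
      Ord2.cf μ (m * (p : ℤ) ^ i - m * (p : ℤ) ^ j) - (‖Ord2.cf μ m‖ : ℂ) ^ 2 := by
  set c := Ord2.cf μ m with hc
  have hint : ∀ n : ℤ, Integrable (fun x => (fourier n x : ℂ)) μ :=
    fun n => CV_int μ (fourier n).continuous
  have e : ∀ x : T, (fourier (m * (p : ℤ) ^ i) x - c) *
      (starRingEnd ℂ) (fourier (m * (p : ℤ) ^ j) x - c) =
      (fourier (m * (p : ℤ) ^ i - m * (p : ℤ) ^ j) x - (starRingEnd ℂ) c * fourier (m * (p : ℤ) ^ i) x) -
        (c * fourier (-(m * (p : ℤ) ^ j)) x - c * (starRingEnd ℂ) c) := by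
    intro x
    rw [sub_eq_add_neg (m * (p : ℤ) ^ i) (m * (p : ℤ) ^ j), fourier_add, fourier_neg, map_sub]
    ring
  simp only [e]
  have i1 : Integrable (fun x : T => (starRingEnd ℂ) c * fourier (m * (p : ℤ) ^ i) x) μ :=
    (hint _).const_mul _
  have i2 : Integrable (fun x : T => c * fourier (-(m * (p : ℤ) ^ j)) x) μ := (hint _).const_mul _
  have i3 : Integrable (fun _ : T => c * (starRingEnd ℂ) c) μ := integrable_const _
  have i4 : Integrable (fun x : T => fourier (m * (p : ℤ) ^ i - m * (p : ℤ) ^ j) x -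
      (starRingEnd ℂ) c * fourier (m * (p : ℤ) ^ i) x) μ := (hint _).sub i1
  have i5 : Integrable (fun x : T => c * fourier (-(m * (p : ℤ) ^ j)) x - c * (starRingEnd ℂ) c) μ :=
    i2.sub i3
  rw [integral_sub i4 i5, integral_sub (hint _) i1, integral_sub i2 i3,
    integral_const_mul, integral_const_mul, integral_const]
  have e1 : ∫ x, fourier (m * (p : ℤ) ^ i) x ∂μ = c := bp_pow hpμ m i
  have e2 : ∫ x, fourier (-(m * (p : ℤ) ^ j)) x ∂μ = (starRingEnd ℂ) c := by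
    have h1 := bp_neg μ (m * (p : ℤ) ^ j)
    rw [bp_pow hpμ m j] at h1
    exact h1
  rw [e1, e2]
  have e3 : (‖c‖ : ℂ) ^ 2 = c * (starRingEnd ℂ) c := (Complex.mul_conj' c).symm
  rw [e3]
  change Ord2.cf μ (m * (p : ℤ) ^ i - m * (p : ℤ) ^ j) - (starRingEnd ℂ) c * c -
    (c * (starRingEnd ℂ) c - μ.real Set.univ • (c * (starRingEnd ℂ) c)) = _
  rw [probReal_univ, one_smul]
  ring

private theorem bp_norm {μ : Measure T} {p : ℕ}
    (hpμ : MeasurePreserving (fun x : T => p • x) μ μ) (m : ℤ) (i j : ℕ) (hij : j ≤ i) :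
    Ord2.cf μ (m * (p : ℤ) ^ i - m * (p : ℤ) ^ j) = Ord2.cf μ (m * ((p : ℤ) ^ (i - j) - 1)) := by
  have e : m * (p : ℤ) ^ i - m * (p : ℤ) ^ j = (m * ((p : ℤ) ^ (i - j) - 1)) * (p : ℤ) ^ j := by
    have : (p : ℤ) ^ i = (p : ℤ) ^ (i - j) * (p : ℤ) ^ j := by
      rw [← pow_add, Nat.sub_add_cancel hij]
    rw [this]; ring
  rw [e, bp_pow hpμ]

private theorem bp_norm' {μ : Measure T} {p : ℕ}
    (hpμ : MeasurePreserving (fun x : T => p • x) μ μ) (m : ℤ) (i j : ℕ) (hij : i ≤ j) :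
    ‖Ord2.cf μ (m * (p : ℤ) ^ i - m * (p : ℤ) ^ j) - (‖Ord2.cf μ m‖ : ℂ) ^ 2‖ =
      ‖Ord2.cf μ (m * ((p : ℤ) ^ (j - i) - 1)) - (‖Ord2.cf μ m‖ : ℂ) ^ 2‖ := by
  have e : m * (p : ℤ) ^ i - m * (p : ℤ) ^ j = -(m * (p : ℤ) ^ j - m * (p : ℤ) ^ i) := by ring
  rw [e, bp_neg, bp_norm hpμ m j i hij]
  have e2 : (starRingEnd ℂ) (Ord2.cf μ (m * ((p : ℤ) ^ (j - i) - 1))) - (‖Ord2.cf μ m‖ : ℂ) ^ 2 =
      (starRingEnd ℂ) (Ord2.cf μ (m * ((p : ℤ) ^ (j - i) - 1)) - (‖Ord2.cf μ m‖ : ℂ) ^ 2) := by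
    rw [map_sub, map_pow, Complex.conj_ofReal]
  rw [e2, RCLike.norm_conj]

/-- the deviation of the correlation from its limit in the mixing case -/
noncomputable def bdev (μ : Measure T) (p : ℕ) (m : ℤ) (g : ℕ) : ℝ :=
  ‖Ord2.cf μ (m * ((p : ℤ) ^ g - 1)) - (‖Ord2.cf μ m‖ : ℂ) ^ 2‖

theorem Va_corr {p q : ℕ} (hpq : PQ p q) {μ : Measure T} [IsProbabilityMeasure μ]
    (hpμ : MeasurePreserving (fun x : T => p • x) μ μ) (m : ℤ) (N : ℕ) (hN : 1 ≤ N) :
    Va μ (bx p N 1) m ≤ 2 * (∑ g ∈ Finset.range N, bdev μ p m g) / N := by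
  set b : ℕ → ℝ := bdev μ p m with hb
  have hb0 : ∀ g, 0 ≤ b g := fun g => norm_nonneg _
  set S : ℝ := ∑ g ∈ Finset.range N, b g with hS
  have hN0 : (0 : ℝ) < N := by exact_mod_cast hN
  have hN0' : (N : ℂ) ≠ 0 := by exact_mod_cast hN0.ne'
  set c := Ord2.cf μ m with hc
  have e1 : ∀ x : T, ‖avgC (bx p N 1) (fourier m) x - c‖ ^ 2 =
      ((N : ℝ) ^ 2)⁻¹ * ‖∑ i ∈ Finset.range N, (fourier (m * (p : ℤ) ^ i) x - c)‖ ^ 2 := by
    intro x
    have e2 : avgC (bx p N 1) (fourier m) x - c =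
        (N : ℂ)⁻¹ * ∑ i ∈ Finset.range N, (fourier (m * (p : ℤ) ^ i) x - c) := by
      have e3 : ∀ i : ℕ, (fourier m (p ^ i • x) : ℂ) = fourier (m * (p : ℤ) ^ i) x := by
        intro i
        rw [Ord2.fourier_nsmul']
        push_cast
        rfl
      rw [avgC_line hpq]
      simp only [e3, Finset.sum_sub_distrib, Finset.sum_const, Finset.card_range, nsmul_eq_mul]
      rw [mul_sub, inv_mul_cancel_left₀ hN0', inv_mul_eq_div]
    rw [e2, norm_mul, norm_inv, Complex.norm_natCast, mul_pow, inv_pow]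
  have e0 : Va μ (bx p N 1) m = ((N : ℝ) ^ 2)⁻¹ *
      ∫ x, ‖∑ i ∈ Finset.range N, (fourier (m * (p : ℤ) ^ i) x - c)‖ ^ 2 ∂μ := by
    unfold Va
    rw [← hc]
    simp only [e1]
    rw [integral_const_mul]
  rw [e0]
  have h1 : ∀ x : T, ((‖∑ i ∈ Finset.range N, (fourier (m * (p : ℤ) ^ i) x - c)‖ ^ 2 : ℝ) : ℂ) =
      ∑ i ∈ Finset.range N, ∑ j ∈ Finset.range N, (fourier (m * (p : ℤ) ^ i) x - c) *
        (starRingEnd ℂ) (fourier (m * (p : ℤ) ^ j) x - c) := by
    intro x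
    rw [Complex.ofReal_pow, ← Complex.mul_conj', map_sum, Finset.sum_mul_sum]
  have hcont : ∀ i : ℕ, Continuous fun x : T => (fourier (m * (p : ℤ) ^ i) x - c) :=
    fun i => (fourier _).continuous.sub continuous_const
  have hint : ∀ i j : ℕ, Integrable (fun x : T => (fourier (m * (p : ℤ) ^ i) x - c) *
        (starRingEnd ℂ) (fourier (m * (p : ℤ) ^ j) x - c)) μ := by
    intro i j
    exact CV_int μ ((hcont i).mul (Complex.continuous_conj.comp (hcont j)))
  have h2 : ((∫ x, ‖∑ i ∈ Finset.range N, (fourier (m * (p : ℤ) ^ i) x - c)‖ ^ 2 ∂μ : ℝ) : ℂ) =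
      ∑ i ∈ Finset.range N, ∑ j ∈ Finset.range N,
        (Ord2.cf μ (m * (p : ℤ) ^ i - m * (p : ℤ) ^ j) - (‖c‖ : ℂ) ^ 2) := by
    rw [← integral_complex_ofReal, integral_congr_ae (Filter.Eventually.of_forall h1),
      integral_finsetSum _ (fun i _ => integrable_finsetSum _ (fun j _ => hint i j))]
    apply Finset.sum_congr rfl
    intro i _
    rw [integral_finsetSum _ (fun j _ => hint i j)]
    apply Finset.sum_congr rfl
    intro j _
    exact bp_int hpμ m i j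
  have h3 : ∫ x, ‖∑ i ∈ Finset.range N, (fourier (m * (p : ℤ) ^ i) x - c)‖ ^ 2 ∂μ ≤ N * (2 * S) := by
    have h4 : ∫ x, ‖∑ i ∈ Finset.range N, (fourier (m * (p : ℤ) ^ i) x - c)‖ ^ 2 ∂μ ≤
        ‖((∫ x, ‖∑ i ∈ Finset.range N, (fourier (m * (p : ℤ) ^ i) x - c)‖ ^ 2 ∂μ : ℝ) : ℂ)‖ := by
      rw [Complex.norm_real]
      exact le_abs_self _
    refine h4.trans ?_
    rw [h2]
    refine (norm_sum_le _ _).trans ?_
    have h5 : ∀ i ∈ Finset.range N, ‖∑ j ∈ Finset.range N,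
        (Ord2.cf μ (m * (p : ℤ) ^ i - m * (p : ℤ) ^ j) - (‖c‖ : ℂ) ^ 2)‖ ≤ 2 * S := by
      intro i hi
      rw [Finset.mem_range] at hi
      refine (norm_sum_le _ _).trans ?_
      have h6 : ∀ j ∈ Finset.range N, ‖Ord2.cf μ (m * (p : ℤ) ^ i - m * (p : ℤ) ^ j) - (‖c‖ : ℂ) ^ 2‖ ≤
          (if j ≤ i then b (i - j) else 0) + (if i ≤ j then b (j - i) else 0) := by
        intro j _
        rcases le_total j i with hji | hij
        · rw [if_pos hji, bp_norm hpμ m i j hji]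
          have : 0 ≤ (if i ≤ j then b (j - i) else 0) := by
            split_ifs
            · exact hb0 _
            · exact le_rfl
          have e : ‖Ord2.cf μ (m * ((p : ℤ) ^ (i - j) - 1)) - (‖c‖ : ℂ) ^ 2‖ = b (i - j) := rfl
          rw [e]
          linarith
        · rw [if_pos hij, bp_norm' hpμ m i j hij]
          have : 0 ≤ (if j ≤ i then b (i - j) else 0) := by
            split_ifs
            · exact hb0 _
            · exact le_rfl
          have e : ‖Ord2.cf μ (m * ((p : ℤ) ^ (j - i) - 1)) - (‖Ord2.cf μ m‖ : ℂ) ^ 2‖ = b (j - i) := rfl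
          rw [e]
          linarith
      refine (Finset.sum_le_sum h6).trans ?_
      rw [Finset.sum_add_distrib, ← Finset.sum_filter, ← Finset.sum_filter, two_mul]
      apply add_le_add
      · rw [← Finset.sum_image (s := (Finset.range N).filter (fun j => j ≤ i)) (g := fun j => i - j)
          (f := b)]
        · apply Finset.sum_le_sum_of_subset_of_nonneg
          · intro g hg
            rw [Finset.mem_image] at hg
            obtain ⟨j, hj, rfl⟩ := hg
            rw [Finset.mem_range]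
            omega
          · exact fun g _ _ => hb0 g
        · intro a ha a' ha' haa
          rw [Finset.mem_coe, Finset.mem_filter] at ha ha'
          simp only at haa
          omega
      · rw [← Finset.sum_image (s := (Finset.range N).filter (fun j => i ≤ j)) (g := fun j => j - i)
          (f := b)]
        · apply Finset.sum_le_sum_of_subset_of_nonneg
          · intro g hg
            rw [Finset.mem_image] at hg
            obtain ⟨j, hj, rfl⟩ := hg
            rw [Finset.mem_filter, Finset.mem_range] at hj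
            rw [Finset.mem_range]
            omega
          · exact fun g _ _ => hb0 g
        · intro a ha a' ha' haa
          rw [Finset.mem_coe, Finset.mem_filter] at ha ha'
          simp only at haa
          omega
    refine (Finset.sum_le_sum h5).trans ?_
    rw [Finset.sum_const, Finset.card_range, nsmul_eq_mul]
  calc ((N : ℝ) ^ 2)⁻¹ * ∫ x, ‖∑ i ∈ Finset.range N, (fourier (m * (p : ℤ) ^ i) x - c)‖ ^ 2 ∂μ
      ≤ ((N : ℝ) ^ 2)⁻¹ * (N * (2 * S)) := mul_le_mul_of_nonneg_left h3 (by positivity)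
    _ = 2 * S / N := by field_simp

theorem sum_rpow {γ : ℝ} (h0 : 0 < γ) (h1 : γ < 1) (N : ℕ) :
    ∑ g ∈ Finset.range N, ((g : ℝ) + 1) ^ (-γ) ≤ (N : ℝ) ^ (1 - γ) / (1 - γ) := by
  induction N with
  | zero =>
    simp only [Finset.range_zero, Finset.sum_empty, Nat.cast_zero]
    rw [Real.zero_rpow (by linarith), zero_div]
  | succ N ih =>
    rw [Finset.sum_range_succ]
    have hN : (0 : ℝ) < (N : ℝ) + 1 := by positivity
    have h2 : ((N : ℝ)) ^ (1 - γ) ≤ ((N : ℝ) + 1) ^ (1 - γ) - (1 - γ) * ((N : ℝ) + 1) ^ (-γ) := by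
      have e1 : (N : ℝ) = ((N : ℝ) + 1) * (1 + -(1 / ((N : ℝ) + 1))) := by field_simp; ring
      have h3 : (0 : ℝ) ≤ 1 + -(1 / ((N : ℝ) + 1)) := by
        have : 1 / ((N : ℝ) + 1) ≤ 1 := by
          rw [div_le_one hN]
          have : (0 : ℝ) ≤ N := Nat.cast_nonneg _
          linarith
        linarith
      have h4 := rpow_one_add_le_one_add_mul_self (s := -(1 / ((N : ℝ) + 1))) (p := 1 - γ)
        (by linarith) (by linarith) (by linarith)
      have h5 : ((N : ℝ)) ^ (1 - γ) = ((N : ℝ) + 1) ^ (1 - γ) * (1 + -(1 / ((N : ℝ) + 1))) ^ (1 - γ) := by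
        conv_lhs => rw [e1]
        rw [Real.mul_rpow hN.le h3]
      have h6 : ((N : ℝ) + 1) ^ (-γ) = ((N : ℝ) + 1) ^ (1 - γ) * (1 / ((N : ℝ) + 1)) := by
        rw [one_div, ← Real.rpow_neg_one, ← Real.rpow_add hN]
        congr 1
        ring
      rw [h5, h6]
      have h7 : 0 ≤ ((N : ℝ) + 1) ^ (1 - γ) := by positivity
      nlinarith
    push_cast
    rw [le_div_iff₀ (by linarith)] at ih ⊢
    nlinarith

/-- **Polynomial decay of correlations under one map.** -/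
theorem ent_poly {p q : ℕ} (hpq : PQ p q) (μ : Measure T) [IsProbabilityMeasure μ]
    (h2 : MeasurePreserving (fun x : T => (2 : ℕ) • x) μ μ)
    (h3 : MeasurePreserving (fun x : T => (3 : ℕ) • x) μ μ) {γ : ℝ} (hγ0 : 0 < γ) (hγ1 : γ < 1)
    (h : ∀ m : ℤ, ∃ C : ℝ, ∀ g : ℕ, 1 ≤ g → bdev μ p m g ≤ C * (g : ℝ) ^ (-γ)) (hne : μ ≠ volume) :
    ∃ C : ℝ, ∀ n : ℕ, 1 ≤ n → Hb q μ (n + 1) - Hb q μ n ≤ C * (n : ℝ) ^ (-γ) := by
  obtain ⟨hp, hq⟩ := hpq.mp h2 h3
  obtain ⟨M, C0, hC0, hent⟩ := ent_two hpq (κ := 5 / 4) (by norm_num) (by norm_num) μ h2 h3 hne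
  choose C hC using h
  have hq2 : 2 ≤ q := hpq.prime.two_le
  have hlq2 : Real.log q ≤ 2 := by
    have h1 : (q : ℝ) ≤ 3 := by
      rcases hpq with ⟨_, rfl⟩ | ⟨_, rfl⟩ <;> norm_num
    have h4 : Real.log q ≤ q - 1 := Real.log_le_sub_one_of_pos (by exact_mod_cast hpq.prime.pos)
    linarith
  have htr : ∀ n, Hb q μ (n + 1) - Hb q μ n ≤ 6 := fun n => by
    have := Hb_triv hq2 μ hq n
    linarith
  have hb2 : ∀ m g, bdev μ p m g ≤ 2 := by
    intro m g
    have hle : ∀ n : ℤ, ‖Ord2.cf μ n‖ ≤ 1 := by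
      intro n
      unfold Ord2.cf
      have h1 := norm_integral_le_of_norm_le_const (μ := μ) (C := 1) (f := fun x => (fourier n x : ℂ))
        (Eventually.of_forall fun x => by
          rw [fourier_apply]
          exact (Circle.norm_coe _).le)
      simpa using h1
    unfold bdev
    refine (norm_sub_le _ _).trans ?_
    have h4 : ‖(‖Ord2.cf μ m‖ : ℂ) ^ 2‖ ≤ 1 := by
      rw [norm_pow, Complex.norm_real, norm_norm]
      exact pow_le_one₀ (norm_nonneg _) (hle m)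
    have := hle (m * ((p : ℤ) ^ g - 1))
    linarith
  -- the square errors
  have hV : ∀ m : ℤ, ∀ N : ℕ, 1 ≤ N → Va μ (bx p N 1) m ≤ (4 + 2 * |C m| / (1 - γ)) * (N : ℝ) ^ (-γ) := by
    intro m N hN
    have hN0 : (0 : ℝ) < N := by exact_mod_cast hN
    have hN1 : (1 : ℝ) ≤ N := by exact_mod_cast hN
    have h4 := Va_corr hpq hp m N hN
    have h5 : ∑ g ∈ Finset.range N, bdev μ p m g ≤ 2 + |C m| * ((N : ℝ) ^ (1 - γ) / (1 - γ)) := by
      obtain ⟨N', rfl⟩ := Nat.exists_eq_succ_of_ne_zero (by omega : N ≠ 0)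
      rw [Finset.sum_range_succ']
      have h6 : ∑ g ∈ Finset.range N', bdev μ p m (g + 1) ≤ ∑ g ∈ Finset.range N', |C m| * ((g : ℝ) + 1) ^ (-γ) := by
        apply Finset.sum_le_sum
        intro g _
        have h7 := hC m (g + 1) (by omega)
        push_cast at h7
        exact h7.trans (mul_le_mul_of_nonneg_right (le_abs_self _) (by positivity))
      rw [← Finset.mul_sum] at h6
      have h8 := mul_le_mul_of_nonneg_left (sum_rpow hγ0 hγ1 N') (abs_nonneg (C m))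
      have h9 : (N' : ℝ) ^ (1 - γ) / (1 - γ) ≤ ((N' + 1 : ℕ) : ℝ) ^ (1 - γ) / (1 - γ) := by
        apply div_le_div_of_nonneg_right _ (by linarith)
        apply Real.rpow_le_rpow (by positivity) _ (by linarith)
        push_cast
        linarith
      have h10 := mul_le_mul_of_nonneg_left h9 (abs_nonneg (C m))
      have h11 := hb2 m 0
      simp only [Nat.succ_eq_add_one]
      linarith
    have h6 : (N : ℝ) ^ (1 - γ) / N = (N : ℝ) ^ (-γ) := by
      rw [div_eq_mul_inv, ← Real.rpow_neg_one, ← Real.rpow_add hN0]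
      congr 1
      ring
    have h7 : 1 / (N : ℝ) ≤ (N : ℝ) ^ (-γ) := by
      rw [one_div, ← Real.rpow_neg_one]
      exact Real.rpow_le_rpow_of_exponent_le hN1 (by linarith)
    calc Va μ (bx p N 1) m ≤ 2 * (∑ g ∈ Finset.range N, bdev μ p m g) / N := h4
      _ ≤ 2 * (2 + |C m| * ((N : ℝ) ^ (1 - γ) / (1 - γ))) / N := by
          apply div_le_div_of_nonneg_right _ hN0.le
          linarith
      _ = 4 * (1 / (N : ℝ)) + 2 * |C m| / (1 - γ) * ((N : ℝ) ^ (1 - γ) / N) := by ring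
      _ ≤ 4 * (N : ℝ) ^ (-γ) + 2 * |C m| / (1 - γ) * (N : ℝ) ^ (-γ) := by
          rw [h6]
          linarith
      _ = (4 + 2 * |C m| / (1 - γ)) * (N : ℝ) ^ (-γ) := by ring
  set A : ℝ := ∑ m ∈ Finset.Icc (-(M : ℤ)) M, (4 + 2 * |C m| / (1 - γ)) with hA
  have hA0 : 0 ≤ A := Finset.sum_nonneg fun m _ => by
    have : 0 ≤ 2 * |C m| / (1 - γ) := div_nonneg (by positivity) (by linarith)
    linarith
  have hexp : ∀ N : ℕ, 1 ≤ N → Real.exp (-(Real.log N) ^ (5 / 4 : ℝ)) ≤ 3 * (N : ℝ) ^ (-γ) := by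
    intro N hN
    have hN0 : (0 : ℝ) < N := by exact_mod_cast hN
    by_cases h3N : 3 ≤ N
    · have hlog1 : 1 ≤ Real.log N := by
        have h10 := Real.log_le_log (by norm_num) (show (3 : ℝ) ≤ N by exact_mod_cast h3N)
        have h11 : (1 : ℝ) ≤ Real.log 3 := by
          rw [Real.le_log_iff_exp_le (by norm_num)]
          have := Real.exp_one_lt_d9
          linarith
        linarith
      have h4 : Real.log N ≤ (Real.log N) ^ (5 / 4 : ℝ) := by
        conv_lhs => rw [← Real.rpow_one (Real.log N)]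
        exact Real.rpow_le_rpow_of_exponent_le hlog1 (by norm_num)
      have h5 : (N : ℝ) ^ (-γ) = Real.exp (Real.log N * (-γ)) := Real.rpow_def_of_pos hN0 _
      have h6 : Real.exp (-(Real.log N) ^ (5 / 4 : ℝ)) ≤ (N : ℝ) ^ (-γ) := by
        rw [h5]
        apply Real.exp_le_exp.2
        nlinarith
      have h7 : 0 < (N : ℝ) ^ (-γ) := by positivity
      linarith
    · have hN2 : (N : ℝ) ≤ 2 := by exact_mod_cast (by omega : N ≤ 2)
      have h4 : Real.exp (-(Real.log N) ^ (5 / 4 : ℝ)) ≤ 1 := by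
        rw [Real.exp_le_one_iff, neg_nonpos]
        exact Real.rpow_nonneg (Real.log_natCast_nonneg _) _
      have h5 : (1 / 2 : ℝ) ≤ (N : ℝ) ^ (-γ) := by
        have h6 : (2 : ℝ) ^ (-γ) ≤ (N : ℝ) ^ (-γ) := Real.rpow_le_rpow_of_nonpos hN0 hN2 (by linarith)
        have h7 : (2 : ℝ) ^ (-1 : ℝ) ≤ (2 : ℝ) ^ (-γ) :=
          Real.rpow_le_rpow_of_exponent_le (by norm_num) (by linarith)
        rw [Real.rpow_neg_one] at h7
        linarith
      linarith
  have hmain : ∀ N : ℕ, 1 ≤ N → Hb q μ (8 * N + 1) - Hb q μ (8 * N) ≤ C0 * (3 + A) * (N : ℝ) ^ (-γ) := by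
    intro N hN
    refine (hent N hN).trans ?_
    have h4 : ∑ m ∈ Finset.Icc (-(M : ℤ)) M, Va μ (bx p N 1) m ≤ A * (N : ℝ) ^ (-γ) := by
      rw [hA, Finset.sum_mul]
      exact Finset.sum_le_sum fun m _ => hV m N hN
    have h5 := hexp N hN
    rw [mul_assoc]
    apply mul_le_mul_of_nonneg_left _ hC0.le
    linarith
  refine ⟨16 * (C0 * (3 + A)) + 48, fun n hn => ?_⟩
  have hn0 : (0 : ℝ) < n := by exact_mod_cast hn
  have hnγ : 0 < (n : ℝ) ^ (-γ) := by positivity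
  by_cases h8 : 8 ≤ n
  · have hN1 : 1 ≤ n / 8 := by omega
    have h4 := Hb_anti hpq.prime.pos μ hq (show 8 * (n / 8) ≤ n by omega)
    have h4' : Hb q μ (n + 1) - Hb q μ n ≤ Hb q μ (8 * (n / 8) + 1) - Hb q μ (8 * (n / 8)) := h4
    have h5 := hmain (n / 8) hN1
    have h6 : ((n / 8 : ℕ) : ℝ) ^ (-γ) ≤ 16 * (n : ℝ) ^ (-γ) := by
      have h7 : (n : ℝ) / 16 ≤ ((n / 8 : ℕ) : ℝ) := by
        have : n ≤ 16 * (n / 8) := by omega
        have h9 : (n : ℝ) ≤ 16 * ((n / 8 : ℕ) : ℝ) := by exact_mod_cast this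
        linarith
      have h9 : ((n / 8 : ℕ) : ℝ) ^ (-γ) ≤ ((n : ℝ) / 16) ^ (-γ) :=
        Real.rpow_le_rpow_of_nonpos (by positivity) h7 (by linarith)
      refine h9.trans ?_
      rw [Real.div_rpow hn0.le (by norm_num), Real.rpow_neg (by norm_num : (0 : ℝ) ≤ 16) γ, div_inv_eq_mul, mul_comm]
      apply mul_le_mul_of_nonneg_right _ hnγ.le
      calc (16 : ℝ) ^ γ ≤ (16 : ℝ) ^ (1 : ℝ) := Real.rpow_le_rpow_of_exponent_le (by norm_num) hγ1.le
        _ = 16 := Real.rpow_one _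
    have h10 : 0 ≤ C0 * (3 + A) := by positivity
    have h11 := mul_le_mul_of_nonneg_left h6 h10
    nlinarith
  · have h4 := htr n
    have h5 : (1 / 8 : ℝ) ≤ (n : ℝ) ^ (-γ) := by
      have hn8 : (n : ℝ) ≤ 8 := by exact_mod_cast (by omega : n ≤ 8)
      have h6 : (8 : ℝ) ^ (-γ) ≤ (n : ℝ) ^ (-γ) := Real.rpow_le_rpow_of_nonpos hn0 hn8 (by linarith)
      have h7 : (8 : ℝ) ^ (-1 : ℝ) ≤ (8 : ℝ) ^ (-γ) :=
        Real.rpow_le_rpow_of_exponent_le (by norm_num) (by linarith)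
      rw [Real.rpow_neg_one] at h7
      linarith
    have h10 : 0 ≤ C0 * (3 + A) := by positivity
    nlinarith [mul_nonneg h10 hnγ.le]

end Pool.Agent.Half
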