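import Pool.Agent.Half.BDefs
import Pool.Agent.LogSc.Cell

/-! Variant of CHAIN with variable bounds `t1 j` and sets `E j` (the proof is the one of helper17 for CHAIN). PROOF. `V 0 = V 1 = univ`, `V (j+2) = D (n (j+1)) ∩ (q ^ k (j+1))⁻¹ V (j+1)`;
`μ (V j)ᶜ ≤ ∑_{1 ≤ i < j} μ (D (n i))ᶜ ≤ 1/2` (`x ↦ q ^ k • x` preserves `μ`). For `u ∈ V j` let `base u` be the cell of level
`n 0` of `q ^ (k 0 + ... + k (j-1)) • u`: `⌊2 ^ n 0 * rep⌋`. CLAIM `P j`: `u, u' ∈ V (j+1)` with the same base cell satisfy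
`‖q ^ k j • (u - u')‖ < 2 ^ -(n j)`. `P 0`: same cell of level `n 0`. `P j → P (j+1)`: `u, u' ∈ V (j+2)`, then
`v = q ^ k (j+1) • u`, `v'` are in `V (j+1)` with the same base, so `‖q ^ (k j + k (j+1)) • (u - u')‖ < 2 ^ -(n j)`: there is
`θ` with `q ^ (k j + k (j+1)) • θ = 0` and `‖u - u' - θ‖ < 2 ^ -(n j) / q ^ (k j + k (j+1)) ≤ 2 ^ -(n (j+2))` (`2 ≤ q`), so the
order of `θ` is `q ^ t`, `t ≤ k j + k (j+1)` (`q` prime); both points are in `D (n (j+1))` and the distance is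
`< 2 ^ -(n (j+1))`, so `t < t1` by `hsep`; as `t1 ≤ k (j+1)`, `q ^ k (j+1) • θ = 0` and
`‖q ^ k (j+1) • (u - u')‖ ≤ q ^ k (j+1) ‖u - u' - θ‖ < 2 ^ -(n j) / q ^ k j ≤ 2 ^ -(n (j+1))`. So `q ^ k j • V (j+1)` meets, for
every base cell, a set of diameter `< 2 ^ -(n j)`; the sum over the `2 ^ n 0` base cells of the measures of the closed balls
of radius `2 ^ -(n j)` around one point of it is `≥ μ (V (j+1)) ≥ 1/2`, so one ball of radius `2 ^ -(n j)` has measure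
`≥ 2 ^ -(n 0 + 1)`, for every `j`: by compactness (`n j → ∞`) `μ` has an atom. -/

open MeasureTheory Filter Topology
open scoped ENNReal

namespace Pool.Agent.Half

private theorem chain_atom (μ : Measure T) [IsProbabilityMeasure μ] (hna : ∀ x, μ {x} = 0)
    (ε : ℝ≥0∞) (hε : 0 < ε) : ∃ δ : ℝ, 0 < δ ∧ ∀ c : T, μ (Metric.closedBall c δ) < ε := by
  have h1 : ∀ x : T, ∃ U ⊇ ({x} : Set T), IsOpen U ∧ μ U < ε := fun x =>
    Set.exists_isOpen_lt_of_lt {x} ε (by rw [hna x]; exact hε)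
  choose U hU1 hU2 hU3 using h1
  obtain ⟨δ, hδ, h2⟩ := lebesgue_number_lemma_of_metric (isCompact_univ : IsCompact (Set.univ : Set T))
    hU2 (fun x _ => Set.mem_iUnion.2 ⟨x, hU1 x rfl⟩)
  refine ⟨δ / 2, by linarith, fun c => ?_⟩
  obtain ⟨i, hi⟩ := h2 c (Set.mem_univ c)
  exact lt_of_le_of_lt (measure_mono ((Metric.closedBall_subset_ball (by linarith)).trans hi)) (hU3 i)

private theorem chain_root (Q : ℕ) (hQ : 0 < Q) (v : T) (r : ℝ) (h : ‖Q • v‖ < r) :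
    ∃ θ : T, Q • θ = 0 ∧ ‖v - θ‖ < r / Q := by
  obtain ⟨x, rfl⟩ := QuotientAddGroup.mk_surjective v
  have hQ' : (0 : ℝ) < Q := by exact_mod_cast hQ
  have h1 : (Q • ((x : ℝ) : T)) = (((Q : ℝ) * x : ℝ) : T) := by
    rw [← AddCircle.coe_nsmul, nsmul_eq_mul]
  have h2 : ‖Q • ((x : ℝ) : T)‖ = |(Q : ℝ) * x - round ((Q : ℝ) * x)| := by
    rw [h1, UnitAddCircle.norm_eq]
  refine ⟨(((round ((Q : ℝ) * x) : ℤ) / (Q : ℝ) : ℝ) : T), ?_, ?_⟩
  · rw [← AddCircle.coe_nsmul, nsmul_eq_mul, mul_div_cancel₀ _ hQ'.ne']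
    have : (((round ((Q : ℝ) * x) : ℤ) : ℝ) : T) = (round ((Q : ℝ) * x) : ℤ) • ((1 : ℝ) : T) := by
      rw [← AddCircle.coe_zsmul]; simp
    rw [this, AddCircle.coe_period, smul_zero]
  · change ‖((x : ℝ) : T) - _‖ < _
    rw [← AddCircle.coe_sub, UnitAddCircle.norm_eq]
    refine lt_of_le_of_lt (round_le _ 0) ?_
    rw [Int.cast_zero, sub_zero, lt_div_iff₀ hQ']
    change ‖Q • ((x : ℝ) : T)‖ < r at h
    rw [h2] at h
    calc |x - (round ((Q : ℝ) * x) : ℝ) / Q| * Q = |(x - (round ((Q : ℝ) * x) : ℝ) / Q) * Q| := by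
          rw [abs_mul, abs_of_pos hQ']
      _ = |(Q : ℝ) * x - round ((Q : ℝ) * x)| := by
          congr 1
          field_simp
      _ < r := h

private theorem chain_iter (q k : ℕ) (x : T) : (fun x : T => q • x)^[k] x = q ^ k • x := by
  induction k with
  | zero => simp
  | succ k ih => rw [Function.iterate_succ_apply', ih, pow_succ', mul_smul]

private theorem chain_mp (μ : Measure T) (q : ℕ) (hmp : MeasurePreserving (fun x : T => q • x) μ μ)
    (k : ℕ) : MeasurePreserving (fun x : T => q ^ k • x) μ μ := by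
  have h := hmp.iterate k
  have e : (fun x : T => q • x)^[k] = fun x : T => q ^ k • x := funext (chain_iter q k)
  rwa [e] at h

private def chainU (q : ℕ) (D : ℕ → Set T) (n k : ℕ → ℕ) : ℕ → Set T
  | 0 => Set.univ
  | j + 1 => D (j + 1) ∩ (fun x : T => q ^ k (j + 1) • x) ⁻¹' chainU q D n k j

private theorem chain_meas (μ : Measure T) [IsProbabilityMeasure μ] (q : ℕ)
    (hmp : MeasurePreserving (fun x : T => q • x) μ μ) (D : ℕ → Set T) (hD : ∀ n, MeasurableSet (D n))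
    (n k : ℕ → ℕ) (j : ℕ) : MeasurableSet (chainU q D n k j) ∧
      μ (chainU q D n k j)ᶜ ≤ ∑ i ∈ Finset.range j, μ (D (i + 1))ᶜ := by
  induction j with
  | zero => simp [chainU]
  | succ j ih =>
    have hm := chain_mp μ q hmp (k (j + 1))
    refine ⟨(hD _).inter (hm.measurable ih.1), ?_⟩
    rw [Finset.sum_range_succ]
    have e : (chainU q D n k (j + 1))ᶜ = (D (j + 1))ᶜ ∪
        (fun x : T => q ^ k (j + 1) • x) ⁻¹' (chainU q D n k j)ᶜ := by
      rw [Set.preimage_compl, ← Set.compl_inter]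
      rfl
    rw [e]
    refine (measure_union_le _ _).trans ?_
    rw [hm.measure_preimage ih.1.compl.nullMeasurableSet, add_comm]
    exact add_le_add ih.2 le_rfl

theorem chainV (μ : Measure T) [IsProbabilityMeasure μ] (hna : ∀ x, μ {x} = 0) (q : ℕ) (hq : q.Prime)
    (hmp : MeasurePreserving (fun x : T => q • x) μ μ) (D : ℕ → Set T) (hD : ∀ n, MeasurableSet (D n))
    (n k : ℕ → ℕ) (hnk : ∀ j, n (j + 1) = n j + k j) (t1 : ℕ → ℕ) (hk1 : ∀ j, 1 ≤ k j)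
    (hk : ∀ j, t1 j ≤ k (j + 1))
    (hsep : ∀ j, ∀ t, t1 j ≤ t → t ≤ k j + k (j + 1) → ∀ x ∈ D (j + 1), ∀ y ∈ D (j + 1), ∀ θ : T,
      addOrderOf θ = q ^ t → (1 / 2 : ℝ) ^ (n (j + 1)) ≤ ‖x - y - θ‖)
    (hsum : ∀ J, ∑ j ∈ Finset.range J, μ (D (j + 1))ᶜ ≤ 1 / 2) : False := by
  have hq2 : 2 ≤ q := hq.two_le
  have hqpos : ∀ i, 0 < q ^ i := fun i => pow_pos (by omega) i
  set U := chainU q D n k with hU
  have hUsucc : ∀ j u, u ∈ U (j + 1) ↔ u ∈ D (j + 1) ∧ q ^ k (j + 1) • u ∈ U j := fun j u => Iff.rfl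
  -- the claim
  have hP : ∀ j, ∀ u ∈ U j, ∀ u' ∈ U j,
      LogSc.cell 2 (n 0) (q ^ (∑ i ∈ Finset.range (j + 1), k i) • u) =
        LogSc.cell 2 (n 0) (q ^ (∑ i ∈ Finset.range (j + 1), k i) • u') →
      ‖q ^ k j • (u - u')‖ < (1 / 2 : ℝ) ^ n j := by
    intro j
    induction j with
    | zero =>
      intro u _ u' _ hc
      rw [Finset.sum_range_one] at hc
      have h1 := LogSc.cell_near (by norm_num : 0 < 2) (n 0) (q ^ k 0 • u) (q ^ k 0 • u')
      rw [hc, sub_self, zero_div] at h1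
      rw [smul_sub]
      have h2 : (((0 : ℝ) : ℝ) : LogSc.T) = 0 := by simp
      rw [h2, sub_zero] at h1
      refine lt_of_lt_of_eq h1 ?_
      rw [one_div, inv_pow]
      norm_num
    | succ j ih =>
      intro u hu u' hu' hc
      rw [hUsucc] at hu hu'
      have hc' : LogSc.cell 2 (n 0) (q ^ (∑ i ∈ Finset.range (j + 1), k i) • (q ^ k (j + 1) • u)) =
          LogSc.cell 2 (n 0) (q ^ (∑ i ∈ Finset.range (j + 1), k i) • (q ^ k (j + 1) • u')) := by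
        rw [← mul_smul, ← mul_smul, ← pow_add, ← Finset.sum_range_succ]
        exact hc
      have h1 := ih _ hu.2 _ hu'.2 hc'
      rw [← smul_sub, ← mul_smul, ← pow_add] at h1
      obtain ⟨θ, hθ0, hθ1⟩ := chain_root _ (hqpos (k j + k (j + 1))) _ _ h1
      -- the distance
      have hqr : ∀ i, (2 : ℝ) ^ i ≤ ((q ^ i : ℕ) : ℝ) := fun i => by
        exact_mod_cast Nat.pow_le_pow_left hq2 i
      have hlt : ‖u - u' - θ‖ < (1 / 2 : ℝ) ^ n (j + 1) := by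
        refine lt_of_lt_of_le hθ1 ?_
        rw [div_le_iff₀ (by exact_mod_cast hqpos _), hnk j, pow_add, mul_assoc]
        refine le_mul_of_one_le_right (by positivity) ?_
        calc (1 : ℝ) = (1 / 2 : ℝ) ^ k j * 2 ^ k j := by rw [← mul_pow]; norm_num
          _ ≤ (1 / 2 : ℝ) ^ k j * ((q ^ (k j + k (j + 1)) : ℕ) : ℝ) := by
              refine mul_le_mul_of_nonneg_left ?_ (by positivity)
              exact (pow_le_pow_right₀ (by norm_num) (Nat.le_add_right _ _)).trans (hqr _)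
      have hord : addOrderOf θ ∣ q ^ (k j + k (j + 1)) := addOrderOf_dvd_of_nsmul_eq_zero hθ0
      obtain ⟨t, ht, hto⟩ := (Nat.dvd_prime_pow hq).1 hord
      have htlt : t < t1 j := by
        by_contra hge
        rw [not_lt] at hge
        exact absurd (hsep j t hge ht u hu.1 u' hu'.1 θ hto) (not_le.2 hlt)
      have hθk : q ^ k (j + 1) • θ = 0 := by
        rw [← addOrderOf_dvd_iff_nsmul_eq_zero, hto]
        exact pow_dvd_pow q (htlt.le.trans (hk j))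
      have e : q ^ k (j + 1) • (u - u') = q ^ k (j + 1) • (u - u' - θ) := by
        rw [smul_sub _ (u - u'), hθk, sub_zero]
      rw [e]
      have h3 : ‖q ^ k (j + 1) • (u - u' - θ)‖ ≤ ((q ^ k (j + 1) : ℕ) : ℝ) * ‖u - u' - θ‖ :=
        norm_nsmul_le
      refine lt_of_le_of_lt h3 ?_
      have h4 : ((q ^ k (j + 1) : ℕ) : ℝ) * ‖u - u' - θ‖ <
          ((q ^ k (j + 1) : ℕ) : ℝ) * ((1 / 2 : ℝ) ^ n j / ((q ^ (k j + k (j + 1)) : ℕ) : ℝ)) :=
        mul_lt_mul_of_pos_left hθ1 (by exact_mod_cast hqpos _)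
      refine lt_of_lt_of_le h4 ?_
      have h5 : (0 : ℝ) < ((q ^ k (j + 1) : ℕ) : ℝ) := by exact_mod_cast hqpos _
      have h6 : (0 : ℝ) < ((q ^ k j : ℕ) : ℝ) := by exact_mod_cast hqpos _
      have h7 : ((q ^ k (j + 1) : ℕ) : ℝ) * ((1 / 2 : ℝ) ^ n j / ((q ^ (k j + k (j + 1)) : ℕ) : ℝ)) =
          (1 / 2 : ℝ) ^ n j / ((q ^ k j : ℕ) : ℝ) := by
        rw [pow_add q, Nat.cast_mul]
        field_simp
      rw [h7, div_le_iff₀ h6, hnk j, pow_add, mul_assoc]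
      refine le_mul_of_one_le_right (by positivity) ?_
      calc (1 : ℝ) = (1 / 2 : ℝ) ^ k j * 2 ^ k j := by rw [← mul_pow]; norm_num
        _ ≤ (1 / 2 : ℝ) ^ k j * ((q ^ k j : ℕ) : ℝ) :=
            mul_le_mul_of_nonneg_left (hqr _) (by positivity)
  -- measure
  have hmeas : ∀ j, (1 / 2 : ℝ≥0∞) ≤ μ (U j) := by
    intro j
    have h1 := chain_meas μ q hmp D hD n k j
    have h2 : μ (U j)ᶜ ≤ 1 / 2 := h1.2.trans (hsum j)
    have h3 : (1 : ℝ≥0∞) ≤ μ (U j) + 1 / 2 := by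
      calc (1 : ℝ≥0∞) = μ Set.univ := measure_univ.symm
        _ = μ (U j ∪ (U j)ᶜ) := by rw [Set.union_compl_self]
        _ ≤ μ (U j) + μ (U j)ᶜ := measure_union_le _ _
        _ ≤ μ (U j) + 1 / 2 := add_le_add le_rfl h2
    have h4 : (1 / 2 : ℝ≥0∞) + 1 / 2 = 1 := ENNReal.add_halves 1
    have h5 : (1 / 2 : ℝ≥0∞) + 1 / 2 ≤ μ (U j) + 1 / 2 := h4.le.trans h3
    exact (ENNReal.add_le_add_iff_right (by norm_num)).1 h5
  -- a small ball everywhere
  obtain ⟨C0, hC0⟩ : ∃ C0 : ℕ, C0 = 2 ^ n 0 := ⟨_, rfl⟩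
  have hC0pos : (C0 : ℝ≥0∞) ≠ 0 := by
    have : C0 ≠ 0 := by rw [hC0]; exact (pow_pos (by norm_num) _).ne'
    exact_mod_cast this
  obtain ⟨ε, hε⟩ : ∃ ε : ℝ≥0∞, ε = (1 / 4) / (C0 : ℝ≥0∞) := ⟨_, rfl⟩
  have hεpos : 0 < ε := by
    rw [hε]; exact ENNReal.div_pos (by norm_num) (ENNReal.natCast_ne_top _)
  obtain ⟨δ, hδ, hball⟩ := chain_atom μ hna ε hεpos
  have hnj : ∀ j, j ≤ n j := by
    intro j
    induction j with
    | zero => exact Nat.zero_le _
    | succ j ih => have := hnk j; have := hk1 j; omega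
  obtain ⟨j, hj⟩ : ∃ j, (1 / 2 : ℝ) ^ n j ≤ δ := by
    obtain ⟨j, hj⟩ := exists_pow_lt_of_lt_one hδ (by norm_num : (1 / 2 : ℝ) < 1)
    exact ⟨j, (pow_le_pow_of_le_one (by norm_num) (by norm_num) (hnj j)).trans hj.le⟩
  -- centres
  have hc : ∀ β : ℕ, ∃ c : T, ∀ u ∈ U j,
      LogSc.cell 2 (n 0) (q ^ (∑ i ∈ Finset.range (j + 1), k i) • u) = β →
      q ^ k j • u ∈ Metric.closedBall c δ := by
    intro β
    by_cases hex : ∃ u ∈ U j, LogSc.cell 2 (n 0) (q ^ (∑ i ∈ Finset.range (j + 1), k i) • u) = β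
    · obtain ⟨u0, hu0, hβ⟩ := hex
      refine ⟨q ^ k j • u0, fun u hu h => ?_⟩
      have h1 := hP j u hu u0 hu0 (h.trans hβ.symm)
      rw [Metric.mem_closedBall, dist_eq_norm, ← smul_sub]
      exact h1.le.trans hj
    · exact ⟨0, fun u hu h => absurd ⟨u, hu, h⟩ hex⟩
  choose c hc using hc
  have hcov : U j ⊆ ⋃ β ∈ Finset.range C0,
      (fun x : T => q ^ k j • x) ⁻¹' (Metric.closedBall (c β) δ) := by
    intro u hu
    obtain ⟨β, hβ⟩ : ∃ β, LogSc.cell 2 (n 0) (q ^ (∑ i ∈ Finset.range (j + 1), k i) • u) = β :=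
      ⟨_, rfl⟩
    have h1 : β < C0 := by
      rw [hC0, ← hβ]
      exact LogSc.cell_lt (by norm_num) (n 0) _
    have h2 : u ∈ (fun x : T => q ^ k j • x) ⁻¹' (Metric.closedBall (c β) δ) := hc β u hu hβ
    exact Set.mem_iUnion₂.2 ⟨β, Finset.mem_range.2 h1, h2⟩
  have h1 : μ (U j) ≤ ∑ β ∈ Finset.range C0, ε := by
    refine (measure_mono hcov).trans ((measure_biUnion_finset_le _ _).trans ?_)
    refine Finset.sum_le_sum fun β _ => ?_
    rw [(chain_mp μ q hmp (k j)).measure_preimage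
      Metric.isClosed_closedBall.measurableSet.nullMeasurableSet]
    exact (hball _).le
  rw [Finset.sum_const, Finset.card_range, nsmul_eq_mul, hε,
    ENNReal.mul_div_cancel hC0pos (ENNReal.natCast_ne_top _)] at h1
  have h2 := (hmeas j).trans h1
  have h3 : (1 / 4 : ℝ≥0∞) < 1 / 2 := by
    rw [one_div, one_div]
    exact ENNReal.inv_lt_inv.2 (by norm_num)
  exact absurd h2 (not_le.2 h3)

end Pool.Agent.Half
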