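import Pool.Agent.Half.HDefs
import Pool.Agent.Ord2.Meas
import Pool.Agent.Ord2.Final
import Pool.Agent.Ord2.PolyS

/-! Module DIF. The law of the difference under the limit measure is Lebesgue measure. PROOF: `Ord2.eq_volume` (a
probability measure on the circle whose Fourier coefficients with `m ≠ 0` vanish is `volume`) for `J.map (z.2 - z.1)`; its
coefficient is `∫ fourier m (z.2 - z.1) ∂J`, the limit along `U` of `avgC (G k) (fourier m) (y k - x k)` (real and imaginary
part, `g • y - g • x = g • (y - x)`). -/

open MeasureTheory Filter Topology Set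
open scoped ENNReal

namespace Pool.Agent.Half

theorem dif_law (G : ℕ → Finset (ℕ × ℕ)) (hG : ∀ k, (G k).Nonempty) (x y : ℕ → T) (U : Ultrafilter ℕ)
    (hU : (U : Filter ℕ) ≤ atTop)
    (hd : ∀ m : ℤ, m ≠ 0 → Tendsto (fun k => avgC (G k) (fourier m) (y k - x k)) atTop (𝓝 0))
    (J : Measure (T × T)) [IsProbabilityMeasure J]
    (hJ : ∀ F : C(T × T, ℝ),
      Tendsto (fun k => (∑ p ∈ G k, F (pt (x k) (y k) p)) / ((G k).card : ℝ)) U (𝓝 (∫ z, F z ∂J))) :
    J.map (fun z : T × T => z.2 - z.1) = volume := by
  have hcs : Continuous (fun z : T × T => z.2 - z.1) := continuous_snd.sub continuous_fst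
  have hmeas : Measurable (fun z : T × T => z.2 - z.1) := hcs.measurable
  have : IsProbabilityMeasure (J.map (fun z : T × T => z.2 - z.1)) :=
    Measure.isProbabilityMeasure_map hmeas.aemeasurable
  refine Ord2.eq_volume _ (fun m hm => ?_)
  unfold Ord2.cf
  rw [integral_map hmeas.aemeasurable (fourier m).continuous.aestronglyMeasurable]
  have hcont : Continuous (fun z : T × T => (fourier m (z.2 - z.1) : ℂ)) :=
    (fourier m).continuous.comp hcs
  have hint : Integrable (fun z : T × T => (fourier m (z.2 - z.1) : ℂ)) J :=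
    hcont.integrable_of_hasCompactSupport (HasCompactSupport.of_compactSpace _)
  have hdU := (hd m hm).mono_left hU
  have hsum : ∀ k, (∑ p ∈ G k, (fourier m ((pt (x k) (y k) p).2 - (pt (x k) (y k) p).1) : ℂ))
      / (G k).card = avgC (G k) (fourier m) (y k - x k) := by
    intro k
    unfold avgC pt
    congr 1
    refine Finset.sum_congr rfl (fun p _ => ?_)
    rw [← smul_sub]
  have hre : ∫ z, (fourier m (z.2 - z.1) : ℂ).re ∂J = 0 := by
    have h1 := hJ ⟨fun z : T × T => (fourier m (z.2 - z.1) : ℂ).re, Complex.continuous_re.comp hcont⟩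
    have h2 : Tendsto (fun k => (avgC (G k) (fourier m) (y k - x k)).re) U (𝓝 0) := by
      have := (Complex.continuous_re.tendsto (0 : ℂ)).comp hdU
      simpa [Function.comp_def] using this
    refine tendsto_nhds_unique h1 ?_
    refine h2.congr (fun k => ?_)
    rw [← hsum k, Complex.div_natCast_re, Complex.re_sum]
    rfl
  have him : ∫ z, (fourier m (z.2 - z.1) : ℂ).im ∂J = 0 := by
    have h1 := hJ ⟨fun z : T × T => (fourier m (z.2 - z.1) : ℂ).im, Complex.continuous_im.comp hcont⟩
    have h2 : Tendsto (fun k => (avgC (G k) (fourier m) (y k - x k)).im) U (𝓝 0) := by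
      have := (Complex.continuous_im.tendsto (0 : ℂ)).comp hdU
      simpa [Function.comp_def] using this
    refine tendsto_nhds_unique h1 ?_
    refine h2.congr (fun k => ?_)
    rw [← hsum k, Complex.div_natCast_im, Complex.im_sum]
    rfl
  have hre' := integral_re (𝕜 := ℂ) hint
  have him' := integral_im (𝕜 := ℂ) hint
  apply Complex.ext
  · simpa using hre'.symm.trans hre
  · simpa using him'.symm.trans him

end Pool.Agent.Half
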