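import Pool.Agent.Half.Shift

/-! Module INV. The limit measure is invariant. PROOF: `pt x y (p.1 + 1, p.2) = (2 • ., 2 • .)` of `pt x y p`, so by `shift`
and `Fol` the integrals of `F` and of `F ∘ (2 • ., 2 • .)` agree for every continuous `F`
(`ext_of_forall_integral_eq_of_IsFiniteMeasure` for `J.map _` and `J`; a continuous function on the compact space `T × T` is
bounded). Same for `(0, 1)` and `3`. -/

open MeasureTheory Filter Topology Set
open scoped ENNReal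

namespace Pool.Agent.Half

private theorem inv_cont (m : ℕ) : Continuous (fun z : T × T => (m • z.1, m • z.2)) :=
  (continuous_fst.nsmul m).prodMk (continuous_snd.nsmul m)

private theorem inv_gen (e : ℕ × ℕ) (m : ℕ) (hm : 2 ^ e.1 * 3 ^ e.2 = m) (G : ℕ → Finset (ℕ × ℕ))
    (x y : ℕ → T) (U : Ultrafilter ℕ)
    (hU : (U : Filter ℕ) ≤ atTop) (hF : Fol e G)
    (J : Measure (T × T)) [IsProbabilityMeasure J]
    (hJ : ∀ F : C(T × T, ℝ),
      Tendsto (fun k => (∑ p ∈ G k, F (pt (x k) (y k) p)) / ((G k).card : ℝ)) U (𝓝 (∫ z, F z ∂J))) :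
    MeasurePreserving (fun z : T × T => (m • z.1, m • z.2)) J J := by
  have hmeas : Measurable (fun z : T × T => (m • z.1, m • z.2)) := (inv_cont m).measurable
  refine ⟨hmeas, ?_⟩
  have hfin : IsFiniteMeasure (J.map (fun z : T × T => (m • z.1, m • z.2))) :=
    Measure.isFiniteMeasure_map J _
  refine ext_of_forall_integral_eq_of_IsFiniteMeasure fun f => ?_
  rw [integral_map hmeas.aemeasurable (f.continuous.aestronglyMeasurable)]
  let F : C(T × T, ℝ) := ⟨f, f.continuous⟩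
  let F' : C(T × T, ℝ) := ⟨fun z => f (m • z.1, m • z.2), f.continuous.comp (inv_cont m)⟩
  have h1 : Tendsto (fun k => (∑ p ∈ G k, f (pt (x k) (y k) p)) / ((G k).card : ℝ)) U
      (𝓝 (∫ z, f z ∂J)) := hJ F
  have h2 : Tendsto (fun k => (∑ p ∈ G k, F' (pt (x k) (y k) p)) / ((G k).card : ℝ)) U
      (𝓝 (∫ z, f (m • z.1, m • z.2) ∂J)) := hJ F'
  have h3 := h2.sub h1
  have hb : ∀ k, |(∑ p ∈ G k, F' (pt (x k) (y k) p)) / ((G k).card : ℝ) -
      (∑ p ∈ G k, f (pt (x k) (y k) p)) / ((G k).card : ℝ)| ≤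
        ‖f‖ * (((symmDiff (G k) (sh e (G k))).card : ℝ) / (G k).card) := by
    intro k
    rw [← sub_div, abs_div, Nat.abs_cast, ← mul_div_assoc]
    apply div_le_div_of_nonneg_right _ (Nat.cast_nonneg _)
    have h4 := shift (G k) e (fun p => f (pt (x k) (y k) p)) ‖f‖ (fun p => f.norm_coe_le_norm _)
    have h9 : ∑ p ∈ G k, F' (pt (x k) (y k) p) =
        ∑ p ∈ G k, f (pt (x k) (y k) (p.1 + e.1, p.2 + e.2)) := by
      refine Finset.sum_congr rfl fun p _ => ?_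
      have h5 : 2 ^ (p.1 + e.1) * 3 ^ (p.2 + e.2) = m * (2 ^ p.1 * 3 ^ p.2) := by
        rw [← hm]; ring
      have h10 : pt (x k) (y k) (p.1 + e.1, p.2 + e.2) =
          (m • (pt (x k) (y k) p).1, m • (pt (x k) (y k) p).2) := by
        unfold pt
        simp only
        rw [h5, mul_nsmul' (x k) m (2 ^ p.1 * 3 ^ p.2), mul_nsmul' (y k) m (2 ^ p.1 * 3 ^ p.2)]
      rw [h10]
      rfl
    rw [h9]
    exact h4
  have h6 : Tendsto (fun k => (∑ p ∈ G k, F' (pt (x k) (y k) p)) / ((G k).card : ℝ) -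
      (∑ p ∈ G k, f (pt (x k) (y k) p)) / ((G k).card : ℝ)) U (𝓝 0) := by
    apply squeeze_zero_norm (fun k => hb k)
    have h7 := (hF.mono_left hU).const_mul ‖f‖
    rwa [mul_zero] at h7
  have h8 := tendsto_nhds_unique h3 h6
  linarith

theorem inv_two (G : ℕ → Finset (ℕ × ℕ)) (hG : ∀ k, (G k).Nonempty) (x y : ℕ → T) (U : Ultrafilter ℕ)
    (hU : (U : Filter ℕ) ≤ atTop) (hF : Fol (1, 0) G)
    (J : Measure (T × T)) [IsProbabilityMeasure J]
    (hJ : ∀ F : C(T × T, ℝ),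
      Tendsto (fun k => (∑ p ∈ G k, F (pt (x k) (y k) p)) / ((G k).card : ℝ)) U (𝓝 (∫ z, F z ∂J))) :
    MeasurePreserving (fun z : T × T => ((2 : ℕ) • z.1, (2 : ℕ) • z.2)) J J :=
  inv_gen (1, 0) 2 (by norm_num) G x y U hU hF J hJ

theorem inv_three (G : ℕ → Finset (ℕ × ℕ)) (hG : ∀ k, (G k).Nonempty) (x y : ℕ → T) (U : Ultrafilter ℕ)
    (hU : (U : Filter ℕ) ≤ atTop) (hF : Fol (0, 1) G)
    (J : Measure (T × T)) [IsProbabilityMeasure J]
    (hJ : ∀ F : C(T × T, ℝ),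
      Tendsto (fun k => (∑ p ∈ G k, F (pt (x k) (y k) p)) / ((G k).card : ℝ)) U (𝓝 (∫ z, F z ∂J))) :
    MeasurePreserving (fun z : T × T => ((3 : ℕ) • z.1, (3 : ℕ) • z.2)) J J :=
  inv_gen (0, 1) 3 (by norm_num) G x y U hU hF J hJ

end Pool.Agent.Half
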