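import Pool.Agent.Half.HDefs

/-! Module LIM. Limits of empirical measures along an ultrafilter. PROOF: the measures
`J_k = |G_k|⁻¹ ∑_{p ∈ G_k} δ_{pt x_k y_k p}` are probability measures; `ProbabilityMeasure (T × T)` is a compact space
(`Mathlib/MeasureTheory/Measure/Prokhorov.lean`), so they converge along `U` (`Ultrafilter.le_nhds_lim` or
`isCompact_univ.ultrafilter_le_nhds`); `ProbabilityMeasure.tendsto_iff_forall_integral_tendsto`, and
`∫ F ∂J_k = (∑_{p ∈ G_k} F (pt x_k y_k p)) / |G_k|`. -/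

open MeasureTheory Filter Topology Set
open scoped ENNReal

namespace Pool.Agent.Half

private noncomputable def limM (G : Finset (ℕ × ℕ)) (x y : T) : Measure (T × T) :=
  ((G.card : ℝ≥0∞)⁻¹) • ∑ p ∈ G, Measure.dirac (pt x y p)

private theorem limM_prob {G : Finset (ℕ × ℕ)} (hG : G.Nonempty) (x y : T) :
    IsProbabilityMeasure (limM G x y) := by
  constructor
  unfold limM
  rw [Measure.smul_apply, Measure.finset_sum_apply]
  simp only [measure_univ, Finset.sum_const, smul_eq_mul, nsmul_eq_mul, mul_one]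
  exact ENNReal.inv_mul_cancel (by simpa using hG.ne_empty) (ENNReal.natCast_ne_top _)

private theorem limM_int {G : Finset (ℕ × ℕ)} (x y : T) (F : C(T × T, ℝ)) :
    ∫ z, F z ∂(limM G x y) = (∑ p ∈ G, F (pt x y p)) / (G.card : ℝ) := by
  unfold limM
  rw [integral_smul_measure, integral_finset_sum_measure]
  · simp only [integral_dirac]
    rw [ENNReal.toReal_inv, ENNReal.toReal_natCast, smul_eq_mul, div_eq_inv_mul]
  · intro p _
    exact integrable_dirac (by simp)

theorem lim_emp (G : ℕ → Finset (ℕ × ℕ)) (hG : ∀ k, (G k).Nonempty) (x y : ℕ → T) (U : Ultrafilter ℕ) :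
    ∃ J : Measure (T × T), IsProbabilityMeasure J ∧ ∀ F : C(T × T, ℝ),
      Tendsto (fun k => (∑ p ∈ G k, F (pt (x k) (y k) p)) / ((G k).card : ℝ)) U (𝓝 (∫ z, F z ∂J)) := by
  let P : ℕ → ProbabilityMeasure (T × T) := fun k =>
    ⟨limM (G k) (x k) (y k), limM_prob (hG k) (x k) (y k)⟩
  obtain ⟨J, -, hJ⟩ := (isCompact_univ (X := ProbabilityMeasure (T × T))).ultrafilter_le_nhds
    (U.map P) (by simp)
  refine ⟨(J : Measure (T × T)), J.2, fun F => ?_⟩
  have h1 : Tendsto P U (𝓝 J) := hJ
  rw [ProbabilityMeasure.tendsto_iff_forall_integral_tendsto] at h1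
  have h2 := h1 (BoundedContinuousFunction.mkOfCompact F)
  refine h2.congr fun k => ?_
  exact limM_int (x k) (y k) F

end Pool.Agent.Half
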