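import Pool.Agent.Half.HalfL
import Pool.Agent.Half.Lim
import Pool.Agent.Half.Inv
import Pool.Agent.Half.Dif

/-! Module GEN (section 2). PROOF: otherwise the set of bad `k` (no such `t`) is frequent in `atTop`; take an ultrafilter
`U ≤ atTop` containing it; `lim_emp`, `inv_two`, `inv_three`, `dif_law`, `half_sum` give `J` and `t`; for every `f ∈ F` the
means `avg (G k) f (x k)` tend along `U` to `∫ f z.1 ∂J ≥ t ∫ f`, so they are `≥ t ∫ f - δ` for `U`-many `k`, same for `y`;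
`F` is finite: some bad `k` satisfies everything with this `t`. Contradiction. -/

open MeasureTheory Filter Topology Set
open scoped ENNReal

namespace Pool.Agent.Half

theorem general_sum (G : ℕ → Finset (ℕ × ℕ)) (hG : ∀ k, (G k).Nonempty) (h10 : Fol (1, 0) G)
    (h01 : Fol (0, 1) G) (x y : ℕ → T)
    (hd : ∀ m : ℤ, m ≠ 0 → Tendsto (fun k => avgC (G k) (fourier m) (y k - x k)) atTop (𝓝 0))
    (F : Finset C(T, ℝ)) (hF : ∀ f ∈ F, ∀ z, 0 ≤ f z) (δ : ℝ) (hδ : 0 < δ) :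
    ∀ᶠ k in atTop, ∃ t : ℝ, 0 ≤ t ∧ t ≤ 1 ∧
      (∀ f ∈ F, t * (∫ z, f z ∂(volume : Measure T)) - δ ≤ avg (G k) f (x k)) ∧
      (∀ f ∈ F, (1 - t) * (∫ z, f z ∂(volume : Measure T)) - δ ≤ avg (G k) f (y k)) := by
  by_contra hcon
  have hfr := Filter.not_eventually.1 hcon
  have hne := Filter.frequently_iff_neBot.1 hfr
  set P : ℕ → Prop := fun k => ∃ t : ℝ, 0 ≤ t ∧ t ≤ 1 ∧
      (∀ f ∈ F, t * (∫ z, f z ∂(volume : Measure T)) - δ ≤ avg (G k) f (x k)) ∧
      (∀ f ∈ F, (1 - t) * (∫ z, f z ∂(volume : Measure T)) - δ ≤ avg (G k) f (y k)) with hP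
  obtain ⟨U, hU⟩ := Ultrafilter.exists_le (f := atTop ⊓ 𝓟 {k : ℕ | ¬ P k})
  have hU1 : (U : Filter ℕ) ≤ atTop := hU.trans inf_le_left
  have hU2 : ∀ᶠ k in (U : Filter ℕ), ¬ P k :=
    hU (Filter.mem_inf_of_right (Filter.mem_principal_self _))
  obtain ⟨J, hJp, hJ⟩ := lim_emp G hG x y U
  have h2 := inv_two G hG x y U hU1 h10 J hJ
  have h3 := inv_three G hG x y U hU1 h01 J hJ
  have hdl := dif_law G hG x y U hU1 hd J hJ
  obtain ⟨t, ht0, ht1, hh1, hh2⟩ := half_sum J h2 h3 hdl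
  have hA : ∀ᶠ k in (U : Filter ℕ), ∀ f ∈ F,
      t * (∫ z, f z ∂(volume : Measure T)) - δ ≤ avg (G k) f (x k) := by
    rw [Filter.eventually_all_finset]
    intro f hf
    have h1 := hJ ⟨fun z : T × T => f z.1, f.continuous.comp continuous_fst⟩
    have hlt : t * (∫ z, f z ∂(volume : Measure T)) - δ < ∫ z : T × T, f z.1 ∂J := by
      have := hh1 f (hF f hf)
      linarith
    filter_upwards [h1.eventually_const_lt hlt] with k hk
    exact hk.le
  have hB : ∀ᶠ k in (U : Filter ℕ), ∀ f ∈ F,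
      (1 - t) * (∫ z, f z ∂(volume : Measure T)) - δ ≤ avg (G k) f (y k) := by
    rw [Filter.eventually_all_finset]
    intro f hf
    have h1 := hJ ⟨fun z : T × T => f z.2, f.continuous.comp continuous_snd⟩
    have hlt : (1 - t) * (∫ z, f z ∂(volume : Measure T)) - δ < ∫ z : T × T, f z.2 ∂J := by
      have := hh2 f (hF f hf)
      linarith
    filter_upwards [h1.eventually_const_lt hlt] with k hk
    exact hk.le
  obtain ⟨k, ⟨hk1, hk3⟩, hk2⟩ := ((hA.and hB).and hU2).exists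
  exact hk2 ⟨t, ht0, ht1, hk1, hk3⟩

end Pool.Agent.Half
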