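import Pool.Agent.Half.SepC
import Pool.Agent.Half.GenL
import Pool.Agent.Half.ChainV

/-! Theorem H along sequences, with variable thickness (helper56). -/

open MeasureTheory Filter Topology
open scoped ENNReal

namespace Pool.Agent.Half

/-- points whose box average is at least half Lebesgue, up to `δ`, for the functions of `F` -/
def Lbx (p : ℕ) (F : Finset C(T, ℝ)) (δ : ℝ) (N R : ℕ) : Set T :=
  {x | ∀ f ∈ F, (∫ z, f z ∂(volume : Measure T)) / 2 - δ ≤ avg (bx p N R) f x}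

theorem continuous_avg' (G : Finset (ℕ × ℕ)) (f : C(T, ℝ)) : Continuous fun x => avg G f x := by
  unfold avg
  refine Continuous.div_const ?_ _
  exact continuous_finsetSum _ fun p _ => f.continuous.comp (continuous_const_smul _)

theorem measurable_Lbx (p : ℕ) (F : Finset C(T, ℝ)) (δ : ℝ) (N R : ℕ) :
    MeasurableSet (Lbx p F δ N R) := by
  have : Lbx p F δ N R = ⋂ f ∈ F, {x | (∫ z, f z ∂(volume : Measure T)) / 2 - δ ≤ avg (bx p N R) f x} := by
    ext x
    simp [Lbx]
  rw [this]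
  exact (isClosed_biInter fun f _ => isClosed_le continuous_const (continuous_avg' _ f)).measurableSet

theorem bx_nonempty (p N R : ℕ) (hN : 0 < N) (hR : 0 < R) : (bx p N R).Nonempty := by
  unfold bx
  split_ifs
  · exact (Finset.nonempty_range_iff.2 hN.ne').product (Finset.nonempty_range_iff.2 hR.ne')
  · exact (Finset.nonempty_range_iff.2 hR.ne').product (Finset.nonempty_range_iff.2 hN.ne')

/-- separation, uniform in the thickness -/
theorem separation2 {p q : ℕ} (hpq : PQ p q) {K : ℕ → ℕ} (hK : KorP p q K) (F : Finset C(T, ℝ))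
    (hF : ∀ f ∈ F, ∀ z, 0 ≤ f z) (δ : ℝ) (hδ : 0 < δ) :
    ∃ M : ℕ, ∀ N R, M ≤ N → M ≤ R → 2 * R ≤ N → ∀ t, 2 * R ≤ t → t ≤ K N →
      ∀ x y θ : T, addOrderOf θ = q ^ t → ‖x - y - θ‖ < (1 / 2 : ℝ) ^ (4 * N) →
        ∃ s : ℝ, 0 ≤ s ∧ s ≤ 1 ∧
          (∀ f ∈ F, s * (∫ z, f z ∂(volume : Measure T)) - δ ≤ avg (bx p N R) f x) ∧
          (∀ f ∈ F, (1 - s) * (∫ z, f z ∂(volume : Measure T)) - δ ≤ avg (bx p N R) f y) := by
  by_contra hcon
  push Not at hcon
  choose N R hN0 hR0 hRN t ht1 ht2 x y θ hθ hxy hs using hcon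
  have hRt : Tendsto R atTop atTop := tendsto_atTop_mono hR0 tendsto_id
  have hNt : Tendsto N atTop atTop := tendsto_atTop_mono hN0 tendsto_id
  have h4 : ∀ k, 4 * N k / 4 = N k := fun k => by omega
  obtain ⟨f1, f2⟩ := fol_bx p (fun k => N (k + 1)) (fun k => R (k + 1))
    ((tendsto_add_atTop_iff_nat 1).2 hNt) ((tendsto_add_atTop_iff_nat 1).2 hRt)
  have hne : ∀ k, (bx p (N (k + 1)) (R (k + 1))).Nonempty := by
    intro k
    have h1 := hR0 (k + 1)
    have h2 := hN0 (k + 1)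
    exact bx_nonempty _ _ _ (by omega) (by omega)
  have hd0 := fun (m : ℤ) (hm : m ≠ 0) => sep_char hpq hK (fun k => 4 * N k) R t x y θ hRt
    (fun k => by have := hRN k; omega) (fun k => ⟨ht1 k, by rw [h4]; exact ht2 k⟩) hθ hxy m hm
  have hd : ∀ m : ℤ, m ≠ 0 → Tendsto (fun k => avgC (bx p (N (k + 1)) (R (k + 1))) (fourier m)
      (y (k + 1) - x (k + 1))) atTop (𝓝 0) := by
    intro m hm
    have h := hd0 m hm
    simp only [h4] at h
    exact (tendsto_add_atTop_iff_nat (f := fun k => avgC (bx p (N k) (R k)) (fourier m) (y k - x k)) 1).2 h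
  have hgen := general_sum (fun k => bx p (N (k + 1)) (R (k + 1))) hne f1 f2
    (fun k => x (k + 1)) (fun k => y (k + 1)) hd F hF δ hδ
  obtain ⟨k, s, hs0, hs1, hk1, hk2⟩ := hgen.exists
  obtain ⟨f, hf, h1⟩ := hs (k + 1) s hs0 hs1 hk1
  exact absurd (hk2 f hf) (not_le.2 h1)

/-- thinning of a sequence of scales -/
theorem thin (N R : ℕ → ℕ) (hN : StrictMono N) (j0 : ℕ) :
    ∃ σ : ℕ → ℕ, σ 0 = j0 ∧ StrictMono σ ∧ (∀ i, N (σ i) + R (σ i) ≤ N (σ (i + 1))) ∧
      ∀ i, σ (i + 1) - 1 = σ i ∨ N (σ (i + 1) - 1) < N (σ i) + R (σ i) := by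
  have hex : ∀ j, ∃ j', j < j' ∧ N j + R j ≤ N j' := by
    intro j
    refine ⟨j + 1 + R j, by omega, ?_⟩
    have h1 := hN.add_le_nat (1 + R j) j
    have h2 : 1 + R j + j = j + 1 + R j := by ring
    rw [h2] at h1
    omega
  classical
  set nx : ℕ → ℕ := fun j => Nat.find (hex j) with hnx
  refine ⟨fun i => nx^[i] j0, rfl, ?_, ?_, ?_⟩
  · refine strictMono_nat_of_lt_succ fun i => ?_
    rw [Function.iterate_succ_apply']
    exact (Nat.find_spec (hex (nx^[i] j0))).1
  · intro i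
    simp only [Function.iterate_succ_apply']
    exact (Nat.find_spec (hex (nx^[i] j0))).2
  · intro i
    simp only [Function.iterate_succ_apply']
    set j := nx^[i] j0
    have h1 : j < nx j := (Nat.find_spec (hex j)).1
    rcases Nat.lt_or_ge j (nx j - 1) with h | h
    · right
      have h2 := Nat.find_min (hex j) (m := nx j - 1) (by change nx j - 1 < nx j; omega)
      push Not at h2
      exact h2 h
    · left
      omega

theorem boxes_seq {p q : ℕ} (hpq : PQ p q) {K : ℕ → ℕ} (hK : KorP p q K) (hKm : Monotone K)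
    (hK2 : ∀ᶠ N in atTop, K (2 * N) ≤ 2 * K N) (hKle : ∀ᶠ N in atTop, K N ≤ N)
    (μ : Measure T) [IsProbabilityMeasure μ] (hna : ∀ x, μ {x} = 0)
    (hmp : MeasurePreserving (fun x : T => q • x) μ μ) (F : Finset C(T, ℝ))
    (hF : ∀ f ∈ F, ∀ z, 0 ≤ f z) (δ : ℝ) (hδ : 0 < δ) :
    ∃ R0 : ℕ, ∀ N R : ℕ → ℕ, StrictMono N → (∀ᶠ j in atTop, R0 ≤ R j) →
      (∀ᶠ j in atTop, 32 * R j ≤ K (N j)) → (∀ᶠ j in atTop, 32 * (N (j + 1) - N j) ≤ K (N j)) →
      ¬ Summable fun j : ℕ => μ.real (Lbx p F δ (N j) (R j)) := by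
  obtain ⟨M, hM⟩ := separation2 hpq hK F hF δ hδ
  refine ⟨max M 1, fun N R hN hR hRK hgap hS => ?_⟩
  have hNt : Tendsto N atTop atTop := hN.tendsto_atTop
  -- start of the chain
  set g : ℕ → ℝ := fun j => μ.real (Lbx p F δ (N j) (R j)) with hg
  have hg0 : ∀ j, 0 ≤ g j := fun j => measureReal_nonneg
  have htail := tendsto_sum_nat_add g
  have hsmall : ∀ᶠ i in atTop, ∑' j, g (j + i) ≤ 1 / 2 := by
    filter_upwards [htail.eventually (gt_mem_nhds (show (0 : ℝ) < 1 / 2 by norm_num))] with i hi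
    exact hi.le
  obtain ⟨j0, hj0⟩ := eventually_atTop.1 (hsmall.and (hR.and (hRK.and (hgap.and
    ((hNt.eventually hK2).and ((hNt.eventually hKle).and (hNt.eventually_ge_atTop M)))))))
  obtain ⟨σ, hσ0, hσm, hσ1, hσ2⟩ := thin N R hN j0
  have hσge : ∀ i, j0 ≤ σ i := fun i => by rw [← hσ0]; exact hσm.monotone (Nat.zero_le i)
  have hfacts : ∀ j, j0 ≤ j → max M 1 ≤ R j ∧ 32 * R j ≤ K (N j) ∧ 32 * (N (j + 1) - N j) ≤ K (N j) ∧
      K (2 * N j) ≤ 2 * K (N j) ∧ K (N j) ≤ N j ∧ M ≤ N j := fun j hj => (hj0 j hj).2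
  have hNσ : ∀ i, N (σ i) < N (σ (i + 1)) := fun i => hN (hσm (Nat.lt_succ_self i))
  -- the gaps
  have hk : ∀ i, 4 * (N (σ (i + 1)) - N (σ i)) ≤ K (N (σ i)) / 2 := by
    intro i
    have f1 := hfacts (σ i) (hσge i)
    have h3 : σ i ≤ σ (i + 1) - 1 := by
      have := hσm (Nat.lt_succ_self i)
      simp only [Nat.succ_eq_add_one] at this
      omega
    have h4 : σ (i + 1) - 1 + 1 = σ (i + 1) := by
      have := hσm (Nat.lt_succ_self i)
      simp only [Nat.succ_eq_add_one] at this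
      omega
    have f2 := hfacts (σ (i + 1) - 1) ((hσge i).trans h3)
    rw [h4] at f2
    rcases hσ2 i with h | h
    · rw [h] at f2
      omega
    · have h5 : N (σ (i + 1) - 1) ≤ 2 * N (σ i) := by omega
      have h6 : K (N (σ (i + 1) - 1)) ≤ 2 * K (N (σ i)) := (hKm h5).trans f1.2.2.2.1
      omega
  refine chainV μ hna q ?_ hmp (fun i => (Lbx p F δ (N (σ i)) (R (σ i)))ᶜ)
    (fun i => (measurable_Lbx p F δ _ _).compl) (fun i => 4 * N (σ i))
    (fun i => 4 * (N (σ (i + 1)) - N (σ i))) ?_ (fun i => 2 * R (σ (i + 1))) ?_ ?_ ?_ ?_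
  · rcases hpq with ⟨_, rfl⟩ | ⟨_, rfl⟩
    · exact Nat.prime_three
    · exact Nat.prime_two
  · intro i
    have := hNσ i
    omega
  · intro i
    have := hNσ i
    omega
  · intro i
    have := hσ1 (i + 1)
    omega
  · intro i t ht1 ht2 x hx y hy θ hθ
    by_contra hlt
    push Not at hlt
    have f1 := hfacts (σ (i + 1)) (hσge _)
    have f2 := hk i
    have f3 := hk (i + 1)
    have f4 : K (N (σ i)) ≤ K (N (σ (i + 1))) := hKm (hNσ i).le
    obtain ⟨s, hs0, hs1, k1, k2⟩ := hM (N (σ (i + 1))) (R (σ (i + 1))) f1.2.2.2.2.2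
      ((le_max_left _ _).trans f1.1) (by omega) t ht1 (by omega) x y θ hθ hlt
    have hint : ∀ f ∈ F, 0 ≤ ∫ z, f z ∂(volume : Measure T) := fun f hf => integral_nonneg (hF f hf)
    rcases le_total (1 / 2) s with hs | hs
    · apply hx
      intro f hf
      have h2 := k1 f hf
      have h3 := hint f hf
      nlinarith
    · apply hy
      intro f hf
      have h2 := k2 f hf
      have h3 := hint f hf
      nlinarith
  · intro J
    have h1 : ∑ i ∈ Finset.range J, μ ((Lbx p F δ (N (σ (i + 1))) (R (σ (i + 1))))ᶜ)ᶜ =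
        ENNReal.ofReal (∑ i ∈ Finset.range J, g (σ (i + 1))) := by
      rw [ENNReal.ofReal_sum_of_nonneg (fun _ _ => hg0 _)]
      refine Finset.sum_congr rfl fun j _ => ?_
      rw [compl_compl]
      exact (ofReal_measureReal (measure_ne_top _ _)).symm
    rw [h1]
    have h2 : ∑ i ∈ Finset.range J, g (σ (i + 1)) ≤ ∑' j, g (j + j0) := by
      have h3 : ∑ i ∈ Finset.range J, g (σ (i + 1)) =
          ∑ i ∈ (Finset.range J).image (fun i => σ (i + 1) - j0), g (i + j0) := by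
        rw [Finset.sum_image]
        · refine Finset.sum_congr rfl fun i _ => ?_
          rw [Nat.sub_add_cancel (hσge _)]
        · intro a _ b _ hab
          have ha := hσge (a + 1)
          have hb := hσge (b + 1)
          have h5 : σ (a + 1) = σ (b + 1) := by
            simp only at hab
            omega
          have := hσm.injective h5
          omega
      rw [h3]
      exact ((summable_nat_add_iff j0).2 hS).sum_le_tsum _ (fun i _ => hg0 _)
    have h5 := ENNReal.ofReal_le_ofReal (h2.trans (hj0 j0 le_rfl).1)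
    refine h5.trans ?_
    rw [ENNReal.ofReal_div_of_pos (by norm_num)]
    simp

end Pool.Agent.Half
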