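import Pool.Agent.Half.Dec
import Pool.Agent.LogSc.Uniq
import Pool.Agent.Half.BoxK

/-! Chebyshev's inequality for the means of a continuous function in terms of the means of characters; a measure
different from Lebesgue measure (helper56). -/

open MeasureTheory Filter Topology
open scoped ENNReal

namespace Pool.Agent.Half

theorem CV_int (μ : Measure T) [IsFiniteMeasure μ] {f : T → ℂ} (hf : Continuous f) : Integrable f μ :=
  hf.integrable_of_hasCompactSupport (HasCompactSupport.of_compactSpace _)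

theorem CV_intr (μ : Measure T) [IsFiniteMeasure μ] {f : T → ℝ} (hf : Continuous f) : Integrable f μ :=
  hf.integrable_of_hasCompactSupport (HasCompactSupport.of_compactSpace _)

theorem continuous_avgC (G : Finset (ℕ × ℕ)) {f : T → ℂ} (hf : Continuous f) : Continuous fun x => avgC G f x := by
  unfold avgC
  refine Continuous.div_const ?_ _
  exact continuous_finsetSum _ fun p _ => hf.comp (continuous_const_smul _)

/-- square deviation of the mean of a character -/
noncomputable def Va (μ : Measure T) (G : Finset (ℕ × ℕ)) (m : ℤ) : ℝ :=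
  ∫ x, ‖avgC G (fourier m) x - Ord2.cf μ m‖ ^ 2 ∂μ

theorem Va_nonneg (μ : Measure T) (G : Finset (ℕ × ℕ)) (m : ℤ) : 0 ≤ Va μ G m :=
  integral_nonneg fun _ => by positivity

theorem avgC_sum (G : Finset (ℕ × ℕ)) {ι : Type*} (s : Finset ι) (a : ι → ℂ) (f : ι → T → ℂ) (x : T) :
    avgC G (fun z => ∑ i ∈ s, a i * f i z) x = ∑ i ∈ s, a i * avgC G (f i) x := by
  unfold avgC
  rw [Finset.sum_comm, Finset.sum_div]
  apply Finset.sum_congr rfl
  intro i _
  rw [← Finset.mul_sum, mul_div_assoc]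

theorem avgC_close (G : Finset (ℕ × ℕ)) (f g : T → ℂ) (ε : ℝ) (hε : 0 ≤ ε)
    (h : ∀ z, ‖f z - g z‖ ≤ ε) (x : T) : ‖avgC G f x - avgC G g x‖ ≤ ε := by
  rcases Finset.eq_empty_or_nonempty G with rfl | hG
  · simpa [avgC] using hε
  · have hc : (0 : ℝ) < G.card := by exact_mod_cast hG.card_pos
    unfold avgC
    rw [← sub_div, norm_div, Complex.norm_natCast, div_le_iff₀ hc, ← Finset.sum_sub_distrib]
    refine (norm_sum_le _ _).trans ?_
    refine (Finset.sum_le_card_nsmul _ _ ε fun p _ => h _).trans ?_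
    rw [nsmul_eq_mul, mul_comm]

theorem avgC_ofReal (G : Finset (ℕ × ℕ)) (f : T → ℝ) (x : T) : avgC G (fun z => (f z : ℂ)) x = (avg G f x : ℂ) := by
  unfold avgC avg
  push_cast
  rfl

/-- **Chebyshev's inequality.** -/
theorem cheb (f : C(T, ℝ)) (δ : ℝ) (hδ : 0 < δ) : ∃ (M : ℕ) (C : ℝ), 0 < C ∧
    ∀ (μ : Measure T) [IsProbabilityMeasure μ] (G : Finset (ℕ × ℕ)),
      μ.real {x | δ ≤ |avg G f x - ∫ z, f z ∂μ|} ≤ C * ∑ m ∈ Finset.Icc (-(M : ℤ)) M, Va μ G m := by
  set F : C(T, ℂ) := ⟨fun x => ((f x : ℝ) : ℂ), Complex.continuous_ofReal.comp f.continuous⟩ with hF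
  have hcl : F ∈ (Submodule.span ℂ (Set.range (@fourier 1))).topologicalClosure := by
    have : Fact ((0 : ℝ) < 1) := ⟨one_pos⟩
    rw [span_fourier_closure_eq_top]
    trivial
  rw [← SetLike.mem_coe, Submodule.topologicalClosure_coe, Metric.mem_closure_iff] at hcl
  obtain ⟨g, hg, hfg⟩ := hcl (δ / 4) (by positivity)
  rw [SetLike.mem_coe, Finsupp.mem_span_range_iff_exists_finsupp] at hg
  obtain ⟨a, rfl⟩ := hg
  set g : C(T, ℂ) := a.sum fun i c => c • fourier i with hgdef
  have hgx : ∀ z, g z = ∑ i ∈ a.support, a i * fourier i z := by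
    intro z
    rw [hgdef, Finsupp.sum, ContinuousMap.sum_apply]
    rfl
  have hclose : ∀ z, ‖((f z : ℝ) : ℂ) - g z‖ ≤ δ / 4 := by
    intro z
    have h1 := ContinuousMap.norm_coe_le_norm (F - g) z
    rw [dist_eq_norm] at hfg
    have h2 : (F - g) z = ((f z : ℝ) : ℂ) - g z := rfl
    rw [h2] at h1
    linarith
  obtain ⟨M, hM⟩ : ∃ M : ℕ, ∀ i ∈ a.support, i ∈ Finset.Icc (-(M : ℤ)) M := by
    refine ⟨∑ i ∈ a.support, i.natAbs, fun i hi => ?_⟩
    have h1 : i.natAbs ≤ ∑ i ∈ a.support, i.natAbs :=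
      Finset.single_le_sum (f := fun i : ℤ => i.natAbs) (fun _ _ => Nat.zero_le _) hi
    rw [Finset.mem_Icc]
    omega
  set A : ℝ := ∑ i ∈ a.support, ‖a i‖ ^ 2 with hA
  have hA0 : 0 ≤ A := Finset.sum_nonneg fun _ _ => by positivity
  refine ⟨M, (4 / δ ^ 2) * (A + 1), by positivity, fun μ hμ G => ?_⟩
  set W : T → ℝ := fun x => ∑ m ∈ Finset.Icc (-(M : ℤ)) M, ‖avgC G (fourier m) x - Ord2.cf μ m‖ ^ 2 with hW
  have hWc : Continuous W := by
    refine continuous_finsetSum _ fun m _ => ?_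
    exact (((continuous_avgC G (fourier m).continuous).sub continuous_const).norm).pow 2
  have hW0 : ∀ x, 0 ≤ W x := fun x => Finset.sum_nonneg fun _ _ => by positivity
  have hWi : ∫ x, W x ∂μ = ∑ m ∈ Finset.Icc (-(M : ℤ)) M, Va μ G m := by
    have hi : ∀ m ∈ Finset.Icc (-(M : ℤ)) M,
        Integrable (fun x => ‖avgC G (fourier m) x - Ord2.cf μ m‖ ^ 2) μ := by
      intro m _
      have hc : Continuous fun x => ‖avgC G (fourier m) x - Ord2.cf μ m‖ ^ 2 :=
        (((continuous_avgC G (fourier m).continuous).sub continuous_const).norm).pow 2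
      exact CV_intr μ hc
    exact integral_finsetSum _ hi
  have key : ∀ x, δ ≤ |avg G f x - ∫ z, f z ∂μ| → δ ^ 2 / (4 * (A + 1)) ≤ W x := by
    intro x hx
    have e1 : ((avg G f x - ∫ z, f z ∂μ : ℝ) : ℂ) =
        avgC G (fun z => ((f z : ℝ) : ℂ)) x - ∫ z, ((f z : ℝ) : ℂ) ∂μ := by
      rw [avgC_ofReal, integral_complex_ofReal]
      push_cast
      rfl
    have e2 : ‖avgC G (fun z => ((f z : ℝ) : ℂ)) x - avgC G g x‖ ≤ δ / 4 :=
      avgC_close G _ _ _ (by positivity) hclose x
    have e3 : ‖(∫ z, ((f z : ℝ) : ℂ) ∂μ) - ∫ z, g z ∂μ‖ ≤ δ / 4 := by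
      have c1 : Continuous fun z => ((f z : ℝ) : ℂ) := Complex.continuous_ofReal.comp f.continuous
      rw [← integral_sub (CV_int μ c1) (CV_int μ g.continuous)]
      have h1 := norm_integral_le_of_norm_le_const (μ := μ) (C := δ / 4)
        (f := fun z => ((f z : ℝ) : ℂ) - g z) (Eventually.of_forall hclose)
      simpa using h1
    have e4 : avgC G g x - ∫ z, g z ∂μ = ∑ i ∈ a.support, a i * (avgC G (fourier i) x - Ord2.cf μ i) := by
      have h1 : avgC G g x = ∑ i ∈ a.support, a i * avgC G (fourier i) x := by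
        rw [← avgC_sum]
        congr 1
        funext z
        exact hgx z
      have h2 : ∫ z, g z ∂μ = ∑ i ∈ a.support, a i * Ord2.cf μ i := by
        simp only [hgx]
        have hi : ∀ i ∈ a.support, Integrable (fun z => a i * (fourier i z : ℂ)) μ := by
          intro i _
          have hc : Continuous fun z : T => a i * (fourier i z : ℂ) := continuous_const.mul (fourier i).continuous
          exact CV_int μ hc
        rw [integral_finsetSum _ hi]
        apply Finset.sum_congr rfl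
        intro i _
        rw [integral_const_mul]
        rfl
      rw [h1, h2, ← Finset.sum_sub_distrib]
      apply Finset.sum_congr rfl
      intro i _
      ring
    have e5 : δ / 2 ≤ ‖avgC G g x - ∫ z, g z ∂μ‖ := by
      have h1 : |avg G f x - ∫ z, f z ∂μ| = ‖((avg G f x - ∫ z, f z ∂μ : ℝ) : ℂ)‖ := by
        rw [Complex.norm_real, Real.norm_eq_abs]
      rw [h1, e1] at hx
      have h2 : avgC G (fun z => ((f z : ℝ) : ℂ)) x - ∫ z, ((f z : ℝ) : ℂ) ∂μ =
          (avgC G (fun z => ((f z : ℝ) : ℂ)) x - avgC G g x) + (avgC G g x - ∫ z, g z ∂μ) -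
            ((∫ z, ((f z : ℝ) : ℂ) ∂μ) - ∫ z, g z ∂μ) := by ring
      rw [h2] at hx
      have h3 := norm_sub_le ((avgC G (fun z => ((f z : ℝ) : ℂ)) x - avgC G g x) + (avgC G g x - ∫ z, g z ∂μ))
        ((∫ z, ((f z : ℝ) : ℂ) ∂μ) - ∫ z, g z ∂μ)
      have h4 := norm_add_le (avgC G (fun z => ((f z : ℝ) : ℂ)) x - avgC G g x) (avgC G g x - ∫ z, g z ∂μ)
      linarith
    have e6 : ‖avgC G g x - ∫ z, g z ∂μ‖ ^ 2 ≤ A * W x := by
      rw [e4]
      have h1 : ‖∑ i ∈ a.support, a i * (avgC G (fourier i) x - Ord2.cf μ i)‖ ≤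
          ∑ i ∈ a.support, ‖a i‖ * ‖avgC G (fourier i) x - Ord2.cf μ i‖ := by
        refine (norm_sum_le _ _).trans (le_of_eq ?_)
        apply Finset.sum_congr rfl
        intro i _
        rw [norm_mul]
      have h2 := Finset.sum_mul_sq_le_sq_mul_sq a.support (fun i => ‖a i‖)
        (fun i => ‖avgC G (fourier i) x - Ord2.cf μ i‖)
      have h3 : ∑ i ∈ a.support, ‖avgC G (fourier i) x - Ord2.cf μ i‖ ^ 2 ≤ W x :=
        Finset.sum_le_sum_of_subset_of_nonneg hM fun _ _ _ => by positivity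
      calc ‖∑ i ∈ a.support, a i * (avgC G (fourier i) x - Ord2.cf μ i)‖ ^ 2
          ≤ (∑ i ∈ a.support, ‖a i‖ * ‖avgC G (fourier i) x - Ord2.cf μ i‖) ^ 2 :=
            pow_le_pow_left₀ (norm_nonneg _) h1 2
        _ ≤ A * ∑ i ∈ a.support, ‖avgC G (fourier i) x - Ord2.cf μ i‖ ^ 2 := h2
        _ ≤ A * W x := mul_le_mul_of_nonneg_left h3 hA0
    have e7 : (δ / 2) ^ 2 ≤ ‖avgC G g x - ∫ z, g z ∂μ‖ ^ 2 := pow_le_pow_left₀ (by positivity) e5 2
    rw [div_le_iff₀ (by positivity)]
    have := hW0 x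
    nlinarith
  have hmark : (δ ^ 2 / (4 * (A + 1))) * μ.real {x | δ ^ 2 / (4 * (A + 1)) ≤ W x} ≤ ∫ x, W x ∂μ :=
    mul_meas_ge_le_integral_of_nonneg (Eventually.of_forall hW0) (CV_intr μ hWc) _
  have hsub : μ.real {x | δ ≤ |avg G f x - ∫ z, f z ∂μ|} ≤ μ.real {x | δ ^ 2 / (4 * (A + 1)) ≤ W x} :=
    measureReal_mono (fun x hx => key x hx)
  rw [hWi] at hmark
  have hc : 0 < δ ^ 2 / (4 * (A + 1)) := by positivity
  have h5 : μ.real {x | δ ^ 2 / (4 * (A + 1)) ≤ W x} ≤
      (4 / δ ^ 2) * (A + 1) * ∑ m ∈ Finset.Icc (-(M : ℤ)) M, Va μ G m := by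
    have h6 : (4 / δ ^ 2) * (A + 1) = (δ ^ 2 / (4 * (A + 1)))⁻¹ := by
      rw [inv_div]
      ring
    rw [h6, inv_mul_eq_div, le_div_iff₀ hc, mul_comm]
    exact hmark
  exact hsub.trans h5

/-- A measure which has Lebesgue measure as a component: the square deviations do not tend to zero. -/
theorem Va_lower {μ : Measure T} [IsProbabilityMeasure μ] {a : ℝ≥0∞} (ha : a • (volume : Measure T) ≤ μ)
    (G : Finset (ℕ × ℕ)) (m : ℤ) (hm : m ≠ 0) : a.toReal * ‖Ord2.cf μ m‖ ^ 2 ≤ Va μ G m := by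
  set c := Ord2.cf μ m with hc
  set g : T → ℂ := fun x => avgC G (fourier m) x with hg
  have hgc : Continuous g := continuous_avgC G (fourier m).continuous
  have hcont : Continuous fun x => ‖g x - c‖ ^ 2 := ((hgc.sub continuous_const).norm).pow 2
  have h1 : ∫ x, ‖g x - c‖ ^ 2 ∂(a • (volume : Measure T)) ≤ ∫ x, ‖g x - c‖ ^ 2 ∂μ :=
    integral_mono_measure ha (Eventually.of_forall fun _ => by positivity) (CV_intr μ hcont)
  rw [integral_smul_measure, smul_eq_mul] at h1
  have hg0 : ∫ x, g x ∂(volume : Measure T) = 0 := by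
    have e1 : ∀ x, g x = (∑ p ∈ G, fourier (m * ((2 ^ p.1 * 3 ^ p.2 : ℕ) : ℤ)) x) / (G.card : ℂ) := by
      intro x
      rw [hg]
      simp only [avgC]
      congr 1
      apply Finset.sum_congr rfl
      intro p _
      rw [Ord2.fourier_nsmul']
    simp only [e1]
    rw [integral_div, integral_finsetSum _ fun p _ => CV_int _ (fourier _).continuous]
    have e2 : ∀ p ∈ G, ∫ x, fourier (m * ((2 ^ p.1 * 3 ^ p.2 : ℕ) : ℤ)) x ∂(volume : Measure T) = 0 := by
      intro p _
      apply integral_eq_zero_of_add_right_eq_neg (μ := (volume : Measure (AddCircle (1 : ℝ))))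
        (fourier_add_half_inv_index _ (Fact.out : (0 : ℝ) < 1))
      apply mul_ne_zero hm
      exact_mod_cast (by positivity : 2 ^ p.1 * 3 ^ p.2 ≠ 0)
    rw [Finset.sum_eq_zero e2, zero_div]
  have h2 : ‖c‖ ^ 2 ≤ ∫ x, ‖g x - c‖ ^ 2 ∂(volume : Measure T) := by
    have e1 : ∀ x, ‖c‖ ^ 2 - 2 * (g x * (starRingEnd ℂ) c).re ≤ ‖g x - c‖ ^ 2 := by
      intro x
      have e2 : ‖g x - c‖ ^ 2 = ‖g x‖ ^ 2 + ‖c‖ ^ 2 - 2 * (g x * (starRingEnd ℂ) c).re := by
        rw [← Complex.normSq_eq_norm_sq, ← Complex.normSq_eq_norm_sq, ← Complex.normSq_eq_norm_sq,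
          Complex.normSq_sub]
      rw [e2]
      have : 0 ≤ ‖g x‖ ^ 2 := by positivity
      linarith
    have c1 : Continuous fun x => g x * (starRingEnd ℂ) c := hgc.mul continuous_const
    have c2 : Continuous fun x => (g x * (starRingEnd ℂ) c).re := Complex.continuous_re.comp c1
    have i1 : ∫ x, (‖c‖ ^ 2 - 2 * (g x * (starRingEnd ℂ) c).re) ∂(volume : Measure T) ≤
        ∫ x, ‖g x - c‖ ^ 2 ∂(volume : Measure T) :=
      integral_mono ((integrable_const _).sub ((CV_intr _ c2).const_mul _)) (CV_intr _ hcont) e1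
    have i2 : ∫ x, (g x * (starRingEnd ℂ) c).re ∂(volume : Measure T) = 0 := by
      have h3 := integral_re (CV_int (volume : Measure T) c1)
      have h4 : ∫ x, g x * (starRingEnd ℂ) c ∂(volume : Measure T) = 0 := by
        rw [integral_mul_const, hg0, zero_mul]
      rw [h4] at h3
      simpa using h3
    rw [integral_sub (integrable_const _) ((CV_intr _ c2).const_mul _), integral_const_mul, i2,
      integral_const] at i1
    simp only [mul_zero, sub_zero] at i1
    have e3 : (volume : Measure T).real Set.univ = 1 := by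
      simp [Measure.real, AddCircle.measure_univ]
    rw [e3, one_smul] at i1
    exact i1
  calc a.toReal * ‖c‖ ^ 2 ≤ a.toReal * ∫ x, ‖g x - c‖ ^ 2 ∂(volume : Measure T) :=
        mul_le_mul_of_nonneg_left h2 ENNReal.toReal_nonneg
    _ ≤ _ := h1

/-- An invariant measure different from Lebesgue measure either has a Lebesgue component and a nonzero coefficient, or is
separated from Lebesgue measure by a nonnegative function. -/
theorem dicho {μ : Measure T} [IsProbabilityMeasure μ]
    (h2 : MeasurePreserving (fun x : T => (2 : ℕ) • x) μ μ)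
    (h3 : MeasurePreserving (fun x : T => (3 : ℕ) • x) μ μ) (hne : μ ≠ volume) :
    (∃ (m : ℤ) (ε : ℝ), 0 < ε ∧ ∀ G : Finset (ℕ × ℕ), ε ≤ Va μ G m) ∨
    ∃ (f : C(T, ℝ)) (δ : ℝ), (∀ z, 0 ≤ f z) ∧ 0 < δ ∧
      (∫ z, f z ∂μ) + 2 * δ ≤ (∫ z, f z ∂(volume : Measure T)) / 2 := by
  obtain ⟨S, hS, -, -, hvS, hdec, -⟩ := dec μ h2 h3
  by_cases ha : μ Sᶜ = 0
  · right
    -- compact part of `S` and an open neighbourhood
    have hμS : μ S = 1 := by
      have := prob_add_prob_compl (μ := μ) hS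
      rw [ha, add_zero] at this
      exact this
    obtain ⟨K, hKS, hK, hμK⟩ := hS.exists_isCompact_lt_add (μ := μ) (by rw [hμS]; exact ENNReal.one_ne_top)
      (ε := 1 / 8) (by norm_num)
    obtain ⟨U, hSU, hU, hvU⟩ := S.exists_isOpen_lt_add (μ := (volume : Measure T))
      (by rw [hvS]; exact ENNReal.zero_ne_top) (ε := 1 / 8) (by norm_num)
    rw [hvS, zero_add] at hvU
    rw [hμS] at hμK
    have hdis : Disjoint K Uᶜ := by
      rw [Set.disjoint_compl_right_iff_subset]
      exact hKS.trans hSU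
    obtain ⟨f, hf0, hf1, hf⟩ := exists_continuous_zero_one_of_isClosed hK.isClosed hU.isClosed_compl hdis
    refine ⟨f, 1 / 8, fun z => (hf z).1, by norm_num, ?_⟩
    have hI1 : ∫ z, f z ∂μ ≤ μ.real Kᶜ := by
      have e1 : ∫ z, f z ∂μ ≤ ∫ z, Kᶜ.indicator (fun _ => (1 : ℝ)) z ∂μ := by
        apply integral_mono (CV_intr μ f.continuous) ((integrable_const _).indicator hK.measurableSet.compl)
        intro z
        by_cases hz : z ∈ K
        · have : f z = 0 := hf0 hz
          simp only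
          rw [this, Set.indicator_of_notMem (by simpa using hz)]
        · simp only
          rw [Set.indicator_of_mem (by simpa using hz)]
          exact (hf z).2
      rwa [integral_indicator_const _ hK.measurableSet.compl, smul_eq_mul, mul_one] at e1
    have hK8 : μ.real Kᶜ ≤ 1 / 8 := by
      have e1 : μ Kᶜ ≤ 1 / 8 := by
        rw [prob_compl_eq_one_sub hK.measurableSet]
        rw [tsub_le_iff_left]
        exact hμK.le
      have e2 := ENNReal.toReal_mono (by norm_num) e1
      simpa [Measure.real] using e2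
    have hI2 : (volume : Measure T).real Uᶜ ≤ ∫ z, f z ∂(volume : Measure T) := by
      have e1 : ∫ z, Uᶜ.indicator (fun _ => (1 : ℝ)) z ∂(volume : Measure T) ≤ ∫ z, f z ∂(volume : Measure T) := by
        apply integral_mono ((integrable_const _).indicator hU.measurableSet.compl) (CV_intr _ f.continuous)
        intro z
        by_cases hz : z ∈ Uᶜ
        · have : f z = 1 := hf1 hz
          simp only
          rw [this, Set.indicator_of_mem hz]
        · simp only
          rw [Set.indicator_of_notMem hz]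
          exact (hf z).1
      rwa [integral_indicator_const _ hU.measurableSet.compl, smul_eq_mul, mul_one] at e1
    have hU8 : 7 / 8 ≤ (volume : Measure T).real Uᶜ := by
      have e0 : (volume : Measure T).real Set.univ = 1 := by
        simp [Measure.real, AddCircle.measure_univ]
      have e1 : (volume : Measure T).real U ≤ 1 / 8 := by
        have e2 := ENNReal.toReal_mono (by norm_num) hvU.le
        simpa [Measure.real] using e2
      rw [measureReal_compl hU.measurableSet, e0]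
      linarith
    linarith
  · left
    have hle : μ Sᶜ • (volume : Measure T) ≤ μ := by
      conv_rhs => rw [hdec]
      exact Measure.le_add_right le_rfl
    have hex : ∃ m : ℤ, m ≠ 0 ∧ Ord2.cf μ m ≠ 0 := by
      by_contra hcon
      push Not at hcon
      apply hne
      have := LogSc.uniq (ν := μ) hcon
      rwa [measure_univ, one_smul] at this
    obtain ⟨m, hm, hcm⟩ := hex
    refine ⟨m, (μ Sᶜ).toReal * ‖Ord2.cf μ m‖ ^ 2, ?_, fun G => Va_lower hle G m hm⟩
    have : 0 < (μ Sᶜ).toReal := ENNReal.toReal_pos ha (measure_ne_top _ _)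
    have : 0 < ‖Ord2.cf μ m‖ := norm_pos_iff.2 hcm
    positivity

end Pool.Agent.Half
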