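import Pool.Agent.Half.BoxE
import Pool.Agent.Half.ChebV

/-! For a measure invariant under both maps the entropy at finite scale is at most the square error of the ergodic
averages (helper56). -/

open MeasureTheory Filter Topology
open scoped ENNReal

namespace Pool.Agent.Half

theorem PQ.mp {p q : ℕ} (h : PQ p q) {μ : Measure T} (h2 : MeasurePreserving (fun x : T => (2 : ℕ) • x) μ μ)
    (h3 : MeasurePreserving (fun x : T => (3 : ℕ) • x) μ μ) :
    MeasurePreserving (fun x : T => p • x) μ μ ∧ MeasurePreserving (fun x : T => q • x) μ μ := by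
  rcases h with ⟨rfl, rfl⟩ | ⟨rfl, rfl⟩
  · exact ⟨h2, h3⟩
  · exact ⟨h3, h2⟩

/-- the mean over `p ^ i`, `i < N` -/
theorem avgC_line {p q : ℕ} (hpq : PQ p q) (N : ℕ) (f : T → ℂ) (x : T) :
    avgC (bx p N 1) f x = (∑ i ∈ Finset.range N, f ((p ^ i) • x)) / N := by
  rcases hpq with ⟨rfl, rfl⟩ | ⟨rfl, rfl⟩
  · unfold avgC bx
    rw [if_pos rfl, Finset.sum_product, Finset.card_product, Finset.card_range, Finset.card_range]
    simp
  · unfold avgC bx
    rw [if_neg (by norm_num), Finset.sum_product, Finset.card_product, Finset.card_range, Finset.card_range]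
    simp

theorem avgC_box {p q : ℕ} (hpq : PQ p q) (N R : ℕ) (f : T → ℂ) (x : T) :
    avgC (bx p N R) f x = (∑ j ∈ Finset.range R, avgC (bx p N 1) f ((q ^ j) • x)) / R := by
  simp only [avgC_line hpq]
  rw [← Finset.sum_div, div_div]
  rcases hpq with ⟨rfl, rfl⟩ | ⟨rfl, rfl⟩
  · unfold avgC bx
    rw [if_pos rfl, Finset.sum_product_right, Finset.card_product, Finset.card_range, Finset.card_range]
    push_cast
    congr 1
    apply Finset.sum_congr rfl
    intro j _
    apply Finset.sum_congr rfl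
    intro i _
    rw [mul_smul]
  · unfold avgC bx
    rw [if_neg (by norm_num), Finset.sum_product, Finset.card_product, Finset.card_range, Finset.card_range]
    push_cast
    rw [mul_comm (R : ℂ) (N : ℂ)]
    congr 1
    apply Finset.sum_congr rfl
    intro j _
    apply Finset.sum_congr rfl
    intro i _
    rw [mul_comm (2 ^ j) (3 ^ i), mul_smul]

theorem box_var {p q : ℕ} (hpq : PQ p q) {μ : Measure T} [IsProbabilityMeasure μ]
    (hmp : MeasurePreserving (fun x : T => q • x) μ μ) (N : ℕ) {R : ℕ} (hR : 0 < R) (m : ℤ) :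
    Va μ (bx p N R) m ≤ Va μ (bx p N 1) m := by
  set c := Ord2.cf μ m with hc
  set A : T → ℂ := fun x => avgC (bx p N 1) (fourier m) x - c with hA
  have hAc : Continuous A := (continuous_avgC _ (fourier m).continuous).sub continuous_const
  have hA2 : Continuous fun x => ‖A x‖ ^ 2 := hAc.norm.pow 2
  have hR' : (0 : ℝ) < R := by exact_mod_cast hR
  have e1 : ∀ x, avgC (bx p N R) (fourier m) x - c = (∑ j ∈ Finset.range R, A ((q ^ j) • x)) / R := by
    intro x
    have hRc : (R : ℂ) ≠ 0 := by exact_mod_cast hR.ne'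
    rw [avgC_box hpq, hA]
    simp only
    rw [Finset.sum_sub_distrib, Finset.sum_const, Finset.card_range, nsmul_eq_mul, sub_div,
      mul_div_cancel_left₀ _ hRc]
  have e2 : ∀ x, ‖avgC (bx p N R) (fourier m) x - c‖ ^ 2 ≤ (∑ j ∈ Finset.range R, ‖A ((q ^ j) • x)‖ ^ 2) / R := by
    intro x
    rw [e1, norm_div, Complex.norm_natCast, div_pow, div_le_div_iff₀ (by positivity) hR']
    have h1 : ‖∑ j ∈ Finset.range R, A ((q ^ j) • x)‖ ^ 2 ≤ (∑ j ∈ Finset.range R, ‖A ((q ^ j) • x)‖) ^ 2 :=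
      pow_le_pow_left₀ (norm_nonneg _) (norm_sum_le _ _) 2
    have h2 := sq_sum_le_card_mul_sum_sq (s := Finset.range R) (f := fun j => ‖A ((q ^ j) • x)‖)
    rw [Finset.card_range] at h2
    have h3 : 0 ≤ ∑ j ∈ Finset.range R, ‖A ((q ^ j) • x)‖ ^ 2 := Finset.sum_nonneg fun _ _ => by positivity
    nlinarith
  have hi : ∀ j ∈ Finset.range R, Integrable (fun x => ‖A ((q ^ j) • x)‖ ^ 2) μ := by
    intro j _
    have hcj : Continuous fun x : T => ‖A ((q ^ j) • x)‖ ^ 2 := hA2.comp (continuous_const_smul _)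
    exact CV_intr μ hcj
  have e3 : ∀ j ∈ Finset.range R, ∫ x, ‖A ((q ^ j) • x)‖ ^ 2 ∂μ = Va μ (bx p N 1) m := by
    intro j _
    have h1 := mp_pow hmp j
    have h2 := integral_map (μ := μ) h1.measurable.aemeasurable (f := fun x => ‖A x‖ ^ 2)
      hA2.aestronglyMeasurable
    rw [h1.map_eq] at h2
    exact h2.symm
  have hc1 : Continuous fun x => ‖avgC (bx p N R) (fourier m) x - c‖ ^ 2 :=
    ((continuous_avgC _ (fourier m).continuous).sub continuous_const).norm.pow 2
  calc Va μ (bx p N R) m = ∫ x, ‖avgC (bx p N R) (fourier m) x - c‖ ^ 2 ∂μ := rfl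
    _ ≤ ∫ x, (∑ j ∈ Finset.range R, ‖A ((q ^ j) • x)‖ ^ 2) / R ∂μ :=
        integral_mono (CV_intr μ hc1) ((integrable_finsetSum _ hi).div_const _) e2
    _ = (∑ j ∈ Finset.range R, ∫ x, ‖A ((q ^ j) • x)‖ ^ 2 ∂μ) / R := by
        rw [integral_div, integral_finsetSum _ hi]
    _ = Va μ (bx p N 1) m := by
        rw [Finset.sum_congr rfl e3, Finset.sum_const, Finset.card_range, nsmul_eq_mul,
          mul_div_cancel_left₀ _ hR'.ne']

/-- a trivial bound -/
theorem Hb_triv {b : ℕ} (hb : 2 ≤ b) (μ : Measure T) [IsProbabilityMeasure μ]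
    (h : MeasurePreserving (fun x : T => b • x) μ μ) (n : ℕ) :
    Hb b μ (n + 1) - Hb b μ n ≤ 4 + Real.log b := by
  have h1 := fano3 hb μ h n 0 1 1 le_rfl Set.univ Set.univ MeasurableSet.univ MeasurableSet.univ
    (fun x _ hx => absurd (Set.mem_univ x) hx) (fun x hx => absurd (Set.mem_univ (x 0)) (hx 0))
  simp only [probReal_univ, Nat.cast_one, Real.log_one, Real.negMulLog_one] at h1
  linarith

theorem nml_sqrt {u : ℝ} (hu : 0 ≤ u) : Real.negMulLog u ≤ 2 * Real.sqrt u := by
  rcases hu.eq_or_lt with h | h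
  · rw [← h]
    simp
  · have hs : 0 < Real.sqrt u := Real.sqrt_pos.2 h
    have h1 : Real.log u = 2 * Real.log (Real.sqrt u) := by
      rw [Real.log_sqrt hu]
      ring
    have h2 : -Real.log (Real.sqrt u) ≤ (Real.sqrt u)⁻¹ := by
      rw [← Real.log_inv]
      have := Real.log_le_sub_one_of_pos (inv_pos.2 hs)
      linarith
    have h3 : Real.negMulLog u = u * (2 * -Real.log (Real.sqrt u)) := by
      unfold Real.negMulLog
      rw [h1]
      ring
    rw [h3]
    have h4 : u * (2 * -Real.log (Real.sqrt u)) ≤ u * (2 * (Real.sqrt u)⁻¹) :=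
      mul_le_mul_of_nonneg_left (by linarith) hu
    refine h4.trans (le_of_eq ?_)
    have h5 : u = Real.sqrt u * Real.sqrt u := (Real.mul_self_sqrt hu).symm
    calc u * (2 * (Real.sqrt u)⁻¹) = (Real.sqrt u * Real.sqrt u) * (2 * (Real.sqrt u)⁻¹) := by rw [← h5]
      _ = 2 * Real.sqrt u := by field_simp

/-- `u log (1 / u) / L ≤ 2 u + 2 e ^ (-L)` -/
theorem nml_div {u L : ℝ} (hu : 0 ≤ u) (hL : 1 ≤ L) : Real.negMulLog u / L ≤ 2 * u + 2 * Real.exp (-L) := by
  have hL0 : 0 < L := by linarith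
  rcases le_total (Real.exp (-(2 * L))) u with h | h
  · have hu0 : 0 < u := lt_of_lt_of_le (Real.exp_pos _) h
    have h1 : -(2 * L) ≤ Real.log u := (Real.le_log_iff_exp_le hu0).2 h
    have h2 : Real.negMulLog u ≤ u * (2 * L) := by
      unfold Real.negMulLog
      nlinarith
    rw [div_le_iff₀ hL0]
    have := Real.exp_pos (-L)
    nlinarith
  · have h1 := nml_sqrt hu
    have h2 : Real.sqrt u ≤ Real.exp (-L) := by
      rw [Real.sqrt_le_left (Real.exp_pos _).le, ← Real.exp_nat_mul]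
      refine h.trans (le_of_eq ?_)
      congr 1
      push_cast
      ring
    have h3 : Real.negMulLog u / L ≤ 2 * Real.exp (-L) := by
      rw [div_le_iff₀ hL0]
      have := Real.exp_pos (-L)
      nlinarith
    linarith

/-- **The entropy at finite scale is at most the square error of the mean ergodic theorem.** -/
theorem ent_two {p q : ℕ} (hpq : PQ p q) {κ : ℝ} (hκ1 : 1 < κ) (hκ2 : κ < 3 / 2) (μ : Measure T)
    [IsProbabilityMeasure μ] (h2 : MeasurePreserving (fun x : T => (2 : ℕ) • x) μ μ)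
    (h3 : MeasurePreserving (fun x : T => (3 : ℕ) • x) μ μ) (hne : μ ≠ volume) :
    ∃ (M : ℕ) (C : ℝ), 0 < C ∧ ∀ N : ℕ, 1 ≤ N → Hb q μ (8 * N + 1) - Hb q μ (8 * N) ≤
      C * (Real.exp (-(Real.log N) ^ κ) + ∑ m ∈ Finset.Icc (-(M : ℤ)) M, Va μ (bx p N 1) m) := by
  obtain ⟨-, hq⟩ := hpq.mp h2 h3
  have hq2 : 2 ≤ q := hpq.prime.two_le
  have hlq : 0 ≤ Real.log q := Real.log_natCast_nonneg _
  have hlq2 : Real.log q ≤ 2 := by
    have h1 : (q : ℝ) ≤ 3 := by
      rcases hpq with ⟨_, rfl⟩ | ⟨_, rfl⟩ <;> norm_num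
    have h4 : Real.log q ≤ q - 1 := Real.log_le_sub_one_of_pos (by exact_mod_cast hpq.prime.pos)
    linarith
  have htr : ∀ n, Hb q μ (n + 1) - Hb q μ n ≤ 6 := fun n => by
    have := Hb_triv hq2 μ hq n
    linarith
  have hlogN : ∀ N : ℕ, 0 ≤ (Real.log N) ^ κ := fun N => Real.rpow_nonneg (Real.log_natCast_nonneg _) _
  rcases dicho h2 h3 hne with ⟨m, ε, hε, hV⟩ | ⟨f, δ, hf, hδ, hfδ⟩
  · refine ⟨m.natAbs, 6 / ε, by positivity, fun N _ => ?_⟩
    have h4 : ε ≤ ∑ m' ∈ Finset.Icc (-((m.natAbs : ℕ) : ℤ)) (m.natAbs : ℕ), Va μ (bx p N 1) m' := by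
      refine (hV (bx p N 1)).trans ?_
      exact Finset.single_le_sum (f := fun m' => Va μ (bx p N 1) m') (fun m' _ => Va_nonneg _ _ _)
        (by rw [Finset.mem_Icc]; omega)
    have h5 := Real.exp_pos (-(Real.log N) ^ κ)
    refine (htr _).trans ?_
    rw [div_mul_eq_mul_div, le_div_iff₀ hε]
    nlinarith
  · obtain ⟨R0, hR0⟩ := box_entropy hpq hκ1 hκ2 {f} (by simpa using hf) δ hδ
    obtain ⟨M, C, hC, hcheb⟩ := cheb f δ hδ
    -- large `N`
    have hlogT : Tendsto (fun n : ℕ => (Real.log (n : ℝ)) ^ κ) atTop atTop :=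
      (tendsto_rpow_atTop (by linarith)).comp (Real.tendsto_log_atTop.comp tendsto_natCast_atTop_atTop)
    obtain ⟨N1, hN1⟩ := eventually_atTop.1 (hlogT.eventually_ge_atTop ((R0 : ℝ) + 1))
    refine ⟨M, 5 * C + 2 + 6 * Real.exp ((Real.log N1) ^ κ), by positivity, fun N hN => ?_⟩
    set L : ℝ := (Real.log N) ^ κ with hL
    set V : ℝ := ∑ m ∈ Finset.Icc (-(M : ℤ)) M, Va μ (bx p N 1) m with hV
    have hV0 : 0 ≤ V := Finset.sum_nonneg fun m _ => Va_nonneg _ _ _
    have hexp := Real.exp_pos (-L)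
    rcases le_total N1 N with hNN | hNN
    · have hRL : ((R0 + 1 : ℕ) : ℝ) ≤ L := by
        push_cast
        exact hN1 N hNN
      have hmain := hR0 N (R0 + 1) (by omega) hRL μ hq
      have hsub : Dbx p {f} δ N (R0 + 1) ⊆ Lbx p {f} δ N (R0 + 1) := by
        intro x hx g hg
        have h4 := hx g hg
        rw [Finset.mem_singleton] at hg
        subst hg
        have h5 : 0 ≤ ∫ z, g z ∂(volume : Measure T) := integral_nonneg hf
        have h6 := (abs_le.1 h4).1
        linarith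
      have hD : μ.real (Dbx p {f} δ N (R0 + 1)) ≤ μ.real (Lbx p {f} δ N (R0 + 1)) := measureReal_mono hsub
      have hEV : μ.real (Lbx p {f} δ N (R0 + 1)) ≤ C * V := by
        have h4 : Lbx p {f} δ N (R0 + 1) ⊆ {x | δ ≤ |avg (bx p N (R0 + 1)) f x - ∫ z, f z ∂μ|} := by
          intro x hx
          have h5 := hx f (Finset.mem_singleton_self f)
          have h6 : δ ≤ avg (bx p N (R0 + 1)) f x - ∫ z, f z ∂μ := by linarith
          exact h6.trans (le_abs_self _)
        refine (measureReal_mono h4).trans ((hcheb μ (bx p N (R0 + 1))).trans ?_)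
        apply mul_le_mul_of_nonneg_left _ hC.le
        exact Finset.sum_le_sum fun m _ => box_var hpq hq N (by omega) m
      set E := μ.real (Lbx p {f} δ N (R0 + 1)) with hE
      have hE0 : 0 ≤ E := measureReal_nonneg
      have hL1 : 1 ≤ L := by
        push_cast at hRL
        have : (0 : ℝ) ≤ R0 := Nat.cast_nonneg _
        linarith
      have h7 := nml_div hE0 hL1
      have h8 : E / L ≤ E := div_le_self hE0 hL1
      have h9 : Real.log q * μ.real (Dbx p {f} δ N (R0 + 1)) ≤ 2 * E :=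
        (mul_le_mul_of_nonneg_left hD hlq).trans (mul_le_mul_of_nonneg_right hlq2 hE0)
      rw [add_div] at hmain
      have h10 : Hb q μ (8 * N + 1) - Hb q μ (8 * N) ≤ 5 * E + 2 * Real.exp (-L) := by linarith
      have h11 : 0 ≤ Real.exp ((Real.log N1) ^ κ) := (Real.exp_pos _).le
      nlinarith [mul_nonneg h11 hexp.le, mul_nonneg h11 hV0, mul_nonneg hC.le hexp.le]
    · have h4 : L ≤ (Real.log N1) ^ κ := by
        apply Real.rpow_le_rpow (Real.log_natCast_nonneg _) _ (by linarith)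
        exact Real.log_le_log (by exact_mod_cast hN) (by exact_mod_cast hNN)
      have h5 : 1 ≤ Real.exp ((Real.log N1) ^ κ) * Real.exp (-L) := by
        rw [← Real.exp_add]
        exact Real.one_le_exp (by linarith)
      refine (htr _).trans ?_
      have h11 : 0 ≤ Real.exp ((Real.log N1) ^ κ) := (Real.exp_pos _).le
      nlinarith [mul_nonneg h11 hV0, mul_nonneg hC.le hexp.le, mul_nonneg hC.le hV0]

end Pool.Agent.Half
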