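import Pool.Agent.Half.BDefs

/-! Module BXF. Means over boxes. `avgC_bx`: the mean over the box is the mean over `b < R` of the means over the rows.
`fol_bx`: the symmetric difference with the translate by one step in the direction of `p` has at most `2 R` elements, in the
direction of `q` at most `2 N`; `card = N R`. -/

open MeasureTheory Filter Topology

namespace Pool.Agent.Half

private theorem bxf_card (p N R : ℕ) : (bx p N R).card = N * R := by
  unfold bx
  split_ifs
  · rw [Finset.card_product, Finset.card_range, Finset.card_range]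
  · rw [Finset.card_product, Finset.card_range, Finset.card_range, mul_comm]

private theorem bxf_sum {E : Type*} [AddCommMonoid E] {p q : ℕ} (hpq : PQ p q) (N R : ℕ) (f : T → E)
    (x : T) : ∑ c ∈ bx p N R, f ((2 ^ c.1 * 3 ^ c.2 : ℕ) • x) =
      ∑ b ∈ Finset.range R, ∑ i ∈ Finset.range N, f ((p ^ i) • ((q ^ b) • x)) := by
  unfold bx
  rcases hpq with ⟨rfl, rfl⟩ | ⟨rfl, rfl⟩
  · rw [if_pos rfl, Finset.sum_product, Finset.sum_comm]
    refine Finset.sum_congr rfl fun b _ => Finset.sum_congr rfl fun i _ => ?_
    rw [mul_smul]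
  · rw [if_neg (by norm_num), Finset.sum_product]
    refine Finset.sum_congr rfl fun b _ => Finset.sum_congr rfl fun i _ => ?_
    simp only
    rw [mul_comm, mul_smul]

theorem avgC_bx {p q : ℕ} (hpq : PQ p q) (N R : ℕ) (f : T → ℂ) (x : T) :
    avgC (bx p N R) f x =
      (∑ b ∈ Finset.range R, ∑ i ∈ Finset.range N, f ((p ^ i) • ((q ^ b) • x))) / ((N : ℂ) * R) := by
  unfold avgC
  rw [bxf_sum hpq, bxf_card]
  push_cast
  rfl

theorem avg_bx {p q : ℕ} (hpq : PQ p q) (N R : ℕ) (f : T → ℝ) (x : T) :
    avg (bx p N R) f x =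
      (∑ b ∈ Finset.range R, ∑ i ∈ Finset.range N, f ((p ^ i) • ((q ^ b) • x))) / ((N : ℝ) * R) := by
  unfold avg
  rw [bxf_sum hpq, bxf_card]
  push_cast
  rfl

private theorem bxf_one (N R : ℕ) : (symmDiff (Finset.range N ×ˢ Finset.range R)
    (sh (1, 0) (Finset.range N ×ˢ Finset.range R))).card ≤ 2 * R := by
  have hsub : symmDiff (Finset.range N ×ˢ Finset.range R)
      (sh (1, 0) (Finset.range N ×ˢ Finset.range R)) ⊆
      ((Finset.range R).image fun b => (0, b)) ∪ ((Finset.range R).image fun b => (N, b)) := by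
    rintro ⟨a, b⟩ h
    rw [Finset.mem_symmDiff] at h
    unfold sh at h
    simp only [Finset.mem_product, Finset.mem_range, Finset.mem_image, Prod.mk.injEq, Prod.exists,
      not_exists, not_and, Finset.mem_union, exists_eq_right_right] at h ⊢
    rcases h with ⟨⟨h1, h2⟩, h3⟩ | ⟨⟨a', b', ⟨h1, h2⟩, h3, h4⟩, h5⟩
    · left
      refine ⟨h2, ?_⟩
      by_contra hne
      exact h3 (a - 1) b ⟨by omega, h2⟩ (by omega) (by omega)
    · right
      subst h3
      have hb : b' = b := by omega
      subst hb
      refine ⟨h2, ?_⟩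
      by_contra hne
      exact h5 (by omega) h2
  refine (Finset.card_le_card hsub).trans ((Finset.card_union_le _ _).trans ?_)
  have h1 : ((Finset.range R).image fun b => ((0 : ℕ), b)).card ≤ R :=
    Finset.card_image_le.trans (by rw [Finset.card_range])
  have h2 : ((Finset.range R).image fun b => (N, b)).card ≤ R :=
    Finset.card_image_le.trans (by rw [Finset.card_range])
  omega

private theorem bxf_two (N R : ℕ) : (symmDiff (Finset.range N ×ˢ Finset.range R)
    (sh (0, 1) (Finset.range N ×ˢ Finset.range R))).card ≤ 2 * N := by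
  have hsub : symmDiff (Finset.range N ×ˢ Finset.range R)
      (sh (0, 1) (Finset.range N ×ˢ Finset.range R)) ⊆
      ((Finset.range N).image fun a => (a, 0)) ∪ ((Finset.range N).image fun a => (a, R)) := by
    rintro ⟨a, b⟩ h
    rw [Finset.mem_symmDiff] at h
    unfold sh at h
    simp only [Finset.mem_product, Finset.mem_range, Finset.mem_image, Prod.mk.injEq, Prod.exists,
      not_exists, not_and, Finset.mem_union] at h ⊢
    rcases h with ⟨⟨h1, h2⟩, h3⟩ | ⟨⟨a', b', ⟨h1, h2⟩, h3, h4⟩, h5⟩
    · left
      refine ⟨a, h1, rfl, ?_⟩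
      by_contra hne
      exact h3 a (b - 1) ⟨h1, by omega⟩ (by omega) (by omega)
    · right
      subst h4
      have ha : a' = a := by omega
      subst ha
      refine ⟨a', h1, rfl, ?_⟩
      by_contra hne
      exact h5 h1 (by omega)
  refine (Finset.card_le_card hsub).trans ((Finset.card_union_le _ _).trans ?_)
  have h1 : ((Finset.range N).image fun a => (a, (0 : ℕ))).card ≤ N :=
    Finset.card_image_le.trans (by rw [Finset.card_range])
  have h2 : ((Finset.range N).image fun a => (a, R)).card ≤ N :=
    Finset.card_image_le.trans (by rw [Finset.card_range])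
  omega

private theorem bxf_fol (N R : ℕ → ℕ) (hN : Tendsto N atTop atTop) (hR : Tendsto R atTop atTop) :
    Fol (1, 0) (fun k => Finset.range (N k) ×ˢ Finset.range (R k)) ∧
    Fol (0, 1) (fun k => Finset.range (N k) ×ˢ Finset.range (R k)) := by
  have l1 : Tendsto (fun k => 2 / (N k : ℝ)) atTop (𝓝 0) :=
    tendsto_const_nhds.div_atTop (tendsto_natCast_atTop_atTop.comp hN)
  have l2 : Tendsto (fun k => 2 / (R k : ℝ)) atTop (𝓝 0) :=
    tendsto_const_nhds.div_atTop (tendsto_natCast_atTop_atTop.comp hR)
  constructor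
  · unfold Fol
    refine squeeze_zero' (Eventually.of_forall fun k => by positivity) ?_ l1
    filter_upwards [hN.eventually_ge_atTop 1, hR.eventually_ge_atTop 1] with k h1 h2
    have hNp : (0 : ℝ) < N k := by exact_mod_cast h1
    have hRp : (0 : ℝ) < R k := by exact_mod_cast h2
    rw [Finset.card_product, Finset.card_range, Finset.card_range]
    push_cast
    rw [div_le_div_iff₀ (by positivity) hNp]
    have h3 : ((symmDiff (Finset.range (N k) ×ˢ Finset.range (R k))
      (sh (1, 0) (Finset.range (N k) ×ˢ Finset.range (R k)))).card : ℝ) ≤ 2 * R k := by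
      exact_mod_cast bxf_one (N k) (R k)
    nlinarith
  · unfold Fol
    refine squeeze_zero' (Eventually.of_forall fun k => by positivity) ?_ l2
    filter_upwards [hN.eventually_ge_atTop 1, hR.eventually_ge_atTop 1] with k h1 h2
    have hNp : (0 : ℝ) < N k := by exact_mod_cast h1
    have hRp : (0 : ℝ) < R k := by exact_mod_cast h2
    rw [Finset.card_product, Finset.card_range, Finset.card_range]
    push_cast
    rw [div_le_div_iff₀ (by positivity) hRp]
    have h3 : ((symmDiff (Finset.range (N k) ×ˢ Finset.range (R k))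
      (sh (0, 1) (Finset.range (N k) ×ˢ Finset.range (R k)))).card : ℝ) ≤ 2 * N k := by
      exact_mod_cast bxf_two (N k) (R k)
    nlinarith

theorem fol_bx (p : ℕ) (N R : ℕ → ℕ) (hN : Tendsto N atTop atTop) (hR : Tendsto R atTop atTop) :
    Fol (1, 0) (fun k => bx p (N k) (R k)) ∧ Fol (0, 1) (fun k => bx p (N k) (R k)) := by
  unfold bx
  by_cases h : p = 2
  · simp only [h, if_true]
    exact bxf_fol N R hN hR
  · simp only [h, if_false]
    exact bxf_fol R N hR hN

end Pool.Agent.Half
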