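import Pool.Agent.Ord2.Defs
import Pool.Agent.LogSc.Defs

/-!
# Half-Lebesgue slices: definitions (text: team-store MP_e27144_an_half_helper56.md)
-/

open MeasureTheory Filter Topology

namespace Pool.Agent.Half

/-- the circle -/
abbrev T := AddCircle (1 : ℝ)

/-- Mean of `f (2 ^ a * 3 ^ b • x)` over the pairs `(a, b)` in `G`. -/
noncomputable def avg (G : Finset (ℕ × ℕ)) (f : T → ℝ) (x : T) : ℝ :=
  (∑ p ∈ G, f ((2 ^ p.1 * 3 ^ p.2 : ℕ) • x)) / G.card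

/-- The same for complex functions. -/
noncomputable def avgC (G : Finset (ℕ × ℕ)) (f : T → ℂ) (x : T) : ℂ :=
  (∑ p ∈ G, f ((2 ^ p.1 * 3 ^ p.2 : ℕ) • x)) / G.card

/-- The slice: all pairs `(a, b)` with `2 ^ n ≤ 2 ^ a * 3 ^ b < 2 ^ (n + r)`. -/
def sl (n r : ℕ) : Finset (ℕ × ℕ) :=
  (Finset.range (n + r) ×ˢ Finset.range (n + r)).filter
    fun p => 2 ^ n ≤ 2 ^ p.1 * 3 ^ p.2 ∧ 2 ^ p.1 * 3 ^ p.2 < 2 ^ (n + r)

/-- translate of a finite set -/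
def sh (e : ℕ × ℕ) (G : Finset (ℕ × ℕ)) : Finset (ℕ × ℕ) :=
  G.image fun p => (p.1 + e.1, p.2 + e.2)

/-- asymptotically invariant under the shift by `e` -/
def Fol (e : ℕ × ℕ) (G : ℕ → Finset (ℕ × ℕ)) : Prop :=
  Tendsto (fun k => ((symmDiff (G k) (sh e (G k))).card : ℝ) / (G k).card) atTop (𝓝 0)

/-- the number of `b` with `fl b ≤ n` -/
noncomputable def bb (n : ℕ) : ℕ := ((Finset.range (n + 1)).filter fun b => Ord2.fl b ≤ n).card

/-- `F_B(s) = (1/B) ∑_{b < B} e(s θ_b)` -/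
noncomputable def FB (B : ℕ) (s : ℝ) : ℂ :=
  (∑ b ∈ Finset.range B, Complex.exp (2 * Real.pi * Complex.I * (s * Ord2.th b : ℝ))) / (B : ℂ)

/-- the point of index `p` of the orbit of the pair `(x, y)` -/
noncomputable def pt (x y : T) (p : ℕ × ℕ) : T × T :=
  ((2 ^ p.1 * 3 ^ p.2 : ℕ) • x, (2 ^ p.1 * 3 ^ p.2 : ℕ) • y)

end Pool.Agent.Half
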