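import Pool.Agent.Ord2.Eq1
import Pool.Agent.Half.HDefs

/-! Module CNT (W1). Counting the points `b α + β` mod 1, `b < B r`, in an interval. PROOF: `B r = q I N`,
`I = ⌊1/|ω|⌋`, `ω = qα - p`, `|ω| ≤ 2^-4r`; by `Ord2.sum_blocks` it is enough that for every `t0` the number of `i < I`
with `Int.fract (t0 + i ω) ∈ [u, v)` differs from `I (v - u)` by at most `5` (the points `t0 + i ω`, `i < I`, form an
arithmetic progression of total length `(I - 1)|ω|`, between `1 - 2|ω|` and `1`; the set `Int.fract ∈ [u, v)` is, in a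
window of length one, a union of at most two intervals), and `5 / I ≤ 10 |ω| ≤ 16 / 2^(4r)`. -/

open MeasureTheory Filter Topology

namespace Pool.Agent.Half

/-- the indicator of `fract t ∈ [u, v)` as a difference of integer parts -/
private theorem cnt_ind (u v t : ℝ) (hu : 0 ≤ u) (huv : u ≤ v) (hv : v ≤ 1) :
    (if u ≤ Int.fract t ∧ Int.fract t < v then (1 : ℝ) else 0) = (⌊t - u⌋ : ℝ) - (⌊t - v⌋ : ℝ) := by
  have hf0 := Int.fract_nonneg t
  have hf1 := Int.fract_lt_one t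
  have ht : t = (⌊t⌋ : ℝ) + Int.fract t := (Int.floor_add_fract t).symm
  set n := ⌊t⌋ with hn
  set f := Int.fract t with hf
  have hfl : ∀ w : ℝ, 0 ≤ w → w ≤ 1 → (⌊t - w⌋ : ℝ) = (n : ℝ) + (if w ≤ f then 0 else -1) := by
    intro w hw0 hw1
    by_cases hw : w ≤ f
    · rw [if_pos hw, add_zero]
      have h1 : ⌊t - w⌋ = n := by
        rw [Int.floor_eq_iff]
        constructor
        · rw [ht]; linarith
        · rw [ht]; linarith
      rw [h1]
    · rw [if_neg hw]
      push Not at hw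
      have h1 : ⌊t - w⌋ = n - 1 := by
        rw [Int.floor_eq_iff]
        push_cast
        constructor
        · rw [ht]; linarith
        · rw [ht]; linarith
      rw [h1]
      push_cast
      ring
  rw [hfl u hu (huv.trans hv), hfl v (hu.trans huv) hv]
  by_cases h1 : u ≤ f
  · by_cases h2 : v ≤ f
    · rw [if_neg (by push Not; intro _; exact h2), if_pos h1, if_pos h2]
      ring
    · rw [if_pos ⟨h1, lt_of_not_ge h2⟩, if_pos h1, if_neg h2]
      ring
  · have h2 : ¬ v ≤ f := fun h => h1 (huv.trans h)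
    rw [if_neg (fun h => h1 h.1), if_neg h1, if_neg h2]
    ring

/-- sums of integer parts along an arithmetic progression of length at most one -/
private theorem cnt_floor (s ε : ℝ) (hε : 0 < ε) (I : ℕ) (h1 : (I : ℝ) * ε ≤ 1)
    (h2 : 1 < ((I : ℝ) + 1) * ε) :
    (I : ℝ) * s - 2 ≤ ∑ i ∈ Finset.range I, (⌊s + i * ε⌋ : ℝ) ∧
      ∑ i ∈ Finset.range I, (⌊s + i * ε⌋ : ℝ) ≤ (I : ℝ) * s + 1 := by
  have hf0 := Int.fract_nonneg s
  have hf1 := Int.fract_lt_one s
  have hs : s = (⌊s⌋ : ℝ) + Int.fract s := (Int.floor_add_fract s).symm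
  set n := ⌊s⌋ with hn
  set f := Int.fract s with hf
  set c := ⌈(1 - f) * (1 / ε)⌉₊ with hc
  have hw0 : 0 < 1 / ε := by positivity
  have hterm : ∀ i ∈ Finset.range I, (⌊s + i * ε⌋ : ℝ) = (n : ℝ) + (if i < c then 0 else 1) := by
    intro i hi
    have hi' : (i : ℝ) + 1 ≤ I := by
      have := Finset.mem_range.1 hi
      exact_mod_cast this
    have hiε : (i : ℝ) * ε < 1 := by nlinarith
    have hi0 : (0 : ℝ) ≤ (i : ℝ) * ε := by positivity
    have hic : i < c ↔ (i : ℝ) * ε < 1 - f := by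
      rw [hc, Nat.lt_ceil, mul_one_div, lt_div_iff₀ hε]
    by_cases hlt : i < c
    · rw [if_pos hlt, add_zero]
      have h4 := hic.1 hlt
      have h3 : ⌊s + i * ε⌋ = n := by
        rw [Int.floor_eq_iff]
        constructor
        · rw [hs]; linarith
        · rw [hs]; linarith
      rw [h3]
    · rw [if_neg hlt]
      have h4 : 1 - f ≤ (i : ℝ) * ε := by
        by_contra hcon
        exact hlt (hic.2 (lt_of_not_ge hcon))
      have h3 : ⌊s + i * ε⌋ = n + 1 := by
        rw [Int.floor_eq_iff]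
        push_cast
        constructor
        · rw [hs]; linarith
        · rw [hs]; linarith
      rw [h3]
      push_cast
      ring
  rw [Finset.sum_congr rfl hterm, Finset.sum_add_distrib, Finset.sum_const, Finset.card_range,
    nsmul_eq_mul]
  have hcnt : ∑ i ∈ Finset.range I, (if i < c then (0 : ℝ) else 1) = (I : ℝ) - (min I c : ℕ) := by
    have h3 : ∑ i ∈ Finset.range I, (if i < c then (0 : ℝ) else 1) +
        ∑ i ∈ Finset.range I, (if i < c then (1 : ℝ) else 0) = I := by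
      rw [← Finset.sum_add_distrib]
      have h4 : ∀ i ∈ Finset.range I, (if i < c then (0 : ℝ) else 1) + (if i < c then (1 : ℝ) else 0)
          = 1 := by
        intro i _
        split_ifs <;> ring
      rw [Finset.sum_congr rfl h4, Finset.sum_const, Finset.card_range, nsmul_eq_mul, mul_one]
    have h5 : ∑ i ∈ Finset.range I, (if i < c then (1 : ℝ) else 0) = (min I c : ℕ) := by
      rw [Finset.sum_ite, Finset.sum_const_zero, add_zero, Finset.sum_const, nsmul_eq_mul, mul_one]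
      have h6 : (Finset.range I).filter (fun i => i < c) = Finset.range (min I c) := by
        ext i
        simp only [Finset.mem_filter, Finset.mem_range, lt_min_iff]
      rw [h6, Finset.card_range]
    linarith
  rw [hcnt]
  have hI0 : (0 : ℝ) ≤ I := Nat.cast_nonneg I
  have hwI : (I : ℝ) ≤ 1 / ε := by rw [le_div_iff₀ hε]; exact h1
  have hwI' : 1 / ε < (I : ℝ) + 1 := by rw [div_lt_iff₀ hε]; exact h2
  have hc1 : (1 - f) * (1 / ε) ≤ c := Nat.le_ceil _
  have hc2 : (c : ℝ) < (1 - f) * (1 / ε) + 1 :=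
    Nat.ceil_lt_add_one (mul_nonneg (by linarith) hw0.le)
  set w := 1 / ε with hw
  have hfw1 : f * w ≤ f * ((I : ℝ) + 1) := mul_le_mul_of_nonneg_left hwI'.le hf0
  have hfw2 : f * (I : ℝ) ≤ f * w := mul_le_mul_of_nonneg_left hwI hf0
  have hIs : (I : ℝ) * s = (I : ℝ) * n + f * I := by rw [hs]; ring
  rw [hIs]
  constructor
  · have h3 : ((min I c : ℕ) : ℝ) ≤ c := by exact_mod_cast min_le_right I c
    nlinarith
  · rcases le_total I c with hle | hle
    · rw [min_eq_left hle]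
      have : 0 ≤ f * (I : ℝ) := mul_nonneg hf0 hI0
      linarith
    · rw [min_eq_right hle]
      nlinarith

/-- the discrepancy of an arithmetic progression of length at most one, positive step -/
private theorem cnt_pos (t0 ε u v : ℝ) (hu : 0 ≤ u) (huv : u ≤ v) (hv : v ≤ 1) (hε : 0 < ε) (I : ℕ)
    (h1 : (I : ℝ) * ε ≤ 1) (h2 : 1 < ((I : ℝ) + 1) * ε) :
    |∑ i ∈ Finset.range I, (if u ≤ Int.fract (t0 + i * ε) ∧ Int.fract (t0 + i * ε) < v then
      (1 : ℝ) else 0) - (I : ℝ) * (v - u)| ≤ 3 := by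
  have h3 : ∀ i ∈ Finset.range I, (if u ≤ Int.fract (t0 + i * ε) ∧ Int.fract (t0 + i * ε) < v then
      (1 : ℝ) else 0) = (⌊(t0 - u) + i * ε⌋ : ℝ) - (⌊(t0 - v) + i * ε⌋ : ℝ) := by
    intro i _
    rw [cnt_ind u v _ hu huv hv]
    congr 3 <;> ring
  rw [Finset.sum_congr rfl h3, Finset.sum_sub_distrib]
  obtain ⟨a1, a2⟩ := cnt_floor (t0 - u) ε hε I h1 h2
  obtain ⟨b1, b2⟩ := cnt_floor (t0 - v) ε hε I h1 h2
  rw [abs_le]
  constructor
  · nlinarith
  · nlinarith

theorem cnt {M : ℕ} {B : ℕ → ℕ} {r : ℕ} (h : Ord2.ParP M B r) (β u v : ℝ) (hu : 0 ≤ u) (huv : u ≤ v)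
    (hv : v ≤ 1) :
    |(((Finset.range (B r)).filter fun b : ℕ =>
        u ≤ Int.fract ((b : ℝ) * Ord2.al + β) ∧ Int.fract ((b : ℝ) * Ord2.al + β) < v).card : ℝ)
      - (B r : ℝ) * (v - u)| ≤ 16 / 2 ^ (4 * r) * (B r : ℝ) := by
  obtain ⟨q, p, N, hq, hN, hω, hω1, hB, -, -⟩ := h
  set ω : ℝ := (q : ℝ) * Ord2.al - p with hωdef
  set I : ℕ := ⌊1 / |ω|⌋₊ with hI
  have hωpos : 0 < |ω| := abs_pos.2 hω
  have hI1 : (I : ℝ) * |ω| ≤ 1 := by
    have := Nat.floor_le (show 0 ≤ 1 / |ω| by positivity)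
    rwa [← hI, le_div_iff₀ hωpos] at this
  have hI2 : 1 < ((I : ℝ) + 1) * |ω| := by
    have := Nat.lt_floor_add_one (1 / |ω|)
    rwa [← hI, div_lt_iff₀ hωpos] at this
  set g : ℝ → ℝ := fun t => if u ≤ Int.fract t ∧ Int.fract t < v then (1 : ℝ) else 0 with hg
  have hpos : ∀ t0 : ℝ, |∑ i ∈ Finset.range I, g (t0 + i * |ω|) - (I : ℝ) * (v - u)| ≤ 3 :=
    fun t0 => cnt_pos t0 |ω| u v hu huv hv hωpos I hI1 hI2
  have hkey : ∀ t0 : ℝ, |∑ i ∈ Finset.range I, g (t0 + i * ω) - (I : ℝ) * (v - u)| ≤ 3 := by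
    intro t0
    rcases le_or_gt 0 ω with h0 | h0
    · have h1 := hpos t0
      rwa [abs_of_nonneg h0] at h1
    · have h1 := hpos (t0 + ((I : ℝ) - 1) * ω)
      rw [abs_of_neg h0] at h1
      have h2 : ∑ i ∈ Finset.range I, g (t0 + i * ω) =
          ∑ i ∈ Finset.range I, g (t0 + ((I : ℝ) - 1) * ω + i * -ω) := by
        rw [← Finset.sum_range_reflect]
        refine Finset.sum_congr rfl fun i hi => ?_
        have h3 := Finset.mem_range.1 hi
        have h4 : ((I - 1 - i : ℕ) : ℝ) = (I : ℝ) - 1 - i := by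
          rw [Nat.cast_sub (by omega), Nat.cast_sub (by omega)]
          simp
        rw [h4]
        congr 1
        ring
      rw [h2]
      exact h1
  have hterm : ∀ t b0 i : ℕ, g (((t * (q * I) + b0 + i * q : ℕ) : ℝ) * Ord2.al + β) =
      g ((((t * (q * I) + b0 : ℕ) : ℝ) * Ord2.al + β) + i * ω) := by
    intro t b0 i
    have e1 : ((t * (q * I) + b0 + i * q : ℕ) : ℝ) * Ord2.al + β =
        ((((t * (q * I) + b0 : ℕ) : ℝ) * Ord2.al + β) + i * ω) + (((i : ℤ) * p : ℤ) : ℝ) := by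
      rw [hωdef]
      push_cast
      ring
    simp only [hg]
    rw [e1, Int.fract_add_intCast]
  have hcard : (((Finset.range (B r)).filter fun b : ℕ =>
        u ≤ Int.fract ((b : ℝ) * Ord2.al + β) ∧ Int.fract ((b : ℝ) * Ord2.al + β) < v).card : ℝ) =
      ∑ t ∈ Finset.range N, ∑ b0 ∈ Finset.range q, ∑ i ∈ Finset.range I,
        g ((((t * (q * I) + b0 : ℕ) : ℝ) * Ord2.al + β) + i * ω) := by
    have h1 : (((Finset.range (B r)).filter fun b : ℕ =>
        u ≤ Int.fract ((b : ℝ) * Ord2.al + β) ∧ Int.fract ((b : ℝ) * Ord2.al + β) < v).card : ℝ) =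
        ∑ b ∈ Finset.range (B r), g ((b : ℝ) * Ord2.al + β) := by
      rw [Finset.card_filter]
      push_cast
      rfl
    have h2 := Ord2.sum_blocks q I N (fun b => ((g ((b : ℝ) * Ord2.al + β) : ℝ) : ℂ))
    have h3 : (∑ b ∈ Finset.range (q * I * N), g ((b : ℝ) * Ord2.al + β)) =
      ∑ t ∈ Finset.range N, ∑ b0 ∈ Finset.range q, ∑ i ∈ Finset.range I,
        g (((t * (q * I) + b0 + i * q : ℕ) : ℝ) * Ord2.al + β) := by
      exact_mod_cast h2
    rw [h1, hB, h3]
    refine Finset.sum_congr rfl fun t _ => Finset.sum_congr rfl fun b0 _ =>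
      Finset.sum_congr rfl fun i _ => hterm t b0 i
  rw [hcard, hB]
  have hBR : ((q * I * N : ℕ) : ℝ) * (v - u) = ∑ t ∈ Finset.range N, ∑ b0 ∈ Finset.range q,
      (I : ℝ) * (v - u) := by
    simp only [Finset.sum_const, Finset.card_range, nsmul_eq_mul]
    push_cast
    ring
  rw [hBR, ← Finset.sum_sub_distrib]
  have hstep : |∑ t ∈ Finset.range N, ((∑ b0 ∈ Finset.range q, ∑ i ∈ Finset.range I,
        g ((((t * (q * I) + b0 : ℕ) : ℝ) * Ord2.al + β) + i * ω)) -
        ∑ b0 ∈ Finset.range q, (I : ℝ) * (v - u))| ≤ ∑ t ∈ Finset.range N, ∑ b0 ∈ Finset.range q,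
        (3 : ℝ) := by
    refine (Finset.abs_sum_le_sum_abs _ _).trans (Finset.sum_le_sum fun t _ => ?_)
    rw [← Finset.sum_sub_distrib]
    exact (Finset.abs_sum_le_sum_abs _ _).trans (Finset.sum_le_sum fun b0 _ => hkey _)
  refine hstep.trans ?_
  simp only [Finset.sum_const, Finset.card_range, nsmul_eq_mul]
  push_cast
  have hX : (0 : ℝ) < 2 ^ (4 * r) := by positivity
  have hX1 : (1 : ℝ) ≤ 2 ^ (4 * r) := one_le_pow₀ (by norm_num)
  have hωX : |ω| * 2 ^ (4 * r) ≤ 1 := by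
    rwa [le_div_iff₀ hX] at hω1
  have hωle : |ω| ≤ 1 := by nlinarith
  have hIX : (2 : ℝ) ^ (4 * r) < I + 1 := by
    by_contra hcon
    push Not at hcon
    have h1 : ((I : ℝ) + 1) * |ω| ≤ 2 ^ (4 * r) * |ω| :=
      mul_le_mul_of_nonneg_right hcon hωpos.le
    nlinarith
  have hIpos : 1 ≤ I := by
    rw [hI, Nat.one_le_floor_iff, le_div_iff₀ hωpos, one_mul]
    exact hωle
  have hIpos' : (1 : ℝ) ≤ (I : ℝ) := by exact_mod_cast hIpos
  have hfin : (3 : ℝ) ≤ 16 / 2 ^ (4 * r) * I := by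
    rw [div_mul_eq_mul_div, le_div_iff₀ hX]
    nlinarith
  have hqN : (0 : ℝ) ≤ (N : ℝ) * q := by positivity
  calc (N : ℝ) * ((q : ℝ) * 3) = ((N : ℝ) * q) * 3 := by ring
    _ ≤ ((N : ℝ) * q) * (16 / 2 ^ (4 * r) * I) := mul_le_mul_of_nonneg_left hfin hqN
    _ = 16 / 2 ^ (4 * r) * ((q : ℝ) * I * N) := by ring

end Pool.Agent.Half
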