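import Pool.Agent.Half.Cnt

/-! Module CNTB. The same for any length `C ≥ B r` in place of `B r`: cut into blocks of length `B r`; the last incomplete
block has at most `B r` elements. -/

open MeasureTheory Filter Topology

namespace Pool.Agent.Half

private noncomputable def cntbS (β u v : ℝ) (n : ℕ) : ℝ :=
  ∑ b ∈ Finset.range n, if u ≤ Int.fract ((b : ℝ) * Ord2.al + β) ∧
    Int.fract ((b : ℝ) * Ord2.al + β) < v then (1 : ℝ) else 0

private theorem cntb_card (β u v : ℝ) (n : ℕ) :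
    (((Finset.range n).filter fun b : ℕ =>
        u ≤ Int.fract ((b : ℝ) * Ord2.al + β) ∧ Int.fract ((b : ℝ) * Ord2.al + β) < v).card : ℝ) =
      cntbS β u v n := by
  unfold cntbS
  rw [Finset.sum_boole]

private theorem cntb_add (β u v : ℝ) (n m : ℕ) :
    cntbS β u v (n + m) = cntbS β u v n + cntbS ((n : ℝ) * Ord2.al + β) u v m := by
  unfold cntbS
  rw [Finset.sum_range_add]
  congr 1
  refine Finset.sum_congr rfl fun x _ => ?_
  have e : (((n + x : ℕ) : ℝ) * Ord2.al + β) = (x : ℝ) * Ord2.al + ((n : ℝ) * Ord2.al + β) := by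
    push_cast; ring
  rw [e]

private theorem cntb_bounds (β u v : ℝ) (n : ℕ) : 0 ≤ cntbS β u v n ∧ cntbS β u v n ≤ n := by
  unfold cntbS
  constructor
  · refine Finset.sum_nonneg fun b _ => ?_
    split_ifs <;> norm_num
  · refine (Finset.sum_le_sum (g := fun _ => (1 : ℝ)) fun b _ => ?_).trans ?_
    · split_ifs <;> norm_num
    · simp

private theorem cntb_blocks {M : ℕ} {B : ℕ → ℕ} {r : ℕ} (h : Ord2.ParP M B r) (β u v : ℝ)
    (hu : 0 ≤ u) (huv : u ≤ v) (hv : v ≤ 1) (q : ℕ) :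
    |cntbS β u v (B r * q) - (B r * q : ℝ) * (v - u)| ≤ 16 / 2 ^ (4 * r) * (B r * q : ℝ) := by
  induction q with
  | zero => simp [cntbS]
  | succ q ih =>
    have h1 := cnt h (((B r * q : ℕ) : ℝ) * Ord2.al + β) u v hu huv hv
    rw [cntb_card] at h1
    rw [Nat.mul_succ, cntb_add]
    have e : cntbS β u v (B r * q) + cntbS (((B r * q : ℕ) : ℝ) * Ord2.al + β) u v (B r) -
        ((B r : ℝ) * ((q + 1 : ℕ) : ℝ)) * (v - u) =
        (cntbS β u v (B r * q) - (B r * q : ℝ) * (v - u)) +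
          (cntbS (((B r * q : ℕ) : ℝ) * Ord2.al + β) u v (B r) - (B r : ℝ) * (v - u)) := by
      push_cast; ring
    rw [e]
    refine (abs_add_le _ _).trans ((add_le_add ih h1).trans (le_of_eq ?_))
    push_cast; ring

private theorem cntb_pos {M : ℕ} {B : ℕ → ℕ} {r : ℕ} (h : Ord2.ParP M B r) : 0 < B r := by
  obtain ⟨q, p, N, -, -, -, -, -, h1, -⟩ := h
  have : 0 < 2 ^ (M * r) := by positivity
  omega

theorem cnt_le {M : ℕ} {B : ℕ → ℕ} {r : ℕ} (h : Ord2.ParP M B r) (C : ℕ) (β u v : ℝ) (hu : 0 ≤ u)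
    (huv : u ≤ v) (hv : v ≤ 1) :
    (((Finset.range C).filter fun b : ℕ =>
        u ≤ Int.fract ((b : ℝ) * Ord2.al + β) ∧ Int.fract ((b : ℝ) * Ord2.al + β) < v).card : ℝ)
      ≤ (C : ℝ) * (v - u + 16 / 2 ^ (4 * r)) + B r := by
  rw [cntb_card]
  have hB := cntb_pos h
  have h1 := cntb_blocks h β u v hu huv hv (C / B r)
  have h2 := cntb_bounds (((B r * (C / B r) : ℕ) : ℝ) * Ord2.al + β) u v (C % B r)
  have h3 := cntb_add β u v (B r * (C / B r)) (C % B r)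
  rw [Nat.div_add_mod] at h3
  have h4 : ((C % B r : ℕ) : ℝ) ≤ B r := by exact_mod_cast (Nat.mod_lt C hB).le
  have h5 : (C : ℝ) = (B r : ℝ) * ((C / B r : ℕ) : ℝ) + ((C % B r : ℕ) : ℝ) := by
    exact_mod_cast (Nat.div_add_mod C (B r)).symm
  have h6 : (0 : ℝ) ≤ 16 / 2 ^ (4 * r) := by positivity
  have h7 : (0 : ℝ) ≤ ((C % B r : ℕ) : ℝ) := Nat.cast_nonneg _
  have h8 := (abs_le.1 h1).2
  have h9 : 0 ≤ ((C % B r : ℕ) : ℝ) * (v - u + 16 / 2 ^ (4 * r)) :=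
    mul_nonneg h7 (by linarith)
  rw [h3]
  nlinarith [h2.2, h8, h9, h5]

theorem le_cnt {M : ℕ} {B : ℕ → ℕ} {r : ℕ} (h : Ord2.ParP M B r) (C : ℕ) (β u v : ℝ) (hu : 0 ≤ u)
    (huv : u ≤ v) (hv : v ≤ 1) :
    (C : ℝ) * (v - u - 16 / 2 ^ (4 * r)) - B r ≤
    (((Finset.range C).filter fun b : ℕ =>
        u ≤ Int.fract ((b : ℝ) * Ord2.al + β) ∧ Int.fract ((b : ℝ) * Ord2.al + β) < v).card : ℝ) := by
  rw [cntb_card]
  have hB := cntb_pos h
  have h1 := cntb_blocks h β u v hu huv hv (C / B r)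
  have h2 := cntb_bounds (((B r * (C / B r) : ℕ) : ℝ) * Ord2.al + β) u v (C % B r)
  have h3 := cntb_add β u v (B r * (C / B r)) (C % B r)
  rw [Nat.div_add_mod] at h3
  have h4 : ((C % B r : ℕ) : ℝ) ≤ B r := by exact_mod_cast (Nat.mod_lt C hB).le
  have h5 : (C : ℝ) = (B r : ℝ) * ((C / B r : ℕ) : ℝ) + ((C % B r : ℕ) : ℝ) := by
    exact_mod_cast (Nat.div_add_mod C (B r)).symm
  have h6 : (0 : ℝ) ≤ 16 / 2 ^ (4 * r) := by positivity
  have h7 : (0 : ℝ) ≤ ((C % B r : ℕ) : ℝ) := Nat.cast_nonneg _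
  have h8 := (abs_le.1 h1).1
  have h9 : 0 ≤ ((C % B r : ℕ) : ℝ) * (16 / 2 ^ (4 * r)) := mul_nonneg h7 h6
  have h10 : ((C % B r : ℕ) : ℝ) * (v - u) ≤ ((C % B r : ℕ) : ℝ) * 1 :=
    mul_le_mul_of_nonneg_left (by linarith) h7
  rw [h3]
  have h11 : (C : ℝ) * (v - u - 16 / 2 ^ (4 * r)) = (B r * (C / B r : ℕ) : ℝ) * (v - u) -
      16 / 2 ^ (4 * r) * (B r * (C / B r : ℕ) : ℝ) + ((C % B r : ℕ) : ℝ) * (v - u) -
      ((C % B r : ℕ) : ℝ) * (16 / 2 ^ (4 * r)) := by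
    rw [h5]; ring
  rw [h11]
  linarith [h2.1]

end Pool.Agent.Half
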