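import Pool.Agent.Half.HDefs

/-! Module CONT. Convergence on characters implies convergence on continuous functions. PROOF: `span_fourier_closure_eq_top`
(density of trigonometric polynomials in `C(T, ℂ)`), linearity and the bound `‖avgC G f x‖ ≤ ‖f‖`; compare
`Ord2.generic_cont` (Pool/Agent/Ord2) for a similar proof. -/

open MeasureTheory Filter Topology

namespace Pool.Agent.Half

private theorem cont_bound (G : Finset (ℕ × ℕ)) (g : C(T, ℂ)) (x : T) : ‖avgC G g x‖ ≤ ‖g‖ := by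
  unfold avgC
  rw [norm_div, Complex.norm_natCast]
  apply div_le_of_le_mul₀ (Nat.cast_nonneg _) (norm_nonneg _)
  refine (norm_sum_le _ _).trans ?_
  refine (Finset.sum_le_card_nsmul G _ ‖g‖ fun p _ => g.norm_coe_le_norm _).trans ?_
  rw [nsmul_eq_mul, mul_comm]

private theorem cont_add (G : Finset (ℕ × ℕ)) (f g : C(T, ℂ)) (x : T) :
    avgC G (f + g : C(T, ℂ)) x = avgC G f x + avgC G g x := by
  unfold avgC
  rw [← add_div, ← Finset.sum_add_distrib]
  rfl

private theorem cont_smul (G : Finset (ℕ × ℕ)) (c : ℂ) (f : C(T, ℂ)) (x : T) :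
    avgC G (c • f : C(T, ℂ)) x = c * avgC G f x := by
  unfold avgC
  rw [← mul_div_assoc, Finset.mul_sum]
  rfl

private theorem cont_int (κ : Measure T) [IsFiniteMeasure κ] (f : C(T, ℂ)) :
    Integrable f κ :=
  f.continuous.integrable_of_hasCompactSupport (HasCompactSupport.of_compactSpace _)

private theorem cont_span (G : ℕ → Finset (ℕ × ℕ))
    (μ : Measure T) [IsProbabilityMeasure μ] (x : T)
    (h : ∀ m : ℤ, Tendsto (fun n => avgC (G n) (fourier m) x) atTop (𝓝 (∫ z, fourier m z ∂μ)))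
    (g : C(T, ℂ)) (hg : g ∈ Submodule.span ℂ (Set.range (@fourier 1))) :
    Tendsto (fun n => avgC (G n) g x) atTop (𝓝 (∫ z, g z ∂μ)) := by
  induction hg using Submodule.span_induction with
  | mem g hg =>
    obtain ⟨n, rfl⟩ := hg
    exact h n
  | zero =>
    have h1 : ∀ n, avgC (G n) (0 : C(T, ℂ)) x = 0 := by
      intro n
      unfold avgC
      simp
    simp only [h1]
    simp
  | add f g _ _ hf hg =>
    simp only [cont_add]
    have h1 : ∫ z, (f + g : C(T, ℂ)) z ∂μ = ∫ z, f z ∂μ + ∫ z, g z ∂μ := by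
      simp only [ContinuousMap.add_apply]
      exact integral_add (cont_int μ f) (cont_int μ g)
    rw [h1]
    exact hf.add hg
  | smul c f _ hf =>
    simp only [cont_smul]
    have h1 : ∫ z, (c • f : C(T, ℂ)) z ∂μ = c * ∫ z, f z ∂μ := by
      simp only [ContinuousMap.smul_apply, smul_eq_mul]
      exact integral_const_mul _ _
    rw [h1]
    exact hf.const_mul c

private theorem cont_all (G : ℕ → Finset (ℕ × ℕ))
    (μ : Measure T) [IsProbabilityMeasure μ] (x : T)
    (h : ∀ m : ℤ, Tendsto (fun n => avgC (G n) (fourier m) x) atTop (𝓝 (∫ z, fourier m z ∂μ)))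
    (f : C(T, ℂ)) : Tendsto (fun n => avgC (G n) f x) atTop (𝓝 (∫ z, f z ∂μ)) := by
  have hf : f ∈ (Submodule.span ℂ (Set.range (@fourier 1))).topologicalClosure := by
    have : Fact ((0 : ℝ) < 1) := ⟨one_pos⟩
    rw [span_fourier_closure_eq_top]; trivial
  rw [← SetLike.mem_coe, Submodule.topologicalClosure_coe, Metric.mem_closure_iff] at hf
  rw [Metric.tendsto_atTop]
  intro ε hε
  obtain ⟨g, hg, hfg⟩ := hf (ε / 3) (by positivity)
  rw [dist_eq_norm] at hfg
  have h1 := cont_span G μ x h g hg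
  rw [Metric.tendsto_atTop] at h1
  obtain ⟨N, hN⟩ := h1 (ε / 3) (by positivity)
  refine ⟨N, fun n hn => ?_⟩
  have h2 := hN n hn
  have e1 : avgC (G n) f x = avgC (G n) (f - g : C(T, ℂ)) x + avgC (G n) g x := by
    rw [← cont_add, sub_add_cancel]
  have e2 : ∫ z, f z ∂μ = ∫ z, (f - g : C(T, ℂ)) z ∂μ + ∫ z, g z ∂μ := by
    simp only [ContinuousMap.sub_apply]
    rw [integral_sub (cont_int μ f) (cont_int μ g), sub_add_cancel]
  have h3 := cont_bound (G n) (f - g) x
  have h4 : ‖∫ z, (f - g : C(T, ℂ)) z ∂μ‖ ≤ ‖f - g‖ := by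
    have h5 := norm_integral_le_of_norm_le_const (μ := μ) (C := ‖f - g‖)
      (f := fun z => (f - g : C(T, ℂ)) z)
      (Eventually.of_forall fun x => (f - g).norm_coe_le_norm x)
    simpa using h5
  rw [dist_eq_norm] at h2 ⊢
  rw [e1, e2]
  calc ‖avgC (G n) (f - g : C(T, ℂ)) x + avgC (G n) g x -
        (∫ z, (f - g : C(T, ℂ)) z ∂μ + ∫ z, g z ∂μ)‖
      = ‖avgC (G n) (f - g : C(T, ℂ)) x - ∫ z, (f - g : C(T, ℂ)) z ∂μ +
          (avgC (G n) g x - ∫ z, g z ∂μ)‖ := by
        congr 1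
        ring
    _ ≤ ‖avgC (G n) (f - g : C(T, ℂ)) x‖ + ‖∫ z, (f - g : C(T, ℂ)) z ∂μ‖ +
          ‖avgC (G n) g x - ∫ z, g z ∂μ‖ :=
        (norm_add_le _ _).trans (add_le_add_left (norm_sub_le _ _) _)
    _ < ε := by linarith

theorem cont_conv (G : ℕ → Finset (ℕ × ℕ)) (hG : ∀ᶠ n in atTop, (G n).Nonempty)
    (μ : Measure T) [IsProbabilityMeasure μ] (x : T)
    (h : ∀ m : ℤ, Tendsto (fun n => avgC (G n) (fourier m) x) atTop (𝓝 (∫ z, fourier m z ∂μ)))
    (f : C(T, ℝ)) : Tendsto (fun n => avg (G n) f x) atTop (𝓝 (∫ z, f z ∂μ)) := by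
  have h1 := cont_all G μ x h
    ⟨fun x => ((f x : ℝ) : ℂ), Complex.continuous_ofReal.comp f.continuous⟩
  have h2 : ∀ n, avgC (G n) (⟨fun x => ((f x : ℝ) : ℂ),
      Complex.continuous_ofReal.comp f.continuous⟩ : C(T, ℂ)) x = ((avg (G n) f x : ℝ) : ℂ) := by
    intro n
    unfold avgC avg
    push_cast
    rfl
  simp only [h2] at h1
  have h3 : ∫ z, (⟨fun x => ((f x : ℝ) : ℂ),
      Complex.continuous_ofReal.comp f.continuous⟩ : C(T, ℂ)) z ∂μ =
        ((∫ z, f z ∂μ : ℝ) : ℂ) := by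
    simp only [ContinuousMap.coe_mk]
    exact integral_complex_ofReal
  rw [h3] at h1
  have h4 : Tendsto (fun n => (((avg (G n) f x : ℝ) : ℂ)).re) atTop
      (𝓝 (((∫ z, f z ∂μ : ℝ) : ℂ)).re) := (Complex.continuous_re.tendsto _).comp h1
  simpa only [Complex.ofReal_re] using h4

end Pool.Agent.Half
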