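import Pool.Agent.Half.HDefs
import Pool.Agent.LogSc.Uniq

/-! Module ERGO. PROOF: for an invariant set `S`, `∫_S fourier m (g • x) ∂μ = ∫_S fourier m ∂μ` for `g = 2^a 3^b`
(`MeasurePreserving` and exact invariance of `S`), so `∫_S avgC (G n) (fourier m) ∂μ = ∫_S fourier m ∂μ`; by dominated
convergence (bound `1`) it tends to `μ(S) ∫ fourier m ∂μ`. So `μ.restrict S` and `μ S • μ` have the same Fourier
coefficients, hence are equal (`Pool/Agent/LogSc/Uniq.lean` or Mathlib), and `0 = μ.restrict S Sᶜ = μ S * μ Sᶜ`. -/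

open MeasureTheory Filter Topology

namespace Pool.Agent.Half

private theorem ergo_uniq {ν κ : Measure T} [IsFiniteMeasure ν] [IsFiniteMeasure κ]
    (h : ∀ n : ℤ, ∫ x, fourier n x ∂ν = ∫ x, fourier n x ∂κ) : ν = κ := by
  have hI : ∀ (κ : Measure T) [IsFiniteMeasure κ] (f : C(AddCircle (1 : ℝ), ℂ)),
      Integrable f κ := fun κ _ f =>
    f.continuous.integrable_of_hasCompactSupport (HasCompactSupport.of_compactSpace _)
  have hbd : ∀ (κ : Measure T) [IsFiniteMeasure κ] (f : C(AddCircle (1 : ℝ), ℂ)),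
      ‖∫ x, f x ∂κ‖ ≤ ‖f‖ * κ.real Set.univ := by
    intro κ _ f
    exact norm_integral_le_of_norm_le_const (C := ‖f‖)
      (Eventually.of_forall fun x => f.norm_coe_le_norm x)
  have hspan : ∀ g ∈ Submodule.span ℂ (Set.range (@fourier 1)),
      ∫ x, g x ∂ν = ∫ x, g x ∂κ := by
    intro g hg
    induction hg using Submodule.span_induction with
    | mem g hg =>
      obtain ⟨n, rfl⟩ := hg
      exact h n
    | zero => simp
    | add f g _ _ hf hg =>
      simp only [ContinuousMap.add_apply]
      rw [integral_add (hI ν f) (hI ν g), integral_add (hI _ f) (hI _ g), hf, hg]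
    | smul c f _ hf =>
      simp only [ContinuousMap.smul_apply, smul_eq_mul]
      rw [integral_const_mul, integral_const_mul, hf]
  have hall : ∀ f : C(AddCircle (1 : ℝ), ℂ), ∫ x, f x ∂ν = ∫ x, f x ∂κ := by
    intro f
    have hf : f ∈ (Submodule.span ℂ (Set.range (@fourier 1))).topologicalClosure := by
      have : Fact ((0 : ℝ) < 1) := ⟨one_pos⟩
      rw [span_fourier_closure_eq_top]; trivial
    rw [← SetLike.mem_coe, Submodule.topologicalClosure_coe, Metric.mem_closure_iff] at hf
    rw [← sub_eq_zero, ← norm_eq_zero]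
    refine le_antisymm (le_of_forall_pos_le_add fun δ hδ => ?_) (norm_nonneg _)
    set M : ℝ := ν.real Set.univ + κ.real Set.univ with hM
    have hM0 : 0 ≤ M := by positivity
    obtain ⟨g, hg, hfg⟩ := hf (δ / (M + 1)) (by positivity)
    rw [dist_eq_norm] at hfg
    have e1 : ∫ x, f x ∂ν - ∫ x, f x ∂κ
        = ∫ x, (f - g) x ∂ν - ∫ x, (f - g) x ∂κ := by
      simp only [ContinuousMap.sub_apply]
      rw [integral_sub (hI ν f) (hI ν g), integral_sub (hI _ f) (hI _ g),
        hspan g hg]
      ring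
    rw [e1]
    calc ‖∫ x, (f - g) x ∂ν - ∫ x, (f - g) x ∂κ‖
        ≤ ‖∫ x, (f - g) x ∂ν‖ + ‖∫ x, (f - g) x ∂κ‖ :=
          norm_sub_le _ _
      _ ≤ ‖f - g‖ * ν.real Set.univ + ‖f - g‖ * κ.real Set.univ :=
          add_le_add (hbd ν _) (hbd _ _)
      _ = ‖f - g‖ * M := by rw [hM]; ring
      _ ≤ δ / (M + 1) * (M + 1) := by
          refine mul_le_mul hfg.le (by linarith) hM0 (by positivity)
      _ = 0 + δ := by field_simp; ring
  apply ext_of_forall_integral_eq_of_IsFiniteMeasure
  intro f
  have h1 := hall ⟨fun x => ((f x : ℝ) : ℂ), Complex.continuous_ofReal.comp f.continuous⟩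
  simp only [ContinuousMap.coe_mk] at h1
  rw [integral_complex_ofReal, integral_complex_ofReal] at h1
  exact_mod_cast h1

private theorem ergo_pow {μ : Measure T} {S : Set T} {m : ℕ}
    (h : MeasurePreserving (fun x : T => m • x) μ μ) (hS : (fun x : T => m • x) ⁻¹' S = S)
    (k : ℕ) : MeasurePreserving (fun x : T => m ^ k • x) μ μ ∧
      (fun x : T => m ^ k • x) ⁻¹' S = S := by
  induction k with
  | zero =>
    have h1 : (fun x : T => m ^ 0 • x) = id := by
      funext x
      simp
    rw [h1]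
    exact ⟨MeasurePreserving.id μ, rfl⟩
  | succ k ih =>
    have h1 : (fun x : T => m ^ (k + 1) • x) = (fun x : T => m ^ k • x) ∘ (fun x : T => m • x) := by
      funext x
      simp only [Function.comp]
      rw [pow_succ, mul_nsmul']
    rw [h1]
    refine ⟨ih.1.comp h, ?_⟩
    rw [Set.preimage_comp, ih.2, hS]

private theorem ergo_int {μ : Measure T} [IsProbabilityMeasure μ] {S : Set T} (hS : MeasurableSet S)
    {g : ℕ} (h : MeasurePreserving (fun x : T => g • x) μ μ)
    (hg : (fun x : T => g • x) ⁻¹' S = S) (m : ℤ) :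
    ∫ x in S, fourier m (g • x) ∂μ = ∫ x in S, fourier m x ∂μ := by
  have h1 := h.restrict_preimage hS
  rw [hg] at h1
  have h2 := h1.map_eq
  conv_rhs => rw [← h2]
  rw [integral_map h1.measurable.aemeasurable]
  exact (map_continuous (fourier m)).aestronglyMeasurable

theorem ergo (G : ℕ → Finset (ℕ × ℕ)) (hG : ∀ᶠ n in atTop, (G n).Nonempty)
    (μ : Measure T) [IsProbabilityMeasure μ]
    (h2 : MeasurePreserving (fun x : T => (2 : ℕ) • x) μ μ)
    (h3 : MeasurePreserving (fun x : T => (3 : ℕ) • x) μ μ)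
    (h : ∀ m : ℤ, ∀ᵐ x ∂μ, Tendsto (fun n => avgC (G n) (fourier m) x) atTop (𝓝 (∫ z, fourier m z ∂μ)))
    (S : Set T) (hS : MeasurableSet S) (hS2 : (fun x : T => (2 : ℕ) • x) ⁻¹' S = S)
    (hS3 : (fun x : T => (3 : ℕ) • x) ⁻¹' S = S) : μ S = 0 ∨ μ S = 1 := by
  have hsc : ∀ (g : ℕ) (m : ℤ), Continuous (fun x : T => (fourier m (g • x) : ℂ)) := fun g m =>
    (map_continuous (fourier m)).comp (continuous_nsmul g)
  have hpg : ∀ (p : ℕ × ℕ) (m : ℤ), ∫ x in S, fourier m ((2 ^ p.1 * 3 ^ p.2 : ℕ) • x) ∂μ =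
      ∫ x in S, fourier m x ∂μ := by
    intro p m
    obtain ⟨a1, a2⟩ := ergo_pow h2 hS2 p.1
    obtain ⟨b1, b2⟩ := ergo_pow h3 hS3 p.2
    have e1 : (fun x : T => (2 ^ p.1 * 3 ^ p.2 : ℕ) • x) =
        (fun x : T => 2 ^ p.1 • x) ∘ (fun x : T => 3 ^ p.2 • x) := by
      funext x
      simp only [Function.comp]
      rw [mul_nsmul']
    have c1 : MeasurePreserving (fun x : T => (2 ^ p.1 * 3 ^ p.2 : ℕ) • x) μ μ := by
      rw [e1]
      exact a1.comp b1
    have c2 : (fun x : T => (2 ^ p.1 * 3 ^ p.2 : ℕ) • x) ⁻¹' S = S := by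
      rw [e1, Set.preimage_comp, a2, b2]
    exact ergo_int hS c1 c2 m
  have havg : ∀ (m : ℤ) (n : ℕ), (G n).Nonempty →
      ∫ x in S, avgC (G n) (fourier m) x ∂μ = ∫ x in S, fourier m x ∂μ := by
    intro m n hn
    unfold avgC
    rw [integral_div, integral_finsetSum]
    · rw [Finset.sum_congr rfl fun p _ => hpg p m, Finset.sum_const, nsmul_eq_mul]
      have h0 : ((G n).card : ℂ) ≠ 0 := by
        simpa using hn.ne_empty
      field_simp
    · intro p _
      exact ((hsc _ m).integrable_of_hasCompactSupport (HasCompactSupport.of_compactSpace _))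
  have hmain : ∀ m : ℤ, ∫ x in S, fourier m x ∂μ = (μ S).toReal * ∫ x, fourier m x ∂μ := by
    intro m
    have d1 : Tendsto (fun n => ∫ x in S, avgC (G n) (fourier m) x ∂μ) atTop
        (𝓝 (∫ x in S, (∫ z, fourier m z ∂μ) ∂μ)) := by
      refine tendsto_integral_of_dominated_convergence (fun _ => (1 : ℝ)) ?_ ?_ ?_ ?_
      · intro n
        have hc : Continuous (fun x : T => avgC (G n) (fourier m) x) := by
          unfold avgC
          exact (continuous_finsetSum _ fun p _ => hsc _ m).div_const _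
        exact hc.aestronglyMeasurable
      · exact integrable_const _
      · intro n
        refine Eventually.of_forall fun x => ?_
        unfold avgC
        rw [norm_div, Complex.norm_natCast]
        apply div_le_of_le_mul₀ (Nat.cast_nonneg _) zero_le_one
        refine (norm_sum_le _ _).trans ?_
        refine (Finset.sum_le_card_nsmul (G n) _ 1 fun p _ => ?_).trans ?_
        · exact le_of_eq (Circle.norm_coe _)
        · rw [nsmul_eq_mul, mul_comm]
      · exact ae_restrict_of_ae (h m)
    have d2 : Tendsto (fun n => ∫ x in S, avgC (G n) (fourier m) x ∂μ) atTop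
        (𝓝 (∫ x in S, fourier m x ∂μ)) := by
      refine tendsto_const_nhds.congr' ?_
      filter_upwards [hG] with n hn
      exact (havg m n hn).symm
    have d3 := tendsto_nhds_unique d2 d1
    rw [d3, setIntegral_const, Complex.real_smul]
    rfl
  have hfin : IsFiniteMeasure (μ S • μ) := by
    refine ⟨?_⟩
    rw [Measure.smul_apply, measure_univ, smul_eq_mul, mul_one]
    exact measure_lt_top μ S
  have heq : μ.restrict S = μ S • μ := by
    apply ergo_uniq
    intro m
    rw [hmain m, integral_smul_measure, Complex.real_smul]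
  have h4 : μ.restrict S Sᶜ = 0 := by
    rw [Measure.restrict_apply hS.compl, Set.inter_comm, Set.inter_compl_self, measure_empty]
  rw [heq, Measure.smul_apply, smul_eq_mul, mul_eq_zero] at h4
  rcases h4 with h4 | h4
  · exact Or.inl h4
  · right
    rwa [prob_compl_eq_zero_iff hS] at h4

end Pool.Agent.Half
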