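import Pool.Agent.Half.HDefs

/-! Module REG. If `∫ f ∂μ ≥ (1/2) ∫ f ∂volume` for all continuous `f ≥ 0` then a Lebesgue null Borel set does not have full
`μ` measure. PROOF: if `volume S = 0` and `μ S = 1` take `K ⊆ S` compact, `μ K > 7/8` (inner regularity), an open
`U ⊇ K` with `volume U < 1/8` (outer regularity), and `f` continuous, `0 ≤ f ≤ 1`, `f = 0` on `K`, `f = 1` outside `U`
(Urysohn, `exists_continuous_zero_one_of_isClosed`): `∫ f ∂μ ≤ 1/8`, `∫ f ∂volume ≥ 7/8`. -/

open MeasureTheory Filter Topology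

namespace Pool.Agent.Half

theorem reg (μ : Measure T) [IsProbabilityMeasure μ]
    (h : ∀ f : C(T, ℝ), (∀ z, 0 ≤ f z) → (∫ z, f z ∂(volume : Measure T)) / 2 ≤ ∫ z, f z ∂μ)
    (S : Set T) (hS : MeasurableSet S) (h0 : (volume : Measure T) S = 0) : μ S ≠ 1 := by
  intro h1
  have hvp : (volume : Measure T) Set.univ = 1 := by
    rw [AddCircle.measure_univ, ENNReal.ofReal_one]
  obtain ⟨K, hKS, hK, hK1⟩ := hS.exists_isCompact_lt_add (μ := μ) (measure_ne_top μ S)
    (ε := 1 / 8) (by norm_num)
  have hK0 : (volume : Measure T) K = 0 := measure_mono_null hKS h0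
  obtain ⟨U, hKU, hU, hU1⟩ := K.exists_isOpen_lt_of_lt (μ := (volume : Measure T)) (1 / 8)
    (by rw [hK0]; norm_num)
  obtain ⟨f, hf0, hf1, hf⟩ := exists_continuous_zero_one_of_isClosed hK.isClosed
    hU.isClosed_compl (Set.disjoint_left.2 fun x hx hx' => hx' (hKU hx))
  have hfpos : ∀ z, 0 ≤ f z := fun z => (hf z).1
  have hle : ∀ z, f z ≤ 1 := fun z => (hf z).2
  have h2 := h f hfpos
  have hint : ∀ κ : Measure T, IsFiniteMeasure κ → Integrable (fun x => f x) κ := by
    intro κ _
    exact f.continuous.integrable_of_hasCompactSupport (HasCompactSupport.of_compactSpace _)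
  have hμK : μ Kᶜ ≤ 1 / 8 := by
    have e1 := prob_add_prob_compl (μ := μ) hK.measurableSet
    have e2 : μ K + μ Kᶜ < μ K + 1 / 8 := by
      rw [e1]
      exact lt_of_eq_of_lt h1.symm hK1
    exact ((ENNReal.add_lt_add_iff_left (measure_ne_top μ K)).1 e2).le
  have h3 : ∫ z, f z ∂μ ≤ 1 / 8 := by
    have e1 : ∫ z, f z ∂μ = ∫ z in Kᶜ, f z ∂μ := by
      rw [← integral_add_compl hK.measurableSet (hint μ inferInstance)]
      have e2 : ∫ z in K, f z ∂μ = 0 := by
        rw [setIntegral_congr_fun hK.measurableSet (g := fun _ => (0 : ℝ)) (fun z hz => hf0 hz)]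
        simp
      rw [e2, zero_add]
    rw [e1]
    calc ∫ z in Kᶜ, f z ∂μ ≤ ∫ z in Kᶜ, (1 : ℝ) ∂μ := by
          apply integral_mono_of_nonneg (Eventually.of_forall hfpos) (integrable_const _)
            (Eventually.of_forall hle)
      _ = (μ Kᶜ).toReal := by
          rw [integral_const]
          simp [Measure.real]
      _ ≤ (1 / 8 : ENNReal).toReal := ENNReal.toReal_mono (by norm_num) hμK
      _ = 1 / 8 := by norm_num
  have hvU : (1 : ENNReal) - 1 / 8 ≤ (volume : Measure T) Uᶜ := by
    rw [measure_compl hU.measurableSet (measure_ne_top _ _), hvp]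
    exact tsub_le_tsub_left hU1.le 1
  have h4 : 7 / 8 ≤ ∫ z, f z ∂(volume : Measure T) := by
    calc (7 / 8 : ℝ) = ((1 : ENNReal) - 1 / 8).toReal := by
          rw [ENNReal.toReal_sub_of_le (by norm_num) (by norm_num)]
          norm_num
      _ ≤ ((volume : Measure T) Uᶜ).toReal := ENNReal.toReal_mono (measure_ne_top _ _) hvU
      _ = ∫ z in Uᶜ, (1 : ℝ) ∂(volume : Measure T) := by
          rw [integral_const]
          simp [Measure.real]
      _ = ∫ z in Uᶜ, f z ∂(volume : Measure T) := by
          apply setIntegral_congr_fun hU.measurableSet.compl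
          intro z hz
          exact (hf1 hz).symm
      _ ≤ ∫ z, f z ∂(volume : Measure T) :=
          setIntegral_le_integral (hint _ inferInstance) (Eventually.of_forall hfpos)
  linarith

end Pool.Agent.Half
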