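import Pool.Agent.Half.Slices
import Pool.Agent.Half.Cont
import Pool.Agent.Half.Ergo
import Pool.Agent.Half.Reg

/-! Consequences for invariant measures (helper56). -/

open MeasureTheory Filter Topology
open scoped ENNReal

namespace Pool.Agent.Half

theorem sl_nonempty (r : ℕ → ℕ) (hr : Tendsto r atTop atTop) :
    ∀ᶠ n in atTop, (sl n (r n)).Nonempty := by
  filter_upwards [hr.eventually_ge_atTop 1] with n hn
  rw [← Finset.card_pos]
  have h1 := sl_card n (r n)
  have h2 := (bb_bounds n).1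
  have h4 : 0 < r n * bb n := Nat.mul_pos (by omega) (by omega)
  omega

theorem half_ae (μ : Measure T) (hna : ∀ x, μ {x} = 0) (r : ℕ → ℕ) (hr : Tendsto r atTop atTop) (A : ℝ)
    (hA : ∀ n : ℕ, (r n : ℝ) ≤ A * Real.log (n + 2)) : ∀ᵐ x ∂μ, HalfLeb r x := by
  have : NullSingletonClass μ := ⟨hna⟩
  exact (slices_countable r hr A hA).measure_zero μ

theorem vol_of_conv (μ : Measure T) [IsProbabilityMeasure μ] (hna : ∀ x, μ {x} = 0)
    (h2 : MeasurePreserving (fun x : T => (2 : ℕ) • x) μ μ)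
    (h3 : MeasurePreserving (fun x : T => (3 : ℕ) • x) μ μ)
    (r : ℕ → ℕ) (hr : Tendsto r atTop atTop) (A : ℝ) (hA : ∀ n : ℕ, (r n : ℝ) ≤ A * Real.log (n + 2))
    (h : ∀ m : ℤ, ∀ᵐ x ∂μ,
      Tendsto (fun n => avgC (sl n (r n)) (fourier m) x) atTop (𝓝 (∫ z, fourier m z ∂μ))) :
    μ = volume := by
  obtain ⟨x, hx1, hx2⟩ := ((half_ae μ hna r hr A hA).and (ae_all_iff.2 h)).exists
  have hge : ∀ f : C(T, ℝ), (∀ z, 0 ≤ f z) → (∫ z, f z ∂(volume : Measure T)) / 2 ≤ ∫ z, f z ∂μ := by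
    intro f hf
    have hconv := cont_conv (fun n => sl n (r n)) (sl_nonempty r hr) μ x hx2 f
    apply le_of_forall_pos_le_add
    intro δ hδ
    have h1 := hx1 {f} (by simpa using hf) (δ / 2) (by positivity)
    have h3 := hconv.eventually (gt_mem_nhds (show (∫ z, f z ∂μ) < (∫ z, f z ∂μ) + δ / 2 by linarith))
    obtain ⟨n, hn1, hn2⟩ := (h1.and_eventually h3).exists
    have h4 := hn1 f (by simp)
    linarith
  obtain ⟨S, hSm, hS2, hS3, hS0, hdec, -⟩ := dec μ h2 h3
  have hS : μ S = 0 := by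
    rcases ergo (fun n => sl n (r n)) (sl_nonempty r hr) μ h2 h3 h S hSm hS2 hS3 with h0 | h1
    · exact h0
    · exact absurd h1 (reg μ hge S hSm hS0)
  have hSc : μ Sᶜ = 1 := by
    rw [prob_compl_eq_one_iff hSm]
    exact hS
  rw [hSc, one_smul, Measure.restrict_eq_zero.2 hS, add_zero] at hdec
  exact hdec

end Pool.Agent.Half
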