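import Pool.Agent.Half.VarM
import Pool.Agent.Half.SlB

/-! Module NETB. PROOF: `r_j = ⌊(log n_j) ^ κ'⌋`, `G_j = sl (n j) r_j`. For `p, p' ∈ G_j`: `|lv (p - p')| ≤ r_j` (definition of `sl`: `n ≤ a + b α < n + r`). For
every `w` there are at most `#G_j` pairs with difference `w`, so by `var_mu` the `j`-th integral is `≤ (1 / #G_j) ∑_{w : |lv w| ≤ r_j} dev w`
(finite sums over `w` in a finite set of differences), `#G_j ≥ r_j bb (n j) ≥ r_j n_j / 2` (`sl_card`, `bb_bounds`). Exchange the sums over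
`j < J` and `w`: `≤ 2 ∑_w dev w ∑_{j < J, |lv w| ≤ r_j + 1} 1 / (n_j r_j) ≤ 2 C ∑_w dev w (1 + |lv w|) ^ (-c)`, for every `J`. -/

open MeasureTheory Filter Topology
open scoped ENNReal

namespace Pool.Agent.Half

private theorem NETB_lv {n r : ℕ} {p : ℕ × ℕ} (h : p ∈ sl n r) :
    (n : ℝ) ≤ p.1 + Ord2.al * p.2 ∧ (p.1 : ℝ) + Ord2.al * p.2 < n + r := by
  unfold sl at h
  obtain ⟨-, h1, h2⟩ := Finset.mem_filter.1 h
  have hl : 0 < Real.log 2 := Real.log_pos (by norm_num)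
  have e : Real.log ((2 ^ p.1 * 3 ^ p.2 : ℕ) : ℝ) = (p.1 + Ord2.al * p.2) * Real.log 2 := by
    push_cast
    rw [Real.log_mul (by positivity) (by positivity), Real.log_pow, Real.log_pow]
    unfold Ord2.al
    field_simp
  have e1 : Real.log ((2 ^ n : ℕ) : ℝ) = n * Real.log 2 := by
    push_cast
    rw [Real.log_pow]
  have e2 : Real.log ((2 ^ (n + r) : ℕ) : ℝ) = (n + r) * Real.log 2 := by
    push_cast
    rw [Real.log_pow]
    push_cast
    ring
  constructor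
  · have h3 : Real.log ((2 ^ n : ℕ) : ℝ) ≤ Real.log ((2 ^ p.1 * 3 ^ p.2 : ℕ) : ℝ) := by
      apply Real.log_le_log
      · positivity
      · exact_mod_cast h1
    rw [e, e1] at h3
    exact le_of_mul_le_mul_right h3 hl
  · have h3 : Real.log ((2 ^ p.1 * 3 ^ p.2 : ℕ) : ℝ) < Real.log ((2 ^ (n + r) : ℕ) : ℝ) := by
      apply Real.log_lt_log
      · positivity
      · exact_mod_cast h2
    rw [e, e2] at h3
    exact lt_of_mul_lt_mul_right h3 hl.le

/-- the difference of two pairs -/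
private def NETB_d (p p' : ℕ × ℕ) : ℤ × ℤ := ((p.1 : ℤ) - p'.1, (p.2 : ℤ) - p'.2)

private theorem NETB_inj (p' : ℕ × ℕ) : Function.Injective fun p => NETB_d p p' := by
  intro p q h
  unfold NETB_d at h
  simp only [Prod.mk.injEq] at h
  exact Prod.ext (by omega) (by omega)

private theorem NETB_le {n r : ℕ} {p p' : ℕ × ℕ} (h : p ∈ sl n r) (h' : p' ∈ sl n r) :
    |Ord2.lv (NETB_d p p')| ≤ r := by
  obtain ⟨a1, a2⟩ := NETB_lv h
  obtain ⟨b1, b2⟩ := NETB_lv h'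
  have e : Ord2.lv (NETB_d p p') =
      ((p.1 : ℝ) + Ord2.al * p.2) - ((p'.1 : ℝ) + Ord2.al * p'.2) := by
    unfold Ord2.lv NETB_d
    push_cast
    ring
  rw [e, abs_le]
  constructor <;> linarith

/-- the set of differences -/
private def NETB_W (G : Finset (ℕ × ℕ)) : Finset (ℤ × ℤ) :=
  (G ×ˢ G).image fun q => NETB_d q.1 q.2

private theorem NETB_pairs (G : Finset (ℕ × ℕ)) (D : ℤ × ℤ → ℝ) (hD : ∀ w, 0 ≤ D w) :
    ∑ p ∈ G, ∑ p' ∈ G, D (NETB_d p p') ≤ (G.card : ℝ) * ∑ w ∈ NETB_W G, D w := by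
  rw [Finset.sum_comm, ← nsmul_eq_mul, ← Finset.sum_const]
  refine Finset.sum_le_sum fun p' hp' => ?_
  have e1 : ∑ p ∈ G, D (NETB_d p p') = ∑ w ∈ G.image (fun p => NETB_d p p'), D w :=
    (Finset.sum_image fun p _ q _ h => NETB_inj p' h).symm
  rw [e1]
  refine Finset.sum_le_sum_of_subset_of_nonneg ?_ fun w _ _ => hD w
  intro w hw
  obtain ⟨p, hp, rfl⟩ := Finset.mem_image.1 hw
  exact Finset.mem_image.2 ⟨(p, p'), Finset.mem_product.2 ⟨hp, hp'⟩, rfl⟩

theorem net_sum (μ : Measure T) [IsProbabilityMeasure μ]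
    (h2 : MeasurePreserving (fun x : T => (2 : ℕ) • x) μ μ)
    (h3 : MeasurePreserving (fun x : T => (3 : ℕ) • x) μ μ) (m : ℤ) (κ' c : ℝ) (n : ℕ → ℕ) (C : ℝ)
    (hn : ∀ j, 1 ≤ n j ∧ 1 ≤ ⌊(Real.log (n j)) ^ κ'⌋₊)
    (hC : ∀ L : ℝ, 0 ≤ L → ∀ J : ℕ,
      ∑ j ∈ (Finset.range J).filter (fun j => L ≤ (⌊(Real.log (n j)) ^ κ'⌋₊ : ℝ) + 1),
        1 / ((n j : ℝ) * ⌊(Real.log (n j)) ^ κ'⌋₊) ≤ C * (1 + L) ^ (-c))
    (hs : Summable fun w : ℤ × ℤ => Ord2.dev μ m w * (1 + |Ord2.lv w|) ^ (-c)) :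
    ∑' j, ∫⁻ x, ENNReal.ofReal
      (‖avgC (sl (n j) ⌊(Real.log (n j)) ^ κ'⌋₊) (fourier m) x - Ord2.cf μ m‖ ^ 2) ∂μ ≠ ⊤ := by
  set r : ℕ → ℕ := fun j => ⌊(Real.log (n j)) ^ κ'⌋₊ with hr
  set G : ℕ → Finset (ℕ × ℕ) := fun j => sl (n j) (r j) with hG
  have hD : ∀ w, 0 ≤ Ord2.dev μ m w := fun w => norm_nonneg _
  have hC0 : 0 ≤ C := by
    have h := hC 0 le_rfl 0
    simpa using h
  have hn0 : ∀ j, (0 : ℝ) < n j := fun j => by exact_mod_cast (hn j).1
  have hr0 : ∀ j, (0 : ℝ) < r j := fun j => by exact_mod_cast (hn j).2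
  have hcard : ∀ j, (n j : ℝ) * r j / 2 ≤ ((G j).card : ℝ) := by
    intro j
    have e1 := sl_card (n j) (r j)
    have e2 := (bb_bounds (n j)).1
    have e3 : n j * r j ≤ 2 * (G j).card := by
      calc n j * r j ≤ 2 * bb (n j) * r j := Nat.mul_le_mul_right _ e2.le
        _ = 2 * (r j * bb (n j)) := by ring
        _ ≤ 2 * (G j).card := Nat.mul_le_mul_left 2 e1
    have e4 : (n j : ℝ) * r j ≤ 2 * ((G j).card : ℝ) := by exact_mod_cast e3
    linarith
  have hcard0 : ∀ j, (0 : ℝ) < ((G j).card : ℝ) := fun j => by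
    have := mul_pos (hn0 j) (hr0 j)
    linarith [hcard j]
  have hne : ∀ j, (G j).Nonempty := fun j => by
    rw [← Finset.card_pos]
    exact_mod_cast hcard0 j
  -- one scale
  have hone : ∀ j, (∑ p ∈ G j, ∑ p' ∈ G j,
      Ord2.dev μ m ((p.1 : ℤ) - p'.1, (p.2 : ℤ) - p'.2)) / ((G j).card : ℝ) ^ 2 ≤
      ∑ w ∈ NETB_W (G j), Ord2.dev μ m w * (2 * (1 / ((n j : ℝ) * r j))) := by
    intro j
    have e1 := NETB_pairs (G j) (Ord2.dev μ m) hD
    have e2 : 0 ≤ ∑ w ∈ NETB_W (G j), Ord2.dev μ m w := Finset.sum_nonneg fun w _ => hD w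
    have e0 := hcard0 j
    have e3 : (∑ p ∈ G j, ∑ p' ∈ G j,
        Ord2.dev μ m ((p.1 : ℤ) - p'.1, (p.2 : ℤ) - p'.2)) / ((G j).card : ℝ) ^ 2 ≤
        (∑ w ∈ NETB_W (G j), Ord2.dev μ m w) / (G j).card := by
      rw [div_le_div_iff₀ (by positivity) e0]
      calc _ ≤ ((G j).card * ∑ w ∈ NETB_W (G j), Ord2.dev μ m w) * ((G j).card : ℝ) :=
            mul_le_mul_of_nonneg_right e1 e0.le
        _ = _ := by ring
    refine e3.trans ?_
    rw [← Finset.sum_mul, div_eq_mul_one_div]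
    refine mul_le_mul_of_nonneg_left ?_ e2
    have e4 := mul_pos (hn0 j) (hr0 j)
    calc 1 / ((G j).card : ℝ) ≤ 1 / ((n j : ℝ) * r j / 2) :=
          one_div_le_one_div_of_le (by linarith) (hcard j)
      _ = 2 * (1 / ((n j : ℝ) * r j)) := by
          field_simp
  -- the exchange of sums
  have hfin : ∀ J : ℕ, ∑ j ∈ Finset.range J, (∑ p ∈ G j, ∑ p' ∈ G j,
      Ord2.dev μ m ((p.1 : ℤ) - p'.1, (p.2 : ℤ) - p'.2)) / ((G j).card : ℝ) ^ 2 ≤
      2 * C * ∑' w : ℤ × ℤ, Ord2.dev μ m w * (1 + |Ord2.lv w|) ^ (-c) := by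
    intro J
    set W : Finset (ℤ × ℤ) := (Finset.range J).biUnion fun j => NETB_W (G j) with hW
    have hsubW : ∀ j ∈ Finset.range J, NETB_W (G j) ⊆ W := fun j hj =>
      Finset.subset_biUnion_of_mem (fun j => NETB_W (G j)) hj
    have hq : ∀ j, 0 ≤ 1 / ((n j : ℝ) * r j) := fun j => by
      have := mul_pos (hn0 j) (hr0 j)
      positivity
    calc ∑ j ∈ Finset.range J, (∑ p ∈ G j, ∑ p' ∈ G j,
          Ord2.dev μ m ((p.1 : ℤ) - p'.1, (p.2 : ℤ) - p'.2)) / ((G j).card : ℝ) ^ 2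
        ≤ ∑ j ∈ Finset.range J, ∑ w ∈ NETB_W (G j),
            Ord2.dev μ m w * (2 * (1 / ((n j : ℝ) * r j))) :=
          Finset.sum_le_sum fun j _ => hone j
      _ ≤ ∑ j ∈ Finset.range J, ∑ w ∈ W, Ord2.dev μ m w *
            (2 * (if |Ord2.lv w| ≤ (r j : ℝ) + 1 then 1 / ((n j : ℝ) * r j) else 0)) := by
          refine Finset.sum_le_sum fun j hj => ?_
          have e1 : ∑ w ∈ NETB_W (G j), Ord2.dev μ m w * (2 * (1 / ((n j : ℝ) * r j))) =
              ∑ w ∈ NETB_W (G j), Ord2.dev μ m w *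
                (2 * (if |Ord2.lv w| ≤ (r j : ℝ) + 1 then 1 / ((n j : ℝ) * r j) else 0)) := by
            refine Finset.sum_congr rfl fun w hw => ?_
            rw [if_pos]
            obtain ⟨q, hq, rfl⟩ := Finset.mem_image.1 hw
            obtain ⟨hq1, hq2⟩ := Finset.mem_product.1 hq
            linarith [NETB_le hq1 hq2]
          rw [e1]
          refine Finset.sum_le_sum_of_subset_of_nonneg (hsubW j hj) fun w _ _ => ?_
          refine mul_nonneg (hD w) (mul_nonneg (by norm_num) ?_)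
          split_ifs
          · exact hq j
          · exact le_rfl
      _ = ∑ w ∈ W, Ord2.dev μ m w * (2 * ∑ j ∈ (Finset.range J).filter
            (fun j => |Ord2.lv w| ≤ (r j : ℝ) + 1), 1 / ((n j : ℝ) * r j)) := by
          rw [Finset.sum_comm]
          refine Finset.sum_congr rfl fun w _ => ?_
          rw [← Finset.mul_sum, ← Finset.mul_sum, Finset.sum_filter]
      _ ≤ ∑ w ∈ W, Ord2.dev μ m w * (2 * (C * (1 + |Ord2.lv w|) ^ (-c))) := by
          refine Finset.sum_le_sum fun w _ => ?_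
          refine mul_le_mul_of_nonneg_left ?_ (hD w)
          exact mul_le_mul_of_nonneg_left (hC _ (abs_nonneg _) J) (by norm_num)
      _ = 2 * C * ∑ w ∈ W, Ord2.dev μ m w * (1 + |Ord2.lv w|) ^ (-c) := by
          rw [Finset.mul_sum]
          refine Finset.sum_congr rfl fun w _ => ?_
          ring
      _ ≤ 2 * C * ∑' w : ℤ × ℤ, Ord2.dev μ m w * (1 + |Ord2.lv w|) ^ (-c) := by
          refine mul_le_mul_of_nonneg_left ?_ (by positivity)
          refine hs.sum_le_tsum W fun w _ => ?_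
          exact mul_nonneg (hD w) (Real.rpow_nonneg (by positivity) _)
  refine ne_top_of_le_ne_top (b := ENNReal.ofReal (2 * C *
    ∑' w : ℤ × ℤ, Ord2.dev μ m w * (1 + |Ord2.lv w|) ^ (-c))) ENNReal.ofReal_ne_top ?_
  rw [ENNReal.tsum_eq_iSup_nat]
  refine iSup_le fun J => ?_
  refine (Finset.sum_le_sum fun j _ => var_mu μ h2 h3 (G j) (hne j) m).trans ?_
  rw [← ENNReal.ofReal_sum_of_nonneg]
  · exact ENNReal.ofReal_le_ofReal (hfin J)
  · intro j _
    refine div_nonneg (Finset.sum_nonneg fun p _ => Finset.sum_nonneg fun p' _ => hD _) ?_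
    positivity

end Pool.Agent.Half
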