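import Pool.Agent.Half.NetA
import Pool.Agent.Half.NetB
import Pool.Agent.Half.NetC

/-! Correlations near the neutral direction and convergence along slices (helper56). -/

open MeasureTheory Filter Topology
open scoped ENNReal

namespace Pool.Agent.Half

theorem strip_conv (μ : Measure T) [IsProbabilityMeasure μ]
    (h2 : MeasurePreserving (fun x : T => (2 : ℕ) • x) μ μ)
    (h3 : MeasurePreserving (fun x : T => (3 : ℕ) • x) μ μ) {κ κ' c : ℝ} (h0 : 0 < κ) (h1 : κ < κ')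
    (hκ : 1 < κ + κ') (hc : c ≤ (κ + κ' - 1) / κ') (m : ℤ)
    (hs : Summable fun w : ℤ × ℤ => Ord2.dev μ m w * (1 + |Ord2.lv w|) ^ (-c)) :
    ∀ᵐ x ∂μ, Tendsto (fun k : ℕ => avgC (sl k ⌊(Real.log k) ^ κ'⌋₊) (fourier m) x) atTop
      (𝓝 (Ord2.cf μ m)) := by
  obtain ⟨n, C, hn, hn3, hgap, hC⟩ := net_exists h0 h1 hκ hc
  have h5 := net_sum μ h2 h3 m κ' c n C (fun j => ⟨by have := (hn3 j).1; omega, (hn3 j).2⟩) hC hs
  exact net_conv μ m κ κ' h0 h1 n hn (fun j => (hn3 j).1) hgap _ h5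

end Pool.Agent.Half
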