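import Pool.Agent.Half.Slices2
import Pool.Agent.Half.Strip
import Pool.Agent.Half.BesC
import Pool.Agent.Ord2.PolyS
import Pool.Agent.Ord2.Bes

/-! Four equivalent conditions for an atomless invariant measure (helper56). -/

open MeasureTheory Filter Topology
open scoped ENNReal

namespace Pool.Agent.Half

theorem CR_tend {κ : ℝ} (hκ : 0 < κ) : Tendsto (fun k : ℕ => ⌊(Real.log k) ^ κ⌋₊) atTop atTop :=
  tendsto_nat_floor_atTop.comp
    ((tendsto_rpow_atTop hκ).comp (Real.tendsto_log_atTop.comp tendsto_natCast_atTop_atTop))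

theorem CR_le {κ : ℝ} : ∀ᶠ k : ℕ in atTop, ((⌊(Real.log k) ^ κ⌋₊ : ℕ) : ℝ) ≤ (Real.log k) ^ κ := by
  filter_upwards [eventually_ge_atTop 1] with k hk
  have h1 : (1 : ℝ) ≤ k := by exact_mod_cast hk
  exact Nat.floor_le (Real.rpow_nonneg (Real.log_nonneg h1) _)

theorem CR_dev_zero (μ : Measure T) [IsProbabilityMeasure μ] (v : ℤ × ℤ) : Ord2.dev μ 0 v = 0 := by
  unfold Ord2.dev Ord2.cf
  simp

/-- **Criteria.** -/
theorem crit (μ : Measure T) [IsProbabilityMeasure μ] (hna : ∀ x, μ {x} = 0)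
    (h2 : MeasurePreserving (fun x : T => (2 : ℕ) • x) μ μ)
    (h3 : MeasurePreserving (fun x : T => (3 : ℕ) • x) μ μ) :
    List.TFAE [
      μ = volume,
      ∃ κ : ℝ, κ < 3 / 2 ∧ ∃ r : ℕ → ℕ, Tendsto r atTop atTop ∧
        (∀ᶠ n : ℕ in atTop, (r n : ℝ) ≤ (Real.log n) ^ κ) ∧
        ∀ m : ℤ, ∀ᵐ x ∂μ, Tendsto (fun n => avgC (sl n (r n)) (fourier m) x) atTop (𝓝 (Ord2.cf μ m)),
      ∃ c : ℝ, c < 4 / 3 ∧ ∀ m : ℤ, Summable fun v : ℤ × ℤ =>
        Ord2.dev μ m v / (1 + |(v.1 : ℝ) * Real.log 2 + (v.2 : ℝ) * Real.log 3|) ^ c,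
      ∃ β : ℝ, β < 2 ∧ ∀ m : ℤ, ∃ C : ℝ, ∀ N : ℕ, 1 ≤ N → ∀ (S : Finset (ℕ × ℕ)) (a : ℕ × ℕ → ℂ),
        (∀ p ∈ S, p.1 + p.2 ≤ N) →
        ∫ x, ‖∑ p ∈ S, a p * (fourier (m * (2 ^ p.1 * 3 ^ p.2)) x - Ord2.cf μ m)‖ ^ 2 ∂μ ≤
          C * (1 + Real.log N) ^ β * ∑ p ∈ S, ‖a p‖ ^ 2] := by
  have hl2 : (0 : ℝ) < Real.log 2 := Real.log_pos (by norm_num)
  have hl2' : Real.log 2 < 1 := by
    have := Real.log_two_lt_d9
    linarith
  have hlv : ∀ v : ℤ × ℤ, |(v.1 : ℝ) * Real.log 2 + (v.2 : ℝ) * Real.log 3| ≤ |Ord2.lv v| := by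
    intro v
    have e : (v.1 : ℝ) * Real.log 2 + (v.2 : ℝ) * Real.log 3 = Real.log 2 * Ord2.lv v := by
      unfold Ord2.lv Ord2.al
      field_simp
    rw [e, abs_mul, abs_of_pos hl2]
    exact mul_le_of_le_one_left (abs_nonneg _) hl2'.le
  have hnn : ∀ (m : ℤ) (v : ℤ × ℤ), 0 ≤ Ord2.dev μ m v := fun _ _ => norm_nonneg _
  tfae_have 2 → 1 := by
    rintro ⟨κ, hκ, r, hr, hA, h⟩
    exact K2.vol_of_conv μ hna h2 h3 r hr hκ hA h
  tfae_have 1 → 3 := by
    rintro rfl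
    refine ⟨0, by norm_num, fun m => ?_⟩
    simp only [Real.rpow_zero, div_one]
    by_cases hm : m = 0
    · subst hm
      simp only [CR_dev_zero]
      exact summable_zero
    · simp only [Ord2.dev_volume m hm]
      apply summable_of_ne_finset_zero (s := {(0 : ℤ × ℤ)})
      intro v hv
      rw [Finset.mem_singleton] at hv
      simp [hv]
  tfae_have 3 → 2 := by
    rintro ⟨c, hc, h⟩
    set c' := max c 0 with hc'
    have hc0 : 0 ≤ c' := le_max_right _ _
    have hc43 : c' < 4 / 3 := max_lt hc (by norm_num)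
    set ε := min (1 / 10) ((2 - 3 / 2 * c') / (3 - c')) with hε
    have hε0 : 0 < ε := lt_min (by norm_num) (div_pos (by linarith) (by linarith))
    have hε1 : ε ≤ 1 / 10 := min_le_left _ _
    have hε2 : ε * (3 - c') ≤ 2 - 3 / 2 * c' := by
      have : ε ≤ (2 - 3 / 2 * c') / (3 - c') := min_le_right _ _
      rwa [le_div_iff₀ (by linarith)] at this
    refine ⟨3 / 2 - ε, by linarith, fun k => ⌊(Real.log k) ^ (3 / 2 - ε)⌋₊, CR_tend (by linarith),
      CR_le, fun m => ?_⟩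
    refine strip_conv μ h2 h3 (κ := 3 / 2 - 2 * ε) (κ' := 3 / 2 - ε) (c := c') (by linarith)
      (by linarith) (by linarith) ?_ m ?_
    · rw [le_div_iff₀ (by linarith)]
      nlinarith
    · refine Summable.of_nonneg_of_le (fun v => ?_) (fun v => ?_) (h m)
      · exact mul_nonneg (hnn m v) (by positivity)
      · rw [div_eq_mul_inv]
        apply mul_le_mul_of_nonneg_left _ (hnn m v)
        set y := |(v.1 : ℝ) * Real.log 2 + (v.2 : ℝ) * Real.log 3| with hy
        have hy0 : 0 ≤ y := abs_nonneg _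
        have h1 := hlv v
        rw [Real.rpow_neg (by positivity)]
        apply inv_anti₀ (by positivity)
        calc (1 + y) ^ c ≤ (1 + y) ^ c' := Real.rpow_le_rpow_of_exponent_le (by linarith) (le_max_left _ _)
          _ ≤ (1 + |Ord2.lv v|) ^ c' := Real.rpow_le_rpow (by positivity) (by linarith) hc0
  tfae_have 1 → 4 := by
    rintro rfl
    refine ⟨0, by norm_num, fun m => ?_⟩
    simp only [Real.rpow_zero, mul_one]
    by_cases hm : m = 0
    · subst hm
      refine ⟨0, fun N _ S a _ => ?_⟩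
      have : Ord2.cf (volume : Measure T) 0 = 1 := by
        unfold Ord2.cf
        simp
      simp [this]
    · obtain ⟨C, hC⟩ := Ord2.bessel_volume m hm
      exact ⟨C, fun N _ S a _ => hC S a⟩
  tfae_have 4 → 2 := by
    rintro ⟨β, hβ, h⟩
    set β' := max β 0 with hβ'
    have hβ0 : 0 ≤ β' := le_max_right _ _
    have hβ2 : β' < 2 := max_lt hβ (by norm_num)
    set ε := (2 - β') / 6 with hε
    have hε0 : 0 < ε := by linarith
    have hε1 : ε ≤ 1 / 3 := by linarith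
    refine ⟨3 / 2 - ε, by linarith, fun k => ⌊(Real.log k) ^ (3 / 2 - ε)⌋₊, CR_tend (by linarith),
      CR_le, fun m => ?_⟩
    obtain ⟨C, hC⟩ := h m
    refine bessel_conv μ (κ := 3 / 2 - 2 * ε) (κ' := 3 / 2 - ε) (β := β') (C := |C|) (by linarith)
      (by linarith) hβ0 (by linarith) m ?_
    intro N hN S a hS
    refine (hC N hN S a hS).trans ?_
    have hN1 : (1 : ℝ) ≤ N := by exact_mod_cast hN
    have hlog : 0 ≤ Real.log N := Real.log_nonneg hN1
    apply mul_le_mul_of_nonneg_right _ (Finset.sum_nonneg fun p _ => by positivity)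
    exact mul_le_mul (le_abs_self C)
      (Real.rpow_le_rpow_of_exponent_le (by linarith) (le_max_left _ _)) (by positivity) (abs_nonneg C)
  tfae_finish

end Pool.Agent.Half
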