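import Pool.Agent.Half.EntQ

/-! Entropies of the partitions into `b ^ n` arcs, for a measure invariant under `x ↦ b x` (helper56). -/

open MeasureTheory Filter Topology
open scoped ENNReal

namespace Pool.Agent.Half

/-- Entropy of the partition of the circle into `b ^ n` arcs. -/
noncomputable def Hb (b : ℕ) (μ : Measure T) (n : ℕ) : ℝ :=
  ∑ i ∈ Finset.range (b ^ n), Real.negMulLog (μ.real {x | LogSc.cell b n x = i})

/-- the cell as an element of `Fin` -/
noncomputable def cellF (b : ℕ) (hb : 0 < b) (n : ℕ) (x : T) : Fin (b ^ n) :=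
  ⟨LogSc.cell b n x, LogSc.cell_lt hb n x⟩

theorem cellF_eq {b : ℕ} (hb : 0 < b) (n : ℕ) (x y : T) :
    cellF b hb n x = cellF b hb n y ↔ LogSc.cell b n x = LogSc.cell b n y := by
  unfold cellF
  rw [Fin.mk.injEq]

theorem cellF_meas {b : ℕ} (hb : 0 < b) (n : ℕ) (a : Fin (b ^ n)) : MeasurableSet (cellF b hb n ⁻¹' {a}) := by
  have : cellF b hb n ⁻¹' {a} = LogSc.cell b n ⁻¹' {(a : ℕ)} := by
    ext x
    simp only [Set.mem_preimage, Set.mem_singleton_iff, cellF, Fin.ext_iff]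
  rw [this]
  exact LogSc.measurable_cell b n (measurableSet_singleton _)

theorem cellF_meas' {b : ℕ} (hb : 0 < b) (n m : ℕ) (a : Fin (b ^ n)) :
    MeasurableSet ((fun x : T => cellF b hb n (m • x)) ⁻¹' {a}) :=
  (continuous_nsmul m).measurable (cellF_meas hb n a)

theorem Hb_eq {b : ℕ} (hb : 0 < b) (μ : Measure T) (n : ℕ) : Hb b μ n = Ent μ (cellF b hb n) := by
  unfold Hb Ent
  rw [Finset.sum_range]
  apply Finset.sum_congr rfl
  intro i _
  congr 2
  ext x
  simp only [Set.mem_ofPred_eq, Set.mem_preimage, Set.mem_singleton_iff, cellF, Fin.ext_iff]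

theorem mp_pow {b : ℕ} {μ : Measure T} (h : MeasurePreserving (fun x : T => b • x) μ μ) (u : ℕ) :
    MeasurePreserving (fun x : T => (b ^ u) • x) μ μ := by
  induction u with
  | zero =>
    simp only [pow_zero, one_smul]
    exact MeasurePreserving.id μ
  | succ u ih =>
    have h1 := ih.comp h
    have e : (fun x : T => (b ^ (u + 1)) • x) = (fun x : T => (b ^ u) • x) ∘ fun x : T => b • x := by
      funext x
      simp only [Function.comp_apply, pow_succ, mul_smul]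
    rw [e]
    exact h1

theorem Hb_comp {b : ℕ} (hb : 0 < b) (μ : Measure T) [IsProbabilityMeasure μ]
    (h : MeasurePreserving (fun x : T => b • x) μ μ) (n u : ℕ) :
    Ent μ (fun x => cellF b hb n ((b ^ u) • x)) = Hb b μ n := by
  rw [Hb_eq hb]
  exact ent_comp μ (cellF b hb n) (cellF_meas hb n) (mp_pow h u)

/-- **The conditional entropies decrease.** -/
theorem Hb_concave {b : ℕ} (hb : 0 < b) (μ : Measure T) [IsProbabilityMeasure μ]
    (h : MeasurePreserving (fun x : T => b • x) μ μ) (n : ℕ) :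
    Hb b μ (n + 2) - Hb b μ (n + 1) ≤ Hb b μ (n + 1) - Hb b μ n := by
  have hs := ent_submod μ (cellF b hb 1) (fun x => cellF b hb n ((b ^ 1) • x))
    (fun x => cellF b hb 1 ((b ^ (n + 1)) • x)) (cellF_meas hb 1) (cellF_meas' hb n _) (cellF_meas' hb 1 _)
  have m3 : ∀ (X : T → Fin (b ^ 1)) (Y : T → Fin (b ^ n)) (Z : T → Fin (b ^ 1)),
      (∀ a, MeasurableSet (X ⁻¹' {a})) → (∀ a, MeasurableSet (Y ⁻¹' {a})) → (∀ a, MeasurableSet (Z ⁻¹' {a})) →
      ∀ a, MeasurableSet ((fun x => (X x, Y x, Z x)) ⁻¹' {a}) := by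
    intro X Y Z hX hY hZ a
    have : (fun x => (X x, Y x, Z x)) ⁻¹' {a} = X ⁻¹' {a.1} ∩ (Y ⁻¹' {a.2.1} ∩ Z ⁻¹' {a.2.2}) := by
      ext x
      simp [Prod.ext_iff]
    rw [this]
    exact (hX _).inter ((hY _).inter (hZ _))
  have m2 : ∀ {l l' : ℕ} (X : T → Fin (b ^ l)) (Y : T → Fin (b ^ l')),
      (∀ a, MeasurableSet (X ⁻¹' {a})) → (∀ a, MeasurableSet (Y ⁻¹' {a})) →
      ∀ a, MeasurableSet ((fun x => (X x, Y x)) ⁻¹' {a}) := by
    intro l l' X Y hX hY a
    have : (fun x => (X x, Y x)) ⁻¹' {a} = X ⁻¹' {a.1} ∩ Y ⁻¹' {a.2} := by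
      ext x
      simp [Prod.ext_iff]
    rw [this]
    exact (hX _).inter (hY _)
  have hsm : ∀ (x : T), (b ^ n) • ((b ^ 1) • x) = (b ^ (n + 1)) • x := by
    intro x
    rw [← mul_smul, ← pow_add]
  have e2 : ∀ x : T, LogSc.cell b (n + 2) x = b ^ (n + 1) * LogSc.cell b 1 x + LogSc.cell b (n + 1) ((b ^ 1) • x) :=
    fun x => LogSc.CELL_add hb (n + 1) 1 x
  have e1 : ∀ x : T, LogSc.cell b (n + 1) x = b ^ n * LogSc.cell b 1 x + LogSc.cell b n ((b ^ 1) • x) :=
    fun x => LogSc.CELL_add hb n 1 x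
  have e3 : ∀ x : T, LogSc.cell b (n + 1) ((b ^ 1) • x) =
      b ^ 1 * LogSc.cell b n ((b ^ 1) • x) + LogSc.cell b 1 ((b ^ (n + 1)) • x) := by
    intro x
    have := LogSc.CELL_add hb 1 n ((b ^ 1) • x)
    rw [add_comm 1 n, hsm] at this
    exact this
  -- first digit and the others
  have d1 : ∀ x y : T, LogSc.cell b (n + 1) x = LogSc.cell b (n + 1) y →
      LogSc.cell b 1 x = LogSc.cell b 1 y ∧ LogSc.cell b n ((b ^ 1) • x) = LogSc.cell b n ((b ^ 1) • y) := by
    intro x y hxy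
    constructor
    · rw [← LogSc.cell_div hb n 1 x, ← LogSc.cell_div hb n 1 y, hxy]
    · rw [LogSc.cell_smul hb n 1 x, LogSc.cell_smul hb n 1 y, hxy]
  have d2 : ∀ x y : T, LogSc.cell b (n + 2) x = LogSc.cell b (n + 2) y →
      LogSc.cell b 1 x = LogSc.cell b 1 y ∧
        LogSc.cell b (n + 1) ((b ^ 1) • x) = LogSc.cell b (n + 1) ((b ^ 1) • y) := by
    intro x y hxy
    constructor
    · rw [← LogSc.cell_div hb (n + 1) 1 x, ← LogSc.cell_div hb (n + 1) 1 y]
      exact congrArg (· / b ^ (n + 1)) hxy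
    · rw [LogSc.cell_smul hb (n + 1) 1 x, LogSc.cell_smul hb (n + 1) 1 y]
      exact congrArg (· % b ^ (n + 1)) hxy
  have d3 : ∀ x y : T, LogSc.cell b (n + 1) ((b ^ 1) • x) = LogSc.cell b (n + 1) ((b ^ 1) • y) →
      LogSc.cell b n ((b ^ 1) • x) = LogSc.cell b n ((b ^ 1) • y) ∧
        LogSc.cell b 1 ((b ^ (n + 1)) • x) = LogSc.cell b 1 ((b ^ (n + 1)) • y) := by
    intro x y hxy
    constructor
    · have h1 := LogSc.cell_div hb 1 n ((b ^ 1) • x)
      have h2 := LogSc.cell_div hb 1 n ((b ^ 1) • y)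
      rw [add_comm 1 n] at h1 h2
      rw [← h1, ← h2, hxy]
    · have h1 := LogSc.cell_smul hb 1 n ((b ^ 1) • x)
      have h2 := LogSc.cell_smul hb 1 n ((b ^ 1) • y)
      rw [add_comm 1 n, hsm] at h1 h2
      rw [h1, h2, hxy]
  have f1 : Ent μ (fun x => (cellF b hb 1 x, cellF b hb n ((b ^ 1) • x), cellF b hb 1 ((b ^ (n + 1)) • x))) =
      Hb b μ (n + 2) := by
    rw [Hb_eq hb]
    apply ent_eq_of μ _ _ (cellF_meas hb (n + 2))
      (m3 _ _ _ (cellF_meas hb 1) (cellF_meas' hb n _) (cellF_meas' hb 1 _))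
    intro x y
    rw [Prod.ext_iff, Prod.ext_iff, cellF_eq, cellF_eq, cellF_eq, cellF_eq]
    constructor
    · intro hxy
      obtain ⟨a1, a2⟩ := d2 x y hxy
      exact ⟨a1, d3 x y a2⟩
    · rintro ⟨a1, a2, a3⟩
      rw [e2, e2, e3, e3, a1, a2, a3]
  have f2 : Ent μ (fun x => (cellF b hb 1 x, cellF b hb n ((b ^ 1) • x))) = Hb b μ (n + 1) := by
    rw [Hb_eq hb]
    apply ent_eq_of μ _ _ (cellF_meas hb (n + 1)) (m2 _ _ (cellF_meas hb 1) (cellF_meas' hb n _))
    intro x y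
    rw [Prod.ext_iff, cellF_eq, cellF_eq, cellF_eq]
    constructor
    · intro hxy
      exact d1 x y hxy
    · rintro ⟨a1, a2⟩
      rw [e1, e1, a1, a2]
  have f3 : Ent μ (fun x => (cellF b hb n ((b ^ 1) • x), cellF b hb 1 ((b ^ (n + 1)) • x))) = Hb b μ (n + 1) := by
    rw [← Hb_comp hb μ h (n + 1) 1]
    apply ent_eq_of μ _ _ (cellF_meas' hb (n + 1) _) (m2 _ _ (cellF_meas' hb n _) (cellF_meas' hb 1 _))
    intro x y
    rw [Prod.ext_iff, cellF_eq, cellF_eq, cellF_eq]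
    constructor
    · intro hxy
      exact d3 x y hxy
    · rintro ⟨a1, a2⟩
      rw [e3, e3, a1, a2]
  have f4 : Ent μ (fun x => cellF b hb n ((b ^ 1) • x)) = Hb b μ n := Hb_comp hb μ h n 1
  rw [f1, f2, f3, f4] at hs
  linarith

theorem Hb_anti {b : ℕ} (hb : 0 < b) (μ : Measure T) [IsProbabilityMeasure μ]
    (h : MeasurePreserving (fun x : T => b • x) μ μ) : Antitone fun n => Hb b μ (n + 1) - Hb b μ n :=
  antitone_nat_of_succ_le fun n => Hb_concave hb μ h n

theorem Hb_window {b : ℕ} (hb : 0 < b) (μ : Measure T) [IsProbabilityMeasure μ]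
    (h : MeasurePreserving (fun x : T => b • x) μ μ) (n s m : ℕ) (hm : n + s ≤ m) :
    (s : ℝ) * (Hb b μ (m + 1) - Hb b μ m) ≤ Hb b μ (n + s) - Hb b μ n := by
  have h1 : Hb b μ (n + s) - Hb b μ n = ∑ i ∈ Finset.range s, (Hb b μ (n + i + 1) - Hb b μ (n + i)) := by
    induction s with
    | zero => simp
    | succ s ih =>
      rw [Finset.sum_range_succ, ← ih (by omega)]
      have : n + (s + 1) = n + s + 1 := by ring
      rw [this]
      ring
  rw [h1]
  have h2 := Finset.card_nsmul_le_sum (Finset.range s) (fun i => Hb b μ (n + i + 1) - Hb b μ (n + i))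
    (Hb b μ (m + 1) - Hb b μ m) (fun i hi => by
      rw [Finset.mem_range] at hi
      exact Hb_anti hb μ h (show n + i ≤ m by omega))
  rwa [Finset.card_range, nsmul_eq_mul] at h2

end Pool.Agent.Half
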