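import Pool.Agent.Half.TCode

/-! Entropy of functions with finitely many values: monotonicity, submodularity, codes (helper56). -/

open MeasureTheory Filter Topology
open scoped ENNReal

namespace Pool.Agent.Half

/-- entropy of a function with finitely many values -/
noncomputable def Ent {Ω : Type*} [MeasurableSpace Ω] {α : Type*} [Fintype α] (μ : Measure Ω) (X : Ω → α) : ℝ :=
  ∑ a, Real.negMulLog (μ.real (X ⁻¹' {a}))

section

variable {Ω : Type*} [MeasurableSpace Ω] {α β γ : Type*} [Fintype α] [Fintype β] [Fintype γ]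

theorem EQ_sub {ι : Type*} (s : Finset ι) (p : ι → ℝ) (hp : ∀ i, 0 ≤ p i) :
    Real.negMulLog (∑ i ∈ s, p i) ≤ ∑ i ∈ s, Real.negMulLog (p i) := by
  have e1 : Real.negMulLog (∑ i ∈ s, p i) = ∑ i ∈ s, -(p i * Real.log (∑ i ∈ s, p i)) := by
    unfold Real.negMulLog
    rw [Finset.sum_neg_distrib, ← Finset.sum_mul]
    ring
  rw [e1]
  apply Finset.sum_le_sum
  intro i hi
  rcases (hp i).eq_or_lt with h | h
  · rw [← h]
    simp
  · have h1 : p i ≤ ∑ i ∈ s, p i := Finset.single_le_sum (fun j _ => hp j) hi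
    have h2 : Real.log (p i) ≤ Real.log (∑ i ∈ s, p i) := Real.log_le_log h h1
    have h3 := mul_le_mul_of_nonneg_left h2 h.le
    unfold Real.negMulLog
    linarith

theorem EQ_fib (μ : Measure Ω) [IsProbabilityMeasure μ] (X : Ω → α) (hX : ∀ a, MeasurableSet (X ⁻¹' {a}))
    (s : Finset α) : μ.real (X ⁻¹' (s : Set α)) = ∑ a ∈ s, μ.real (X ⁻¹' {a}) := by
  rw [← measureReal_biUnion_finset]
  · congr 1
    ext x
    simp
  · intro i _ j _ hij
    rw [Function.onFun, Set.disjoint_left]
    intro x hx hx'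
    exact hij (hx.symm.trans hx')
  · exact fun i _ => hX i

theorem EQ_total (μ : Measure Ω) [IsProbabilityMeasure μ] (X : Ω → α) (hX : ∀ a, MeasurableSet (X ⁻¹' {a})) :
    ∑ a, μ.real (X ⁻¹' {a}) = 1 := by
  rw [← EQ_fib μ X hX Finset.univ]
  simp

theorem EQ_meas {X : Ω → α} (hX : ∀ a, MeasurableSet (X ⁻¹' {a})) (s : Set α) : MeasurableSet (X ⁻¹' s) := by
  have : X ⁻¹' s = ⋃ a ∈ s, X ⁻¹' {a} := by
    ext x
    simp
  rw [this]
  exact MeasurableSet.biUnion (Set.to_countable s) fun a _ => hX a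

theorem ent_le_of (μ : Measure Ω) [IsProbabilityMeasure μ] (W : Ω → α) (V : Ω → β)
    (hW : ∀ a, MeasurableSet (W ⁻¹' {a})) (h : ∀ x y, W x = W y → V x = V y) : Ent μ V ≤ Ent μ W := by
  classical
  set S : β → Finset α := fun b => Finset.univ.filter fun a => ∃ x, W x = a ∧ V x = b with hS
  have h1 : ∀ b, V ⁻¹' {b} = W ⁻¹' (S b : Set α) := by
    intro b
    ext x
    simp only [Set.mem_preimage, Set.mem_singleton_iff, hS, Finset.coe_filter, Finset.mem_univ, true_and,
      Set.mem_ofPred_eq]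
    constructor
    · intro hx
      exact ⟨x, rfl, hx⟩
    · rintro ⟨y, hy, hy2⟩
      rw [← hy2]
      exact (h y x hy).symm
  have hdisj : ∀ b1 ∈ (Finset.univ : Finset β), ∀ b2 ∈ (Finset.univ : Finset β), b1 ≠ b2 →
      Disjoint (S b1) (S b2) := by
    intro b1 _ b2 _ hb
    rw [Finset.disjoint_left]
    intro a ha1 ha2
    rw [hS, Finset.mem_filter] at ha1 ha2
    obtain ⟨x, hx1, hx2⟩ := ha1.2
    obtain ⟨y, hy1, hy2⟩ := ha2.2
    exact hb (by rw [← hx2, ← hy2]; exact h x y (hx1.trans hy1.symm))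
  unfold Ent
  calc ∑ b, Real.negMulLog (μ.real (V ⁻¹' {b}))
      ≤ ∑ b, ∑ a ∈ S b, Real.negMulLog (μ.real (W ⁻¹' {a})) := by
        apply Finset.sum_le_sum
        intro b _
        rw [h1, EQ_fib μ W hW]
        exact EQ_sub _ _ fun i => measureReal_nonneg
    _ = ∑ a ∈ Finset.univ.biUnion S, Real.negMulLog (μ.real (W ⁻¹' {a})) := (Finset.sum_biUnion hdisj).symm
    _ ≤ ∑ a, Real.negMulLog (μ.real (W ⁻¹' {a})) := by
        apply Finset.sum_le_sum_of_subset_of_nonneg (Finset.subset_univ _)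
        intro a _ _
        exact Real.negMulLog_nonneg measureReal_nonneg measureReal_le_one

theorem ent_eq_of (μ : Measure Ω) [IsProbabilityMeasure μ] (W : Ω → α) (V : Ω → β)
    (hW : ∀ a, MeasurableSet (W ⁻¹' {a})) (hV : ∀ a, MeasurableSet (V ⁻¹' {a}))
    (h : ∀ x y, W x = W y ↔ V x = V y) : Ent μ V = Ent μ W :=
  le_antisymm (ent_le_of μ W V hW fun x y => (h x y).1) (ent_le_of μ V W hV fun x y => (h x y).2)

theorem ent_comp (μ : Measure Ω) [IsProbabilityMeasure μ] (W : Ω → α) (hW : ∀ a, MeasurableSet (W ⁻¹' {a}))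
    {f : Ω → Ω} (hf : MeasurePreserving f μ μ) : Ent μ (fun x => W (f x)) = Ent μ W := by
  unfold Ent
  apply Finset.sum_congr rfl
  intro a _
  congr 1
  have : (fun x => W (f x)) ⁻¹' {a} = f ⁻¹' (W ⁻¹' {a}) := rfl
  rw [this]
  exact congrArg ENNReal.toReal (hf.measure_preimage (hW a).nullMeasurableSet)

theorem EQ_split (μ : Measure Ω) [IsProbabilityMeasure μ] (D : Ω → α) (hD : ∀ a, MeasurableSet (D ⁻¹' {a}))
    (S : Set Ω) (hS : MeasurableSet S) : μ.real S = ∑ d, μ.real (D ⁻¹' {d} ∩ S) := by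
  rw [← measureReal_biUnion_finset]
  · congr 1
    ext x
    simp
  · intro i _ j _ hij
    rw [Function.onFun, Set.disjoint_left]
    rintro x ⟨hx, -⟩ ⟨hx', -⟩
    exact hij (hx.symm.trans hx')
  · exact fun i _ => (hD i).inter hS

/-- **Submodularity.** -/
theorem ent_submod (μ : Measure Ω) [IsProbabilityMeasure μ] (X : Ω → α) (Y : Ω → β) (Z : Ω → γ)
    (hX : ∀ a, MeasurableSet (X ⁻¹' {a})) (hY : ∀ a, MeasurableSet (Y ⁻¹' {a}))
    (hZ : ∀ a, MeasurableSet (Z ⁻¹' {a})) :
    Ent μ (fun x => (X x, Y x, Z x)) + Ent μ Y ≤ Ent μ (fun x => (X x, Y x)) + Ent μ (fun x => (Y x, Z x)) := by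
  classical
  set p : α → β → γ → ℝ := fun a b c => μ.real (X ⁻¹' {a} ∩ (Y ⁻¹' {b} ∩ Z ⁻¹' {c})) with hp
  set pxy : α → β → ℝ := fun a b => μ.real (X ⁻¹' {a} ∩ Y ⁻¹' {b}) with hpxy
  set pyz : β → γ → ℝ := fun b c => μ.real (Y ⁻¹' {b} ∩ Z ⁻¹' {c}) with hpyz
  set py : β → ℝ := fun b => μ.real (Y ⁻¹' {b}) with hpy
  have s1 : ∀ a b, pxy a b = ∑ c, p a b c := by
    intro a b
    rw [hpxy, hp]
    simp only
    rw [EQ_split μ Z hZ _ ((hX a).inter (hY b))]
    apply Finset.sum_congr rfl
    intro c _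
    congr 1
    ext x
    simp only [Set.mem_inter_iff, Set.mem_preimage, Set.mem_singleton_iff]
    tauto
  have s2 : ∀ b c, pyz b c = ∑ a, p a b c := by
    intro b c
    rw [hpyz, hp]
    simp only
    rw [EQ_split μ X hX _ ((hY b).inter (hZ c))]
  have s3 : ∀ b, py b = ∑ a, pxy a b := by
    intro b
    rw [hpy, hpxy]
    simp only
    rw [EQ_split μ X hX _ (hY b)]
  have s4 : ∀ b, py b = ∑ c, pyz b c := by
    intro b
    rw [hpy, hpyz]
    simp only
    rw [EQ_split μ Z hZ _ (hY b)]
    apply Finset.sum_congr rfl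
    intro c _
    rw [Set.inter_comm]
  have hp0 : ∀ a b c, 0 ≤ p a b c := fun _ _ _ => measureReal_nonneg
  have hxy0 : ∀ a b, 0 ≤ pxy a b := fun _ _ => measureReal_nonneg
  have hyz0 : ∀ b c, 0 ≤ pyz b c := fun _ _ => measureReal_nonneg
  have hy0 : ∀ b, 0 ≤ py b := fun _ => measureReal_nonneg
  have e1 : Ent μ (fun x => (X x, Y x, Z x)) = ∑ a, ∑ b, ∑ c, Real.negMulLog (p a b c) := by
    unfold Ent
    rw [Fintype.sum_prod_type]
    apply Finset.sum_congr rfl
    intro a _
    rw [Fintype.sum_prod_type]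
    apply Finset.sum_congr rfl
    intro b _
    apply Finset.sum_congr rfl
    intro c _
    congr 2
    ext x
    simp
  have e2 : Ent μ (fun x => (X x, Y x)) = ∑ a, ∑ b, Real.negMulLog (pxy a b) := by
    unfold Ent
    rw [Fintype.sum_prod_type]
    apply Finset.sum_congr rfl
    intro a _
    apply Finset.sum_congr rfl
    intro b _
    congr 2
    ext x
    simp
  have e3 : Ent μ (fun x => (Y x, Z x)) = ∑ b, ∑ c, Real.negMulLog (pyz b c) := by
    unfold Ent
    rw [Fintype.sum_prod_type]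
    apply Finset.sum_congr rfl
    intro b _
    apply Finset.sum_congr rfl
    intro c _
    congr 2
    ext x
    simp
  have e4 : Ent μ Y = ∑ b, Real.negMulLog (py b) := rfl
  have hterm : ∀ a b c, Real.negMulLog (p a b c) ≤
      -(p a b c * Real.log (pxy a b)) - p a b c * Real.log (pyz b c) + p a b c * Real.log (py b) +
        (pxy a b * pyz b c / py b - p a b c) := by
    intro a b c
    rcases (hp0 a b c).eq_or_lt with h | h
    · rw [← h]
      simp only [Real.negMulLog_zero, zero_mul, neg_zero, sub_zero, zero_add, add_zero]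
      exact div_nonneg (mul_nonneg (hxy0 _ _) (hyz0 _ _)) (hy0 _)
    · have h1 : 0 < pxy a b := by
        rw [s1]
        exact lt_of_lt_of_le h (Finset.single_le_sum (f := fun c => p a b c) (fun c _ => hp0 a b c)
          (Finset.mem_univ c))
      have h2 : 0 < pyz b c := by
        rw [s2]
        exact lt_of_lt_of_le h (Finset.single_le_sum (f := fun a => p a b c) (fun a _ => hp0 a b c)
          (Finset.mem_univ a))
      have h3 : 0 < py b := by
        rw [s3]
        exact lt_of_lt_of_le h1 (Finset.single_le_sum (f := fun a => pxy a b) (fun a _ => hxy0 a b)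
          (Finset.mem_univ a))
      have h4 := TC_gibbs h.le (show 0 < pxy a b * pyz b c / py b by positivity)
      rw [Real.log_div (by positivity) (by positivity), Real.log_mul (by positivity) (by positivity)] at h4
      linarith
  have hsum := Finset.sum_le_sum fun a (_ : a ∈ (Finset.univ : Finset α)) => Finset.sum_le_sum
    fun b (_ : b ∈ (Finset.univ : Finset β)) => Finset.sum_le_sum
      fun c (_ : c ∈ (Finset.univ : Finset γ)) => hterm a b c
  -- the sums on the right
  have r1 : ∑ a, ∑ b, ∑ c, (-(p a b c * Real.log (pxy a b)) - p a b c * Real.log (pyz b c) +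
      p a b c * Real.log (py b) + (pxy a b * pyz b c / py b - p a b c)) =
      (∑ a, ∑ b, ∑ c, -(p a b c * Real.log (pxy a b))) - (∑ a, ∑ b, ∑ c, p a b c * Real.log (pyz b c)) +
      (∑ a, ∑ b, ∑ c, p a b c * Real.log (py b)) + ((∑ a, ∑ b, ∑ c, pxy a b * pyz b c / py b) -
        ∑ a, ∑ b, ∑ c, p a b c) := by
    simp only [Finset.sum_add_distrib, Finset.sum_sub_distrib]
  have r2 : ∑ a, ∑ b, ∑ c, -(p a b c * Real.log (pxy a b)) = ∑ a, ∑ b, Real.negMulLog (pxy a b) := by
    apply Finset.sum_congr rfl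
    intro a _
    apply Finset.sum_congr rfl
    intro b _
    rw [Finset.sum_neg_distrib, ← Finset.sum_mul, ← s1]
    unfold Real.negMulLog
    ring
  have r3 : ∑ a, ∑ b, ∑ c, p a b c * Real.log (pyz b c) = -∑ b, ∑ c, Real.negMulLog (pyz b c) := by
    rw [Finset.sum_comm, ← Finset.sum_neg_distrib]
    apply Finset.sum_congr rfl
    intro b _
    rw [Finset.sum_comm, ← Finset.sum_neg_distrib]
    apply Finset.sum_congr rfl
    intro c _
    rw [← Finset.sum_mul, ← s2]
    unfold Real.negMulLog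
    ring
  have r4 : ∑ a, ∑ b, ∑ c, p a b c * Real.log (py b) = -∑ b, Real.negMulLog (py b) := by
    rw [Finset.sum_comm, ← Finset.sum_neg_distrib]
    apply Finset.sum_congr rfl
    intro b _
    have : ∑ a, ∑ c, p a b c * Real.log (py b) = py b * Real.log (py b) := by
      have e : ∀ a, ∑ c, p a b c * Real.log (py b) = pxy a b * Real.log (py b) := fun a => by
        rw [← Finset.sum_mul, ← s1]
      simp only [e]
      rw [← Finset.sum_mul, ← s3]
    rw [this]
    unfold Real.negMulLog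
    ring
  have r5 : ∑ a, ∑ b, ∑ c, pxy a b * pyz b c / py b = ∑ b, py b := by
    rw [Finset.sum_comm]
    apply Finset.sum_congr rfl
    intro b _
    have e : ∀ a, ∑ c, pxy a b * pyz b c / py b = pxy a b * py b / py b := fun a => by
      rw [← Finset.sum_div, ← Finset.mul_sum, ← s4]
    simp only [e]
    rw [← Finset.sum_div, ← Finset.sum_mul, ← s3]
    rcases (hy0 b).eq_or_lt with h | h
    · rw [← h]
      simp
    · field_simp
  have r6 : ∑ a, ∑ b, ∑ c, p a b c = ∑ b, py b := by
    rw [Finset.sum_comm]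
    apply Finset.sum_congr rfl
    intro b _
    rw [s3]
    apply Finset.sum_congr rfl
    intro a _
    rw [s1]
  rw [r1, r2, r3, r4, r5, r6] at hsum
  rw [e1, e2, e3, e4]
  linarith

/-- **Entropy and codes.** `(B, code)` determines `W`, and `B` is a function of `W`. -/
theorem ent_code {κ : Type*} [Fintype κ] (μ : Measure Ω) [IsProbabilityMeasure μ] (W : Ω → α) (B : Ω → β)
    (code : Ω → κ) (hW : ∀ a, MeasurableSet (W ⁻¹' {a})) (g : α → β) (hg : ∀ x, B x = g (W x))
    (hdet : ∀ x y, B x = B y → code x = code y → W x = W y)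
    (v : κ → ℝ) (hv : ∀ c, 0 < v c) (hv1 : ∑ c, v c ≤ 1)
    (Φ : Ω → ℝ) (hΦi : Integrable Φ μ) (hΦ : ∀ x, -Real.log (v (code x)) ≤ Φ x) :
    Ent μ W ≤ Ent μ B + ∫ x, Φ x ∂μ := by
  classical
  set p : α → ℝ := fun a => μ.real (W ⁻¹' {a}) with hp
  set P : β → ℝ := fun b => μ.real (B ⁻¹' {b}) with hP
  set K : α → Finset κ := fun a => Finset.univ.filter fun c => ∃ x, W x = a ∧ code x = c with hK
  set V : α → ℝ := fun a => ∑ c ∈ K a, v c with hV
  have hp0 : ∀ a, 0 ≤ p a := fun _ => measureReal_nonneg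
  have hP0 : ∀ b, 0 ≤ P b := fun _ => measureReal_nonneg
  have hV0 : ∀ a, 0 ≤ V a := fun a => Finset.sum_nonneg fun c _ => (hv c).le
  have hBW : ∀ b, B ⁻¹' {b} = W ⁻¹' ((Finset.univ.filter fun a => g a = b : Finset α) : Set α) := by
    intro b
    ext x
    simp [hg]
  have hPp : ∀ b, P b = ∑ a ∈ Finset.univ.filter (fun a => g a = b), p a := by
    intro b
    rw [hP]
    simp only
    rw [hBW, EQ_fib μ W hW]
  have hVb : ∀ b, ∑ a ∈ Finset.univ.filter (fun a => g a = b), V a ≤ 1 := by
    intro b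
    refine le_trans ?_ hv1
    have h1 : ∑ a ∈ Finset.univ.filter (fun a => g a = b), V a =
        ∑ c ∈ (Finset.univ.filter (fun a => g a = b)).biUnion K, v c := by
      rw [Finset.sum_biUnion]
      intro a1 ha1 a2 ha2 hne
      rw [Function.onFun, Finset.disjoint_left]
      intro c hc1 hc2
      rw [hK, Finset.mem_filter] at hc1 hc2
      obtain ⟨x, hx1, hx2⟩ := hc1.2
      obtain ⟨y, hy1, hy2⟩ := hc2.2
      simp only [Finset.coe_filter, Finset.mem_univ, true_and, Set.mem_ofPred_eq] at ha1 ha2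
      apply hne
      rw [← hx1, ← hy1]
      apply hdet
      · rw [hg, hg, hx1, hy1, ha1, ha2]
      · rw [hx2, hy2]
    rw [h1]
    exact Finset.sum_le_sum_of_subset_of_nonneg (Finset.subset_univ _) fun c _ _ => (hv c).le
  have hq : ∑ a, P (g a) * V a ≤ 1 := by
    have h1 : ∑ a, P (g a) * V a = ∑ b, ∑ a ∈ Finset.univ.filter (fun a => g a = b), P (g a) * V a :=
      (Finset.sum_fiberwise _ _ _).symm
    have h2 : ∀ b ∈ (Finset.univ : Finset β), ∑ a ∈ Finset.univ.filter (fun a => g a = b), P (g a) * V a ≤ P b := by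
      intro b _
      have h3 : ∑ a ∈ Finset.univ.filter (fun a => g a = b), P (g a) * V a =
          P b * ∑ a ∈ Finset.univ.filter (fun a => g a = b), V a := by
        rw [Finset.mul_sum]
        apply Finset.sum_congr rfl
        intro a ha
        rw [Finset.mem_filter] at ha
        rw [ha.2]
      rw [h3]
      exact mul_le_of_le_one_right (hP0 b) (hVb b)
    rw [h1]
    refine (Finset.sum_le_sum h2).trans ?_
    have h4 : ∑ b, P b = ∑ a, p a := by
      simp only [hPp]
      exact Finset.sum_fiberwise _ _ _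
    rw [h4, EQ_total μ W hW]
  have hterm : ∀ a ∈ (Finset.univ : Finset α), Real.negMulLog (p a) ≤
      -(p a * Real.log (P (g a))) + (∫ x in W ⁻¹' {a}, Φ x ∂μ) + (P (g a) * V a - p a) := by
    intro a _
    by_cases hμ : μ (W ⁻¹' {a}) = 0
    · have e1 : p a = 0 := by
        rw [hp]
        simp only [Measure.real, hμ]
        rfl
      rw [e1, Real.negMulLog_zero, Measure.restrict_eq_zero.2 hμ, integral_zero_measure]
      have := mul_nonneg (hP0 (g a)) (hV0 a)
      linarith
    · have hne : (W ⁻¹' {a}).Nonempty := nonempty_of_measure_ne_zero hμ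
      have hpa : 0 < p a := by
        rw [hp]
        exact ENNReal.toReal_pos hμ (measure_ne_top _ _)
      have hPa : 0 < P (g a) := by
        rw [hPp]
        exact lt_of_lt_of_le hpa (Finset.single_le_sum (f := p) (fun a _ => hp0 a)
          (Finset.mem_filter.2 ⟨Finset.mem_univ a, rfl⟩))
      have hVx : ∀ x ∈ W ⁻¹' {a}, v (code x) ≤ V a := by
        intro x hx
        exact Finset.single_le_sum (f := v) (fun c _ => (hv c).le)
          (by rw [hK, Finset.mem_filter]; exact ⟨Finset.mem_univ _, x, hx, rfl⟩)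
      obtain ⟨x1, hx1⟩ := hne
      have hVa : 0 < V a := lt_of_lt_of_le (hv _) (hVx x1 hx1)
      have h1 := TC_gibbs hpa.le (mul_pos hPa hVa)
      rw [Real.log_mul hPa.ne' hVa.ne'] at h1
      have h2 : p a * -Real.log (V a) ≤ ∫ x in W ⁻¹' {a}, Φ x ∂μ := by
        have h3 : p a * -Real.log (V a) = ∫ x in W ⁻¹' {a}, (-Real.log (V a)) ∂μ := by
          rw [setIntegral_const, smul_eq_mul]
        rw [h3]
        apply setIntegral_mono_on (integrable_const _).integrableOn hΦi.integrableOn (hW a)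
        intro x hx
        exact (neg_le_neg (Real.log_le_log (hv _) (hVx x hx))).trans (hΦ x)
      linarith
  have hint : ∑ a, ∫ x in W ⁻¹' {a}, Φ x ∂μ = ∫ x, Φ x ∂μ := by
    rw [← integral_biUnion_finset]
    · have : (⋃ a ∈ (Finset.univ : Finset α), W ⁻¹' {a}) = Set.univ := by
        ext x
        simp
      rw [this, Measure.restrict_univ]
    · exact fun i _ => hW i
    · intro i _ j _ hij
      rw [Function.onFun, Set.disjoint_left]
      intro x hx hx'
      exact hij (hx.symm.trans hx')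
    · exact fun i _ => hΦi.integrableOn
  have hB : ∑ a, -(p a * Real.log (P (g a))) = Ent μ B := by
    have h1 : ∑ a, -(p a * Real.log (P (g a))) =
        ∑ b, ∑ a ∈ Finset.univ.filter (fun a => g a = b), -(p a * Real.log (P (g a))) :=
      (Finset.sum_fiberwise _ _ _).symm
    rw [h1]
    unfold Ent
    apply Finset.sum_congr rfl
    intro b _
    have h2 : ∑ a ∈ Finset.univ.filter (fun a => g a = b), -(p a * Real.log (P (g a))) =
        -((∑ a ∈ Finset.univ.filter (fun a => g a = b), p a) * Real.log (P b)) := by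
      rw [Finset.sum_mul, ← Finset.sum_neg_distrib]
      apply Finset.sum_congr rfl
      intro a ha
      rw [Finset.mem_filter] at ha
      rw [ha.2]
    rw [h2, ← hPp]
    unfold Real.negMulLog
    ring
  calc Ent μ W = ∑ a, Real.negMulLog (p a) := rfl
    _ ≤ ∑ a, (-(p a * Real.log (P (g a))) + (∫ x in W ⁻¹' {a}, Φ x ∂μ) + (P (g a) * V a - p a)) :=
        Finset.sum_le_sum hterm
    _ = Ent μ B + (∫ x, Φ x ∂μ) + (∑ a, P (g a) * V a - 1) := by
        rw [Finset.sum_add_distrib, Finset.sum_add_distrib, Finset.sum_sub_distrib, hint, hB, EQ_total μ W hW]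
    _ ≤ Ent μ B + ∫ x, Φ x ∂μ := by linarith

end

end Pool.Agent.Half
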