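import Pool.Agent.Half.KEnt
import Pool.Agent.Half.TFin

/-! Entropy and slices: three symbols. -/

open MeasureTheory Filter Topology
open scoped ENNReal NNReal

namespace Pool.Agent.Half

/-- the points whose slice of scale `n` has, up to `δ`, at least half of the Lebesgue integral of every `f` in `F` -/
def ExF (r : ℕ → ℕ) (F : Finset C(T, ℝ)) (δ : ℝ) (n : ℕ) : Set T :=
  {x | ∀ f ∈ F, (∫ z, f z ∂(volume : Measure T)) / 2 - δ ≤ avg (sl n (r n)) f x}

/-- the points whose slice of scale `n` is, up to `δ`, equal to Lebesgue measure for every `f` in `F` -/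
def NrF (r : ℕ → ℕ) (F : Finset C(T, ℝ)) (δ : ℝ) (n : ℕ) : Set T :=
  {x | ∀ f ∈ F, |avg (sl n (r n)) f x - ∫ z, f z ∂(volume : Measure T)| ≤ δ}

theorem KT_meas_E (r : ℕ → ℕ) (F : Finset C(T, ℝ)) (δ : ℝ) (n : ℕ) : MeasurableSet (ExF r F δ n) := by
  have h1 : ExF r F δ n = ⋂ f ∈ F,
      {x : T | (∫ z, f z ∂(volume : Measure T)) / 2 - δ ≤ avg (sl n (r n)) f x} := by
    ext x
    simp [ExF]
  rw [h1]
  exact Finset.measurableSet_biInter _ fun f _ => (isClosed_le continuous_const (KE_avg_cont _ f)).measurableSet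

theorem KT_compl (r : ℕ → ℕ) (F : Finset C(T, ℝ)) (δ : ℝ) (n : ℕ) : NrF r F δ n = (bad r F δ n)ᶜ := by
  ext x
  simp [bad, NrF]

theorem KT_meas_N (r : ℕ → ℕ) (F : Finset C(T, ℝ)) (δ : ℝ) (n : ℕ) : MeasurableSet (NrF r F δ n) := by
  rw [KT_compl]
  exact (bad_meas r F δ n).compl

theorem KT_sub {r : ℕ → ℕ} {F : Finset C(T, ℝ)} (hF : ∀ f ∈ F, ∀ z, 0 ≤ f z) {δ : ℝ} (n : ℕ) :
    NrF r F δ n ⊆ ExF r F δ n := by
  intro x hx f hf
  have h1 := abs_le.1 (hx f hf)
  have hI : 0 ≤ ∫ z, f z ∂(volume : Measure T) := integral_nonneg (hF f hf)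
  linarith

theorem KT_pair {r : ℕ → ℕ} (h : Thick r) (F : Finset C(T, ℝ)) (hF : ∀ f ∈ F, ∀ z, 0 ≤ f z) (δ : ℝ)
    (hδ : 0 < δ) : ∃ ε : ℝ, 0 < ε ∧ ∃ n1 : ℕ, ∀ n C : ℕ, n1 ≤ n → (C : ℝ) ≤ ε * r n →
      NoK (ExF r F δ n)ᶜ 2 n C := by
  obtain ⟨ε, hε, n1, h1⟩ := k_point (Fin 2) h F hF δ hδ
  refine ⟨ε, hε, n1, fun n C hn hC x hx hsep => ?_⟩
  obtain ⟨t, ht, hts, htf⟩ := h1 n C hn hC x hsep
  rw [Fin.sum_univ_two] at hts
  have key : ∀ i, ¬ 1 / 2 ≤ t i := by
    intro i hi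
    refine hx i fun f hf => ?_
    have hI : 0 ≤ ∫ z, f z ∂(volume : Measure T) := integral_nonneg (hF f hf)
    have h2 := htf i f hf
    have h3 := mul_le_mul_of_nonneg_right hi hI
    linarith
  have h2 := not_le.1 (key 0)
  have h3 := not_le.1 (key 1)
  linarith

theorem KT_cmono {X Y : Set T} {N : ℕ} {R : ℝ} (h : Cov X N R) (hY : Y ⊆ X) : Cov Y N R := by
  obtain ⟨s, hs, hX⟩ := h
  exact ⟨s, hs, hY.trans hX⟩

theorem KT_idx {X : Set T} {M : ℕ} {R : ℝ} (hM : 0 < M) (h : Cov X M R) :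
    ∃ idx : T → Fin M, ∀ x ∈ X, ∀ y ∈ X, idx x = idx y → ‖x - y‖ ≤ 2 * R := by
  classical
  obtain ⟨s, hs, hX⟩ := h
  rcases s.eq_empty_or_nonempty with rfl | ⟨c0, hc0⟩
  · refine ⟨fun _ => ⟨0, hM⟩, fun x hx => ?_⟩
    have h2 := hX hx
    simp at h2
  have h1 : ∀ x : T, ∃ c : s, x ∈ X → x ∈ Metric.closedBall (c : T) R := by
    intro x
    by_cases hx : x ∈ X
    · have h2 := hX hx
      simp only [Set.mem_iUnion] at h2
      obtain ⟨c, hc, hxc⟩ := h2
      exact ⟨⟨c, hc⟩, fun _ => hxc⟩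
    · exact ⟨⟨c0, hc0⟩, fun h => absurd h hx⟩
  choose c hc using h1
  refine ⟨fun x => Fin.castLE hs (s.equivFin (c x)), fun x hx y hy hxy => ?_⟩
  have h2 : s.equivFin (c x) = s.equivFin (c y) := Fin.castLE_injective hs hxy
  have h3 : c x = c y := s.equivFin.injective h2
  have h4 := hc x hx
  have h5 := hc y hy
  rw [← h3] at h5
  rw [Metric.mem_closedBall] at h4 h5
  rw [← dist_eq_norm]
  have h6 := dist_triangle_right x y (c x : T)
  linarith

/-- the covering of the points with given symbols -/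
theorem KT_cov {n : ℕ → ℕ} {Z : ℕ → Fin 3 → Set T} {m : ℕ → Fin 3 → ℕ} (b : ℕ → Fin 3) (J : ℕ)
    (hstep : ∀ j < J, ∀ (s : Fin 3) (N : ℕ) (Y : Set T), Y ⊆ Z j s → Cov Y N ((1 / 2 : ℝ) ^ (n j + 1)) →
      Cov Y (N * m j s) ((1 / 2 : ℝ) ^ (n (j + 1) + 1))) :
    Cov {x | ∀ j < J, x ∈ Z j (b j)} (2 ^ (n 0 + 1) * ∏ j ∈ Finset.range J, m j (b j))
      ((1 / 2 : ℝ) ^ (n J + 1)) := by
  induction J with
  | zero => simpa using KC_base _ (n 0 + 1)
  | succ J ih =>
    have h1 := ih fun j hj => hstep j (by omega)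
    have h2 := KT_cmono (Y := {x | ∀ j < J + 1, x ∈ Z j (b j)}) h1 fun x hx j hj => hx j (by omega)
    have h3 := hstep J (by omega) (b J) _ {x | ∀ j < J + 1, x ∈ Z j (b j)} (fun x hx => hx J (by omega)) h2
    rwa [mul_assoc, ← Finset.prod_range_succ] at h3

/-- weight of a symbol -/
noncomputable def KT_w (θ : ℝ) (s : Fin 3) : ℝ := if s = 0 then 1 - 2 * θ else θ

theorem KT_w_pos {θ : ℝ} (h0 : 0 < θ) (h1 : θ < 1 / 2) (s : Fin 3) : 0 < KT_w θ s := by
  unfold KT_w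
  split_ifs <;> linarith

theorem KT_w0 (θ : ℝ) : KT_w θ 0 = 1 - 2 * θ := if_pos rfl

theorem KT_w1 (θ : ℝ) : KT_w θ 1 = θ := if_neg (by decide)

theorem KT_w2 (θ : ℝ) : KT_w θ 2 = θ := if_neg (by decide)

theorem KT_w_sum (θ : ℝ) : ∑ s, KT_w θ s = 1 := by
  rw [Fin.sum_univ_three, KT_w0, KT_w1, KT_w2]
  ring

open Classical in
/-- **Entropy and a net of scales, three symbols.** -/
theorem KT_net (μ : Measure T) [IsProbabilityMeasure μ] (E D : ℕ → Set T) (hE : ∀ n, MeasurableSet (E n))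
    (hD : ∀ n, MeasurableSet (D n)) (hDE : ∀ n, D n ⊆ E n) (n : ℕ → ℕ) (hn : StrictMono n)
    (θ : ℕ → ℝ) (hθ0 : ∀ j, 0 < θ j) (hθ1 : ∀ j, θ j < 1 / 2) {k : ℕ} (hk : 2 ≤ k)
    (J N : ℕ) (hN : N < n J)
    (h2 : ∀ j < J, NoK (E (n j))ᶜ 2 (n j) (n (j + 1) + 1 - n j))
    (h3 : ∀ j < J, NoK (D (n j))ᶜ k (n j) (n (j + 1) + 1 - n j)) :
    Hd μ N ≤ Real.log 3 + ((n 0 : ℝ) + 1) * Real.log 2 + ∑ j ∈ Finset.range J,
      (-Real.log (1 - 2 * θ j) + μ.real (E (n j)) * (-Real.log (θ j) + Real.log k) +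
        μ.real (D (n j)) * ((((n (j + 1) - n j : ℕ) : ℝ) + 1) * Real.log 2)) := by
  have hk' : (2 : ℝ) ≤ k := by exact_mod_cast hk
  have hlog2 : 0 ≤ Real.log 2 := Real.log_nonneg (by norm_num)
  have hlogk : 0 ≤ Real.log k := Real.log_nonneg (by linarith)
  set g : ℕ → ℕ := fun j => n (j + 1) - n j with hg
  have hgn : ∀ j, n j + g j = n (j + 1) := fun j => by
    have h : n j < n (j + 1) := hn (Nat.lt_succ_self j)
    simp only [hg]
    omega
  -- the symbol
  let sy : ℕ → T → Fin 3 := fun j x => if x ∈ D (n j) then 2 else if x ∈ E (n j) then 1 else 0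
  let Z : ℕ → Fin 3 → Set T := fun j s => {x | sy j x = s}
  let m : ℕ → Fin 3 → ℕ := fun j s => if s = 2 then 2 ^ (g j + 1) else if s = 1 then k - 1 else 1
  have hmv0 : ∀ j, m j 0 = 1 := fun j => by
    simp only [m]
    rw [if_neg (by decide : (0 : Fin 3) ≠ 2), if_neg (by decide : (0 : Fin 3) ≠ 1)]
  have hmv1 : ∀ j, m j 1 = k - 1 := fun j => by
    simp only [m]
    rw [if_neg (by decide : (1 : Fin 3) ≠ 2)]
    simp only [if_true]
  have hmv2 : ∀ j, m j 2 = 2 ^ (g j + 1) := fun j => by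
    simp only [m]
    simp only [if_true]
  have hm0 : ∀ j s, 0 < m j s := by
    intro j s
    simp only [m]
    split_ifs
    · positivity
    · omega
    · omega
  have hZ0 : ∀ j, Z j 0 ⊆ (E (n j))ᶜ := by
    intro j x hx hxE
    change sy j x = 0 at hx
    simp only [sy, if_pos hxE] at hx
    split_ifs at hx
    · exact absurd hx (by decide)
    · exact absurd hx (by decide)
  have hZ1 : ∀ j, Z j 1 ⊆ (D (n j))ᶜ := by
    intro j x hx hxD
    change sy j x = 1 at hx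
    simp only [sy, if_pos hxD] at hx
    exact absurd hx (by decide)
  have hstep : ∀ j < J, ∀ (s : Fin 3) (N : ℕ) (Y : Set T), Y ⊆ Z j s →
      Cov Y N ((1 / 2 : ℝ) ^ (n j + 1)) → Cov Y (N * m j s) ((1 / 2 : ℝ) ^ (n (j + 1) + 1)) := by
    intro j hj s N Y hY hc
    have e1 : n j + (n (j + 1) + 1 - n j) = n (j + 1) + 1 := by
      have : n j < n (j + 1) := hn (Nat.lt_succ_self j)
      omega
    fin_cases s
    · have := KC_step ((h2 j hj).mono (hY.trans (hZ0 j))) hc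
      rw [e1] at this
      simpa [m] using this
    · have := KC_step ((h3 j hj).mono (hY.trans (hZ1 j))) hc
      rw [e1] at this
      simpa [m] using this
    · have := KC_triv (C := g j) hc
      have e2 : n j + g j + 1 = n (j + 1) + 1 := by rw [hgn]
      rw [e2] at this
      simpa [m] using this
  let ex : (Fin J → Fin 3) → ℕ → Fin 3 := fun b j => if h : j < J then b ⟨j, h⟩ else 0
  let Mb : (Fin J → Fin 3) → ℕ := fun b => 2 ^ (n 0 + 1) * ∏ j ∈ Finset.range J, m j (ex b j)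
  have hMb : ∀ b, 0 < Mb b := fun b =>
    Nat.mul_pos (by positivity) (Finset.prod_pos fun j _ => hm0 _ _)
  have hidx := fun b => KT_idx (hMb b) (KT_cov (n := n) (Z := Z) (m := m) (ex b) J hstep)
  choose idx hidx using hidx
  let Q : T → (Fin J → Fin 3) := fun x j => sy j x
  let code : T → (Σ b : Fin J → Fin 3, Fin (Mb b)) := fun x => ⟨Q x, idx (Q x) x⟩
  let w : (Σ b : Fin J → Fin 3, Fin (Mb b)) → ℝ := fun c => (∏ j : Fin J, KT_w (θ j) (c.1 j)) / Mb c.1
  have hMbR : ∀ b, (0 : ℝ) < Mb b := fun b => by exact_mod_cast hMb b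
  have hw : ∀ a, 0 < w a := fun a =>
    div_pos (Finset.prod_pos fun j _ => KT_w_pos (hθ0 _) (hθ1 _) _) (hMbR _)
  have hw1 : ∑ a, w a ≤ 1 := by
    rw [Fintype.sum_sigma]
    have e1 : ∀ b : Fin J → Fin 3, ∑ i : Fin (Mb b), w ⟨b, i⟩ = ∏ j : Fin J, KT_w (θ j) (b j) := by
      intro b
      simp only [w]
      rw [Finset.sum_const, Finset.card_univ, Fintype.card_fin, nsmul_eq_mul]
      have := (hMbR b).ne'
      field_simp
    simp only [e1]
    rw [← Fintype.piFinset_univ, ← Finset.prod_univ_sum]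
    exact (Finset.prod_eq_one fun j _ => KT_w_sum _).le
  have hex : ∀ x, ∀ j < J, ex (Q x) j = sy j x := by
    intro x j hj
    simp only [ex, dif_pos hj, Q]
  have hnear : ∀ x y, code x = code y → ‖x - y‖ < (1 / 2 : ℝ) ^ N := by
    intro x y hxy
    have h4 : Q x = Q y := congrArg Sigma.fst hxy
    have h5 : idx (Q x) x = idx (Q x) y := by
      have h6 : (⟨Q x, idx (Q x) x⟩ : Σ b : Fin J → Fin 3, Fin (Mb b)) = ⟨Q y, idx (Q y) y⟩ := hxy
      rw [← h4] at h6
      exact eq_of_heq (Sigma.mk.inj h6).2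
    have h6 := hidx (Q x) x (fun j hj => (hex x j hj).symm) y (fun j hj => by
      rw [h4]
      exact (hex y j hj).symm) h5
    refine h6.trans_lt ?_
    have h7 : 2 * (1 / 2 : ℝ) ^ (n J + 1) = (1 / 2 : ℝ) ^ n J := by rw [pow_succ]; ring
    rw [h7]
    exact pow_lt_pow_right_of_lt_one₀ (by norm_num) (by norm_num) hN
  set Φ : T → ℝ := fun x => ((n 0 : ℝ) + 1) * Real.log 2 + ∑ j ∈ Finset.range J,
    (-Real.log (1 - 2 * θ j) + (E (n j)).indicator (fun _ => -Real.log (θ j) + Real.log k) x +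
      (D (n j)).indicator (fun _ => ((g j : ℝ) + 1) * Real.log 2) x) with hΦ
  have hi1 : ∀ j, Integrable ((E (n j)).indicator (fun _ => -Real.log (θ j) + Real.log k)) μ := fun j =>
    (integrable_const _).indicator (hE _)
  have hi2 : ∀ j, Integrable ((D (n j)).indicator (fun _ => ((g j : ℝ) + 1) * Real.log 2)) μ := fun j =>
    (integrable_const _).indicator (hD _)
  have hterm : ∀ j ∈ Finset.range J, Integrable (fun x => -Real.log (1 - 2 * θ j) +
      (E (n j)).indicator (fun _ => -Real.log (θ j) + Real.log k) x +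
      (D (n j)).indicator (fun _ => ((g j : ℝ) + 1) * Real.log 2) x) μ := fun j _ =>
    ((integrable_const _).add (hi1 j)).add (hi2 j)
  have hΦi : Integrable Φ μ := (integrable_const _).add (integrable_finsetSum _ hterm)
  have hint : ∫ x, Φ x ∂μ = ((n 0 : ℝ) + 1) * Real.log 2 + ∑ j ∈ Finset.range J,
      (-Real.log (1 - 2 * θ j) + μ.real (E (n j)) * (-Real.log (θ j) + Real.log k) +
        μ.real (D (n j)) * (((g j : ℝ) + 1) * Real.log 2)) := by
    rw [hΦ, integral_add (integrable_const _) (integrable_finsetSum _ hterm), integral_const,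
      integral_finsetSum _ hterm]
    simp only [probReal_univ, one_smul]
    congr 1
    apply Finset.sum_congr rfl
    intro j _
    have h5 : Integrable (fun x => -Real.log (1 - 2 * θ j) +
        (E (n j)).indicator (fun _ => -Real.log (θ j) + Real.log k) x) μ := (integrable_const _).add (hi1 j)
    rw [integral_add h5 (hi2 j), integral_add (integrable_const _) (hi1 j),
      integral_const, integral_indicator_const _ (hE _), integral_indicator_const _ (hD _)]
    simp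
  have hlog : ∀ x, -Real.log (w (code x)) ≤ Φ x := by
    intro x
    have hpr : ∀ j ∈ (Finset.univ : Finset (Fin J)), KT_w (θ j) (sy j x) ≠ 0 := fun j _ =>
      (KT_w_pos (hθ0 _) (hθ1 _) _).ne'
    have hpm : ∀ j ∈ Finset.range J, ((m j (sy j x) : ℕ) : ℝ) ≠ 0 := fun j _ => by
      exact_mod_cast (hm0 j _).ne'
    have e0 : (Mb (Q x) : ℝ) = 2 ^ (n 0 + 1) * ∏ j ∈ Finset.range J, ((m j (sy j x) : ℕ) : ℝ) := by
      simp only [Mb]
      push_cast
      congr 1
      refine Finset.prod_congr rfl fun j hj => ?_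
      rw [hex x j (Finset.mem_range.1 hj)]
    have e1 : Real.log (w (code x)) = ∑ j : Fin J, Real.log (KT_w (θ j) (sy j x)) -
        (((n 0 : ℝ) + 1) * Real.log 2 + ∑ j ∈ Finset.range J, Real.log ((m j (sy j x) : ℕ) : ℝ)) := by
      change Real.log ((∏ j : Fin J, KT_w (θ j) (sy j x)) / (Mb (Q x) : ℝ)) = _
      rw [Real.log_div (Finset.prod_ne_zero_iff.2 hpr) (hMbR _).ne', Real.log_prod hpr, e0,
        Real.log_mul (by positivity) (Finset.prod_ne_zero_iff.2 hpm), Real.log_pow, Real.log_prod hpm]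
      push_cast
      rfl
    rw [e1, ← Finset.sum_range (fun j => Real.log (KT_w (θ j) (sy j x)))]
    have e3 : ∀ j ∈ Finset.range J, -Real.log (KT_w (θ j) (sy j x)) + Real.log ((m j (sy j x) : ℕ) : ℝ) ≤
        -Real.log (1 - 2 * θ j) + (E (n j)).indicator (fun _ => -Real.log (θ j) + Real.log k) x +
          (D (n j)).indicator (fun _ => ((g j : ℝ) + 1) * Real.log 2) x := by
      intro j _
      have hth : 0 ≤ -Real.log (1 - 2 * θ j) := by
        rw [neg_nonneg]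
        exact Real.log_nonpos (by have := hθ1 j; linarith) (by have := hθ0 j; linarith)
      by_cases hxD : x ∈ D (n j)
      · have hxE := hDE _ hxD
        have e4 : sy j x = 2 := if_pos hxD
        rw [e4, Set.indicator_of_mem hxE, Set.indicator_of_mem hxD, KT_w2, hmv2]
        push_cast
        rw [Real.log_pow]
        push_cast
        linarith
      · by_cases hxE : x ∈ E (n j)
        · have e4 : sy j x = 1 := by simp only [sy, if_neg hxD, if_pos hxE]
          rw [e4, Set.indicator_of_mem hxE, Set.indicator_of_notMem hxD, KT_w1, hmv1]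
          have e5 : Real.log (((k - 1 : ℕ) : ℝ)) ≤ Real.log k := by
            apply Real.log_le_log
            · have : 0 < k - 1 := by omega
              exact_mod_cast this
            · exact_mod_cast Nat.sub_le k 1
          linarith
        · have e4 : sy j x = 0 := by simp only [sy, if_neg hxD, if_neg hxE]
          rw [e4, Set.indicator_of_notMem hxE, Set.indicator_of_notMem hxD, KT_w0, hmv0]
          simp
    have e6 := Finset.sum_le_sum e3
    rw [Finset.sum_add_distrib, Finset.sum_neg_distrib] at e6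
    simp only [hΦ]
    linarith
  have := TC_bound μ N code w hw hw1 hnear Φ hΦi hlog
  rw [hint] at this
  linarith

theorem KT_nok {X : Set T} {k k' n C : ℕ} (h : NoK X k n C) (hk : k ≤ k') : NoK X k' n C := by
  intro x hx hsep
  refine h (fun i => x (Fin.castLE hk i)) (fun i => hx _) fun i j hij => hsep _ _ fun h' => hij ?_
  exact Fin.castLE_injective hk h'

/-- lengths of the windows -/
noncomputable def Lg (v : ℕ → ℝ) (m : ℕ) : ℕ := max 1 ⌊v m⌋₊

/-- the net -/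
noncomputable def Mg (v : ℕ → ℝ) (m0 : ℕ) : ℕ → ℕ
  | 0 => m0
  | j + 1 => Mg v m0 j + Lg v (Mg v m0 j)

theorem Mg_mono (v : ℕ → ℝ) (m0 : ℕ) : StrictMono (Mg v m0) := by
  refine strictMono_nat_of_lt_succ fun j => ?_
  have : 1 ≤ Lg v (Mg v m0 j) := le_max_left _ _
  simp only [Mg]
  omega

theorem Mg_ge (v : ℕ → ℝ) (m0 j : ℕ) : m0 ≤ Mg v m0 j := (Mg_mono v m0).monotone (Nat.zero_le j)

theorem Lg_bounds {v : ℕ → ℝ} {m : ℕ} (hv : 0 ≤ v m) :
    (Lg v m : ℝ) ≤ 1 + v m ∧ v m ≤ 2 * Lg v m ∧ (v m ≤ m → 1 ≤ m → Lg v m ≤ m) := by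
  have h1 : ((⌊v m⌋₊ : ℕ) : ℝ) ≤ v m := Nat.floor_le hv
  have h2 : v m < ((⌊v m⌋₊ : ℕ) : ℝ) + 1 := Nat.lt_floor_add_one _
  have h3 : (Lg v m : ℝ) = max 1 ((⌊v m⌋₊ : ℕ) : ℝ) := by
    unfold Lg
    push_cast
    rfl
  have h4 : ((⌊v m⌋₊ : ℕ) : ℝ) ≤ Lg v m := by rw [h3]; exact le_max_right _ _
  have h5 : (1 : ℝ) ≤ Lg v m := by rw [h3]; exact le_max_left _ _
  refine ⟨?_, by linarith, fun h6 h7 => ?_⟩
  · rw [h3]
    exact max_le (by linarith) (by linarith)
  · have h8 : (Lg v m : ℝ) ≤ m := by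
      rw [h3]
      exact max_le (by exact_mod_cast h7) (h1.trans h6)
    exact_mod_cast h8

/-- the cost of one scale -/
theorem KT_term {u θ s lk : ℝ} (hu0 : 0 ≤ u) (hu1 : u ≤ 1) (hs : 0 < s) (hlk : 0 ≤ lk)
    (hθ : θ = min (1 / 4) (s + u)) :
    -Real.log (1 - 2 * θ) + u * (-Real.log θ + lk) ≤ 4 * s + (6 + lk) * (u * (1 - Real.log u)) := by
  have hθ0 : 0 < θ := by
    rw [hθ]
    exact lt_min (by norm_num) (by linarith)
  have hθ4 : θ ≤ 1 / 4 := by rw [hθ]; exact min_le_left _ _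
  have hθs : θ ≤ s + u := by rw [hθ]; exact min_le_right _ _
  have h1 : -Real.log (1 - 2 * θ) ≤ 2 * (2 * θ) := TF_log (by linarith) (by linarith)
  have hlu : Real.log u ≤ 0 := Real.log_nonpos hu0 hu1
  rcases hu0.eq_or_lt with rfl | hu
  · simp only [zero_mul, add_zero, mul_zero]
    linarith
  · have h2 : u / 4 ≤ θ := by
      rw [hθ]
      exact le_min (by linarith) (by linarith)
    have h3 : -Real.log θ ≤ Real.log 4 - Real.log u := by
      have h4 := Real.log_le_log (by positivity) h2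
      rw [Real.log_div hu.ne' (by norm_num)] at h4
      linarith
    have h4 : Real.log 4 ≤ 2 := by
      have : Real.log 4 = 2 * Real.log 2 := by
        rw [show (4 : ℝ) = 2 ^ 2 by norm_num, Real.log_pow]
        norm_num
      have := Real.log_two_lt_d9
      linarith
    have h5 : u * (-Real.log θ + lk) ≤ u * (2 - Real.log u + lk) :=
      mul_le_mul_of_nonneg_left (by linarith) hu.le
    have h6 : u * (2 - Real.log u + lk) + 4 * u ≤ (6 + lk) * (u * (1 - Real.log u)) := by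
      have h7 : 0 ≤ u * (-Real.log u) := mul_nonneg hu.le (by linarith)
      have h8 : 0 ≤ lk * (u * (-Real.log u)) := mul_nonneg hlk h7
      nlinarith
    linarith

/-- **Theorem T, three symbols.** For every probability measure on the circle, the entropy of the partition into `2 ^ N`
arcs is bounded by the accumulated measure of the points whose slice of scale `n < N` is close to Lebesgue measure, plus
the accumulated values of `u (1 - log u) / (log n) ^ t`, `u` the measure of the points whose slice is half Lebesgue. -/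
theorem ent_three {κ t : ℝ} (ht : 0 ≤ t) (hκ : κ < 3 / 2) (r : ℕ → ℕ) (hr : Tendsto r atTop atTop)
    (hA : ∀ᶠ n : ℕ in atTop, (r n : ℝ) ≤ (Real.log n) ^ κ) {a : ℝ} (ha : 0 < a)
    (har : ∀ᶠ n : ℕ in atTop, a * (Real.log n) ^ t ≤ r n) (F : Finset C(T, ℝ))
    (hF : ∀ f ∈ F, ∀ z, 0 ≤ f z) (δ : ℝ) (hδ : 0 < δ) :
    ∃ C : ℝ, 0 < C ∧ ∀ (μ : Measure T) [IsProbabilityMeasure μ] (N : ℕ),
      Hd μ N ≤ C * (1 + ∑ n ∈ Finset.Ico 2 N, (μ.real (NrF r F δ n) +
        (Real.log n) ^ (-t) * (μ.real (ExF r F δ n) * (1 - Real.log (μ.real (ExF r F δ n)))))) := by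
  have hTh := thick_pow hκ r hr hA
  obtain ⟨ε1, hε1, n1, hpair⟩ := KT_pair hTh F hF δ hδ
  obtain ⟨k0, ε2, hε2, n2, hbad⟩ := bad_noK hTh F δ hδ
  set ε := min ε1 ε2 with hε
  have hε0 : 0 < ε := lt_min hε1 hε2
  have h2t : (1 : ℝ) ≤ 2 ^ t := Real.one_le_rpow (by norm_num) ht
  set k := max k0 2 with hk
  set e : ℝ := min 1 (ε * a / (4 * 2 ^ t)) with he
  have he0 : 0 < e := lt_min one_pos (by positivity)
  have he1 : e ≤ 1 := min_le_left _ _
  have hea : e ≤ ε * a / (4 * 2 ^ t) := min_le_right _ _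
  have hNT : Tendsto (fun N : ℕ => (N : ℝ)) atTop atTop := tendsto_natCast_atTop_atTop
  have h1 : ∀ᶠ N : ℕ in atTop, Real.log N ^ t ≤ N := by
    have := (isLittleO_log_rpow_rpow_atTop t (one_pos : (0 : ℝ) < 1)).def one_pos
    filter_upwards [hNT.eventually this] with N hN
    rw [one_mul, Real.rpow_one, Real.norm_eq_abs, Real.norm_eq_abs] at hN
    exact (le_abs_self _).trans (hN.trans (le_of_eq (abs_of_nonneg (by positivity))))
  have h2 : ∀ᶠ n : ℕ in atTop, 6 / ε ≤ r n := (tendsto_natCast_atTop_atTop.comp hr).eventually_ge_atTop _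
  obtain ⟨m0, hm0⟩ := eventually_atTop.1 ((har.and (eventually_ge_atTop (max (max n1 n2) 3))).and
    (h1.and h2))
  set ℓ : ℕ → ℝ := fun m => Real.log m ^ t with hℓ
  set v : ℕ → ℝ := fun m => e * ℓ m with hv
  set M : ℕ → ℕ := Mg v m0 with hM
  have hMge : ∀ j, m0 ≤ M j := Mg_ge v m0
  have hMs : ∀ j, M (j + 1) = M j + Lg v (M j) := fun j => rfl
  have hMm : StrictMono M := Mg_mono v m0
  have hlog2 : Real.log 2 ≤ 1 := by
    have := Real.log_two_lt_d9
    linarith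
  have hlog20 : 0 < Real.log 2 := Real.log_pos (by norm_num)
  have hlog3 : 1 < Real.log 3 := by
    rw [Real.lt_log_iff_exp_lt (by norm_num)]
    have := Real.exp_one_lt_d9
    linarith
  -- facts for all `m ≥ m0`
  have hm : ∀ m, m0 ≤ m → a * ℓ m ≤ r m ∧ n1 ≤ m ∧ n2 ≤ m ∧ 3 ≤ m ∧ ℓ m ≤ m ∧ 6 ≤ ε * r m ∧ 1 ≤ ℓ m := by
    intro m hmm
    obtain ⟨⟨h3, h4⟩, h5, h6⟩ := hm0 m hmm
    have h7 : 3 ≤ m := (le_max_right _ _).trans h4
    have h8 : n1 ≤ m := ((le_max_left _ _).trans (le_max_left _ _)).trans h4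
    have h9 : n2 ≤ m := ((le_max_right _ _).trans (le_max_left _ _)).trans h4
    refine ⟨h3, h8, h9, h7, h5, ?_, ?_⟩
    · rw [div_le_iff₀ hε0] at h6
      linarith
    · have h10 : Real.log 3 ≤ Real.log m := Real.log_le_log (by norm_num) (by exact_mod_cast h7)
      exact Real.one_le_rpow (by linarith) ht
  have hlogmono : ∀ m m' : ℕ, m0 ≤ m → m ≤ m' → ℓ m ≤ ℓ m' := by
    intro m m' h3 h4
    have h5 : (3 : ℝ) ≤ m := by exact_mod_cast (hm m h3).2.2.2.1
    have h6 : Real.log m ≤ Real.log m' := Real.log_le_log (by linarith) (by exact_mod_cast h4)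
    exact Real.rpow_le_rpow (Real.log_nonneg (by linarith)) h6 ht
  have hL : ∀ j, (Lg v (M j) : ℝ) ≤ 1 + e * ℓ (M j) ∧ e * ℓ (M j) ≤ 2 * Lg v (M j) ∧ Lg v (M j) ≤ M j := by
    intro j
    obtain ⟨-, -, -, h3, h4, -, h5⟩ := hm (M j) (hMge j)
    have h6 : 0 ≤ v (M j) := by simp only [hv]; positivity
    obtain ⟨h7, h8, h9⟩ := Lg_bounds h6
    refine ⟨h7, h8, h9 ?_ (by omega)⟩
    have : e * ℓ (M j) ≤ 1 * ℓ (M j) := mul_le_mul_of_nonneg_right he1 (by linarith)
    simp only [hv]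
    linarith
  have hL1 : ∀ j, (1 : ℝ) ≤ Lg v (M j) := fun j => by exact_mod_cast (le_max_left _ _ : 1 ≤ Lg v (M j))
  -- doubling
  have hdb : ∀ j, ℓ (M (j + 1)) ≤ 2 ^ t * ℓ (M j) := by
    intro j
    have h3 : (3 : ℝ) ≤ M j := by exact_mod_cast (hm (M j) (hMge j)).2.2.2.1
    have h5 : (M (j + 1) : ℝ) ≤ (M j : ℝ) ^ 2 := by
      have := (hL j).2.2
      have h6 : M (j + 1) ≤ 2 * M j := by rw [hMs]; omega
      have h7 : (M (j + 1) : ℝ) ≤ 2 * M j := by exact_mod_cast h6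
      nlinarith
    have h7 : (0 : ℝ) < M (j + 1) := by
      have := (hm (M (j + 1)) (hMge (j + 1))).2.2.2.1
      exact_mod_cast (by omega : 0 < M (j + 1))
    have h8 : Real.log (M (j + 1)) ≤ 2 * Real.log (M j) := by
      have := Real.log_le_log h7 h5
      rw [Real.log_pow] at this
      simpa using this
    have h9 : 0 ≤ Real.log (M (j + 1)) := Real.log_natCast_nonneg _
    simp only [hℓ]
    rw [← Real.mul_rpow (by norm_num) (Real.log_natCast_nonneg _)]
    exact Real.rpow_le_rpow h9 h8 ht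
  -- the reach
  have hgap : ∀ j, ((M (j + 2) + 1 - M j : ℕ) : ℝ) = Lg v (M j) + Lg v (M (j + 1)) + 1 := by
    intro j
    have h5 : M (j + 2) + 1 - M j = Lg v (M j) + Lg v (M (j + 1)) + 1 := by
      rw [hMs (j + 1), hMs j]
      omega
    rw [h5]
    push_cast
    ring
  have hreach : ∀ j, ∀ n : ℕ, M j ≤ n → ((M (j + 2) + 1 - M j : ℕ) : ℝ) ≤ ε * r n := by
    intro j n hjn
    have h1 := (hL j).1
    have h2 := (hL (j + 1)).1
    have h3 := hdb j
    obtain ⟨h4, -, -, -, -, h5, -⟩ := hm n ((hMge j).trans hjn)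
    have h6 := (hm (M j) (hMge j)).2.2.2.2.2.2
    have h7 := hlogmono (M j) n (hMge j) hjn
    rw [hgap]
    have h8 : e * ℓ (M (j + 1)) ≤ e * (2 ^ t * ℓ (M j)) := mul_le_mul_of_nonneg_left h3 he0.le
    have h9 : e * ℓ (M j) ≤ e * (2 ^ t * ℓ (M j)) := by
      apply mul_le_mul_of_nonneg_left _ he0.le
      nlinarith
    have h10 : e * (2 ^ t * ℓ (M j)) ≤ ε * r n / 4 := by
      have h11 : e * (2 ^ t * ℓ (M j)) ≤ ε * a / (4 * 2 ^ t) * (2 ^ t * ℓ (M j)) :=
        mul_le_mul_of_nonneg_right hea (by positivity)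
      have h12 : ε * a / (4 * 2 ^ t) * (2 ^ t * ℓ (M j)) = ε * (a * ℓ (M j)) / 4 := by
        field_simp
      have h13 : a * ℓ (M j) ≤ r n := (mul_le_mul_of_nonneg_left h7 ha.le).trans h4
      have h14 : ε * (a * ℓ (M j)) ≤ ε * r n := mul_le_mul_of_nonneg_left h13 hε0.le
      linarith
    linarith
  have hk2 : 2 ≤ k := le_max_right _ _
  have hk2' : (2 : ℝ) ≤ k := by exact_mod_cast hk2
  set lk := Real.log k with hlk
  have hlk0 : 0 ≤ lk := Real.log_nonneg (by linarith)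
  set S : ℝ := ∑' j : ℕ, 1 / ((j : ℝ) + 1) ^ 2 with hS
  have hSs : Summable fun j : ℕ => 1 / ((j : ℝ) + 1) ^ 2 := by
    have h := (summable_nat_add_iff 1).2 (Real.summable_one_div_nat_pow.2 (by norm_num : 1 < 2))
    simpa using h
  have hS0 : 0 ≤ S := tsum_nonneg fun j => by positivity
  set C1 : ℝ := (6 + lk) * (2 ^ t * (2 / e)) + (3 + 2 * 2 ^ t) with hC1
  set K0 : ℝ := Real.log 3 + ((M 1 : ℝ) + 1) * Real.log 2 + 4 * S with hK0
  have hC10 : 0 ≤ C1 := by positivity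
  have hK00 : 0 < K0 := by positivity
  refine ⟨K0 + C1, by positivity, fun μ hμ N => ?_⟩
  set u : ℕ → ℝ := fun n => μ.real (ExF r F δ n) with hu
  set w : ℕ → ℝ := fun n => μ.real (NrF r F δ n) with hw
  have hu0 : ∀ n, 0 ≤ u n := fun n => measureReal_nonneg
  have hu1 : ∀ n, u n ≤ 1 := fun n => measureReal_le_one
  have hw0 : ∀ n, 0 ≤ w n := fun n => measureReal_nonneg
  have hφ0 : ∀ n, 0 ≤ u n * (1 - Real.log (u n)) := fun n =>
    mul_nonneg (hu0 n) (by have := Real.log_nonpos (hu0 n) (hu1 n); linarith)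
  set ψ : ℕ → ℝ := fun n => w n + (Real.log n) ^ (-t) * (u n * (1 - Real.log (u n))) with hψ
  have hψ0 : ∀ n, 0 ≤ ψ n := fun n =>
    add_nonneg (hw0 n) (mul_nonneg (Real.rpow_nonneg (Real.log_natCast_nonneg _) _) (hφ0 n))
  set p : ℕ → ℝ := fun n => if 2 ≤ n then ψ n else 0 with hp
  have hp0 : ∀ n, 0 ≤ p n := by
    intro n
    simp only [hp]
    split_ifs
    · exact hψ0 n
    · exact le_rfl
  have hpψ : ∀ n, m0 ≤ n → p n = ψ n := by
    intro n hn
    have := (hm n hn).2.2.2.1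
    simp only [hp]
    rw [if_pos (by omega)]
  have hpsum : ∑ n ∈ Finset.range N, p n = ∑ n ∈ Finset.Ico 2 N, ψ n := by
    simp only [hp]
    rw [← Finset.sum_filter]
    congr 1
    ext n
    simp only [Finset.mem_filter, Finset.mem_range, Finset.mem_Ico]
    omega
  change Hd μ N ≤ (K0 + C1) * (1 + ∑ n ∈ Finset.Ico 2 N, ψ n)
  have hchoose : ∀ j, ∃ k, M j ≤ k ∧ k < M (j + 1) ∧ ∀ k', M j ≤ k' → k' < M (j + 1) → p k ≤ p k' := by
    intro j
    obtain ⟨k, hk, hk'⟩ := Finset.exists_min_image (Finset.Ico (M j) (M (j + 1))) p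
      ⟨M j, Finset.mem_Ico.2 ⟨le_rfl, hMm (Nat.lt_succ_self j)⟩⟩
    rw [Finset.mem_Ico] at hk
    exact ⟨k, hk.1, hk.2, fun k' h1 h2 => hk' k' (Finset.mem_Ico.2 ⟨h1, h2⟩)⟩
  choose nn hn1 hn2 hn3 using hchoose
  have hexJ : ∃ J, N < M (J + 1) := by
    refine ⟨N, lt_of_lt_of_le (Nat.lt_succ_self N) (hMm.le_apply (x := N + 1))⟩
  classical
  set J := Nat.find hexJ with hJdef
  have hJ1 : N < M (J + 1) := Nat.find_spec hexJ
  have hJ2 : 0 < J → M J ≤ N := by
    intro h0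
    obtain ⟨J', hJ'⟩ := Nat.exists_eq_succ_of_ne_zero h0.ne'
    have h1 : ¬ N < M (J' + 1) := Nat.find_min hexJ (by rw [← hJdef, hJ']; exact Nat.lt_succ_self J')
    rw [hJ']
    exact not_lt.1 h1
  set n' : ℕ → ℕ := fun j => if j < J then nn j else M (j + 1) with hn'
  have hn'1 : ∀ j, M j ≤ n' j := by
    intro j
    simp only [hn']
    split_ifs
    · exact hn1 j
    · exact (hMm (Nat.lt_succ_self j)).le
  have hn'2 : ∀ j, n' j ≤ M (j + 1) := by
    intro j
    simp only [hn']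
    split_ifs
    · exact (hn2 j).le
    · exact le_rfl
  have hn's : StrictMono n' := by
    refine strictMono_nat_of_lt_succ fun j => ?_
    by_cases h1 : j < J
    · have h2 : n' j = nn j := by simp only [hn', if_pos h1]
      rw [h2]
      exact (hn2 j).trans_le (hn'1 (j + 1))
    · have h2 : n' j = M (j + 1) := by simp only [hn', if_neg h1]
      have h3 : n' (j + 1) = M (j + 2) := by simp only [hn', if_neg (show ¬ j + 1 < J by omega)]
      rw [h2, h3]
      exact hMm (Nat.lt_succ_self _)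
  set s : ℕ → ℝ := fun j => 1 / ((n' j : ℝ) + 1) ^ 2 with hs
  have hs0 : ∀ j, 0 < s j := fun j => by simp only [hs]; positivity
  set θ : ℕ → ℝ := fun j => min (1 / 4) (s j + u (n' j)) with hθ
  have hθ0 : ∀ j, 0 < θ j := fun j => by
    simp only [hθ]
    have := hs0 j
    have := hu0 (n' j)
    exact lt_min (by norm_num) (by linarith)
  have hθ1 : ∀ j, θ j < 1 / 2 := fun j =>
    lt_of_le_of_lt (min_le_left (1 / 4) (s j + u (n' j))) (by norm_num)
  have hstepC : ∀ j, n' (j + 1) + 1 - n' j ≤ M (j + 2) + 1 - M j := by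
    intro j
    have h5 := hn'1 j
    have h7 : n' (j + 1) ≤ M (j + 2) := hn'2 (j + 1)
    omega
  have hrj : ∀ j, ((n' (j + 1) + 1 - n' j : ℕ) : ℝ) ≤ ε * r (n' j) := by
    intro j
    have h4 : ((n' (j + 1) + 1 - n' j : ℕ) : ℝ) ≤ ((M (j + 2) + 1 - M j : ℕ) : ℝ) := by
      exact_mod_cast hstepC j
    exact h4.trans (hreach j (n' j) (hn'1 j))
  have hr0 : ∀ n : ℕ, (0 : ℝ) ≤ r n := fun n => Nat.cast_nonneg _
  have hmain := KT_net μ (ExF r F δ) (NrF r F δ) (KT_meas_E r F δ) (KT_meas_N r F δ) (KT_sub hF) n' hn's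
    θ hθ0 hθ1 hk2 J N (by
      have h1 : n' J = M (J + 1) := by simp only [hn', if_neg (lt_irrefl J)]
      rw [h1]
      exact hJ1) (by
      intro j _
      refine hpair (n' j) _ ((hm _ ((hMge j).trans (hn'1 j))).2.1) ((hrj j).trans ?_)
      exact mul_le_mul_of_nonneg_right (min_le_left _ _) (hr0 _)) (by
      intro j _
      rw [KT_compl, compl_compl]
      refine KT_nok (hbad (n' j) _ ((hm _ ((hMge j).trans (hn'1 j))).2.2.1) ((hrj j).trans ?_))
        (le_max_left _ _)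
      exact mul_le_mul_of_nonneg_right (min_le_right _ _) (hr0 _))
  -- the terms
  have hterm : ∀ j ∈ Finset.range J, (-Real.log (1 - 2 * θ j) + u (n' j) * (-Real.log (θ j) + lk) +
      w (n' j) * ((((n' (j + 1) - n' j : ℕ) : ℝ) + 1) * Real.log 2)) ≤
      4 * (1 / ((j : ℝ) + 1) ^ 2) + C1 * (((M (j + 1) - M j : ℕ) : ℝ) * p (nn j)) := by
    intro j hj
    rw [Finset.mem_range] at hj
    have h1 : n' j = nn j := by simp only [hn', if_pos hj]
    have h2 := KT_term (hu0 (n' j)) (hu1 (n' j)) (hs0 j) hlk0 (θ := θ j) rfl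
    have h3 : s j ≤ 1 / ((j : ℝ) + 1) ^ 2 := by
      simp only [hs]
      apply one_div_le_one_div_of_le (by positivity)
      have h3 : (j : ℝ) ≤ n' j := by exact_mod_cast hn's.le_apply (x := j)
      exact pow_le_pow_left₀ (by positivity) (by linarith) 2
    have h5 : M (j + 1) - M j = Lg v (M j) := by rw [hMs]; omega
    rw [h5]
    have hm' : m0 ≤ n' j := (hMge j).trans (hn'1 j)
    have h6 : p (nn j) = ψ (n' j) := by rw [← h1]; exact hpψ _ hm'
    rw [h6]
    obtain ⟨h16, h17, -⟩ := hL j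
    have h18 := (hL (j + 1)).1
    have h20 := hL1 j
    have h21 := hdb j
    -- the entropy of the symbol
    have h22 : u (n' j) * (1 - Real.log (u (n' j))) ≤ ℓ (n' j) * ψ (n' j) := by
      have h23 : (3 : ℝ) ≤ n' j := by exact_mod_cast (hm _ hm').2.2.2.1
      have h24 : 0 < Real.log (n' j) := Real.log_pos (by linarith)
      have h25 : (Real.log (n' j)) ^ (-t) * (u (n' j) * (1 - Real.log (u (n' j)))) ≤ ψ (n' j) :=
        le_add_of_nonneg_left (hw0 _)
      have h26 : 0 < Real.log (n' j) ^ t := Real.rpow_pos_of_pos h24 t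
      rw [Real.rpow_neg h24.le] at h25
      have h27 := mul_le_mul_of_nonneg_left h25 h26.le
      rw [← mul_assoc, mul_inv_cancel₀ h26.ne', one_mul] at h27
      exact h27
    have h28 : ℓ (n' j) ≤ 2 ^ t * (2 / e) * Lg v (M j) := by
      have h29 : ℓ (n' j) ≤ ℓ (M (j + 1)) := hlogmono _ _ hm' (hn'2 j)
      have h30 : ℓ (M j) ≤ 2 / e * Lg v (M j) := by
        rw [div_mul_eq_mul_div, le_div_iff₀ he0]
        linarith
      calc ℓ (n' j) ≤ 2 ^ t * ℓ (M j) := h29.trans h21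
        _ ≤ 2 ^ t * (2 / e * Lg v (M j)) := mul_le_mul_of_nonneg_left h30 (by linarith)
        _ = _ := by ring
    have h31 : (6 + lk) * (u (n' j) * (1 - Real.log (u (n' j)))) ≤
        (6 + lk) * (2 ^ t * (2 / e)) * (Lg v (M j) * ψ (n' j)) := by
      have h32 := mul_le_mul_of_nonneg_right h28 (hψ0 (n' j))
      have h33 := mul_le_mul_of_nonneg_left (h22.trans h32) (show 0 ≤ 6 + lk by linarith)
      linarith
    -- the next digits
    have h34 : ((((n' (j + 1) - n' j : ℕ) : ℝ) + 1) * Real.log 2) ≤ (3 + 2 * 2 ^ t) * Lg v (M j) := by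
      have h35 : ((n' (j + 1) - n' j : ℕ) : ℝ) + 1 ≤ ((M (j + 2) + 1 - M j : ℕ) : ℝ) := by
        have h36 : n' (j + 1) - n' j + 1 ≤ M (j + 2) + 1 - M j := by
          have := hstepC j
          have : n' j < n' (j + 1) := hn's (Nat.lt_succ_self j)
          omega
        exact_mod_cast h36
      rw [hgap] at h35
      have h37 : e * ℓ (M (j + 1)) ≤ e * (2 ^ t * ℓ (M j)) := mul_le_mul_of_nonneg_left h21 he0.le
      have h38 : 2 ^ t * (e * ℓ (M j)) ≤ 2 ^ t * (2 * Lg v (M j)) :=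
        mul_le_mul_of_nonneg_left h17 (by linarith)
      have h39 : ((n' (j + 1) - n' j : ℕ) : ℝ) + 1 ≤ (3 + 2 * 2 ^ t) * Lg v (M j) := by linarith
      have h40 : (0 : ℝ) ≤ ((n' (j + 1) - n' j : ℕ) : ℝ) + 1 := by positivity
      calc (((n' (j + 1) - n' j : ℕ) : ℝ) + 1) * Real.log 2 ≤ (((n' (j + 1) - n' j : ℕ) : ℝ) + 1) * 1 :=
            mul_le_mul_of_nonneg_left hlog2 h40
        _ ≤ _ := by rw [mul_one]; exact h39
    have h41 : w (n' j) ≤ ψ (n' j) := le_add_of_nonneg_right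
      (mul_nonneg (Real.rpow_nonneg (Real.log_natCast_nonneg _) _) (hφ0 _))
    have h42 : w (n' j) * ((((n' (j + 1) - n' j : ℕ) : ℝ) + 1) * Real.log 2) ≤
        (3 + 2 * 2 ^ t) * (Lg v (M j) * ψ (n' j)) := by
      calc w (n' j) * ((((n' (j + 1) - n' j : ℕ) : ℝ) + 1) * Real.log 2)
          ≤ w (n' j) * ((3 + 2 * 2 ^ t) * Lg v (M j)) := mul_le_mul_of_nonneg_left h34 (hw0 _)
        _ ≤ ψ (n' j) * ((3 + 2 * 2 ^ t) * Lg v (M j)) := mul_le_mul_of_nonneg_right h41 (by positivity)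
        _ = _ := by ring
    have h43 : C1 * (Lg v (M j) * ψ (n' j)) = (6 + lk) * (2 ^ t * (2 / e)) * (Lg v (M j) * ψ (n' j)) +
        (3 + 2 * 2 ^ t) * (Lg v (M j) * ψ (n' j)) := by rw [hC1]; ring
    rw [h43]
    linarith
  have hsum := Finset.sum_le_sum hterm
  have hsplit : ∑ j ∈ Finset.range J, (4 * (1 / ((j : ℝ) + 1) ^ 2) +
      C1 * (((M (j + 1) - M j : ℕ) : ℝ) * p (nn j))) = 4 * ∑ j ∈ Finset.range J, 1 / ((j : ℝ) + 1) ^ 2 +
      C1 * ∑ j ∈ Finset.range J, ((M (j + 1) - M j : ℕ) : ℝ) * p (nn j) := by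
    rw [Finset.sum_add_distrib, ← Finset.mul_sum, ← Finset.mul_sum]
  rw [hsplit] at hsum
  have hs1 : ∑ j ∈ Finset.range J, 1 / ((j : ℝ) + 1) ^ 2 ≤ S :=
    hSs.sum_le_tsum _ fun j _ => by positivity
  have hs2 : ∑ j ∈ Finset.range J, ((M (j + 1) - M j : ℕ) : ℝ) * p (nn j) ≤
      ∑ n ∈ Finset.Ico 2 N, ψ n := by
    rw [← hpsum]
    by_cases h0 : 0 < J
    · exact TF_sum hp0 M nn hMm (fun j k h1 h2 => hn3 j k h1 h2) J N (hJ2 h0)
    · have : J = 0 := by omega
      rw [this]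
      simp only [Finset.range_zero, Finset.sum_empty]
      exact Finset.sum_nonneg fun k _ => hp0 k
  have hn0 : (n' 0 : ℝ) ≤ M 1 := by exact_mod_cast hn'2 0
  have hP0 : 0 ≤ ∑ n ∈ Finset.Ico 2 N, ψ n := Finset.sum_nonneg fun k _ => hψ0 k
  have h30 : ((n' 0 : ℝ) + 1) * Real.log 2 ≤ ((M 1 : ℝ) + 1) * Real.log 2 :=
    mul_le_mul_of_nonneg_right (by linarith) hlog20.le
  have h31 := mul_le_mul_of_nonneg_left hs2 hC10
  have h32 : 0 ≤ K0 * ∑ n ∈ Finset.Ico 2 N, ψ n := mul_nonneg hK00.le hP0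
  calc Hd μ N ≤ _ := hmain
    _ ≤ K0 + C1 * ∑ n ∈ Finset.Ico 2 N, ψ n := by rw [hK0]; linarith
    _ ≤ (K0 + C1) * (1 + ∑ n ∈ Finset.Ico 2 N, ψ n) := by
        have h33 : (K0 + C1) * (1 + ∑ n ∈ Finset.Ico 2 N, ψ n) = K0 + C1 +
          K0 * ∑ n ∈ Finset.Ico 2 N, ψ n + C1 * ∑ n ∈ Finset.Ico 2 N, ψ n := by ring
        rw [h33]
        linarith

end Pool.Agent.Half
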