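import Pool.Agent.Half.SmbS

/-! Consequence for measures without atoms (helper56). -/

open MeasureTheory Filter Topology
open scoped ENNReal

namespace Pool.Agent.Half

/-- The entropies of the partitions into small arcs are unbounded if there is no atom. -/
theorem Hb_unbdd {b : ℕ} (hb : 2 ≤ b) (μ : Measure T) [IsProbabilityMeasure μ] (hna : ∀ x, μ {x} = 0) (B : ℝ) :
    ∃ n : ℕ, B ≤ Hb b μ n := by
  have hb0 : 0 < b := by omega
  -- small balls have small measure
  have hball : ∃ δ : ℝ, 0 < δ ∧ ∀ c : T, μ (Metric.closedBall c δ) < ENNReal.ofReal (Real.exp (-B)) := by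
    have h1 : ∀ x : T, ∃ U ⊇ ({x} : Set T), IsOpen U ∧ μ U < ENNReal.ofReal (Real.exp (-B)) := fun x =>
      Set.exists_isOpen_lt_of_lt {x} _ (by rw [hna x]; exact ENNReal.ofReal_pos.2 (Real.exp_pos _))
    choose U hU1 hU2 hU3 using h1
    obtain ⟨δ, hδ, h2⟩ := lebesgue_number_lemma_of_metric (isCompact_univ : IsCompact (Set.univ : Set T))
      hU2 (fun x _ => Set.mem_iUnion.2 ⟨x, hU1 x rfl⟩)
    refine ⟨δ / 2, by linarith, fun c => ?_⟩
    obtain ⟨i, hi⟩ := h2 c (Set.mem_univ c)
    exact lt_of_le_of_lt (measure_mono ((Metric.closedBall_subset_ball (by linarith)).trans hi)) (hU3 i)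
  obtain ⟨δ, hδ, hB⟩ := hball
  obtain ⟨n, hn⟩ := exists_pow_lt_of_lt_one hδ (show (1 / 2 : ℝ) < 1 by norm_num)
  refine ⟨n, ?_⟩
  have hcell : ∀ i : ℕ, μ.real {x | LogSc.cell b n x = i} ≤ Real.exp (-B) := by
    intro i
    rcases Set.eq_empty_or_nonempty {x : T | LogSc.cell b n x = i} with h | ⟨c, hc⟩
    · rw [h]
      simp only [measureReal_empty]
      exact (Real.exp_pos _).le
    · have hsub : {x : T | LogSc.cell b n x = i} ⊆ Metric.closedBall c δ := by
        intro x hx
        rw [Metric.mem_closedBall, dist_eq_norm]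
        have h1 := LogSc.cell_near hb0 n x c
        rw [(hx : LogSc.cell b n x = i), (hc : LogSc.cell b n c = i), sub_self, zero_div] at h1
        rw [show (((0 : ℝ) : ℝ) : T) = 0 from rfl, sub_zero] at h1
        have h2 : ((b : ℝ) ^ n)⁻¹ ≤ (1 / 2 : ℝ) ^ n := by
          rw [one_div, inv_pow]
          exact inv_anti₀ (by positivity) (pow_le_pow_left₀ (by norm_num) (by exact_mod_cast hb) _)
        linarith
      have h3 : μ {x : T | LogSc.cell b n x = i} ≤ ENNReal.ofReal (Real.exp (-B)) :=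
        (measure_mono hsub).trans (hB c).le
      exact ENNReal.toReal_le_of_le_ofReal (Real.exp_pos _).le h3
  have hsum : ∑ i ∈ Finset.range (b ^ n), μ.real {x : T | LogSc.cell b n x = i} = 1 := by
    rw [← measureReal_biUnion_finset]
    · have : (⋃ i ∈ Finset.range (b ^ n), {x : T | LogSc.cell b n x = i}) = Set.univ := by
        ext x
        simp only [Set.mem_iUnion, Set.mem_univ, iff_true, Finset.mem_range, exists_prop, Set.mem_ofPred_eq]
        exact ⟨_, LogSc.cell_lt hb0 n x, rfl⟩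
      rw [this]
      exact probReal_univ
    · intro a _ b' _ hab
      refine Set.disjoint_left.2 fun y hy hy' => hab ?_
      exact (Eq.symm hy).trans hy'
    · exact fun w _ => LogSc.measurable_cell b n (MeasurableSet.singleton w)
  unfold Hb
  calc B = ∑ i ∈ Finset.range (b ^ n), μ.real {x : T | LogSc.cell b n x = i} * B := by
        rw [← Finset.sum_mul, hsum, one_mul]
    _ ≤ _ := by
        refine Finset.sum_le_sum fun i _ => ?_
        unfold Real.negMulLog
        rcases (measureReal_nonneg (μ := μ) (s := {x : T | LogSc.cell b n x = i})).eq_or_lt with h0 | h0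
        · rw [← h0]; simp
        · have h4 : Real.log (μ.real {x : T | LogSc.cell b n x = i}) ≤ -B := by
            rw [← Real.log_exp (-B)]
            exact Real.log_le_log h0 (hcell i)
          nlinarith

theorem Hb_mono {b : ℕ} (hb : 0 < b) (μ : Measure T) [IsProbabilityMeasure μ] : Monotone (Hb b μ) := by
  refine monotone_nat_of_le_succ fun n => ?_
  rw [Hb_eq hb, Hb_eq hb]
  refine ent_le_of μ _ _ (cellF_meas hb (n + 1)) fun x y hxy => ?_
  rw [cellF_eq] at hxy ⊢
  rw [← LogSc.cell_div hb 1 n x, ← LogSc.cell_div hb 1 n y, show 1 + n = n + 1 by omega, hxy]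

theorem light_freq {p q : ℕ} (hpq : PQ p q) {ε β : ℝ} (hε : 0 < ε) (hβ : β < 1 / 2) (μ : Measure T)
    [IsProbabilityMeasure μ] (h2 : MeasurePreserving (fun x : T => (2 : ℕ) • x) μ μ)
    (h3 : MeasurePreserving (fun x : T => (3 : ℕ) • x) μ μ) (hna : ∀ x, μ {x} = 0) :
    ∃ᶠ L : ℕ in atTop, (q : ℝ) ^ (-((1 + ε) * L)) ≤ μ.real (light q β L μ) := by
  intro hcon
  have hcon' : ∀ᶠ L : ℕ in atTop, μ.real (light q β L μ) ≤ (q : ℝ) ^ (-((1 + ε) * L)) := by
    filter_upwards [hcon] with L hL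
    exact (not_le.1 hL).le
  obtain ⟨C, L0, hC, hS⟩ := ent_smb hpq (ε := ε / 2) (β := β) (A := 2) (by positivity) hβ (by norm_num)
  obtain ⟨L1, hL1⟩ := eventually_atTop.1 hcon'
  have hq2 : 2 ≤ q := hpq.prime.two_le
  have hq1 : (1 : ℝ) < q := by exact_mod_cast hq2
  have hq0 : (0 : ℝ) < q := by linarith
  have hlq : 0 < Real.log q := Real.log_pos hq1
  set a : ℝ := 1 + ε / 2 with ha
  have ha0 : 0 < a := by positivity
  set s : ℝ := (1 + ε) / a with hs
  have hs1 : 1 < s := by
    rw [hs, lt_div_iff₀ ha0]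
    linarith
  set N0 : ℕ := ⌈(q : ℝ) ^ (a * (max L0 L1 + 1 : ℕ))⌉₊ + 1 with hN0
  have key : ∀ N : ℕ, N0 ≤ N → Hb q μ (N + 1) - Hb q μ N ≤
      C * ((N : ℝ) ^ (-(2 : ℝ)) + (q : ℝ) ^ (a * s) * (N : ℝ) ^ (-s)) := by
    intro N hN
    have hN1 : (q : ℝ) ^ (a * (max L0 L1 + 1 : ℕ)) ≤ N := by
      refine (Nat.le_ceil _).trans ?_
      exact_mod_cast (by omega : ⌈(q : ℝ) ^ (a * (max L0 L1 + 1 : ℕ))⌉₊ ≤ N)
    have hNpos : (0 : ℝ) < N := lt_of_lt_of_le (by positivity) hN1
    set L : ℕ := ⌊Real.log N / (a * Real.log q)⌋₊ with hL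
    have hnn : 0 ≤ Real.log N / (a * Real.log q) := by
      have : 1 ≤ (N : ℝ) := le_trans (Real.one_le_rpow hq1.le (by positivity)) hN1
      exact div_nonneg (Real.log_nonneg this) (by positivity)
    have h5 : (L : ℝ) * (a * Real.log q) ≤ Real.log N := by
      have := Nat.floor_le hnn
      rw [← hL, le_div_iff₀ (by positivity)] at this
      exact this
    have h6 : Real.log N < ((L : ℝ) + 1) * (a * Real.log q) := by
      have := Nat.lt_floor_add_one (Real.log N / (a * Real.log q))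
      rw [← hL, div_lt_iff₀ (by positivity)] at this
      exact this
    have h7 : (max L0 L1 + 1 : ℕ) ≤ L := by
      apply Nat.le_floor
      rw [le_div_iff₀ (by positivity)]
      have := Real.log_le_log (by positivity) hN1
      rw [Real.log_rpow hq0] at this
      push_cast at this ⊢
      linarith
    have h8 : (q : ℝ) ^ (a * L) ≤ N := by
      rw [← Real.log_le_log_iff (by positivity) hNpos, Real.log_rpow hq0]
      linarith
    have h9 := hS μ h2 h3 L N (by omega) h8
    refine h9.trans (mul_le_mul_of_nonneg_left (add_le_add le_rfl ?_) hC.le)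
    refine (hL1 L (by omega)).trans ?_
    rw [← Real.log_le_log_iff (by positivity) (by positivity), Real.log_mul (by positivity) (by positivity),
      Real.log_rpow hq0, Real.log_rpow hq0, Real.log_rpow hNpos]
    have h10 : a * s = 1 + ε := by
      rw [hs]
      field_simp
    have h11 : s * Real.log N ≤ s * (((L : ℝ) + 1) * (a * Real.log q)) :=
      mul_le_mul_of_nonneg_left h6.le (by positivity)
    have h12 : s * (((L : ℝ) + 1) * (a * Real.log q)) = (1 + ε) * ((L : ℝ) + 1) * Real.log q := by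
      rw [← h10]; ring
    rw [h10]
    linarith
  have hsm : Summable fun N : ℕ => C * ((N : ℝ) ^ (-(2 : ℝ)) + (q : ℝ) ^ (a * s) * (N : ℝ) ^ (-s)) := by
    refine Summable.mul_left _ (Summable.add ?_ (Summable.mul_left _ ?_))
    · exact Real.summable_nat_rpow.2 (by norm_num)
    · exact Real.summable_nat_rpow.2 (by linarith)
  set W : ℝ := ∑' N : ℕ, C * ((N : ℝ) ^ (-(2 : ℝ)) + (q : ℝ) ^ (a * s) * (N : ℝ) ^ (-s)) with hW
  have hbd : ∀ N : ℕ, N0 ≤ N → Hb q μ N ≤ Hb q μ N0 + W := by
    intro N hN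
    have h13 : Hb q μ N - Hb q μ N0 = ∑ n ∈ Finset.Ico N0 N, (Hb q μ (n + 1) - Hb q μ n) := by
      rw [Finset.sum_Ico_sub _ hN]
    have h14 : ∑ n ∈ Finset.Ico N0 N, (Hb q μ (n + 1) - Hb q μ n) ≤
        ∑ n ∈ Finset.Ico N0 N, C * ((n : ℝ) ^ (-(2 : ℝ)) + (q : ℝ) ^ (a * s) * (n : ℝ) ^ (-s)) :=
      Finset.sum_le_sum fun n hn => key n (Finset.mem_Ico.1 hn).1
    have h15 := hsm.sum_le_tsum (Finset.Ico N0 N) (fun n _ => by positivity)
    linarith
  obtain ⟨n, hn⟩ := Hb_unbdd hq2 μ hna (Hb q μ N0 + W + 1)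
  have hmono : Monotone (Hb q μ) := Hb_mono hpq.prime.pos μ
  have h16 := hbd (max n N0) (le_max_right _ _)
  have h17 := hmono (le_max_left n N0)
  linarith

end Pool.Agent.Half
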