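import Pool.Agent.Half.TFin
import Pool.Agent.Half.BoxV

/-! Theorem T for a measure invariant under both maps (helper56). -/

open MeasureTheory Filter Topology
open scoped ENNReal

namespace Pool.Agent.Half

theorem Hb_linear {b : ℕ} (hb : 2 ≤ b) (μ : Measure T) [IsProbabilityMeasure μ]
    (h : MeasurePreserving (fun x : T => b • x) μ μ) (n : ℕ) : Hb b μ n ≤ 1 + n * (4 + Real.log b) := by
  induction n with
  | zero =>
    unfold Hb
    rw [pow_zero, Finset.sum_range_one]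
    have := Real.negMulLog_le_one_sub_self (x := μ.real {x | LogSc.cell b 0 x = 0}) measureReal_nonneg
    have h1 : 0 ≤ μ.real {x | LogSc.cell b 0 x = 0} := measureReal_nonneg
    simp only [Nat.cast_zero, zero_mul, add_zero]
    linarith
  | succ n ih =>
    have := Hb_triv hb μ h n
    push_cast
    linarith

/-- **The growth of the entropy and the accumulated square errors of the slices.** -/
theorem entropy_slices {κ : ℝ} (hκ : κ < 3 / 2) (r : ℕ → ℕ) (hr : Tendsto r atTop atTop)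
    (hA : ∀ᶠ n : ℕ in atTop, (r n : ℝ) ≤ (Real.log n) ^ κ) {a : ℝ} (ha : 0 < a)
    (har : ∀ᶠ n : ℕ in atTop, a * Real.log n ≤ r n) (μ : Measure T)
    [IsProbabilityMeasure μ] (h2 : MeasurePreserving (fun x : T => (2 : ℕ) • x) μ μ)
    (h3 : MeasurePreserving (fun x : T => (3 : ℕ) • x) μ μ) (hne : μ ≠ volume) :
    ∃ (M : ℕ) (C : ℝ), 0 < C ∧ ∀ N : ℕ, Hb 2 μ N ≤
      C * (1 + ∑ n ∈ Finset.range N, ∑ m ∈ Finset.Icc (-(M : ℤ)) M, Va μ (sl n (r n)) m) := by
  rcases dicho h2 h3 hne with ⟨m, ε, hε, hV⟩ | ⟨f, δ, hf, hδ, hfδ⟩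
  · refine ⟨m.natAbs, 1 + 6 / ε, by positivity, fun N => ?_⟩
    have h4 : ∀ n, ε ≤ ∑ m' ∈ Finset.Icc (-((m.natAbs : ℕ) : ℤ)) (m.natAbs : ℕ), Va μ (sl n (r n)) m' := by
      intro n
      refine (hV (sl n (r n))).trans ?_
      exact Finset.single_le_sum (f := fun m' => Va μ (sl n (r n)) m') (fun m' _ => Va_nonneg _ _ _)
        (by rw [Finset.mem_Icc]; omega)
    have h5 := Finset.sum_le_sum fun n (_ : n ∈ Finset.range N) => h4 n
    rw [Finset.sum_const, Finset.card_range, nsmul_eq_mul] at h5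
    have h6 := Hb_linear le_rfl μ h2 N
    have h7 : Real.log ((2 : ℕ) : ℝ) ≤ 1 := by
      have := Real.log_two_lt_d9
      push_cast
      linarith
    have h8 : (N : ℝ) * (4 + Real.log ((2 : ℕ) : ℝ)) ≤ N * 6 :=
      mul_le_mul_of_nonneg_left (by linarith) (Nat.cast_nonneg _)
    set S : ℝ := ∑ n ∈ Finset.range N, ∑ m' ∈ Finset.Icc (-((m.natAbs : ℕ) : ℤ)) (m.natAbs : ℕ),
      Va μ (sl n (r n)) m' with hS
    have hN0 : (0 : ℝ) ≤ N := Nat.cast_nonneg _
    have h9 : (N : ℝ) * 6 ≤ 6 / ε * S := by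
      rw [div_mul_eq_mul_div, le_div_iff₀ hε]
      nlinarith
    have h10 : 0 ≤ S := le_trans (by positivity) h5
    have h11 : 0 ≤ 6 / ε := by positivity
    nlinarith
  · obtain ⟨C1, hC1⟩ := entropy_growth hκ r hr hA ha har f hf δ hδ
    obtain ⟨M, C2, hC2, hcheb⟩ := cheb f δ hδ
    refine ⟨M, |C1| * (1 + C2) + 1, by positivity, fun N => ?_⟩
    set S : ℝ := ∑ n ∈ Finset.range N, ∑ m ∈ Finset.Icc (-(M : ℤ)) M, Va μ (sl n (r n)) m with hS
    have hS0 : 0 ≤ S := Finset.sum_nonneg fun n _ => Finset.sum_nonneg fun m _ => Va_nonneg _ _ _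
    have h4 : ∑ n ∈ Finset.range N, μ.real (Ex r f δ n) ≤ C2 * S := by
      rw [hS, Finset.mul_sum]
      apply Finset.sum_le_sum
      intro n _
      have h5 : Ex r f δ n ⊆ {x | δ ≤ |avg (sl n (r n)) f x - ∫ z, f z ∂μ|} := by
        intro x hx
        simp only [Ex, Set.mem_ofPred_eq] at hx
        have h6 : δ ≤ avg (sl n (r n)) f x - ∫ z, f z ∂μ := by linarith
        exact h6.trans (le_abs_self _)
      exact (measureReal_mono h5).trans (hcheb μ (sl n (r n)))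
    have h5 : 0 ≤ ∑ n ∈ Finset.range N, μ.real (Ex r f δ n) := Finset.sum_nonneg fun n _ => measureReal_nonneg
    have h6 : Hb 2 μ N ≤ C1 * (1 + ∑ n ∈ Finset.range N, μ.real (Ex r f δ n)) := hC1 μ N
    have h7 : C1 * (1 + ∑ n ∈ Finset.range N, μ.real (Ex r f δ n)) ≤ |C1| * (1 + C2 * S) :=
      mul_le_mul (le_abs_self _) (by linarith) (by linarith) (abs_nonneg _)
    have h8 : 0 ≤ |C1| := abs_nonneg _
    nlinarith [mul_nonneg h8 hS0, mul_nonneg h8 hC2.le, mul_nonneg (mul_nonneg h8 hC2.le) hS0]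

end Pool.Agent.Half
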