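import Pool.Agent.Half.BoxE
import Pool.Agent.Half.BoxP
import Pool.Agent.Half.KTri
import Pool.Agent.Half.SmbT
import Pool.Agent.Half.TInv

/-!
# Finite scale entropy inequalities for the maps `x ↦ 2 x`, `x ↦ 3 x`

The entropy `H b μ n` of the partition of the circle into `b ^ n` arcs, and its differences, which are the conditional
entropies if `μ` is invariant under `x ↦ b x`. (1) One map: the difference at scale `8 N` is at most `log q` times the mass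
of the points whose orbit under `x ↦ p x` is nearly equidistributed at time `N`, with an error `(log N) ^ (-κ)`, uniformly
over all measures invariant under `x ↦ q x`. (2), (3) Both maps. (4) Arbitrary measures, and slices.
-/

open MeasureTheory Filter Topology Set
open scoped ENNReal NNReal

namespace Pool.Agent.Half.EntropyAll

/-- The Fourier coefficient `∫ e(n x) dμ(x)`. -/
noncomputable def coef (μ : Measure (AddCircle (1 : ℝ))) (n : ℤ) : ℂ := ∫ x, fourier n x ∂μ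

/-- The arc `[i / b ^ n, (i + 1) / b ^ n)` modulo one. -/
def arc (b n i : ℕ) : Set (AddCircle (1 : ℝ)) :=
  (fun t : ℝ => (t : AddCircle (1 : ℝ))) '' Set.Ico ((i : ℝ) / (b : ℝ) ^ n) (((i : ℝ) + 1) / (b : ℝ) ^ n)

/-- The entropy of the partition of the circle into the `b ^ n` arcs `[i / b ^ n, (i + 1) / b ^ n)`, `i < b ^ n`. -/
noncomputable def ent (b : ℕ) (μ : Measure (AddCircle (1 : ℝ))) (n : ℕ) : ℝ :=
  ∑ i ∈ Finset.range (b ^ n), Real.negMulLog (μ.real (arc b n i))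

/-- The mean of `f (p ^ a * q ^ b * x)` over the pairs `(a, b)` in `S`. -/
noncomputable def mean {E : Type} [AddCommGroup E] [Module ℝ E] (p q : ℕ) (S : Finset (ℕ × ℕ))
    (f : AddCircle (1 : ℝ) → E) (x : AddCircle (1 : ℝ)) : E :=
  (S.card : ℝ)⁻¹ • ∑ v ∈ S, f ((p ^ v.1 * q ^ v.2 : ℕ) • x)

/-- The box: all pairs `(a, b)` with `a < N` and `b < R`. -/
def box (N R : ℕ) : Finset (ℕ × ℕ) := Finset.range N ×ˢ Finset.range R

/-- The slice: all pairs `(a, b)` of natural numbers with `2 ^ n ≤ 2 ^ a * 3 ^ b < 2 ^ (n + r)`. -/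
def slice (n r : ℕ) : Finset (ℕ × ℕ) :=
  (Finset.range (n + r) ×ˢ Finset.range (n + r)).filter
    fun p => 2 ^ n ≤ 2 ^ p.1 * 3 ^ p.2 ∧ 2 ^ p.1 * 3 ^ p.2 < 2 ^ (n + r)

/-- The points at which the means over `S` of all `f` in `F` are `δ`-close to their Lebesgue integrals. -/
def near (p q : ℕ) (S : Finset (ℕ × ℕ)) (F : Finset C(AddCircle (1 : ℝ), ℝ)) (δ : ℝ) :
    Set (AddCircle (1 : ℝ)) :=
  {x | ∀ f ∈ F, |mean p q S f x - ∫ z, f z| ≤ δ}

/-- The points at which the means over `S` of all `f` in `F` are at least half of their Lebesgue integrals, minus `δ`. -/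
def half (p q : ℕ) (S : Finset (ℕ × ℕ)) (F : Finset C(AddCircle (1 : ℝ), ℝ)) (δ : ℝ) :
    Set (AddCircle (1 : ℝ)) :=
  {x | ∀ f ∈ F, (∫ z, f z) / 2 - δ ≤ mean p q S f x}

/-- The square deviation of the means over `S` of the character `e(m x)` from its integral. -/
noncomputable def dev (p q : ℕ) (S : Finset (ℕ × ℕ)) (μ : Measure (AddCircle (1 : ℝ))) (m : ℤ) : ℝ :=
  ∫ x, ‖mean p q S (fourier m) x - coef μ m‖ ^ 2 ∂μ

/-- The function `t (1 - log t)`. -/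
noncomputable def phi (t : ℝ) : ℝ := t * (1 - Real.log t)

/-- All pairs with `2 ^ n ≤ 2 ^ a * 3 ^ b < 2 ^ (n + r)` belong to the slice. -/
theorem mem_slice (n r : ℕ) (p : ℕ × ℕ) :
    p ∈ slice n r ↔ 2 ^ n ≤ 2 ^ p.1 * 3 ^ p.2 ∧ 2 ^ p.1 * 3 ^ p.2 < 2 ^ (n + r) := by
  unfold slice
  rw [Finset.mem_filter]
  refine ⟨fun h => h.2, fun h => ⟨?_, h⟩⟩
  have h1 : 2 ^ p.1 < 2 ^ (n + r) :=
    lt_of_le_of_lt (Nat.le_mul_of_pos_right _ (by positivity)) h.2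
  have h2 : 2 ^ p.2 < 2 ^ (n + r) := by
    calc 2 ^ p.2 ≤ 3 ^ p.2 := Nat.pow_le_pow_left (by norm_num) _
      _ ≤ 2 ^ p.1 * 3 ^ p.2 := Nat.le_mul_of_pos_left _ (by positivity)
      _ < _ := h.2
  rw [Finset.mem_product, Finset.mem_range, Finset.mem_range]
  exact ⟨(Nat.pow_lt_pow_iff_right (by norm_num)).1 h1, (Nat.pow_lt_pow_iff_right (by norm_num)).1 h2⟩

theorem arc_eq {b : ℕ} (hb : 0 < b) (n i : ℕ) (hi : i < b ^ n) :
    arc b n i = {x : AddCircle (1 : ℝ) | LogSc.cell b n x = i} := by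
  have hb' : (0 : ℝ) < (b : ℝ) ^ n := by positivity
  have hi' : (i : ℝ) + 1 ≤ (b : ℝ) ^ n := by exact_mod_cast hi
  ext x
  rw [mem_ofPred_eq]
  constructor
  · rintro ⟨t, ⟨h1, h2⟩, rfl⟩
    have h0 : 0 ≤ t := le_trans (by positivity) h1
    have h3 : t < 1 := lt_of_lt_of_le h2 ((div_le_one hb').2 hi')
    rw [div_le_iff₀ hb'] at h1
    rw [lt_div_iff₀ hb'] at h2
    show LogSc.cell b n (t : AddCircle (1 : ℝ)) = i
    unfold LogSc.cell
    rw [LogSc.rep_coe h0 h3, Nat.floor_eq_iff (by positivity)]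
    constructor
    · linarith
    · linarith
  · intro h
    refine ⟨LogSc.rep x, ⟨?_, ?_⟩, LogSc.coe_rep x⟩
    · rw [div_le_iff₀ hb', ← h]
      have := Nat.floor_le (mul_nonneg hb'.le (LogSc.rep_nonneg x))
      unfold LogSc.cell
      linarith
    · rw [lt_div_iff₀ hb', ← h]
      have := Nat.lt_floor_add_one ((b : ℝ) ^ n * LogSc.rep x)
      unfold LogSc.cell
      linarith

theorem ent_eq {b : ℕ} (hb : 0 < b) (μ : Measure (AddCircle (1 : ℝ))) (n : ℕ) :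
    ent b μ n = Half.Hb b μ n := by
  unfold ent Half.Hb
  refine Finset.sum_congr rfl fun i hi => ?_
  rw [arc_eq hb n i (Finset.mem_range.1 hi)]

theorem mean_slice (n r : ℕ) (f : AddCircle (1 : ℝ) → ℝ) (x : AddCircle (1 : ℝ)) :
    mean 2 3 (slice n r) f x = Half.avg (Half.sl n r) f x := by
  unfold mean Half.avg slice Half.sl
  rw [smul_eq_mul, inv_mul_eq_div]

theorem mean_sliceC (n r : ℕ) (f : AddCircle (1 : ℝ) → ℂ) (x : AddCircle (1 : ℝ)) :
    mean 2 3 (slice n r) f x = Half.avgC (Half.sl n r) f x := by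
  unfold mean Half.avgC slice Half.sl
  rw [Complex.real_smul, Complex.ofReal_inv, Complex.ofReal_natCast, inv_mul_eq_div]

theorem sum_box {E : Type} [AddCommMonoid E] {p q : ℕ} (hpq : (p = 2 ∧ q = 3) ∨ (p = 3 ∧ q = 2)) (N R : ℕ)
    (f : AddCircle (1 : ℝ) → E) (x : AddCircle (1 : ℝ)) :
    ∑ v ∈ box N R, f ((p ^ v.1 * q ^ v.2 : ℕ) • x) =
      ∑ v ∈ Half.bx p N R, f ((2 ^ v.1 * 3 ^ v.2 : ℕ) • x) := by
  unfold box Half.bx
  rcases hpq with ⟨rfl, rfl⟩ | ⟨rfl, rfl⟩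
  · rw [if_pos rfl]
  · rw [if_neg (by norm_num), Finset.sum_product_right, Finset.sum_product]
    simp only [mul_comm]

theorem card_box {p q : ℕ} (hpq : (p = 2 ∧ q = 3) ∨ (p = 3 ∧ q = 2)) (N R : ℕ) :
    (box N R).card = (Half.bx p N R).card := by
  unfold box Half.bx
  rcases hpq with ⟨rfl, rfl⟩ | ⟨rfl, rfl⟩
  · rw [if_pos rfl]
  · rw [if_neg (by norm_num), Finset.card_product, Finset.card_product, mul_comm]

theorem mean_box {p q : ℕ} (hpq : (p = 2 ∧ q = 3) ∨ (p = 3 ∧ q = 2)) (N R : ℕ)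
    (f : AddCircle (1 : ℝ) → ℝ) (x : AddCircle (1 : ℝ)) :
    mean p q (box N R) f x = Half.avg (Half.bx p N R) f x := by
  unfold mean Half.avg
  rw [smul_eq_mul, inv_mul_eq_div, sum_box hpq, card_box hpq]

theorem mean_boxC {p q : ℕ} (hpq : (p = 2 ∧ q = 3) ∨ (p = 3 ∧ q = 2)) (N R : ℕ)
    (f : AddCircle (1 : ℝ) → ℂ) (x : AddCircle (1 : ℝ)) :
    mean p q (box N R) f x = Half.avgC (Half.bx p N R) f x := by
  unfold mean Half.avgC
  rw [Complex.real_smul, Complex.ofReal_inv, Complex.ofReal_natCast, inv_mul_eq_div, sum_box hpq,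
    card_box hpq]

theorem near_box {p q : ℕ} (hpq : (p = 2 ∧ q = 3) ∨ (p = 3 ∧ q = 2)) (F : Finset C(AddCircle (1 : ℝ), ℝ))
    (δ : ℝ) (N R : ℕ) : near p q (box N R) F δ = Half.Dbx p F δ N R := by
  unfold near Half.Dbx
  simp only [mean_box hpq]

theorem half_box {p q : ℕ} (hpq : (p = 2 ∧ q = 3) ∨ (p = 3 ∧ q = 2)) (F : Finset C(AddCircle (1 : ℝ), ℝ))
    (δ : ℝ) (N R : ℕ) : half p q (box N R) F δ = Half.Lbx p F δ N R := by
  unfold half Half.Lbx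
  simp only [mean_box hpq]

theorem dev_box {p q : ℕ} (hpq : (p = 2 ∧ q = 3) ∨ (p = 3 ∧ q = 2)) (μ : Measure (AddCircle (1 : ℝ)))
    (m : ℤ) (N R : ℕ) : dev p q (box N R) μ m = Half.Va μ (Half.bx p N R) m := by
  unfold dev Half.Va
  simp only [mean_boxC hpq]
  rfl

theorem dev_slice (μ : Measure (AddCircle (1 : ℝ))) (m : ℤ) (n r : ℕ) :
    dev 2 3 (slice n r) μ m = Half.Va μ (Half.sl n r) m := by
  unfold dev Half.Va
  simp only [mean_sliceC]
  rfl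

theorem phi_eq (t : ℝ) : phi t = t + Real.negMulLog t := by
  unfold phi Real.negMulLog
  ring

/-- **Main theorem.** -/
theorem result :
    (∀ (p q : ℕ) (κ : ℝ), (p = 2 ∧ q = 3) ∨ (p = 3 ∧ q = 2) → 1 < κ → κ < 3 / 2 →
      ∀ F : Finset C(AddCircle (1 : ℝ), ℝ), (∀ f ∈ F, ∀ z, 0 ≤ f z) → ∀ δ : ℝ, 0 < δ →
        ∃ R₀ : ℕ, ∀ N R : ℕ, R₀ ≤ R → (R : ℝ) ≤ Real.log N ^ κ →
          ∀ μ : Measure (AddCircle (1 : ℝ)), IsProbabilityMeasure μ →
            MeasurePreserving (fun x : AddCircle (1 : ℝ) => q • x) μ μ →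
            ent q μ (8 * N + 1) - ent q μ (8 * N) ≤
              Real.log q * μ.real (near p q (box N R) F δ) +
                phi (μ.real (half p q (box N R) F δ)) / Real.log N ^ κ) ∧
    (∀ μ : Measure (AddCircle (1 : ℝ)), IsProbabilityMeasure μ →
      MeasurePreserving (fun x : AddCircle (1 : ℝ) => (2 : ℕ) • x) μ μ →
      MeasurePreserving (fun x : AddCircle (1 : ℝ) => (3 : ℕ) • x) μ μ → μ ≠ volume →
      (∀ (p q : ℕ) (κ : ℝ), (p = 2 ∧ q = 3) ∨ (p = 3 ∧ q = 2) → 1 < κ → κ < 3 / 2 →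
        ∃ (M : ℕ) (C : ℝ), ∀ N : ℕ, 1 ≤ N →
          ent q μ (8 * N + 1) - ent q μ (8 * N) ≤
            C * (Real.exp (-Real.log N ^ κ) +
              ∑ m ∈ Finset.Icc (-(M : ℤ)) M, dev p q (box N 1) μ m)) ∧
      (∀ (p q : ℕ) (γ : ℝ), (p = 2 ∧ q = 3) ∨ (p = 3 ∧ q = 2) → 0 < γ → γ < 1 →
        (∀ m : ℤ, ∃ C : ℝ, ∀ g : ℕ, 1 ≤ g →
          ‖coef μ (m * ((p : ℤ) ^ g - 1)) - (‖coef μ m‖ : ℂ) ^ 2‖ ≤ C * (g : ℝ) ^ (-γ)) →
        ∃ C : ℝ, ∀ n : ℕ, 1 ≤ n → ent q μ (n + 1) - ent q μ n ≤ C * (n : ℝ) ^ (-γ)) ∧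
      (∀ (r : ℕ → ℕ) (κ a : ℝ), κ < 3 / 2 → 0 < a →
        (∀ᶠ n : ℕ in atTop, a * Real.log n ≤ r n ∧ (r n : ℝ) ≤ Real.log n ^ κ) →
        ∃ (M : ℕ) (C : ℝ), ∀ N : ℕ, ent 2 μ N ≤
          C * (1 + ∑ n ∈ Finset.range N, ∑ m ∈ Finset.Icc (-(M : ℤ)) M,
            dev 2 3 (slice n (r n)) μ m))) ∧
    (∀ (p q : ℕ) (ε β A : ℝ), (p = 2 ∧ q = 3) ∨ (p = 3 ∧ q = 2) → 0 < ε → β < 1 / 2 → 0 < A →
      ∃ (C : ℝ) (L₀ : ℕ), ∀ μ : Measure (AddCircle (1 : ℝ)), IsProbabilityMeasure μ →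
        MeasurePreserving (fun x : AddCircle (1 : ℝ) => (2 : ℕ) • x) μ μ →
        MeasurePreserving (fun x : AddCircle (1 : ℝ) => (3 : ℕ) • x) μ μ →
        (∀ L N : ℕ, L₀ ≤ L → (q : ℝ) ^ ((1 + ε) * L) ≤ N →
          ent q μ (N + 1) - ent q μ N ≤ C * ((N : ℝ) ^ (-A) +
            μ.real {x | ∀ i < q ^ L, x ∈ arc q L i → μ.real (arc q L i) ≤ (q : ℝ) ^ (-(β * L))})) ∧
        ((∀ x, μ {x} = 0) → ∃ᶠ L : ℕ in atTop, (q : ℝ) ^ (-((1 + ε) * L)) ≤
          μ.real {x | ∀ i < q ^ L, x ∈ arc q L i → μ.real (arc q L i) ≤ (q : ℝ) ^ (-(β * L))})) ∧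
    ∀ (r : ℕ → ℕ) (κ t a : ℝ), κ < 3 / 2 → 0 ≤ t → 0 < a → Tendsto r atTop atTop →
      (∀ᶠ n : ℕ in atTop, a * Real.log n ^ t ≤ r n ∧ (r n : ℝ) ≤ Real.log n ^ κ) →
      ∀ F : Finset C(AddCircle (1 : ℝ), ℝ), (∀ f ∈ F, ∀ z, 0 ≤ f z) → ∀ δ : ℝ, 0 < δ →
        ∃ C : ℝ, ∀ μ : Measure (AddCircle (1 : ℝ)), IsProbabilityMeasure μ → ∀ N : ℕ,
          ent 2 μ N ≤ C * (1 + ∑ n ∈ Finset.Ico 2 N,
            (μ.real (near 2 3 (slice n (r n)) F δ) +
              Real.log n ^ (-t) * phi (μ.real (half 2 3 (slice n (r n)) F δ)))) := by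
  refine ⟨?_, ?_, ?_, ?_⟩
  · intro p q κ hpq h1 h2 F hF δ hδ
    obtain ⟨R₀, h⟩ := Half.box_entropy hpq h1 h2 F hF δ hδ
    refine ⟨R₀, fun N R hR hRN μ hμ hq => ?_⟩
    have hq0 : 0 < q := by rcases hpq with ⟨_, rfl⟩ | ⟨_, rfl⟩ <;> norm_num
    rw [ent_eq hq0, ent_eq hq0, near_box hpq, half_box hpq, phi_eq]
    exact h N R hR hRN μ hq
  · intro μ hμ h2 h3 hne
    refine ⟨?_, ?_, ?_⟩
    · intro p q κ hpq hκ1 hκ2
      have hq0 : 0 < q := by rcases hpq with ⟨_, rfl⟩ | ⟨_, rfl⟩ <;> norm_num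
      obtain ⟨M, C, -, h⟩ := Half.ent_two hpq hκ1 hκ2 μ h2 h3 hne
      refine ⟨M, C, fun N hN => ?_⟩
      rw [ent_eq hq0, ent_eq hq0]
      simp only [dev_box hpq]
      exact h N hN
    · intro p q γ hpq hγ0 hγ1 hγ
      have hq0 : 0 < q := by rcases hpq with ⟨_, rfl⟩ | ⟨_, rfl⟩ <;> norm_num
      obtain ⟨C, h⟩ := Half.ent_poly hpq μ h2 h3 hγ0 hγ1 hγ hne
      refine ⟨C, fun n hn => ?_⟩
      rw [ent_eq hq0, ent_eq hq0]
      exact h n hn
    · intro r κ a hκ ha hr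
      have hr1 : Tendsto r atTop atTop := by
        have h1 : Tendsto (fun n : ℕ => a * Real.log n) atTop atTop :=
          (Real.tendsto_log_atTop.comp tendsto_natCast_atTop_atTop).const_mul_atTop ha
        have h2 : Tendsto (fun n : ℕ => (r n : ℝ)) atTop atTop :=
          tendsto_atTop_mono' _ (hr.mono fun n hn => hn.1) h1
        exact tendsto_natCast_atTop_iff.1 h2
      obtain ⟨M, C, -, h⟩ := Half.entropy_slices hκ r hr1 (hr.mono fun n hn => hn.2) ha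
        (hr.mono fun n hn => hn.1) μ h2 h3 hne
      refine ⟨M, C, fun N => ?_⟩
      rw [ent_eq (by norm_num)]
      simp only [dev_slice]
      exact h N
  · intro p q ε β A hpq hε hβ hA
    have hq0 : 0 < q := by rcases hpq with ⟨_, rfl⟩ | ⟨_, rfl⟩ <;> norm_num
    have hl : ∀ (L : ℕ) (μ : Measure (AddCircle (1 : ℝ))),
        {x | ∀ i < q ^ L, x ∈ arc q L i → μ.real (arc q L i) ≤ (q : ℝ) ^ (-(β * L))} =
          Half.light q β L μ := by
      intro L μ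
      ext x
      unfold Half.light
      rw [mem_ofPred_eq, mem_ofPred_eq]
      have hx : x ∈ arc q L (LogSc.cell q L x) := by
        rw [arc_eq hq0 L _ (LogSc.cell_lt hq0 L x)]
        rfl
      constructor
      · intro h
        have h1 := h _ (LogSc.cell_lt hq0 L x) hx
        rwa [arc_eq hq0 L _ (LogSc.cell_lt hq0 L x)] at h1
      · intro h i hi hxi
        have h1 : LogSc.cell q L x = i := by
          rw [arc_eq hq0 L i hi] at hxi
          exact hxi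
        rw [arc_eq hq0 L i hi, ← h1]
        exact h
    obtain ⟨C, L₀, -, h⟩ := Half.ent_smb hpq hε hβ hA
    refine ⟨C, L₀, fun μ hμ h2 h3 => ⟨fun L N hL hN => ?_, fun hna => ?_⟩⟩
    · rw [hl, ent_eq hq0, ent_eq hq0]
      exact h μ h2 h3 L N hL hN
    · simp only [hl]
      exact Half.light_freq hpq hε hβ μ h2 h3 hna
  · intro r κ t a hκ ht ha hr hr2 F hF δ hδ
    obtain ⟨C, -, h⟩ := Half.ent_three ht hκ r hr (hr2.mono fun n hn => hn.2) ha
      (hr2.mono fun n hn => hn.1) F hF δ hδ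
    refine ⟨C, fun μ hμ N => ?_⟩
    rw [ent_eq (by norm_num)]
    have e1 : ∀ n, near 2 3 (slice n (r n)) F δ = Half.NrF r F δ n := by
      intro n
      unfold near Half.NrF
      simp only [mean_slice]
    have e2 : ∀ n, half 2 3 (slice n (r n)) F δ = Half.ExF r F δ n := by
      intro n
      unfold half Half.ExF
      simp only [mean_slice]
    simp only [e1, e2]
    exact h μ N

end Pool.Agent.Half.EntropyAll
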