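import Pool.Agent.Ord2.Eq1
import Pool.Agent.Half.HDefs

/-! Module EQS (W0). `Ord2.eq_one` with a shift `β` of the phase. PROOF: copy the proof of `Ord2.eq_one`
(Pool/Agent/Ord2/Eq1.lean): `rie` has an arbitrary starting point `t0`, so `β` is harmless. -/

open MeasureTheory Filter Topology

namespace Pool.Agent.Half

theorem eq_shift {M : ℕ} {B : ℕ → ℕ} {r : ℕ} (h : Ord2.ParP M B r) (Y : ℝ) (hY : Y ≠ 0) (β : ℝ) :
    ‖∑ b ∈ Finset.range (B r), Ord2.eY Y (Int.fract ((b : ℝ) * Ord2.al + β))‖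
      ≤ (B r : ℝ) * (1 / |Y| + (9 * |Y| + 6) / 2 ^ (4 * r)) := by
  obtain ⟨q, p, N, hq, hN, hω, hω1, hB, -, -⟩ := h
  set ω : ℝ := (q : ℝ) * Ord2.al - p with hωdef
  set I : ℕ := ⌊1 / |ω|⌋₊ with hI
  have hωpos : 0 < |ω| := abs_pos.2 hω
  have hωle : |ω| ≤ 1 := by
    refine hω1.trans ?_
    rw [div_le_one (by positivity)]
    exact one_le_pow₀ (by norm_num)
  have hIpos : 0 < I := by
    rw [hI, Nat.floor_pos, le_div_iff₀ hωpos, one_mul]
    exact hωle
  have hIpos' : (0 : ℝ) < (I : ℝ) := by exact_mod_cast hIpos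
  set E : ℝ := 1 / |Y| + (9 * |Y| + 6) / 2 ^ (4 * r) with hE
  have hkey : ∀ t0 : ℝ, ‖∑ i ∈ Finset.range I, Ord2.eY Y (Int.fract (t0 + i * ω))‖ ≤ (I : ℝ) * E := by
    intro t0
    have h1 := Ord2.rie (Ord2.eY Y) (9 * |Y|) (by positivity) (Ord2.eY_continuous Y).continuousOn
      (fun s hs t ht => Ord2.eY_lip Y s hs t ht) (fun s _ => (Ord2.eY_norm Y s).le) t0 ω hω hωle
    rw [← hI] at h1
    have h2 : ‖(∑ i ∈ Finset.range I, Ord2.eY Y (Int.fract (t0 + i * ω))) / (I : ℂ)‖ ≤ E := by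
      calc ‖(∑ i ∈ Finset.range I, Ord2.eY Y (Int.fract (t0 + i * ω))) / (I : ℂ)‖
          = ‖((∑ i ∈ Finset.range I, Ord2.eY Y (Int.fract (t0 + i * ω))) / (I : ℂ) -
              ∫ t in (0 : ℝ)..1, Ord2.eY Y t) + ∫ t in (0 : ℝ)..1, Ord2.eY Y t‖ := by
            rw [sub_add_cancel]
        _ ≤ (9 * |Y| + 6) * |ω| + 1 / |Y| := (norm_add_le _ _).trans (add_le_add h1 (Ord2.osc Y hY))
        _ ≤ (9 * |Y| + 6) * (1 / 2 ^ (4 * r)) + 1 / |Y| := by
            have := mul_le_mul_of_nonneg_left hω1 (by positivity : 0 ≤ 9 * |Y| + 6)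
            linarith
        _ = E := by rw [hE]; ring
    rw [norm_div, Complex.norm_natCast, div_le_iff₀ hIpos'] at h2
    linarith
  have hterm : ∀ t b0 i : ℕ,
      Ord2.eY Y (Int.fract (((t * (q * I) + b0 + i * q : ℕ) : ℝ) * Ord2.al + β)) =
        Ord2.eY Y (Int.fract ((((t * (q * I) + b0 : ℕ) : ℝ) * Ord2.al + β) + i * ω)) := by
    intro t b0 i
    have e1 : ((t * (q * I) + b0 + i * q : ℕ) : ℝ) * Ord2.al + β =
        ((((t * (q * I) + b0 : ℕ) : ℝ) * Ord2.al + β) + i * ω) + (((i : ℤ) * p : ℤ) : ℝ) := by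
      rw [hωdef]
      push_cast
      ring
    rw [e1, Int.fract_add_intCast]
  rw [hB, Ord2.sum_blocks q I N (fun b => Ord2.eY Y (Int.fract ((b : ℝ) * Ord2.al + β)))]
  calc ‖∑ t ∈ Finset.range N, ∑ b0 ∈ Finset.range q, ∑ i ∈ Finset.range I,
        Ord2.eY Y (Int.fract (((t * (q * I) + b0 + i * q : ℕ) : ℝ) * Ord2.al + β))‖
      ≤ ∑ t ∈ Finset.range N, ∑ b0 ∈ Finset.range q, ((I : ℝ) * E) := by
        refine (norm_sum_le _ _).trans (Finset.sum_le_sum fun t _ => ?_)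
        refine (norm_sum_le _ _).trans (Finset.sum_le_sum fun b0 _ => ?_)
        rw [Finset.sum_congr rfl (fun i _ => hterm t b0 i)]
        exact hkey _
    _ = ((q * I * N : ℕ) : ℝ) * E := by
        rw [Finset.sum_const, Finset.sum_const, Finset.card_range, Finset.card_range, nsmul_eq_mul,
          nsmul_eq_mul]
        push_cast
        ring

end Pool.Agent.Half
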