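import Pool.Agent.Half.HDefs

/-! Module ERG. A finite measure on the circle which is invariant under `x ↦ 2 x` and absolutely continuous is a multiple
of Lebesgue measure. PROOF: `volume` is ergodic for `2 •` (`AddCircle.ergodic_nsmul`), use the Mathlib lemma on absolutely
continuous invariant measures of an ergodic map (`Ergodic.eq_smul_of_absolutelyContinuous`, file
`Mathlib/Dynamics/Ergodic/...`; or the density is invariant, hence constant). -/

open MeasureTheory Filter Topology Set
open scoped ENNReal

namespace Pool.Agent.Half

theorem erg_smul (κ : Measure T) [IsFiniteMeasure κ]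
    (h2 : MeasurePreserving (fun x : T => (2 : ℕ) • x) κ κ) (hac : κ ≪ volume) :
    κ = κ univ • (volume : Measure T) := by
  have he : Ergodic (fun x : T => (2 : ℕ) • x) (volume : Measure T) :=
    AddCircle.ergodic_nsmul (by norm_num)
  obtain ⟨c, hc⟩ := he.eq_smul_of_absolutelyContinuous h2 hac
  have h1 : κ univ = c := by
    rw [hc, Measure.smul_apply, smul_eq_mul]
    have : (volume : Measure T) univ = 1 := by simp
    rw [this, mul_one]
  rw [h1]
  exact hc

end Pool.Agent.Half
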