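import Mathlib

/-! Module SEL. Choice of the levels. PROOF. Choose `N ≥ N*` with `∑_{n ≥ N} g n / h n ≤ 1/8` and `h n ≥ t1`,
`2 h n ≤ n` for `n ≥ N`. `n 0 = N`; given `n j` let `n (j+1) ∈ [n j + h (n j), n j + 2 h (n j)]` be a point where `g` is
smallest in this interval `W_j`, so `g (n (j+1)) ≤ (1 / (h (n j) + 1)) ∑_{W_j} g ≤ 2 ∑_{n ∈ W_j} g n / h n`
(`h n ≤ h (2 n j) ≤ 2 h (n j)` on `W_j`). `W_j` is contained in `(n j, n (j+2)]`, so every `n ≥ N` is in at most two of the
`W_j` and `∑_j g (n (j+1)) ≤ 4 * 1/8 = 1/2`. -/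

open Filter Topology

namespace Pool.Agent.Half

theorem select (g : ℕ → ℝ) (hg : ∀ n, 0 ≤ g n) (h : ℕ → ℕ) (hmono : Monotone h)
    (hh : Tendsto h atTop atTop) (hdouble : ∀ᶠ n in atTop, h (2 * n) ≤ 2 * h n)
    (hle : ∀ᶠ n in atTop, 2 * h n ≤ n) (hsum : Summable fun n => g n / (h n : ℝ)) (N t1 : ℕ) :
    ∃ n k : ℕ → ℕ, N ≤ n 0 ∧ (∀ j, n (j + 1) = n j + k j) ∧ (∀ j, t1 ≤ k j) ∧
      (∀ j, k j ≤ 2 * h (n j)) ∧ ∀ J, ∑ j ∈ Finset.range J, g (n (j + 1)) ≤ 1 / 2 := by
  obtain ⟨s, hs⟩ := summable_iff_vanishing_norm.1 hsum (1 / 8) (by norm_num)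
  have hev : ∀ᶠ n in atTop, t1 ≤ h n ∧ 1 ≤ h n ∧ h (2 * n) ≤ 2 * h n ∧ 2 * h n ≤ n ∧ N ≤ n ∧
      s.sup id < n := by
    filter_upwards [hh.eventually_ge_atTop t1, hh.eventually_ge_atTop 1, hdouble, hle,
      eventually_ge_atTop N, eventually_gt_atTop (s.sup id)] with n a1 a2 a3 a4 a5 a6
    exact ⟨a1, a2, a3, a4, a5, a6⟩
  obtain ⟨M, hM⟩ := eventually_atTop.1 hev
  -- tail sums
  set φ : ℕ → ℝ := fun n => g n / (h n : ℝ) with hφ
  have hφ0 : ∀ n, 0 ≤ φ n := fun n => div_nonneg (hg n) (Nat.cast_nonneg _)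
  have htail : ∀ a, ∑ n ∈ Finset.Icc M a, φ n ≤ 1 / 8 := by
    intro a
    have hd : Disjoint (Finset.Icc M a) s := by
      rw [Finset.disjoint_left]
      intro x hx hxs
      have h1 := (hM x (Finset.mem_Icc.1 hx).1).2.2.2.2.2
      have h2 : id x ≤ s.sup id := Finset.le_sup hxs
      simp only [id] at h2
      omega
    have h3 := hs _ hd
    rw [Real.norm_eq_abs] at h3
    exact ((le_abs_self _).trans h3.le)
  -- the next point
  have hnext : ∀ x, ∃ y ∈ Finset.Icc (x + h x) (x + 2 * h x), ∀ z ∈ Finset.Icc (x + h x) (x + 2 * h x),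
      g y ≤ g z := by
    intro x
    exact Finset.exists_min_image _ g ⟨x + h x, Finset.mem_Icc.2 ⟨le_refl _, by omega⟩⟩
  choose nx hnx1 hnx2 using hnext
  set n : ℕ → ℕ := fun j => nx^[j] M with hn
  have hn1 : ∀ j, n (j + 1) = nx (n j) := fun j => by
    rw [hn]; simp only [Function.iterate_succ_apply']
  have hmem : ∀ j, n j + h (n j) ≤ n (j + 1) ∧ n (j + 1) ≤ n j + 2 * h (n j) := fun j => by
    rw [hn1]; exact Finset.mem_Icc.1 (hnx1 (n j))
  have hnM : ∀ j, M ≤ n j := by
    intro j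
    induction j with
    | zero => exact le_refl _
    | succ j ih => have := (hmem j).1; omega
  refine ⟨n, fun j => n (j + 1) - n j, (hM _ (hnM 0)).2.2.2.2.1, fun j => ?_, fun j => ?_,
    fun j => ?_, fun J => ?_⟩
  · have := (hmem j).1; simp only; omega
  · have h1 := (hmem j).1
    have h2 := (hM _ (hnM j)).1
    simp only; omega
  · have := (hmem j).2; simp only; omega
  · -- the sum
    have hstep : ∀ j, g (n (j + 1)) ≤ 2 * ∑ x ∈ Finset.Icc (n j + h (n j)) (n j + 2 * h (n j)), φ x := by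
      intro j
      have h1 := hM _ (hnM j)
      have hpos : (0 : ℝ) < h (n j) := by exact_mod_cast h1.2.1
      have h2 : ∀ x ∈ Finset.Icc (n j + h (n j)) (n j + 2 * h (n j)),
          g (n (j + 1)) / (2 * h (n j)) ≤ φ x := by
        intro x hx
        have h3 := Finset.mem_Icc.1 hx
        have h4 : h x ≤ 2 * h (n j) := (hmono (show x ≤ 2 * n j by have := h1.2.2.2.1; omega)).trans h1.2.2.1
        have h5 : h (n j) ≤ h x := hmono (by omega)
        have h6 : (0 : ℝ) < h x := by
          have : 1 ≤ h x := h1.2.1.trans h5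
          exact_mod_cast this
        have h7 : g (n (j + 1)) ≤ g x := by rw [hn1]; exact hnx2 _ _ hx
        rw [hφ]
        simp only
        rw [div_le_div_iff₀ (by positivity) h6]
        have h8 : (h x : ℝ) ≤ 2 * h (n j) := by exact_mod_cast h4
        exact mul_le_mul h7 h8 h6.le (hg _)
      have h3 := Finset.card_nsmul_le_sum _ _ _ h2
      rw [Nat.card_Icc, nsmul_eq_mul] at h3
      have h4 : (h (n j) : ℝ) ≤ ((n j + 2 * h (n j) + 1 - (n j + h (n j)) : ℕ) : ℝ) := by
        have : h (n j) ≤ n j + 2 * h (n j) + 1 - (n j + h (n j)) := by omega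
        exact_mod_cast this
      have h5 : (h (n j) : ℝ) * (g (n (j + 1)) / (2 * h (n j))) ≤
          ∑ x ∈ Finset.Icc (n j + h (n j)) (n j + 2 * h (n j)), φ x :=
        (mul_le_mul_of_nonneg_right h4 (div_nonneg (hg _) (by positivity))).trans h3
      have h6 : (h (n j) : ℝ) * (g (n (j + 1)) / (2 * h (n j))) = g (n (j + 1)) / 2 := by
        field_simp
      rw [h6] at h5
      linarith
    have hclaim : ∀ J, ∑ j ∈ Finset.range J,
        ∑ x ∈ Finset.Icc (n j + h (n j)) (n j + 2 * h (n j)), φ x ≤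
        ∑ x ∈ Finset.Icc M (n (J + 1)), φ x + ∑ x ∈ Finset.Icc M (n J), φ x := by
      intro J
      induction J with
      | zero =>
        rw [Finset.range_zero, Finset.sum_empty]
        exact add_nonneg (Finset.sum_nonneg fun x _ => hφ0 x) (Finset.sum_nonneg fun x _ => hφ0 x)
      | succ J ih =>
        rw [Finset.sum_range_succ]
        have hd : Disjoint (Finset.Icc M (n J)) (Finset.Icc (n J + h (n J)) (n J + 2 * h (n J))) := by
          rw [Finset.disjoint_left]
          intro x hx hx'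
          have h1 := Finset.mem_Icc.1 hx
          have h2 := Finset.mem_Icc.1 hx'
          have h3 := (hM _ (hnM J)).2.1
          omega
        have hsub : Finset.Icc M (n J) ∪ Finset.Icc (n J + h (n J)) (n J + 2 * h (n J)) ⊆
            Finset.Icc M (n (J + 1 + 1)) := by
          have h1 := hmem J
          have h2 := hmem (J + 1)
          have h3 : h (n J) ≤ h (n (J + 1)) := hmono (by omega)
          intro x hx
          rw [Finset.mem_union, Finset.mem_Icc, Finset.mem_Icc] at hx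
          rw [Finset.mem_Icc]
          have h4 := hnM J
          omega
        have h1 := Finset.sum_le_sum_of_subset_of_nonneg (f := φ) hsub (fun x _ _ => hφ0 x)
        rw [Finset.sum_union hd] at h1
        linarith
    calc ∑ j ∈ Finset.range J, g (n (j + 1))
        ≤ ∑ j ∈ Finset.range J, 2 * ∑ x ∈ Finset.Icc (n j + h (n j)) (n j + 2 * h (n j)), φ x :=
          Finset.sum_le_sum fun j _ => hstep j
      _ = 2 * ∑ j ∈ Finset.range J, ∑ x ∈ Finset.Icc (n j + h (n j)) (n j + 2 * h (n j)), φ x := by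
          rw [Finset.mul_sum]
      _ ≤ 1 / 2 := by
          have h1 := hclaim J
          have h2 := htail (n (J + 1))
          have h3 := htail (n J)
          linarith

end Pool.Agent.Half
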