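import Pool.Agent.Half.SepH
import Pool.Agent.Half.ChainH
import Pool.Agent.Half.SelH

/-! Assembly of theorem H (helper56). -/

open MeasureTheory Filter Topology
open scoped ENNReal

namespace Pool.Agent.Half

/-- points whose box average is at least half Lebesgue, up to `δ`, for the functions of `F` -/
def Lset (p : ℕ) (F : Finset C(T, ℝ)) (δ : ℝ) (N R : ℕ) : Set T :=
  {x | ∀ f ∈ F, (∫ z, f z ∂(volume : Measure T)) / 2 - δ ≤ avg (bx p N R) f x}

theorem continuous_avg (G : Finset (ℕ × ℕ)) (f : C(T, ℝ)) : Continuous fun x => avg G f x := by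
  unfold avg
  refine Continuous.div_const ?_ _
  exact continuous_finsetSum _ fun p _ => f.continuous.comp (continuous_const_smul _)

theorem measurable_Lset (p : ℕ) (F : Finset C(T, ℝ)) (δ : ℝ) (N R : ℕ) :
    MeasurableSet (Lset p F δ N R) := by
  have : Lset p F δ N R = ⋂ f ∈ F, {x | (∫ z, f z ∂(volume : Measure T)) / 2 - δ ≤ avg (bx p N R) f x} := by
    ext x
    simp [Lset]
  rw [this]
  exact (isClosed_biInter fun f _ => isClosed_le continuous_const (continuous_avg _ f)).measurableSet

theorem summable_div_four {F : ℕ → ℝ} (hF : Summable F) : Summable fun n : ℕ => F (n / 4) := by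
  have h1 : Summable fun z : ℕ × Fin 4 => F z.1 * 1 := by
    apply (summable_mul_of_summable_norm (f := F) (g := fun _ : Fin 4 => (1 : ℝ)) hF.norm
      (Summable.of_finite)).congr
    intro z
    rfl
  have h2 := (Nat.divModEquiv 4).summable_iff.2 h1
  refine h2.congr (fun n => ?_)
  simp

theorem boxes {p q : ℕ} (hpq : PQ p q) {K : ℕ → ℕ} (hK : KorP p q K) (hKm : Monotone K)
    (hKt : Tendsto K atTop atTop) (hK4 : ∀ᶠ N in atTop, K (4 * N) ≤ K N + K N / 2)
    (hKle : ∀ᶠ N in atTop, K N ≤ N)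
    (μ : Measure T) [IsProbabilityMeasure μ] (hna : ∀ x, μ {x} = 0)
    (hmp : MeasurePreserving (fun x : T => q • x) μ μ) (F : Finset C(T, ℝ))
    (hF : ∀ f ∈ F, ∀ z, 0 ≤ f z) (δ : ℝ) (hδ : 0 < δ) :
    ∃ R0 : ℕ, ∀ R, R0 ≤ R → ¬ Summable fun N : ℕ => μ.real (Lset p F δ N R) / (K N : ℝ) := by
  obtain ⟨R0, hR0⟩ := separation hpq hK F hF δ hδ
  refine ⟨max R0 1, fun R hR hS => ?_⟩
  obtain ⟨n1, hn1⟩ := hR0 R (le_trans (le_max_left _ _) hR)
  have hR1 : 1 ≤ R := le_trans (le_max_right _ _) hR
  set g : ℕ → ℝ := fun n => μ.real (Lset p F δ (n / 4) R) with hg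
  set h : ℕ → ℕ := fun n => K (n / 4) / 4 with hh
  have hdiv : Tendsto (fun n : ℕ => n / 4) atTop atTop :=
    tendsto_atTop_atTop.2 fun b => ⟨4 * b, fun a ha => by omega⟩
  have hK' : Tendsto (fun n : ℕ => K (n / 4)) atTop atTop := hKt.comp hdiv
  have hmono : Monotone h := fun a b hab => Nat.div_le_div_right (hKm (Nat.div_le_div_right hab))
  have hht : Tendsto h atTop atTop := hdiv.comp hK'
  have hdouble : ∀ᶠ n in atTop, h (2 * n) ≤ 2 * h n := by
    filter_upwards [hdiv.eventually hK4, hK'.eventually_ge_atTop 20, hdiv.eventually_ge_atTop 1] with n h1 h2 h3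
    have h4 : K (2 * n / 4) ≤ K (4 * (n / 4)) := hKm (by omega)
    simp only [hh]
    omega
  have hle : ∀ᶠ n in atTop, 2 * h n ≤ n := by
    filter_upwards [hdiv.eventually hKle] with n h1
    simp only [hh]
    omega
  have hsum : Summable fun n => g n / (h n : ℝ) := by
    have h1 := (summable_div_four hS).mul_left 8
    refine Summable.of_norm_bounded_eventually_nat h1 ?_
    filter_upwards [hK'.eventually_ge_atTop 4] with n hn
    have hg0 : 0 ≤ g n := measureReal_nonneg
    have hh1 : 0 < h n := by simp only [hh]; omega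
    have hh2 : (K (n / 4) : ℝ) ≤ 8 * (h n : ℝ) := by
      have : K (n / 4) ≤ 8 * h n := by simp only [hh]; omega
      exact_mod_cast this
    have hh3 : (0 : ℝ) < h n := by exact_mod_cast hh1
    have hh4 : (0 : ℝ) < K (n / 4) := by
      have : 0 < K (n / 4) := by omega
      exact_mod_cast this
    rw [Real.norm_of_nonneg (by positivity)]
    change g n / (h n : ℝ) ≤ 8 * (g n / (K (n / 4) : ℝ))
    rw [← mul_div_assoc, div_le_div_iff₀ hh3 hh4]
    nlinarith
  obtain ⟨n, k, hn0, hnk, hk1, hk2, hk3⟩ := select g (fun _ => measureReal_nonneg) h hmono hht hdouble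
    hle hsum n1 (2 * R)
  have hnm : ∀ j, n1 ≤ n j := by
    intro j
    induction j with
    | zero => exact hn0
    | succ j ih => rw [hnk]; omega
  have hq : q.Prime := by
    rcases hpq with ⟨_, rfl⟩ | ⟨_, rfl⟩
    · exact Nat.prime_three
    · exact Nat.prime_two
  refine chain μ hna q hq hmp (fun n => (Lset p F δ (n / 4) R)ᶜ)
    (fun n => (measurable_Lset p F δ _ _).compl) n k hnk (2 * R) (by omega) hk1 ?_ ?_
  · intro j t ht1 ht2 x hx y hy θ hθ
    by_contra hlt
    push Not at hlt
    have ht3 : t ≤ K (n (j + 1) / 4) := by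
      have h1 := hk2 j
      have h2 := hk2 (j + 1)
      have h3 : h (n j) ≤ h (n (j + 1)) := hmono (by rw [hnk]; omega)
      have h4 : 4 * h (n (j + 1)) ≤ K (n (j + 1) / 4) := by simp only [hh]; omega
      omega
    obtain ⟨s, hs0, hs1, k1, k2⟩ := hn1 (n (j + 1)) (hnm _) t ht1 ht3 x y θ hθ hlt
    have hint : ∀ f ∈ F, 0 ≤ ∫ z, f z ∂(volume : Measure T) := fun f hf => integral_nonneg (hF f hf)
    rcases le_total (1 / 2) s with hs | hs
    · apply hx
      intro f hf
      have h2 := k1 f hf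
      have h3 := hint f hf
      nlinarith
    · apply hy
      intro f hf
      have h2 := k2 f hf
      have h3 := hint f hf
      nlinarith
  · intro J
    have h1 : ∑ j ∈ Finset.range J, μ ((Lset p F δ (n (j + 1) / 4) R)ᶜ)ᶜ =
        ENNReal.ofReal (∑ j ∈ Finset.range J, g (n (j + 1))) := by
      rw [ENNReal.ofReal_sum_of_nonneg (fun _ _ => measureReal_nonneg)]
      refine Finset.sum_congr rfl fun j _ => ?_
      rw [compl_compl]
      exact (ofReal_measureReal (measure_ne_top _ _)).symm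
    rw [h1]
    have h2 := ENNReal.ofReal_le_ofReal (hk3 J)
    refine h2.trans ?_
    rw [ENNReal.ofReal_div_of_pos (by norm_num)]
    simp

end Pool.Agent.Half
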