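import Pool.Agent.Half.HDefs
import Pool.Agent.LogSc.Cell

/-! Module NEAR. If `x`, `y` are in cells of level `L` with numbers in `W`, then `y - x` is in a closed set `V` of Lebesgue
measure `≤ 1/16` when `64 |W|^2 ≤ 2^L`. PROOF: `x ∈ [w/2^L, (w+1)/2^L)` etc., so `y - x` is within `2^-L` of
`(w' - w)/2^L` (`LogSc.cell`, `LogSc.rep`); `V` = union over `(w, w') ∈ W × W` of the closed balls of radius `2^-L`
around these points, each of volume `≤ 2 * 2^-L` (`AddCircle.volume_closedBall`). -/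

open MeasureTheory Filter Topology Set
open scoped ENNReal

namespace Pool.Agent.Half

theorem near (L : ℕ) (W : Finset ℕ) (hW : 64 * W.card ^ 2 ≤ 2 ^ L) :
    ∃ V : Set T, IsClosed V ∧ (volume : Measure T) V ≤ 1 / 16 ∧
      ∀ x y : T, LogSc.cell 2 L x ∈ W → LogSc.cell 2 L y ∈ W → y - x ∈ V := by
  refine ⟨⋃ p ∈ (W ×ˢ W : Finset (ℕ × ℕ)), Metric.closedBall
    (((((p.2 : ℕ) : ℝ) - ((p.1 : ℕ) : ℝ)) / ((2 : ℕ) : ℝ) ^ L : ℝ) : T) ((((2 : ℕ) : ℝ) ^ L)⁻¹), ?_, ?_, ?_⟩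
  · exact (Finset.finite_toSet (W ×ˢ W)).isClosed_biUnion fun p _ => Metric.isClosed_closedBall
  · refine (measure_biUnion_finset_le _ _).trans ?_
    have h1 : ∀ p ∈ (W ×ˢ W : Finset (ℕ × ℕ)), (volume : Measure T) (Metric.closedBall
        (((((p.2 : ℕ) : ℝ) - ((p.1 : ℕ) : ℝ)) / ((2 : ℕ) : ℝ) ^ L : ℝ) : T) ((((2 : ℕ) : ℝ) ^ L)⁻¹)) ≤
        ENNReal.ofReal (2 * (((2 : ℕ) : ℝ) ^ L)⁻¹) := by
      intro p _
      rw [AddCircle.volume_closedBall]
      exact ENNReal.ofReal_le_ofReal (min_le_right _ _)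
    refine (Finset.sum_le_sum h1).trans ?_
    rw [Finset.sum_const, Finset.card_product, nsmul_eq_mul]
    have h2 : ((W.card * W.card : ℕ) : ℝ≥0∞) = ENNReal.ofReal ((W.card * W.card : ℕ) : ℝ) := by
      rw [ENNReal.ofReal_natCast]
    rw [h2, ← ENNReal.ofReal_mul (by positivity)]
    have h3 : (1 / 16 : ℝ≥0∞) = ENNReal.ofReal (1 / 16) := by
      rw [ENNReal.ofReal_div_of_pos (by norm_num)]
      norm_num
    rw [h3]
    apply ENNReal.ofReal_le_ofReal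
    have h4 : (64 : ℝ) * (W.card : ℝ) ^ 2 ≤ 2 ^ L := by exact_mod_cast hW
    have h5 : (0 : ℝ) < 2 ^ L := by positivity
    push_cast
    have h6 : (W.card : ℝ) * W.card * (2 * ((2 : ℝ) ^ L)⁻¹) = 2 * (W.card : ℝ) ^ 2 / 2 ^ L := by
      field_simp
    rw [h6, div_le_iff₀ h5]
    linarith
  · intro x y hx hy
    simp only [mem_iUnion]
    refine ⟨(LogSc.cell 2 L x, LogSc.cell 2 L y), Finset.mem_product.2 ⟨hx, hy⟩, ?_⟩
    rw [Metric.mem_closedBall, dist_eq_norm]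
    exact (LogSc.cell_near (by norm_num) L y x).le

end Pool.Agent.Half
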