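import Pool.Agent.Half.Dec
import Pool.Agent.Half.Near

/-! Module HALF (section 1). PROOF: `ν₁, ν₂` marginals of `J`, `ν = (ν₁ + ν₂)/2` (probability, invariant), `S` from `dec`.
`a_i = ν_i Sᶜ`; `ν_i ≥ a_i λ`: `ν_i.restrict Sᶜ ≤ 2 ν.restrict Sᶜ = 2 ν(Sᶜ) λ` is absolutely continuous and invariant, so
`= a_i λ` by `erg_smul`. If `a_1 + a_2 < 1` then `c = J (S ×ˢ S) ≥ 1 - a_1 - a_2 > 0`; `κ` = image of `J.restrict (S ×ˢ S)`
under `z ↦ z.2 - z.1` is invariant under `2 •` and `≤ volume`, so `κ = c • volume` (`erg_smul`). `dec` with `δ = c/16` and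
`near`: `κ V ≥ c - 4 δ = 3c/4`, but `κ V = c volume V ≤ c/16`. So `a_1 + a_2 ≥ 1`; `t = a_1`, `1 - t ≤ a_2`, and
`∫ f ∂ν_i ≥ a_i ∫ f ∂volume` for `f ≥ 0`. -/

open MeasureTheory Filter Topology Set
open scoped ENNReal

namespace Pool.Agent.Half

private theorem half_inv {K : Measure (T × T)} (m : ℕ)
    (h : MeasurePreserving (fun z : T × T => (m • z.1, m • z.2)) K K) (q : T × T → T)
    (hq : Measurable q) (hc : ∀ z : T × T, q (m • z.1, m • z.2) = m • q z) :
    MeasurePreserving (fun x : T => m • x) (K.map q) (K.map q) := by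
  have hm : Measurable (fun x : T => m • x) := (continuous_nsmul m).measurable
  refine ⟨hm, ?_⟩
  rw [Measure.map_map hm hq]
  have h1 : (fun x : T => m • x) ∘ q = q ∘ (fun z : T × T => (m • z.1, m • z.2)) := by
    funext z
    exact (hc z).symm
  rw [h1, ← Measure.map_map hq h.measurable, h.map_eq]

private theorem half_mix {ν₁ ν₂ : Measure T} (m : ℕ)
    (h1 : MeasurePreserving (fun x : T => m • x) ν₁ ν₁)
    (h2 : MeasurePreserving (fun x : T => m • x) ν₂ ν₂) :
    MeasurePreserving (fun x : T => m • x) ((2 : ℝ≥0∞)⁻¹ • (ν₁ + ν₂))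
      ((2 : ℝ≥0∞)⁻¹ • (ν₁ + ν₂)) := by
  refine ⟨h1.measurable, ?_⟩
  rw [Measure.map_smul, Measure.map_add _ _ h1.measurable, h1.map_eq, h2.map_eq]

private theorem half_final {ν : Measure T} [IsProbabilityMeasure ν] {S : Set T}
    (hS : MeasurableSet S)
    (he : ν.restrict Sᶜ = ν Sᶜ • (volume : Measure T)) (t : ℝ) (ht : t ≤ (ν Sᶜ).toReal)
    (f : C(T, ℝ)) (hf : ∀ x, 0 ≤ f x) :
    t * (∫ x, f x ∂(volume : Measure T)) ≤ ∫ x, f x ∂ν := by
  have hint : ∀ μ : Measure T, IsFiniteMeasure μ → Integrable (fun x => f x) μ := by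
    intro μ hμ
    exact (BoundedContinuousFunction.mkOfCompact f).integrable μ
  have h1 : ∫ x in Sᶜ, f x ∂ν ≤ ∫ x, f x ∂ν :=
    setIntegral_le_integral (hint ν inferInstance) (Filter.Eventually.of_forall hf)
  rw [he, integral_smul_measure, smul_eq_mul] at h1
  refine le_trans ?_ h1
  have h3 : 0 ≤ ∫ x, f x ∂(volume : Measure T) := integral_nonneg hf
  exact mul_le_mul_of_nonneg_right ht h3

theorem half_sum (J : Measure (T × T)) [IsProbabilityMeasure J]
    (h2 : MeasurePreserving (fun z : T × T => ((2 : ℕ) • z.1, (2 : ℕ) • z.2)) J J)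
    (h3 : MeasurePreserving (fun z : T × T => ((3 : ℕ) • z.1, (3 : ℕ) • z.2)) J J)
    (hd : J.map (fun z : T × T => z.2 - z.1) = volume) :
    ∃ t : ℝ, 0 ≤ t ∧ t ≤ 1 ∧
      (∀ f : C(T, ℝ), (∀ x, 0 ≤ f x) → t * ∫ x, f x ∂(volume : Measure T) ≤ ∫ z, f z.1 ∂J) ∧
      (∀ f : C(T, ℝ), (∀ x, 0 ≤ f x) → (1 - t) * ∫ x, f x ∂(volume : Measure T) ≤ ∫ z, f z.2 ∂J) := by
  set ν₁ := J.map Prod.fst with hν₁
  set ν₂ := J.map Prod.snd with hν₂
  have p1 : IsProbabilityMeasure ν₁ := Measure.isProbabilityMeasure_map measurable_fst.aemeasurable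
  have p2 : IsProbabilityMeasure ν₂ := Measure.isProbabilityMeasure_map measurable_snd.aemeasurable
  set ν : Measure T := (2 : ℝ≥0∞)⁻¹ • (ν₁ + ν₂) with hν
  have hp : IsProbabilityMeasure ν := by
    constructor
    rw [hν, Measure.smul_apply, Measure.add_apply, measure_univ, measure_univ, smul_eq_mul,
      one_add_one_eq_two]
    exact ENNReal.inv_mul_cancel (by norm_num) (by norm_num)
  have hsum : ∀ A : Set T, ν₁ A + ν₂ A = 2 * ν A := by
    intro A
    rw [hν, Measure.smul_apply, Measure.add_apply, smul_eq_mul, ← mul_assoc,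
      ENNReal.mul_inv_cancel (by norm_num) (by norm_num), one_mul]
  have i1 : ∀ m, MeasurePreserving (fun z : T × T => (m • z.1, m • z.2)) J J →
      MeasurePreserving (fun x : T => m • x) ν₁ ν₁ := fun m hm =>
    half_inv m hm Prod.fst measurable_fst (fun _ => rfl)
  have i2 : ∀ m, MeasurePreserving (fun z : T × T => (m • z.1, m • z.2)) J J →
      MeasurePreserving (fun x : T => m • x) ν₂ ν₂ := fun m hm =>
    half_inv m hm Prod.snd measurable_snd (fun _ => rfl)
  obtain ⟨S, hS, hS2, hS3, hvS, hdec, hcov⟩ := dec ν (half_mix 2 (i1 2 h2) (i2 2 h2))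
    (half_mix 3 (i1 3 h3) (i2 3 h3))
  have hSc2 : (fun x : T => (2 : ℕ) • x) ⁻¹' Sᶜ = Sᶜ := by rw [preimage_compl, hS2]
  -- the Lebesgue parts
  have hac : ν.restrict Sᶜ ≪ volume := by
    rw [hdec, Measure.restrict_add, Measure.restrict_smul, Measure.restrict_restrict hS.compl]
    have h0 : Sᶜ ∩ S = ∅ := by rw [inter_comm, inter_compl_self]
    rw [h0, Measure.restrict_empty, add_zero]
    exact (Measure.smul_absolutelyContinuous).trans Measure.absolutelyContinuous_restrict
  have key : ∀ μ : Measure T, IsProbabilityMeasure μ → (∀ A, μ A ≤ 2 * ν A) →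
      MeasurePreserving (fun x : T => (2 : ℕ) • x) μ μ →
      μ.restrict Sᶜ = μ Sᶜ • (volume : Measure T) := by
    intro μ hμ hle hinv
    have h4 : MeasurePreserving (fun x : T => (2 : ℕ) • x) (μ.restrict Sᶜ) (μ.restrict Sᶜ) := by
      have h5 := hinv.restrict_preimage hS.compl
      rwa [hSc2] at h5
    have h5 : μ.restrict Sᶜ ≪ volume := by
      refine Measure.AbsolutelyContinuous.trans ?_ hac
      refine Measure.AbsolutelyContinuous.restrict ?_ _
      intro A hA
      have h6 := hle A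
      rw [hA, mul_zero] at h6
      exact le_antisymm h6 (by simp)
    have h6 := erg_smul (μ.restrict Sᶜ) h4 h5
    rw [Measure.restrict_apply_univ] at h6
    exact h6
  have k1 := key ν₁ p1 (fun A => by rw [← hsum]; exact le_self_add) (i1 2 h2)
  have k2 := key ν₂ p2 (fun A => by rw [← hsum]; exact le_add_self) (i2 2 h2)
  -- the main inequality
  have hmain : 1 ≤ ν₁ Sᶜ + ν₂ Sᶜ := by
    by_contra hlt
    rw [not_le] at hlt
    set c := J (S ×ˢ S) with hc
    have hc0 : c ≠ 0 := by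
      intro h0
      have h4 : (1 : ℝ≥0∞) ≤ ν₁ Sᶜ + ν₂ Sᶜ := by
        calc (1 : ℝ≥0∞) = J univ := measure_univ.symm
          _ ≤ J ((S ×ˢ S) ∪ (Prod.fst ⁻¹' Sᶜ ∪ Prod.snd ⁻¹' Sᶜ)) := by
              apply measure_mono
              intro z _
              by_cases hz1 : z.1 ∈ S
              · by_cases hz2 : z.2 ∈ S
                · exact Or.inl ⟨hz1, hz2⟩
                · exact Or.inr (Or.inr hz2)
              · exact Or.inr (Or.inl hz1)
          _ ≤ J (S ×ˢ S) + (J (Prod.fst ⁻¹' Sᶜ) + J (Prod.snd ⁻¹' Sᶜ)) :=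
              (measure_union_le _ _).trans (add_le_add_right (measure_union_le _ _) _)
          _ = ν₁ Sᶜ + ν₂ Sᶜ := by
              rw [← hc, h0, zero_add, hν₁, hν₂, Measure.map_apply measurable_fst hS.compl,
                Measure.map_apply measurable_snd hS.compl]
      exact absurd h4 (not_le.2 hlt)
    have hctop : c ≠ ⊤ := measure_ne_top J _
    have hSS : MeasurableSet (S ×ˢ S) := hS.prod hS
    have hq : Measurable (fun z : T × T => z.2 - z.1) := measurable_snd.sub measurable_fst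
    have h4 : MeasurePreserving (fun z : T × T => ((2 : ℕ) • z.1, (2 : ℕ) • z.2))
        (J.restrict (S ×ˢ S)) (J.restrict (S ×ˢ S)) := by
      have h5 := h2.restrict_preimage hSS
      have h6 : (fun z : T × T => ((2 : ℕ) • z.1, (2 : ℕ) • z.2)) ⁻¹' (S ×ˢ S) = S ×ˢ S := by
        ext z
        have e1 : (2 : ℕ) • z.1 ∈ S ↔ z.1 ∈ S := by
          conv_rhs => rw [← hS2]
          exact Iff.rfl
        have e2 : (2 : ℕ) • z.2 ∈ S ↔ z.2 ∈ S := by
          conv_rhs => rw [← hS2]
          exact Iff.rfl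
        simp only [mem_preimage, mem_prod]
        rw [e1, e2]
      rwa [h6] at h5
    set κ := (J.restrict (S ×ˢ S)).map (fun z : T × T => z.2 - z.1) with hκ
    have hκf : IsFiniteMeasure κ := Measure.isFiniteMeasure_map _ _
    have hκac : κ ≪ volume := by
      have h5 : κ ≤ J.map (fun z : T × T => z.2 - z.1) :=
        Measure.map_mono Measure.restrict_le_self hq
      rw [hd] at h5
      exact Measure.absolutelyContinuous_of_le h5
    have hκe := erg_smul κ (half_inv 2 h4 (fun z => z.2 - z.1) hq (fun z => (nsmul_sub _ _ _).symm))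
      hκac
    have hκu : κ univ = c := by
      rw [hκ, Measure.map_apply hq MeasurableSet.univ, preimage_univ, Measure.restrict_apply_univ]
    rw [hκu] at hκe
    obtain ⟨L, W, hLW, hW⟩ := hcov (c / 16) (by
      simp only [ne_eq, ENNReal.div_eq_zero_iff, not_or]
      exact ⟨hc0, by norm_num⟩)
    obtain ⟨V, hV, hV1, hV2⟩ := near L W hLW
    have h5 : c ≤ κ V + 2 * (c / 16) := by
      set B := S ∩ {x | LogSc.cell 2 L x ∉ W} with hB
      calc c = J (S ×ˢ S) := rfl
        _ ≤ J (((fun z : T × T => z.2 - z.1) ⁻¹' V ∩ (S ×ˢ S)) ∪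
              (Prod.fst ⁻¹' B ∪ Prod.snd ⁻¹' B)) := by
            apply measure_mono
            intro z hz
            by_cases hz1 : LogSc.cell 2 L z.1 ∈ W
            · by_cases hz2 : LogSc.cell 2 L z.2 ∈ W
              · exact Or.inl ⟨hV2 _ _ hz1 hz2, hz⟩
              · exact Or.inr (Or.inr ⟨hz.2, hz2⟩)
            · exact Or.inr (Or.inl ⟨hz.1, hz1⟩)
        _ ≤ J ((fun z : T × T => z.2 - z.1) ⁻¹' V ∩ (S ×ˢ S)) +
              (J (Prod.fst ⁻¹' B) + J (Prod.snd ⁻¹' B)) :=
            (measure_union_le _ _).trans (add_le_add_right (measure_union_le _ _) _)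
        _ ≤ κ V + (ν₁ B + ν₂ B) := by
            gcongr
            · rw [hκ, Measure.map_apply hq hV.measurableSet, Measure.restrict_apply
                (hq hV.measurableSet)]
            · exact Measure.le_map_apply measurable_fst.aemeasurable B
            · exact Measure.le_map_apply measurable_snd.aemeasurable B
        _ = κ V + 2 * ν B := by rw [hsum]
        _ ≤ κ V + 2 * (c / 16) := by
            gcongr
    have h6 : κ V ≤ c / 16 := by
      rw [hκe, Measure.smul_apply, smul_eq_mul, div_eq_mul_inv]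
      gcongr
      rwa [one_div] at hV1
    have h7 : c ≤ c / 16 + 2 * (c / 16) := h5.trans (by gcongr)
    have h8 := ENNReal.toReal_mono (by
      apply ENNReal.add_ne_top.2
      exact ⟨ENNReal.div_ne_top hctop (by norm_num),
        ENNReal.mul_ne_top (by norm_num) (ENNReal.div_ne_top hctop (by norm_num))⟩) h7
    rw [ENNReal.toReal_add (ENNReal.div_ne_top hctop (by norm_num))
      (ENNReal.mul_ne_top (by norm_num) (ENNReal.div_ne_top hctop (by norm_num))),
      ENNReal.toReal_mul, ENNReal.toReal_div, ENNReal.toReal_ofNat, ENNReal.toReal_ofNat] at h8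
    have h9 : 0 < c.toReal := ENNReal.toReal_pos hc0 hctop
    linarith
  have hle1 : ν₁ Sᶜ ≤ 1 := prob_le_one
  have hreal : (1 : ℝ) ≤ (ν₁ Sᶜ).toReal + (ν₂ Sᶜ).toReal := by
    have h4 := ENNReal.toReal_mono (ENNReal.add_ne_top.2 ⟨measure_ne_top ν₁ Sᶜ, measure_ne_top ν₂ Sᶜ⟩) hmain
    rwa [ENNReal.toReal_add (measure_ne_top ν₁ Sᶜ) (measure_ne_top ν₂ Sᶜ), ENNReal.toReal_one] at h4
  refine ⟨(ν₁ Sᶜ).toReal, ENNReal.toReal_nonneg, ?_, ?_, ?_⟩
  · have h4 := ENNReal.toReal_mono ENNReal.one_ne_top hle1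
    rwa [ENNReal.toReal_one] at h4
  · intro f hf
    have h4 := half_final hS k1 (ν₁ Sᶜ).toReal le_rfl f hf
    rwa [hν₁, integral_map measurable_fst.aemeasurable f.continuous.aestronglyMeasurable] at h4
  · intro f hf
    have h4 := half_final hS k2 (1 - (ν₁ Sᶜ).toReal) (by linarith) f hf
    rwa [hν₂, integral_map measurable_snd.aemeasurable f.continuous.aestronglyMeasurable] at h4

end Pool.Agent.Half
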