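import Pool.Agent.Half.SlC
import Pool.Agent.Half.Weyl

/-! Module SLT. PROOF: `z k` is the class of a real `ζ` with `|ζ| = ‖z k‖`, `t = 2^(n k) |ζ| ∈ [1/2, 1]`. By `sl_char` the
norm is at most the mean over `i < ρ k` of `‖FB (bb n) (± m 2^i t)‖` plus `ρ/bb n`. Given `ε`: `K0`, `B0` from `weyl` with
exponent `A + 2`: for the `i` with `|m| 2^i t ≥ K0` the term is `≤ ε` (`|m| 2^i t ≤ |m| 2^ρ ≤ |m| n^A ≤ (bb n)^(A+2)` for
large `k`), and there are at most `log_2 (2 K0) + 1` other `i`, each term `≤ 1`. `ρ k → ∞`, `ρ k / bb (n k) → 0`. -/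

open MeasureTheory Filter Topology

namespace Pool.Agent.Half

theorem SLT_rep (z : T) : ∃ ζ : ℝ, (ζ : T) = z ∧ |ζ| = ‖z‖ := by
  induction z using QuotientAddGroup.induction_on with
  | H x =>
    refine ⟨x - round x, ?_, ?_⟩
    · have h : ((round x : ℝ) : T) = 0 := by
        rw [AddCircle.coe_eq_zero_iff]
        exact ⟨round x, by simp⟩
      rw [AddCircle.coe_sub, h, sub_zero]
    · have h := AddCircle.norm_eq (p := (1 : ℝ)) (x := x)
      rw [inv_one, one_mul, mul_one] at h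
      exact h.symm

theorem SLT_FB_le (B : ℕ) (s : ℝ) : ‖FB B s‖ ≤ 1 := by
  unfold FB
  rcases Nat.eq_zero_or_pos B with rfl | hB
  · simp
  rw [norm_div, Complex.norm_natCast]
  have hB' : (0 : ℝ) < B := by exact_mod_cast hB
  rw [div_le_one hB']
  refine (norm_sum_le _ _).trans ?_
  rw [Finset.sum_congr rfl (g := fun _ => (1 : ℝ))]
  · rw [Finset.sum_const, Finset.card_range, nsmul_eq_mul, mul_one]
  · intro b _
    rw [show (2 * Real.pi * Complex.I * (s * Ord2.th b : ℝ) : ℂ) =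
      ((2 * Real.pi * (s * Ord2.th b) : ℝ) : ℂ) * Complex.I by push_cast; ring]
    exact Complex.norm_exp_ofReal_mul_I _

theorem SLT_bb_tendsto (n : ℕ → ℕ) (hn : Tendsto n atTop atTop) :
    Tendsto (fun k => bb (n k)) atTop atTop := by
  rw [tendsto_atTop] at hn ⊢
  intro b
  filter_upwards [hn (2 * b)] with k hk
  have := (bb_bounds (n k)).1
  omega

theorem SLT_small (n ρ : ℕ → ℕ) (hn : Tendsto n atTop atTop) (A0 : ℝ) (hA0 : 0 ≤ A0)
    (hA : ∀ᶠ k in atTop, (2 : ℝ) ^ ρ k ≤ (n k : ℝ) ^ A0) (ε : ℝ) (hε : 0 < ε) :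
    ∀ᶠ k in atTop, (ρ k : ℝ) / bb (n k) ≤ ε := by
  have hn' : Tendsto (fun k => (n k : ℝ)) atTop atTop := tendsto_natCast_atTop_atTop.comp hn
  have h1 : Tendsto (fun x : ℝ => Real.log x / x) atTop (𝓝 0) := by
    have := Real.isLittleO_log_id_atTop.tendsto_div_nhds_zero
    exact this
  have h2 : Tendsto (fun k => Real.log (n k : ℝ) / (n k : ℝ)) atTop (𝓝 0) := h1.comp hn'
  have hl2 : (0 : ℝ) < Real.log 2 := Real.log_pos (by norm_num)
  have hc : (0 : ℝ) < ε * Real.log 2 / (2 * (A0 + 1)) := by positivity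
  have h3 : ∀ᶠ k in atTop, Real.log (n k : ℝ) / (n k : ℝ) < ε * Real.log 2 / (2 * (A0 + 1)) :=
    h2.eventually_lt_const hc
  filter_upwards [hA, h3, hn.eventually_ge_atTop 1] with k hk1 hk2 hk3
  have hnk : (0 : ℝ) < n k := by exact_mod_cast hk3
  have hbb := (bb_bounds (n k)).1
  have hbb' : (n k : ℝ) < 2 * bb (n k) := by exact_mod_cast hbb
  have hbpos : (0 : ℝ) < bb (n k) := by linarith
  have hlog : (ρ k : ℝ) * Real.log 2 ≤ A0 * Real.log (n k) := by
    have h4 := Real.log_le_log (by positivity) hk1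
    rw [Real.log_pow, Real.log_rpow hnk] at h4
    exact h4
  have hln : 0 ≤ Real.log (n k : ℝ) := Real.log_nonneg (by exact_mod_cast hk3)
  rw [div_lt_iff₀ hnk] at hk2
  rw [div_le_iff₀ hbpos]
  have h5 : A0 * Real.log (n k) ≤ (A0 + 1) * (ε * Real.log 2 / (2 * (A0 + 1)) * n k) := by
    have : A0 * Real.log (n k) ≤ (A0 + 1) * Real.log (n k) :=
      mul_le_mul_of_nonneg_right (by linarith) hln
    refine this.trans (mul_le_mul_of_nonneg_left hk2.le (by linarith))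
  have h6 : (A0 + 1) * (ε * Real.log 2 / (2 * (A0 + 1)) * n k) = (ε * (n k / 2)) * Real.log 2 := by
    have : A0 + 1 ≠ 0 := by linarith
    field_simp
  have h7 : (ρ k : ℝ) * Real.log 2 ≤ (ε * (n k / 2)) * Real.log 2 := by linarith
  have h8 : (ρ k : ℝ) ≤ ε * (n k / 2) := le_of_mul_le_mul_right h7 hl2
  have h9 : ε * ((n k : ℝ) / 2) ≤ ε * bb (n k) := mul_le_mul_of_nonneg_left (by linarith) hε.le
  linarith

theorem sl_tendsto (n ρ : ℕ → ℕ) (hn : Tendsto n atTop atTop) (hρ : Tendsto ρ atTop atTop) (A : ℝ)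
    (hA : ∀ᶠ k in atTop, (2 : ℝ) ^ ρ k ≤ (n k : ℝ) ^ A) (z : ℕ → T)
    (hz : ∀ k, (1 / 2 : ℝ) ^ (n k + 1) ≤ ‖z k‖ ∧ ‖z k‖ ≤ (1 / 2 : ℝ) ^ n k) (m : ℤ) (hm : m ≠ 0) :
    Tendsto (fun k => avgC (sl (n k) (ρ k)) (fourier m) (z k)) atTop (𝓝 0) := by
  -- a nonnegative exponent
  set A0 : ℝ := max A 0 with hA0d
  have hA0 : 0 ≤ A0 := le_max_right _ _
  have hA' : ∀ᶠ k in atTop, (2 : ℝ) ^ ρ k ≤ (n k : ℝ) ^ A0 := by
    filter_upwards [hA, hn.eventually_ge_atTop 1] with k h1 h2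
    exact h1.trans (Real.rpow_le_rpow_of_exponent_le (by exact_mod_cast h2) (le_max_left _ _))
  rw [Metric.tendsto_atTop]
  intro ε hε
  obtain ⟨K0, hK0, B0, hB0⟩ := weyl (A0 + 1) (ε / 4) (by linarith)
  obtain ⟨c, hc⟩ := pow_unbounded_of_one_lt (2 * K0) (by norm_num : (1 : ℝ) < 2)
  have hρ' : Tendsto (fun k => (ρ k : ℝ)) atTop atTop := tendsto_natCast_atTop_atTop.comp hρ
  have hbbT := SLT_bb_tendsto n hn
  have hbbR : Tendsto (fun k => (bb (n k) : ℝ)) atTop atTop :=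
    tendsto_natCast_atTop_atTop.comp hbbT
  have hev : ∀ᶠ k in atTop, ‖avgC (sl (n k) (ρ k)) (fourier m) (z k)‖ < ε := by
    filter_upwards [hA', SLT_small n ρ hn A0 hA0 hA' (ε / 4) (by linarith),
      hbbT.eventually_ge_atTop B0, hbbR.eventually_ge_atTop (|(m : ℝ)| * 2 ^ A0),
      hρ'.eventually_ge_atTop (4 * (c : ℝ) / ε), hρ.eventually_ge_atTop 1,
      hn.eventually_ge_atTop 1] with k h1 h2 h3 h4 h5 h6 h7
    obtain ⟨ζ, hζ, hζn⟩ := SLT_rep (z k)
    have hm1 : (1 : ℝ) ≤ |(m : ℝ)| := by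
      have : (1 : ℤ) ≤ |m| := Int.one_le_abs hm
      exact_mod_cast this
    have hρpos : (0 : ℝ) < ρ k := by exact_mod_cast (by omega : 0 < ρ k)
    have ht1 : 1 / 2 ≤ 2 ^ n k * |ζ| := by
      have h8 := (hz k).1
      rw [← hζn, pow_succ] at h8
      have h9 : (2 : ℝ) ^ n k * ((1 / 2) ^ n k * (1 / 2)) = 1 / 2 := by
        rw [← mul_assoc, ← mul_pow]; norm_num
      have h10 : (2 : ℝ) ^ n k * ((1 / 2) ^ n k * (1 / 2)) ≤ 2 ^ n k * |ζ| :=
        mul_le_mul_of_nonneg_left h8 (by positivity)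
      linarith
    have ht2 : 2 ^ n k * |ζ| ≤ 1 := by
      have h8 := (hz k).2
      rw [← hζn] at h8
      have h9 : (2 : ℝ) ^ n k * ((1 / 2) ^ n k) = 1 := by
        rw [← mul_pow]; norm_num
      have h10 : (2 : ℝ) ^ n k * |ζ| ≤ 2 ^ n k * ((1 / 2) ^ n k) :=
        mul_le_mul_of_nonneg_left h8 (by positivity)
      linarith
    have hnB : (n k : ℝ) ≤ 2 * bb (n k) := by
      exact_mod_cast (bb_bounds (n k)).1.le
    have hnk : (0 : ℝ) < n k := by exact_mod_cast h7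
    have hBpos : (0 : ℝ) < bb (n k) := by linarith
    have hpow : |(m : ℝ)| * 2 ^ ρ k ≤ (bb (n k) : ℝ) ^ (A0 + 1) := by
      have e1 : (2 : ℝ) ^ ρ k ≤ (2 * bb (n k) : ℝ) ^ A0 :=
        h1.trans (Real.rpow_le_rpow hnk.le hnB hA0)
      rw [Real.mul_rpow (by norm_num) hBpos.le] at e1
      rw [Real.rpow_add hBpos, Real.rpow_one]
      calc |(m : ℝ)| * 2 ^ ρ k ≤ |(m : ℝ)| * (2 ^ A0 * (bb (n k) : ℝ) ^ A0) :=
            mul_le_mul_of_nonneg_left e1 (abs_nonneg _)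
        _ = (|(m : ℝ)| * 2 ^ A0) * (bb (n k) : ℝ) ^ A0 := by ring
        _ ≤ (bb (n k) : ℝ) * (bb (n k) : ℝ) ^ A0 :=
            mul_le_mul_of_nonneg_right h4 (Real.rpow_nonneg hBpos.le _)
        _ = (bb (n k) : ℝ) ^ A0 * (bb (n k) : ℝ) := by ring
    have habs : ∀ i : ℕ, |(m : ℝ) * 2 ^ i * (2 ^ n k * ζ)| = |(m : ℝ)| * 2 ^ i * (2 ^ n k * |ζ|) := by
      intro i
      rw [abs_mul, abs_mul, abs_mul, abs_of_pos (by positivity : (0 : ℝ) < 2 ^ i),
        abs_of_pos (by positivity : (0 : ℝ) < 2 ^ n k)]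
    have hterm : ∀ i ∈ Finset.range (ρ k), ‖FB (bb (n k)) ((m : ℝ) * 2 ^ i * (2 ^ n k * ζ))‖ ≤
        (if i < c then 1 else 0) + ε / 4 := by
      intro i hi
      rw [Finset.mem_range] at hi
      split_ifs with hic
      · have := SLT_FB_le (bb (n k)) ((m : ℝ) * 2 ^ i * (2 ^ n k * ζ))
        linarith
      · rw [zero_add]
        refine hB0 (bb (n k)) h3 _ ?_ ?_
        · rw [habs]
          have hpc : (2 : ℝ) ^ c ≤ 2 ^ i := pow_le_pow_right₀ (by norm_num) (not_lt.1 hic)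
          have e1 : (1 : ℝ) * 2 ^ i ≤ |(m : ℝ)| * 2 ^ i :=
            mul_le_mul_of_nonneg_right hm1 (by positivity)
          have e2 : (|(m : ℝ)| * 2 ^ i) * (1 / 2) ≤ |(m : ℝ)| * 2 ^ i * (2 ^ n k * |ζ|) :=
            mul_le_mul_of_nonneg_left ht1 (by positivity)
          linarith
        · rw [habs]
          have e1 : |(m : ℝ)| * 2 ^ i * (2 ^ n k * |ζ|) ≤ |(m : ℝ)| * 2 ^ i * 1 :=
            mul_le_mul_of_nonneg_left ht2 (by positivity)
          have e2 : |(m : ℝ)| * (2 : ℝ) ^ i ≤ |(m : ℝ)| * 2 ^ ρ k :=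
            mul_le_mul_of_nonneg_left (pow_le_pow_right₀ (by norm_num) hi.le) (abs_nonneg _)
          linarith
    have hsum : ∑ i ∈ Finset.range (ρ k), ‖FB (bb (n k)) ((m : ℝ) * 2 ^ i * (2 ^ n k * ζ))‖ ≤
        c + ρ k * (ε / 4) := by
      refine (Finset.sum_le_sum hterm).trans ?_
      rw [Finset.sum_add_distrib, Finset.sum_const, Finset.card_range, nsmul_eq_mul]
      refine add_le_add ?_ le_rfl
      rw [← Finset.sum_filter, Finset.sum_const, nsmul_eq_mul, mul_one]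
      have hsub : (Finset.range (ρ k)).filter (fun i => i < c) ⊆ Finset.range c := by
        intro i hi
        rw [Finset.mem_filter] at hi
        exact Finset.mem_range.2 hi.2
      have := Finset.card_le_card hsub
      rw [Finset.card_range] at this
      exact_mod_cast this
    have hmain := sl_char (n k) (ρ k) (by omega) m ζ
    rw [hζ] at hmain
    have h10 : (∑ i ∈ Finset.range (ρ k), ‖FB (bb (n k)) ((m : ℝ) * 2 ^ i * (2 ^ n k * ζ))‖) / ρ k ≤
        ε / 4 + ε / 4 := by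
      rw [div_le_iff₀ hρpos]
      have h11 : (c : ℝ) ≤ ε / 4 * ρ k := by
        rw [div_le_iff₀ hε] at h5
        linarith
      linarith
    linarith
  obtain ⟨N, hN⟩ := eventually_atTop.1 hev
  refine ⟨N, fun k hk => ?_⟩
  rw [dist_zero_right]
  exact hN k hk

end Pool.Agent.Half
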