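import Pool.Agent.Half.KCov
import Pool.Agent.Half.SlT

/-! The `2 ^ N` dyadic arcs of the circle and coverings. -/

open MeasureTheory Filter Topology

namespace Pool.Agent.Half

/-- The arc of the points `t` with `i / 2 ^ N ≤ t < (i + 1) / 2 ^ N`. -/
def arc (N i : ℕ) : Set T :=
  (fun t : ℝ => (t : T)) '' Set.Ico ((i : ℝ) / 2 ^ N) (((i : ℝ) + 1) / 2 ^ N)

/-- Entropy of the partition of the circle into `2 ^ N` arcs. -/
noncomputable def entN (μ : Measure T) (N : ℕ) : ℝ :=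
  ∑ i ∈ Finset.range (2 ^ N), Real.negMulLog (μ.real (arc N i))

/-- the representative in `[0, 1)` -/
noncomputable def KA_t (x : T) : ℝ := (AddCircle.equivIco (1 : ℝ) 0 x : Set.Ico (0 : ℝ) (0 + 1))

theorem KA_t_mem (x : T) : 0 ≤ KA_t x ∧ KA_t x < 1 := by
  have h := (AddCircle.equivIco (1 : ℝ) 0 x).2
  refine ⟨h.1, ?_⟩
  have h2 : KA_t x < 0 + 1 := h.2
  linarith

theorem KA_t_coe (x : T) : ((KA_t x : ℝ) : T) = x := AddCircle.coe_equivIco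

theorem KA_t_eq {u : ℝ} (h0 : 0 ≤ u) (h1 : u < 1) : KA_t (u : T) = u :=
  AddCircle.equivIco_coe_of_mem ⟨h0, by simpa using h1⟩

theorem KA_t_meas : Measurable KA_t :=
  measurable_subtype_coe.comp (AddCircle.measurableEquivIco (1 : ℝ) 0).measurable

theorem KA_lt (N : ℕ) (x : T) : ⌊(2 : ℝ) ^ N * KA_t x⌋₊ < 2 ^ N := by
  obtain ⟨h0, h1⟩ := KA_t_mem x
  rw [Nat.floor_lt (by positivity)]
  push_cast
  have : (0 : ℝ) < 2 ^ N := by positivity
  nlinarith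

/-- the number of the arc -/
noncomputable def KA_P (N : ℕ) (x : T) : Fin (2 ^ N) := ⟨⌊(2 : ℝ) ^ N * KA_t x⌋₊, KA_lt N x⟩

theorem KA_pre (N : ℕ) (i : Fin (2 ^ N)) : KA_P N ⁻¹' {i} = arc N i := by
  have hN : (0 : ℝ) < 2 ^ N := by positivity
  have hi : ((i : ℕ) : ℝ) + 1 ≤ 2 ^ N := by
    have := i.2
    exact_mod_cast this
  ext x
  obtain ⟨h0, h1⟩ := KA_t_mem x
  simp only [Set.mem_preimage, Set.mem_singleton_iff, KA_P, Fin.ext_iff, arc, Set.mem_image,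
    Set.mem_Ico]
  rw [Nat.floor_eq_iff (by positivity)]
  constructor
  · rintro ⟨h2, h3⟩
    refine ⟨KA_t x, ⟨?_, ?_⟩, KA_t_coe x⟩
    · rw [div_le_iff₀ hN]; linarith
    · rw [lt_div_iff₀ hN]; linarith
  · rintro ⟨t, ⟨h2, h3⟩, rfl⟩
    have h4 : 0 ≤ t := le_trans (by positivity) h2
    have h5 : t < 1 := by
      refine h3.trans_le ?_
      rw [div_le_one hN]
      exact hi
    rw [KA_t_eq h4 h5]
    rw [div_le_iff₀ hN] at h2
    rw [lt_div_iff₀ hN] at h3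
    constructor <;> linarith

theorem KA_meas (N : ℕ) (i : Fin (2 ^ N)) : MeasurableSet (KA_P N ⁻¹' {i}) := by
  have h1 : Measurable fun x : T => ⌊(2 : ℝ) ^ N * KA_t x⌋₊ :=
    Nat.measurable_floor.comp (KA_t_meas.const_mul _)
  have h2 : KA_P N ⁻¹' {i} = (fun x : T => ⌊(2 : ℝ) ^ N * KA_t x⌋₊) ⁻¹' {(i : ℕ)} := by
    ext x
    simp [KA_P, Fin.ext_iff]
  rw [h2]
  exact h1 (measurableSet_singleton _)

theorem KA_ent (μ : Measure T) (N : ℕ) :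
    entN μ N = ∑ i : Fin (2 ^ N), Real.negMulLog (μ.real (KA_P N ⁻¹' {i})) := by
  unfold entN
  rw [Finset.sum_range]
  exact Finset.sum_congr rfl fun i _ => by rw [KA_pre]

/-- the number of the arc of a real number -/
theorem KA_floor (N : ℕ) (u : ℝ) : ((KA_P N (u : T) : ℕ) : ℤ) = ⌊(2 : ℝ) ^ N * u⌋ % 2 ^ N := by
  obtain ⟨h0, h1⟩ := KA_t_mem (u : T)
  have hc : ((u - KA_t (u : T) : ℝ) : T) = 0 := by
    rw [AddCircle.coe_sub, KA_t_coe, sub_self]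
  rw [AddCircle.coe_eq_zero_iff] at hc
  obtain ⟨n, hn⟩ := hc
  have h2 : u = KA_t (u : T) + n := by
    have : (n : ℝ) = u - KA_t (u : T) := by simpa using hn
    linarith
  have h3 : (2 : ℝ) ^ N * u = 2 ^ N * KA_t (u : T) + ((2 ^ N * n : ℤ) : ℝ) := by
    push_cast
    conv_lhs => rw [h2]
    ring
  have h4 : 0 ≤ (2 : ℝ) ^ N * KA_t (u : T) := by positivity
  have h5 : ((KA_P N (u : T) : ℕ) : ℤ) = ⌊(2 : ℝ) ^ N * KA_t (u : T)⌋ := by
    simp only [KA_P]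
    exact Int.natCast_floor_eq_floor h4
  rw [h3, Int.floor_add_intCast, ← h5, Int.add_mul_emod_self_left]
  symm
  apply Int.emod_eq_of_lt (by positivity)
  have := (KA_P N (u : T)).2
  exact_mod_cast this

/-- a ball of radius `2 ^ (-m)` meets few arcs -/
theorem KA_ball {N m : ℕ} (hm : m ≤ N) (c : T) : ∃ A : Finset (Fin (2 ^ N)), A.card ≤ 2 ^ (N - m + 2) ∧
    ∀ x ∈ Metric.closedBall c ((1 / 2 : ℝ) ^ m), KA_P N x ∈ A := by
  classical
  set t0 := KA_t c with ht0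
  set ρ : ℝ := (1 / 2 : ℝ) ^ m with hρ
  have hN : (0 : ℝ) < 2 ^ N := by positivity
  let g : ℤ → Fin (2 ^ N) := fun z => ⟨(z % 2 ^ N).toNat, by
    have h1 : 0 ≤ z % 2 ^ N := Int.emod_nonneg _ (by positivity)
    have h2 : z % 2 ^ N < 2 ^ N := Int.emod_lt_of_pos _ (by positivity)
    zify
    rw [Int.toNat_of_nonneg h1]
    exact h2⟩
  refine ⟨(Finset.Icc ⌊(2 : ℝ) ^ N * (t0 - ρ)⌋ ⌊(2 : ℝ) ^ N * (t0 + ρ)⌋).image g, ?_, fun x hx => ?_⟩
  · refine Finset.card_image_le.trans ?_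
    rw [Int.card_Icc]
    have h1 : (⌊(2 : ℝ) ^ N * (t0 + ρ)⌋ : ℝ) ≤ 2 ^ N * (t0 + ρ) := Int.floor_le _
    have h2 : (2 : ℝ) ^ N * (t0 - ρ) < ⌊(2 : ℝ) ^ N * (t0 - ρ)⌋ + 1 := Int.lt_floor_add_one _
    have h3 : (2 : ℝ) ^ N * ρ = 2 ^ (N - m) := by
      rw [hρ]
      have h4 : (2 : ℝ) ^ N = 2 ^ (N - m) * 2 ^ m := by
        rw [← pow_add]
        congr 1
        omega
      have h5 : (2 : ℝ) ^ m * (1 / 2) ^ m = 1 := by rw [← mul_pow]; norm_num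
      rw [h4, mul_assoc, h5, mul_one]
    have h6 : ((⌊(2 : ℝ) ^ N * (t0 + ρ)⌋ + 1 - ⌊(2 : ℝ) ^ N * (t0 - ρ)⌋ : ℤ) : ℝ) <
        ((2 * 2 ^ (N - m) + 2 : ℤ) : ℝ) := by
      push_cast
      nlinarith
    have h7 : ⌊(2 : ℝ) ^ N * (t0 + ρ)⌋ + 1 - ⌊(2 : ℝ) ^ N * (t0 - ρ)⌋ < 2 * 2 ^ (N - m) + 2 := by
      exact_mod_cast h6
    have h8 : (1 : ℤ) ≤ 2 ^ (N - m) := by
      exact_mod_cast Nat.one_le_two_pow
    zify
    rw [Int.toNat_eq_max, pow_add]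
    rw [max_le_iff]
    constructor
    · linarith
    · positivity
  · rw [Metric.mem_closedBall, dist_eq_norm] at hx
    obtain ⟨ζ, hζ, hζn⟩ := SLT_rep (x - c)
    rw [← hζn] at hx
    have h1 := abs_le.1 hx
    have h2 : ((t0 + ζ : ℝ) : T) = x := by
      rw [AddCircle.coe_add, ht0, KA_t_coe, hζ, add_sub_cancel]
    rw [Finset.mem_image]
    refine ⟨⌊(2 : ℝ) ^ N * (t0 + ζ)⌋, ?_, ?_⟩
    · rw [Finset.mem_Icc]
      constructor
      · apply Int.floor_le_floor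
        apply mul_le_mul_of_nonneg_left _ hN.le
        linarith
      · apply Int.floor_le_floor
        apply mul_le_mul_of_nonneg_left _ hN.le
        linarith
    · rw [← h2]
      apply Fin.ext
      have h3 := KA_floor N (t0 + ζ)
      simp only [g]
      rw [← h3]
      simp

theorem KA_cov {N m K : ℕ} (hm : m ≤ N) {X : Set T} (h : Cov X K ((1 / 2 : ℝ) ^ m)) :
    ∃ A : Finset (Fin (2 ^ N)), A.card ≤ K * 2 ^ (N - m + 2) ∧ ∀ x ∈ X, KA_P N x ∈ A := by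
  classical
  obtain ⟨s, hs, hX⟩ := h
  choose A hA1 hA2 using fun c : T => KA_ball hm c
  refine ⟨s.biUnion A, ?_, fun x hx => ?_⟩
  · calc (s.biUnion A).card ≤ ∑ c ∈ s, (A c).card := Finset.card_biUnion_le
      _ ≤ ∑ _c ∈ s, 2 ^ (N - m + 2) := Finset.sum_le_sum fun c _ => hA1 c
      _ = s.card * 2 ^ (N - m + 2) := by rw [Finset.sum_const, smul_eq_mul]
      _ ≤ K * 2 ^ (N - m + 2) := Nat.mul_le_mul_right _ hs
  · have h1 := hX hx
    simp only [Set.mem_iUnion] at h1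
    obtain ⟨c, hc, hxc⟩ := h1
    exact Finset.mem_biUnion.2 ⟨c, hc, hA2 c x hxc⟩

end Pool.Agent.Half
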