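import Pool.Agent.Half.KCov
import Mathlib.Topology.MetricSpace.HausdorffDimension

/-! Hausdorff measure of an upper limit of sets with few covering balls. -/

open MeasureTheory Filter Topology
open scoped ENNReal NNReal

namespace Pool.Agent.Half

theorem KBC {E : Set T} (Y : ℕ → Set T) (hE : ∀ x ∈ E, ∃ᶠ M in atTop, x ∈ Y M) (R : ℕ → ℝ)
    (hR0 : ∀ M, 0 ≤ R M) (hR : Antitone R) (hRt : Tendsto R atTop (𝓝 0)) (N : ℕ → ℕ)
    (hcov : ∀ M, Cov (Y M) (N M) (R M)) (s : ℝ) (hs : 0 ≤ s)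
    (hsum : Summable fun M => (N M : ℝ) * (2 * R M) ^ s) : Measure.hausdorffMeasure s E = 0 := by
  choose S hS hX using hcov
  have hdiam : ∀ (r : ℝ), 0 ≤ r → ∀ (c : T), Metric.ediam (Metric.closedBall c r) ≤
      ENNReal.ofReal (2 * r) := by
    intro r hr c
    have h1 := Metric.ediam_closedEBall_le (x := c) (r := ENNReal.ofReal r)
    rw [Metric.closedEBall_ofReal hr] at h1
    rwa [ENNReal.ofReal_mul (by norm_num), ENNReal.ofReal_ofNat]
  have hle := MeasureTheory.Measure.hausdorffMeasure_le_liminf_tsum (X := T)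
    (ι := fun n : ℕ => Σ M : ℕ, {c // c ∈ S (n + M)})
    s E (l := atTop) (fun n : ℕ => ENNReal.ofReal (2 * R n))
    (by
      have h1 : Tendsto (fun M : ℕ => 2 * R M) atTop (𝓝 (2 * 0)) := hRt.const_mul 2
      rw [mul_zero] at h1
      have h2 := ENNReal.tendsto_ofReal h1
      rwa [ENNReal.ofReal_zero] at h2)
    (fun n i => Metric.closedBall (i.2 : T) (R (n + i.1)))
    (Eventually.of_forall fun n i => (hdiam _ (hR0 _) _).trans
      (ENNReal.ofReal_le_ofReal (mul_le_mul_of_nonneg_left (hR (Nat.le_add_right _ _)) (by norm_num))))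
    (Eventually.of_forall fun n x hx => by
      obtain ⟨M, hM, hxM⟩ := (hE x hx).forall_exists_of_atTop n
      obtain ⟨j, rfl⟩ := Nat.exists_eq_add_of_le hM
      have h1 := hX _ hxM
      simp only [Set.mem_iUnion] at h1 ⊢
      obtain ⟨c, hc, hxc⟩ := h1
      exact ⟨⟨j, ⟨c, hc⟩⟩, hxc⟩)
  have hbd : ∀ n : ℕ, (∑' i : (Σ M : ℕ, {c // c ∈ S (n + M)}),
      Metric.ediam (Metric.closedBall (i.2 : T) (R (n + i.1))) ^ s) ≤
      ENNReal.ofReal (∑' M : ℕ, (N (M + n) : ℝ) * (2 * R (M + n)) ^ s) := by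
    intro n
    rw [ENNReal.tsum_sigma', ENNReal.ofReal_tsum_of_nonneg
      (fun M => mul_nonneg (Nat.cast_nonneg _) (Real.rpow_nonneg (mul_nonneg (by norm_num) (hR0 _)) _))
      ((summable_nat_add_iff n).2 hsum)]
    refine ENNReal.tsum_le_tsum fun M => ?_
    rw [tsum_fintype]
    calc (∑ c : {c // c ∈ S (n + M)}, Metric.ediam (Metric.closedBall (c : T) (R (n + M))) ^ s)
        ≤ ∑ _c : {c // c ∈ S (n + M)}, ENNReal.ofReal (2 * R (n + M)) ^ s :=
          Finset.sum_le_sum fun c _ => ENNReal.rpow_le_rpow (hdiam _ (hR0 _) _) hs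
      _ = ((S (n + M)).card : ℝ≥0∞) * ENNReal.ofReal (2 * R (n + M)) ^ s := by
          rw [Finset.sum_const, Finset.card_univ, Fintype.card_coe, nsmul_eq_mul]
      _ = ENNReal.ofReal ((S (n + M)).card * (2 * R (n + M)) ^ s) := by
          rw [ENNReal.ofReal_rpow_of_nonneg (mul_nonneg (by norm_num) (hR0 _)) hs,
            ENNReal.ofReal_mul (Nat.cast_nonneg _), ENNReal.ofReal_natCast]
      _ ≤ _ := by
          apply ENNReal.ofReal_le_ofReal
          rw [add_comm M n]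
          exact mul_le_mul_of_nonneg_right (by exact_mod_cast hS _)
            (Real.rpow_nonneg (mul_nonneg (by norm_num) (hR0 _)) _)
  have hlim : Tendsto (fun n : ℕ => ENNReal.ofReal (∑' M : ℕ, (N (M + n) : ℝ) * (2 * R (M + n)) ^ s))
      atTop (𝓝 0) := by
    have h1 := tendsto_sum_nat_add fun M => (N M : ℝ) * (2 * R M) ^ s
    have h2 := ENNReal.tendsto_ofReal h1
    rwa [ENNReal.ofReal_zero] at h2
  refine le_antisymm (hle.trans ?_) bot_le
  refine (liminf_le_liminf (Eventually.of_forall hbd)).trans ?_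
  rw [hlim.liminf_eq]

theorem KBC_dimH {E : Set T} {γ : ℝ≥0} (h : ∀ s : ℝ≥0, γ < s → Measure.hausdorffMeasure (s : ℝ) E = 0) :
    dimH E ≤ γ := by
  by_contra hne
  rw [not_le] at hne
  obtain ⟨d, hd1, hd2⟩ := ENNReal.lt_iff_exists_nnreal_btwn.1 hne
  have h1 : dimH E ≤ d := dimH_le_of_hausdorffMeasure_ne_top (by
    rw [h d (by exact_mod_cast hd1)]
    exact ENNReal.zero_ne_top)
  exact absurd h1 (not_le.2 hd2)

end Pool.Agent.Half
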