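import Pool.Agent.Half.KFull
import Pool.Agent.Half.KBC
import Pool.Agent.Half.SlT

/-! The dimension of the set of points with few good scales. -/

open MeasureTheory Filter Topology
open scoped ENNReal NNReal

namespace Pool.Agent.Half

theorem NoK.mono {X Y : Set T} {k n C : ℕ} (h : NoK X k n C) (hY : Y ⊆ X) : NoK Y k n C :=
  fun x hx => h x fun i => hY (hx i)

/-- the trivial refinement of a covering -/
theorem KC_triv {X : Set T} {n C N : ℕ} (hc : Cov X N ((1 / 2 : ℝ) ^ (n + 1))) :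
    Cov X (N * 2 ^ (C + 1)) ((1 / 2 : ℝ) ^ (n + C + 1)) := by
  classical
  obtain ⟨s, hs, hX⟩ := hc
  set ρ : ℝ := (1 / 2 : ℝ) ^ (n + C + 1) with hρ
  have hρ0 : 0 < ρ := by positivity
  have hR : (1 / 2 : ℝ) ^ (n + 1) = 2 ^ C * ρ := by
    rw [hρ, show n + C + 1 = (n + 1) + C by ring, pow_add (1 / 2 : ℝ) (n + 1) C]
    have : (2 : ℝ) ^ C * (1 / 2) ^ C = 1 := by rw [← mul_pow]; norm_num
    calc (1 / 2 : ℝ) ^ (n + 1) = (1 / 2 : ℝ) ^ (n + 1) * ((2 : ℝ) ^ C * (1 / 2) ^ C) := by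
          rw [this, mul_one]
      _ = _ := by ring
  let g : T → Finset T := fun c => (Finset.range (2 ^ C + 1)).image fun i : ℕ =>
    c + ((-(2 ^ C * ρ) + (2 * i + 1) * ρ : ℝ) : T)
  refine ⟨s.biUnion g, ?_, fun x hx => ?_⟩
  · have h1 : ∀ c, (g c).card ≤ 2 ^ (C + 1) := by
      intro c
      refine Finset.card_image_le.trans ?_
      rw [Finset.card_range, pow_succ]
      have : 1 ≤ 2 ^ C := Nat.one_le_two_pow
      omega
    calc (s.biUnion g).card ≤ ∑ c ∈ s, (g c).card := Finset.card_biUnion_le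
      _ ≤ ∑ _c ∈ s, 2 ^ (C + 1) := Finset.sum_le_sum fun c _ => h1 c
      _ = s.card * 2 ^ (C + 1) := by rw [Finset.sum_const, smul_eq_mul]
      _ ≤ N * 2 ^ (C + 1) := Nat.mul_le_mul_right _ hs
  · have h2 := hX hx
    simp only [Set.mem_iUnion] at h2
    obtain ⟨c, hc, hxc⟩ := h2
    rw [Metric.mem_closedBall, dist_eq_norm, hR] at hxc
    obtain ⟨ζ, hζ, hζn⟩ := SLT_rep (x - c)
    rw [← hζn] at hxc
    have h3 := abs_le.1 hxc
    set i := ⌊(ζ + 2 ^ C * ρ) / (2 * ρ)⌋₊ with hi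
    have h0 : 0 ≤ (ζ + 2 ^ C * ρ) / (2 * ρ) := div_nonneg (by linarith) (by positivity)
    have hi1 : (i : ℝ) ≤ (ζ + 2 ^ C * ρ) / (2 * ρ) := Nat.floor_le h0
    have hi2 : (ζ + 2 ^ C * ρ) / (2 * ρ) < i + 1 := Nat.lt_floor_add_one _
    rw [le_div_iff₀ (by positivity)] at hi1
    rw [div_lt_iff₀ (by positivity)] at hi2
    have hi3 : i < 2 ^ C + 1 := by
      have h4 : (i : ℝ) ≤ 2 ^ C := by
        by_contra hcon
        rw [not_le] at hcon
        have h5 : (2 : ℝ) ^ C * (2 * ρ) < i * (2 * ρ) := mul_lt_mul_of_pos_right hcon (by positivity)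
        linarith
      have h5 : i ≤ 2 ^ C := by exact_mod_cast h4
      omega
    simp only [Set.mem_iUnion]
    refine ⟨_, Finset.mem_biUnion.2 ⟨c, hc, Finset.mem_image_of_mem _ (Finset.mem_range.2 hi3)⟩, ?_⟩
    rw [Metric.mem_closedBall, dist_eq_norm, ← sub_sub, ← hζ, ← AddCircle.coe_sub]
    refine QuotientAddGroup.norm_mk_le_norm.trans ?_
    rw [Real.norm_eq_abs, abs_le]
    constructor <;> nlinarith

theorem KC_union {α : Type*} (I : Finset α) (X : α → Set T) {N : ℕ} {R : ℝ}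
    (h : ∀ i ∈ I, Cov (X i) N R) : Cov (⋃ i ∈ I, X i) (I.card * N) R := by
  classical
  have h' : ∀ i : α, ∃ s : Finset T, i ∈ I → s.card ≤ N ∧ X i ⊆ ⋃ c ∈ s, Metric.closedBall c R := by
    intro i
    by_cases hi : i ∈ I
    · obtain ⟨s, hs⟩ := h i hi
      exact ⟨s, fun _ => hs⟩
    · exact ⟨∅, fun h => absurd h hi⟩
  choose s hs using h'
  refine ⟨I.biUnion s, ?_, fun x hx => ?_⟩
  · calc (I.biUnion s).card ≤ ∑ i ∈ I, (s i).card := Finset.card_biUnion_le
      _ ≤ ∑ _i ∈ I, N := Finset.sum_le_sum fun i hi => (hs i hi).1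
      _ = I.card * N := by rw [Finset.sum_const, smul_eq_mul]
  · simp only [Set.mem_iUnion] at hx
    obtain ⟨i, hi, hxi⟩ := hx
    have h1 := (hs i hi).2 hxi
    simp only [Set.mem_iUnion] at h1 ⊢
    obtain ⟨c, hc, hxc⟩ := h1
    exact ⟨c, Finset.mem_biUnion.2 ⟨i, hi, hc⟩, hxc⟩

/-- covering of the points which are in the sets `bd j`, `j ∈ J` -/
theorem KC_path {bd : ℕ → Set T} {a C k : ℕ} (hno : ∀ j, NoK (bd j) k (a + j * C) (C + 1))
    (J : Finset ℕ) (M : ℕ) :
    Cov {x | ∀ j ∈ J, x ∈ bd j} (2 ^ (a + 1) * (k + 1) ^ M *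
      (2 ^ (C + 1)) ^ ((Finset.range M).filter fun j => j ∉ J).card) ((1 / 2 : ℝ) ^ (a + M * C + 1)) := by
  induction M with
  | zero => simpa using KC_base _ (a + 1)
  | succ M ih =>
    have e2 : a + M * C + (C + 1) = a + (M + 1) * C + 1 := by ring
    have e3 : a + M * C + C + 1 = a + (M + 1) * C + 1 := by ring
    by_cases hM : M ∈ J
    · have h1 := KC_step ((hno M).mono (Y := {x | ∀ j ∈ J, x ∈ bd j}) fun x hx => hx M hM) ih
      rw [e2] at h1
      refine h1.mono ?_ le_rfl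
      have e4 : ((Finset.range (M + 1)).filter fun j => j ∉ J) =
          (Finset.range M).filter fun j => j ∉ J := by
        rw [Finset.range_add_one, Finset.filter_insert, if_neg (not_not.2 hM)]
      rw [e4, pow_succ (k + 1) M]
      calc 2 ^ (a + 1) * (k + 1) ^ M *
            (2 ^ (C + 1)) ^ ((Finset.range M).filter fun j => j ∉ J).card * (k - 1)
          ≤ 2 ^ (a + 1) * (k + 1) ^ M *
            (2 ^ (C + 1)) ^ ((Finset.range M).filter fun j => j ∉ J).card * (k + 1) :=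
            Nat.mul_le_mul_left _ (by omega)
        _ = _ := by ring
    · have h1 := KC_triv (C := C) ih
      rw [e3] at h1
      refine h1.mono ?_ le_rfl
      have e4 : ((Finset.range (M + 1)).filter fun j => j ∉ J).card =
          ((Finset.range M).filter fun j => j ∉ J).card + 1 := by
        rw [Finset.range_add_one, Finset.filter_insert, if_pos hM, Finset.card_insert_of_notMem]
        simp
      rw [e4, pow_succ (k + 1) M, pow_succ (2 ^ (C + 1))]
      calc 2 ^ (a + 1) * (k + 1) ^ M *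
            (2 ^ (C + 1)) ^ ((Finset.range M).filter fun j => j ∉ J).card * 2 ^ (C + 1)
          = 2 ^ (a + 1) * (k + 1) ^ M * 1 *
            ((2 ^ (C + 1)) ^ ((Finset.range M).filter fun j => j ∉ J).card * 2 ^ (C + 1)) := by ring
        _ ≤ 2 ^ (a + 1) * (k + 1) ^ M * (k + 1) *
            ((2 ^ (C + 1)) ^ ((Finset.range M).filter fun j => j ∉ J).card * 2 ^ (C + 1)) :=
            Nat.mul_le_mul_right _ (Nat.mul_le_mul_left _ (by omega))
        _ = _ := by ring

open Classical in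
theorem KC_few {bd : ℕ → Set T} {a C k : ℕ} (hno : ∀ j, NoK (bd j) k (a + j * C) (C + 1)) (M Q : ℕ) :
    Cov {x | ((Finset.range M).filter fun j => x ∉ bd j).card ≤ Q}
      (2 ^ M * (2 ^ (a + 1) * (k + 1) ^ M * (2 ^ (C + 1)) ^ Q)) ((1 / 2 : ℝ) ^ (a + M * C + 1)) := by
  have h1 := KC_union ((Finset.range M).powerset.filter fun J =>
    ((Finset.range M).filter fun j => j ∉ J).card ≤ Q) (fun J => {x | ∀ j ∈ J, x ∈ bd j})
    (N := 2 ^ (a + 1) * (k + 1) ^ M * (2 ^ (C + 1)) ^ Q) (R := (1 / 2 : ℝ) ^ (a + M * C + 1))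
    (fun J hJ => (KC_path hno J M).mono (Nat.mul_le_mul_left _
      (Nat.pow_le_pow_right (by positivity) (by simpa using (Finset.mem_filter.1 hJ).2))) le_rfl)
  obtain ⟨s, hs, hX⟩ := h1
  refine ⟨s, hs.trans (Nat.mul_le_mul_right _ ?_), fun x hx => hX ?_⟩
  · refine (Finset.card_filter_le _ _).trans ?_
    rw [Finset.card_powerset, Finset.card_range]
  · simp only [Set.mem_iUnion]
    refine ⟨(Finset.range M).filter fun j => x ∈ bd j, ?_, fun j hj => (Finset.mem_filter.1 hj).2⟩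
    rw [Finset.mem_filter]
    refine ⟨Finset.mem_powerset.2 (Finset.filter_subset _ _), ?_⟩
    refine le_trans (le_of_eq ?_) hx
    congr 1
    ext j
    simp only [Finset.mem_filter, Finset.mem_range, not_and]
    constructor
    · rintro ⟨h1, h2⟩
      exact ⟨h1, h2 h1⟩
    · rintro ⟨h1, h2⟩
      exact ⟨h1, fun _ => h2⟩

theorem KN_pigeon (P : ℕ → Prop) [DecidablePred P] {C n2 M N : ℕ} (hN : n2 + M * C ≤ N) :
    ∑ i ∈ Finset.range C, ((Finset.range M).filter fun j => P (n2 + i + j * C)).card ≤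
      ((Finset.range N).filter P).card := by
  rw [← Finset.card_sigma]
  refine Finset.card_le_card_of_injOn (fun p => n2 + p.1 + p.2 * C) ?_ ?_
  · rintro ⟨i, j⟩ hp
    simp only [Finset.coe_sigma, Set.mem_sigma_iff, Finset.mem_coe, Finset.mem_range,
      Finset.mem_filter] at hp ⊢
    obtain ⟨hi, hj, hP⟩ := hp
    refine ⟨?_, hP⟩
    have h1 : (j + 1) * C ≤ M * C := Nat.mul_le_mul_right _ hj
    have h2 : (j + 1) * C = j * C + C := by ring
    omega
  · rintro ⟨i, j⟩ hp ⟨i', j'⟩ hp' he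
    simp only [Finset.coe_sigma, Set.mem_sigma_iff, Finset.mem_coe, Finset.mem_range,
      Finset.mem_filter] at hp hp' he
    have hC : 0 < C := by omega
    have h1 : i + j * C = i' + j' * C := by omega
    have h2 : i = i' := by
      have h3 := congrArg (· % C) h1
      simp only [Nat.add_mul_mod_self_right, Nat.mod_eq_of_lt hp.1, Nat.mod_eq_of_lt hp'.1] at h3
      exact h3
    subst h2
    have h4 : j = j' := by
      have h5 : j * C = j' * C := by omega
      exact Nat.eq_of_mul_eq_mul_right hC h5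
    subst h4
    rfl

open Classical in
/-- **Few good scales.** The set of points `x` such that, for infinitely many `N`, at most `γ N` of the slices of scale
`n < N` of `x` are `δ`-close to Lebesgue measure (for the functions of the finite set `F`) has Hausdorff dimension at
most `γ`. -/
theorem dens {r : ℕ → ℕ} (h : Thick r) (F : Finset C(T, ℝ)) (δ : ℝ) (hδ : 0 < δ) (γ : ℝ≥0) :
    dimH {x : T | ∃ᶠ N : ℕ in atTop,
      (((Finset.range N).filter fun n => x ∉ bad r F δ n).card : ℝ) ≤ γ * N} ≤ γ := by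
  obtain ⟨k, ε, hε, n1, hn1⟩ := bad_noK h F δ hδ
  refine KBC_dimH fun s hs => ?_
  have hsγ : (γ : ℝ) < s := hs
  have hγ0 : (0 : ℝ) ≤ γ := γ.2
  -- the step
  have hlt1 : (2 : ℝ) ^ ((γ : ℝ) - s) < 1 := Real.rpow_lt_one_of_one_lt_of_neg (by norm_num) (by linarith)
  have h20 : (0 : ℝ) < 2 ^ ((γ : ℝ) - s) := by positivity
  obtain ⟨C', hC'⟩ := exists_pow_lt_of_lt_one
    (show (0 : ℝ) < 1 / (2 * (k + 1) * 2 ^ (γ : ℝ)) by positivity) hlt1
  set C := C' + 1 with hC
  have hC0 : 0 < C := Nat.succ_pos _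
  have hCR : (0 : ℝ) < C := by exact_mod_cast hC0
  set θ : ℝ := 2 * (k + 1) * 2 ^ (γ : ℝ) * (2 ^ ((γ : ℝ) - s)) ^ C with hθ
  have hθ0 : 0 ≤ θ := by positivity
  have hθ1 : θ < 1 := by
    have h1 : ((2 : ℝ) ^ ((γ : ℝ) - s)) ^ C ≤ (2 ^ ((γ : ℝ) - s)) ^ C' :=
      pow_le_pow_of_le_one h20.le hlt1.le (Nat.le_succ _)
    have h2 : (0 : ℝ) < 2 * (k + 1) * 2 ^ (γ : ℝ) := by positivity
    calc θ < 2 * (k + 1) * 2 ^ (γ : ℝ) * (1 / (2 * (k + 1) * 2 ^ (γ : ℝ))) :=
          mul_lt_mul_of_pos_left (h1.trans_lt hC') h2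
      _ = 1 := mul_one_div_cancel h2.ne'
  have hr' : Tendsto (fun n => ε * (r n : ℝ)) atTop atTop :=
    (tendsto_natCast_atTop_atTop.comp h.tend).const_mul_atTop hε
  obtain ⟨n3, hn3⟩ := eventually_atTop.1 (hr'.eventually_ge_atTop ((C : ℝ) + 1))
  set n2 := max n1 n3 with hn2
  have hno : ∀ n, n2 ≤ n → NoK (bad r F δ n) k n (C + 1) := fun n hn =>
    hn1 n (C + 1) ((le_max_left _ _).trans hn) (by
      push_cast
      exact hn3 n ((le_max_right _ _).trans hn))
  set c0 : ℝ := γ * ((n2 : ℝ) / C + 1) with hc0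
  have hc00 : 0 ≤ c0 := by positivity
  set Q : ℕ → ℕ := fun M => ⌊(γ : ℝ) * M + c0⌋₊ with hQ
  set Y : ℕ → Set T := fun M => ⋃ i ∈ Finset.range C,
    {x | ((Finset.range M).filter fun j => x ∉ bad r F δ (n2 + i + j * C)).card ≤ Q M} with hY
  set R : ℕ → ℝ := fun M => (1 / 2 : ℝ) ^ (n2 + M * C + 1) with hR
  set N : ℕ → ℕ := fun M => C * (2 ^ M * (2 ^ (n2 + C + 1) * (k + 1) ^ M * (2 ^ (C + 1)) ^ (Q M)))
    with hN
  refine KBC Y ?_ R (fun M => by positivity) ?_ ?_ N ?_ s s.2 ?_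
  · -- the pigeonhole
    intro x hx
    have hx1 : ∃ᶠ N : ℕ in atTop,
      (((Finset.range N).filter fun n => x ∉ bad r F δ n).card : ℝ) ≤ γ * N := hx
    rw [frequently_atTop] at hx1 ⊢
    intro M0
    obtain ⟨L, hL, hLx⟩ := hx1 (n2 + C * (M0 + 1))
    set M := (L - n2) / C with hM
    have hCM : C * M0 ≤ C * (M0 + 1) := Nat.mul_le_mul_left _ (Nat.le_succ _)
    have hMM : M0 ≤ M := by
      rw [hM, Nat.le_div_iff_mul_le hC0]
      have : M0 * C = C * M0 := mul_comm _ _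
      omega
    refine ⟨M, hMM, ?_⟩
    have h1 : M * C ≤ L - n2 := Nat.div_mul_le_self _ _
    have h2 : L - n2 < (M + 1) * C := by
      have := Nat.lt_div_mul_add (a := L - n2) hC0
      rw [add_mul, one_mul]
      exact this
    have h3 := KN_pigeon (fun n => x ∉ bad r F δ n) (C := C) (n2 := n2) (M := M) (N := L)
      (by omega)
    by_contra hcon
    simp only [hY, Set.mem_iUnion, Finset.mem_range, not_exists, Set.mem_ofPred_eq, not_le] at hcon
    have h4 : ∀ i ∈ Finset.range C, (γ : ℝ) * M + c0 <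
        (((Finset.range M).filter fun j => x ∉ bad r F δ (n2 + i + j * C)).card : ℝ) := by
      intro i hi
      exact Nat.lt_of_floor_lt (hcon i (Finset.mem_range.1 hi))
    have h5 : (C : ℝ) * ((γ : ℝ) * M + c0) < ((∑ i ∈ Finset.range C,
        ((Finset.range M).filter fun j => x ∉ bad r F δ (n2 + i + j * C)).card : ℕ) : ℝ) := by
      rw [Nat.cast_sum]
      have h6 := Finset.sum_lt_sum_of_nonempty (s := Finset.range C)
        ⟨0, Finset.mem_range.2 hC0⟩ h4
      rwa [Finset.sum_const, Finset.card_range, nsmul_eq_mul] at h6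
    have h7 : (C : ℝ) * ((γ : ℝ) * M + c0) < γ * L :=
      (h5.trans_le (by exact_mod_cast h3)).trans_le hLx
    have h8 : (L : ℝ) ≤ n2 + (M + 1) * C := by
      have : L ≤ n2 + (M + 1) * C := by omega
      exact_mod_cast this
    have h9 : (γ : ℝ) * L ≤ γ * (n2 + (M + 1) * C) := mul_le_mul_of_nonneg_left h8 hγ0
    have h10 : (C : ℝ) * ((γ : ℝ) * M + c0) = γ * (n2 + (M + 1) * C) := by
      rw [hc0]
      field_simp
      ring
    linarith
  · intro M M' hMM
    apply pow_le_pow_of_le_one (by norm_num) (by norm_num)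
    have := Nat.mul_le_mul_right C hMM
    omega
  · have h1 : Tendsto (fun m : ℕ => (1 / 2 : ℝ) ^ m) atTop (𝓝 0) :=
      tendsto_pow_atTop_nhds_zero_of_lt_one (by norm_num) (by norm_num)
    refine h1.comp (tendsto_atTop_mono (fun M => ?_) tendsto_id)
    have : M * 1 ≤ M * C := Nat.mul_le_mul_left _ hC0
    simp only [id]
    omega
  · intro M
    have h1 : Cov (Y M) ((Finset.range C).card *
        (2 ^ M * (2 ^ (n2 + C + 1) * (k + 1) ^ M * (2 ^ (C + 1)) ^ (Q M)))) (R M) := by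
      refine KC_union (Finset.range C) (fun i => {x | ((Finset.range M).filter fun j =>
        x ∉ bad r F δ (n2 + i + j * C)).card ≤ Q M}) fun i hi => ?_
      have h2 := KC_few (bd := fun j => bad r F δ (n2 + i + j * C)) (a := n2 + i) (C := C) (k := k)
        (fun j => hno _ (by omega)) M (Q M)
      refine h2.mono ?_ ?_
      · gcongr
        · norm_num
        · have := Finset.mem_range.1 hi
          omega
      · apply pow_le_pow_of_le_one (by norm_num) (by norm_num)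
        omega
    rwa [Finset.card_range] at h1
  · -- summability
    refine Summable.of_nonneg_of_le (fun M => by positivity) (fun M => ?_)
      ((summable_geometric_of_lt_one hθ0 hθ1).mul_left
        ((C : ℝ) * 2 ^ (n2 + C + 1) * 2 ^ (((C : ℝ) + 1) * c0)))
    have e1 : ((N M : ℕ) : ℝ) = C * (2 ^ M * (2 ^ (n2 + C + 1) * (k + 1) ^ M * (2 ^ (C + 1)) ^ (Q M))) := by
      simp only [hN]
      push_cast
      ring
    have e2 : (2 * R M) ^ (s : ℝ) ≤ ((2 : ℝ) ^ (-(s : ℝ))) ^ (M * C) := by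
      have h1 : 2 * R M ≤ (1 / 2 : ℝ) ^ (M * C) := by
        simp only [hR]
        have h2 : (1 / 2 : ℝ) ^ (n2 + M * C + 1) = (1 / 2 : ℝ) ^ (n2 + M * C) * (1 / 2) := pow_succ _ _
        have h3 : (1 / 2 : ℝ) ^ (n2 + M * C) ≤ (1 / 2 : ℝ) ^ (M * C) :=
          pow_le_pow_of_le_one (by norm_num) (by norm_num) (by omega)
        rw [h2]
        linarith
      refine (Real.rpow_le_rpow (by positivity) h1 s.2).trans (le_of_eq ?_)
      rw [← Real.rpow_pow_comm (by norm_num), one_div, Real.inv_rpow (by norm_num),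
        ← Real.rpow_neg (by norm_num)]
      rfl
    have e3 : ((2 : ℝ) ^ (C + 1)) ^ (Q M) ≤ 2 ^ (((C : ℝ) + 1) * c0) * ((2 : ℝ) ^ (((C : ℝ) + 1) * γ)) ^ M := by
      have h1 : ((Q M : ℕ) : ℝ) ≤ γ * M + c0 := Nat.floor_le (by positivity)
      rw [← pow_mul, ← Real.rpow_natCast, ← Real.rpow_natCast, ← Real.rpow_mul (by norm_num),
        ← Real.rpow_add (by norm_num)]
      apply Real.rpow_le_rpow_of_exponent_le (by norm_num)
      push_cast
      have h2 : ((C : ℝ) + 1) * (Q M : ℕ) ≤ ((C : ℝ) + 1) * (γ * M + c0) :=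
        mul_le_mul_of_nonneg_left h1 (by positivity)
      linarith
    have e4 : θ = 2 * (k + 1) * (2 : ℝ) ^ (((C : ℝ) + 1) * γ) * ((2 : ℝ) ^ (-(s : ℝ))) ^ C := by
      have a1 : (2 : ℝ) ^ (((C : ℝ) + 1) * γ) = 2 ^ (γ : ℝ) * (2 ^ (γ : ℝ)) ^ C := by
        rw [add_mul, one_mul, Real.rpow_add (by norm_num), mul_comm (C : ℝ) (γ : ℝ),
          Real.rpow_mul (by norm_num), Real.rpow_natCast, mul_comm]
      have a2 : (2 : ℝ) ^ ((γ : ℝ) - s) = 2 ^ (γ : ℝ) * 2 ^ (-(s : ℝ)) := by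
        rw [← Real.rpow_add (by norm_num)]
        rfl
      rw [hθ, a1, a2, mul_pow]
      ring
    rw [e1]
    calc (C : ℝ) * (2 ^ M * (2 ^ (n2 + C + 1) * (k + 1) ^ M * (2 ^ (C + 1)) ^ (Q M))) * (2 * R M) ^ (s : ℝ)
        ≤ (C : ℝ) * (2 ^ M * (2 ^ (n2 + C + 1) * (k + 1) ^ M *
            (2 ^ (((C : ℝ) + 1) * c0) * ((2 : ℝ) ^ (((C : ℝ) + 1) * γ)) ^ M))) *
            ((2 : ℝ) ^ (-(s : ℝ))) ^ (M * C) := by
          gcongr
      _ = (C : ℝ) * 2 ^ (n2 + C + 1) * 2 ^ (((C : ℝ) + 1) * c0) * θ ^ M := by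
          rw [e4, mul_pow, mul_pow, mul_pow, ← pow_mul ((2 : ℝ) ^ (-(s : ℝ))) C M, mul_comm C M]
          ring

end Pool.Agent.Half
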