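import Pool.Agent.Half.KCov
import Mathlib.Topology.MetricSpace.HausdorffDimension

/-! Sets without `k` points at comparable distances are very thin: box counting and Hausdorff dimension. -/

open MeasureTheory Filter Topology
open scoped ENNReal NNReal

namespace Pool.Agent.Half

theorem KD_dimH {X : Set T} (h : ∀ s : ℝ, 0 < s → ∃ K : ℝ, ∀ M : ℕ, ∃ N : ℕ,
    (N : ℝ) ≤ K * 2 ^ (s * M) ∧ Cov X N ((1 / 2 : ℝ) ^ M)) : dimH X = 0 := by
  have key : ∀ d : ℝ≥0, 0 < d → dimH X ≤ d := by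
    intro d hd
    have hd' : (0 : ℝ) < d := hd
    obtain ⟨K, hK⟩ := h d hd'
    choose N hN s hs hX using hK
    apply dimH_le_of_hausdorffMeasure_ne_top
    have hlim : Tendsto (fun M : ℕ => ENNReal.ofReal (2 * (1 / 2 : ℝ) ^ M)) atTop (𝓝 0) := by
      have h1 : Tendsto (fun M : ℕ => 2 * (1 / 2 : ℝ) ^ M) atTop (𝓝 (2 * 0)) :=
        (tendsto_pow_atTop_nhds_zero_of_lt_one (by norm_num) (by norm_num)).const_mul 2
      rw [mul_zero] at h1
      have h2 := ENNReal.tendsto_ofReal h1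
      rwa [ENNReal.ofReal_zero] at h2
    have hdiam : ∀ (M : ℕ) (c : T), Metric.ediam (Metric.closedBall c ((1 / 2 : ℝ) ^ M)) ≤
        ENNReal.ofReal (2 * (1 / 2 : ℝ) ^ M) := by
      intro M c
      have h1 := Metric.ediam_closedEBall_le (x := c) (r := ENNReal.ofReal ((1 / 2 : ℝ) ^ M))
      rw [Metric.closedEBall_ofReal (by positivity)] at h1
      rwa [ENNReal.ofReal_mul (by norm_num), ENNReal.ofReal_ofNat]
    have hle := MeasureTheory.Measure.hausdorffMeasure_le_liminf_sum (X := T) (ι := fun M : ℕ => {c // c ∈ s M})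
      (d : ℝ) X (fun M : ℕ => ENNReal.ofReal (2 * (1 / 2 : ℝ) ^ M)) hlim
      (fun M c => Metric.closedBall (c : T) ((1 / 2 : ℝ) ^ M))
      (Eventually.of_forall fun M c => hdiam M c)
      (Eventually.of_forall fun M x hx => by
        have h1 := hX M hx
        simp only [Set.mem_iUnion] at h1 ⊢
        obtain ⟨c, hc, hxc⟩ := h1
        exact ⟨⟨c, hc⟩, hxc⟩)
    have hbd : ∀ M : ℕ, (∑ c : {c // c ∈ s M}, Metric.ediam (Metric.closedBall (c : T) ((1 / 2 : ℝ) ^ M)) ^ (d : ℝ)) ≤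
        ENNReal.ofReal (K * 2 ^ (d : ℝ)) := by
      intro M
      calc (∑ c : {c // c ∈ s M}, Metric.ediam (Metric.closedBall (c : T) ((1 / 2 : ℝ) ^ M)) ^ (d : ℝ))
          ≤ ∑ _c : {c // c ∈ s M}, ENNReal.ofReal (2 * (1 / 2 : ℝ) ^ M) ^ (d : ℝ) :=
            Finset.sum_le_sum fun c _ => ENNReal.rpow_le_rpow (hdiam M c) hd'.le
        _ = ((s M).card : ℝ≥0∞) * ENNReal.ofReal (2 * (1 / 2 : ℝ) ^ M) ^ (d : ℝ) := by
            rw [Finset.sum_const, Finset.card_univ, Fintype.card_coe, nsmul_eq_mul]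
        _ = ENNReal.ofReal ((s M).card * (2 * (1 / 2 : ℝ) ^ M) ^ (d : ℝ)) := by
            rw [ENNReal.ofReal_rpow_of_nonneg (by positivity) hd'.le,
              ENNReal.ofReal_mul (Nat.cast_nonneg _), ENNReal.ofReal_natCast]
        _ ≤ ENNReal.ofReal (K * 2 ^ (d : ℝ)) := by
            apply ENNReal.ofReal_le_ofReal
            have h1 : ((s M).card : ℝ) ≤ K * 2 ^ ((d : ℝ) * M) :=
              le_trans (by exact_mod_cast hs M) (hN M)
            have h2 : (0 : ℝ) ≤ (2 * (1 / 2 : ℝ) ^ M) ^ (d : ℝ) := by positivity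
            refine (mul_le_mul_of_nonneg_right h1 h2).trans (le_of_eq ?_)
            rw [Real.mul_rpow (by norm_num) (by positivity), ← Real.rpow_natCast (1 / 2 : ℝ) M,
              ← Real.rpow_mul (by norm_num), one_div, Real.inv_rpow (by norm_num)]
            have h3 : (2 : ℝ) ^ ((d : ℝ) * M) * ((2 : ℝ) ^ ((M : ℝ) * d))⁻¹ = 1 := by
              rw [mul_comm (M : ℝ) (d : ℝ)]
              exact mul_inv_cancel₀ (by positivity)
            calc K * (2 : ℝ) ^ ((d : ℝ) * M) * ((2 : ℝ) ^ (d : ℝ) * ((2 : ℝ) ^ ((M : ℝ) * d))⁻¹)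
                = K * (2 : ℝ) ^ (d : ℝ) * ((2 : ℝ) ^ ((d : ℝ) * M) * ((2 : ℝ) ^ ((M : ℝ) * d))⁻¹) := by ring
              _ = _ := by rw [h3, mul_one]
    have hfin : Measure.hausdorffMeasure (d : ℝ) X ≤ ENNReal.ofReal (K * 2 ^ (d : ℝ)) := by
      refine hle.trans ((liminf_le_liminf (Eventually.of_forall hbd)).trans ?_)
      rw [liminf_const]
    exact ne_top_of_le_ne_top ENNReal.ofReal_ne_top hfin
  by_contra hne
  obtain ⟨d, hd1, hd2⟩ := ENNReal.lt_iff_exists_nnreal_btwn.1 (pos_iff_ne_zero.2 hne)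
  have hd0 : 0 < d := by exact_mod_cast hd1
  exact absurd (key d hd0) (not_le.2 hd2)

theorem KD_box {X : Set T} {k : ℕ} {r : ℕ → ℕ} (hr : Tendsto r atTop atTop) {ε : ℝ} (hε : 0 < ε)
    {n1 : ℕ} (h : ∀ n C : ℕ, n1 ≤ n → (C : ℝ) ≤ ε * r n → NoK X k n C) (s : ℝ) (hs : 0 < s) :
    ∃ K : ℝ, ∀ M : ℕ, ∃ N : ℕ, (N : ℝ) ≤ K * 2 ^ (s * M) ∧ Cov X N ((1 / 2 : ℝ) ^ M) := by
  have h2s : (1 : ℝ) < 2 ^ s := Real.one_lt_rpow (by norm_num) hs
  obtain ⟨c, hc⟩ := pow_unbounded_of_one_lt (k : ℝ) h2s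
  set C := c + 1 with hC
  have hkC : (k : ℝ) ≤ (2 ^ s) ^ C :=
    hc.le.trans (pow_le_pow_right₀ h2s.le (Nat.le_succ c))
  have hr' : Tendsto (fun n => ε * (r n : ℝ)) atTop atTop :=
    (tendsto_natCast_atTop_atTop.comp hr).const_mul_atTop hε
  obtain ⟨n2, hn2⟩ := eventually_atTop.1 (hr'.eventually_ge_atTop ((C : ℝ) + 1))
  set n0 := max n1 n2 with hn0
  have hno : ∀ n, n0 ≤ n → NoK X k n (C + 1) := fun n hn =>
    h n (C + 1) ((le_max_left _ _).trans hn) (by
      push_cast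
      exact hn2 n ((le_max_right _ _).trans hn))
  refine ⟨2 ^ (n0 + 1) * (2 ^ s) ^ C, fun M => ⟨2 ^ (n0 + 1) * (k - 1) ^ (M / C + 1), ?_, ?_⟩⟩
  · have h1 : (((k - 1 : ℕ) : ℝ)) ≤ (2 ^ s) ^ C :=
      le_trans (by exact_mod_cast Nat.sub_le k 1) hkC
    push_cast
    rw [mul_assoc]
    refine mul_le_mul_of_nonneg_left ?_ (by positivity)
    calc (((k - 1 : ℕ) : ℝ)) ^ (M / C + 1) ≤ (((2 : ℝ) ^ s) ^ C) ^ (M / C + 1) :=
          pow_le_pow_left₀ (Nat.cast_nonneg _) h1 _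
      _ = ((2 : ℝ) ^ s) ^ (C * (M / C)) * ((2 : ℝ) ^ s) ^ C := by
          rw [← pow_mul, mul_add, mul_one, pow_add]
      _ ≤ ((2 : ℝ) ^ s) ^ M * ((2 : ℝ) ^ s) ^ C :=
          mul_le_mul_of_nonneg_right (pow_le_pow_right₀ h2s.le (Nat.mul_div_le M C)) (by positivity)
      _ = ((2 : ℝ) ^ s) ^ C * 2 ^ (s * M) := by
          rw [mul_comm, Real.rpow_mul (by norm_num), Real.rpow_natCast]
  · have h1 := KC_iter (M / C + 1) (fun i _ => hno (n0 + i * C) (Nat.le_add_right _ _))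
      (KC_base X (n0 + 1))
    refine h1.mono le_rfl ?_
    apply pow_le_pow_of_le_one (by norm_num) (by norm_num)
    have h2 := Nat.div_add_mod M C
    have h3 := Nat.mod_lt M (show 0 < C by omega)
    have h4 : (M / C + 1) * C = C * (M / C) + C := by ring
    omega

private theorem kd_log (κ : ℝ) (hκ : 0 ≤ κ) :
    ∃ c : ℝ, 0 < c ∧ ∀ M : ℝ, 1 ≤ M → (Real.log M) ^ κ ≤ c * Real.sqrt M := by
  set e : ℝ := 1 / (2 * (κ + 1)) with he
  have he0 : 0 < e := by positivity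
  refine ⟨(1 / e) ^ κ, by positivity, fun M hM => ?_⟩
  have h1 := Real.log_le_rpow_div (by linarith : (0 : ℝ) ≤ M) he0
  have h2 : e * κ ≤ 1 / 2 := by
    rw [he, div_mul_eq_mul_div, one_mul, div_le_iff₀ (by positivity)]
    linarith
  calc (Real.log M) ^ κ ≤ (M ^ e / e) ^ κ := Real.rpow_le_rpow (Real.log_nonneg hM) h1 hκ
    _ = (1 / e) ^ κ * M ^ (e * κ) := by
        rw [div_eq_mul_one_div, Real.mul_rpow (by positivity) (by positivity), mul_comm,
          ← Real.rpow_mul (by linarith)]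
    _ ≤ (1 / e) ^ κ * M ^ (1 / 2 : ℝ) :=
        mul_le_mul_of_nonneg_left (Real.rpow_le_rpow_of_exponent_le hM h2) (by positivity)
    _ = (1 / e) ^ κ * Real.sqrt M := by rw [Real.sqrt_eq_rpow]

/-- If the width of the slices is at least `a (log n) ^ κ`: coverings by `exp (K M / (log M) ^ κ)` arcs of length
`2 ^ (-M)`. -/
theorem KD_gauge {X : Set T} {k : ℕ} {r : ℕ → ℕ} {a κ : ℝ} (ha : 0 < a) (hκ : 0 ≤ κ)
    (har : ∀ n : ℕ, a * (Real.log (n + 2)) ^ κ ≤ r n) {ε : ℝ} (hε : 0 < ε)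
    {n1 : ℕ} (h : ∀ n C : ℕ, n1 ≤ n → (C : ℝ) ≤ ε * r n → NoK X k n C) :
    ∃ K : ℝ, ∀ M : ℕ, 2 ≤ M → ∃ N : ℕ, (N : ℝ) ≤ Real.exp (K * (M / (Real.log M) ^ κ)) ∧
      Cov X N ((1 / 2 : ℝ) ^ M) := by
  obtain ⟨c, hc0, hc⟩ := kd_log κ hκ
  set b : ℝ := ε * a / (2 * 2 ^ κ) with hb
  have hb0 : 0 < b := by positivity
  set K : ℝ := (n1 + 2) * c + k * (1 / b + c) + 2 / b with hK
  have hk0 : (0 : ℝ) ≤ k := Nat.cast_nonneg _
  have hn10 : (0 : ℝ) ≤ n1 := Nat.cast_nonneg _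
  refine ⟨K, fun M hM => ?_⟩
  have hM2 : (2 : ℝ) ≤ M := by exact_mod_cast hM
  have hM0 : (0 : ℝ) < M := by linarith
  have hlogM : 0 < Real.log M := Real.log_pos (by linarith)
  set L : ℝ := (Real.log M) ^ κ with hL
  have hL0 : 0 < L := Real.rpow_pos_of_pos hlogM κ
  set Q : ℝ := M / L with hQ
  have hQ0 : 0 < Q := div_pos hM0 hL0
  have hsq1 : 1 ≤ Real.sqrt M := by
    rw [show (1 : ℝ) = Real.sqrt 1 by simp]
    exact Real.sqrt_le_sqrt (by linarith)
  have hsq : Real.sqrt M ≤ c * Q := by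
    rw [hQ, ← mul_div_assoc, le_div_iff₀ hL0]
    have h9 : Real.sqrt M * Real.sqrt M = M := Real.mul_self_sqrt hM0.le
    have h10 : Real.sqrt M * L ≤ Real.sqrt M * (c * Real.sqrt M) :=
      mul_le_mul_of_nonneg_left (hc M (by linarith)) (Real.sqrt_nonneg _)
    calc Real.sqrt M * L ≤ Real.sqrt M * (c * Real.sqrt M) := h10
      _ = c * (Real.sqrt M * Real.sqrt M) := by ring
      _ = c * M := by rw [h9]
  have hl2 : Real.log 2 ≤ 1 := by
    have := Real.log_two_lt_d9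
    linarith
  by_cases hsm : b * L < 2
  · refine ⟨2 ^ M, ?_, KC_base X M⟩
    have h1 : ((2 ^ M : ℕ) : ℝ) = Real.exp (M * Real.log 2) := by
      push_cast
      rw [← Real.rpow_natCast, Real.rpow_def_of_pos (by norm_num), mul_comm]
    rw [h1]
    apply Real.exp_le_exp.2
    have h2 : (M : ℝ) ≤ 2 / b * Q := by
      rw [hQ, div_mul_div_comm, le_div_iff₀ (by positivity)]
      have : (M : ℝ) * (b * L) ≤ M * 2 := mul_le_mul_of_nonneg_left hsm.le hM0.le
      linarith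
    have h3 : 2 / b * Q ≤ K * Q := by
      apply mul_le_mul_of_nonneg_right _ hQ0.le
      have : 0 ≤ ((n1 : ℝ) + 2) * c + k * (1 / b + c) := by positivity
      rw [hK]
      linarith
    have h4 : (M : ℝ) * Real.log 2 ≤ M * 1 := mul_le_mul_of_nonneg_left hl2 hM0.le
    linarith
  · rw [not_lt] at hsm
    set n := n1 + Nat.sqrt M with hn
    set C := ⌊2 * b * L⌋₊ - 1 with hC
    have hfl : 4 ≤ ⌊2 * b * L⌋₊ := Nat.le_floor (by push_cast; linarith)
    have hfl1 : (⌊2 * b * L⌋₊ : ℝ) ≤ 2 * b * L := Nat.floor_le (by positivity)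
    have hfl2 : 2 * b * L < ⌊2 * b * L⌋₊ + 1 := Nat.lt_floor_add_one _
    have hC1 : C + 1 = ⌊2 * b * L⌋₊ := by omega
    have hCcast : (C : ℝ) + 1 = (⌊2 * b * L⌋₊ : ℝ) := by exact_mod_cast hC1
    have hCle : ((C + 1 : ℕ) : ℝ) ≤ 2 * b * L := by rw [hC1]; exact hfl1
    have hCge : b * L ≤ C := by linarith
    have hCpos : 0 < C := by omega
    have hCposR : (0 : ℝ) < C := by exact_mod_cast hCpos
    have hno : ∀ n', n ≤ n' → NoK X k n' (C + 1) := by
      intro n' hn'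
      refine h n' (C + 1) (by omega) (hCle.trans ?_)
      have h1 := har n'
      have h2 : Real.log M / 2 ≤ Real.log ((n' : ℝ) + 2) := by
        have h3 : (M : ℝ) ≤ ((n' : ℝ) + 2) ^ 2 := by
          have h4 : M < (Nat.sqrt M + 1) * (Nat.sqrt M + 1) := Nat.lt_succ_sqrt M
          have h5 : Nat.sqrt M + 1 ≤ n' + 2 := by omega
          have h6 : M ≤ (n' + 2) * (n' + 2) := h4.le.trans (Nat.mul_le_mul h5 h5)
          have h7 : (M : ℝ) ≤ ((n' + 2 : ℕ) : ℝ) * ((n' + 2 : ℕ) : ℝ) := by exact_mod_cast h6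
          push_cast at h7
          nlinarith
        have h8 := Real.log_le_log hM0 h3
        rw [Real.log_pow] at h8
        push_cast at h8
        linarith
      have h3 : (Real.log M / 2) ^ κ ≤ (Real.log ((n' : ℝ) + 2)) ^ κ :=
        Real.rpow_le_rpow (by positivity) h2 hκ
      have h9 : ε * (a * (Real.log M / 2) ^ κ) ≤ ε * r n' :=
        mul_le_mul_of_nonneg_left ((mul_le_mul_of_nonneg_left h3 ha.le).trans h1) hε.le
      have h10 : 2 * b * L = ε * (a * (Real.log M / 2) ^ κ) := by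
        rw [Real.div_rpow hlogM.le (by norm_num), hb, hL]
        field_simp
      rw [h10]
      exact h9
    refine ⟨2 ^ (n + 1) * (k - 1) ^ (M / C + 1), ?_, ?_⟩
    · have h1 : (((k - 1 : ℕ) : ℝ)) ≤ Real.exp k := by
        have : (((k - 1 : ℕ) : ℝ)) ≤ k := by exact_mod_cast Nat.sub_le k 1
        linarith [Real.add_one_le_exp (k : ℝ)]
      have h2 : ((2 : ℝ)) ^ (n + 1) ≤ Real.exp ((n : ℝ) + 1) := by
        rw [← Real.rpow_natCast, Real.rpow_def_of_pos (by norm_num)]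
        apply Real.exp_le_exp.2
        push_cast
        have : (0 : ℝ) ≤ (n : ℝ) + 1 := by positivity
        calc Real.log 2 * ((n : ℝ) + 1) ≤ 1 * ((n : ℝ) + 1) := mul_le_mul_of_nonneg_right hl2 this
          _ = (n : ℝ) + 1 := one_mul _
      have h3 : (((k - 1 : ℕ) : ℝ)) ^ (M / C + 1) ≤ Real.exp (k * ((M : ℝ) / C + 1)) := by
        refine (pow_le_pow_left₀ (Nat.cast_nonneg _) h1 _).trans ?_
        rw [← Real.exp_nat_mul]
        apply Real.exp_le_exp.2
        push_cast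
        have h4 : ((M / C : ℕ) : ℝ) ≤ (M : ℝ) / C := Nat.cast_div_le
        calc (((M / C : ℕ) : ℝ) + 1) * k ≤ ((M : ℝ) / C + 1) * k :=
              mul_le_mul_of_nonneg_right (by linarith) hk0
          _ = k * ((M : ℝ) / C + 1) := mul_comm _ _
      push_cast
      refine (mul_le_mul h2 h3 (by positivity) (by positivity)).trans ?_
      rw [← Real.exp_add]
      apply Real.exp_le_exp.2
      have h5 : (M : ℝ) / C ≤ 1 / b * Q := by
        rw [hQ, div_mul_div_comm, one_mul]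
        exact div_le_div_of_nonneg_left hM0.le (by positivity) hCge
      have h6 : (Nat.sqrt M : ℝ) ≤ Real.sqrt M := Real.nat_sqrt_le_real_sqrt
      have h7 : (n : ℝ) = n1 + (Nat.sqrt M : ℝ) := by rw [hn]; push_cast; ring
      have h8 : (k : ℝ) * ((M : ℝ) / C + 1) ≤ k * (1 / b * Q + c * Q) :=
        mul_le_mul_of_nonneg_left (add_le_add h5 (hsq1.trans hsq)) hk0
      have h9 : K * Q = (n1 + 2) * (c * Q) + k * (1 / b * Q + c * Q) + 2 / b * Q := by
        rw [hK]; ring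
      have h10 : (n : ℝ) + 1 ≤ (n1 + 2) * (c * Q) := by
        calc (n : ℝ) + 1 ≤ (n1 + 2) * Real.sqrt M := by
              have e1 : (n1 : ℝ) * 1 ≤ n1 * Real.sqrt M := mul_le_mul_of_nonneg_left hsq1 hn10
              rw [h7]
              linarith
          _ ≤ (n1 + 2) * (c * Q) := mul_le_mul_of_nonneg_left hsq (by linarith)
      have h11 : 0 < 2 / b * Q := by positivity
      rw [h9]
      linarith
    · have h1 := KC_iter (M / C + 1) (fun i _ => hno (n + i * C) (Nat.le_add_right _ _))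
        (KC_base X (n + 1))
      refine h1.mono le_rfl ?_
      apply pow_le_pow_of_le_one (by norm_num) (by norm_num)
      have h2 := Nat.div_add_mod M C
      have h3 := Nat.mod_lt M hCpos
      have h4 : (M / C + 1) * C = C * (M / C) + C := by ring
      omega

end Pool.Agent.Half
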