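import Mathlib

/-! Entropy of a finite partition when every class of another partition meets few of its classes. -/

open MeasureTheory Filter Topology

namespace Pool.Agent.Half

/-- Gibbs' inequality for one term. -/
private theorem kg_term {p w : ℝ} (hp : 0 ≤ p) (hw : 0 < w) :
    Real.negMulLog p ≤ p * (-Real.log w) + (w - p) := by
  rcases hp.eq_or_lt with rfl | hp
  · simp [hw.le]
  · have h1 : Real.log (w / p) ≤ w / p - 1 := Real.log_le_sub_one_of_pos (div_pos hw hp)
    rw [Real.log_div hw.ne' hp.ne'] at h1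
    have h2 := mul_le_mul_of_nonneg_left h1 hp.le
    have h3 : p * (w / p - 1) = w - p := by
      field_simp
    rw [h3] at h2
    unfold Real.negMulLog
    linarith

theorem KG_split {Ω β : Type*} [MeasurableSpace Ω] [Fintype β] (μ : Measure Ω) [IsProbabilityMeasure μ]
    (Q : Ω → β) (hQ : ∀ b, MeasurableSet (Q ⁻¹' {b})) (S : Set Ω) (hS : MeasurableSet S) :
    μ.real S = ∑ b, μ.real (S ∩ Q ⁻¹' {b}) := by
  have h1 : S = ⋃ b ∈ (Finset.univ : Finset β), (S ∩ Q ⁻¹' {b}) := by
    ext x
    simp
  have h2 : μ.real (⋃ b ∈ (Finset.univ : Finset β), (S ∩ Q ⁻¹' {b})) = ∑ b, μ.real (S ∩ Q ⁻¹' {b}) := by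
    apply measureReal_biUnion_finset
    · intro b _ b' _ hbb
      refine Set.disjoint_left.2 ?_
      rintro x ⟨_, h2⟩ ⟨_, h3⟩
      exact hbb (h2.symm.trans h3)
    · exact fun b _ => hS.inter (hQ b)
    · exact fun b _ => measure_ne_top μ _
  rw [← h2, ← h1]

theorem KG_ent {Ω α β : Type*} [MeasurableSpace Ω] [Fintype α] [Fintype β] [Nonempty β] (μ : Measure Ω)
    [IsProbabilityMeasure μ] (P : Ω → α) (Q : Ω → β) (hP : ∀ a, MeasurableSet (P ⁻¹' {a}))
    (hQ : ∀ b, MeasurableSet (Q ⁻¹' {b})) (M : β → ℝ) (hM1 : ∀ b, 1 ≤ M b)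
    (hM : ∀ b, ∃ A : Finset α, (A.card : ℝ) ≤ M b ∧ ∀ x, Q x = b → P x ∈ A) :
    ∑ a, Real.negMulLog (μ.real (P ⁻¹' {a})) ≤
      Real.log (Fintype.card β) + ∑ b, μ.real (Q ⁻¹' {b}) * Real.log (M b) := by
  classical
  choose A hA1 hA2 using hM
  have hβ : (0 : ℝ) < Fintype.card β := by exact_mod_cast Fintype.card_pos
  have hM0 : ∀ b, 0 < M b := fun b => lt_of_lt_of_le one_pos (hM1 b)
  let q : α → β → ℝ := fun a b => μ.real (P ⁻¹' {a} ∩ Q ⁻¹' {b})
  let w : α → ℝ := fun a => ∑ b, if a ∈ A b then 1 / (Fintype.card β * M b) else 0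
  have hw0 : ∀ a, 0 ≤ w a := fun a => Finset.sum_nonneg fun b _ => by
    have := hM0 b
    split_ifs <;> positivity
  have hwsum : ∑ a, w a ≤ 1 := by
    calc ∑ a, w a = ∑ b, ∑ a, (if a ∈ A b then 1 / (Fintype.card β * M b) else 0) := Finset.sum_comm
      _ = ∑ b, ((A b).card : ℝ) * (1 / (Fintype.card β * M b)) := by
          refine Finset.sum_congr rfl fun b _ => ?_
          rw [← Finset.sum_filter, Finset.sum_const, nsmul_eq_mul]
          simp
      _ ≤ ∑ _b : β, 1 / (Fintype.card β : ℝ) := by
          refine Finset.sum_le_sum fun b _ => ?_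
          have h1 := hM0 b
          calc ((A b).card : ℝ) * (1 / (Fintype.card β * M b)) ≤ M b * (1 / (Fintype.card β * M b)) :=
                mul_le_mul_of_nonneg_right (hA1 b) (by positivity)
            _ = 1 / (Fintype.card β : ℝ) := by field_simp
      _ = 1 := by
          rw [Finset.sum_const, Finset.card_univ, nsmul_eq_mul]
          field_simp
  have hq0 : ∀ a b, 0 ≤ q a b := fun a b => measureReal_nonneg
  have hqA : ∀ a b, a ∉ A b → q a b = 0 := by
    intro a b hab
    have : P ⁻¹' {a} ∩ Q ⁻¹' {b} = ∅ := by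
      ext x
      simp only [Set.mem_inter_iff, Set.mem_preimage, Set.mem_singleton_iff, Set.mem_empty_iff_false,
        iff_false, not_and]
      rintro rfl rfl
      exact hab (hA2 _ x rfl)
    simp [q, this]
  have hsumb : ∀ a, μ.real (P ⁻¹' {a}) = ∑ b, q a b := fun a => KG_split μ Q hQ _ (hP a)
  have hsuma : ∀ b, μ.real (Q ⁻¹' {b}) = ∑ a, q a b := by
    intro b
    rw [KG_split μ P hP _ (hQ b)]
    exact Finset.sum_congr rfl fun a _ => by rw [Set.inter_comm]
  have hone : ∑ a, μ.real (P ⁻¹' {a}) = 1 := by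
    have h2 := KG_split μ P hP Set.univ MeasurableSet.univ
    simp only [Set.univ_inter] at h2
    rw [← h2]
    simp
  -- each term
  have hterm : ∀ a, Real.negMulLog (μ.real (P ⁻¹' {a})) ≤
      ∑ b, q a b * (Real.log (Fintype.card β) + Real.log (M b)) + (w a - μ.real (P ⁻¹' {a})) := by
    intro a
    rcases (hw0 a).eq_or_lt with h0 | hpos
    · -- `w a = 0`: then `a` belongs to no `A b`
      have h1 : ∀ b, a ∉ A b := by
        intro b hb
        have h2 := (Finset.sum_eq_zero_iff_of_nonneg (fun b _ => by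
          have := hM0 b
          split_ifs <;> positivity)).1 h0.symm b (Finset.mem_univ b)
        rw [if_pos hb] at h2
        have h3 : 0 < 1 / ((Fintype.card β : ℝ) * M b) := by
          have := hM0 b
          positivity
        linarith
      have h2 : μ.real (P ⁻¹' {a}) = 0 := by
        rw [hsumb]
        exact Finset.sum_eq_zero fun b _ => hqA a b (h1 b)
      rw [h2, ← h0]
      simp only [Real.negMulLog_zero, sub_self, add_zero]
      exact Finset.sum_nonneg fun b _ => mul_nonneg (hq0 a b)
        (add_nonneg (Real.log_nonneg (by exact_mod_cast Fintype.card_pos)) (Real.log_nonneg (hM1 b)))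
    · refine (kg_term measureReal_nonneg hpos).trans ?_
      gcongr
      rw [hsumb, Finset.sum_mul]
      refine Finset.sum_le_sum fun b _ => ?_
      by_cases hab : a ∈ A b
      · refine mul_le_mul_of_nonneg_left ?_ (hq0 a b)
        have h1 : 1 / (Fintype.card β * M b) ≤ w a := by
          have h2 := Finset.single_le_sum (f := fun b => if a ∈ A b then
            1 / ((Fintype.card β : ℝ) * M b) else 0) (fun b _ => by
              have := hM0 b
              split_ifs <;> positivity) (Finset.mem_univ b)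
          simpa only [if_pos hab] using h2
        have h3 : 0 < 1 / ((Fintype.card β : ℝ) * M b) := by
          have := hM0 b
          positivity
        have h4 := Real.log_le_log h3 h1
        rw [one_div, Real.log_inv, Real.log_mul hβ.ne' (hM0 b).ne'] at h4
        linarith
      · rw [hqA a b hab]
        simp
  calc ∑ a, Real.negMulLog (μ.real (P ⁻¹' {a}))
      ≤ ∑ a, (∑ b, q a b * (Real.log (Fintype.card β) + Real.log (M b)) +
          (w a - μ.real (P ⁻¹' {a}))) := Finset.sum_le_sum fun a _ => hterm a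
    _ = ∑ b, μ.real (Q ⁻¹' {b}) * (Real.log (Fintype.card β) + Real.log (M b)) +
          (∑ a, w a - 1) := by
        rw [Finset.sum_add_distrib, Finset.sum_sub_distrib, hone, Finset.sum_comm]
        congr 1
        refine Finset.sum_congr rfl fun b _ => ?_
        rw [hsuma, Finset.sum_mul]
    _ ≤ ∑ b, μ.real (Q ⁻¹' {b}) * (Real.log (Fintype.card β) + Real.log (M b)) := by linarith
    _ = Real.log (Fintype.card β) + ∑ b, μ.real (Q ⁻¹' {b}) * Real.log (M b) := by
        have h1 : ∑ b, μ.real (Q ⁻¹' {b}) = 1 := by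
          have h2 := KG_split μ Q hQ Set.univ MeasurableSet.univ
          simp only [Set.univ_inter] at h2
          rw [← h2]
          simp
        simp only [mul_add]
        rw [Finset.sum_add_distrib, ← Finset.sum_mul, h1, one_mul]

end Pool.Agent.Half
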