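import Pool.Agent.Half.KDens
import Pool.Agent.Half.KGib
import Pool.Agent.Half.KArc
import Pool.Agent.Half.KPow

/-! The entropy of a measure at scale `N` is bounded by the number of scales whose slices are close to Lebesgue measure. -/

open MeasureTheory Filter Topology
open scoped ENNReal NNReal

namespace Pool.Agent.Half

private theorem ke_block (φ : ℕ → ℝ) (A C M : ℕ) :
    ∑ j ∈ Finset.range M, ∑ i ∈ Finset.range C, φ (A + i + j * C) = ∑ n ∈ Finset.range (M * C), φ (A + n) := by
  induction M with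
  | zero => simp
  | succ M ih =>
    rw [Finset.sum_range_succ, ih, add_mul, one_mul, Finset.sum_range_add]
    congr 1
    exact Finset.sum_congr rfl fun i _ => by congr 1; ring

private theorem ke_double (φ : ℕ → ℝ) (hφ : ∀ n, 0 ≤ φ n) {A C M N : ℕ} (h : A + M * C ≤ N) :
    ∑ i ∈ Finset.range C, ∑ j ∈ Finset.range M, φ (A + i + j * C) ≤ ∑ n ∈ Finset.range N, φ n := by
  rw [Finset.sum_comm, ke_block]
  calc ∑ n ∈ Finset.range (M * C), φ (A + n)
      ≤ ∑ n ∈ Finset.range A, φ n + ∑ n ∈ Finset.range (M * C), φ (A + n) :=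
        le_add_of_nonneg_left (Finset.sum_nonneg fun n _ => hφ n)
    _ = ∑ n ∈ Finset.range (A + M * C), φ n := (Finset.sum_range_add _ _ _).symm
    _ ≤ ∑ n ∈ Finset.range N, φ n :=
        Finset.sum_le_sum_of_subset_of_nonneg (Finset.range_subset_range.2 h) fun n _ _ => hφ n

theorem KE_triv (μ : Measure T) [IsProbabilityMeasure μ] (N : ℕ) : entN μ N ≤ N * Real.log 2 := by
  rw [KA_ent]
  have h := KG_ent μ (KA_P N) (fun _ : T => ()) (KA_meas N) (fun _ => by simp) (fun _ => (2 : ℝ) ^ N)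
    (fun _ => one_le_pow₀ (by norm_num)) (fun _ => ⟨Finset.univ, by simp, fun x _ => Finset.mem_univ _⟩)
  refine h.trans (le_of_eq ?_)
  simp

open Classical in
/-- one system of windows -/
private theorem ke_one (μ : Measure T) [IsProbabilityMeasure μ] {bd : ℕ → Set T}
    (hB : ∀ j, MeasurableSet (bd j)) {k a C N M : ℕ} (hno : ∀ j, NoK (bd j) k (a + j * C) (C + 1))
    (hM : a + M * C + 1 ≤ N) :
    entN μ N ≤ M * (Real.log 2 + Real.log (k + 1)) + ((N : ℝ) - M * C + 2) * Real.log 2 +
      (C + 1) * Real.log 2 * ∑ j ∈ Finset.range M, μ.real (bd j)ᶜ := by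
  rw [KA_ent]
  set β := {J // J ∈ (Finset.range M).powerset} with hβ
  let Q : T → β := fun x => ⟨(Finset.range M).filter fun j => x ∈ bd j,
    Finset.mem_powerset.2 (Finset.filter_subset _ _)⟩
  have hne : Nonempty β := ⟨⟨∅, Finset.empty_mem_powerset _⟩⟩
  have hQ1 : ∀ (J : β) (x : T), Q x = J ↔ ∀ j ∈ Finset.range M, (x ∈ bd j ↔ j ∈ J.1) := by
    rintro ⟨J, hJ⟩ x
    have hJ' := Finset.mem_powerset.1 hJ
    constructor
    · intro h j hj
      have h' : (Finset.range M).filter (fun j => x ∈ bd j) = J := congrArg Subtype.val h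
      show x ∈ bd j ↔ j ∈ J
      rw [← h', Finset.mem_filter]
      exact ⟨fun h => ⟨hj, h⟩, fun h => h.2⟩
    · intro h
      apply Subtype.ext
      ext j
      simp only [Q]
      rw [Finset.mem_filter]
      constructor
      · rintro ⟨h1, h2⟩
        exact (h j h1).1 h2
      · intro h1
        exact ⟨hJ' h1, (h j (hJ' h1)).2 h1⟩
  have hQ : ∀ J : β, MeasurableSet (Q ⁻¹' {J}) := by
    intro J
    have h1 : Q ⁻¹' {J} = ⋂ j ∈ Finset.range M, if j ∈ J.1 then bd j else (bd j)ᶜ := by
      ext x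
      simp only [Set.mem_preimage, Set.mem_singleton_iff, Set.mem_iInter]
      rw [hQ1]
      refine forall₂_congr fun j _ => ?_
      split_ifs with h2 <;> simp [h2]
    rw [h1]
    refine Finset.measurableSet_biInter _ fun j _ => ?_
    split_ifs
    · exact hB j
    · exact (hB j).compl
  let g : β → ℕ := fun J => ((Finset.range M).filter fun j => j ∉ J.1).card
  have hlog2 : 0 ≤ Real.log 2 := Real.log_nonneg (by norm_num)
  have h := KG_ent μ (KA_P N) Q (KA_meas N) hQ
    (fun J => ((2 ^ (a + 1) * (k + 1) ^ M * (2 ^ (C + 1)) ^ g J * 2 ^ (N - (a + M * C + 1) + 2) : ℕ) : ℝ))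
    (fun J => by
      have : 0 < 2 ^ (a + 1) * (k + 1) ^ M * (2 ^ (C + 1)) ^ g J * 2 ^ (N - (a + M * C + 1) + 2) := by
        positivity
      exact_mod_cast this)
    (fun J => by
      obtain ⟨A, hA1, hA2⟩ := KA_cov hM (KC_path hno J.1 M)
      refine ⟨A, Nat.cast_le.2 hA1, fun x hx => hA2 x ?_⟩
      intro j hj
      exact ((hQ1 J x).1 hx j (Finset.mem_powerset.1 J.2 hj)).2 hj)
  refine h.trans ?_
  have hcard : Real.log (Fintype.card β) = M * Real.log 2 := by
    rw [Fintype.card_coe, Finset.card_powerset, Finset.card_range]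
    push_cast
    rw [Real.log_pow]
  have hlogM : ∀ J : β, Real.log (((2 ^ (a + 1) * (k + 1) ^ M * (2 ^ (C + 1)) ^ g J *
      2 ^ (N - (a + M * C + 1) + 2) : ℕ) : ℝ)) =
      ((N : ℝ) - M * C + 2) * Real.log 2 + M * Real.log (k + 1) + (C + 1) * Real.log 2 * g J := by
    intro J
    push_cast
    have hk : (0 : ℝ) < (k : ℝ) + 1 := by positivity
    rw [Real.log_mul (by positivity) (by positivity), Real.log_mul (by positivity) (by positivity),
      Real.log_mul (by positivity) (by positivity), Real.log_pow, Real.log_pow, Real.log_pow,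
      Real.log_pow, Real.log_pow]
    push_cast [Nat.cast_sub hM]
    ring
  have hone : ∑ J : β, μ.real (Q ⁻¹' {J}) = 1 := by
    have h2 := KG_split μ Q hQ Set.univ MeasurableSet.univ
    simp only [Set.univ_inter] at h2
    rw [← h2]
    simp
  have hg : ∑ J : β, μ.real (Q ⁻¹' {J}) * g J = ∑ j ∈ Finset.range M, μ.real (bd j)ᶜ := by
    have h1 : ∀ J : β, μ.real (Q ⁻¹' {J}) * g J =
        ∑ j ∈ Finset.range M, if j ∈ J.1 then 0 else μ.real (Q ⁻¹' {J}) := by
      intro J
      rw [show g J = ((Finset.range M).filter fun j => j ∉ J.1).card from rfl, Finset.card_filter]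
      push_cast
      rw [Finset.mul_sum]
      refine Finset.sum_congr rfl fun j _ => ?_
      split_ifs <;> simp_all
    simp only [h1]
    rw [Finset.sum_comm]
    refine Finset.sum_congr rfl fun j hj => ?_
    rw [KG_split μ Q hQ _ (hB j).compl]
    refine Finset.sum_congr rfl fun J _ => ?_
    split_ifs with h2
    · have : (bd j)ᶜ ∩ Q ⁻¹' {J} = ∅ := by
        ext x
        simp only [Set.mem_inter_iff, Set.mem_compl_iff, Set.mem_preimage, Set.mem_singleton_iff,
          Set.mem_empty_iff_false, iff_false, not_and]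
        intro h3 h4
        exact h3 (((hQ1 J x).1 h4 j hj).2 h2)
      simp [this]
    · have : (bd j)ᶜ ∩ Q ⁻¹' {J} = Q ⁻¹' {J} := by
        refine Set.inter_eq_right.2 fun x hx => ?_
        intro h3
        exact h2 (((hQ1 J x).1 hx j hj).1 h3)
      rw [this]
  simp only [hlogM]
  rw [hcard]
  have e1 : ∑ J : β, μ.real (Q ⁻¹' {J}) * (((N : ℝ) - M * C + 2) * Real.log 2 + M * Real.log (k + 1) +
      (C + 1) * Real.log 2 * g J) = (((N : ℝ) - M * C + 2) * Real.log 2 + M * Real.log (k + 1)) *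
        ∑ J : β, μ.real (Q ⁻¹' {J}) + (C + 1) * Real.log 2 * ∑ J : β, μ.real (Q ⁻¹' {J}) * g J := by
    rw [Finset.mul_sum, Finset.mul_sum, ← Finset.sum_add_distrib]
    exact Finset.sum_congr rfl fun J _ => by ring
  rw [e1, hone, hg]
  linarith

theorem KE_fin (μ : Measure T) [IsProbabilityMeasure μ] {B : ℕ → Set T} (hB : ∀ n, MeasurableSet (B n))
    {k A C N M : ℕ} (hC : 0 < C) (hno : ∀ n, A ≤ n → NoK (B n) k n (C + 1)) (hM : A + C + M * C ≤ N) :
    entN μ N ≤ M * (Real.log 2 + Real.log (k + 1)) + ((N : ℝ) - M * C + 2) * Real.log 2 +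
      2 * Real.log 2 * ∑ n ∈ Finset.range N, μ.real (B n)ᶜ := by
  have hlog2 : 0 ≤ Real.log 2 := Real.log_nonneg (by norm_num)
  have hCR : (1 : ℝ) ≤ C := by exact_mod_cast hC
  have h1 : ∀ i ∈ Finset.range C, entN μ N ≤ (M * (Real.log 2 + Real.log (k + 1)) +
      ((N : ℝ) - M * C + 2) * Real.log 2) +
      (C + 1) * Real.log 2 * ∑ j ∈ Finset.range M, μ.real (B (A + i + j * C))ᶜ := by
    intro i hi
    rw [Finset.mem_range] at hi
    exact ke_one μ (bd := fun j => B (A + i + j * C)) (fun j => hB _) (k := k) (a := A + i) (C := C)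
      (N := N) (M := M) (fun j => hno _ (by omega)) (by omega)
  have h2 := Finset.sum_le_sum h1
  rw [Finset.sum_const, Finset.card_range, nsmul_eq_mul, Finset.sum_add_distrib, Finset.sum_const,
    Finset.card_range, nsmul_eq_mul, ← Finset.mul_sum] at h2
  have h3 := ke_double (fun n => μ.real (B n)ᶜ) (fun n => measureReal_nonneg) (A := A) (C := C) (M := M)
    (N := N) (by omega)
  set S := ∑ n ∈ Finset.range N, μ.real (B n)ᶜ with hS
  have hS0 : 0 ≤ S := Finset.sum_nonneg fun n _ => measureReal_nonneg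
  set S' := ∑ i ∈ Finset.range C, ∑ j ∈ Finset.range M, μ.real (B (A + i + j * C))ᶜ with hS'
  set W := M * (Real.log 2 + Real.log (k + 1)) + ((N : ℝ) - M * C + 2) * Real.log 2 with hW
  have h4 : ((C : ℝ) + 1) * Real.log 2 * S' ≤ (C + C) * Real.log 2 * S :=
    mul_le_mul (mul_le_mul_of_nonneg_right (by linarith) hlog2) h3
      (Finset.sum_nonneg fun i _ => Finset.sum_nonneg fun j _ => measureReal_nonneg) (by positivity)
  have h5 : (C : ℝ) * entN μ N ≤ C * (W + 2 * Real.log 2 * S) := by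
    calc (C : ℝ) * entN μ N ≤ C * W + (C + 1) * Real.log 2 * S' := h2
      _ ≤ C * W + (C + C) * Real.log 2 * S := by linarith
      _ = _ := by ring
  exact le_of_mul_le_mul_left h5 (by linarith)

theorem KE_avg_cont (G : Finset (ℕ × ℕ)) (f : C(T, ℝ)) : Continuous fun x : T => avg G f x := by
  unfold avg
  refine Continuous.div_const (continuous_finsetSum _ fun p _ => ?_) _
  exact f.continuous.comp (continuous_nsmul _)

theorem bad_meas (r : ℕ → ℕ) (F : Finset C(T, ℝ)) (δ : ℝ) (n : ℕ) : MeasurableSet (bad r F δ n) := by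
  have h1 : bad r F δ n = ⋃ f ∈ F,
      {x : T | δ < |avg (sl n (r n)) f x - ∫ z, f z ∂(volume : Measure T)|} := by
    ext x
    simp [bad]
  rw [h1]
  refine Finset.measurableSet_biUnion _ fun f _ => ?_
  exact (isOpen_lt continuous_const ((KE_avg_cont _ f).sub continuous_const).abs).measurableSet

private theorem ke_sqrt {N : ℕ} (hN : 4 ≤ N) : Real.log N ≤ 4 * Real.log (Nat.sqrt N) := by
  have h1 : N < (Nat.sqrt N + 1) * (Nat.sqrt N + 1) := Nat.lt_succ_sqrt N
  have h2 : 2 ≤ Nat.sqrt N := by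
    rw [Nat.le_sqrt]
    omega
  have h3 : (N : ℝ) ≤ (Nat.sqrt N : ℝ) ^ 4 := by
    have h4 : N ≤ Nat.sqrt N ^ 4 := by
      have h5 : Nat.sqrt N + 1 ≤ Nat.sqrt N * Nat.sqrt N := by nlinarith
      calc N ≤ (Nat.sqrt N + 1) * (Nat.sqrt N + 1) := h1.le
        _ ≤ (Nat.sqrt N * Nat.sqrt N) * (Nat.sqrt N * Nat.sqrt N) := Nat.mul_le_mul h5 h5
        _ = Nat.sqrt N ^ 4 := by ring
    exact_mod_cast h4
  have h4 : (0 : ℝ) < N := by
    have : 0 < N := by omega
    exact_mod_cast this
  calc Real.log N ≤ Real.log ((Nat.sqrt N : ℝ) ^ 4) := Real.log_le_log h4 h3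
    _ = 4 * Real.log (Nat.sqrt N) := by rw [Real.log_pow]; norm_num

/-- **Entropy and close scales.** For every probability measure the entropy at scale `N` is at most a constant times
`N / (log N) ^ κ` plus the sum over `n < N` of the measures of the sets of the points whose slice of scale `n` is close to
Lebesgue measure. -/
theorem ent_close {r : ℕ → ℕ} (h : Thick r) {a κ : ℝ} (ha : 0 < a) (hκ : 0 < κ)
    (har : ∀ᶠ n : ℕ in atTop, a * Real.log n ^ κ ≤ r n) (F : Finset C(T, ℝ)) {δ : ℝ} (hδ : 0 < δ) :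
    ∃ K : ℝ, 0 < K ∧ ∀ (μ : Measure T) [IsProbabilityMeasure μ] (N : ℕ), 2 ≤ N →
      entN μ N ≤ K * (1 + N / Real.log N ^ κ + ∑ n ∈ Finset.range N,
        μ.real {x : T | ∀ f ∈ F, |avg (sl n (r n)) f x - ∫ z, f z ∂(volume : Measure T)| ≤ δ}) := by
  obtain ⟨k, ε, hε, n1, hn1⟩ := bad_noK h F δ hδ
  obtain ⟨n2, hn2⟩ := eventually_atTop.1 har
  have h4κ : (0 : ℝ) < 4 ^ κ := Real.rpow_pos_of_pos (by norm_num) κ
  set c1 : ℝ := ε * a / 4 ^ κ with hc1
  have hc1p : 0 < c1 := by positivity
  have hNT : Tendsto (fun N : ℕ => (N : ℝ)) atTop atTop := tendsto_natCast_atTop_atTop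
  have hlogT : Tendsto (fun N : ℕ => Real.log N) atTop atTop := Real.tendsto_log_atTop.comp hNT
  have hlκT : Tendsto (fun N : ℕ => Real.log N ^ κ) atTop atTop := (tendsto_rpow_atTop hκ).comp hlogT
  have hsq : Tendsto (fun N : ℕ => Nat.sqrt N) atTop atTop := by
    refine tendsto_atTop.2 fun b => ?_
    filter_upwards [eventually_ge_atTop (b * b)] with N hN
    exact Nat.le_sqrt.2 hN
  have h1 : ∀ᶠ N : ℕ in atTop, Real.log N ^ κ ≤ (N : ℝ) ^ (1 / 2 : ℝ) := by
    have := (isLittleO_log_rpow_rpow_atTop κ (by norm_num : (0 : ℝ) < 1 / 2)).def one_pos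
    filter_upwards [hNT.eventually this] with N hN
    rw [one_mul, Real.norm_eq_abs, Real.norm_eq_abs] at hN
    exact (le_abs_self _).trans (hN.trans (le_of_eq (abs_of_nonneg (by positivity))))
  have h2 : ∀ᶠ N : ℕ in atTop, (2 * c1 + 1) * (Real.log N ^ κ * Real.log N ^ κ) ≤ N := by
    have := (isLittleO_log_rpow_rpow_atTop (κ + κ) (one_pos : (0 : ℝ) < 1)).def
      (show (0 : ℝ) < 1 / (2 * c1 + 1) by positivity)
    filter_upwards [hNT.eventually this, hlogT.eventually_gt_atTop 0] with N hN hl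
    have hN' : |Real.log N ^ (κ + κ)| ≤ 1 / (2 * c1 + 1) * N := by
      have hNn : ‖((N : ℝ)) ^ (1 : ℝ)‖ = N := by
        rw [Real.rpow_one, Real.norm_eq_abs, abs_of_nonneg (Nat.cast_nonneg N)]
      rw [hNn, Real.norm_eq_abs] at hN
      exact hN
    have h3 := (le_abs_self _).trans hN'
    rw [Real.rpow_add hl] at h3
    rw [div_mul_eq_mul_div, one_mul, le_div_iff₀ (by positivity)] at h3
    linarith
  obtain ⟨N0, hN0⟩ := eventually_atTop.1 ((((eventually_ge_atTop 4).and
    (hsq.eventually_ge_atTop (max n1 n2))).and (hlκT.eventually_ge_atTop (4 / c1))).and (h1.and h2))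
  set K : ℝ := N0 * Real.log 2 + 2 / c1 * (Real.log 2 + Real.log (k + 1)) + 4 * Real.log 2 + 1 with hK
  have hlog2 : 0 < Real.log 2 := Real.log_pos (by norm_num)
  have hlogk : 0 ≤ Real.log ((k : ℝ) + 1) := Real.log_nonneg (by
    have : (0 : ℝ) ≤ k := Nat.cast_nonneg k
    linarith)
  refine ⟨K, by positivity, fun μ _ N hN2 => ?_⟩
  have hcompl : ∀ n, {x : T | ∀ f ∈ F, |avg (sl n (r n)) f x - ∫ z, f z ∂(volume : Measure T)| ≤ δ} =
      (bad r F δ n)ᶜ := by
    intro n
    ext x
    simp [bad]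
  simp only [hcompl]
  set S := ∑ n ∈ Finset.range N, μ.real (bad r F δ n)ᶜ with hS
  have hS0 : 0 ≤ S := Finset.sum_nonneg fun n _ => measureReal_nonneg
  have hNR : (2 : ℝ) ≤ N := by exact_mod_cast hN2
  have hlogN : 0 < Real.log N := Real.log_pos (by linarith)
  have hL : 0 < Real.log N ^ κ := Real.rpow_pos_of_pos hlogN κ
  have hX0 : 0 ≤ (N : ℝ) / Real.log N ^ κ := by positivity
  rcases lt_or_ge N N0 with hlt | hge
  · refine (KE_triv μ N).trans ?_
    have e1 : (N : ℝ) * Real.log 2 ≤ N0 * Real.log 2 :=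
      mul_le_mul_of_nonneg_right (by exact_mod_cast hlt.le) hlog2.le
    have e2 : (N0 : ℝ) * Real.log 2 ≤ K := by
      rw [hK]
      have : 0 ≤ 2 / c1 * (Real.log 2 + Real.log (k + 1)) := by positivity
      linarith
    have e3 : K * 1 ≤ K * (1 + N / Real.log N ^ κ + S) :=
      mul_le_mul_of_nonneg_left (by linarith) (by positivity)
    linarith
  · obtain ⟨⟨⟨h3, h4⟩, h5⟩, h6, h7⟩ := hN0 N hge
    set A := Nat.sqrt N with hA
    set L := Real.log N ^ κ with hLdef
    rw [div_le_iff₀ hc1p] at h5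
    set C := ⌊c1 * L⌋₊ - 1 with hC
    have hfl : 4 ≤ ⌊c1 * L⌋₊ := Nat.le_floor (by push_cast; linarith)
    have hC0 : 0 < C := by omega
    have hC1 : (C : ℝ) + 1 ≤ c1 * L := by
      have e1 : C + 1 = ⌊c1 * L⌋₊ := by omega
      calc (C : ℝ) + 1 = ((C + 1 : ℕ) : ℝ) := by push_cast; ring
        _ = (⌊c1 * L⌋₊ : ℝ) := by rw [e1]
        _ ≤ c1 * L := Nat.floor_le (by positivity)
    have hC2 : c1 * L / 2 ≤ C := by
      have e1 : c1 * L < (⌊c1 * L⌋₊ : ℝ) + 1 := Nat.lt_floor_add_one _
      have e2 : ((⌊c1 * L⌋₊ : ℕ) : ℝ) = C + 1 := by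
        have e3 : ⌊c1 * L⌋₊ = C + 1 := by omega
        rw [e3]
        push_cast
        ring
      rw [e2] at e1
      linarith
    have hlA : Real.log N ≤ 4 * Real.log A := ke_sqrt h3
    have hlA0 : 0 < Real.log A := by linarith
    have hno : ∀ n, A ≤ n → NoK (bad r F δ n) k n (C + 1) := by
      intro n hn
      have hA1 : 1 ≤ A := by
        have : 2 ≤ A := by
          rw [hA, Nat.le_sqrt]
          omega
        omega
      have e1 : n1 ≤ n := ((le_max_left _ _).trans h4).trans hn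
      have e2 : n2 ≤ n := ((le_max_right _ _).trans h4).trans hn
      refine hn1 n (C + 1) e1 ?_
      push_cast
      refine hC1.trans ?_
      have e3 : Real.log A ≤ Real.log n := Real.log_le_log (by exact_mod_cast hA1) (by exact_mod_cast hn)
      have e4 : L ≤ 4 ^ κ * Real.log n ^ κ := by
        rw [← Real.mul_rpow (by norm_num) (by linarith)]
        exact Real.rpow_le_rpow hlogN.le (by linarith) hκ.le
      calc c1 * L ≤ c1 * (4 ^ κ * Real.log n ^ κ) := mul_le_mul_of_nonneg_left e4 hc1p.le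
        _ = ε * (a * Real.log n ^ κ) := by rw [hc1]; field_simp
        _ ≤ ε * r n := mul_le_mul_of_nonneg_left (hn2 n e2) hε.le
    -- sizes
    have hXL : (N : ℝ) / L * L = N := div_mul_cancel₀ _ hL.ne'
    have hAX : (A : ℝ) ≤ N / L := by
      rw [le_div_iff₀ hL]
      have e1 : (A : ℝ) ≤ (N : ℝ) ^ (1 / 2 : ℝ) := by
        rw [← Real.sqrt_eq_rpow]
        exact Real.nat_sqrt_le_real_sqrt
      calc (A : ℝ) * L ≤ (N : ℝ) ^ (1 / 2 : ℝ) * (N : ℝ) ^ (1 / 2 : ℝ) :=
            mul_le_mul e1 h6 hL.le (by positivity)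
        _ = N := by
            rw [← Real.rpow_add (by linarith)]
            norm_num
    have hCX : 2 * (C : ℝ) ≤ N / L := by
      rw [le_div_iff₀ hL]
      have e1 : 2 * (C : ℝ) * L ≤ 2 * (c1 * L) * L := by
        apply mul_le_mul_of_nonneg_right _ hL.le
        linarith
      have e2 : 0 ≤ L * L := by positivity
      nlinarith
    have hACN : A + C ≤ N := by
      have e1 : A ≤ N / 2 := by
        have e2 : A * A ≤ N := Nat.sqrt_le N
        have e3 : 2 ≤ A := by
          rw [hA, Nat.le_sqrt]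
          omega
        rw [Nat.le_div_iff_mul_le (by norm_num)]
        nlinarith
      have e2 : (C : ℝ) ≤ N / 2 := by
        have e3 : 1 ≤ L := by
          by_contra hcon
          rw [not_le] at hcon
          have e4 : 2 * (C : ℝ) * L ≤ N := by
            have := mul_le_mul_of_nonneg_right hCX hL.le
            linarith
          have e5 : (A : ℝ) * L ≤ N := by
            have := mul_le_mul_of_nonneg_right hAX hL.le
            linarith
          have e6 : Real.log N < 1 := by
            by_contra h8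
            rw [not_lt] at h8
            have := Real.one_le_rpow h8 hκ.le
            linarith
          have e7 : (4 : ℝ) ≤ N := by exact_mod_cast h3
          have e8 : Real.log 4 ≤ Real.log N := Real.log_le_log (by norm_num) e7
          have e9 : Real.log 4 = 2 * Real.log 2 := by
            rw [show (4 : ℝ) = 2 ^ 2 by norm_num, Real.log_pow]
            norm_num
          have := Real.log_two_gt_d9
          linarith
        have e4 : (N : ℝ) / L ≤ N := div_le_self (by linarith) e3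
        linarith
      have e3 : (A : ℝ) ≤ N / 2 := by
        have : ((A : ℕ) : ℝ) ≤ ((N / 2 : ℕ) : ℝ) := by exact_mod_cast e1
        exact this.trans Nat.cast_div_le
      have e4 : ((A + C : ℕ) : ℝ) ≤ N := by
        push_cast
        linarith
      exact_mod_cast e4
    set M := (N - A) / C - 1 with hM
    have hMC : A + C + M * C ≤ N := by
      rcases Nat.eq_zero_or_pos ((N - A) / C) with h0 | h0
      · have : M = 0 := by omega
        rw [this]
        omega
      · have e1 : M + 1 = (N - A) / C := by omega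
        have e2 : (N - A) / C * C ≤ N - A := Nat.div_mul_le_self _ _
        rw [← e1, add_mul, one_mul] at e2
        omega
    have hMC2 : (N : ℝ) - M * C ≤ A + 2 * C := by
      have e1 : N - A < (N - A) / C * C + C := Nat.lt_div_mul_add hC0
      have e2 : (N - A) / C ≤ M + 1 := by omega
      have e3 : (N - A) / C * C ≤ (M + 1) * C := Nat.mul_le_mul_right _ e2
      have e4 : N ≤ A + 2 * C + M * C := by
        rw [add_mul, one_mul] at e3
        omega
      have e5 : (N : ℝ) ≤ A + 2 * C + M * C := by exact_mod_cast e4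
      linarith
    have hMX : (M : ℝ) ≤ 2 / c1 * (N / L) := by
      have e1 : (M : ℝ) * C ≤ N := by
        have : M * C ≤ N := by omega
        exact_mod_cast this
      have e2 : (M : ℝ) * (c1 * L / 2) ≤ N :=
        (mul_le_mul_of_nonneg_left hC2 (Nat.cast_nonneg M)).trans e1
      have e3 : 2 / c1 * (N / L) = N / (c1 * L / 2) := by
        field_simp
      rw [e3, le_div_iff₀ (by positivity)]
      exact e2
    have hfin := KE_fin μ (bad_meas r F δ) hC0 hno hMC
    refine hfin.trans ?_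
    have g1 : (M : ℝ) * (Real.log 2 + Real.log (k + 1)) ≤
        2 / c1 * (Real.log 2 + Real.log (k + 1)) * (N / L) := by
      have := mul_le_mul_of_nonneg_right hMX (add_nonneg hlog2.le hlogk)
      linarith
    have g2 : ((N : ℝ) - M * C + 2) * Real.log 2 ≤ (2 * (N / L) + 2) * Real.log 2 :=
      mul_le_mul_of_nonneg_right (by linarith) hlog2.le
    have g3 : 0 ≤ (N0 : ℝ) * Real.log 2 := by positivity
    have g4 : 0 ≤ 2 / c1 * (Real.log 2 + Real.log (k + 1)) := by positivity
    rw [← hS]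
    set W := 2 / c1 * (Real.log 2 + Real.log (k + 1)) with hW
    set X := (N : ℝ) / L with hX
    have g5 : K * (1 + X + S) = (N0 * Real.log 2 + W + 4 * Real.log 2 + 1) * (1 + X + S) := by rw [hK]
    rw [g5]
    have g6 : 0 ≤ W * (1 + S) := mul_nonneg g4 (by linarith)
    have g7 : 0 ≤ N0 * Real.log 2 * (1 + X + S) := mul_nonneg g3 (by linarith)
    have g8 : 0 ≤ Real.log 2 * (1 + X + S) := mul_nonneg hlog2.le (by linarith)
    have g9 : (N0 * Real.log 2 + W + 4 * Real.log 2 + 1) * (1 + X + S) =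
        N0 * Real.log 2 * (1 + X + S) + W * (1 + S) + W * X + 2 * (Real.log 2 * (1 + X + S)) +
          ((2 * X + 2) * Real.log 2 + 2 * Real.log 2 * S) + (1 + X + S) := by ring
    rw [g9]
    linarith

/-- The same for widths between `a (log n) ^ κ` and `(log n) ^ κ'`, `κ' < 3 / 2`. -/
theorem ent_close_pow {κ κ' : ℝ} (hκ : 0 < κ) (hκ' : κ' < 3 / 2) {a : ℝ} (ha : 0 < a) (r : ℕ → ℕ)
    (hr : Tendsto r atTop atTop) (hA : ∀ᶠ n : ℕ in atTop, (r n : ℝ) ≤ (Real.log n) ^ κ')
    (har : ∀ᶠ n : ℕ in atTop, a * (Real.log n) ^ κ ≤ r n) (F : Finset C(T, ℝ)) {δ : ℝ} (hδ : 0 < δ) :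
    ∃ K : ℝ, 0 < K ∧ ∀ (μ : Measure T) [IsProbabilityMeasure μ] (N : ℕ), 2 ≤ N →
      entN μ N ≤ K * (1 + N / Real.log N ^ κ + ∑ n ∈ Finset.range N,
        μ.real {x : T | ∀ f ∈ F, |avg (sl n (r n)) f x - ∫ z, f z ∂(volume : Measure T)| ≤ δ}) :=
  ent_close (thick_pow hκ' r hr hA) ha hκ har F hδ

end Pool.Agent.Half
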