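import Pool.Agent.Half.KPow
import Pool.Agent.Half.KDens

/-! Final forms of the theorems on slices close to Lebesgue measure. -/

open MeasureTheory Filter Topology
open scoped ENNReal NNReal

namespace Pool.Agent.Half

/-- The number of scales `n < N` whose slice is `δ`-close to Lebesgue measure for the functions in `F`. -/
noncomputable def goodCount (r : ℕ → ℕ) (F : Finset C(T, ℝ)) (δ : ℝ) (x : T) (N : ℕ) : ℕ :=
  {n : ℕ | n < N ∧ ∀ f ∈ F, |avg (sl n (r n)) f x - ∫ z, f z ∂(volume : Measure T)| ≤ δ}.ncard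

/-- For every finite set of continuous functions and every `δ > 0` the proportion of the scales `n < N` whose slice is
`δ`-close to Lebesgue measure exceeds `γ` for all large `N`. -/
def DensLeb (r : ℕ → ℕ) (γ : ℝ≥0) (x : T) : Prop :=
  ∀ F : Finset C(T, ℝ), ∀ δ : ℝ, 0 < δ → ∀ᶠ N : ℕ in atTop, γ * N < (goodCount r F δ x N : ℝ)

theorem KX_fin (r : ℕ → ℕ) (F : Finset C(T, ℝ)) (δ : ℝ) (x : T) (N : ℕ) :
    {n : ℕ | n < N ∧ ∀ f ∈ F, |avg (sl n (r n)) f x - ∫ z, f z ∂(volume : Measure T)| ≤ δ}.Finite :=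
  (Set.finite_lt_nat N).subset fun _ h => h.1

open Classical in
theorem KX_count (r : ℕ → ℕ) (F : Finset C(T, ℝ)) (δ : ℝ) (x : T) (N : ℕ) :
    goodCount r F δ x N = ((Finset.range N).filter fun n => x ∉ bad r F δ n).card := by
  rw [goodCount, ← Set.ncard_coe_finset]
  congr 1
  ext n
  simp only [Finset.coe_filter, Finset.mem_range, Set.mem_ofPred_eq, bad, not_exists, not_and, not_lt]

/-- closeness for a nearby finite set of functions -/
theorem KX_mono (r : ℕ → ℕ) {F F' : Finset C(T, ℝ)} {δ δ' η : ℝ} (hη : 0 ≤ η)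
    (h : ∀ f ∈ F, ∃ g ∈ F', ∀ z, |f z - g z| ≤ η) (hδ : δ' + 2 * η ≤ δ) (x : T) (N : ℕ) :
    goodCount r F' δ' x N ≤ goodCount r F δ x N := by
  refine Set.ncard_le_ncard (fun n hn => ⟨hn.1, fun f hf => ?_⟩) (KX_fin r F δ x N)
  obtain ⟨g, hg, hgf⟩ := h f hf
  have e0 := hn.2 g hg
  have e1 := KB_close (sl n (r n)) f g η hη hgf x
  have e2 := KB_int_close f g η hgf
  rw [abs_le] at e0 e1 e2 ⊢
  constructor <;> linarith

theorem KX_sub (r : ℕ → ℕ) (γ : ℝ≥0) : ∃ e : ℕ → Finset C(T, ℝ) × ℕ,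
    {x : T | ¬ DensLeb r γ x} ⊆
      ⋃ i, {x : T | ∃ᶠ N : ℕ in atTop, (goodCount r (e i).1 (1 / (((e i).2 : ℝ) + 1)) x N : ℝ) ≤ γ * N} := by
  classical
  obtain ⟨D, hDc, hDd⟩ := TopologicalSpace.exists_countable_dense C(T, ℝ)
  have : Countable D := hDc
  let α := Finset D × ℕ
  have hne : Nonempty α := ⟨(∅, 0)⟩
  obtain ⟨e, he⟩ := exists_surjective_nat α
  let P : Finset D → Finset C(T, ℝ) := fun s => Finset.image (fun g : D => (g : C(T, ℝ))) s
  refine ⟨fun i => (P (e i).1, (e i).2), fun x hx => ?_⟩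
  simp only [DensLeb, Set.mem_ofPred_eq, not_forall] at hx
  obtain ⟨F, δ, hδ, hx⟩ := hx
  have happ : ∀ f : C(T, ℝ), ∃ g : D, dist f g < δ / 4 := by
    intro f
    obtain ⟨g, hg, hd⟩ := hDd.exists_dist_lt f (by positivity : 0 < δ / 4)
    exact ⟨⟨g, hg⟩, hd⟩
  choose g hg using happ
  obtain ⟨q, hq⟩ := exists_nat_one_div_lt (show 0 < δ / 2 by positivity)
  obtain ⟨i, hi⟩ := he (F.image g, q)
  simp only [Set.mem_iUnion, Set.mem_ofPred_eq]
  refine ⟨i, ?_⟩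
  rw [hi]
  rw [Filter.not_eventually] at hx
  refine hx.mono fun N hN => ?_
  rw [not_lt] at hN
  refine le_trans ?_ hN
  have hpt : ∀ f : C(T, ℝ), ∀ z, |f z - (g f : C(T, ℝ)) z| ≤ δ / 4 := by
    intro f z
    have h3 : dist (f z) ((g f : C(T, ℝ)) z) ≤ dist f (g f : C(T, ℝ)) :=
      ContinuousMap.dist_apply_le_dist z
    rw [Real.dist_eq] at h3
    exact h3.trans (hg f).le
  have h5 : goodCount r (P (F.image g)) (1 / ((q : ℝ) + 1)) x N ≤ goodCount r F δ x N :=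
    KX_mono r (by positivity : (0 : ℝ) ≤ δ / 4)
      (fun f hf => ⟨(g f : C(T, ℝ)), Finset.mem_image.2 ⟨g f, Finset.mem_image_of_mem _ hf, rfl⟩, hpt f⟩)
      (by linarith) x N
  exact Nat.cast_le.2 h5

/-- **Outside a set of Hausdorff dimension at most `γ` the scales whose slice is close to Lebesgue measure have lower
density at least `γ`.** -/
theorem dens_dim {r : ℕ → ℕ} (h : Thick r) (γ : ℝ≥0) : dimH {x : T | ¬ DensLeb r γ x} ≤ γ := by
  obtain ⟨e, he⟩ := KX_sub r γ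
  refine (dimH_mono he).trans ?_
  rw [dimH_iUnion]
  refine iSup_le fun i => ?_
  have h1 := dens h (e i).1 (1 / (((e i).2 : ℝ) + 1)) (by positivity) γ
  simpa only [KX_count] using h1

theorem DensLeb.mono {r : ℕ → ℕ} {γ γ' : ℝ≥0} (hγ : γ' ≤ γ) {x : T} (h : DensLeb r γ x) : DensLeb r γ' x :=
  fun F δ hδ => (h F δ hδ).mono fun N hN =>
    lt_of_le_of_lt (mul_le_mul_of_nonneg_right (by exact_mod_cast hγ) (Nat.cast_nonneg N)) hN

theorem DensLeb.fullLeb {r : ℕ → ℕ} {γ : ℝ≥0} {x : T} (h : DensLeb r γ x) (hγ : 0 < γ) : FullLeb r x := by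
  intro F δ hδ
  rw [Filter.frequently_atTop]
  intro a
  by_contra hcon
  push Not at hcon
  have h1 := h F δ hδ
  obtain ⟨N1, hN1⟩ := eventually_atTop.1 h1
  obtain ⟨N2, hN2⟩ := exists_nat_gt ((a : ℝ) / γ)
  have hγ' : (0 : ℝ) < γ := by exact_mod_cast hγ
  have h2 := hN1 (max N1 N2) (le_max_left _ _)
  have h3 : goodCount r F δ x (max N1 N2) ≤ a := by
    calc goodCount r F δ x (max N1 N2) ≤ ({n : ℕ | n < a} : Set ℕ).ncard := by
          refine Set.ncard_le_ncard (fun n hn => ?_) (Set.finite_lt_nat a)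
          by_contra hna
          obtain ⟨f, hf, hf'⟩ := hcon n (not_lt.1 hna)
          exact absurd (hn.2 f hf) (not_le.2 hf')
      _ = a := by
          have : ({n : ℕ | n < a} : Set ℕ) = (Finset.range a : Set ℕ) := by ext n; simp
          rw [this, Set.ncard_coe_finset, Finset.card_range]
  have h4 : (goodCount r F δ x (max N1 N2) : ℝ) ≤ a := by exact_mod_cast h3
  have h5 : (a : ℝ) < N2 * γ := (div_lt_iff₀ hγ').1 hN2
  have h6 : (N2 : ℝ) ≤ ((max N1 N2 : ℕ) : ℝ) := by exact_mod_cast le_max_right N1 N2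
  have h7 : (N2 : ℝ) * γ ≤ ((max N1 N2 : ℕ) : ℝ) * γ := mul_le_mul_of_nonneg_right h6 hγ'.le
  linarith

/-- **Measures of dimension at least `d`.** -/
theorem dens_measure {r : ℕ → ℕ} (h : Thick r) (ν : Measure T) (d : ℝ≥0∞)
    (hν : ∀ A : Set T, dimH A < d → ν A = 0) :
    ∀ᵐ x ∂ν, ∀ γ : ℝ≥0, (γ : ℝ≥0∞) < d → DensLeb r γ x := by
  have h1 : ∀ᵐ x ∂ν, ∀ q : ℚ, ((Real.toNNReal q : ℝ≥0) : ℝ≥0∞) < d → DensLeb r (Real.toNNReal q) x := by
    rw [ae_all_iff]
    intro q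
    by_cases hq : ((Real.toNNReal q : ℝ≥0) : ℝ≥0∞) < d
    · have h2 : ν {x : T | ¬ DensLeb r (Real.toNNReal q) x} = 0 :=
        hν _ (lt_of_le_of_lt (dens_dim h (Real.toNNReal q)) hq)
      have h3 : ∀ᵐ x ∂ν, DensLeb r (Real.toNNReal q) x := h2
      filter_upwards [h3] with x hx _ using hx
    · exact Filter.Eventually.of_forall fun x hx => absurd hx hq
  filter_upwards [h1] with x hx γ hγ
  obtain ⟨q, hq0, hq1, hq2⟩ := ENNReal.lt_iff_exists_rat_btwn.1 hγ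
  exact (hx q hq2).mono (by exact_mod_cast hq1.le)

/-! ### Widths up to `(log n) ^ κ` -/

theorem full_pack_pow {κ : ℝ} (hκ : κ < 3 / 2) (r : ℕ → ℕ) (hr : Tendsto r atTop atTop)
    (hA : ∀ᶠ n : ℕ in atTop, (r n : ℝ) ≤ (Real.log n) ^ κ) : PackZero {x : T | ¬ FullLeb r x} :=
  full_pack (thick_pow hκ r hr hA)

private theorem kx_congr {r r' : ℕ → ℕ} (h : ∀ᶠ n in atTop, r n = r' n) {x : T} (hx : FullLeb r x) :
    FullLeb r' x := by
  intro F δ hδ
  refine ((hx F δ hδ).and_eventually h).mono fun n hn => ?_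
  rw [← hn.2]
  exact hn.1

/-- The gauge version for widths between `a (log n) ^ κ` and `(log n) ^ κ'`, `κ' < 3 / 2`. -/
theorem full_gauge_pow {κ κ' : ℝ} (h0 : 0 ≤ κ) (hκ' : κ' < 3 / 2) {a : ℝ} (ha : 0 < a) (r : ℕ → ℕ)
    (hr : Tendsto r atTop atTop) (hA : ∀ᶠ n : ℕ in atTop, (r n : ℝ) ≤ (Real.log n) ^ κ')
    (har : ∀ᶠ n : ℕ in atTop, a * (Real.log n) ^ κ ≤ r n) : PackGauge κ {x : T | ¬ FullLeb r x} := by
  obtain ⟨n0, hn0⟩ := eventually_atTop.1 (har.and (eventually_ge_atTop 2))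
  set R0 : ℕ := ⌈a / 2 ^ κ * (Real.log ((n0 : ℝ) + 2)) ^ κ⌉₊ with hR0
  set r' : ℕ → ℕ := fun n => if n < n0 then R0 else r n with hr'
  have heq : ∀ᶠ n in atTop, r n = r' n := by
    filter_upwards [eventually_ge_atTop n0] with n hn
    rw [hr']
    simp [not_lt.2 hn]
  have hT : Thick r' := thick_pow hκ' r' (hr.congr' heq) (by
    filter_upwards [hA, heq] with n h1 h2
    rw [← h2]
    exact h1)
  have h2k : (0 : ℝ) < 2 ^ κ := Real.rpow_pos_of_pos (by norm_num) κ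
  have h3 : PackGauge κ {x : T | ¬ FullLeb r' x} := by
    refine full_gauge hT (a := a / 2 ^ κ) (by positivity) h0 fun n => ?_
    by_cases hn : n < n0
    · have e1 : r' n = R0 := by rw [hr']; simp [hn]
      rw [e1]
      refine le_trans ?_ (Nat.le_ceil _)
      have h4 : (n : ℝ) ≤ n0 := by exact_mod_cast hn.le
      refine mul_le_mul_of_nonneg_left (Real.rpow_le_rpow (Real.log_nonneg ?_) (Real.log_le_log ?_ ?_) h0)
        (by positivity)
      · have : (0 : ℝ) ≤ n := Nat.cast_nonneg n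
        linarith
      · have : (0 : ℝ) ≤ n := Nat.cast_nonneg n
        linarith
      · linarith
    · have e1 : r' n = r n := by rw [hr']; simp [hn]
      rw [e1]
      obtain ⟨h4, h5⟩ := hn0 n (not_lt.1 hn)
      refine le_trans ?_ h4
      have h6 : (2 : ℝ) ≤ n := by exact_mod_cast h5
      have h7 : Real.log ((n : ℝ) + 2) ≤ 2 * Real.log n := by
        calc Real.log ((n : ℝ) + 2) ≤ Real.log ((n : ℝ) ^ 2) :=
              Real.log_le_log (by linarith) (by nlinarith)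
          _ = 2 * Real.log n := by rw [Real.log_pow]; norm_num
      have h8 : Real.log ((n : ℝ) + 2) ^ κ ≤ 2 ^ κ * Real.log n ^ κ := by
        rw [← Real.mul_rpow (by norm_num) (Real.log_nonneg (by linarith))]
        exact Real.rpow_le_rpow (Real.log_nonneg (by linarith)) h7 h0
      calc a / 2 ^ κ * Real.log ((n : ℝ) + 2) ^ κ ≤ a / 2 ^ κ * (2 ^ κ * Real.log n ^ κ) :=
            mul_le_mul_of_nonneg_left h8 (by positivity)
        _ = a * Real.log n ^ κ := by field_simp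
  have h4 : {x : T | ¬ FullLeb r x} = {x : T | ¬ FullLeb r' x} := by
    ext x
    simp only [Set.mem_ofPred_eq, not_iff_not]
    exact ⟨kx_congr heq, kx_congr (heq.mono fun n hn => hn.symm)⟩
  rw [h4]
  exact h3

theorem dens_dim_pow {κ : ℝ} (hκ : κ < 3 / 2) (r : ℕ → ℕ) (hr : Tendsto r atTop atTop)
    (hA : ∀ᶠ n : ℕ in atTop, (r n : ℝ) ≤ (Real.log n) ^ κ) (γ : ℝ≥0) :
    dimH {x : T | ¬ DensLeb r γ x} ≤ γ :=
  dens_dim (thick_pow hκ r hr hA) γ

theorem dens_measure_pow {κ : ℝ} (hκ : κ < 3 / 2) (r : ℕ → ℕ) (hr : Tendsto r atTop atTop)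
    (hA : ∀ᶠ n : ℕ in atTop, (r n : ℝ) ≤ (Real.log n) ^ κ) (ν : Measure T) (d : ℝ≥0∞)
    (hν : ∀ A : Set T, dimH A < d → ν A = 0) :
    ∀ᵐ x ∂ν, ∀ γ : ℝ≥0, (γ : ℝ≥0∞) < d → DensLeb r γ x :=
  dens_measure (thick_pow hκ r hr hA) ν d hν

end Pool.Agent.Half
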