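import Pool.Agent.Half.KBad
import Pool.Agent.Half.KDim

/-! Lebesgue measure is a limit point of the slices of every point outside a set of packing dimension zero. -/

open MeasureTheory Filter Topology
open scoped ENNReal NNReal

namespace Pool.Agent.Half

/-- Lebesgue measure is a limit point of the slices of `x` (for the functions of every finite set) -/
def FullLeb (r : ℕ → ℕ) (x : T) : Prop :=
  ∀ F : Finset C(T, ℝ), ∀ δ : ℝ, 0 < δ →
    ∃ᶠ n in atTop, ∀ f ∈ F, |avg (sl n (r n)) f x - ∫ z, f z ∂(volume : Measure T)| ≤ δ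

/-- `E` is a countable union of sets of upper box dimension zero. -/
def PackZero (E : Set T) : Prop :=
  ∃ X : ℕ → Set T, E ⊆ ⋃ i, X i ∧ ∀ i, ∀ s : ℝ, 0 < s → ∃ K : ℝ, ∀ M : ℕ, ∃ N : ℕ,
    (N : ℝ) ≤ K * 2 ^ (s * M) ∧ Cov (X i) N ((1 / 2 : ℝ) ^ M)

/-- `E` is a countable union of sets which are covered, for every `M ≥ 2`, by at most `exp (K M / (log M) ^ κ)` closed
balls of radius `2 ^ (-M)`. -/
def PackGauge (κ : ℝ) (E : Set T) : Prop :=
  ∃ X : ℕ → Set T, E ⊆ ⋃ i, X i ∧ ∀ i, ∃ K : ℝ, ∀ M : ℕ, 2 ≤ M → ∃ N : ℕ,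
    (N : ℝ) ≤ Real.exp (K * (M / (Real.log M) ^ κ)) ∧ Cov (X i) N ((1 / 2 : ℝ) ^ M)

theorem KF_sub (r : ℕ → ℕ) : ∃ e : ℕ → Finset C(T, ℝ) × ℕ × ℕ,
    {x : T | ¬ FullLeb r x} ⊆
      ⋃ i, {x | ∀ n, (e i).2.2 ≤ n → x ∈ bad r (e i).1 (1 / (((e i).2.1 : ℝ) + 1)) n} := by
  classical
  obtain ⟨D, hDc, hDd⟩ := TopologicalSpace.exists_countable_dense C(T, ℝ)
  have : Countable D := hDc
  let α := Finset D × ℕ × ℕ
  have hne : Nonempty α := ⟨(∅, 0, 0)⟩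
  obtain ⟨e, he⟩ := exists_surjective_nat α
  let P : Finset D → Finset C(T, ℝ) := fun s => Finset.image (fun g : D => (g : C(T, ℝ))) s
  refine ⟨fun i => (P (e i).1, (e i).2.1, (e i).2.2), fun x hx => ?_⟩
  simp only [FullLeb, Set.mem_ofPred_eq, not_forall] at hx
  obtain ⟨F, δ, hδ, hx⟩ := hx
  rw [not_frequently] at hx
  obtain ⟨n0, hn0⟩ := eventually_atTop.1 hx
  have happ : ∀ f : C(T, ℝ), ∃ g : D, dist f g < δ / 4 := by
    intro f
    obtain ⟨g, hg, hd⟩ := hDd.exists_dist_lt f (by positivity : 0 < δ / 4)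
    exact ⟨⟨g, hg⟩, hd⟩
  choose g hg using happ
  obtain ⟨q, hq⟩ := exists_nat_one_div_lt (show 0 < δ / 2 by positivity)
  obtain ⟨i, hi⟩ := he (F.image g, q, n0)
  simp only [Set.mem_iUnion]
  refine ⟨i, ?_⟩
  rw [hi]
  intro n hn
  have h1 := hn0 n hn
  push Not at h1
  obtain ⟨f, hf, h2⟩ := h1
  refine ⟨(g f : C(T, ℝ)), Finset.mem_image.2 ⟨g f, Finset.mem_image_of_mem _ hf, rfl⟩, ?_⟩
  have hpt : ∀ z, |f z - (g f : C(T, ℝ)) z| ≤ δ / 4 := by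
    intro z
    have h3 : dist (f z) ((g f : C(T, ℝ)) z) ≤ dist f (g f : C(T, ℝ)) :=
      ContinuousMap.dist_apply_le_dist z
    rw [Real.dist_eq] at h3
    exact h3.trans (hg f).le
  have e1 := KB_close (sl n (r n)) f (g f : C(T, ℝ)) (δ / 4) (by positivity) hpt x
  have e2 := KB_int_close f (g f : C(T, ℝ)) (δ / 4) hpt
  have e3 := abs_le.1 e1
  have e4 := abs_le.1 e2
  rcases lt_abs.1 h2 with h3 | h3
  · exact lt_abs.2 (Or.inl (by simp only; linarith))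
  · exact lt_abs.2 (Or.inr (by simp only; linarith))

private theorem kf_noK {r : ℕ → ℕ} (h : Thick r) (F : Finset C(T, ℝ)) (q n0 : ℕ) :
    ∃ k : ℕ, ∃ ε : ℝ, 0 < ε ∧ ∃ n1 : ℕ, ∀ n C : ℕ, n1 ≤ n → (C : ℝ) ≤ ε * r n →
      NoK {x | ∀ n, n0 ≤ n → x ∈ bad r F (1 / ((q : ℝ) + 1)) n} k n C := by
  obtain ⟨k, ε, hε, n1, hn1⟩ := bad_noK h F (1 / ((q : ℝ) + 1)) (by positivity)
  refine ⟨k, ε, hε, max n0 n1, fun n C hn hC x hx => ?_⟩
  exact hn1 n C ((le_max_right _ _).trans hn) hC x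
    fun i => hx i n ((le_max_left _ _).trans hn)

/-- **Full equidistribution along a subsequence outside a set of packing dimension zero.** -/
theorem full_pack {r : ℕ → ℕ} (h : Thick r) : PackZero {x : T | ¬ FullLeb r x} := by
  obtain ⟨e, he⟩ := KF_sub r
  refine ⟨_, he, fun i s hs => ?_⟩
  obtain ⟨k, ε, hε, n1, hn1⟩ := kf_noK h (e i).1 (e i).2.1 (e i).2.2
  exact KD_box h.tend hε hn1 s hs

theorem full_gauge {r : ℕ → ℕ} (h : Thick r) {a κ : ℝ} (ha : 0 < a) (hκ : 0 ≤ κ)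
    (har : ∀ n : ℕ, a * (Real.log (n + 2)) ^ κ ≤ r n) : PackGauge κ {x : T | ¬ FullLeb r x} := by
  obtain ⟨e, he⟩ := KF_sub r
  refine ⟨_, he, fun i => ?_⟩
  obtain ⟨k, ε, hε, n1, hn1⟩ := kf_noK h (e i).1 (e i).2.1 (e i).2.2
  exact KD_gauge ha hκ har hε hn1

theorem PackZero.dimH {E : Set T} (h : PackZero E) : dimH E = 0 := by
  obtain ⟨X, hX, hb⟩ := h
  have h1 : _root_.dimH (⋃ i, X i) = 0 := by
    rw [dimH_iUnion]
    simp only [fun i => KD_dimH (hb i), ENNReal.iSup_zero]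
  exact le_antisymm ((dimH_mono hX).trans h1.le) bot_le

end Pool.Agent.Half
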