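import Pool.Agent.Half.KSum
import Pool.Agent.Half.Inv
import Pool.Agent.Half.Dif

/-! Limits of empirical measures of `k` points: the general `k`-point theorem. -/

open MeasureTheory Filter Topology Set
open scoped ENNReal

namespace Pool.Agent.Half

variable {ι : Type*} [Fintype ι]

/-- the point of index `p` of the orbit of `(x i)_i` -/
noncomputable def kpt (x : ι → T) (p : ℕ × ℕ) : ι → T := fun i => (2 ^ p.1 * 3 ^ p.2 : ℕ) • x i

private noncomputable def klimM (G : Finset (ℕ × ℕ)) (x : ι → T) : Measure (ι → T) :=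
  ((G.card : ℝ≥0∞)⁻¹) • ∑ p ∈ G, Measure.dirac (kpt x p)

private theorem klimM_prob {G : Finset (ℕ × ℕ)} (hG : G.Nonempty) (x : ι → T) :
    IsProbabilityMeasure (klimM G x) := by
  constructor
  unfold klimM
  rw [Measure.smul_apply, Measure.finsetSum_apply]
  simp only [measure_univ, Finset.sum_const, smul_eq_mul, nsmul_eq_mul, mul_one]
  exact ENNReal.inv_mul_cancel (by simpa using hG.ne_empty) (ENNReal.natCast_ne_top _)

private theorem klimM_int {G : Finset (ℕ × ℕ)} (x : ι → T) (F : C(ι → T, ℝ)) :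
    ∫ z, F z ∂(klimM G x) = (∑ p ∈ G, F (kpt x p)) / (G.card : ℝ) := by
  unfold klimM
  rw [integral_smul_measure, integral_finset_sum_measure]
  · simp only [integral_dirac]
    rw [ENNReal.toReal_inv, ENNReal.toReal_natCast, smul_eq_mul, div_eq_inv_mul]
  · intro p _
    exact integrable_dirac (by simp)

theorem k_lim (G : ℕ → Finset (ℕ × ℕ)) (hG : ∀ k, (G k).Nonempty) (x : ℕ → ι → T)
    (U : Ultrafilter ℕ) :
    ∃ J : Measure (ι → T), IsProbabilityMeasure J ∧ ∀ F : C(ι → T, ℝ),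
      Tendsto (fun k => (∑ p ∈ G k, F (kpt (x k) p)) / ((G k).card : ℝ)) U (𝓝 (∫ z, F z ∂J)) := by
  let P : ℕ → ProbabilityMeasure (ι → T) := fun k =>
    ⟨klimM (G k) (x k), klimM_prob (hG k) (x k)⟩
  obtain ⟨J, -, hJ⟩ := (isCompact_univ (X := ProbabilityMeasure (ι → T))).ultrafilter_le_nhds
    (U.map P) (by simp)
  refine ⟨(J : Measure (ι → T)), J.2, fun F => ?_⟩
  have h1 : Tendsto P U (𝓝 J) := hJ
  rw [ProbabilityMeasure.tendsto_iff_forall_integral_tendsto] at h1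
  have h2 := h1 (BoundedContinuousFunction.mkOfCompact F)
  refine h2.congr fun k => ?_
  exact klimM_int (x k) F

/-- **The general `k`-point theorem.** -/
theorem k_general [Nonempty ι] (G : ℕ → Finset (ℕ × ℕ)) (hG : ∀ k, (G k).Nonempty)
    (h10 : Fol (1, 0) G) (h01 : Fol (0, 1) G) (x : ℕ → ι → T)
    (hd : ∀ i j, i ≠ j → ∀ m : ℤ, m ≠ 0 →
      Tendsto (fun k => avgC (G k) (fourier m) (x k j - x k i)) atTop (𝓝 0))
    (F : Finset C(T, ℝ)) (hF : ∀ f ∈ F, ∀ z, 0 ≤ f z) (δ : ℝ) (hδ : 0 < δ) :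
    ∀ᶠ k in atTop, ∃ t : ι → ℝ, (∀ i, 0 ≤ t i ∧ t i ≤ 1) ∧ ∑ i, (1 - t i) ≤ 1 ∧
      ∀ i, ∀ f ∈ F, t i * (∫ z, f z ∂(volume : Measure T)) - δ ≤ avg (G k) f (x k i) := by
  by_contra hcon
  have hfr := Filter.not_eventually.1 hcon
  have hne := Filter.frequently_iff_neBot.1 hfr
  obtain ⟨U, hU⟩ := Ultrafilter.exists_le (f := atTop ⊓ 𝓟 {k : ℕ |
    ¬(∃ t : ι → ℝ, (∀ i, 0 ≤ t i ∧ t i ≤ 1) ∧ ∑ i, (1 - t i) ≤ 1 ∧
      ∀ i, ∀ f ∈ F, t i * (∫ z, f z ∂(volume : Measure T)) - δ ≤ avg (G k) f (x k i))})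
  have hU1 : (U : Filter ℕ) ≤ atTop := hU.trans inf_le_left
  have hU2 : ∀ᶠ k in (U : Filter ℕ),
    ¬(∃ t : ι → ℝ, (∀ i, 0 ≤ t i ∧ t i ≤ 1) ∧ ∑ i, (1 - t i) ≤ 1 ∧
      ∀ i, ∀ f ∈ F, t i * (∫ z, f z ∂(volume : Measure T)) - δ ≤ avg (G k) f (x k i)) :=
    hU (Filter.mem_inf_of_right (Filter.mem_principal_self _))
  obtain ⟨J, hJp, hJ⟩ := k_lim G hG x U
  have hpm : ∀ i j, Measurable (fun z : ι → T => (z i, z j)) := fun i j =>
    (measurable_pi_apply i).prodMk (measurable_pi_apply j)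
  have hJij : ∀ i j, ∀ Φ : C(T × T, ℝ),
      Tendsto (fun k => (∑ p ∈ G k, Φ (pt (x k i) (x k j) p)) / ((G k).card : ℝ)) U
        (𝓝 (∫ z, Φ z ∂(J.map fun z : ι → T => (z i, z j)))) := by
    intro i j Φ
    have h1 := hJ ⟨fun z : ι → T => Φ (z i, z j), Φ.continuous.comp
      ((continuous_apply i).prodMk (continuous_apply j))⟩
    rw [integral_map (hpm i j).aemeasurable Φ.continuous.aestronglyMeasurable]
    exact h1
  have hJp' : ∀ i j, IsProbabilityMeasure (J.map fun z : ι → T => (z i, z j)) := fun i j =>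
    Measure.isProbabilityMeasure_map (hpm i j).aemeasurable
  have h2 := fun i j => inv_two G hG (fun k => x k i) (fun k => x k j) U hU1 h10
    (J.map fun z : ι → T => (z i, z j)) (hJij i j)
  have h3 := fun i j => inv_three G hG (fun k => x k i) (fun k => x k j) U hU1 h01
    (J.map fun z : ι → T => (z i, z j)) (hJij i j)
  have hdl := fun i j (hij : i ≠ j) => dif_law G hG (fun k => x k i) (fun k => x k j) U hU1
    (hd i j hij) (J.map fun z : ι → T => (z i, z j)) (hJij i j)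
  obtain ⟨t, ht, hts, htf⟩ := k_sum J h2 h3 hdl
  have hA : ∀ᶠ k in (U : Filter ℕ), ∀ i, ∀ f ∈ F,
      t i * (∫ z, f z ∂(volume : Measure T)) - δ ≤ avg (G k) f (x k i) := by
    rw [Filter.eventually_all]
    intro i
    rw [Filter.eventually_all_finset]
    intro f hf
    have h1 := hJ ⟨fun z : ι → T => f (z i), f.continuous.comp (continuous_apply i)⟩
    have hlt : t i * (∫ z, f z ∂(volume : Measure T)) - δ < ∫ z : ι → T, f (z i) ∂J := by
      have := htf i f (hF f hf)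
      linarith
    filter_upwards [h1.eventually_const_lt hlt] with k hk
    exact hk.le
  obtain ⟨k, hk1, hk2⟩ := (hA.and hU2).exists
  exact hk2 ⟨t, ht, hts, hk1⟩

end Pool.Agent.Half
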