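import Pool.Agent.Half.Dec
import Pool.Agent.Half.Near

/-! Joinings of `k` points all of whose differences are Lebesgue: together they miss at most one copy of
Lebesgue measure. `S` from `dec` for the mean of the marginals; for `i ≠ j` the set `{z i ∈ S, z j ∈ S}` is null (the law
of the difference on it is invariant and `≤ volume`, so a multiple of `volume`, but it lives on a small set), so the
events `{z i ∈ S}` are almost disjoint. -/

open MeasureTheory Filter Topology Set
open scoped ENNReal

namespace Pool.Agent.Half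

private theorem kinv {K : Measure (T × T)} (m : ℕ)
    (h : MeasurePreserving (fun z : T × T => (m • z.1, m • z.2)) K K) (q : T × T → T)
    (hq : Measurable q) (hc : ∀ z : T × T, q (m • z.1, m • z.2) = m • q z) :
    MeasurePreserving (fun x : T => m • x) (K.map q) (K.map q) := by
  have hm : Measurable (fun x : T => m • x) := (continuous_nsmul m).measurable
  refine ⟨hm, ?_⟩
  rw [Measure.map_map hm hq]
  have h1 : (fun x : T => m • x) ∘ q = q ∘ (fun z : T × T => (m • z.1, m • z.2)) := by
    funext z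
    exact (hc z).symm
  rw [h1, ← Measure.map_map hq h.measurable, h.map_eq]

/-- Two coordinates with Lebesgue difference are not both in the singular set. -/
theorem pair_null (J : Measure (T × T)) [IsProbabilityMeasure J]
    (h2 : MeasurePreserving (fun z : T × T => ((2 : ℕ) • z.1, (2 : ℕ) • z.2)) J J)
    (hd : J.map (fun z : T × T => z.2 - z.1) = volume) (ν : Measure T) (K : ℝ≥0∞) (hK : K ≠ ⊤)
    (hK0 : K ≠ 0)
    (hν₁ : ∀ A, J.map Prod.fst A ≤ K * ν A) (hν₂ : ∀ A, J.map Prod.snd A ≤ K * ν A)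
    (S : Set T) (hS : MeasurableSet S) (hS2 : (fun x : T => (2 : ℕ) • x) ⁻¹' S = S)
    (hcov : ∀ δ : ℝ≥0∞, δ ≠ 0 → ∃ (L : ℕ) (W : Finset ℕ), 64 * W.card ^ 2 ≤ 2 ^ L ∧
        ν (S ∩ {x | LogSc.cell 2 L x ∉ W}) ≤ δ) : J (S ×ˢ S) = 0 := by
  by_contra hc0
  set c := J (S ×ˢ S) with hc
  have hctop : c ≠ ⊤ := measure_ne_top J _
  have hSS : MeasurableSet (S ×ˢ S) := hS.prod hS
  have hq : Measurable (fun z : T × T => z.2 - z.1) := measurable_snd.sub measurable_fst
  have h4 : MeasurePreserving (fun z : T × T => ((2 : ℕ) • z.1, (2 : ℕ) • z.2))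
      (J.restrict (S ×ˢ S)) (J.restrict (S ×ˢ S)) := by
    have h5 := h2.restrict_preimage hSS
    have h6 : (fun z : T × T => ((2 : ℕ) • z.1, (2 : ℕ) • z.2)) ⁻¹' (S ×ˢ S) = S ×ˢ S := by
      ext z
      have e1 : (2 : ℕ) • z.1 ∈ S ↔ z.1 ∈ S := by
        conv_rhs => rw [← hS2]
        exact Iff.rfl
      have e2 : (2 : ℕ) • z.2 ∈ S ↔ z.2 ∈ S := by
        conv_rhs => rw [← hS2]
        exact Iff.rfl
      simp only [mem_preimage, mem_prod]
      rw [e1, e2]
    rwa [h6] at h5
  set κ := (J.restrict (S ×ˢ S)).map (fun z : T × T => z.2 - z.1) with hκ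
  have hκf : IsFiniteMeasure κ := Measure.isFiniteMeasure_map _ _
  have hκac : κ ≪ volume := by
    have h5 : κ ≤ J.map (fun z : T × T => z.2 - z.1) :=
      Measure.map_mono Measure.restrict_le_self hq
    rw [hd] at h5
    exact Measure.absolutelyContinuous_of_le h5
  have hκe := erg_smul κ (kinv 2 h4 (fun z => z.2 - z.1) hq (fun z => (nsmul_sub _ _ _).symm))
    hκac
  have hκu : κ univ = c := by
    rw [hκ, Measure.map_apply hq MeasurableSet.univ, preimage_univ, Measure.restrict_apply_univ]
  rw [hκu] at hκe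
  obtain ⟨L, W, hLW, hW⟩ := hcov (K⁻¹ * (c / 16)) (by
    rw [ne_eq, mul_eq_zero, not_or]
    refine ⟨ENNReal.inv_ne_zero.2 hK, ?_⟩
    simp only [ENNReal.div_eq_zero_iff, not_or]
    exact ⟨hc0, by norm_num⟩)
  obtain ⟨V, hV, hV1, hV2⟩ := near L W hLW
  have h5 : c ≤ κ V + (c / 16 + c / 16) := by
    set B := S ∩ {x | LogSc.cell 2 L x ∉ W} with hB
    have hb : K * ν B ≤ c / 16 := by
      calc K * ν B ≤ K * (K⁻¹ * (c / 16)) := by gcongr
        _ = c / 16 := by rw [← mul_assoc, ENNReal.mul_inv_cancel hK0 hK, one_mul]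
    calc c = J (S ×ˢ S) := rfl
      _ ≤ J (((fun z : T × T => z.2 - z.1) ⁻¹' V ∩ (S ×ˢ S)) ∪
            (Prod.fst ⁻¹' B ∪ Prod.snd ⁻¹' B)) := by
          apply measure_mono
          intro z hz
          by_cases hz1 : LogSc.cell 2 L z.1 ∈ W
          · by_cases hz2 : LogSc.cell 2 L z.2 ∈ W
            · exact Or.inl ⟨hV2 _ _ hz1 hz2, hz⟩
            · exact Or.inr (Or.inr ⟨hz.2, hz2⟩)
          · exact Or.inr (Or.inl ⟨hz.1, hz1⟩)
      _ ≤ J ((fun z : T × T => z.2 - z.1) ⁻¹' V ∩ (S ×ˢ S)) +
            (J (Prod.fst ⁻¹' B) + J (Prod.snd ⁻¹' B)) :=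
          (measure_union_le _ _).trans (add_le_add_right (measure_union_le _ _) _)
      _ ≤ κ V + (J.map Prod.fst B + J.map Prod.snd B) := by
          gcongr
          · rw [hκ, Measure.map_apply hq hV.measurableSet, Measure.restrict_apply
              (hq hV.measurableSet)]
          · exact Measure.le_map_apply measurable_fst.aemeasurable B
          · exact Measure.le_map_apply measurable_snd.aemeasurable B
      _ ≤ κ V + (c / 16 + c / 16) := by
          gcongr
          · exact (hν₁ B).trans hb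
          · exact (hν₂ B).trans hb
  have h6 : κ V ≤ c / 16 := by
    rw [hκe, Measure.smul_apply, smul_eq_mul, div_eq_mul_inv]
    gcongr
    rwa [one_div] at hV1
  have h7 : c ≤ c / 16 + (c / 16 + c / 16) := h5.trans (by gcongr)
  have hf : c / 16 ≠ ⊤ := ENNReal.div_ne_top hctop (by norm_num)
  have h8 := ENNReal.toReal_mono (ENNReal.add_ne_top.2 ⟨hf, ENNReal.add_ne_top.2 ⟨hf, hf⟩⟩) h7
  rw [ENNReal.toReal_add hf (ENNReal.add_ne_top.2 ⟨hf, hf⟩), ENNReal.toReal_add hf hf,
    ENNReal.toReal_div, ENNReal.toReal_ofNat] at h8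
  have h9 : 0 < c.toReal := ENNReal.toReal_pos hc0 hctop
  linarith

private theorem kfinal {ν : Measure T} [IsProbabilityMeasure ν] {S : Set T}
    (he : ν.restrict Sᶜ = ν Sᶜ • (volume : Measure T))
    (f : C(T, ℝ)) (hf : ∀ x, 0 ≤ f x) :
    (ν Sᶜ).toReal * (∫ x, f x ∂(volume : Measure T)) ≤ ∫ x, f x ∂ν := by
  have hint : ∀ μ : Measure T, IsFiniteMeasure μ → Integrable (fun x => f x) μ := by
    intro μ hμ
    exact (BoundedContinuousFunction.mkOfCompact f).integrable μ
  have h1 : ∫ x in Sᶜ, f x ∂ν ≤ ∫ x, f x ∂ν :=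
    setIntegral_le_integral (hint ν inferInstance) (Filter.Eventually.of_forall hf)
  rwa [he, integral_smul_measure, smul_eq_mul] at h1

/-- **The `k`-point lemma.** -/
theorem k_sum {ι : Type*} [Fintype ι] [Nonempty ι] (J : Measure (ι → T)) [IsProbabilityMeasure J]
    (h2 : ∀ i j, MeasurePreserving (fun z : T × T => ((2 : ℕ) • z.1, (2 : ℕ) • z.2))
      (J.map fun z => (z i, z j)) (J.map fun z => (z i, z j)))
    (h3 : ∀ i j, MeasurePreserving (fun z : T × T => ((3 : ℕ) • z.1, (3 : ℕ) • z.2))
      (J.map fun z => (z i, z j)) (J.map fun z => (z i, z j)))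
    (hd : ∀ i j, i ≠ j → (J.map fun z => (z i, z j)).map (fun z : T × T => z.2 - z.1) = volume) :
    ∃ t : ι → ℝ, (∀ i, 0 ≤ t i ∧ t i ≤ 1) ∧ ∑ i, (1 - t i) ≤ 1 ∧
      ∀ i, ∀ f : C(T, ℝ), (∀ x, 0 ≤ f x) →
        t i * ∫ x, f x ∂(volume : Measure T) ≤ ∫ z, f (z i) ∂J := by
  classical
  have hpm : ∀ i j, Measurable (fun z : ι → T => (z i, z j)) := fun i j =>
    (measurable_pi_apply i).prodMk (measurable_pi_apply j)
  set μ : ι → Measure T := fun i => J.map (fun z => z i) with hμ
  have hμp : ∀ i, IsProbabilityMeasure (μ i) := fun i =>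
    Measure.isProbabilityMeasure_map (measurable_pi_apply i).aemeasurable
  have hfst : ∀ i j, (J.map fun z => (z i, z j)).map Prod.fst = μ i := by
    intro i j
    rw [Measure.map_map measurable_fst (hpm i j)]
    rfl
  have hsnd : ∀ i j, (J.map fun z => (z i, z j)).map Prod.snd = μ j := by
    intro i j
    rw [Measure.map_map measurable_snd (hpm i j)]
    rfl
  have i2 : ∀ i, MeasurePreserving (fun x : T => (2 : ℕ) • x) (μ i) (μ i) := by
    intro i
    have := kinv 2 (h2 i i) Prod.fst measurable_fst (fun _ => rfl)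
    rwa [hfst] at this
  have i3 : ∀ i, MeasurePreserving (fun x : T => (3 : ℕ) • x) (μ i) (μ i) := by
    intro i
    have := kinv 3 (h3 i i) Prod.fst measurable_fst (fun _ => rfl)
    rwa [hfst] at this
  set K : ℝ≥0∞ := (Fintype.card ι : ℝ≥0∞) with hKd
  have hK0 : K ≠ 0 := by
    rw [hKd, ne_eq, Nat.cast_eq_zero]
    exact Fintype.card_ne_zero
  have hK : K ≠ ⊤ := ENNReal.natCast_ne_top _
  set ν : Measure T := K⁻¹ • ∑ i, μ i with hν
  have hKν : ∀ A, K * ν A = ∑ i, μ i A := by
    intro A
    rw [hν, Measure.smul_apply, Measure.finsetSum_apply, smul_eq_mul, ← mul_assoc,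
      ENNReal.mul_inv_cancel hK0 hK, one_mul]
  have hp : IsProbabilityMeasure ν := by
    constructor
    rw [hν, Measure.smul_apply, Measure.finsetSum_apply]
    simp only [measure_univ, Finset.sum_const, Finset.card_univ, nsmul_eq_mul, mul_one, smul_eq_mul]
    exact ENNReal.inv_mul_cancel hK0 hK
  have hle : ∀ i A, μ i A ≤ K * ν A := by
    intro i A
    rw [hKν]
    exact Finset.single_le_sum (f := fun i => μ i A) (fun _ _ => zero_le) (Finset.mem_univ i)
  have hmix : ∀ m : ℕ, (∀ i, MeasurePreserving (fun x : T => m • x) (μ i) (μ i)) →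
      MeasurePreserving (fun x : T => m • x) ν ν := by
    intro m hm
    have hmm : Measurable (fun x : T => m • x) := (continuous_nsmul m).measurable
    refine ⟨hmm, ?_⟩
    ext A hA
    rw [Measure.map_apply hmm hA, hν, Measure.smul_apply, Measure.smul_apply,
      Measure.finsetSum_apply, Measure.finsetSum_apply]
    congr 1
    refine Finset.sum_congr rfl fun i _ => ?_
    exact (hm i).measure_preimage hA.nullMeasurableSet
  obtain ⟨S, hS, hS2, hS3, hvS, hdec, hcov⟩ := dec ν (hmix 2 i2) (hmix 3 i3)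
  have hSc2 : (fun x : T => (2 : ℕ) • x) ⁻¹' Sᶜ = Sᶜ := by rw [preimage_compl, hS2]
  have hac : ν.restrict Sᶜ ≪ volume := by
    rw [hdec, Measure.restrict_add, Measure.restrict_smul, Measure.restrict_restrict hS.compl]
    have h0 : Sᶜ ∩ S = ∅ := by rw [inter_comm, inter_compl_self]
    rw [h0, Measure.restrict_empty, add_zero]
    exact (Measure.smul_absolutelyContinuous).trans Measure.absolutelyContinuous_restrict
  have key : ∀ i, (μ i).restrict Sᶜ = μ i Sᶜ • (volume : Measure T) := by
    intro i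
    have h4 : MeasurePreserving (fun x : T => (2 : ℕ) • x) ((μ i).restrict Sᶜ)
        ((μ i).restrict Sᶜ) := by
      have h5 := (i2 i).restrict_preimage hS.compl
      rwa [hSc2] at h5
    have h5 : (μ i).restrict Sᶜ ≪ volume := by
      refine Measure.AbsolutelyContinuous.trans ?_ hac
      refine Measure.AbsolutelyContinuous.restrict ?_ _
      intro A hA
      have h6 := hle i A
      rw [hA, mul_zero] at h6
      exact le_antisymm h6 (by simp)
    have h6 := erg_smul ((μ i).restrict Sᶜ) h4 h5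
    rw [Measure.restrict_apply_univ] at h6
    exact h6
  -- the events are almost disjoint
  have hmE : ∀ i, MeasurableSet {z : ι → T | z i ∈ S} := fun i => measurable_pi_apply i hS
  have hdis : ∑ i, μ i S ≤ 1 := by
    have h4 : ∀ i, μ i S = J {z | z i ∈ S} := fun i =>
      Measure.map_apply (measurable_pi_apply i) hS
    have h5 : ∑ i, J {z | z i ∈ S} = J (⋃ i, {z | z i ∈ S}) := by
      rw [measure_iUnion₀, tsum_fintype]
      · intro i j hij
        have hJp : IsProbabilityMeasure (J.map fun z : ι → T => (z i, z j)) :=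
          Measure.isProbabilityMeasure_map (hpm i j).aemeasurable
        have h6 := pair_null (J.map fun z : ι → T => (z i, z j))
          (h2 := h2 i j) (hd := hd i j hij) ν K hK hK0 (fun A => by rw [hfst]; exact hle i A)
          (fun A => by rw [hsnd]; exact hle j A) S hS hS2 hcov
        rw [Measure.map_apply (hpm i j) (hS.prod hS)] at h6
        exact h6
      · intro i
        exact (hmE i).nullMeasurableSet
    calc ∑ i, μ i S = J (⋃ i, {z | z i ∈ S}) := by
          rw [← h5]
          exact Finset.sum_congr rfl fun i _ => h4 i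
      _ ≤ J univ := measure_mono (subset_univ _)
      _ = 1 := measure_univ
  refine ⟨fun i => (μ i Sᶜ).toReal, fun i => ⟨ENNReal.toReal_nonneg, ?_⟩, ?_, fun i f hf => ?_⟩
  · exact ENNReal.toReal_le_of_le_ofReal zero_le_one (by rw [ENNReal.ofReal_one]; exact prob_le_one)
  · have h4 : ∀ i, 1 - (μ i Sᶜ).toReal = (μ i S).toReal := by
      intro i
      rw [prob_compl_eq_one_sub hS, ENNReal.toReal_sub_of_le prob_le_one ENNReal.one_ne_top,
        ENNReal.toReal_one]
      ring
    have h5 : ∑ i, (1 - (μ i Sᶜ).toReal) = (∑ i, μ i S).toReal := by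
      rw [ENNReal.toReal_sum (fun i _ => measure_ne_top _ _)]
      exact Finset.sum_congr rfl fun i _ => h4 i
    rw [h5]
    exact ENNReal.toReal_le_of_le_ofReal zero_le_one (by rw [ENNReal.ofReal_one]; exact hdis)
  · have h4 := kfinal (key i) f hf
    rwa [hμ, integral_map (measurable_pi_apply i).aemeasurable
      f.continuous.aestronglyMeasurable] at h4

end Pool.Agent.Half
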