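import Mathlib

/-! Module NETA. A net of scales, pure analysis. PROOF: `n 0 = A0` large, `n (j+1) = n j + ⌈(log (n j)) ^ κ⌉` (so the gap is between
`(log n_j) ^ κ ≥ 1` and `2 (log n_j) ^ κ`). Put `a = κ + κ' - 1 > 0`, `G(x) = (log x) ^ (-a)`, `r_j = ⌊(log n_j) ^ κ'⌋ ≥ (log n_j) ^ κ' / 2`. Mean value
theorem (`G' = - a (log x) ^ (-a-1) / x`, monotone; `n_(j+1) ≤ n_j ^ 2`, `n_(j+1) ≤ 2 n_j`): `G(n_j) - G(n_(j+1)) ≥ (n_(j+1) - n_j) a
(log n_(j+1)) ^ (-a-1) / n_(j+1) ≥ c (log n_j) ^ (-κ') / n_j ≥ c' / (n_j r_j)`. Telescoping: the sum over `j1 ≤ j < J` is `≤ C (log n_(j1)) ^ (-a)`.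
`j1` = first `j` with `L ≤ r_j + 1` (`r_j` is nondecreasing): `(1 + L) ≤ r_(j1) + 2 ≤ 3 (log n_(j1)) ^ κ'`, so `(log n_(j1)) ^ (-a) ≤ C (1 + L) ^ (- a / κ') ≤
C (1 + L) ^ (-c)`. -/

open Filter Topology

namespace Pool.Agent.Half

/-- the net -/
private noncomputable def NETA_n (κ : ℝ) : ℕ → ℕ
  | 0 => 3
  | j + 1 => NETA_n κ j + ⌈(Real.log (NETA_n κ j)) ^ κ⌉₊

private theorem NETA_three (κ : ℝ) (j : ℕ) : 3 ≤ NETA_n κ j := by
  induction j with
  | zero => exact le_rfl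
  | succ j ih => exact ih.trans (Nat.le_add_right _ _)

private theorem NETA_log {n : ℕ} (hn : 3 ≤ n) : 1 < Real.log n := by
  have h1 : (3 : ℝ) ≤ n := by exact_mod_cast hn
  have h2 : Real.exp 1 < 3 := Real.exp_one_lt_three
  rw [Real.lt_log_iff_exp_lt (by linarith)]
  linarith

private theorem NETA_one {n : ℕ} (hn : 3 ≤ n) {κ : ℝ} (hκ : 0 ≤ κ) : 1 ≤ (Real.log n) ^ κ :=
  Real.one_le_rpow (NETA_log hn).le hκ

/-- convexity of `u ^ (-a)` -/
private theorem NETA_conv {a u v : ℝ} (ha : 0 ≤ a) (hu : 0 < u) (huv : u ≤ v) :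
    a * v ^ (-a - 1) * (v - u) ≤ u ^ (-a) - v ^ (-a) := by
  have hv : 0 < v := hu.trans_le huv
  have ht : 0 < u / v := div_pos hu hv
  have h1 : Real.log (u / v) ≤ u / v - 1 := Real.log_le_sub_one_of_pos ht
  have h2 : 1 + a * (1 - u / v) ≤ (u / v) ^ (-a) := by
    rw [Real.rpow_def_of_pos ht]
    have h3 := Real.add_one_le_exp (Real.log (u / v) * (-a))
    nlinarith [mul_le_mul_of_nonneg_left h1 ha]
  have h4 : u ^ (-a) = v ^ (-a) * (u / v) ^ (-a) := by
    rw [← Real.mul_rpow hv.le ht.le, mul_div_cancel₀ _ hv.ne']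
  have h5 : v ^ (-a - 1) = v ^ (-a) / v := by
    rw [Real.rpow_sub_one hv.ne']
  rw [h4, h5]
  have h6 : 0 < v ^ (-a) := Real.rpow_pos_of_pos hv _
  have h7 := mul_le_mul_of_nonneg_left h2 h6.le
  have h8 : a * (v ^ (-a) / v) * (v - u) = v ^ (-a) * (a * (1 - u / v)) := by
    field_simp
  rw [h8]
  linarith

private theorem NETA_tel (F : ℕ → ℝ) (j1 J : ℕ) (h : j1 ≤ J) :
    ∑ j ∈ Finset.Ico j1 J, (F j - F (j + 1)) = F j1 - F J := by
  induction J, h using Nat.le_induction with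
  | base => simp
  | succ J hJ ih => rw [Finset.sum_Ico_succ_top hJ, ih]; ring

theorem net_exists {κ κ' c : ℝ} (h0 : 0 < κ) (h1 : κ < κ') (h2 : 1 < κ + κ') (hc : c ≤ (κ + κ' - 1) / κ') :
    ∃ (n : ℕ → ℕ) (C : ℝ), StrictMono n ∧
      (∀ j, 3 ≤ n j ∧ 1 ≤ ⌊(Real.log (n j)) ^ κ'⌋₊) ∧
      (∀ j, (n (j + 1) : ℝ) ≤ n j + 2 * (Real.log (n j)) ^ κ) ∧
      ∀ L : ℝ, 0 ≤ L → ∀ J : ℕ,
        ∑ j ∈ (Finset.range J).filter (fun j => L ≤ (⌊(Real.log (n j)) ^ κ'⌋₊ : ℝ) + 1),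
          1 / ((n j : ℝ) * ⌊(Real.log (n j)) ^ κ'⌋₊) ≤ C * (1 + L) ^ (-c) := by
  have hκ' : 0 < κ' := h0.trans h1
  set a : ℝ := κ + κ' - 1 with ha
  have ha0 : 0 < a := by linarith
  set n : ℕ → ℕ := NETA_n κ with hn
  have h3 : ∀ j, 3 ≤ n j := NETA_three κ
  have hlog : ∀ j, 1 < Real.log (n j) := fun j => NETA_log (h3 j)
  have hstep : ∀ j, n (j + 1) = n j + ⌈(Real.log (n j)) ^ κ⌉₊ := fun j => rfl
  have hy : ∀ j, 1 ≤ (Real.log (n j)) ^ κ := fun j => NETA_one (h3 j) h0.le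
  have hy' : ∀ j, 1 ≤ (Real.log (n j)) ^ κ' := fun j => NETA_one (h3 j) hκ'.le
  have hmono : StrictMono n := by
    refine strictMono_nat_of_lt_succ fun j => ?_
    rw [hstep]
    have : 0 < ⌈(Real.log (n j)) ^ κ⌉₊ := Nat.ceil_pos.2 (by linarith [hy j])
    omega
  have hfl : ∀ j, 1 ≤ ⌊(Real.log (n j)) ^ κ'⌋₊ := fun j => by
    rw [Nat.one_le_floor_iff]
    exact hy' j
  have hgap : ∀ j, (n (j + 1) : ℝ) ≤ n j + 2 * (Real.log (n j)) ^ κ := by
    intro j
    rw [hstep]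
    push_cast
    have := Nat.ceil_lt_add_one (show 0 ≤ (Real.log (n j)) ^ κ by linarith [hy j])
    linarith [hy j]
  have hgap' : ∀ j, (n j : ℝ) + (Real.log (n j)) ^ κ ≤ n (j + 1) := by
    intro j
    rw [hstep]
    push_cast
    linarith [Nat.le_ceil ((Real.log (n j)) ^ κ)]
  -- constants
  set K : ℝ := 1 + 2 * κ ^ κ with hK
  have hK1 : 1 < K := by
    have := Real.rpow_pos_of_pos h0 κ
    linarith
  have hx : ∀ j, (0 : ℝ) < n j := fun j => by
    have := h3 j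
    exact_mod_cast (by omega : 0 < n j)
  have hratio : ∀ j, (n (j + 1) : ℝ) ≤ K * n j := by
    intro j
    have e1 := Real.log_le_rpow_div (hx j).le (one_div_pos.2 h0)
    have e2 : (Real.log (n j)) ^ κ ≤ κ ^ κ * n j := by
      calc (Real.log (n j)) ^ κ ≤ ((n j : ℝ) ^ (1 / κ) / (1 / κ)) ^ κ :=
            Real.rpow_le_rpow (by linarith [hlog j]) e1 h0.le
        _ = κ ^ κ * n j := by
            rw [div_div_eq_mul_div, div_one, Real.mul_rpow (by positivity) h0.le,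
              ← Real.rpow_mul (hx j).le, one_div_mul_cancel h0.ne', Real.rpow_one]
            ring
    have := hgap j
    rw [hK]
    linarith
  set M : ℝ := 1 + Real.log K with hM
  have hM1 : 1 < M := by
    have := Real.log_pos hK1
    linarith
  have hM0 : 0 < M := by linarith
  have hK0 : 0 < K := by linarith
  have hlog2 : ∀ j, Real.log (n (j + 1)) ≤ M * Real.log (n j) := by
    intro j
    calc Real.log (n (j + 1)) ≤ Real.log (K * n j) := Real.log_le_log (hx _) (hratio j)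
      _ = Real.log K + Real.log (n j) := Real.log_mul hK0.ne' (hx j).ne'
      _ ≤ M * Real.log (n j) := by
          have := mul_le_mul_of_nonneg_left (hlog j).le (Real.log_pos hK1).le
          rw [hM]
          linarith
  have hlog3 : ∀ j, (Real.log (n j)) ^ κ / (K * n j) ≤ Real.log (n (j + 1)) - Real.log (n j) := by
    intro j
    rw [← Real.log_div (hx _).ne' (hx _).ne']
    have e1 := Real.one_sub_inv_le_log_of_pos (div_pos (hx (j + 1)) (hx j))
    refine le_trans ?_ e1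
    rw [inv_div]
    have e2 : 1 - (n j : ℝ) / n (j + 1) = ((n (j + 1) : ℝ) - n j) / n (j + 1) := by
      rw [sub_div, div_self (hx _).ne']
    rw [e2, div_le_div_iff₀ (mul_pos hK0 (hx j)) (hx _)]
    have e3 := hgap' j
    have e4 := hratio j
    have e5 : 0 < (Real.log (n j)) ^ κ := by linarith [hy j]
    calc (Real.log (n j)) ^ κ * n (j + 1) ≤ (Real.log (n j)) ^ κ * (K * n j) :=
          mul_le_mul_of_nonneg_left e4 e5.le
      _ ≤ ((n (j + 1) : ℝ) - n j) * (K * n j) :=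
          mul_le_mul_of_nonneg_right (by linarith) (mul_pos hK0 (hx j)).le
  set F : ℕ → ℝ := fun j => (Real.log (n j)) ^ (-a) with hF
  set c1 : ℝ := a * M ^ (-a - 1) / K with hc1
  have hc10 : 0 < c1 := by
    have := Real.rpow_pos_of_pos hM0 (-a - 1)
    positivity
  have hterm : ∀ j, c1 * ((Real.log (n j)) ^ (-κ') / n j) ≤ F j - F (j + 1) := by
    intro j
    have hl0 : 0 < Real.log (n j) := by linarith [hlog j]
    have hl1 : 0 < Real.log (n (j + 1)) := by linarith [hlog (j + 1)]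
    have hle : Real.log (n j) ≤ Real.log (n (j + 1)) := by
      have e1 := hlog3 j
      have e2 : 0 ≤ (Real.log (n j)) ^ κ / (K * n j) := by
        have := hx j
        positivity
      linarith
    refine le_trans ?_ (NETA_conv ha0.le hl0 hle)
    have e1 : (M * Real.log (n j)) ^ (-a - 1) ≤ (Real.log (n (j + 1))) ^ (-a - 1) :=
      Real.rpow_le_rpow_of_nonpos hl1 (hlog2 j) (by linarith)
    have e2 : c1 * ((Real.log (n j)) ^ (-κ') / n j) =
        a * (M * Real.log (n j)) ^ (-a - 1) * ((Real.log (n j)) ^ κ / (K * n j)) := by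
      rw [Real.mul_rpow hM0.le hl0.le, hc1]
      have e3 : (Real.log (n j)) ^ (-κ') = (Real.log (n j)) ^ (-a - 1) * (Real.log (n j)) ^ κ := by
        rw [← Real.rpow_add hl0]
        congr 1
        rw [ha]
        ring
      rw [e3]
      have := (hx j).ne'
      field_simp
    rw [e2]
    have e4 : 0 ≤ (Real.log (n j)) ^ κ / (K * n j) := by
      have := hx j
      positivity
    have e5 : 0 ≤ (Real.log (n (j + 1))) ^ (-a - 1) := (Real.rpow_pos_of_pos hl1 _).le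
    calc a * (M * Real.log (n j)) ^ (-a - 1) * ((Real.log (n j)) ^ κ / (K * n j))
        ≤ a * (Real.log (n (j + 1))) ^ (-a - 1) * ((Real.log (n j)) ^ κ / (K * n j)) :=
          mul_le_mul_of_nonneg_right (mul_le_mul_of_nonneg_left e1 ha0.le) e4
      _ ≤ a * (Real.log (n (j + 1))) ^ (-a - 1) *
          (Real.log (n (j + 1)) - Real.log (n j)) :=
          mul_le_mul_of_nonneg_left (hlog3 j) (mul_nonneg ha0.le e5)
  have hrle : ∀ j, (⌊(Real.log (n j)) ^ κ'⌋₊ : ℝ) ≤ (Real.log (n j)) ^ κ' := fun j =>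
    Nat.floor_le (by linarith [hy' j])
  have hrge : ∀ j, (Real.log (n j)) ^ κ' / 2 ≤ (⌊(Real.log (n j)) ^ κ'⌋₊ : ℝ) := fun j => by
    have e1 := Nat.lt_floor_add_one ((Real.log (n j)) ^ κ')
    have e2 : (1 : ℝ) ≤ (⌊(Real.log (n j)) ^ κ'⌋₊ : ℝ) := by exact_mod_cast hfl j
    linarith
  have hterm2 : ∀ j, 1 / ((n j : ℝ) * ⌊(Real.log (n j)) ^ κ'⌋₊) ≤ 2 / c1 * (F j - F (j + 1)) := by
    intro j
    have hl0 : 0 < Real.log (n j) := by linarith [hlog j]
    have e1 : 1 / ((n j : ℝ) * ⌊(Real.log (n j)) ^ κ'⌋₊) ≤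
        2 * ((Real.log (n j)) ^ (-κ') / n j) := by
      have e2 : 2 * ((Real.log (n j)) ^ (-κ') / n j) = 1 / ((n j : ℝ) * ((Real.log (n j)) ^ κ' / 2)) := by
        rw [Real.rpow_neg hl0.le]
        have := (hx j).ne'
        have := (Real.rpow_pos_of_pos hl0 κ').ne'
        field_simp
      rw [e2]
      refine one_div_le_one_div_of_le ?_ (mul_le_mul_of_nonneg_left (hrge j) (hx j).le)
      exact mul_pos (hx j) (by linarith [hy' j])
    refine e1.trans ?_
    have e3 := hterm j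
    rw [div_mul_eq_mul_div, le_div_iff₀ hc10]
    linarith
  have hFnn : ∀ j, 0 ≤ F j := fun j => (Real.rpow_pos_of_pos (by linarith [hlog j]) _).le
  have hFd : ∀ j, 0 ≤ F j - F (j + 1) := by
    intro j
    refine le_trans ?_ (hterm j)
    have := hx j
    have := Real.rpow_pos_of_pos (show 0 < Real.log (n j) by linarith [hlog j]) (-κ')
    positivity
  refine ⟨n, 2 / c1 * 3 ^ (a / κ'), hmono, fun j => ⟨h3 j, hfl j⟩, hgap, ?_⟩
  intro L hL J
  set S := (Finset.range J).filter (fun j => L ≤ (⌊(Real.log (n j)) ^ κ'⌋₊ : ℝ) + 1) with hS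
  have hL1 : 1 ≤ 1 + L := by linarith
  have hL0 : 0 < 1 + L := by linarith
  rcases S.eq_empty_or_nonempty with hE | hE
  · rw [hE, Finset.sum_empty]
    have := Real.rpow_pos_of_pos hL0 (-c)
    have : (0 : ℝ) < 3 ^ (a / κ') := Real.rpow_pos_of_pos (by norm_num) _
    positivity
  · set j1 := S.min' hE with hj1
    have hj1S : j1 ∈ S := S.min'_mem hE
    have hsub : S ⊆ Finset.Ico j1 J := by
      intro j hj
      rw [Finset.mem_Ico]
      exact ⟨S.min'_le j hj, Finset.mem_range.1 (Finset.mem_filter.1 hj).1⟩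
    have hj1J : j1 ≤ J := (Finset.mem_range.1 (Finset.mem_filter.1 hj1S).1).le
    have e1 : ∑ j ∈ S, 1 / ((n j : ℝ) * ⌊(Real.log (n j)) ^ κ'⌋₊) ≤ 2 / c1 * F j1 := by
      calc ∑ j ∈ S, 1 / ((n j : ℝ) * ⌊(Real.log (n j)) ^ κ'⌋₊)
          ≤ ∑ j ∈ S, 2 / c1 * (F j - F (j + 1)) := Finset.sum_le_sum fun j _ => hterm2 j
        _ ≤ ∑ j ∈ Finset.Ico j1 J, 2 / c1 * (F j - F (j + 1)) :=
            Finset.sum_le_sum_of_subset_of_nonneg hsub fun j _ _ =>
              mul_nonneg (by positivity) (hFd j)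
        _ = 2 / c1 * (F j1 - F J) := by rw [← Finset.mul_sum, NETA_tel F j1 J hj1J]
        _ ≤ 2 / c1 * F j1 := mul_le_mul_of_nonneg_left (by linarith [hFnn J]) (by positivity)
    refine e1.trans ?_
    rw [mul_assoc]
    refine mul_le_mul_of_nonneg_left ?_ (by positivity)
    -- lower bound for the logarithm
    have hl0 : 0 < Real.log (n j1) := by linarith [hlog j1]
    have e2 : (1 + L) / 3 ≤ (Real.log (n j1)) ^ κ' := by
      have f1 := (Finset.mem_filter.1 hj1S).2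
      have f2 := hrle j1
      have f3 := hy' j1
      linarith
    have e3 : F j1 = ((Real.log (n j1)) ^ κ') ^ (-(a / κ')) := by
      rw [← Real.rpow_mul hl0.le]
      show (Real.log (n j1)) ^ (-a) = _
      congr 1
      field_simp
    rw [e3]
    calc ((Real.log (n j1)) ^ κ') ^ (-(a / κ')) ≤ ((1 + L) / 3) ^ (-(a / κ')) :=
          Real.rpow_le_rpow_of_nonpos (by positivity) e2 (by
            have : 0 < a / κ' := div_pos ha0 hκ'
            linarith)
      _ = 3 ^ (a / κ') * (1 + L) ^ (-(a / κ')) := by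
          rw [Real.div_rpow hL0.le (by norm_num), Real.rpow_neg (by norm_num : (0 : ℝ) ≤ 3)]
          rw [div_inv_eq_mul, mul_comm]
      _ ≤ 3 ^ (a / κ') * (1 + L) ^ (-c) := by
          refine mul_le_mul_of_nonneg_left ?_ (Real.rpow_nonneg (by norm_num) _)
          exact Real.rpow_le_rpow_of_exponent_le hL1 (by linarith)

end Pool.Agent.Half
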