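import Pool.Agent.Half.BoxK
import Pool.Agent.LogSc.Nt

/-! The points `p ^ i θ`, `i < N`, for `θ` of order `q ^ t`, in a small ball (helper56). In a block of `q ^ t / 8` consecutive
`i` these points are distinct multiples of `q ^ (-t)`. -/

open MeasureTheory Filter Topology

namespace Pool.Agent.Half

/-- finitely many points of order dividing `Q` in a ball -/
theorem orb_ball {Q : ℕ} (hQ : 0 < Q) (S : Finset T) (hS : ∀ x ∈ S, Q • x = 0) (v : T) (ρ : ℝ) (hρ : 0 < ρ)
    (hv : ∀ x ∈ S, ‖x - v‖ ≤ ρ) : (S.card : ℝ) ≤ 4 * ρ * Q + 1 := by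
  classical
  have hQ' : (0 : ℝ) < Q := by exact_mod_cast hQ
  rcases S.eq_empty_or_nonempty with rfl | ⟨x0, hx0⟩
  · simp only [Finset.card_empty, Nat.cast_zero]
    positivity
  -- an integer for each difference
  have hk : ∀ x ∈ S, ∃ k : ℤ, |(k : ℝ)| ≤ 2 * ρ * Q ∧ x - x0 = (((k : ℝ) / Q : ℝ) : T) := by
    intro x hx
    obtain ⟨r, hr⟩ := QuotientAddGroup.mk_surjective (x - x0)
    have hr' : ((r : ℝ) : T) = x - x0 := hr
    have h0 : Q • (x - x0) = 0 := by rw [smul_sub, hS x hx, hS x0 hx0, sub_zero]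
    set y : ℝ := r - round r with hy
    have hy1 : ((y : ℝ) : T) = x - x0 := by
      rw [hy, AddCircle.coe_sub, hr']
      have : (((round r : ℤ) : ℝ) : T) = (round r : ℤ) • ((1 : ℝ) : T) := by
        rw [← AddCircle.coe_zsmul]; simp
      rw [this, AddCircle.coe_period, smul_zero, sub_zero]
    have hy2 : |y| = ‖x - x0‖ := by
      rw [← hr', UnitAddCircle.norm_eq]
    have h1 : (((Q : ℝ) * y : ℝ) : T) = 0 := by
      rw [← nsmul_eq_mul, AddCircle.coe_nsmul, hy1, h0]
    obtain ⟨k, hk⟩ := (AddCircle.coe_eq_zero_iff (1 : ℝ)).1 h1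
    have hk' : (k : ℝ) = Q * y := by
      rw [← hk]; simp
    refine ⟨k, ?_, ?_⟩
    · rw [hk', abs_mul, abs_of_pos hQ', hy2]
      have h2 : ‖x - x0‖ ≤ 2 * ρ := by
        have h3 : x - x0 = (x - v) - (x0 - v) := by abel
        rw [h3]
        have := norm_sub_le (x - v) (x0 - v)
        have h4 := hv x hx
        have h5 := hv x0 hx0
        linarith
      nlinarith
    · rw [hk', mul_div_cancel_left₀ _ hQ'.ne', hy1]
  choose! k hk1 hk2 using hk
  have hinj : Set.InjOn k S := by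
    intro x hx x' hx' h
    have h1 := hk2 x hx
    have h2 := hk2 x' hx'
    rw [h, ← h2] at h1
    exact sub_left_injective h1
  set n : ℕ := ⌊2 * ρ * Q⌋₊ with hn
  have hmaps : ∀ x ∈ S, k x ∈ Finset.Icc (-(n : ℤ)) n := by
    intro x hx
    have h1 : ((k x).natAbs : ℝ) ≤ 2 * ρ * Q := by
      rw [Nat.cast_natAbs, Int.cast_abs]
      exact hk1 x hx
    have h2 : (k x).natAbs ≤ n := Nat.le_floor h1
    rw [Finset.mem_Icc]
    omega
  have hcard := Finset.card_le_card_of_injOn k hmaps hinj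
  rw [Int.card_Icc] at hcard
  have h3 : S.card ≤ 2 * n + 1 := by omega
  have h4 : (n : ℝ) ≤ 2 * ρ * Q := Nat.floor_le (by positivity)
  have h5 : (S.card : ℝ) ≤ 2 * n + 1 := by exact_mod_cast h3
  linarith

theorem orb_inj {p q : ℕ} (hpq : PQ p q) {t : ℕ} {θ : T} (hθ : addOrderOf θ = q ^ t) {i d : ℕ} (hd : 0 < d)
    (h : (p ^ (i + d)) • θ = (p ^ i) • θ) : q ^ t ≤ 8 * d := by
  have hp1 : 1 ≤ p ^ d := by
    rcases hpq with ⟨rfl, rfl⟩ | ⟨rfl, rfl⟩ <;> exact Nat.one_le_pow _ _ (by norm_num)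
  have h1 : (p ^ i * (p ^ d - 1)) • θ = 0 := by
    have e : p ^ (i + d) = p ^ i * (p ^ d - 1) + p ^ i := by
      rw [pow_add, Nat.mul_sub, mul_one, Nat.sub_add_cancel]
      exact Nat.le_mul_of_pos_right _ hp1
    rw [e, add_smul] at h
    exact add_eq_right.1 h
  have h2 : q ^ t ∣ p ^ i * (p ^ d - 1) := by
    rw [← hθ]
    exact addOrderOf_dvd_of_nsmul_eq_zero h1
  have hco : Nat.Coprime (q ^ t) (p ^ i) := by
    rcases hpq with ⟨rfl, rfl⟩ | ⟨rfl, rfl⟩ <;> exact Nat.Coprime.pow _ _ (by norm_num)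
  have h3 : q ^ t ∣ p ^ d - 1 := hco.dvd_of_dvd_mul_left h2
  have h4 : q ^ t ∣ (p ^ 2) ^ d - 1 := by
    refine h3.trans ?_
    have e : (p ^ 2) ^ d - 1 = (p ^ d) ^ 2 - 1 ^ 2 := by rw [one_pow, ← pow_mul, ← pow_mul, mul_comm]
    rw [e]
    exact (Nat.sub_dvd_pow_sub_pow (p ^ d) 1 2)
  have hpm : LogSc.PM q (p ^ 2) := by
    rcases hpq with ⟨rfl, rfl⟩ | ⟨rfl, rfl⟩
    · exact Or.inl ⟨rfl, by norm_num⟩
    · exact Or.inr ⟨rfl, by norm_num⟩
  exact LogSc.nt1 hpm hd h4

theorem orb_count {p q : ℕ} (hpq : PQ p q) : ∃ C : ℝ, 0 < C ∧ ∀ (t N : ℕ) (θ : T), addOrderOf θ = q ^ t →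
    1 ≤ N → ∀ (v : T) (ρ : ℝ), 0 < ρ →
      (((Finset.range N).filter fun i => ‖(p ^ i) • θ - v‖ ≤ ρ).card : ℝ) ≤
        C * (ρ * N + N / (q : ℝ) ^ t + ρ * (q : ℝ) ^ t + 1) := by
  classical
  refine ⟨32, by norm_num, fun t N θ hθ _ v ρ hρ => ?_⟩
  have hq0 : 0 < q := by rcases hpq with ⟨_, rfl⟩ | ⟨_, rfl⟩ <;> norm_num
  set Q : ℕ := q ^ t with hQdef
  have hQ : 0 < Q := by positivity
  have hQ' : (0 : ℝ) < Q := by exact_mod_cast hQ
  have hQe : (q : ℝ) ^ t = Q := by rw [hQdef]; push_cast; rfl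
  set B : ℕ := (Q + 7) / 8 with hB
  have hB0 : 0 < B := by omega
  have hBQ : (Q : ℝ) ≤ 8 * B := by exact_mod_cast (by omega : Q ≤ 8 * B)
  have hBd : ∀ d, d < B → 8 * d < Q := by intro d hd; omega
  set s := (Finset.range N).filter fun i => ‖(p ^ i) • θ - v‖ ≤ ρ with hs
  set K : ℕ := ⌊4 * ρ * Q + 1⌋₊ with hK
  have h1 : s.card ≤ K * (Finset.range (N / B + 1)).card := by
    refine Finset.card_le_mul_card_image_of_maps_to (f := fun i => i / B) ?_ K ?_
    · intro i hi
      rw [hs, Finset.mem_filter, Finset.mem_range] at hi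
      rw [Finset.mem_range]
      exact Nat.lt_succ_of_le (Nat.div_le_div_right hi.1.le)
    · intro j _
      refine Nat.le_floor ?_
      have hinj : Set.InjOn (fun i : ℕ => (p ^ i) • θ) ((s.filter fun i => i / B = j : Finset ℕ) : Set ℕ) := by
        intro i hi i' hi' h
        rw [Finset.mem_coe, Finset.mem_filter] at hi hi'
        by_contra hne
        wlog hlt : i < i' generalizing i i' with H
        · exact H hi' hi h.symm (Ne.symm hne) (by omega)
        have hd : i' = i + (i' - i) := by omega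
        have h' : (p ^ (i + (i' - i))) • θ = (p ^ i) • θ := by
          rw [← hd]; exact h.symm
        have h2 := orb_inj hpq hθ (by omega : 0 < i' - i) h'
        have h3 : i' - i < B := by
          have e1 := Nat.div_add_mod i B
          have e2 := Nat.div_add_mod i' B
          rw [hi.2] at e1
          rw [hi'.2] at e2
          have e3 := Nat.mod_lt i hB0
          have e4 := Nat.mod_lt i' hB0
          omega
        have h4 := hBd _ h3
        omega
      have h5 := orb_ball hQ ((s.filter fun i => i / B = j).image fun i : ℕ => (p ^ i) • θ) (by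
        intro x hx
        obtain ⟨i, _, rfl⟩ := Finset.mem_image.1 hx
        rw [smul_comm, ← hθ, addOrderOf_nsmul_eq_zero, smul_zero]) v ρ hρ (by
        intro x hx
        obtain ⟨i, hi, rfl⟩ := Finset.mem_image.1 hx
        rw [Finset.mem_filter, hs, Finset.mem_filter] at hi
        exact hi.1.2)
      rwa [Finset.card_image_of_injOn hinj] at h5
  rw [Finset.card_range] at h1
  have h6 : (K : ℝ) ≤ 4 * ρ * Q + 1 := Nat.floor_le (by positivity)
  have h7 : ((N / B : ℕ) : ℝ) ≤ 8 * N / Q := by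
    refine Nat.cast_div_le.trans ?_
    rw [div_le_div_iff₀ (by exact_mod_cast hB0) hQ']
    have : (0 : ℝ) ≤ N := Nat.cast_nonneg _
    nlinarith
  have h8 : (s.card : ℝ) ≤ K * (((N / B : ℕ) : ℝ) + 1) := by exact_mod_cast h1
  rw [hQe]
  calc (s.card : ℝ) ≤ K * (((N / B : ℕ) : ℝ) + 1) := h8
    _ ≤ (4 * ρ * Q + 1) * (8 * N / Q + 1) := by
        refine mul_le_mul h6 (by linarith) (by positivity) (by positivity)
    _ = 32 * (ρ * N) + 8 * (N / Q) + 4 * (ρ * Q) + 1 := by
        field_simp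
        ring
    _ ≤ 32 * (ρ * N + N / Q + ρ * Q + 1) := by
        have a1 : (0 : ℝ) ≤ N / Q := by positivity
        have a2 : (0 : ℝ) ≤ ρ * Q := by positivity
        linarith

end Pool.Agent.Half
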