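import Pool.Agent.Half.BxF

/-! Module SEPC. The characters in the separation lemma. PROOF: `y - x = -θ + ζ`, `‖ζ‖ < 2^-n`. For `g = p^i q^b`, `i < N = n/4`,
`b < R`: `‖fourier m (g (y - x)) - fourier m (-(g θ))‖ ≤ 2π |m| g ‖ζ‖ ≤ 7 |m| 3^(n/4) 3^R 2^-n ≤ 7 |m| 2^(-n/4)` (`8 R ≤ n`,
`3^5 ≤ 2^8`). By `avgC_bx` the rest is the mean over `b < R` of the rows of `θ' = q^b (-θ)`, whose order is `q^(t - b)`,
`R ≤ t - b ≤ K N`: `KorP`. -/

open MeasureTheory Filter Topology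

namespace Pool.Agent.Half

/-- the character is Lipschitz -/
private theorem sepc_lip (m : ℤ) (v : T) : ‖(fourier m v : ℂ) - 1‖ ≤ 7 * |(m : ℝ)| * ‖v‖ := by
  obtain ⟨x, hx⟩ : ∃ x : ℝ, ((x : ℝ) : T) = v ∧ |x| = ‖v‖ := by
    obtain ⟨x, rfl⟩ := QuotientAddGroup.mk_surjective v
    refine ⟨x - round x, ?_, ?_⟩
    · change (((x - round x : ℝ)) : T) = ((x : ℝ) : T)
      rw [AddCircle.coe_sub]
      have : (((round x : ℤ) : ℝ) : T) = 0 := by
        have h : (((round x : ℤ) : ℝ) : T) = (round x : ℤ) • ((1 : ℝ) : T) := by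
          rw [← AddCircle.coe_zsmul]; simp
        rw [h, AddCircle.coe_period, smul_zero]
      rw [this, sub_zero]
    · change _ = ‖((x : ℝ) : T)‖
      rw [UnitAddCircle.norm_eq]
  obtain ⟨rfl, hx⟩ := hx
  rw [← hx, fourier_coe_apply]
  have e : (2 * Real.pi * Complex.I * (m : ℂ) * (x : ℂ) / ((1 : ℝ) : ℂ)) =
      ((2 * Real.pi * m * x : ℝ) : ℂ) * Complex.I := by
    push_cast; ring
  rw [e]
  have h1 : ‖Complex.exp (((2 * Real.pi * m * x : ℝ) : ℂ) * Complex.I) - 1‖ ≤ |2 * Real.pi * m * x| := by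
    have := Real.norm_exp_I_mul_ofReal_sub_one_le (x := 2 * Real.pi * m * x)
    rw [mul_comm Complex.I] at this
    exact this
  refine h1.trans ?_
  rw [abs_mul, abs_mul, abs_of_pos Real.two_pi_pos]
  have h2 : 2 * Real.pi ≤ 7 := by linarith [Real.pi_lt_d2]
  have := mul_le_mul_of_nonneg_right h2 (abs_nonneg (m : ℝ))
  exact mul_le_mul_of_nonneg_right this (abs_nonneg x)

private theorem sepc_add (m : ℤ) (x y : T) :
    (fourier m (x + y) : ℂ) = fourier m x * fourier m y := by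
  rw [fourier_apply, fourier_apply, fourier_apply, smul_add, AddCircle.toCircle_add]
  push_cast
  rfl

private theorem sepc_norm (m : ℤ) (x : T) : ‖(fourier m x : ℂ)‖ = 1 := by
  rw [fourier_apply]
  exact Circle.norm_coe _

private theorem sepc_diff (m : ℤ) (x ζ : T) :
    ‖(fourier m (x + ζ) : ℂ) - fourier m x‖ ≤ 7 * |(m : ℝ)| * ‖ζ‖ := by
  have e : (fourier m (x + ζ) : ℂ) - fourier m x = fourier m x * (fourier m ζ - 1) := by
    rw [sepc_add]; ring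
  rw [e, norm_mul, sepc_norm, one_mul]
  exact sepc_lip m ζ

private theorem sepc_order {q t b : ℕ} (hq : q.Prime) (hb : b ≤ t) {θ : T}
    (h : addOrderOf θ = q ^ t) : addOrderOf (q ^ b • (-θ)) = q ^ (t - b) := by
  have h1 : addOrderOf (-θ) = q ^ t := by rw [addOrderOf_neg, h]
  rw [addOrderOf_nsmul' _ (pow_pos hq.pos b).ne', h1,
    Nat.gcd_eq_right (pow_dvd_pow q hb), Nat.pow_div hb hq.pos]

private theorem sepc_g {p q : ℕ} (hpq : PQ p q) {n i b R : ℕ} (hi : i < n / 4) (hb : b < R)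
    (hR : 8 * R ≤ n) : ((p ^ i * q ^ b : ℕ) : ℝ) * (1 / 2 : ℝ) ^ n ≤ (1 / 2 : ℝ) ^ (n / 4) := by
  have hp : p ≤ 4 := by rcases hpq with ⟨rfl, rfl⟩ | ⟨rfl, rfl⟩ <;> norm_num
  have hq : q ≤ 4 := by rcases hpq with ⟨rfl, rfl⟩ | ⟨rfl, rfl⟩ <;> norm_num
  have h1 : p ^ i * q ^ b ≤ 2 ^ (2 * (i + b)) := by
    calc p ^ i * q ^ b ≤ 4 ^ i * 4 ^ b :=
          Nat.mul_le_mul (Nat.pow_le_pow_left hp i) (Nat.pow_le_pow_left hq b)
      _ = 2 ^ (2 * (i + b)) := by rw [← pow_add, pow_mul]; norm_num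
  have h2 : ((p ^ i * q ^ b : ℕ) : ℝ) ≤ 2 ^ (2 * (i + b)) := by exact_mod_cast h1
  have h3 : 2 * (i + b) + n / 4 ≤ n := by omega
  calc ((p ^ i * q ^ b : ℕ) : ℝ) * (1 / 2 : ℝ) ^ n
      ≤ 2 ^ (2 * (i + b)) * (1 / 2 : ℝ) ^ n := mul_le_mul_of_nonneg_right h2 (by positivity)
    _ ≤ 2 ^ (2 * (i + b)) * (1 / 2 : ℝ) ^ (2 * (i + b) + n / 4) :=
        mul_le_mul_of_nonneg_left (pow_le_pow_of_le_one (by norm_num) (by norm_num) h3)
          (by positivity)
    _ = (1 / 2 : ℝ) ^ (n / 4) := by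
        rw [pow_add, ← mul_assoc, ← mul_pow]; norm_num

theorem sep_char {p q : ℕ} (hpq : PQ p q) {K : ℕ → ℕ} (hK : KorP p q K) (n R t : ℕ → ℕ) (x y θ : ℕ → T)
    (hR : Tendsto R atTop atTop) (hn : ∀ k, 8 * R k ≤ n k) (ht : ∀ k, 2 * R k ≤ t k ∧ t k ≤ K (n k / 4))
    (hθ : ∀ k, addOrderOf (θ k) = q ^ t k) (hxy : ∀ k, ‖x k - y k - θ k‖ < (1 / 2 : ℝ) ^ n k)
    (m : ℤ) (hm : m ≠ 0) :
    Tendsto (fun k => avgC (bx p (n k / 4) (R k)) (fourier m) (y k - x k)) atTop (𝓝 0) := by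
  have hq : q.Prime := by
    rcases hpq with ⟨rfl, rfl⟩ | ⟨rfl, rfl⟩
    · exact Nat.prime_three
    · exact Nat.prime_two
  rw [tendsto_zero_iff_norm_tendsto_zero]
  rw [Metric.tendsto_nhds]
  intro ε hε
  obtain ⟨t0, N0, hN0⟩ := hK m hm (ε / 4) (by positivity)
  have hn4 : Tendsto (fun k => n k / 4) atTop atTop := by
    refine tendsto_atTop_mono (fun k => ?_) hR
    have := hn k
    omega
  have hpow : Tendsto (fun k => 7 * |(m : ℝ)| * (1 / 2 : ℝ) ^ (n k / 4)) atTop (𝓝 0) := by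
    have h1 : Tendsto (fun k => (1 / 2 : ℝ) ^ (n k / 4)) atTop (𝓝 0) :=
      (tendsto_pow_atTop_nhds_zero_of_lt_one (by norm_num) (by norm_num)).comp hn4
    simpa using h1.const_mul (7 * |(m : ℝ)|)
  have hsmall := (Metric.tendsto_nhds.1 hpow) (ε / 4) (by positivity)
  filter_upwards [hsmall, hR.eventually_ge_atTop t0, hR.eventually_ge_atTop 1,
    hn4.eventually_ge_atTop N0, hn4.eventually_ge_atTop 1] with k h1 h2 h3 h4 h5
  rw [dist_zero_right, norm_norm]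
  rw [dist_zero_right, Real.norm_eq_abs] at h1
  have h1' : 7 * |(m : ℝ)| * (1 / 2 : ℝ) ^ (n k / 4) < ε / 4 := lt_of_le_of_lt (le_abs_self _) h1
  rw [avgC_bx hpq]
  have hNpos : (0 : ℝ) < ((n k / 4 : ℕ) : ℝ) := by exact_mod_cast h5
  have hRpos : (0 : ℝ) < (R k : ℝ) := by exact_mod_cast h3
  have hden : ‖((n k / 4 : ℕ) : ℂ) * (R k : ℂ)‖ = ((n k / 4 : ℕ) : ℝ) * R k := by
    rw [norm_mul, Complex.norm_natCast, Complex.norm_natCast]
  rw [norm_div, hden, div_lt_iff₀ (by positivity)]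
  -- every row
  have hrow : ∀ b ∈ Finset.range (R k), ‖∑ i ∈ Finset.range (n k / 4),
      (fourier m ((p ^ i) • ((q ^ b) • (y k - x k))) : ℂ)‖ ≤ (ε / 2) * ((n k / 4 : ℕ) : ℝ) := by
    intro b hb
    rw [Finset.mem_range] at hb
    have ht' := ht k
    -- the main part
    have hA : ‖∑ i ∈ Finset.range (n k / 4), (fourier m ((p ^ i) • ((q ^ b) • (-θ k))) : ℂ)‖ ≤
        (ε / 4) * ((n k / 4 : ℕ) : ℝ) :=
      hN0 (n k / 4) h4 (t k - b) (by omega) (by omega) _ (sepc_order hq (by omega) (hθ k))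
    have hζ : ‖y k - x k + θ k‖ < (1 / 2 : ℝ) ^ n k := by
      have e : y k - x k + θ k = -(x k - y k - θ k) := by abel
      rw [e, norm_neg]; exact hxy k
    have hB : ∀ i ∈ Finset.range (n k / 4),
        ‖(fourier m ((p ^ i) • ((q ^ b) • (y k - x k))) : ℂ) -
          fourier m ((p ^ i) • ((q ^ b) • (-θ k)))‖ ≤ ε / 4 := by
      intro i hi
      rw [Finset.mem_range] at hi
      have e : (p ^ i) • ((q ^ b) • (y k - x k)) =
          (p ^ i) • ((q ^ b) • (-θ k)) + (p ^ i * q ^ b) • (y k - x k + θ k) := by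
        rw [mul_smul, ← smul_add, ← smul_add]
        congr 2
        abel
      rw [e]
      refine (sepc_diff m _ _).trans ?_
      have hns : ‖(p ^ i * q ^ b) • (y k - x k + θ k)‖ ≤ (1 / 2 : ℝ) ^ (n k / 4) := by
        refine (norm_nsmul_le).trans ?_
        refine le_trans ?_ (sepc_g hpq hi hb (hn k))
        exact mul_le_mul_of_nonneg_left hζ.le (Nat.cast_nonneg _)
      exact (mul_le_mul_of_nonneg_left hns (by positivity)).trans h1'.le
    have hC : ‖∑ i ∈ Finset.range (n k / 4),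
        ((fourier m ((p ^ i) • ((q ^ b) • (y k - x k))) : ℂ) -
          fourier m ((p ^ i) • ((q ^ b) • (-θ k))))‖ ≤ ((n k / 4 : ℕ) : ℝ) * (ε / 4) := by
      refine (norm_sum_le_of_le _ hB).trans (le_of_eq ?_)
      rw [Finset.sum_const, Finset.card_range, nsmul_eq_mul]
    rw [Finset.sum_sub_distrib] at hC
    have hD := norm_add_le ((∑ i ∈ Finset.range (n k / 4),
        (fourier m ((p ^ i) • ((q ^ b) • (y k - x k))) : ℂ)) -
          ∑ i ∈ Finset.range (n k / 4), (fourier m ((p ^ i) • ((q ^ b) • (-θ k))) : ℂ))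
      (∑ i ∈ Finset.range (n k / 4), (fourier m ((p ^ i) • ((q ^ b) • (-θ k))) : ℂ))
    rw [sub_add_cancel] at hD
    linarith
  refine lt_of_le_of_lt (norm_sum_le_of_le _ hrow) ?_
  rw [Finset.sum_const, Finset.card_range, nsmul_eq_mul]
  have : (0 : ℝ) < ((n k / 4 : ℕ) : ℝ) * R k := by positivity
  nlinarith

end Pool.Agent.Half
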