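import Pool.Agent.Half.SepC
import Pool.Agent.Half.GenL

/-! Separation lemma (B) (helper56). -/

open MeasureTheory Filter Topology

namespace Pool.Agent.Half

theorem separation {p q : ℕ} (hpq : PQ p q) {K : ℕ → ℕ} (hK : KorP p q K) (F : Finset C(T, ℝ))
    (hF : ∀ f ∈ F, ∀ z, 0 ≤ f z) (δ : ℝ) (hδ : 0 < δ) :
    ∃ R0 : ℕ, ∀ R, R0 ≤ R → ∃ n1 : ℕ, ∀ n, n1 ≤ n → ∀ t, 2 * R ≤ t → t ≤ K (n / 4) →
      ∀ x y θ : T, addOrderOf θ = q ^ t → ‖x - y - θ‖ < (1 / 2 : ℝ) ^ n →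
        ∃ s : ℝ, 0 ≤ s ∧ s ≤ 1 ∧
          (∀ f ∈ F, s * (∫ z, f z ∂(volume : Measure T)) - δ ≤ avg (bx p (n / 4) R) f x) ∧
          (∀ f ∈ F, (1 - s) * (∫ z, f z ∂(volume : Measure T)) - δ ≤ avg (bx p (n / 4) R) f y) := by
  by_contra hcon
  push Not at hcon
  choose R hR0 hR using hcon
  choose n hn t ht1 ht2 x y θ hθ hxy hs using fun k : ℕ => hR k (8 * R k)
  have hRt : Tendsto R atTop atTop := tendsto_atTop_mono hR0 tendsto_id
  have hnt : Tendsto (fun k => n k / 4) atTop atTop :=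
    tendsto_atTop_mono (fun k => by have := hn k; omega) hRt
  obtain ⟨f1, f2⟩ := fol_bx p (fun k => n (k + 1) / 4) (fun k => R (k + 1))
    ((tendsto_add_atTop_iff_nat 1).2 hnt) ((tendsto_add_atTop_iff_nat 1).2 hRt)
  have hne : ∀ k, (bx p (n (k + 1) / 4) (R (k + 1))).Nonempty := by
    intro k
    have h1 := hR0 (k + 1)
    have h2 := hn (k + 1)
    have h3 : 0 < R (k + 1) := by omega
    have h4 : 0 < n (k + 1) / 4 := by omega
    unfold bx
    split_ifs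
    · exact (Finset.nonempty_range_iff.2 h4.ne').product (Finset.nonempty_range_iff.2 h3.ne')
    · exact (Finset.nonempty_range_iff.2 h3.ne').product (Finset.nonempty_range_iff.2 h4.ne')
  have hd : ∀ m : ℤ, m ≠ 0 → Tendsto (fun k => avgC (bx p (n (k + 1) / 4) (R (k + 1))) (fourier m)
      (y (k + 1) - x (k + 1))) atTop (𝓝 0) := by
    intro m hm
    exact (tendsto_add_atTop_iff_nat (f := fun k => avgC (bx p (n k / 4) (R k)) (fourier m) (y k - x k)) 1).2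
      (sep_char hpq hK n R t x y θ hRt hn (fun k => ⟨ht1 k, ht2 k⟩) hθ hxy m hm)
  have hgen := general_sum (fun k => bx p (n (k + 1) / 4) (R (k + 1))) hne f1 f2
    (fun k => x (k + 1)) (fun k => y (k + 1)) hd F hF δ hδ
  obtain ⟨k, s, hs0, hs1, hk1, hk2⟩ := hgen.exists
  obtain ⟨f, hf, h1⟩ := hs (k + 1) s hs0 hs1 hk1
  exact absurd (hk2 f hf) (not_le.2 h1)

end Pool.Agent.Half
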