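import Pool.Agent.Half.HDefs

/-! Module SHIFT. Means over `G` and over its translate. PROOF: `∑_{p ∈ G} F (p + e) = ∑_{p ∈ sh e G} F p` (injective
image), and the two sums over `G` and `sh e G` differ by at most `C` times the number of elements of the symmetric
difference. -/

open MeasureTheory Filter Topology Set

namespace Pool.Agent.Half

theorem shift (G : Finset (ℕ × ℕ)) (e : ℕ × ℕ) (F : ℕ × ℕ → ℝ) (C : ℝ) (hC : ∀ p, |F p| ≤ C) :
    |∑ p ∈ G, F (p.1 + e.1, p.2 + e.2) - ∑ p ∈ G, F p| ≤ C * (symmDiff G (sh e G)).card := by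
  classical
  have h1 : ∑ p ∈ G, F (p.1 + e.1, p.2 + e.2) = ∑ p ∈ sh e G, F p := by
    unfold sh
    rw [Finset.sum_image]
    intro p _ q _ hpq
    simp only [Prod.mk.injEq] at hpq
    exact Prod.ext (by omega) (by omega)
  have hb : ∀ A : Finset (ℕ × ℕ), |∑ p ∈ A, F p| ≤ C * A.card := by
    intro A
    refine (Finset.abs_sum_le_sum_abs _ _).trans ?_
    refine (Finset.sum_le_card_nsmul A _ C (fun p _ => hC p)).trans (le_of_eq ?_)
    rw [nsmul_eq_mul, mul_comm]
  rw [h1, ← Finset.sum_sdiff_sub_sum_sdiff]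
  have h2 := hb (sh e G \ G)
  have h3 := hb (G \ sh e G)
  have h4 : (symmDiff G (sh e G)).card = (G \ sh e G).card + (sh e G \ G).card := by
    have h5 : symmDiff G (sh e G) = (G \ sh e G) ∪ (sh e G \ G) := rfl
    rw [h5, Finset.card_union_of_disjoint disjoint_sdiff_sdiff]
  rw [h4]
  push_cast
  calc |∑ p ∈ sh e G \ G, F p - ∑ p ∈ G \ sh e G, F p|
      ≤ |∑ p ∈ sh e G \ G, F p| + |∑ p ∈ G \ sh e G, F p| := abs_sub _ _
    _ ≤ _ := by linarith

end Pool.Agent.Half
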