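import Pool.Agent.Half.GenL
import Pool.Agent.Half.SlF
import Pool.Agent.Half.SlT

/-! Assembly of theorem F. -/

open MeasureTheory Filter Topology

namespace Pool.Agent.Half

/-- the slices of `x` are, for infinitely many `n`, at least half Lebesgue (for the functions of every finite set) -/
def HalfLeb (r : ℕ → ℕ) (x : T) : Prop :=
  ∀ F : Finset C(T, ℝ), (∀ f ∈ F, ∀ z, 0 ≤ f z) → ∀ δ : ℝ, 0 < δ →
    ∃ᶠ n in atTop, ∀ f ∈ F, (∫ z, f z ∂(volume : Measure T)) / 2 - δ ≤ avg (sl n (r n)) f x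

/-- exceptional points with given finite data -/
def Xset (r : ℕ → ℕ) (F : Finset C(T, ℝ)) (δ : ℝ) (n0 : ℕ) : Set T :=
  {x | ∀ n, n0 ≤ n → ∃ f ∈ F, avg (sl n (r n)) f x < (∫ z, f z ∂(volume : Measure T)) / 2 - δ}

theorem exists_near_pair {X : Set T} (hX : X.Infinite) (N : ℕ) :
    ∃ x ∈ X, ∃ y ∈ X, ∃ n, N ≤ n ∧ (1 / 2 : ℝ) ^ (n + 1) ≤ ‖y - x‖ ∧ ‖y - x‖ ≤ (1 / 2 : ℝ) ^ n := by
  have hε : (0 : ℝ) < (1 / 2 : ℝ) ^ N := by positivity
  obtain ⟨t, -, htf, hcov⟩ := (isCompact_univ (X := T)).finite_cover_balls (half_pos hε)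
  have hc : ∀ x : T, ∃ c ∈ t, dist x c < (1 / 2 : ℝ) ^ N / 2 := by
    intro x
    have h2 := hcov (Set.mem_univ x)
    simp only [Set.mem_iUnion] at h2
    obtain ⟨c, hc, hxc⟩ := h2
    exact ⟨c, hc, Metric.mem_ball.1 hxc⟩
  choose c hct hcd using hc
  obtain ⟨x, hx, y, hy, hxy, he⟩ := hX.exists_ne_map_eq_of_mapsTo (f := c) (t := t)
    (fun x _ => hct x) htf
  have hd : dist y x < (1 / 2 : ℝ) ^ N := by
    have h1 := hcd x
    have h2 := hcd y
    rw [he] at h1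
    have := dist_triangle_right y x (c y)
    linarith
  have hpos : 0 < ‖y - x‖ := norm_pos_iff.2 (sub_ne_zero.2 (Ne.symm hxy))
  have hle : ‖y - x‖ < (1 / 2 : ℝ) ^ N := by rwa [← dist_eq_norm]
  have hle1 : ‖y - x‖ ≤ 1 := hle.le.trans (pow_le_one₀ (by norm_num) (by norm_num))
  obtain ⟨n, hn1, hn2⟩ := exists_nat_pow_near_of_lt_one hpos hle1 (by norm_num : (0 : ℝ) < 1 / 2)
    (by norm_num)
  refine ⟨x, hx, y, hy, n, ?_, hn1.le, hn2⟩
  by_contra hcon
  have : (1 / 2 : ℝ) ^ N ≤ (1 / 2 : ℝ) ^ (n + 1) :=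
    pow_le_pow_of_le_one (by norm_num) (by norm_num) (by omega)
  linarith

theorem pow_bound (r : ℕ → ℕ) (A : ℝ) (hA : ∀ n : ℕ, (r n : ℝ) ≤ A * Real.log (n + 2)) (n : ℕ) (hn : 2 ≤ n) :
    (2 : ℝ) ^ r n ≤ (n : ℝ) ^ (2 * |A|) := by
  have hn' : (2 : ℝ) ≤ n := by exact_mod_cast hn
  have hlog : 0 ≤ Real.log ((n : ℝ) + 2) := Real.log_nonneg (by linarith)
  have h1 : (r n : ℝ) ≤ |A| * Real.log (n + 2) :=
    (hA n).trans (mul_le_mul_of_nonneg_right (le_abs_self A) hlog)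
  calc (2 : ℝ) ^ r n = Real.exp (Real.log 2 * r n) := by
        rw [← Real.rpow_natCast, Real.rpow_def_of_pos (by norm_num)]
    _ ≤ Real.exp (Real.log ((n : ℝ) + 2) * |A|) := by
        apply Real.exp_le_exp.2
        have h2 : Real.log 2 ≤ 1 := by
          have := Real.log_two_lt_d9
          linarith
        have h3 : 0 ≤ (r n : ℝ) := Nat.cast_nonneg _
        nlinarith [Real.log_nonneg (by norm_num : (1 : ℝ) ≤ 2)]
    _ = ((n : ℝ) + 2) ^ |A| := by rw [Real.rpow_def_of_pos (by linarith)]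
    _ ≤ ((n : ℝ) ^ (2 : ℝ)) ^ |A| := by
        apply Real.rpow_le_rpow (by linarith) _ (abs_nonneg A)
        rw [show (2 : ℝ) = ((2 : ℕ) : ℝ) by norm_num, Real.rpow_natCast]
        push_cast
        nlinarith
    _ = (n : ℝ) ^ (2 * |A|) := by rw [← Real.rpow_mul (by linarith)]

theorem r_le (r : ℕ → ℕ) (A : ℝ) (hA : ∀ n : ℕ, (r n : ℝ) ≤ A * Real.log (n + 2)) :
    ∀ᶠ n : ℕ in atTop, r n ≤ n := by
  have h1 : Tendsto (fun n : ℕ => |A| * Real.log ((n : ℝ) + 2) / ((n : ℝ) + 2)) atTop (𝓝 0) := by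
    have h2 : Tendsto (fun y : ℝ => Real.log y / y) atTop (𝓝 0) := by
      have := Real.isLittleO_log_id_atTop
      exact this.tendsto_div_nhds_zero
    have h3 : Tendsto (fun n : ℕ => (n : ℝ) + 2) atTop atTop :=
      tendsto_atTop_add_const_right _ _ tendsto_natCast_atTop_atTop
    have h4 := (h2.comp h3).const_mul |A|
    simp only [mul_zero] at h4
    refine h4.congr (fun n => ?_)
    simp only [Function.comp_apply]
    ring
  filter_upwards [h1.eventually (gt_mem_nhds (show (0 : ℝ) < 1 / 2 by norm_num)),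
    eventually_ge_atTop 2] with n hn hn2
  have hn' : (2 : ℝ) ≤ n := by exact_mod_cast hn2
  have hlog : 0 ≤ Real.log ((n : ℝ) + 2) := Real.log_nonneg (by linarith)
  have h5 : (r n : ℝ) ≤ |A| * Real.log (n + 2) :=
    (hA n).trans (mul_le_mul_of_nonneg_right (le_abs_self A) hlog)
  rw [div_lt_iff₀ (by linarith)] at hn
  have : (r n : ℝ) ≤ n := by linarith
  exact_mod_cast this

/-- **Two-point theorem.** For two points at distance about `2 ^ (-n)`, `n` large, the slices at scale `n` contain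
together at least the full Lebesgue measure. -/
theorem two_point (r : ℕ → ℕ) (hr : Tendsto r atTop atTop) (A : ℝ)
    (hA : ∀ n : ℕ, (r n : ℝ) ≤ A * Real.log (n + 2)) (F : Finset C(T, ℝ)) (hF : ∀ f ∈ F, ∀ z, 0 ≤ f z)
    (δ : ℝ) (hδ : 0 < δ) :
    ∃ n1 : ℕ, ∀ n, n1 ≤ n → ∀ x y : T, (1 / 2 : ℝ) ^ (n + 1) ≤ ‖y - x‖ → ‖y - x‖ ≤ (1 / 2 : ℝ) ^ n →
      ∃ t : ℝ, 0 ≤ t ∧ t ≤ 1 ∧
        (∀ f ∈ F, t * (∫ z, f z ∂(volume : Measure T)) - δ ≤ avg (sl n (r n)) f x) ∧
        (∀ f ∈ F, (1 - t) * (∫ z, f z ∂(volume : Measure T)) - δ ≤ avg (sl n (r n)) f y) := by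
  by_contra hcon
  push Not at hcon
  obtain ⟨n1, hn1⟩ := eventually_atTop.1 ((hr.eventually_ge_atTop 1).and
    ((r_le r A hA).and (eventually_ge_atTop 2)))
  choose n hn x y hz1 hz2 hxy using fun k : ℕ => hcon (k + n1)
  have hnt : Tendsto n atTop atTop :=
    tendsto_atTop_mono (fun k => (by have := hn k; omega : k ≤ n k)) tendsto_id
  have hrt : Tendsto (fun k => r (n k)) atTop atTop := hr.comp hnt
  have hp : ∀ k, 1 ≤ r (n k) ∧ r (n k) ≤ n k ∧ 2 ≤ n k := fun k => by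
    have h1 := hn1 (n k) (by have := hn k; omega)
    exact h1
  have hne : ∀ k, (sl (n k) (r (n k))).Nonempty := by
    intro k
    rw [← Finset.card_pos]
    have h1 := sl_card (n k) (r (n k))
    have h2 := (bb_bounds (n k)).1
    have h3 := (hp k).1
    have h4 : 0 < r (n k) * bb (n k) := Nat.mul_pos (by omega) (by omega)
    omega
  obtain ⟨f1, f2⟩ := fol_sl n (fun k => r (n k)) hrt (Eventually.of_forall fun k => (hp k).2.1)
  have hd : ∀ m : ℤ, m ≠ 0 →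
      Tendsto (fun k => avgC (sl (n k) (r (n k))) (fourier m) (y k - x k)) atTop (𝓝 0) := by
    intro m hm
    exact sl_tendsto n (fun k => r (n k)) hnt hrt (2 * |A|)
      (Eventually.of_forall fun k => pow_bound r A hA (n k) (hp k).2.2) (fun k => y k - x k)
      (fun k => ⟨hz1 k, hz2 k⟩) m hm
  have hgen := general_sum (fun k => sl (n k) (r (n k))) hne f1 f2 x y hd F hF δ hδ
  obtain ⟨k, t, ht0, ht1, hk1, hk2⟩ := hgen.exists
  obtain ⟨f, hf, h1⟩ := hxy k t ht0 ht1 hk1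
  exact absurd (hk2 f hf) (not_le.2 h1)

theorem Xset_finite (r : ℕ → ℕ) (hr : Tendsto r atTop atTop) (A : ℝ)
    (hA : ∀ n : ℕ, (r n : ℝ) ≤ A * Real.log (n + 2)) (F : Finset C(T, ℝ)) (hF : ∀ f ∈ F, ∀ z, 0 ≤ f z)
    (δ : ℝ) (hδ : 0 < δ) (n0 : ℕ) : (Xset r F δ n0).Finite := by
  by_contra hinf
  have hinf : (Xset r F δ n0).Infinite := hinf
  obtain ⟨n1, hn1⟩ := two_point r hr A hA F hF δ hδ
  obtain ⟨x, hx, y, hy, n, hn, hz1, hz2⟩ := exists_near_pair hinf (n0 + n1)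
  obtain ⟨t, ht0, ht1, hk1, hk2⟩ := hn1 n (by omega) x y hz1 hz2
  have hint : ∀ f ∈ F, 0 ≤ ∫ z, f z ∂(volume : Measure T) := fun f hf => integral_nonneg (hF f hf)
  rcases le_total (1 / 2) t with ht | ht
  · obtain ⟨f, hf, h1⟩ := hx n (by omega)
    have h2 := hk1 f hf
    have h3 := hint f hf
    nlinarith
  · obtain ⟨f, hf, h1⟩ := hy n (by omega)
    have h2 := hk2 f hf
    have h3 := hint f hf
    nlinarith

theorem avg_le_add (G : Finset (ℕ × ℕ)) (f g : C(T, ℝ)) (ε : ℝ) (hε : 0 ≤ ε) (h : ∀ z, g z ≤ f z + ε)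
    (x : T) : avg G g x ≤ avg G f x + ε := by
  unfold avg
  rcases Finset.eq_empty_or_nonempty G with rfl | hG
  · simpa using hε
  · have hc : (0 : ℝ) < G.card := by exact_mod_cast hG.card_pos
    rw [div_le_iff₀ hc, add_mul, div_mul_cancel₀ _ hc.ne']
    calc ∑ p ∈ G, g ((2 ^ p.1 * 3 ^ p.2 : ℕ) • x) ≤
          ∑ p ∈ G, (f ((2 ^ p.1 * 3 ^ p.2 : ℕ) • x) + ε) := Finset.sum_le_sum fun p _ => h _
      _ = _ := by
          rw [Finset.sum_add_distrib, Finset.sum_const, nsmul_eq_mul]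
          ring

theorem slices_countable (r : ℕ → ℕ) (hr : Tendsto r atTop atTop) (A : ℝ)
    (hA : ∀ n : ℕ, (r n : ℝ) ≤ A * Real.log (n + 2)) : {x : T | ¬ HalfLeb r x}.Countable := by
  classical
  obtain ⟨D, hDc, hDd⟩ := TopologicalSpace.exists_countable_dense C(T, ℝ)
  have : Countable D := hDc
  let P : Finset D → Finset C(T, ℝ) := fun s => s.image fun g : D => (g : C(T, ℝ)) ⊔ 0
  have hP : ∀ s, ∀ f ∈ P s, ∀ z, 0 ≤ f z := by
    intro s f hf z
    obtain ⟨g, -, rfl⟩ := Finset.mem_image.1 hf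
    simp
  have hsub : {x : T | ¬ HalfLeb r x} ⊆
      ⋃ s : Finset D, ⋃ k : ℕ, ⋃ n0 : ℕ, Xset r (P s) (1 / ((k : ℝ) + 1)) n0 := by
    intro x hx
    simp only [HalfLeb, Set.mem_ofPred_eq, not_forall] at hx
    obtain ⟨F, hF, δ, hδ, hx⟩ := hx
    rw [not_frequently] at hx
    obtain ⟨n0, hn0⟩ := eventually_atTop.1 hx
    have happ : ∀ f : C(T, ℝ), ∃ g : D, dist f g < δ / 4 := by
      intro f
      obtain ⟨g, hg, hd⟩ := hDd.exists_dist_lt f (by positivity : 0 < δ / 4)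
      exact ⟨⟨g, hg⟩, hd⟩
    choose g hg using happ
    obtain ⟨k, hk⟩ := exists_nat_one_div_lt (show 0 < δ / 2 by positivity)
    simp only [Set.mem_iUnion]
    refine ⟨F.image g, k, n0, fun n hn => ?_⟩
    have h1 := hn0 n hn
    push Not at h1
    obtain ⟨f, hf, h2⟩ := h1
    refine ⟨(g f : C(T, ℝ)) ⊔ 0, Finset.mem_image_of_mem _ (Finset.mem_image_of_mem _ hf), ?_⟩
    have hpt : ∀ z, |f z - (((g f : C(T, ℝ)) ⊔ 0 : C(T, ℝ)) z)| ≤ δ / 4 := by
      intro z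
      have h3 : dist (f z) ((g f : C(T, ℝ)) z) ≤ dist f (g f : C(T, ℝ)) :=
        ContinuousMap.dist_apply_le_dist z
      rw [Real.dist_eq] at h3
      have h4 := hF f hf z
      have h5 : (((g f : C(T, ℝ)) ⊔ 0 : C(T, ℝ)) z) = max ((g f : C(T, ℝ)) z) 0 := rfl
      rw [h5]
      have h6 := hg f
      refine le_trans ?_ (h3.trans h6.le)
      rcases le_total ((g f : C(T, ℝ)) z) 0 with h7 | h7
      · rw [max_eq_right h7, sub_zero, abs_of_nonneg h4, abs_of_nonneg (by linarith)]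
        linarith
      · rw [max_eq_left h7]
    have e1 : avg (sl n (r n)) (((g f : C(T, ℝ)) ⊔ 0 : C(T, ℝ))) x ≤ avg (sl n (r n)) f x + δ / 4 :=
      avg_le_add _ f _ _ (by positivity) (fun z => by have := abs_le.1 (hpt z); linarith) x
    have e2 : (∫ z, f z ∂(volume : Measure T)) ≤
        (∫ z, (((g f : C(T, ℝ)) ⊔ 0 : C(T, ℝ)) z) ∂(volume : Measure T)) + δ / 4 := by
      have i1 : Integrable (fun z => f z) (volume : Measure T) :=
        f.continuous.integrable_of_hasCompactSupport (HasCompactSupport.of_compactSpace _)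
      have i2 : Integrable (fun z => (((g f : C(T, ℝ)) ⊔ 0 : C(T, ℝ)) z)) (volume : Measure T) :=
        ((g f : C(T, ℝ)) ⊔ 0 : C(T, ℝ)).continuous.integrable_of_hasCompactSupport
          (HasCompactSupport.of_compactSpace _)
      have e3 : (∫ z, ((((g f : C(T, ℝ)) ⊔ 0 : C(T, ℝ)) z) + δ / 4) ∂(volume : Measure T)) =
          (∫ z, (((g f : C(T, ℝ)) ⊔ 0 : C(T, ℝ)) z) ∂(volume : Measure T)) + δ / 4 := by
        rw [integral_add i2 (integrable_const _), integral_const]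
        simp [Measure.real, AddCircle.measure_univ]
      rw [← e3]
      apply integral_mono i1 (i2.add (integrable_const _))
      intro z
      have := abs_le.1 (hpt z)
      change f z ≤ (((g f : C(T, ℝ)) ⊔ 0 : C(T, ℝ)) z) + δ / 4
      linarith
    linarith
  refine Set.Countable.mono hsub ?_
  refine Set.countable_iUnion fun s => Set.countable_iUnion fun k => Set.countable_iUnion fun n0 => ?_
  exact (Xset_finite r hr A hA (P s) (hP s) _ (by positivity) n0).countable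

end Pool.Agent.Half
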