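import Pool.Agent.Half.Crit
import Pool.Agent.Half.KFinal

/-!
# Thin slices of the orbits of `x ↦ 2 ^ a * 3 ^ b x`

For every point `x` outside a countable set, infinitely many of the slices
`{2 ^ a * 3 ^ b x : 2 ^ n ≤ 2 ^ a * 3 ^ b < 2 ^ (n + r n)}` are at least half Lebesgue, for every `r n → ∞` with
`r n ≤ (log n) ^ κ`, `κ < 3 / 2`; outside a set of packing dimension zero Lebesgue measure itself is a limit point of the
slices. An atomless measure invariant under `x ↦ 2 x` and `x ↦ 3 x` is Lebesgue measure if and only if the means of the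
characters over such slices converge almost everywhere to their integrals; this holds for measures whose correlations are
summable with a weight near the neutral direction, and for measures with a Bessel bound with a logarithmic loss.
-/

open MeasureTheory Filter Topology Set
open scoped ENNReal NNReal

namespace Pool.Agent.Half.SlicesAll

/-- The Fourier coefficient `∫ e(n x) dμ(x)`. -/
noncomputable def coef (μ : Measure (AddCircle (1 : ℝ))) (n : ℤ) : ℂ := ∫ x, fourier n x ∂μ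

/-- For `v = (p, q)`: the integer `2 ^ p⁺ * 3 ^ q⁺ - 2 ^ p⁻ * 3 ^ q⁻`, where `t⁺ = max t 0` and
`t⁻ = max (-t) 0`. -/
def diffNum (v : ℤ × ℤ) : ℤ :=
  2 ^ v.1.toNat * 3 ^ v.2.toNat - 2 ^ (-v.1).toNat * 3 ^ (-v.2).toNat

/-- The slice: all pairs `(a, b)` of natural numbers with `2 ^ n ≤ 2 ^ a * 3 ^ b < 2 ^ (n + r)`. -/
def slice (n r : ℕ) : Finset (ℕ × ℕ) :=
  (Finset.range (n + r) ×ˢ Finset.range (n + r)).filter
    fun p => 2 ^ n ≤ 2 ^ p.1 * 3 ^ p.2 ∧ 2 ^ p.1 * 3 ^ p.2 < 2 ^ (n + r)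

/-- The mean of `f (2 ^ a * 3 ^ b x)` over the pairs `(a, b)` in the slice. -/
noncomputable def mean {E : Type} [AddCommGroup E] [Module ℝ E] (n r : ℕ)
    (f : AddCircle (1 : ℝ) → E) (x : AddCircle (1 : ℝ)) : E :=
  ((slice n r).card : ℝ)⁻¹ • ∑ p ∈ slice n r, f ((2 ^ p.1 * 3 ^ p.2 : ℕ) • x)

/-- All pairs with `2 ^ n ≤ 2 ^ a * 3 ^ b < 2 ^ (n + r)` belong to the slice. -/
theorem mem_slice (n r : ℕ) (p : ℕ × ℕ) :
    p ∈ slice n r ↔ 2 ^ n ≤ 2 ^ p.1 * 3 ^ p.2 ∧ 2 ^ p.1 * 3 ^ p.2 < 2 ^ (n + r) := by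
  unfold slice
  rw [Finset.mem_filter]
  refine ⟨fun h => h.2, fun h => ⟨?_, h⟩⟩
  have h1 : 2 ^ p.1 < 2 ^ (n + r) :=
    lt_of_le_of_lt (Nat.le_mul_of_pos_right _ (by positivity)) h.2
  have h2 : 2 ^ p.2 < 2 ^ (n + r) := by
    calc 2 ^ p.2 ≤ 3 ^ p.2 := Nat.pow_le_pow_left (by norm_num) _
      _ ≤ 2 ^ p.1 * 3 ^ p.2 := Nat.le_mul_of_pos_left _ (by positivity)
      _ < _ := h.2
  rw [Finset.mem_product, Finset.mem_range, Finset.mem_range]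
  exact ⟨(Nat.pow_lt_pow_iff_right (by norm_num)).1 h1, (Nat.pow_lt_pow_iff_right (by norm_num)).1 h2⟩

theorem mean_eq (n r : ℕ) (f : AddCircle (1 : ℝ) → ℝ) (x : AddCircle (1 : ℝ)) :
    mean n r f x = Half.avg (Half.sl n r) f x := by
  unfold mean Half.avg slice Half.sl
  rw [smul_eq_mul, inv_mul_eq_div]

theorem mean_eqC (n r : ℕ) (f : AddCircle (1 : ℝ) → ℂ) (x : AddCircle (1 : ℝ)) :
    mean n r f x = Half.avgC (Half.sl n r) f x := by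
  unfold mean Half.avgC slice Half.sl
  rw [Complex.real_smul, Complex.ofReal_inv, Complex.ofReal_natCast, inv_mul_eq_div]

/-- **Main theorem.** -/
theorem result :
    (∀ (κ : ℝ) (r : ℕ → ℕ), κ < 3 / 2 → Tendsto r atTop atTop →
      (∀ᶠ n : ℕ in atTop, (r n : ℝ) ≤ Real.log n ^ κ) →
      {x : AddCircle (1 : ℝ) | ¬ ∀ F : Finset C(AddCircle (1 : ℝ), ℝ), (∀ f ∈ F, ∀ z, 0 ≤ f z) →
        ∀ δ : ℝ, 0 < δ → ∃ᶠ n : ℕ in atTop, ∀ f ∈ F, (∫ z, f z) / 2 - δ ≤ mean n (r n) f x}.Countable ∧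
      (∃ X : ℕ → Set (AddCircle (1 : ℝ)),
        {x : AddCircle (1 : ℝ) | ¬ ∀ F : Finset C(AddCircle (1 : ℝ), ℝ), ∀ δ : ℝ, 0 < δ →
          ∃ᶠ n : ℕ in atTop, ∀ f ∈ F, |mean n (r n) f x - ∫ z, f z| ≤ δ} ⊆ ⋃ i, X i ∧
        ∀ i, ∀ s : ℝ, 0 < s → ∃ K : ℝ, ∀ M : ℕ, ∃ t : Finset (AddCircle (1 : ℝ)),
          (t.card : ℝ) ≤ K * 2 ^ (s * M) ∧ X i ⊆ ⋃ c ∈ t, Metric.closedBall c ((1 / 2 : ℝ) ^ M)) ∧
      (∀ a κ' : ℝ, 0 < a → 0 ≤ κ' → (∀ᶠ n : ℕ in atTop, a * Real.log n ^ κ' ≤ r n) →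
        ∃ X : ℕ → Set (AddCircle (1 : ℝ)),
          {x : AddCircle (1 : ℝ) | ¬ ∀ F : Finset C(AddCircle (1 : ℝ), ℝ), ∀ δ : ℝ, 0 < δ →
            ∃ᶠ n : ℕ in atTop, ∀ f ∈ F, |mean n (r n) f x - ∫ z, f z| ≤ δ} ⊆ ⋃ i, X i ∧
          ∀ i, ∃ K : ℝ, ∀ M : ℕ, 2 ≤ M → ∃ t : Finset (AddCircle (1 : ℝ)),
            (t.card : ℝ) ≤ Real.exp (K * (M / Real.log M ^ κ')) ∧
            X i ⊆ ⋃ c ∈ t, Metric.closedBall c ((1 / 2 : ℝ) ^ M)) ∧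
      ∀ γ : ℝ≥0, dimH {x : AddCircle (1 : ℝ) | ¬ ∀ F : Finset C(AddCircle (1 : ℝ), ℝ),
        ∀ δ : ℝ, 0 < δ → ∀ᶠ N : ℕ in atTop,
          γ * N < ({n : ℕ | n < N ∧ ∀ f ∈ F, |mean n (r n) f x - ∫ z, f z| ≤ δ}.ncard : ℝ)} ≤ γ) ∧
    ∀ μ : Measure (AddCircle (1 : ℝ)), IsProbabilityMeasure μ → (∀ x, μ {x} = 0) →
      MeasurePreserving (fun x : AddCircle (1 : ℝ) => (2 : ℕ) • x) μ μ →
      MeasurePreserving (fun x : AddCircle (1 : ℝ) => (3 : ℕ) • x) μ μ →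
      List.TFAE [
        μ = volume,
        ∃ κ : ℝ, κ < 3 / 2 ∧ ∃ r : ℕ → ℕ, Tendsto r atTop atTop ∧
          (∀ᶠ n : ℕ in atTop, (r n : ℝ) ≤ Real.log n ^ κ) ∧
          ∀ m : ℤ, ∀ᵐ x ∂μ, Tendsto (fun n => mean n (r n) (fourier m) x) atTop (𝓝 (coef μ m)),
        ∃ c : ℝ, c < 4 / 3 ∧ ∀ m : ℤ, Summable fun v : ℤ × ℤ =>
          ‖coef μ (m * diffNum v) - ((‖coef μ m‖ ^ 2 : ℝ) : ℂ)‖ /
            (1 + |(v.1 : ℝ) * Real.log 2 + (v.2 : ℝ) * Real.log 3|) ^ c,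
        ∃ β : ℝ, β < 2 ∧ ∀ m : ℤ, ∃ C : ℝ, ∀ N : ℕ, 1 ≤ N →
          ∀ (S : Finset (ℕ × ℕ)) (a : ℕ × ℕ → ℂ), (∀ p ∈ S, p.1 + p.2 ≤ N) →
          ∫ x, ‖∑ p ∈ S, a p * (fourier (m * (2 ^ p.1 * 3 ^ p.2)) x - coef μ m)‖ ^ 2 ∂μ ≤
            C * (1 + Real.log N) ^ β * ∑ p ∈ S, ‖a p‖ ^ 2] := by
  refine ⟨fun κ r hκ hr hA => ⟨?_, ?_, ?_, ?_⟩, ?_⟩
  · have h := Half.K2.slices_countable r hr hκ hA
    simp only [mean_eq]
    exact h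
  · obtain ⟨X, hX, hb⟩ := Half.full_pack_pow hκ r hr hA
    refine ⟨X, ?_, fun i s hs => ?_⟩
    · simp only [mean_eq]
      exact hX
    · obtain ⟨K, hK⟩ := hb i s hs
      refine ⟨K, fun M => ?_⟩
      obtain ⟨N, hN, t, ht, hc⟩ := hK M
      exact ⟨t, (Nat.cast_le.2 ht).trans hN, hc⟩
  · intro a κ' ha hκ' har
    obtain ⟨X, hX, hb⟩ := Half.full_gauge_pow hκ' hκ ha r hr hA har
    refine ⟨X, ?_, fun i => ?_⟩
    · simp only [mean_eq]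
      exact hX
    · obtain ⟨K, hK⟩ := hb i
      refine ⟨K, fun M hM => ?_⟩
      obtain ⟨N, hN, t, ht, hc⟩ := hK M hM
      exact ⟨t, (Nat.cast_le.2 ht).trans hN, hc⟩
  · intro γ
    have h := Half.dens_dim_pow hκ r hr hA γ
    simp only [mean_eq]
    exact h
  · intro μ hμ hna h2 h3
    have h := Half.crit μ hna h2 h3
    simp only [mean_eqC]
    exact h

end Pool.Agent.Half.SlicesAll
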