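import Pool.Agent.Half.Orb
import Pool.Agent.Half.BoxV

/-! The entropy at scale `N` and the mass of the points of large local dimension at scale `log N` (helper56). -/

open MeasureTheory Filter Topology
open scoped ENNReal

namespace Pool.Agent.Half

/-- the points whose arc of level `L` has measure at most `q ^ (-β L)` -/
def light (q : ℕ) (β : ℝ) (L : ℕ) (μ : Measure T) : Set T :=
  {x | μ.real {y | LogSc.cell q L y = LogSc.cell q L x} ≤ (q : ℝ) ^ (-(β * L))}

/-- the heavy cells -/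
noncomputable def heavy (q : ℕ) (β : ℝ) (L : ℕ) (μ : Measure T) : Finset ℕ :=
  (Finset.range (q ^ L)).filter fun w => (q : ℝ) ^ (-(β * L)) < μ.real {y | LogSc.cell q L y = w}

theorem mem_light {q : ℕ} (hq : 0 < q) (β : ℝ) (L : ℕ) (μ : Measure T) (x : T) :
    x ∈ light q β L μ ↔ LogSc.cell q L x ∉ heavy q β L μ := by
  unfold light heavy
  rw [Finset.mem_filter, Finset.mem_range, Set.mem_ofPred_eq, not_and, not_lt]
  exact ⟨fun h _ => h, fun h => h (LogSc.cell_lt hq L x)⟩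

theorem light_meas {q : ℕ} (hq : 0 < q) (β : ℝ) (L : ℕ) (μ : Measure T) : MeasurableSet (light q β L μ) := by
  have e : light q β L μ = (LogSc.cell q L) ⁻¹' {w : ℕ | w ∉ heavy q β L μ} := by
    ext x
    exact mem_light hq β L μ x
  rw [e]
  exact LogSc.measurable_cell q L (MeasurableSet.of_discrete)

theorem heavy_card {q : ℕ} (hq : 0 < q) (β : ℝ) (L : ℕ) (μ : Measure T) [IsProbabilityMeasure μ] :
    ((heavy q β L μ).card : ℝ) ≤ (q : ℝ) ^ (β * L) := by
  have hq' : (0 : ℝ) < q := by exact_mod_cast hq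
  have h4 : ((heavy q β L μ).card : ℝ) * (q : ℝ) ^ (-(β * L)) ≤ 1 := by
    have h5 : ((heavy q β L μ).card : ℝ) * (q : ℝ) ^ (-(β * L)) ≤
        ∑ w ∈ heavy q β L μ, μ.real {y : T | LogSc.cell q L y = w} := by
      rw [← nsmul_eq_mul, ← Finset.sum_const]
      exact Finset.sum_le_sum fun w hw => (Finset.mem_filter.1 hw).2.le
    refine h5.trans ?_
    rw [← measureReal_biUnion_finset]
    · exact measureReal_le_one
    · intro a _ b _ hab
      refine Set.disjoint_left.2 fun y hy hy' => hab ?_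
      exact (Eq.symm hy).trans hy'
    · exact fun w _ => LogSc.measurable_cell q L (MeasurableSet.singleton w)
  have h8 : (q : ℝ) ^ (β * L) * (q : ℝ) ^ (-(β * L)) = 1 := by
    rw [← Real.rpow_add hq']
    simp
  have h9 : (0 : ℝ) < (q : ℝ) ^ (-(β * L)) := by positivity
  exact le_of_mul_le_mul_right (h4.trans (le_of_eq h8.symm)) h9

/-- more than one eighth of the points `p ^ i x`, `i < N`, lie in light cells -/
def Rich (p q N L : ℕ) (H : Finset ℕ) : Set T :=
  {x | N < 8 * ((Finset.range N).filter fun i => LogSc.cell q L ((p ^ i) • x) ∉ H).card}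

theorem rich_ind (p q N L : ℕ) (H : Finset ℕ) (x : T) :
    (((Finset.range N).filter fun i => LogSc.cell q L ((p ^ i) • x) ∉ H).card : ℝ) =
      ∑ i ∈ Finset.range N, ({y : T | LogSc.cell q L ((p ^ i) • y) ∉ H}.indicator (fun _ => (1 : ℝ)) x) := by
  simp only [Set.indicator_apply, Set.mem_ofPred_eq]
  rw [Finset.sum_boole]

theorem rich_set_meas (p q L i : ℕ) (H : Finset ℕ) :
    MeasurableSet {y : T | LogSc.cell q L ((p ^ i) • y) ∉ H} := by
  have h1 : Measurable fun y : T => LogSc.cell q L ((p ^ i) • y) :=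
    (LogSc.measurable_cell q L).comp (continuous_nsmul _).measurable
  exact h1 (MeasurableSet.of_discrete (s := {w : ℕ | w ∉ H}))

theorem rich_meas (p q N L : ℕ) (H : Finset ℕ) : MeasurableSet (Rich p q N L H) := by
  have h1 : Measurable fun x : T => ∑ i ∈ Finset.range N,
      ({y : T | LogSc.cell q L ((p ^ i) • y) ∉ H}.indicator (fun _ => (1 : ℝ)) x) :=
    Finset.measurable_sum _ fun i _ => measurable_const.indicator (rich_set_meas p q L i H)
  have e : Rich p q N L H = {x | (N : ℝ) < 8 * ∑ i ∈ Finset.range N,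
      ({y : T | LogSc.cell q L ((p ^ i) • y) ∉ H}.indicator (fun _ => (1 : ℝ)) x)} := by
    ext x
    rw [Set.mem_ofPred_eq, ← rich_ind]
    unfold Rich
    rw [Set.mem_ofPred_eq]
    exact_mod_cast Iff.rfl
  rw [e]
  exact measurableSet_lt measurable_const (h1.const_mul 8)

theorem rich_le {p q : ℕ} (hq : 0 < q) (β : ℝ) (L N : ℕ) (hN : 1 ≤ N) (μ : Measure T) [IsProbabilityMeasure μ]
    (hp : MeasurePreserving (fun x : T => p • x) μ μ) :
    μ.real (Rich p q N L (heavy q β L μ)) ≤ 8 * μ.real (light q β L μ) := by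
  set H := heavy q β L μ with hH
  set f : T → ℝ := fun x => ∑ i ∈ Finset.range N,
      ({y : T | LogSc.cell q L ((p ^ i) • y) ∉ H}.indicator (fun _ => (1 : ℝ)) x) with hf
  have hi : ∀ i ∈ Finset.range N, Integrable
      ({y : T | LogSc.cell q L ((p ^ i) • y) ∉ H}.indicator (fun _ => (1 : ℝ))) μ := fun i _ =>
    (integrable_const _).indicator (rich_set_meas p q L i H)
  have hfi : Integrable f μ := integrable_finsetSum _ hi
  have hint : ∫ x, f x ∂μ = N * μ.real (light q β L μ) := by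
    rw [hf, integral_finsetSum _ hi]
    have h4 : ∀ i ∈ Finset.range N, ∫ x, ({y : T | LogSc.cell q L ((p ^ i) • y) ∉ H}.indicator
        (fun _ => (1 : ℝ)) x) ∂μ = μ.real (light q β L μ) := by
      intro i _
      rw [integral_indicator_const _ (rich_set_meas p q L i H), smul_eq_mul, mul_one]
      have h5 : {y : T | LogSc.cell q L ((p ^ i) • y) ∉ H} = (fun y : T => (p ^ i) • y) ⁻¹' light q β L μ := by
        ext y
        exact (mem_light hq β L μ _).symm
      rw [h5]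
      exact congrArg ENNReal.toReal ((mp_pow hp i).measure_preimage (light_meas hq β L μ).nullMeasurableSet)
    rw [Finset.sum_congr rfl h4, Finset.sum_const, Finset.card_range, nsmul_eq_mul]
  have hf0 : ∀ x, 0 ≤ f x := fun x => Finset.sum_nonneg fun i _ =>
    Set.indicator_nonneg (fun _ _ => zero_le_one) _
  have hN0 : (0 : ℝ) < N := by exact_mod_cast hN
  have hmark : ((N : ℝ) / 8) * μ.real {x | (N : ℝ) / 8 ≤ f x} ≤ ∫ x, f x ∂μ :=
    mul_meas_ge_le_integral_of_nonneg (Eventually.of_forall hf0) hfi _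
  have hsub : Rich p q N L H ⊆ {x | (N : ℝ) / 8 ≤ f x} := by
    intro x hx
    unfold Rich at hx
    rw [Set.mem_ofPred_eq] at hx ⊢
    have h5 : f x = (((Finset.range N).filter fun i => LogSc.cell q L ((p ^ i) • x) ∉ H).card : ℝ) :=
      (rich_ind p q N L H x).symm
    rw [h5]
    have h6 : (N : ℝ) < 8 * (((Finset.range N).filter fun i => LogSc.cell q L ((p ^ i) • x) ∉ H).card : ℝ) := by
      exact_mod_cast hx
    linarith
  have h7 := measureReal_mono (μ := μ) hsub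
  rw [hint] at hmark
  have h8 : ((N : ℝ) / 8) * μ.real (Rich p q N L H) ≤ ((N : ℝ) / 8) * (8 * μ.real (light q β L μ)) := by
    have := mul_le_mul_of_nonneg_left h7 (by positivity : (0 : ℝ) ≤ (N : ℝ) / 8)
    linarith
  exact le_of_mul_le_mul_left h8 (by positivity)

/-- two points outside `Rich` whose difference is close to a point of order `q ^ t` -/
theorem rich_two {p q : ℕ} (hpq : PQ p q) {β : ℝ} (hβ : β < 1 / 2) : ∃ L0 : ℕ, ∀ (L N t : ℕ), L0 ≤ L →
    L ≤ t → q ^ t ≤ N → ∀ (H : Finset ℕ), (H.card : ℝ) ≤ (q : ℝ) ^ (β * L) → ∀ x y θ : T,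
      addOrderOf θ = q ^ t → ‖x - y - θ‖ < (1 / 2 : ℝ) ^ (4 * N) → x ∉ Rich p q N L H → y ∈ Rich p q N L H := by
  classical
  obtain ⟨C, hC, hcount⟩ := orb_count hpq
  have hq2 : 2 ≤ q := hpq.prime.two_le
  have hqr : (2 : ℝ) ≤ q := by exact_mod_cast hq2
  have hq0 : (0 : ℝ) < q := by linarith
  have hp3 : (p : ℝ) ≤ 3 := by
    rcases hpq with ⟨rfl, _⟩ | ⟨rfl, _⟩ <;> norm_num
  have hp1 : (1 : ℝ) ≤ p := by
    rcases hpq with ⟨rfl, _⟩ | ⟨rfl, _⟩ <;> norm_num
  have hδ : 0 < 1 - 2 * β := by linarith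
  -- `C' q ^ (-(1 - 2 β) L) < 3/4` for large `L`
  have hlim : Tendsto (fun L : ℕ => 6 * C * (q : ℝ) ^ (-((1 - 2 * β) * (L : ℝ)))) atTop (𝓝 0) := by
    have h1 : Tendsto (fun L : ℕ => (1 - 2 * β) * (L : ℝ)) atTop atTop :=
      Tendsto.const_mul_atTop hδ tendsto_natCast_atTop_atTop
    have h2 : Tendsto (fun y : ℝ => (q : ℝ) ^ (-y)) atTop (𝓝 0) := by
      have h3 := tendsto_rpow_atTop_of_base_lt_one ((q : ℝ)⁻¹) (by have := inv_pos.2 hq0; linarith)
        (inv_lt_one_of_one_lt₀ (by linarith))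
      refine h3.congr fun y => ?_
      rw [Real.inv_rpow hq0.le, Real.rpow_neg hq0.le]
    have h4 := (h2.comp h1).const_mul (6 * C)
    rw [mul_zero] at h4
    exact h4
  obtain ⟨L0, hL0⟩ := eventually_atTop.1 (hlim.eventually (gt_mem_nhds (show (0 : ℝ) < 3 / 4 by norm_num)))
  refine ⟨L0, fun L N t hL hLt htN H hH x y θ hθ hxy hx => ?_⟩
  by_contra hy
  unfold Rich at hx hy
  rw [Set.mem_ofPred_eq, not_lt] at hx hy
  have hqt : (0 : ℝ) < (q : ℝ) ^ t := by positivity
  have hqL : (0 : ℝ) < (q : ℝ) ^ L := by positivity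
  have hN1 : 1 ≤ N := le_trans (Nat.one_le_pow _ _ (by omega)) htN
  have hN0 : (0 : ℝ) < N := by exact_mod_cast hN1
  have htN' : (q : ℝ) ^ t ≤ N := by exact_mod_cast htN
  have hLN : (q : ℝ) ^ L ≤ N := (pow_le_pow_right₀ (by linarith) hLt).trans htN'
  set ρ : ℝ := 2 * ((q : ℝ) ^ L)⁻¹ with hρ
  have hρ0 : 0 < ρ := by positivity
  -- closeness
  have hclose : ∀ i, i < N → LogSc.cell q L ((p ^ i) • x) ∈ H → LogSc.cell q L ((p ^ i) • y) ∈ H →
      ‖(p ^ i) • θ - (((((LogSc.cell q L ((p ^ i) • x) : ℕ) : ℝ) -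
        ((LogSc.cell q L ((p ^ i) • y) : ℕ) : ℝ)) / (q : ℝ) ^ L : ℝ) : T)‖ ≤ ρ := by
    intro i hi _ _
    have h1 := LogSc.cell_near (b := q) (by omega) L ((p ^ i) • x) ((p ^ i) • y)
    set v : T := (((((LogSc.cell q L ((p ^ i) • x) : ℕ) : ℝ) -
        ((LogSc.cell q L ((p ^ i) • y) : ℕ) : ℝ)) / (q : ℝ) ^ L : ℝ) : T) with hv
    have h2 : ‖(p ^ i) • (x - y - θ)‖ ≤ ((q : ℝ) ^ L)⁻¹ := by
      have h3 := norm_nsmul_le (n := p ^ i) (a := x - y - θ)
      push_cast at h3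
      have h4 : (p : ℝ) ^ i ≤ 3 ^ N :=
        (pow_le_pow_left₀ (by linarith) hp3 i).trans (pow_le_pow_right₀ (by norm_num) hi.le)
      have h5 : (p : ℝ) ^ i * ‖x - y - θ‖ ≤ 3 ^ N * (1 / 2 : ℝ) ^ (4 * N) :=
        mul_le_mul h4 hxy.le (norm_nonneg _) (by positivity)
      have h6 : (3 : ℝ) ^ N * (1 / 2 : ℝ) ^ (4 * N) = (3 / 16 : ℝ) ^ N := by
        rw [pow_mul, ← mul_pow]
        norm_num
      have h7 : (3 / 16 : ℝ) ^ N ≤ (N : ℝ)⁻¹ := by
        have h8 : (N : ℝ) ≤ (16 / 3 : ℝ) ^ N := by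
          have h9 : (N : ℝ) ≤ 2 ^ N := by exact_mod_cast (Nat.lt_two_pow_self (n := N)).le
          exact h9.trans (pow_le_pow_left₀ (by norm_num) (by norm_num) N)
        have h10 : (3 / 16 : ℝ) ^ N = ((16 / 3 : ℝ) ^ N)⁻¹ := by
          rw [← inv_pow]
          norm_num
        rw [h10]
        exact inv_anti₀ hN0 h8
      have h8 : (N : ℝ)⁻¹ ≤ ((q : ℝ) ^ L)⁻¹ := inv_anti₀ hqL hLN
      calc ‖(p ^ i) • (x - y - θ)‖ ≤ (p : ℝ) ^ i * ‖x - y - θ‖ := h3
        _ ≤ (3 / 16 : ℝ) ^ N := by rw [← h6]; exact h5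
        _ ≤ _ := h7.trans h8
    have e : (p ^ i) • θ - v = ((p ^ i) • x - (p ^ i) • y - v) - (p ^ i) • (x - y - θ) := by
      rw [nsmul_sub, nsmul_sub]
      abel
    rw [e]
    refine (norm_sub_le _ _).trans ?_
    rw [hρ]
    linarith
  have hcover : (Finset.range N) ⊆
      ((Finset.range N).filter fun i => LogSc.cell q L ((p ^ i) • x) ∉ H) ∪
      ((Finset.range N).filter fun i => LogSc.cell q L ((p ^ i) • y) ∉ H) ∪
      ((H ×ˢ H).biUnion fun w => (Finset.range N).filter fun i : ℕ =>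
        ‖(p ^ i) • θ - ((((w.1 : ℝ) - (w.2 : ℝ)) / (q : ℝ) ^ L : ℝ) : T)‖ ≤ ρ) := by
    intro i hi
    rw [Finset.mem_union, Finset.mem_union]
    by_cases h1 : LogSc.cell q L ((p ^ i) • x) ∉ H
    · exact Or.inl (Or.inl (Finset.mem_filter.2 ⟨hi, h1⟩))
    by_cases h2 : LogSc.cell q L ((p ^ i) • y) ∉ H
    · exact Or.inl (Or.inr (Finset.mem_filter.2 ⟨hi, h2⟩))
    rw [not_not] at h1 h2
    refine Or.inr (Finset.mem_biUnion.2 ⟨(LogSc.cell q L ((p ^ i) • x), LogSc.cell q L ((p ^ i) • y)),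
      Finset.mem_product.2 ⟨h1, h2⟩, Finset.mem_filter.2 ⟨hi, ?_⟩⟩)
    exact hclose i (Finset.mem_range.1 hi) h1 h2
  have hcard1 := (Finset.card_le_card hcover).trans ((Finset.card_union_le _ _).trans
    (Nat.add_le_add_right (Finset.card_union_le _ _) _))
  rw [Finset.card_range] at hcard1
  have hcard2 : ((((H ×ˢ H).biUnion fun w => (Finset.range N).filter fun i : ℕ =>
        ‖(p ^ i) • θ - ((((w.1 : ℝ) - (w.2 : ℝ)) / (q : ℝ) ^ L : ℝ) : T)‖ ≤ ρ).card : ℕ) : ℝ) ≤
      (H.card : ℝ) * H.card * (6 * C * (N / (q : ℝ) ^ L)) := by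
    have h1 : ((((H ×ˢ H).biUnion fun w => (Finset.range N).filter fun i : ℕ =>
        ‖(p ^ i) • θ - ((((w.1 : ℝ) - (w.2 : ℝ)) / (q : ℝ) ^ L : ℝ) : T)‖ ≤ ρ).card : ℕ) : ℝ) ≤
        ∑ w ∈ H ×ˢ H, (((Finset.range N).filter fun i : ℕ =>
        ‖(p ^ i) • θ - ((((w.1 : ℝ) - (w.2 : ℝ)) / (q : ℝ) ^ L : ℝ) : T)‖ ≤ ρ).card : ℝ) := by
      exact_mod_cast Finset.card_biUnion_le
    have h2 : ∀ w ∈ H ×ˢ H, (((Finset.range N).filter fun i : ℕ =>
        ‖(p ^ i) • θ - ((((w.1 : ℝ) - (w.2 : ℝ)) / (q : ℝ) ^ L : ℝ) : T)‖ ≤ ρ).card : ℝ) ≤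
        6 * C * (N / (q : ℝ) ^ L) := by
      intro w _
      refine (hcount t N θ hθ hN1 _ ρ hρ0).trans ?_
      have h3 : ρ * N = 2 * (N / (q : ℝ) ^ L) := by rw [hρ]; ring
      have h4 : (N : ℝ) / (q : ℝ) ^ t ≤ N / (q : ℝ) ^ L :=
        div_le_div_of_nonneg_left hN0.le hqL (pow_le_pow_right₀ (by linarith) hLt)
      have h5 : ρ * (q : ℝ) ^ t ≤ 2 * (N / (q : ℝ) ^ L) := by
        rw [← h3]
        exact mul_le_mul_of_nonneg_left htN' hρ0.le
      have h6 : 1 ≤ (N : ℝ) / (q : ℝ) ^ L := (one_le_div hqL).2 hLN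
      calc C * (ρ * N + N / (q : ℝ) ^ t + ρ * (q : ℝ) ^ t + 1) ≤ C * (6 * (N / (q : ℝ) ^ L)) :=
            mul_le_mul_of_nonneg_left (by linarith) hC.le
        _ = _ := by ring
    refine h1.trans ((Finset.sum_le_sum h2).trans ?_)
    rw [Finset.sum_const, Finset.card_product, nsmul_eq_mul]
    push_cast
    exact le_rfl
  have hHH : (H.card : ℝ) * H.card ≤ (q : ℝ) ^ (2 * β * L) := by
    calc (H.card : ℝ) * H.card ≤ (q : ℝ) ^ (β * L) * (q : ℝ) ^ (β * L) :=
          mul_le_mul hH hH (Nat.cast_nonneg _) (by positivity)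
      _ = (q : ℝ) ^ (2 * β * L) := by
          rw [← Real.rpow_add hq0]
          congr 1
          ring
  have hfinal : (H.card : ℝ) * H.card * (6 * C * (N / (q : ℝ) ^ L)) < 3 / 4 * N := by
    calc (H.card : ℝ) * H.card * (6 * C * (N / (q : ℝ) ^ L))
        ≤ (q : ℝ) ^ (2 * β * L) * (6 * C * (N / (q : ℝ) ^ L)) :=
          mul_le_mul_of_nonneg_right hHH (by positivity)
      _ = 6 * C * ((q : ℝ) ^ (2 * β * L) * (q : ℝ) ^ (-(L : ℝ))) * N := by
          rw [Real.rpow_neg hq0.le, Real.rpow_natCast]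
          ring
      _ = 6 * C * (q : ℝ) ^ (-((1 - 2 * β) * (L : ℝ))) * N := by
          rw [← Real.rpow_add hq0]
          congr 3
          ring
      _ < 3 / 4 * N := mul_lt_mul_of_pos_right (hL0 L hL) hN0
  have e1 : (8 : ℝ) * (((Finset.range N).filter fun i => LogSc.cell q L ((p ^ i) • x) ∉ H).card : ℝ) ≤ N := by
    exact_mod_cast hx
  have e2 : (8 : ℝ) * (((Finset.range N).filter fun i => LogSc.cell q L ((p ^ i) • y) ∉ H).card : ℝ) ≤ N := by
    exact_mod_cast hy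
  have e3 : (N : ℝ) ≤ (((Finset.range N).filter fun i => LogSc.cell q L ((p ^ i) • x) ∉ H).card : ℝ) +
      (((Finset.range N).filter fun i => LogSc.cell q L ((p ^ i) • y) ∉ H).card : ℝ) +
      ((((H ×ˢ H).biUnion fun w => (Finset.range N).filter fun i : ℕ =>
        ‖(p ^ i) • θ - ((((w.1 : ℝ) - (w.2 : ℝ)) / (q : ℝ) ^ L : ℝ) : T)‖ ≤ ρ).card : ℕ) : ℝ) := by
    exact_mod_cast hcard1
  linarith

/-- **The entropy at scale `N` is at most the mass of the points of local dimension `≥ β` at scale `log N`.** -/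
theorem ent_smb {p q : ℕ} (hpq : PQ p q) {ε β A : ℝ} (hε : 0 < ε) (hβ : β < 1 / 2) (hA : 0 < A) :
    ∃ (C : ℝ) (L0 : ℕ), 0 < C ∧ ∀ (μ : Measure T) [IsProbabilityMeasure μ],
      MeasurePreserving (fun x : T => (2 : ℕ) • x) μ μ → MeasurePreserving (fun x : T => (3 : ℕ) • x) μ μ →
      ∀ L N : ℕ, L0 ≤ L → (q : ℝ) ^ ((1 + ε) * L) ≤ N →
        Hb q μ (N + 1) - Hb q μ N ≤ C * ((N : ℝ) ^ (-A) + μ.real (light q β L μ)) := by
  obtain ⟨L1, hL1⟩ := rich_two hpq hβ
  have hq : q.Prime := hpq.prime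
  have hq2 : 2 ≤ q := hq.two_le
  have hqr : (2 : ℝ) ≤ q := by exact_mod_cast hq2
  have hq0 : (0 : ℝ) < q := by linarith
  have hlq : 0 < Real.log q := Real.log_pos (by linarith)
  have hlq2 : Real.log q ≤ 2 := by
    have h1 : (q : ℝ) ≤ 3 := by
      rcases hpq with ⟨_, rfl⟩ | ⟨_, rfl⟩ <;> norm_num
    have h4 : Real.log q ≤ q - 1 := Real.log_le_sub_one_of_pos hq0
    linarith
  -- `N` large: `log N ≥ K`
  set c1 : ℝ := ε / (2 * (1 + ε) * Real.log q) with hc1
  have hc10 : 0 < c1 := by positivity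
  set K : ℝ := max (1 / A) (max (4 / c1 * (4 / Real.log q + 1)) 16) with hK
  obtain ⟨L2, hL2⟩ := eventually_atTop.1 ((tendsto_natCast_atTop_atTop (R := ℝ)).eventually_ge_atTop
    (K / Real.log q))
  have hC0 : 0 ≤ A / c1 := by positivity
  refine ⟨8 * (2 + 4 + 8 * (A / c1)) + 8 * (A / c1), max L1 (max L2 1), by positivity,
    fun μ hμ h2 h3 L N hL hN => ?_⟩
  obtain ⟨hp, hqm⟩ := hpq.mp h2 h3
  have hLL1 : L1 ≤ L := (le_max_left _ _).trans hL
  have hLL2 : L2 ≤ L := (le_max_left _ _).trans ((le_max_right _ _).trans hL)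
  have hL1' : 1 ≤ L := (le_max_right _ _).trans ((le_max_right _ _).trans hL)
  have hN0 : (0 : ℝ) < N := lt_of_lt_of_le (by positivity) hN
  set l : ℝ := Real.log N with hl
  have hLl : (1 + ε) * L * Real.log q ≤ l := by
    have h4 := Real.log_le_log (by positivity) hN
    rwa [Real.log_rpow hq0] at h4
  have hKl : K ≤ l := by
    have h4 : K / Real.log q ≤ L := hL2 L hLL2
    rw [div_le_iff₀ hlq] at h4
    have h5 : (L : ℝ) * Real.log q ≤ (1 + ε) * L * Real.log q := by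
      have : 0 ≤ ε * (L * Real.log q) := by positivity
      nlinarith
    linarith
  have hl1 : 1 / A ≤ l := (le_max_left _ _).trans hKl
  have hl2 : 4 / c1 * (4 / Real.log q + 1) ≤ l := (le_max_left _ _).trans ((le_max_right _ _).trans hKl)
  have hl3 : 16 ≤ l := (le_max_right _ _).trans ((le_max_right _ _).trans hKl)
  have hN16 : 16 ≤ N := by
    have h4 : l ≤ N - 1 := Real.log_le_sub_one_of_pos hN0
    have h5 : (16 : ℝ) ≤ N := by linarith
    exact_mod_cast h5
  set N' : ℕ := N / 8 with hN'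
  have hN'1 : 1 ≤ N' := by omega
  set Tt : ℕ := Nat.log q N' with hT
  have hT1 : q ^ Tt ≤ N' := Nat.pow_log_le_self q (by omega)
  have hT2 : N' < q ^ (Tt + 1) := Nat.lt_pow_succ_log_self (by omega) N'
  -- `Tt ≥ l / log q - 4 / log q - 1`
  have hTl : l - 4 - Real.log q ≤ Tt * Real.log q := by
    have h4 : (N : ℝ) ≤ 16 * N' := by
      have : N ≤ 16 * N' := by omega
      exact_mod_cast this
    have h5 : (N : ℝ) ≤ 16 * (q : ℝ) ^ (Tt + 1) := by
      have : (N' : ℝ) ≤ (q : ℝ) ^ (Tt + 1) := by exact_mod_cast hT2.le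
      linarith
    have h6 := Real.log_le_log hN0 h5
    rw [Real.log_mul (by norm_num) (by positivity), Real.log_pow] at h6
    have h7 : Real.log 16 ≤ 4 := by
      have e : (16 : ℝ) = 2 ^ 4 := by norm_num
      rw [e, Real.log_pow]
      have := Real.log_two_lt_d9
      push_cast
      linarith
    push_cast at h6
    linarith
  have hTL : c1 * l + L ≤ Tt := by
    have h4 : c1 * l * Real.log q + L * Real.log q ≤ Tt * Real.log q := by
      have h5 : (L : ℝ) * Real.log q ≤ l / (1 + ε) := by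
        rw [le_div_iff₀ (by linarith)]
        linarith
      have h6 : c1 * l * Real.log q = (ε / (1 + ε)) * l / 2 := by
        rw [hc1]
        field_simp
      have h7 : l / (1 + ε) = l - (ε / (1 + ε)) * l := by
        field_simp
        ring
      have h8 : 4 + Real.log q ≤ (ε / (1 + ε)) * l / 2 := by
        rw [← h6]
        have h9 : 4 / c1 * (4 / Real.log q + 1) * c1 ≤ l * c1 := mul_le_mul_of_nonneg_right hl2 hc10.le
        have h10 : 4 / c1 * (4 / Real.log q + 1) * c1 = 4 * (4 / Real.log q + 1) := by field_simp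
        rw [h10] at h9
        have h11 : 4 * (4 / Real.log q + 1) * Real.log q = 16 + 4 * Real.log q := by field_simp; ring
        have h12 := mul_le_mul_of_nonneg_right h9 hlq.le
        rw [h11] at h12
        nlinarith
      linarith
    nlinarith
  have hLT : L ≤ Tt := by
    have : (L : ℝ) ≤ Tt := by
      have : 0 ≤ c1 * l := by positivity
      linarith
    exact_mod_cast this
  set s : ℕ := Tt - L with hs
  have hsr : c1 * l ≤ s := by
    rw [hs, Nat.cast_sub hLT]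
    linarith
  have hs0 : (0 : ℝ) < s := lt_of_lt_of_le (by positivity) hsr
  have hTN : Tt ≤ N' := (Nat.lt_pow_self (by omega : 1 < q)).le.trans hT1
  set R := Rich p q N' L (heavy q β L μ) with hR
  have hRm : MeasurableSet R := rich_meas _ _ _ _ _
  have hRle := rich_le hq.pos β L N' hN'1 μ hp
  have htwo : ∀ x y : T, x ∉ R → y ∉ R →
      LogSc.cell q (4 * N') ((q ^ (L + s)) • x) = LogSc.cell q (4 * N') ((q ^ (L + s)) • y) →
      LogSc.cell q (4 * N' + s) ((q ^ L) • x) = LogSc.cell q (4 * N' + s) ((q ^ L) • y) := by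
    intro x y hx hy hxy
    by_contra hne
    obtain ⟨t, θ, ht1, ht2, hθ, hlt⟩ := cell_apart hq (4 * N') L s x y hxy hne
    apply hy
    refine hL1 L N' t hLL1 ht1.le ?_ _ (heavy_card hq.pos β L μ) x y θ hθ (hlt.trans_le ?_) hx
    · exact (Nat.pow_le_pow_right hq.pos (by omega : t ≤ Tt)).trans hT1
    · exact pow_le_pow_of_le_one (by norm_num) (by norm_num) (by omega)
  have hfano := fano3 hq2 μ hqm (4 * N') L s 2 (by norm_num) R R hRm hRm htwo (by
    intro x hx hxx
    exact ⟨0, 1, by decide, htwo (x 0) (x 1) (hx 0) (hx 1) (hxx 0 1)⟩)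
  have hwin := Hb_window hq.pos μ hqm (4 * N') s N (by omega)
  set U := μ.real R with hU
  have hU0 : 0 ≤ U := measureReal_nonneg
  have hU1 : U ≤ 1 := measureReal_le_one
  have hnml : 0 ≤ Real.negMulLog U := Real.negMulLog_nonneg hU0 hU1
  have hlog2 : Real.log ((2 : ℕ) : ℝ) ≤ 1 := by
    have := Real.log_two_lt_d9
    push_cast
    linarith
  have h4 : (s : ℝ) * (Hb q μ (N + 1) - Hb q μ N) ≤ s * (2 * U) + 4 * (U + Real.negMulLog U) := by
    have h5 : (s : ℝ) * Real.log q * U ≤ s * (2 * U) := by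
      have := mul_le_mul_of_nonneg_right hlq2 (mul_nonneg hs0.le hU0)
      nlinarith
    have h6 : (3 + Real.log ((2 : ℕ) : ℝ)) * (U + Real.negMulLog U) ≤ 4 * (U + Real.negMulLog U) :=
      mul_le_mul_of_nonneg_right (by linarith) (by linarith)
    linarith
  have h5 : Hb q μ (N + 1) - Hb q μ N ≤ 2 * U + 4 * ((U + Real.negMulLog U) / s) := by
    have h6 : (s : ℝ) * (Hb q μ (N + 1) - Hb q μ N) ≤ s * (2 * U + 4 * ((U + Real.negMulLog U) / s)) := by
      refine h4.trans (le_of_eq ?_)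
      field_simp
    exact le_of_mul_le_mul_left h6 hs0
  have hs1 : (1 : ℝ) ≤ s := by
    have : 0 < s := by exact_mod_cast hs0
    exact_mod_cast this
  have hAl : 1 ≤ A * l := by
    rw [div_le_iff₀ hA] at hl1
    linarith
  have h6 := nml_div hU0 hAl
  have h7 : Real.exp (-(A * l)) = (N : ℝ) ^ (-A) := by
    rw [Real.rpow_def_of_pos hN0, hl]
    congr 1
    ring
  rw [h7] at h6
  have h8 : Real.negMulLog U / s ≤ (A / c1) * (2 * U + 2 * (N : ℝ) ^ (-A)) := by
    have h9 : Real.negMulLog U / s ≤ Real.negMulLog U / (c1 * l) :=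
      div_le_div_of_nonneg_left hnml (by positivity) hsr
    have h10 : Real.negMulLog U / (c1 * l) = (A / c1) * (Real.negMulLog U / (A * l)) := by
      have : l ≠ 0 := by linarith
      field_simp
    rw [h10] at h9
    exact h9.trans (mul_le_mul_of_nonneg_left h6 hC0)
  have h9 : U / s ≤ U := div_le_self hU0 hs1
  have h10 : U ≤ 8 * μ.real (light q β L μ) := hRle
  have h11 : 0 ≤ (N : ℝ) ^ (-A) := by positivity
  rw [add_div] at h5
  have h12 : Hb q μ (N + 1) - Hb q μ N ≤ (2 + 4 + 8 * (A / c1)) * U + 8 * (A / c1) * (N : ℝ) ^ (-A) := by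
    nlinarith
  have h13 : (2 + 4 + 8 * (A / c1)) * U ≤ (2 + 4 + 8 * (A / c1)) * (8 * μ.real (light q β L μ)) :=
    mul_le_mul_of_nonneg_left h10 (by positivity)
  have h14 : 0 ≤ μ.real (light q β L μ) := measureReal_nonneg
  nlinarith [mul_nonneg hC0 h11, mul_nonneg hC0 h14]

end Pool.Agent.Half
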