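import Pool.Agent.Half.HDefs
import Pool.Agent.LogSc.Cell

/-! Theorem T, part 1: the entropy of a measure is bounded by the length of a code (helper56). -/

open MeasureTheory Filter Topology
open scoped ENNReal

namespace Pool.Agent.Half

/-- Entropy of the partition of the circle into `2 ^ N` arcs. -/
noncomputable def Hd (μ : Measure T) (N : ℕ) : ℝ :=
  ∑ i ∈ Finset.range (2 ^ N), Real.negMulLog (μ.real {x | LogSc.cell 2 N x = i})

theorem TC_nsmul {z : T} {k : ℕ} (h : (2 : ℝ) ^ k * ‖z‖ ≤ 1 / 2) : ‖(2 ^ k : ℕ) • z‖ = 2 ^ k * ‖z‖ := by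
  induction z using QuotientAddGroup.induction_on with
  | H r =>
    have e1 : ((r : ℝ) : T) = ((r - round r : ℝ) : T) := by
      rw [AddCircle.coe_sub]
      have : ((round r : ℝ) : T) = 0 := by
        rw [AddCircle.coe_eq_zero_iff]
        exact ⟨round r, by simp⟩
      rw [this, sub_zero]
    have e2 : ‖((r : ℝ) : T)‖ = |r - round r| := by
      rw [AddCircle.norm_eq]
      simp
    change ‖(2 ^ k : ℕ) • ((r : ℝ) : T)‖ = 2 ^ k * ‖((r : ℝ) : T)‖
    change (2 : ℝ) ^ k * ‖((r : ℝ) : T)‖ ≤ 1 / 2 at h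
    rw [e2] at h ⊢
    rw [e1, ← AddCircle.coe_nsmul]
    have e3 : (2 ^ k : ℕ) • (r - round r : ℝ) = 2 ^ k * (r - round r) := by
      rw [nsmul_eq_mul]
      push_cast
      ring
    rw [e3]
    have e4 : |(2 : ℝ) ^ k * (r - round r)| = 2 ^ k * |r - round r| := by
      rw [abs_mul, abs_of_pos (by positivity : (0 : ℝ) < 2 ^ k)]
    rw [(AddCircle.norm_coe_eq_abs_iff (1 : ℝ) one_ne_zero).2 (by rw [e4, abs_one]; exact h), e4]

/-- neighbours of the cell `c` -/
def nbr (N c : ℕ) : Finset ℕ := {c % 2 ^ N, (c + 1) % 2 ^ N, (c + (2 ^ N - 1)) % 2 ^ N}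

theorem nbr_card (N c : ℕ) : (nbr N c).card ≤ 3 := Finset.card_le_three

theorem TC_adj (N : ℕ) (x y : T) (h : ‖x - y‖ < (1 / 2 : ℝ) ^ N) :
    LogSc.cell 2 N y ∈ nbr N (LogSc.cell 2 N x) := by
  have h1 := LogSc.cell_near (b := 2) (by norm_num) N x y
  have hx := LogSc.cell_lt (b := 2) (by norm_num) N x
  have hy := LogSc.cell_lt (b := 2) (by norm_num) N y
  set cx := LogSc.cell 2 N x with hcx
  set cy := LogSc.cell 2 N y with hcy
  push_cast at h1
  have hP : (0 : ℝ) < 2 ^ N := by positivity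
  set q : ℝ := ((cx : ℝ) - cy) / 2 ^ N with hq
  have h2 : ‖((q : ℝ) : T)‖ < 2 * ((2 : ℝ) ^ N)⁻¹ := by
    have e1 : ((q : ℝ) : T) = (x - y) - ((x - y) - ((q : ℝ) : T)) := by abel
    have e2 : (1 / 2 : ℝ) ^ N = ((2 : ℝ) ^ N)⁻¹ := by rw [one_div, inv_pow]
    rw [e2] at h
    calc ‖((q : ℝ) : T)‖ = ‖(x - y) - ((x - y) - ((q : ℝ) : T))‖ := by rw [← e1]
      _ ≤ ‖x - y‖ + ‖(x - y) - ((q : ℝ) : T)‖ := norm_sub_le _ _
      _ < 2 * ((2 : ℝ) ^ N)⁻¹ := by linarith
  have e3 : ‖((q : ℝ) : T)‖ = |q - round q| := by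
    rw [AddCircle.norm_eq]
    simp
  rw [e3] at h2
  have h3 : |(cx : ℝ) - cy - round q * 2 ^ N| < 2 := by
    have e4 : (cx : ℝ) - cy - round q * 2 ^ N = (q - round q) * 2 ^ N := by
      rw [hq]
      field_simp
    rw [e4, abs_mul, abs_of_pos hP]
    calc |q - round q| * 2 ^ N < 2 * ((2 : ℝ) ^ N)⁻¹ * 2 ^ N := mul_lt_mul_of_pos_right h2 hP
      _ = 2 := by field_simp
  have h4 : |(cx : ℤ) - cy - round q * 2 ^ N| < 2 := by
    have e5 : (((|(cx : ℤ) - cy - round q * 2 ^ N| : ℤ)) : ℝ) = |(cx : ℝ) - cy - round q * 2 ^ N| := by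
      push_cast
      rfl
    have : (((|(cx : ℤ) - cy - round q * 2 ^ N| : ℤ)) : ℝ) < ((2 : ℤ) : ℝ) := by
      rw [e5]
      exact_mod_cast h3
    exact_mod_cast this
  set m := round q with hm
  have hP1 : 1 ≤ 2 ^ N := Nat.one_le_two_pow
  rw [abs_lt] at h4
  have hcases : (cx : ℤ) - cy - m * 2 ^ N = -1 ∨ (cx : ℤ) - cy - m * 2 ^ N = 0 ∨
      (cx : ℤ) - cy - m * 2 ^ N = 1 := by omega
  have key : ∀ e : ℕ, (∃ t : ℤ, ((cx + e : ℕ) : ℤ) - cy = t * 2 ^ N) → (cx + e) % 2 ^ N = cy := by
    rintro e ⟨t, ht⟩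
    have h5 : ((cx + e : ℕ) : ℤ) ≡ (cy : ℤ) [ZMOD ((2 ^ N : ℕ) : ℤ)] := by
      rw [Int.modEq_iff_dvd]
      refine ⟨-t, ?_⟩
      push_cast at ht ⊢
      linarith
    have h6 : (cx + e) ≡ cy [MOD 2 ^ N] := (Int.natCast_modEq_iff).1 h5
    have h7 : (cx + e) % 2 ^ N = cy % 2 ^ N := h6
    rw [h7, Nat.mod_eq_of_lt hy]
  unfold nbr
  simp only [Finset.mem_insert, Finset.mem_singleton]
  rcases hcases with h5 | h5 | h5
  · right; left
    symm
    apply key 1
    exact ⟨m, by push_cast; linarith⟩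
  · left
    symm
    have := key 0 ⟨m, by push_cast; linarith⟩
    simpa using this
  · right; right
    symm
    apply key (2 ^ N - 1)
    refine ⟨m + 1, ?_⟩
    rw [Nat.cast_add, Nat.cast_sub hP1]
    push_cast
    linarith

theorem TC_gibbs {p q : ℝ} (hp : 0 ≤ p) (hq : 0 < q) : Real.negMulLog p ≤ -(p * Real.log q) + (q - p) := by
  rcases hp.eq_or_lt with rfl | hp
  · simp only [Real.negMulLog_zero, zero_mul, neg_zero, zero_add, sub_zero]
    exact hq.le
  · have h1 : Real.log (q / p) ≤ q / p - 1 := Real.log_le_sub_one_of_pos (by positivity)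
    rw [Real.log_div hq.ne' hp.ne'] at h1
    have h2 := mul_le_mul_of_nonneg_left h1 hp.le
    have e1 : p * (q / p - 1) = q - p := by field_simp
    rw [e1] at h2
    unfold Real.negMulLog
    nlinarith

/-- **Entropy is at most the mean length of a code.** -/
theorem TC_bound (μ : Measure T) [IsProbabilityMeasure μ] (N : ℕ) {α : Type*} [Fintype α]
    (code : T → α) (w : α → ℝ) (hw : ∀ a, 0 < w a) (hw1 : ∑ a, w a ≤ 1)
    (hnear : ∀ x y, code x = code y → ‖x - y‖ < (1 / 2 : ℝ) ^ N) (Φ : T → ℝ) (hΦi : Integrable Φ μ)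
    (hΦ : ∀ x, -Real.log (w (code x)) ≤ Φ x) : Hd μ N ≤ Real.log 3 + ∫ x, Φ x ∂μ := by
  classical
  set A : ℕ → Set T := fun i => {x | LogSc.cell 2 N x = i} with hA
  have hAm : ∀ i, MeasurableSet (A i) := fun i => LogSc.measurable_cell 2 N (measurableSet_singleton i)
  set K : ℕ → Finset α := fun i => Finset.univ.filter fun a => ∃ x, LogSc.cell 2 N x = i ∧ code x = a with hK
  set q : ℕ → ℝ := fun i => (1 / 3) * ∑ a ∈ K i, w a with hq
  -- every code lies in at most three of the sets `K i`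
  have h3 : ∀ a, (((Finset.range (2 ^ N)).filter fun i => a ∈ K i).card : ℝ) ≤ 3 := by
    intro a
    by_cases hne : ∃ x0, code x0 = a
    · obtain ⟨x0, hx0⟩ := hne
      have h4 : ((Finset.range (2 ^ N)).filter fun i => a ∈ K i) ⊆ nbr N (LogSc.cell 2 N x0) := by
        intro i hi
        rw [Finset.mem_filter] at hi
        obtain ⟨-, hi⟩ := hi
        rw [hK, Finset.mem_filter] at hi
        obtain ⟨-, y, hy1, hy2⟩ := hi
        rw [← hy1]
        exact TC_adj N x0 y (hnear x0 y (hx0.trans hy2.symm))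
      exact_mod_cast (Finset.card_le_card h4).trans (nbr_card _ _)
    · have h4 : ((Finset.range (2 ^ N)).filter fun i => a ∈ K i) = ∅ := by
        rw [Finset.filter_eq_empty_iff]
        intro i _ hi
        rw [hK, Finset.mem_filter] at hi
        obtain ⟨-, y, -, hy2⟩ := hi
        exact hne ⟨y, hy2⟩
      rw [h4]
      norm_num
  have hq1 : ∑ i ∈ Finset.range (2 ^ N), q i ≤ 1 := by
    have e1 : ∑ i ∈ Finset.range (2 ^ N), q i =
        (1 / 3) * ∑ a, w a * (((Finset.range (2 ^ N)).filter fun i => a ∈ K i).card : ℝ) := by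
      rw [hq, ← Finset.mul_sum]
      congr 1
      have e2 : ∀ i, ∑ a ∈ K i, w a = ∑ a, if a ∈ K i then w a else 0 := by
        intro i
        rw [← Finset.sum_filter]
        congr 1
        ext a
        simp
      simp only [e2]
      rw [Finset.sum_comm]
      apply Finset.sum_congr rfl
      intro a _
      rw [← Finset.sum_filter, Finset.sum_const, nsmul_eq_mul, mul_comm]
    rw [e1]
    have h5 : ∑ a, w a * (((Finset.range (2 ^ N)).filter fun i => a ∈ K i).card : ℝ) ≤ ∑ a, w a * 3 :=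
      Finset.sum_le_sum fun a _ => mul_le_mul_of_nonneg_left (h3 a) (hw a).le
    rw [← Finset.sum_mul] at h5
    linarith
  have hdisj : (∑ i ∈ Finset.range (2 ^ N), μ.real (A i)) = 1 := by
    rw [← measureReal_biUnion_finset]
    · have : (⋃ i ∈ Finset.range (2 ^ N), A i) = Set.univ := by
        ext x
        simp only [Set.mem_iUnion, Finset.mem_range, Set.mem_univ, iff_true]
        exact ⟨LogSc.cell 2 N x, LogSc.cell_lt (by norm_num) N x, rfl⟩
      rw [this]
      simp
    · intro i _ j _ hij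
      rw [Function.onFun, Set.disjoint_left]
      intro x hx hx'
      exact hij (hx.symm.trans hx')
    · exact fun i _ => hAm i
  have hint : ∑ i ∈ Finset.range (2 ^ N), ∫ x in A i, (Φ x + Real.log 3) ∂μ = (∫ x, Φ x ∂μ) + Real.log 3 := by
    rw [← integral_biUnion_finset]
    · have : (⋃ i ∈ Finset.range (2 ^ N), A i) = Set.univ := by
        ext x
        simp only [Set.mem_iUnion, Finset.mem_range, Set.mem_univ, iff_true]
        exact ⟨LogSc.cell 2 N x, LogSc.cell_lt (by norm_num) N x, rfl⟩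
      rw [this, Measure.restrict_univ, integral_add hΦi (integrable_const _), integral_const]
      simp
    · exact fun i _ => hAm i
    · intro i _ j _ hij
      rw [Function.onFun, Set.disjoint_left]
      intro x hx hx'
      exact hij (hx.symm.trans hx')
    · exact fun i _ => (hΦi.add (integrable_const _)).integrableOn
  have hterm : ∀ i ∈ Finset.range (2 ^ N), Real.negMulLog (μ.real (A i)) ≤
      (∫ x in A i, (Φ x + Real.log 3) ∂μ) + (q i - μ.real (A i)) := by
    intro i _
    have hq0 : 0 ≤ q i := by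
      rw [hq]
      exact mul_nonneg (by norm_num) (Finset.sum_nonneg fun a _ => (hw a).le)
    by_cases hμ : μ (A i) = 0
    · have e1 : μ.real (A i) = 0 := by rw [Measure.real, hμ]; rfl
      rw [e1, Real.negMulLog_zero, Measure.restrict_eq_zero.2 hμ, integral_zero_measure]
      linarith
    · have hne : (A i).Nonempty := nonempty_of_measure_ne_zero hμ
      have hqx : ∀ x ∈ A i, w (code x) ≤ 3 * q i := by
        intro x hx
        have h6 : code x ∈ K i := by
          rw [hK, Finset.mem_filter]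
          exact ⟨Finset.mem_univ _, x, hx, rfl⟩
        have h7 : w (code x) ≤ ∑ a ∈ K i, w a :=
          Finset.single_le_sum (f := w) (fun a _ => (hw a).le) h6
        rw [hq]
        linarith
      obtain ⟨x1, hx1⟩ := hne
      have hqp : 0 < q i := by
        have h8 := hqx x1 hx1
        have h9 := hw (code x1)
        linarith
      refine (TC_gibbs measureReal_nonneg hqp).trans ?_
      have h10 : -(μ.real (A i) * Real.log (q i)) = ∫ x in A i, (-Real.log (q i)) ∂μ := by
        rw [setIntegral_const, smul_eq_mul]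
        ring
      rw [h10]
      have h11 : ∫ x in A i, (-Real.log (q i)) ∂μ ≤ ∫ x in A i, (Φ x + Real.log 3) ∂μ := by
        apply setIntegral_mono_on (integrable_const _).integrableOn
          (hΦi.add (integrable_const _)).integrableOn (hAm i)
        intro x hx
        have h12 := hΦ x
        have h13 : Real.log (w (code x)) ≤ Real.log (3 * q i) := Real.log_le_log (hw _) (hqx x hx)
        rw [Real.log_mul (by norm_num) hqp.ne'] at h13
        change -Real.log (q i) ≤ Φ x + Real.log 3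
        linarith
      linarith
  calc Hd μ N = ∑ i ∈ Finset.range (2 ^ N), Real.negMulLog (μ.real (A i)) := rfl
    _ ≤ ∑ i ∈ Finset.range (2 ^ N), ((∫ x in A i, (Φ x + Real.log 3) ∂μ) + (q i - μ.real (A i))) :=
        Finset.sum_le_sum hterm
    _ = ((∫ x, Φ x ∂μ) + Real.log 3) + (∑ i ∈ Finset.range (2 ^ N), q i - 1) := by
        rw [Finset.sum_add_distrib, Finset.sum_sub_distrib, hint, hdisj]
    _ ≤ Real.log 3 + ∫ x, Φ x ∂μ := by linarith

end Pool.Agent.Half
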