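import Pool.Agent.Half.TCode

/-! Theorem T, part 2: a code from a net of scales (helper56). -/

open MeasureTheory Filter Topology
open scoped ENNReal

namespace Pool.Agent.Half

/-- weight of a letter -/
noncomputable def wt (θ : ℝ) (m : ℕ) : Option (Fin m) → ℝ
  | none => 1 - θ
  | some _ => θ / m

theorem wt_pos {θ : ℝ} (h0 : 0 < θ) (h1 : θ < 1) {m : ℕ} (hm : 0 < m) (a : Option (Fin m)) : 0 < wt θ m a := by
  have hm' : (0 : ℝ) < m := by exact_mod_cast hm
  cases a with
  | none => simp only [wt]; linarith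
  | some v => simp only [wt]; positivity

theorem wt_sum (θ : ℝ) {m : ℕ} (hm : 0 < m) : ∑ a : Option (Fin m), wt θ m a = 1 := by
  have hm' : (m : ℝ) ≠ 0 := by exact_mod_cast hm.ne'
  rw [Fintype.sum_option]
  simp only [wt]
  rw [Finset.sum_const, Finset.card_univ, Fintype.card_fin, nsmul_eq_mul]
  field_simp
  ring

/-- **Entropy and a net of scales.** -/
theorem TM_net (μ : Measure T) [IsProbabilityMeasure μ] (E : ℕ → Set T) (hE : ∀ n, MeasurableSet (E n))
    (n : ℕ → ℕ) (hn : StrictMono n) (hn1 : 1 ≤ n 0) (θ : ℕ → ℝ) (hθ0 : ∀ j, 0 < θ j) (hθ1 : ∀ j, θ j < 1)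
    (J N : ℕ) (hN : N ≤ n J)
    (hsep : ∀ j < J, ∀ x y, x ∉ E (n j) → y ∉ E (n j) → ‖x - y‖ ≤ (1 / 2 : ℝ) ^ n j →
      ‖x - y‖ < (1 / 2 : ℝ) ^ (n (j + 1) + 3)) :
    Hd μ N ≤ Real.log 3 + ((n 0 : ℝ) + 3) * Real.log 2 + ∑ j ∈ Finset.range J,
      (-Real.log (1 - θ j) + μ.real (E (n j)) *
        (-Real.log (θ j) + (((n (j + 1) - n j : ℕ) : ℝ) + 4) * Real.log 2)) := by
  classical
  set g : ℕ → ℕ := fun j => n (j + 1) - n j with hg
  have hgn : ∀ j, n j + g j = n (j + 1) := fun j => by
    have h : n j < n (j + 1) := hn (Nat.lt_succ_self j)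
    simp only [hg]
    omega
  have hnj : ∀ j, 1 ≤ n j := fun j => hn1.trans (hn.monotone (Nat.zero_le j))
  let code : T → Fin (2 ^ (n 0 + 3)) × (∀ j : Fin J, Option (Fin (2 ^ (g j + 4)))) := fun x =>
    (⟨LogSc.cell 2 (n 0 + 3) x, LogSc.cell_lt (by norm_num) _ x⟩, fun j =>
      if x ∈ E (n j) then
        some ⟨LogSc.cell 2 (g j + 4) ((2 ^ (n j - 1) : ℕ) • x), LogSc.cell_lt (by norm_num) _ _⟩
      else none)
  let w : Fin (2 ^ (n 0 + 3)) × (∀ j : Fin J, Option (Fin (2 ^ (g j + 4)))) → ℝ := fun c =>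
    (1 / 2 : ℝ) ^ (n 0 + 3) * ∏ j : Fin J, wt (θ j) (2 ^ (g j + 4)) (c.2 j)
  have hw : ∀ a, 0 < w a := fun a =>
    mul_pos (by positivity) (Finset.prod_pos fun j _ => wt_pos (hθ0 _) (hθ1 _) (by positivity) _)
  have hw1 : ∑ a, w a ≤ 1 := by
    have e1 : ∑ a, w a = (∑ _c : Fin (2 ^ (n 0 + 3)), (1 / 2 : ℝ) ^ (n 0 + 3)) *
        ∑ c : (∀ j : Fin J, Option (Fin (2 ^ (g j + 4)))), ∏ j : Fin J, wt (θ j) (2 ^ (g j + 4)) (c j) := by
      rw [Fintype.sum_prod_type, Finset.sum_mul]
      apply Finset.sum_congr rfl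
      intro c _
      rw [Finset.mul_sum]
    have e2 : ∑ c : (∀ j : Fin J, Option (Fin (2 ^ (g j + 4)))), ∏ j : Fin J, wt (θ j) (2 ^ (g j + 4)) (c j) =
        ∏ j : Fin J, ∑ a : Option (Fin (2 ^ (g j + 4))), wt (θ j) (2 ^ (g j + 4)) a := by
      rw [Finset.prod_univ_sum, Fintype.piFinset_univ]
    rw [e1, e2, Finset.sum_const, Finset.card_univ, Fintype.card_fin, nsmul_eq_mul]
    have e3 : ∏ j : Fin J, ∑ a : Option (Fin (2 ^ (g j + 4))), wt (θ j) (2 ^ (g j + 4)) a = 1 :=
      Finset.prod_eq_one fun j _ => wt_sum _ (by positivity)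
    rw [e3, mul_one]
    push_cast
    rw [← mul_pow]
    norm_num
  have hnear0 : ∀ x y, code x = code y → ∀ j, j ≤ J → ‖x - y‖ < (1 / 2 : ℝ) ^ (n j + 2) := by
    intro x y hxy j
    have hc1 : LogSc.cell 2 (n 0 + 3) x = LogSc.cell 2 (n 0 + 3) y := by
      have := congrArg Prod.fst hxy
      exact Fin.ext_iff.1 this
    have hcell : ∀ (L : ℕ) (a b : T), LogSc.cell 2 L a = LogSc.cell 2 L b → ‖a - b‖ < (1 / 2 : ℝ) ^ L := by
      intro L a b h
      have h1 := LogSc.cell_near (b := 2) (by norm_num) L a b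
      rw [h, sub_self, zero_div, QuotientAddGroup.mk_zero, sub_zero] at h1
      rw [one_div, inv_pow]
      exact_mod_cast h1
    induction j with
    | zero =>
      intro _
      refine (hcell _ _ _ hc1).trans ?_
      exact pow_lt_pow_right_of_lt_one₀ (by norm_num) (by norm_num) (by omega)
    | succ j ih =>
      intro hj
      have h1 := ih (by omega)
      have hcj := congrFun (congrArg Prod.snd hxy) ⟨j, by omega⟩
      simp only [code] at hcj
      have hle : (1 / 2 : ℝ) ^ (n (j + 1) + 3) < (1 / 2 : ℝ) ^ (n (j + 1) + 2) :=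
        pow_lt_pow_right_of_lt_one₀ (by norm_num) (by norm_num) (by omega)
      by_cases hx : x ∈ E (n j)
      · by_cases hy : y ∈ E (n j)
        · rw [if_pos hx, if_pos hy, Option.some_inj, Fin.mk.injEq] at hcj
          have h2 := hcell _ _ _ hcj
          rw [← nsmul_sub] at h2
          have h3 : (2 : ℝ) ^ (n j - 1) * ‖x - y‖ ≤ 1 / 2 := by
            have h4 : (2 : ℝ) ^ (n j - 1) * ‖x - y‖ ≤ (2 : ℝ) ^ (n j - 1) * (1 / 2 : ℝ) ^ (n j + 2) :=
              mul_le_mul_of_nonneg_left h1.le (by positivity)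
            refine h4.trans ?_
            have h5 : (1 / 2 : ℝ) ^ (n j + 2) = (1 / 2 : ℝ) ^ (n j - 1) * (1 / 2 : ℝ) ^ 3 := by
              rw [← pow_add]
              congr 1
              have := hnj j
              omega
            rw [h5, ← mul_assoc, ← mul_pow]
            norm_num
          rw [TC_nsmul h3] at h2
          have h6 : (1 / 2 : ℝ) ^ (g j + 4) = 2 ^ (n j - 1) * (1 / 2 : ℝ) ^ (n (j + 1) + 3) := by
            have h7 : n (j + 1) + 3 = (n j - 1) + (g j + 4) := by
              have := hnj j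
              have := hgn j
              omega
            rw [h7, pow_add (1 / 2 : ℝ) (n j - 1), ← mul_assoc, ← mul_pow]
            norm_num
          rw [h6] at h2
          exact (lt_of_mul_lt_mul_left h2 (by positivity)).trans hle
        · rw [if_pos hx, if_neg hy] at hcj
          exact absurd hcj (by simp)
      · by_cases hy : y ∈ E (n j)
        · rw [if_neg hx, if_pos hy] at hcj
          exact absurd hcj (by simp)
        · refine (hsep j (by omega) x y hx hy ?_).trans hle
          exact h1.le.trans (pow_le_pow_of_le_one (by norm_num) (by norm_num) (by omega))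
  have hnear : ∀ x y, code x = code y → ‖x - y‖ < (1 / 2 : ℝ) ^ N := fun x y hxy =>
    (hnear0 x y hxy J le_rfl).trans_le (pow_le_pow_of_le_one (by norm_num) (by norm_num) (by omega))
  set Φ : T → ℝ := fun x => ((n 0 : ℝ) + 3) * Real.log 2 + ∑ j ∈ Finset.range J,
    (-Real.log (1 - θ j) + (E (n j)).indicator (fun _ => -Real.log (θ j) + ((g j : ℝ) + 4) * Real.log 2) x)
    with hΦ
  have hind : ∀ j, Integrable ((E (n j)).indicator
      (fun _ => -Real.log (θ j) + ((g j : ℝ) + 4) * Real.log 2)) μ := fun j =>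
    (integrable_const _).indicator (hE _)
  have hterm : ∀ j ∈ Finset.range J, Integrable (fun x => -Real.log (1 - θ j) + (E (n j)).indicator
      (fun _ => -Real.log (θ j) + ((g j : ℝ) + 4) * Real.log 2) x) μ := fun j _ =>
    (integrable_const _).add (hind j)
  have hΦi : Integrable Φ μ := (integrable_const _).add (integrable_finsetSum _ hterm)
  have hint : ∫ x, Φ x ∂μ = ((n 0 : ℝ) + 3) * Real.log 2 + ∑ j ∈ Finset.range J,
      (-Real.log (1 - θ j) + μ.real (E (n j)) * (-Real.log (θ j) + ((g j : ℝ) + 4) * Real.log 2)) := by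
    rw [hΦ, integral_add (integrable_const _) (integrable_finsetSum _ hterm), integral_const,
      integral_finsetSum _ hterm]
    simp only [probReal_univ, one_smul]
    congr 1
    apply Finset.sum_congr rfl
    intro j _
    rw [integral_add (integrable_const _) (hind j), integral_const, integral_indicator_const _ (hE _)]
    simp
  have hlog : ∀ x, -Real.log (w (code x)) ≤ Φ x := by
    intro x
    have hpr : ∀ j ∈ (Finset.univ : Finset (Fin J)), wt (θ j) (2 ^ (g j + 4)) ((code x).2 j) ≠ 0 := fun j _ =>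
      (wt_pos (hθ0 _) (hθ1 _) (by positivity) _).ne'
    have e1 : Real.log (w (code x)) = ((n 0 : ℝ) + 3) * Real.log (1 / 2) +
        ∑ j : Fin J, Real.log (wt (θ j) (2 ^ (g j + 4)) ((code x).2 j)) := by
      change Real.log ((1 / 2 : ℝ) ^ (n 0 + 3) * ∏ j : Fin J, wt (θ j) (2 ^ (g j + 4)) ((code x).2 j)) = _
      rw [Real.log_mul (by positivity) (Finset.prod_ne_zero_iff.2 hpr), Real.log_pow, Real.log_prod hpr]
      push_cast
      rfl
    have e2 : Real.log (1 / 2 : ℝ) = -Real.log 2 := by rw [one_div, Real.log_inv]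
    have e3 : ∑ j : Fin J, -Real.log (wt (θ j) (2 ^ (g j + 4)) ((code x).2 j)) ≤ ∑ j ∈ Finset.range J,
        (-Real.log (1 - θ j) + (E (n j)).indicator
          (fun _ => -Real.log (θ j) + ((g j : ℝ) + 4) * Real.log 2) x) := by
      rw [Finset.sum_range]
      apply Finset.sum_le_sum
      intro j _
      have hth : 0 ≤ -Real.log (1 - θ j) := by
        rw [neg_nonneg]
        exact Real.log_nonpos (by have := hθ1 j; linarith) (by have := hθ0 j; linarith)
      by_cases hx : x ∈ E (n j)
      · have e4 : (code x).2 j = some ⟨LogSc.cell 2 (g j + 4) ((2 ^ (n j - 1) : ℕ) • x),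
            LogSc.cell_lt (by norm_num) _ _⟩ := if_pos hx
        rw [e4, Set.indicator_of_mem hx]
        simp only [wt]
        rw [Real.log_div (hθ0 _).ne' (by positivity)]
        push_cast
        rw [Real.log_pow]
        push_cast
        linarith
      · have e4 : (code x).2 j = none := if_neg hx
        rw [e4, Set.indicator_of_notMem hx]
        simp only [wt]
        linarith
    rw [e1, e2]
    rw [Finset.sum_neg_distrib] at e3
    simp only [hΦ]
    linarith
  have := TC_bound μ N code w hw hw1 hnear Φ hΦi hlog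
  rw [hint] at this
  linarith

end Pool.Agent.Half
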