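import Pool.Agent.LLN.Defs

/-! Module VBR. The double sums of the bilinear lemma for a small real coefficient. PROOF: the term `μ = 0` is `2 H + 1`. For
`1 ≤ |μ| ≤ H` put `β = μ α`, `|β| ≤ 1/4`: geometric sum, `‖∑_{|l| ≤ H} e(l β)‖ ≤ 2 / ‖e(β) - 1‖ = 1 / |sin (π β)| ≤ 1 / (2 |β|)`. So
`Vb ≤ (2 H + 1) + 2 ∑_{μ = 1}^H 1 / (2 |α| μ) ≤ (2 H + 1) + (1 + log H) / |α|`. -/

open MeasureTheory Filter Topology

namespace Pool.Agent.Half

private theorem vbr_icc (n : ℕ) (c : ℤ → ℂ) :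
    ∑ μ ∈ Finset.Icc (-(n : ℤ)) n, c μ =
      c 0 + ∑ j ∈ Finset.range n, (c ((j : ℤ) + 1) + c (-((j : ℤ) + 1))) := by
  induction n with
  | zero => simp
  | succ n ih =>
    have e : Finset.Icc (-((n + 1 : ℕ) : ℤ)) ((n + 1 : ℕ) : ℤ) =
        insert ((n : ℤ) + 1) (insert (-((n : ℤ) + 1)) (Finset.Icc (-(n : ℤ)) n)) := by
      ext x
      simp only [Finset.mem_Icc, Finset.mem_insert]
      push_cast
      omega
    rw [e, Finset.sum_insert, Finset.sum_insert, ih, Finset.sum_range_succ]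
    · ring
    · simp only [Finset.mem_Icc]; omega
    · simp only [Finset.mem_Icc, Finset.mem_insert]; omega

private theorem vbr_iccR (n : ℕ) (c : ℤ → ℝ) :
    ∑ μ ∈ Finset.Icc (-(n : ℤ)) n, c μ =
      c 0 + ∑ j ∈ Finset.range n, (c ((j : ℤ) + 1) + c (-((j : ℤ) + 1))) := by
  have h := vbr_icc n (fun μ => (c μ : ℂ))
  exact_mod_cast h

private theorem vbr_tele (n : ℕ) (z : ℂ) (hz : z ≠ 0) :
    (z - 1) * ∑ l ∈ Finset.Icc (-(n : ℤ)) n, z ^ l = z ^ ((n : ℤ) + 1) - z ^ (-(n : ℤ)) := by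
  induction n with
  | zero => simp
  | succ n ih =>
    have e : Finset.Icc (-((n + 1 : ℕ) : ℤ)) ((n + 1 : ℕ) : ℤ) =
        insert ((n : ℤ) + 1) (insert (-((n : ℤ) + 1)) (Finset.Icc (-(n : ℤ)) n)) := by
      ext x
      simp only [Finset.mem_Icc, Finset.mem_insert]
      push_cast
      omega
    rw [e, Finset.sum_insert, Finset.sum_insert, mul_add, mul_add, ih]
    · have e1 : z ^ (((n + 1 : ℕ) : ℤ) + 1) = z ^ ((n : ℤ) + 1) * z := by
        rw [← zpow_add_one₀ hz]; push_cast; rfl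
      have e2 : z ^ (-(n : ℤ)) = z ^ (-((n : ℤ) + 1)) * z := by
        rw [← zpow_add_one₀ hz]; congr 1; ring
      have e3 : z ^ (-((n + 1 : ℕ) : ℤ)) = z ^ (-((n : ℤ) + 1)) := by push_cast; rfl
      rw [e1, e2, e3]
      ring
    · simp only [Finset.mem_Icc]; omega
    · simp only [Finset.mem_Icc, Finset.mem_insert]; omega

private theorem vbr_geom (H : ℕ) {β : ℝ} (h0 : β ≠ 0) (h1 : |β| ≤ 1 / 2) :
    ‖∑ l ∈ Finset.Icc (-(H : ℤ)) H, (fourier l ((β : ℝ) : AddCircle (1 : ℝ)) : ℂ)‖ ≤ 1 / (2 * |β|) := by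
  set z : ℂ := Complex.exp (Complex.I * ((2 * Real.pi * β : ℝ) : ℂ)) with hz
  have hz0 : z ≠ 0 := Complex.exp_ne_zero _
  have hzn : ‖z‖ = 1 := by
    rw [hz, mul_comm, Complex.norm_exp_ofReal_mul_I]
  have hf : ∀ l : ℤ, (fourier l ((β : ℝ) : AddCircle (1 : ℝ)) : ℂ) = z ^ l := by
    intro l
    rw [fourier_coe_apply, hz, ← Complex.exp_int_mul]
    congr 1
    push_cast
    ring
  simp_rw [hf]
  have ht := vbr_tele H z hz0
  have hn : ‖z - 1‖ * ‖∑ l ∈ Finset.Icc (-(H : ℤ)) H, z ^ l‖ ≤ 2 := by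
    rw [← norm_mul, ht]
    refine (norm_sub_le _ _).trans ?_
    rw [norm_zpow, norm_zpow, hzn]
    norm_num
  have hlow : 4 * |β| ≤ ‖z - 1‖ := by
    rw [hz, Complex.norm_exp_I_mul_ofReal_sub_one]
    rw [norm_mul, Real.norm_eq_abs, Real.norm_eq_abs, abs_of_pos (by norm_num : (0 : ℝ) < 2)]
    have e : 2 * Real.pi * β / 2 = Real.pi * β := by ring
    rw [e]
    have hpi := Real.pi_pos
    have h2 : |Real.pi * β| ≤ Real.pi / 2 := by
      rw [abs_mul, abs_of_pos hpi]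
      nlinarith
    have h3 := Real.mul_abs_le_abs_sin h2
    rw [abs_mul, abs_of_pos hpi] at h3
    have h4 : 2 / Real.pi * (Real.pi * |β|) = 2 * |β| := by
      field_simp
    rw [h4] at h3
    linarith
  have hb : 0 < |β| := abs_pos.mpr h0
  rw [le_div_iff₀ (by positivity)]
  have hS : 0 ≤ ‖∑ l ∈ Finset.Icc (-(H : ℤ)) H, z ^ l‖ := norm_nonneg _
  nlinarith

theorem vb_real {H : ℕ} (hH : 1 ≤ H) {α : ℝ} (h0 : α ≠ 0) (h1 : 4 * |α| * H ≤ 1) :
    LLN.Vb H ((α : ℝ) : AddCircle (1 : ℝ)) ≤ (2 * H + 1) + (1 + Real.log H) / |α| := by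
  have ha : 0 < |α| := abs_pos.mpr h0
  have hF : ∀ l μ : ℤ, (fourier (l * μ) ((α : ℝ) : AddCircle (1 : ℝ)) : ℂ) =
      fourier l (((μ : ℝ) * α : ℝ) : AddCircle (1 : ℝ)) := by
    intro l μ
    rw [fourier_coe_apply, fourier_coe_apply]
    congr 1
    push_cast
    ring
  have hterm : ∀ j : ℕ, j < H → ∀ e : ℝ, |e| = 1 →
      ‖∑ l ∈ Finset.Icc (-(H : ℤ)) H,
        (fourier l (((e * ((j : ℝ) + 1)) * α : ℝ) : AddCircle (1 : ℝ)) : ℂ)‖ ≤
        1 / (2 * |α|) * ((j : ℝ) + 1)⁻¹ := by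
    intro j hj e he
    have hj1 : (0 : ℝ) < (j : ℝ) + 1 := by positivity
    have he0 : e ≠ 0 := by
      intro h
      rw [h, abs_zero] at he
      norm_num at he
    have habs : |(e * ((j : ℝ) + 1)) * α| = ((j : ℝ) + 1) * |α| := by
      rw [abs_mul, abs_mul, he, one_mul, abs_of_pos hj1]
    have hjH : (j : ℝ) + 1 ≤ H := by exact_mod_cast hj
    refine (vbr_geom H (mul_ne_zero (mul_ne_zero he0 hj1.ne') h0) ?_).trans ?_
    · rw [habs]
      nlinarith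
    · rw [habs]
      apply le_of_eq
      field_simp
  unfold LLN.Vb
  rw [vbr_iccR]
  have hz : ‖∑ l ∈ Finset.Icc (-(H : ℤ)) H,
      (fourier (l * 0) ((α : ℝ) : AddCircle (1 : ℝ)) : ℂ)‖ ≤ 2 * H + 1 := by
    simp only [mul_zero, fourier_zero]
    rw [Finset.sum_const, Int.card_Icc, nsmul_eq_mul, mul_one, Complex.norm_natCast]
    have : ((H : ℤ) + 1 - -(H : ℤ)).toNat = 2 * H + 1 := by omega
    rw [this]
    push_cast
    exact le_rfl
  have hs : ∑ j ∈ Finset.range H,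
      (‖∑ l ∈ Finset.Icc (-(H : ℤ)) H,
        (fourier (l * ((j : ℤ) + 1)) ((α : ℝ) : AddCircle (1 : ℝ)) : ℂ)‖ +
      ‖∑ l ∈ Finset.Icc (-(H : ℤ)) H,
        (fourier (l * (-((j : ℤ) + 1))) ((α : ℝ) : AddCircle (1 : ℝ)) : ℂ)‖) ≤
      ∑ j ∈ Finset.range H, 1 / |α| * ((j : ℝ) + 1)⁻¹ := by
    refine Finset.sum_le_sum fun j hj => ?_
    have hj' := Finset.mem_range.mp hj
    have e1 := hterm j hj' 1 (by norm_num)
    have e2 := hterm j hj' (-1) (by norm_num)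
    simp_rw [hF]
    have c1 : (((((j : ℤ) + 1 : ℤ) : ℝ) * α : ℝ)) = (1 * ((j : ℝ) + 1)) * α := by
      push_cast; ring
    have c2 : ((((-((j : ℤ) + 1) : ℤ) : ℝ) * α : ℝ)) = (-1 * ((j : ℝ) + 1)) * α := by
      push_cast; ring
    rw [c1, c2]
    refine (add_le_add e1 e2).trans (le_of_eq ?_)
    field_simp
    norm_num
  have hharm : ∑ j ∈ Finset.range H, ((j : ℝ) + 1)⁻¹ ≤ 1 + Real.log H := by
    have h2 := harmonic_le_one_add_log H
    have h3 : ((harmonic H : ℚ) : ℝ) = ∑ j ∈ Finset.range H, ((j : ℝ) + 1)⁻¹ := by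
      unfold harmonic
      push_cast
      rfl
    rwa [h3] at h2
  rw [← Finset.mul_sum] at hs
  have h5 : 1 / |α| * ∑ j ∈ Finset.range H, ((j : ℝ) + 1)⁻¹ ≤ (1 + Real.log H) / |α| := by
    rw [div_mul_eq_mul_div, one_mul]
    exact div_le_div_of_nonneg_right hharm ha.le
  exact add_le_add hz (hs.trans h5)

end Pool.Agent.Half
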