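import Pool.Agent.Half.SlC
import Pool.Agent.Ord2.Cor
import Pool.Agent.Ord2.Arith

/-! Module VARM. Variance of the means for an invariant measure (compare `Ord2.var_le`, `Half.var_vol`). PROOF: expand the square;
for `g = 2 ^ a * 3 ^ b`, `g' = 2 ^ a' * 3 ^ b'` the integral of `(e(m g x) - c(m)) * conj (e(m g' x) - c(m))` is `c(m (g - g')) - |c(m)| ^ 2`
(`∫ e(m g x) dμ = c(m)` by invariance), `g - g' = 2 ^ min(a, a') 3 ^ min(b, b') D(a - a', b - b')` and `Ord2.cf_two_three`. -/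

open MeasureTheory Filter Topology
open scoped ENNReal

namespace Pool.Agent.Half

private theorem VARM_int (μ : Measure T) [IsProbabilityMeasure μ]
    {f : T → ℂ} (hf : Continuous f) : Integrable f μ :=
  hf.integrable_of_hasCompactSupport (HasCompactSupport.of_compactSpace _)

private theorem VARM_cont (m : ℤ) (g : ℕ) : Continuous fun x : T => (fourier m (g • x) : ℂ) :=
  (fourier m).continuous.comp (continuous_const_smul g)

private theorem VARM_char (μ : Measure T)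
    (h2 : MeasurePreserving (fun x : T => (2 : ℕ) • x) μ μ)
    (h3 : MeasurePreserving (fun x : T => (3 : ℕ) • x) μ μ) (m : ℤ) (p : ℕ × ℕ) :
    ∫ x, fourier m ((2 ^ p.1 * 3 ^ p.2 : ℕ) • x) ∂μ = Ord2.cf μ m := by
  have h1 : ∫ x, fourier m ((2 ^ p.1 * 3 ^ p.2 : ℕ) • x) ∂μ =
      Ord2.cf μ (m * ((2 ^ p.1 * 3 ^ p.2 : ℕ) : ℤ)) := by
    unfold Ord2.cf
    apply integral_congr_ae
    filter_upwards with x
    rw [Ord2.fourier_nsmul']
  rw [h1, ← Ord2.cf_two_three μ h2 h3 m p.1 p.2]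
  congr 1
  push_cast
  ring

private theorem VARM_corr (μ : Measure T) [IsProbabilityMeasure μ]
    (h2 : MeasurePreserving (fun x : T => (2 : ℕ) • x) μ μ)
    (h3 : MeasurePreserving (fun x : T => (3 : ℕ) • x) μ μ) (m : ℤ) (p q : ℕ × ℕ) :
    ∫ x, fourier m ((2 ^ p.1 * 3 ^ p.2 : ℕ) • x) *
        (starRingEnd ℂ) (fourier m ((2 ^ q.1 * 3 ^ q.2 : ℕ) • x)) ∂μ =
      Ord2.cf μ (m * Ord2.Dv ((p.1 : ℤ) - q.1, (p.2 : ℤ) - q.2)) := by
  have h1 : ∫ x, fourier m ((2 ^ p.1 * 3 ^ p.2 : ℕ) • x) *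
        (starRingEnd ℂ) (fourier m ((2 ^ q.1 * 3 ^ q.2 : ℕ) • x)) ∂μ =
      Ord2.cf μ (m * (((2 ^ p.1 * 3 ^ p.2 : ℕ) : ℤ) - ((2 ^ q.1 * 3 ^ q.2 : ℕ) : ℤ))) := by
    unfold Ord2.cf
    apply integral_congr_ae
    filter_upwards with x
    rw [Ord2.fourier_nsmul', Ord2.fourier_nsmul', ← fourier_neg, ← fourier_add]
    congr 2
    ring
  rw [h1]
  have key : (((2 ^ p.1 * 3 ^ p.2 : ℕ) : ℤ) - ((2 ^ q.1 * 3 ^ q.2 : ℕ) : ℤ)) =
      2 ^ (min p.1 q.1) * 3 ^ (min p.2 q.2) *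
        Ord2.Dv ((p.1 : ℤ) - q.1, (p.2 : ℤ) - q.2) := by
    unfold Ord2.Dv
    have e1 : p.1 = min p.1 q.1 + ((p.1 : ℤ) - (q.1 : ℤ)).toNat := by omega
    have e2 : q.1 = min p.1 q.1 + (-((p.1 : ℤ) - (q.1 : ℤ))).toNat := by omega
    have e3 : p.2 = min p.2 q.2 + ((p.2 : ℤ) - (q.2 : ℤ)).toNat := by omega
    have e4 : q.2 = min p.2 q.2 + (-((p.2 : ℤ) - (q.2 : ℤ))).toNat := by omega
    have p1 : (2 : ℤ) ^ p.1 = 2 ^ (min p.1 q.1) * 2 ^ ((p.1 : ℤ) - (q.1 : ℤ)).toNat := by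
      rw [← pow_add]; exact congrArg _ e1
    have p2 : (2 : ℤ) ^ q.1 = 2 ^ (min p.1 q.1) * 2 ^ (-((p.1 : ℤ) - (q.1 : ℤ))).toNat := by
      rw [← pow_add]; exact congrArg _ e2
    have p3 : (3 : ℤ) ^ p.2 = 3 ^ (min p.2 q.2) * 3 ^ ((p.2 : ℤ) - (q.2 : ℤ)).toNat := by
      rw [← pow_add]; exact congrArg _ e3
    have p4 : (3 : ℤ) ^ q.2 = 3 ^ (min p.2 q.2) * 3 ^ (-((p.2 : ℤ) - (q.2 : ℤ))).toNat := by
      rw [← pow_add]; exact congrArg _ e4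
    push_cast
    rw [p1, p2, p3, p4]
    ring
  rw [key]
  have := Ord2.cf_two_three μ h2 h3 (m * Ord2.Dv ((p.1 : ℤ) - q.1, (p.2 : ℤ) - q.2))
    (min p.1 q.1) (min p.2 q.2)
  rw [← this]
  congr 1
  ring

private theorem VARM_pair (μ : Measure T) [IsProbabilityMeasure μ]
    (h2 : MeasurePreserving (fun x : T => (2 : ℕ) • x) μ μ)
    (h3 : MeasurePreserving (fun x : T => (3 : ℕ) • x) μ μ) (m : ℤ) (p q : ℕ × ℕ) :
    ∫ x, (fourier m ((2 ^ p.1 * 3 ^ p.2 : ℕ) • x) - Ord2.cf μ m) *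
        (starRingEnd ℂ) (fourier m ((2 ^ q.1 * 3 ^ q.2 : ℕ) • x) - Ord2.cf μ m) ∂μ =
      Ord2.cf μ (m * Ord2.Dv ((p.1 : ℤ) - q.1, (p.2 : ℤ) - q.2)) -
        ((‖Ord2.cf μ m‖ ^ 2 : ℝ) : ℂ) := by
  have hconj : Continuous fun z : ℂ => (starRingEnd ℂ) z := Complex.continuous_conj
  have c1 := VARM_cont m (2 ^ p.1 * 3 ^ p.2)
  have c2 := VARM_cont m (2 ^ q.1 * 3 ^ q.2)
  have e : ∀ x : T,
      (fourier m ((2 ^ p.1 * 3 ^ p.2 : ℕ) • x) - Ord2.cf μ m) *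
        (starRingEnd ℂ) (fourier m ((2 ^ q.1 * 3 ^ q.2 : ℕ) • x) - Ord2.cf μ m) =
      (fourier m ((2 ^ p.1 * 3 ^ p.2 : ℕ) • x) *
          (starRingEnd ℂ) (fourier m ((2 ^ q.1 * 3 ^ q.2 : ℕ) • x)) -
        fourier m ((2 ^ p.1 * 3 ^ p.2 : ℕ) • x) * (starRingEnd ℂ) (Ord2.cf μ m)) -
      (Ord2.cf μ m * (starRingEnd ℂ) (fourier m ((2 ^ q.1 * 3 ^ q.2 : ℕ) • x)) -
        Ord2.cf μ m * (starRingEnd ℂ) (Ord2.cf μ m)) := by
    intro x
    rw [map_sub]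
    ring
  simp only [e]
  have i1 : Integrable (fun x : T => fourier m ((2 ^ p.1 * 3 ^ p.2 : ℕ) • x) *
      (starRingEnd ℂ) (fourier m ((2 ^ q.1 * 3 ^ q.2 : ℕ) • x))) μ :=
    VARM_int μ (c1.mul (hconj.comp c2))
  have i2 : Integrable (fun x : T => fourier m ((2 ^ p.1 * 3 ^ p.2 : ℕ) • x) *
      (starRingEnd ℂ) (Ord2.cf μ m)) μ := VARM_int μ (c1.mul continuous_const)
  have i3 : Integrable (fun x : T => Ord2.cf μ m *
      (starRingEnd ℂ) (fourier m ((2 ^ q.1 * 3 ^ q.2 : ℕ) • x))) μ :=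
    VARM_int μ (continuous_const.mul (hconj.comp c2))
  have i4 : Integrable (fun _ : T => Ord2.cf μ m * (starRingEnd ℂ) (Ord2.cf μ m)) μ :=
    integrable_const _
  have s1 : Integrable (fun x : T => fourier m ((2 ^ p.1 * 3 ^ p.2 : ℕ) • x) *
          (starRingEnd ℂ) (fourier m ((2 ^ q.1 * 3 ^ q.2 : ℕ) • x)) -
        fourier m ((2 ^ p.1 * 3 ^ p.2 : ℕ) • x) * (starRingEnd ℂ) (Ord2.cf μ m)) μ := i1.sub i2
  have s2 : Integrable (fun x : T => Ord2.cf μ m *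
        (starRingEnd ℂ) (fourier m ((2 ^ q.1 * 3 ^ q.2 : ℕ) • x)) -
        Ord2.cf μ m * (starRingEnd ℂ) (Ord2.cf μ m)) μ := i3.sub i4
  rw [integral_sub s1 s2, integral_sub i1 i2, integral_sub i3 i4,
    VARM_corr μ h2 h3 m p q, integral_mul_const, integral_const_mul,
    VARM_char μ h2 h3 m p, integral_conj, VARM_char μ h2 h3 m q,
    integral_const]
  simp only [probReal_univ, one_smul]
  have e2 : Ord2.cf μ m * (starRingEnd ℂ) (Ord2.cf μ m) = ((‖Ord2.cf μ m‖ ^ 2 : ℝ) : ℂ) := by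
    rw [Complex.mul_conj, Complex.normSq_eq_norm_sq]
  rw [e2]
  ring

theorem var_mu (μ : Measure T) [IsProbabilityMeasure μ]
    (h2 : MeasurePreserving (fun x : T => (2 : ℕ) • x) μ μ)
    (h3 : MeasurePreserving (fun x : T => (3 : ℕ) • x) μ μ) (G : Finset (ℕ × ℕ)) (hG : G.Nonempty) (m : ℤ) :
    ∫⁻ x, ENNReal.ofReal (‖avgC G (fourier m) x - Ord2.cf μ m‖ ^ 2) ∂μ ≤
      ENNReal.ofReal ((∑ p ∈ G, ∑ p' ∈ G,
        Ord2.dev μ m ((p.1 : ℤ) - p'.1, (p.2 : ℤ) - p'.2)) / (G.card : ℝ) ^ 2) := by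
  set N : ℝ := (G.card : ℝ) with hN
  have hNpos : 0 < N := by
    rw [hN]
    exact_mod_cast hG.card_pos
  let φ : ℕ × ℕ → T → ℂ := fun p x => fourier m ((2 ^ p.1 * 3 ^ p.2 : ℕ) • x)
  have hF : ∀ x, avgC G (fourier m) x - Ord2.cf μ m =
      (∑ p ∈ G, (φ p x - Ord2.cf μ m)) / (N : ℂ) := by
    intro x
    have hNc : (N : ℂ) ≠ 0 := by exact_mod_cast hNpos.ne'
    rw [Finset.sum_sub_distrib, Finset.sum_const, nsmul_eq_mul, sub_div]
    have : (G.card : ℂ) = (N : ℂ) := by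
      rw [hN]; push_cast; rfl
    rw [this, mul_div_cancel_left₀ _ hNc]
    congr 1
  have hsq : ∀ x, ((‖avgC G (fourier m) x - Ord2.cf μ m‖ ^ 2 : ℝ) : ℂ) =
      (∑ p ∈ G, ∑ q ∈ G, (φ p x - Ord2.cf μ m) * (starRingEnd ℂ) (φ q x - Ord2.cf μ m)) /
        ((N : ℂ) ^ 2) := by
    intro x
    rw [← Complex.normSq_eq_norm_sq, ← Complex.mul_conj, hF x, map_div₀, Complex.conj_ofReal,
      map_sum, div_mul_div_comm, Finset.sum_mul_sum, sq]
  have hconj : Continuous fun z : ℂ => (starRingEnd ℂ) z := Complex.continuous_conj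
  have hφ : ∀ p, Continuous (φ p) := fun p => VARM_cont m _
  have hint : ((∫ x, ‖avgC G (fourier m) x - Ord2.cf μ m‖ ^ 2 ∂μ : ℝ) : ℂ) =
      (∑ p ∈ G, ∑ q ∈ G, (Ord2.cf μ (m * Ord2.Dv ((p.1 : ℤ) - q.1, (p.2 : ℤ) - q.2)) -
        ((‖Ord2.cf μ m‖ ^ 2 : ℝ) : ℂ))) / ((N : ℂ) ^ 2) := by
    rw [← integral_complex_ofReal]
    have e1 : ∫ x, ((‖avgC G (fourier m) x - Ord2.cf μ m‖ ^ 2 : ℝ) : ℂ) ∂μ =
        ∫ x, (∑ p ∈ G, ∑ q ∈ G, (φ p x - Ord2.cf μ m) * (starRingEnd ℂ) (φ q x - Ord2.cf μ m)) /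
          ((N : ℂ) ^ 2) ∂μ := integral_congr_ae (Filter.Eventually.of_forall hsq)
    rw [e1, integral_div]
    congr 1
    have ic : ∀ p q, Integrable
        (fun x => (φ p x - Ord2.cf μ m) * (starRingEnd ℂ) (φ q x - Ord2.cf μ m)) μ := fun p q =>
      VARM_int μ (((hφ p).sub continuous_const).mul (hconj.comp ((hφ q).sub continuous_const)))
    rw [integral_finsetSum _ (fun p _ => integrable_finsetSum _ (fun q _ => ic p q))]
    refine Finset.sum_congr rfl fun p hp => ?_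
    rw [integral_finsetSum _ (fun q _ => ic p q)]
    refine Finset.sum_congr rfl fun q hq => ?_
    exact VARM_pair μ h2 h3 m p q
  have hle : ∫ x, ‖avgC G (fourier m) x - Ord2.cf μ m‖ ^ 2 ∂μ ≤
      (∑ p ∈ G, ∑ q ∈ G, Ord2.dev μ m ((p.1 : ℤ) - q.1, (p.2 : ℤ) - q.2)) / N ^ 2 := by
    have h0 : 0 ≤ ∫ x, ‖avgC G (fourier m) x - Ord2.cf μ m‖ ^ 2 ∂μ :=
      integral_nonneg fun x => by positivity
    have h1 : ∫ x, ‖avgC G (fourier m) x - Ord2.cf μ m‖ ^ 2 ∂μ =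
        ‖((∫ x, ‖avgC G (fourier m) x - Ord2.cf μ m‖ ^ 2 ∂μ : ℝ) : ℂ)‖ := by
      rw [Complex.norm_real, Real.norm_of_nonneg h0]
    rw [h1, hint, norm_div, norm_pow, Complex.norm_real, Real.norm_of_nonneg hNpos.le]
    apply div_le_div_of_nonneg_right _ (by positivity)
    exact (norm_sum_le _ _).trans (Finset.sum_le_sum fun p _ => norm_sum_le _ _)
  have hcontav : Continuous fun x => ‖avgC G (fourier m) x - Ord2.cf μ m‖ ^ 2 := by
    have : Continuous fun x => (∑ p ∈ G, (φ p x - Ord2.cf μ m)) / (N : ℂ) :=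
      (continuous_finsetSum _ fun p _ => (hφ p).sub continuous_const).div_const _
    have h' : (fun x => ‖avgC G (fourier m) x - Ord2.cf μ m‖ ^ 2) =
        fun x => ‖(∑ p ∈ G, (φ p x - Ord2.cf μ m)) / (N : ℂ)‖ ^ 2 := by
      funext x; rw [hF x]
    rw [h']
    exact this.norm.pow 2
  rw [← ofReal_integral_eq_lintegral_ofReal
    (hcontav.integrable_of_hasCompactSupport (HasCompactSupport.of_compactSpace _))
    (Filter.Eventually.of_forall fun x => by positivity)]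
  exact ENNReal.ofReal_le_ofReal hle

end Pool.Agent.Half
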