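import Pool.Agent.Half.HDefs
import Pool.Agent.Ord2.Arith

/-! Module VARV. Variance for Lebesgue measure. PROOF: expand the square; `∫ fourier n ∂volume = 0` for `n ≠ 0`, and
`m 2^a 3^b` determines `(a, b)`; only the diagonal terms remain: the integral of the square is `1/|G|`
(compare `Ord2.bessel_volume`, Pool/Agent/Ord2/Bes.lean, whose proof is copied here, with the constant `1`). -/

open MeasureTheory Filter Topology
open scoped ENNReal

namespace Pool.Agent.Half

private lemma vv_cf (n : ℤ) (hn : n ≠ 0) :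
    ∫ x, fourier n x ∂(volume : Measure (AddCircle (1 : ℝ))) = (0 : ℂ) :=
  integral_eq_zero_of_add_right_eq_neg (μ := (volume : Measure (AddCircle (1 : ℝ))))
      (fourier_add_half_inv_index hn (Fact.out : (0 : ℝ) < 1))

private lemma vv_one (n : ℤ) (hn : n = 0) :
    ∫ x, fourier n x ∂(volume : Measure (AddCircle (1 : ℝ))) = (1 : ℂ) := by
  subst hn
  simp [Measure.real, AddCircle.measure_univ]

private lemma vv_inj {m : ℤ} (hm : m ≠ 0) {p q : ℕ × ℕ}
    (h : m * (2 ^ p.1 * 3 ^ p.2) = m * (2 ^ q.1 * 3 ^ q.2)) : p = q := by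
  have h1 : (2 : ℤ) ^ p.1 * 3 ^ p.2 = 2 ^ q.1 * 3 ^ q.2 := mul_left_cancel₀ hm h
  have h2 : 2 ^ p.1 * 3 ^ p.2 = 2 ^ q.1 * 3 ^ q.2 := by exact_mod_cast h1
  have e1 := congrArg (fun n : ℕ => n.factorization 2) h2
  have e2 := congrArg (fun n : ℕ => n.factorization 3) h2
  have n2 : ∀ a : ℕ, (2 : ℕ) ^ a ≠ 0 := fun a => by positivity
  have n3 : ∀ a : ℕ, (3 : ℕ) ^ a ≠ 0 := fun a => by positivity
  have f23 : Nat.factorization 2 3 = 0 := Nat.factorization_eq_zero_of_not_dvd (by norm_num)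
  have f32 : Nat.factorization 3 2 = 0 := Nat.factorization_eq_zero_of_not_dvd (by norm_num)
  have f22 : Nat.factorization 2 2 = 1 := Nat.Prime.factorization_self Nat.prime_two
  have f33 : Nat.factorization 3 3 = 1 := Nat.Prime.factorization_self Nat.prime_three
  simp only [Nat.factorization_mul (n2 _) (n3 _), Nat.factorization_pow, Finsupp.add_apply,
    Finsupp.smul_apply, smul_eq_mul, f23, f32, f22, f33, mul_zero, mul_one, add_zero, zero_add] at e1 e2
  exact Prod.ext e1 e2

private theorem vv_bessel (m : ℤ) (hm : m ≠ 0) (S : Finset (ℕ × ℕ)) (a : ℕ × ℕ → ℂ) :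
    ∫ x, ‖∑ p ∈ S, a p * fourier (m * (2 ^ p.1 * 3 ^ p.2)) x‖ ^ 2
      ∂(volume : Measure (AddCircle (1 : ℝ))) = ∑ p ∈ S, ‖a p‖ ^ 2 := by
  have h1 : ∀ x : AddCircle (1 : ℝ),
      ((‖∑ p ∈ S, a p * fourier (m * (2 ^ p.1 * 3 ^ p.2)) x‖ ^ 2 : ℝ) : ℂ) =
      ∑ p ∈ S, ∑ q ∈ S, a p * (starRingEnd ℂ) (a q) *
        fourier (m * (2 ^ p.1 * 3 ^ p.2) - m * (2 ^ q.1 * 3 ^ q.2)) x := by
    intro x
    rw [Complex.ofReal_pow, ← Complex.mul_conj', map_sum, Finset.sum_mul_sum]
    apply Finset.sum_congr rfl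
    intro p _
    apply Finset.sum_congr rfl
    intro q _
    rw [map_mul, sub_eq_add_neg, fourier_add, fourier_neg]
    ring
  have h2 : ((∫ x, ‖∑ p ∈ S, a p * fourier (m * (2 ^ p.1 * 3 ^ p.2)) x‖ ^ 2
      ∂(volume : Measure (AddCircle (1 : ℝ))) : ℝ) : ℂ) = ((∑ p ∈ S, ‖a p‖ ^ 2 : ℝ) : ℂ) := by
    rw [← integral_complex_ofReal, integral_congr_ae (Filter.Eventually.of_forall h1)]
    have hint : ∀ n : ℤ, Integrable (fun x => (fourier n x : ℂ)) (volume : Measure (AddCircle (1 : ℝ))) :=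
      fun n => (fourier n).continuous.integrable_of_hasCompactSupport
        (HasCompactSupport.of_compactSpace _)
    rw [integral_finsetSum _ (fun p _ => integrable_finsetSum _ (fun q _ => (hint _).const_mul _))]
    push_cast
    apply Finset.sum_congr rfl
    intro p hp
    rw [integral_finsetSum _ (fun q _ => (hint _).const_mul _)]
    rw [Finset.sum_eq_single_of_mem p hp]
    · rw [integral_const_mul, vv_one _ (sub_self _), mul_one, ← Complex.mul_conj']
    · intro q _ hqp
      rw [integral_const_mul, vv_cf _ (fun h => hqp (vv_inj hm (sub_eq_zero.mp h)).symm), mul_zero]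
  exact Complex.ofReal_injective h2

theorem var_vol (G : Finset (ℕ × ℕ)) (hG : G.Nonempty) (m : ℤ) (hm : m ≠ 0) :
    ∫⁻ x, ENNReal.ofReal (‖avgC G (fourier m) x‖ ^ 2) ∂(volume : Measure T) ≤ ((G.card : ℕ) : ℝ≥0∞)⁻¹ := by
  have hc : (0 : ℝ) < (G.card : ℝ) := by exact_mod_cast hG.card_pos
  have e : ∀ x : T, avgC G (fourier m) x =
      ∑ p ∈ G, (1 / (G.card : ℂ)) * fourier (m * (2 ^ p.1 * 3 ^ p.2)) x := by
    intro x
    unfold avgC
    rw [← Finset.mul_sum, one_div, div_eq_inv_mul]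
    congr 1
    apply Finset.sum_congr rfl
    intro p _
    rw [Ord2.fourier_nsmul']
    push_cast
    rfl
  have key := vv_bessel m hm G (fun _ => 1 / (G.card : ℂ))
  simp only [← e] at key
  have hcont : Continuous fun x : T => ‖avgC G (fourier m) x‖ ^ 2 := by
    apply Continuous.pow
    apply Continuous.norm
    unfold avgC
    apply Continuous.div_const
    refine continuous_finsetSum _ (fun p _ => ?_)
    exact (fourier m).continuous.comp (continuous_nsmul _)
  rw [← ofReal_integral_eq_lintegral_ofReal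
    (hcont.integrable_of_hasCompactSupport (HasCompactSupport.of_compactSpace _))
    (Filter.Eventually.of_forall fun x => by positivity), key]
  rw [Finset.sum_const, nsmul_eq_mul, norm_div, norm_one, Complex.norm_natCast]
  have h1 : (G.card : ℝ) * (1 / (G.card : ℝ)) ^ 2 = (G.card : ℝ)⁻¹ := by
    field_simp
  rw [h1, ENNReal.ofReal_inv_of_pos hc, ENNReal.ofReal_natCast]

end Pool.Agent.Half
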