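import Pool.Agent.Half.VBr
import Pool.Agent.LLN.Vmvt
import Pool.Agent.LLN.BilA
import Pool.Agent.LLN.BilB
import Pool.Agent.LLN.Vbd

/-! Module VKA. Real analogue of `LLN.korw` (compare its proof by helper85). PARAMETERS: `k = 12 h`, `a = 48 k = 576 h`,
`s = 49 k ^ 2 = 7056 h ^ 2` (`(a + 1) k ≤ s`), `n = ⌊X1 ^ (1 / a)⌋`, `p` prime with `n / 2 < p ≤ n` (Bertrand), `X = p ^ a`:
`X ≤ X1 < (2 p) ^ a = 2 ^ a X`, `k < p` as `X1 ≥ (2 k + 4) ^ a`. `α_i = t β ^ i / i!`, `|α_i| = |t| X1 ^ (-4 i) / i!`, `H_i = s X ^ i`,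
`1 ≤ i ≤ k`.
(1) `8 h + 1 ≤ i ≤ 9 h` (`h` values): `4 |α_i| H_i ≤ 4 s X1 ^ (24 h - 2 - 3 i) ≤ 4 s X1 ^ (-5) ≤ 1`, so by `vb_real`
`Vb ≤ (2 H_i + 1) + (1 + log H_i) i! X1 ^ (4 i) / |t|`, `1 / |t| ≤ X1 ^ (- 45 h / 2)`. With `(2 H_i + 1) ^ 2 ≥ 4 s ^ 2 X ^ (2 i) ≥
X1 ^ (2 i) / 2 ^ (2 a i)`: `Vb / (2 H_i + 1) ^ 2 ≤ 2 ^ (a i) X1 ^ (- i) + (1 + log H_i) i! 2 ^ (2 a i) X1 ^ (2 i - 45 h / 2)`, and
`2 i - 45 h / 2 ≤ - 9 h / 2`: this is `≤ 2 X1 ^ (- 2 h)` (`log H_i ≤ log (7056 h ^ 2) + 9 h log X1`, `i! ≤ (9 h) ^ (9 h)`, `2 a i ≤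
10368 h ^ 2`, `log X1 ≥ C h ^ 2`).
(2) other `i`: `vb_trivial`.
(3) `bilA`, `bilB`: `‖W‖ ^ (4 s ^ 2) ≤ X ^ (8 s ^ 2 - 4 s) J ^ 2 ∏ Vb_i`; `vmvt` (with `S = s`) and `sg_formula`:
`J ^ 2 ≤ C1 ^ (2 a) X ^ (4 s) X ^ (- k (k + 1)) p ^ ((k ^ 3 - k) / 3)`, `C1 = 2 s ^ (2 k) k! + 2 k ^ (2 s)`;
`∏ (2 H_i + 1) ^ 2 ≤ (3 s) ^ (2 k) X ^ (k (k + 1))`; `p ^ (k ^ 3 / 3) = X ^ (k ^ 3 / (3 a)) = X ^ (h ^ 2) ≤ X1 ^ (h ^ 2)` (that is why `a = 48 k`).
TOTAL: `(‖W‖ / X ^ 2) ^ (4 s ^ 2) ≤ C1 ^ (2 a) (3 s) ^ (2 k) X1 ^ (h ^ 2) (2 X1 ^ (- 2 h)) ^ h = C1 ^ (2 a) (3 s) ^ (2 k) 2 ^ h X1 ^ (- h ^ 2)`,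
and `log C1 = O(h ^ 2 log h)`, so this is `≤ exp (C' h ^ 4 - h ^ 2 log X1) ≤ ε ^ (4 s ^ 2)` when `log X1 ≥ C h ^ 2`. -/

open MeasureTheory Filter Topology

namespace Pool.Agent.Half

/-- a prime `p > k` with `p ^ a ≤ y ≤ (2 p) ^ a` -/
private theorem vka_prime {a k : ℕ} (ha : 1 ≤ a) (hk : 1 ≤ k) {y : ℝ}
    (hy : (2 * (k : ℝ)) ^ a ≤ y) :
    ∃ p : ℕ, p.Prime ∧ k < p ∧ (p : ℝ) ^ a ≤ y ∧ y ≤ 2 ^ a * (p : ℝ) ^ a := by
  have hy0 : 0 ≤ y := le_trans (by positivity) hy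
  set r : ℝ := y ^ ((a : ℝ)⁻¹) with hr
  have hr0 : 0 ≤ r := Real.rpow_nonneg hy0 _
  have hra : r ^ a = y := Real.rpow_inv_natCast_pow hy0 (by omega)
  set n : ℕ := ⌊r⌋₊ with hn
  have h1 : (n : ℝ) ≤ r := Nat.floor_le hr0
  have h2 : r < n + 1 := Nat.lt_floor_add_one r
  have h3 : 2 * (k : ℝ) ≤ r := by
    rw [← hra] at hy
    exact le_of_pow_le_pow_left₀ (by omega) hr0 hy
  have h4 : 2 * k < n + 1 := by
    have : 2 * (k : ℝ) < n + 1 := lt_of_le_of_lt h3 h2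
    exact_mod_cast this
  obtain ⟨p, hp, hp1, hp2⟩ := Nat.exists_prime_lt_and_le_two_mul (n / 2) (by omega)
  refine ⟨p, hp, by omega, ?_, ?_⟩
  · have h5 : (p : ℝ) ≤ n := by
      have : p ≤ n := by omega
      exact_mod_cast this
    calc (p : ℝ) ^ a ≤ r ^ a := pow_le_pow_left₀ (by positivity) (h5.trans h1) a
      _ = y := hra
  · have h5 : (n : ℝ) + 1 ≤ 2 * p := by
      have : n + 1 ≤ 2 * p := by omega
      exact_mod_cast this
    calc y = r ^ a := hra.symm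
      _ ≤ (2 * (p : ℝ)) ^ a := pow_le_pow_left₀ hr0 (h2.le.trans h5) a
      _ = 2 ^ a * (p : ℝ) ^ a := mul_pow _ _ _

private theorem vka_C1 (k : ℕ) (hk : 12 ≤ k) :
    2 * (49 * k ^ 2) ^ (2 * k) * k.factorial + 2 * k ^ (2 * (49 * k ^ 2)) ≤ k ^ (99 * k ^ 2) := by
  have hk1 : 1 ≤ k := by omega
  have h33 : 49 * k ^ 2 ≤ k ^ 4 := by
    have : 49 ≤ k ^ 2 := by nlinarith
    calc 49 * k ^ 2 ≤ k ^ 2 * k ^ 2 := Nat.mul_le_mul_right _ this
      _ = k ^ 4 := by ring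
  have h1 : (49 * k ^ 2) ^ (2 * k) ≤ k ^ (8 * k) := by
    calc (49 * k ^ 2) ^ (2 * k) ≤ (k ^ 4) ^ (2 * k) := Nat.pow_le_pow_left h33 _
      _ = k ^ (8 * k) := by rw [← pow_mul]; ring_nf
  have h2 : k.factorial ≤ k ^ k := Nat.factorial_le_pow k
  have h3 : 2 * (49 * k ^ 2) ^ (2 * k) * k.factorial ≤ 2 * k ^ (98 * k ^ 2) := by
    calc 2 * (49 * k ^ 2) ^ (2 * k) * k.factorial ≤ 2 * k ^ (8 * k) * k ^ k :=
          Nat.mul_le_mul (Nat.mul_le_mul_left _ h1) h2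
      _ = 2 * k ^ (9 * k) := by rw [mul_assoc, ← pow_add]; ring_nf
      _ ≤ 2 * k ^ (98 * k ^ 2) := by
          apply Nat.mul_le_mul_left
          apply Nat.pow_le_pow_right hk1
          nlinarith
  have h4 : 2 * k ^ (2 * (49 * k ^ 2)) = 2 * k ^ (98 * k ^ 2) := by ring_nf
  have h5 : 4 * k ^ (98 * k ^ 2) ≤ k ^ (99 * k ^ 2) := by
    calc 4 * k ^ (98 * k ^ 2) ≤ k * k ^ (98 * k ^ 2) := Nat.mul_le_mul_right _ (by omega)
      _ = k ^ (98 * k ^ 2 + 1) := by rw [pow_succ]; ring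
      _ ≤ k ^ (99 * k ^ 2) := by
          apply Nat.pow_le_pow_right hk1
          nlinarith
  rw [h4]
  omega

private theorem vka_num (k h : ℕ) (hh : 1 ≤ h) (hk : k = 12 * h) :
    (2 * (49 * k ^ 2) ^ (2 * k) * k.factorial + 2 * k ^ (2 * (49 * k ^ 2))) ^ (2 * (48 * k)) *
      (3 * (49 * k ^ 2)) ^ (2 * k) * 2 ^ h ≤ 2 ^ (9515 * k ^ 4) := by
  have hk1 : 1 ≤ k := by omega
  have hk2 : k ≤ 2 ^ k := Nat.lt_two_pow_self.le
  have h1 : (2 * (49 * k ^ 2) ^ (2 * k) * k.factorial + 2 * k ^ (2 * (49 * k ^ 2))) ^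
      (2 * (48 * k)) ≤ 2 ^ (9504 * k ^ 4) := by
    calc _ ≤ (k ^ (99 * k ^ 2)) ^ (2 * (48 * k)) := Nat.pow_le_pow_left (vka_C1 k (by omega)) _
      _ = k ^ (9504 * k ^ 3) := by rw [← pow_mul]; ring_nf
      _ ≤ (2 ^ k) ^ (9504 * k ^ 3) := Nat.pow_le_pow_left hk2 _
      _ = 2 ^ (9504 * k ^ 4) := by rw [← pow_mul]; ring_nf
  have h99 : 3 * (49 * k ^ 2) ≤ k ^ 5 := by
    have : 147 ≤ k ^ 3 := by
      calc 147 ≤ 12 ^ 3 := by norm_num
        _ ≤ k ^ 3 := Nat.pow_le_pow_left (by omega) 3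
    calc 3 * (49 * k ^ 2) = 147 * k ^ 2 := by ring
      _ ≤ k ^ 3 * k ^ 2 := Nat.mul_le_mul_right _ this
      _ = k ^ 5 := by ring
  have hk24 : k ^ 2 ≤ k ^ 4 := Nat.pow_le_pow_right hk1 (by norm_num)
  have h2 : (3 * (49 * k ^ 2)) ^ (2 * k) ≤ 2 ^ (10 * k ^ 4) := by
    calc _ ≤ (k ^ 5) ^ (2 * k) := Nat.pow_le_pow_left h99 _
      _ = k ^ (10 * k) := by rw [← pow_mul]; ring_nf
      _ ≤ (2 ^ k) ^ (10 * k) := Nat.pow_le_pow_left hk2 _
      _ = 2 ^ (10 * k ^ 2) := by rw [← pow_mul]; ring_nf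
      _ ≤ 2 ^ (10 * k ^ 4) := Nat.pow_le_pow_right (by norm_num) (Nat.mul_le_mul_left _ hk24)
  have hk14 : k ≤ k ^ 4 := Nat.le_self_pow (by norm_num) k
  have h3 : 2 ^ h ≤ 2 ^ (k ^ 4) :=
    Nat.pow_le_pow_right (by norm_num) (by omega)
  calc _ ≤ 2 ^ (9504 * k ^ 4) * 2 ^ (10 * k ^ 4) * 2 ^ (k ^ 4) :=
        Nat.mul_le_mul (Nat.mul_le_mul h1 h2) h3
    _ = 2 ^ (9515 * k ^ 4) := by
        rw [← pow_add, ← pow_add]
        congr 1
        ring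

private theorem vka_J {p k h : ℕ} (hp : p.Prime) (hk : k < p) (hh : 1 ≤ h) (hkh : k = 12 * h) :
    LLN.J k (49 * k ^ 2) (Finset.range (p ^ (48 * k))) ^ 2 * (p ^ (48 * k)) ^ (k * (k + 1)) ≤
      (p ^ (48 * k)) ^ (h ^ 2) *
        (2 * (49 * k ^ 2) ^ (2 * k) * k.factorial + 2 * k ^ (2 * (49 * k ^ 2))) ^
        (2 * (48 * k)) * (p ^ (48 * k)) ^ (4 * (49 * k ^ 2)) := by
  have h1 := LLN.vmvt (S := 49 * k ^ 2) hp hk (by omega) (48 * k) (49 * k ^ 2)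
    (by nlinarith) le_rfl
  have h2 := LLN.sg_formula (k := k) (a := 48 * k) (by omega)
  generalize 2 * (49 * k ^ 2) ^ (2 * k) * k.factorial + 2 * k ^ (2 * (49 * k ^ 2)) = C1 at h1 ⊢
  generalize LLN.J k (49 * k ^ 2) (Finset.range (p ^ (48 * k))) = Jv at h1 ⊢
  have h3 := Nat.pow_le_pow_left h1 6
  have hpp : 1 ≤ p ^ k := Nat.one_le_pow _ _ hp.pos
  have hcube : p ^ (k ^ 3) = (p ^ (48 * k)) ^ (3 * h ^ 2) := by
    rw [← pow_mul]
    congr 1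
    rw [hkh]
    ring
  have h4 : (Jv ^ 2 * (p ^ (48 * k)) ^ (k * (k + 1))) ^ 3 ≤
      ((p ^ (48 * k)) ^ (h ^ 2) * C1 ^ (2 * (48 * k)) * (p ^ (48 * k)) ^ (4 * (49 * k ^ 2))) ^ 3 := by
    calc (Jv ^ 2 * (p ^ (48 * k)) ^ (k * (k + 1))) ^ 3
        = Jv ^ 6 * (p ^ (48 * k)) ^ (3 * (k * (k + 1))) := by
          rw [mul_pow, ← pow_mul, ← pow_mul]
          congr 2
          ring
      _ ≤ Jv ^ 6 * ((p ^ (48 * k)) ^ (3 * (k * (k + 1))) * p ^ k) :=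
          Nat.mul_le_mul_left _ (Nat.le_mul_of_pos_right _ hpp)
      _ = p ^ (k ^ 3) * (p ^ LLN.sg k (48 * k) * Jv) ^ 6 := by
          have e1 : (p ^ (48 * k)) ^ (3 * (k * (k + 1))) * p ^ k =
              p ^ (k ^ 3) * (p ^ LLN.sg k (48 * k)) ^ 6 := by
            rw [← pow_mul, ← pow_mul, ← pow_add, ← pow_add]
            congr 1
            linarith
          rw [e1, mul_pow]
          ring
      _ ≤ p ^ (k ^ 3) * (C1 ^ (48 * k) * p ^ (2 * (48 * k) * (49 * k ^ 2))) ^ 6 :=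
          Nat.mul_le_mul_left _ h3
      _ = _ := by
          have e2 : p ^ (2 * (48 * k) * (49 * k ^ 2)) = (p ^ (48 * k)) ^ (2 * (49 * k ^ 2)) := by
            rw [← pow_mul]
            congr 1
            ring
          rw [hcube, e2]
          generalize p ^ (48 * k) = Q
          ring
  exact le_of_pow_le_pow_left₀ (by norm_num) (by positivity) h4

private theorem vka_prod (s X k : ℕ) :
    ∏ i ∈ Finset.range k, ((3 * s * X ^ (i + 1) : ℝ)) ^ 2 =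
      (3 * s : ℝ) ^ (2 * k) * (X : ℝ) ^ (k * (k + 1)) := by
  induction k with
  | zero => simp
  | succ k ih =>
    rw [Finset.prod_range_succ, ih]
    ring

private theorem vka_win (h : ℕ) (hh : 1 ≤ h) (c : ℝ) :
    ∏ i ∈ Finset.range (12 * h), (if 8 * h + 1 ≤ i + 1 ∧ i + 1 ≤ 9 * h then c else 1) = c ^ h := by
  rw [← Finset.prod_filter, Finset.prod_const]
  congr 1
  have : (Finset.range (12 * h)).filter (fun i => 8 * h + 1 ≤ i + 1 ∧ i + 1 ≤ 9 * h) =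
      Finset.Ico (8 * h) (9 * h) := by
    ext i
    rw [Finset.mem_filter, Finset.mem_range, Finset.mem_Ico]
    omega
  rw [this, Nat.card_Ico]
  omega

/-- the bound in the window -/
private theorem vka_vb {h : ℕ} (hh : 1 ≤ h) {y : ℝ} (hy : Real.exp (30000 * (h : ℝ) ^ 2) ≤ y)
    {X : ℕ} (hX : 1 ≤ X) (hX1 : (X : ℝ) ≤ y) (hX2 : y ≤ 2 ^ (576 * h) * (X : ℝ)) {t β : ℝ}
    (hβ : |β| * y ^ 4 = 1) (ht1 : y ^ (45 * h) ≤ |t| ^ 2) (ht2 : |t| * y ^ 2 ≤ y ^ (24 * h))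
    {i : ℕ} (hi1 : 8 * h + 1 ≤ i) (hi2 : i ≤ 9 * h) {s : ℕ} (hs : s = 49 * (12 * h) ^ 2) :
    LLN.Vb (s * X ^ i) ((t * β ^ i / (i.factorial : ℝ) : ℝ) : AddCircle (1 : ℝ)) ≤
      (2 * ((s * X ^ i : ℕ) : ℝ) + 1) ^ 2 * (2 / y ^ (2 * h)) := by
  have hhr : (1 : ℝ) ≤ h := by exact_mod_cast hh
  have hXr : (1 : ℝ) ≤ X := by exact_mod_cast hX
  have hX0 : (0 : ℝ) < X := by linarith
  -- numerical facts
  have hsr : (s : ℝ) = 7056 * (h : ℝ) ^ 2 := by rw [hs]; push_cast; ring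
  have hh2 : (1 : ℝ) ≤ (h : ℝ) ^ 2 := by nlinarith
  have n1 : 4 * (s : ℝ) ≤ y := by
    refine le_trans ?_ hy
    have := Real.add_one_le_exp (30000 * (h : ℝ) ^ 2)
    nlinarith
  have n2 : 1 + (s : ℝ) ≤ y := by
    refine le_trans ?_ hy
    have := Real.add_one_le_exp (30000 * (h : ℝ) ^ 2)
    nlinarith
  have n3 : 9 * (h : ℝ) + 1 ≤ y := by
    refine le_trans ?_ hy
    have := Real.add_one_le_exp (30000 * (h : ℝ) ^ 2)
    nlinarith
  have hy1 : 1 ≤ y := by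
    have : (0 : ℝ) ≤ s := by positivity
    linarith
  have hy0 : 0 < y := by linarith
  set P : ℝ := 2 ^ (5184 * h ^ 2) with hP
  have hP1 : 1 ≤ P := one_le_pow₀ (by norm_num)
  have hPe : P ≤ Real.exp (5184 * (h : ℝ) ^ 2) := by
    have h2 : (2 : ℝ) ≤ Real.exp 1 := by
      have := Real.add_one_le_exp (1 : ℝ)
      linarith
    calc P ≤ (Real.exp 1) ^ (5184 * h ^ 2) := pow_le_pow_left₀ (by norm_num) h2 _
      _ = Real.exp (5184 * (h : ℝ) ^ 2) := by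
          rw [← Real.exp_nat_mul]
          congr 1
          push_cast
          ring
  have hfac : (i.factorial : ℝ) ≤ Real.exp (81 * (h : ℝ) ^ 2) := by
    have h1 : i.factorial ≤ (9 * h) ^ (9 * h) :=
      (Nat.factorial_le hi2).trans (Nat.factorial_le_pow _)
    have h2 : (9 * (h : ℝ)) ≤ Real.exp (9 * (h : ℝ)) := by
      have := Real.add_one_le_exp (9 * (h : ℝ))
      linarith
    calc (i.factorial : ℝ) ≤ (9 * (h : ℝ)) ^ (9 * h) := by exact_mod_cast h1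
      _ ≤ (Real.exp (9 * (h : ℝ))) ^ (9 * h) := pow_le_pow_left₀ (by positivity) h2 _
      _ = Real.exp (81 * (h : ℝ) ^ 2) := by
          rw [← Real.exp_nat_mul]
          congr 1
          push_cast
          ring
  have hf1 : (1 : ℝ) ≤ i.factorial := by exact_mod_cast Nat.one_le_iff_ne_zero.2 (Nat.factorial_ne_zero i)
  have hf0 : (0 : ℝ) < i.factorial := by linarith
  have n4 : (i.factorial : ℝ) ^ 2 * P ^ 4 ≤ y := by
    calc (i.factorial : ℝ) ^ 2 * P ^ 4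
        ≤ (Real.exp (81 * (h : ℝ) ^ 2)) ^ 2 * (Real.exp (5184 * (h : ℝ) ^ 2)) ^ 4 :=
          mul_le_mul (pow_le_pow_left₀ hf0.le hfac 2) (pow_le_pow_left₀ (by positivity) hPe 4)
            (by positivity) (by positivity)
      _ = Real.exp (20898 * (h : ℝ) ^ 2) := by
          rw [← Real.exp_nat_mul, ← Real.exp_nat_mul, ← Real.exp_add]
          congr 1
          push_cast
          ring
      _ ≤ Real.exp (30000 * (h : ℝ) ^ 2) := by
          apply Real.exp_le_exp.2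
          nlinarith
      _ ≤ y := hy
  have n5 : P ≤ y := by
    refine le_trans ?_ n4
    have h1 : P ≤ P ^ 4 := le_self_pow₀ hP1 (by norm_num)
    have h2 : 1 ≤ (i.factorial : ℝ) ^ 2 := one_le_pow₀ hf1
    calc P ≤ P ^ 4 := h1
      _ = 1 * P ^ 4 := by ring
      _ ≤ _ := mul_le_mul_of_nonneg_right h2 (by positivity)
  have hP0 : 0 < P := by linarith
  -- `y ^ i ≤ P X ^ i`
  have f2 : y ^ i ≤ P * (X : ℝ) ^ i := by
    calc y ^ i ≤ (2 ^ (576 * h) * (X : ℝ)) ^ i := pow_le_pow_left₀ hy0.le hX2 i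
      _ = 2 ^ (576 * h * i) * (X : ℝ) ^ i := by rw [mul_pow, ← pow_mul]
      _ ≤ P * (X : ℝ) ^ i := by
          refine mul_le_mul_of_nonneg_right ?_ (by positivity)
          apply pow_le_pow_right₀ (by norm_num)
          calc 576 * h * i ≤ 576 * h * (9 * h) := Nat.mul_le_mul_left _ hi2
            _ = 5184 * h ^ 2 := by ring
  set H : ℕ := s * X ^ i with hH
  have hs1 : 1 ≤ s := by
    rw [hs]
    have : 1 ≤ h ^ 2 := Nat.one_le_pow _ _ hh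
    nlinarith
  have hXi1 : 1 ≤ X ^ i := Nat.one_le_pow _ _ hX
  have hH1 : 1 ≤ H := Nat.mul_pos hs1 hXi1
  have hHr : (H : ℝ) = s * (X : ℝ) ^ i := by rw [hH]; push_cast; ring
  have hHX : (X : ℝ) ^ i ≤ H := by
    have : X ^ i ≤ H := Nat.le_mul_of_pos_left _ hs1
    exact_mod_cast this
  have hHr1 : (1 : ℝ) ≤ H := by exact_mod_cast hH1
  -- `y ^ (2 h) ≤ 2 H + 1`
  have f3 : y ^ (2 * h) ≤ 2 * (H : ℝ) + 1 := by
    have h1 : y ^ (2 * h) * P ≤ (X : ℝ) ^ i * P := by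
      calc y ^ (2 * h) * P ≤ y ^ (2 * h) * y := mul_le_mul_of_nonneg_left n5 (by positivity)
        _ = y ^ (2 * h + 1) := by rw [pow_succ]
        _ ≤ y ^ i := pow_le_pow_right₀ hy1 (by omega)
        _ ≤ P * (X : ℝ) ^ i := f2
        _ = _ := by ring
    have h2 : y ^ (2 * h) ≤ (X : ℝ) ^ i := le_of_mul_le_mul_right h1 hP0
    linarith
  -- the coefficient
  have hβ0 : 0 < |β| := by
    rcases (abs_nonneg β).lt_or_eq with h1 | h1
    · exact h1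
    · rw [← h1] at hβ
      simp at hβ
  have hβi : |β| ^ i * y ^ (4 * i) = 1 := by
    rw [pow_mul, ← mul_pow, hβ, one_pow]
  have ht0 : 0 < |t| := by
    rcases (abs_nonneg t).lt_or_eq with h1 | h1
    · exact h1
    · rw [← h1] at ht1
      have : 0 < y ^ (45 * h) := by positivity
      norm_num at ht1
      linarith
  set α : ℝ := t * β ^ i / (i.factorial : ℝ) with hα
  have hαabs : |α| * (y ^ (4 * i) * i.factorial) = |t| := by
    rw [hα, abs_div, abs_mul, abs_pow, Nat.abs_cast]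
    calc |t| * |β| ^ i / (i.factorial : ℝ) * (y ^ (4 * i) * i.factorial)
        = |t| * (|β| ^ i * y ^ (4 * i)) * (i.factorial / i.factorial : ℝ) := by ring
      _ = |t| := by rw [hβi, div_self hf0.ne']; ring
  have hα0 : 0 < |α| := by
    rcases (abs_nonneg α).lt_or_eq with h1 | h1
    · exact h1
    · rw [← h1, zero_mul] at hαabs
      linarith
  have hαne : α ≠ 0 := abs_pos.1 hα0
  have hyf : 0 < y ^ (4 * i) * (i.factorial : ℝ) := by positivity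
  have f4 : 4 * |α| * H ≤ 1 := by
    have h1 : 4 * |t| * (H : ℝ) ≤ y ^ (4 * i) * (i.factorial : ℝ) := by
      have h2 : 4 * |t| * (H : ℝ) * y ^ 2 ≤ y ^ (4 * i) * (i.factorial : ℝ) * y ^ 2 := by
        have h3 : (X : ℝ) ^ i ≤ y ^ i := pow_le_pow_left₀ hX0.le hX1 i
        calc 4 * |t| * (H : ℝ) * y ^ 2 = (4 * s) * (|t| * y ^ 2) * (X : ℝ) ^ i := by
              rw [hHr]; ring
          _ ≤ y * y ^ (24 * h) * y ^ i := by
              apply mul_le_mul _ h3 (by positivity) (by positivity)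
              exact mul_le_mul n1 ht2 (by positivity) hy0.le
          _ = y ^ (1 + 24 * h + i) := by ring
          _ ≤ y ^ (4 * i + 2) := pow_le_pow_right₀ hy1 (by omega)
          _ = y ^ (4 * i) * 1 * y ^ 2 := by ring
          _ ≤ _ := by
              refine mul_le_mul_of_nonneg_right ?_ (by positivity)
              exact mul_le_mul_of_nonneg_left hf1 (by positivity)
      exact le_of_mul_le_mul_right h2 (by positivity)
    have h2 : 4 * |α| * H * (y ^ (4 * i) * i.factorial) ≤ 1 * (y ^ (4 * i) * i.factorial) := by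
      calc 4 * |α| * H * (y ^ (4 * i) * i.factorial)
          = 4 * (|α| * (y ^ (4 * i) * i.factorial)) * H := by ring
        _ = 4 * |t| * H := by rw [hαabs]
        _ ≤ _ := by rw [one_mul]; exact h1
    exact le_of_mul_le_mul_right h2 hyf
  have hvb := vb_real hH1 hαne f4
  -- the logarithm
  have hHpos : (0 : ℝ) < H := by linarith
  have f5 : 1 + Real.log H ≤ y ^ 2 := by
    have h1 : Real.log H = Real.log s + i * Real.log X := by
      rw [hHr, Real.log_mul (by positivity) (by positivity), Real.log_pow]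
    have h2 : Real.log s ≤ s := Real.log_le_self (by positivity)
    have h3 : Real.log X ≤ y := (Real.log_le_self (by positivity)).trans hX1
    have h4 : (i : ℝ) * Real.log X ≤ 9 * h * y := by
      have h5 : (i : ℝ) ≤ 9 * h := by exact_mod_cast hi2
      exact mul_le_mul h5 h3 (Real.log_nonneg hXr) (by positivity)
    rw [h1]
    calc 1 + (Real.log s + i * Real.log X) ≤ 1 + s + 9 * h * y := by linarith
      _ ≤ y + 9 * h * y := by linarith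
      _ = (9 * h + 1) * y := by ring
      _ ≤ y * y := mul_le_mul_of_nonneg_right n3 hy0.le
      _ = y ^ 2 := by ring
  -- the second term
  have f6 : (1 + Real.log H) / |α| ≤ (2 * (H : ℝ) + 1) ^ 2 * (1 / y ^ (2 * h)) := by
    rw [div_le_iff₀ hα0]
    have h1 : y ^ 2 * y ^ (2 * h) * (y ^ (4 * i) * i.factorial) ≤ |t| * (X : ℝ) ^ (2 * i) := by
      have h2 : (y ^ 2 * y ^ (2 * h) * (y ^ (4 * i) * i.factorial)) ^ 2 * P ^ 4 ≤
          (|t| * (X : ℝ) ^ (2 * i)) ^ 2 * P ^ 4 := by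
        calc (y ^ 2 * y ^ (2 * h) * (y ^ (4 * i) * i.factorial)) ^ 2 * P ^ 4
            = y ^ (4 + 4 * h + 8 * i) * ((i.factorial : ℝ) ^ 2 * P ^ 4) := by ring
          _ ≤ y ^ (4 + 4 * h + 8 * i) * y := mul_le_mul_of_nonneg_left n4 (by positivity)
          _ = y ^ (5 + 4 * h + 8 * i) := by ring
          _ ≤ y ^ (45 * h + 4 * i) := pow_le_pow_right₀ hy1 (by omega)
          _ = y ^ (45 * h) * (y ^ i) ^ 4 := by ring
          _ ≤ |t| ^ 2 * (P * (X : ℝ) ^ i) ^ 4 :=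
              mul_le_mul ht1 (pow_le_pow_left₀ (by positivity) f2 4) (by positivity)
                (by positivity)
          _ = _ := by ring
      have h3 := le_of_mul_le_mul_right h2 (by positivity)
      exact le_of_pow_le_pow_left₀ (by norm_num) (by positivity) h3
    have h4 : y ^ 2 * y ^ (2 * h) ≤ |α| * (X : ℝ) ^ (2 * i) := by
      rw [← hαabs] at h1
      have h5 : y ^ 2 * y ^ (2 * h) * (y ^ (4 * i) * i.factorial) ≤
          |α| * (X : ℝ) ^ (2 * i) * (y ^ (4 * i) * i.factorial) := by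
        calc _ ≤ |α| * (y ^ (4 * i) * i.factorial) * (X : ℝ) ^ (2 * i) := h1
          _ = _ := by ring
      exact le_of_mul_le_mul_right h5 hyf
    have h6 : (X : ℝ) ^ (2 * i) ≤ (2 * (H : ℝ) + 1) ^ 2 := by
      calc (X : ℝ) ^ (2 * i) = ((X : ℝ) ^ i) ^ 2 := by rw [← pow_mul, mul_comm]
        _ ≤ (2 * (H : ℝ) + 1) ^ 2 := pow_le_pow_left₀ (by positivity) (by linarith) 2
    have h7 : (1 + Real.log H) * y ^ (2 * h) ≤ (2 * (H : ℝ) + 1) ^ 2 * |α| := by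
      calc (1 + Real.log H) * y ^ (2 * h) ≤ y ^ 2 * y ^ (2 * h) :=
            mul_le_mul_of_nonneg_right f5 (by positivity)
        _ ≤ |α| * (X : ℝ) ^ (2 * i) := h4
        _ ≤ |α| * (2 * (H : ℝ) + 1) ^ 2 := mul_le_mul_of_nonneg_left h6 hα0.le
        _ = _ := by ring
    have hyh : 0 < y ^ (2 * h) := by positivity
    calc 1 + Real.log H = (1 + Real.log H) * y ^ (2 * h) / y ^ (2 * h) := by
          field_simp
      _ ≤ (2 * (H : ℝ) + 1) ^ 2 * |α| / y ^ (2 * h) := div_le_div_of_nonneg_right h7 hyh.le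
      _ = _ := by ring
  have f7 : 2 * (H : ℝ) + 1 ≤ (2 * (H : ℝ) + 1) ^ 2 * (1 / y ^ (2 * h)) := by
    have hyh : 0 < y ^ (2 * h) := by positivity
    rw [mul_one_div, le_div_iff₀ hyh, sq]
    exact mul_le_mul_of_nonneg_left f3 (by positivity)
  refine hvb.trans ?_
  calc (2 * (H : ℝ) + 1) + (1 + Real.log H) / |α|
      ≤ (2 * (H : ℝ) + 1) ^ 2 * (1 / y ^ (2 * h)) + (2 * (H : ℝ) + 1) ^ 2 * (1 / y ^ (2 * h)) :=
        add_le_add f7 f6
    _ = _ := by ring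

theorem vka {ε : ℝ} (hε : 0 < ε) : ∃ C h0 : ℕ, ∀ h : ℕ, h0 ≤ h → ∀ X1 : ℝ, Real.exp (C * h ^ 2) ≤ X1 →
    ∃ X : ℕ, 0 < X ∧ (X : ℝ) ≤ X1 ∧ ∀ t β : ℝ, |β| * X1 ^ 4 = 1 → X1 ^ (45 * h) ≤ |t| ^ 2 →
      |t| * X1 ^ 2 ≤ X1 ^ (24 * h) →
      ‖∑ x ∈ Finset.range X, ∑ y ∈ Finset.range X,
        fourier 1 (∑ i : Fin (12 * h), (x * y) ^ (i.val + 1) •
          ((t * β ^ (i.val + 1) / ((i.val + 1).factorial : ℝ) : ℝ) : AddCircle (1 : ℝ)))‖ ≤
        ε * (X : ℝ) ^ 2 := by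
  obtain ⟨E, hE⟩ := exists_pow_lt_of_lt_one hε (by norm_num : (1 / 2 : ℝ) < 1)
  refine ⟨9604 * (E + 1) * 20736, 1, ?_⟩
  intro h hh Y hY
  have hhr : (1 : ℝ) ≤ h := by exact_mod_cast hh
  have hh2 : (1 : ℝ) ≤ (h : ℝ) ^ 2 := by nlinarith
  have hEr : (0 : ℝ) ≤ E := by positivity
  have hY3 : Real.exp (30000 * (h : ℝ) ^ 2) ≤ Y := by
    refine le_trans (Real.exp_le_exp.2 ?_) hY
    refine mul_le_mul_of_nonneg_right ?_ (by positivity)
    push_cast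
    nlinarith
  have hY1 : 1 ≤ Y := by
    refine le_trans ?_ hY3
    exact Real.one_le_exp (by positivity)
  have hY0 : 0 < Y := by linarith
  obtain ⟨k, hk⟩ : ∃ k, k = 12 * h := ⟨_, rfl⟩
  have hk12 : 12 ≤ k := by omega
  -- the prime
  obtain ⟨p, hp, hkp, hpX, hX8⟩ := vka_prime (a := 48 * k) (k := k) (y := Y) (by omega) (by omega) (by
    refine le_trans ?_ hY3
    have h2 : 2 * (k : ℝ) ≤ Real.exp (2 * (k : ℝ)) := by
      have := Real.add_one_le_exp (2 * (k : ℝ))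
      linarith
    calc (2 * (k : ℝ)) ^ (48 * k) ≤ (Real.exp (2 * (k : ℝ))) ^ (48 * k) :=
          pow_le_pow_left₀ (by positivity) h2 _
      _ = Real.exp (13824 * (h : ℝ) ^ 2) := by
          rw [← Real.exp_nat_mul]
          congr 1
          rw [hk]
          push_cast
          ring
      _ ≤ _ := by
          apply Real.exp_le_exp.2
          nlinarith)
  have hJ := vka_J hp hkp hh hk
  have hnum := vka_num k h hh hk
  have hX1 : 1 ≤ p ^ (48 * k) := Nat.one_le_pow _ _ hp.pos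
  obtain ⟨X, hXd⟩ : ∃ X, X = p ^ (48 * k) := ⟨_, rfl⟩
  have hXr' : (X : ℝ) = (p : ℝ) ^ (48 * k) := by rw [hXd]; push_cast; ring
  obtain ⟨s, hs⟩ : ∃ s, s = 49 * k ^ 2 := ⟨_, rfl⟩
  rw [← hXd] at hJ hX1
  rw [← hXr'] at hpX hX8
  rw [← hs] at hJ hnum
  refine ⟨X, hX1, hpX, ?_⟩
  intro t β hβ ht1 ht2
  have hs1 : 1 ≤ s := by
    rw [hs]
    nlinarith
  have hXr : (1 : ℝ) ≤ X := by exact_mod_cast hX1
  have hX0 : (0 : ℝ) < X := by linarith
  have hs0 : (0 : ℝ) < s := by exact_mod_cast hs1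
  rw [← hk]
  obtain ⟨α, hα⟩ : ∃ α : Fin k → LLN.T, α = fun i =>
    ((t * β ^ (i.val + 1) / ((i.val + 1).factorial : ℝ) : ℝ) : AddCircle (1 : ℝ)) := ⟨_, rfl⟩
  have hA := LLN.bilA hs1 hX1 α
  have hB := LLN.bilB hs1 hX1 α
  obtain ⟨w, hw⟩ : ∃ w, w = ‖∑ x ∈ Finset.range X, ∑ y ∈ Finset.range X,
      fourier 1 (∑ i : Fin k, (x * y) ^ (i.val + 1) • α i)‖ := ⟨_, rfl⟩
  have hgoal : ‖∑ x ∈ Finset.range X, ∑ y ∈ Finset.range X,
        fourier 1 (∑ i : Fin k, (x * y) ^ (i.val + 1) •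
          ((t * β ^ (i.val + 1) / ((i.val + 1).factorial : ℝ) : ℝ) : AddCircle (1 : ℝ)))‖ = w := by
    rw [hw, hα]
  rw [hgoal]
  rw [← hw] at hA
  obtain ⟨Jv, hJv⟩ : ∃ Jv, Jv = LLN.J k s (Finset.range X) := ⟨_, rfl⟩
  rw [← hJv] at hA hB hJ
  have hw0 : 0 ≤ w := by rw [hw]; exact norm_nonneg _
  obtain ⟨V, hV⟩ : ∃ V, V = ∏ i : Fin k, LLN.Vb (s * X ^ (i.val + 1)) (α i) := ⟨_, rfl⟩
  rw [← hV] at hB
  have hV0 : 0 ≤ V := by
    rw [hV]
    apply Finset.prod_nonneg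
    intro i _
    unfold LLN.Vb
    exact Finset.sum_nonneg fun _ _ => norm_nonneg _
  have h1 : w ^ (4 * s ^ 2) ≤ (X : ℝ) ^ (8 * s ^ 2 - 4 * s) * (Jv : ℝ) ^ 2 * V := by
    refine hA.trans ?_
    have : (X : ℝ) ^ (8 * s ^ 2 - 4 * s) * (Jv : ℝ) ^ 2 * V =
        (X : ℝ) ^ (8 * s ^ 2 - 4 * s) * (Jv : ℝ) * ((Jv : ℝ) * V) := by ring
    rw [this]
    exact mul_le_mul_of_nonneg_left hB (by positivity)
  -- the product
  have hVle : V ≤ (3 * s : ℝ) ^ (2 * k) * (X : ℝ) ^ (k * (k + 1)) * (2 / Y ^ (2 * h)) ^ h := by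
    have e1 : (3 * s : ℝ) ^ (2 * k) * (X : ℝ) ^ (k * (k + 1)) * (2 / Y ^ (2 * h)) ^ h =
        ∏ i : Fin k, (((3 * s * X ^ (i.val + 1) : ℝ)) ^ 2 *
          (if 8 * h + 1 ≤ i.val + 1 ∧ i.val + 1 ≤ 9 * h then 2 / Y ^ (2 * h) else 1)) := by
      rw [Finset.prod_mul_distrib,
        Fin.prod_univ_eq_prod_range (fun i => ((3 * s * X ^ (i + 1) : ℝ)) ^ 2) k,
        Fin.prod_univ_eq_prod_range
          (fun i => (if 8 * h + 1 ≤ i + 1 ∧ i + 1 ≤ 9 * h then 2 / Y ^ (2 * h) else (1 : ℝ))) k,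
        vka_prod, hk, vka_win h hh]
    rw [e1, hV]
    apply Finset.prod_le_prod
    · intro i _
      unfold LLN.Vb
      exact Finset.sum_nonneg fun _ _ => norm_nonneg _
    · intro i _
      have hH : (2 * ((s * X ^ (i.val + 1) : ℕ) : ℝ) + 1) ≤ 3 * s * X ^ (i.val + 1) := by
        push_cast
        have : (1 : ℝ) ≤ s * X ^ (i.val + 1) := by
          have : 1 ≤ s * X ^ (i.val + 1) := Nat.mul_pos hs1 (pow_pos hX1 _)
          exact_mod_cast this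
        linarith
      have hH2 : (2 * ((s * X ^ (i.val + 1) : ℕ) : ℝ) + 1) ^ 2 ≤
          ((3 * s * X ^ (i.val + 1) : ℝ)) ^ 2 := pow_le_pow_left₀ (by positivity) hH 2
      split_ifs with hwin
      · have hvb := vka_vb (h := h) hh hY3 hX1 hpX (by
            refine hX8.trans (le_of_eq ?_)
            rw [show 576 * h = 48 * k by omega]) hβ ht1 ht2 hwin.1 hwin.2
            (s := s) (by rw [hs, hk])
        have hαi : α i = ((t * β ^ (i.val + 1) / ((i.val + 1).factorial : ℝ) : ℝ) :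
            AddCircle (1 : ℝ)) := by rw [hα]
        rw [hαi]
        exact hvb.trans (mul_le_mul_of_nonneg_right hH2 (by positivity))
      · rw [mul_one]
        exact (LLN.vb_trivial _ _).trans hH2
  -- the mean value
  generalize 2 * s ^ (2 * k) * k.factorial + 2 * k ^ (2 * s) = C1 at hJ hnum
  have hJ2 : (Jv : ℝ) ^ 2 * (X : ℝ) ^ (k * (k + 1)) ≤
      Y ^ (h ^ 2) * (C1 : ℝ) ^ (2 * (48 * k)) * (X : ℝ) ^ (4 * s) := by
    have e1 : (Jv : ℝ) ^ 2 * (X : ℝ) ^ (k * (k + 1)) ≤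
        (X : ℝ) ^ (h ^ 2) * (C1 : ℝ) ^ (2 * (48 * k)) * (X : ℝ) ^ (4 * s) := by
      exact_mod_cast hJ
    refine e1.trans ?_
    refine mul_le_mul_of_nonneg_right ?_ (by positivity)
    refine mul_le_mul_of_nonneg_right ?_ (by positivity)
    exact pow_le_pow_left₀ hX0.le hpX _
  have hnum' : (C1 : ℝ) ^ (2 * (48 * k)) * (3 * s : ℝ) ^ (2 * k) * 2 ^ h ≤
      2 ^ (9515 * k ^ 4) := by
    exact_mod_cast hnum
  have hYpow : (2 : ℝ) ^ (9604 * (E + 1) * k ^ 4) ≤ Y ^ (h ^ 2) := by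
    have h2 : (2 : ℝ) ≤ Real.exp 1 := by
      have := Real.add_one_le_exp (1 : ℝ)
      linarith
    calc (2 : ℝ) ^ (9604 * (E + 1) * k ^ 4) ≤ (Real.exp 1) ^ (9604 * (E + 1) * k ^ 4) :=
          pow_le_pow_left₀ (by norm_num) h2 _
      _ = (Real.exp (((9604 * (E + 1) * 20736 : ℕ) : ℝ) * (h : ℝ) ^ 2)) ^ (h ^ 2) := by
          rw [← Real.exp_nat_mul, ← Real.exp_nat_mul]
          congr 1
          rw [hk]
          push_cast
          ring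
      _ ≤ Y ^ (h ^ 2) := pow_le_pow_left₀ (Real.exp_pos _).le hY _
  have hYh : 0 < Y ^ (h ^ 2) := by positivity
  have hdel : (2 / Y ^ (2 * h)) ^ h = 2 ^ h / (Y ^ (h ^ 2) * Y ^ (h ^ 2)) := by
    rw [div_pow, ← pow_mul, ← pow_add]
    congr 2
    ring
  have hfin : w ^ (4 * s ^ 2) ≤ (ε * (X : ℝ) ^ 2) ^ (4 * s ^ 2) := by
    calc w ^ (4 * s ^ 2) ≤ (X : ℝ) ^ (8 * s ^ 2 - 4 * s) * (Jv : ℝ) ^ 2 * V := h1
      _ ≤ (X : ℝ) ^ (8 * s ^ 2 - 4 * s) * (Jv : ℝ) ^ 2 *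
          ((3 * s : ℝ) ^ (2 * k) * (X : ℝ) ^ (k * (k + 1)) * (2 / Y ^ (2 * h)) ^ h) :=
          mul_le_mul_of_nonneg_left hVle (by positivity)
      _ = (X : ℝ) ^ (8 * s ^ 2 - 4 * s) * ((Jv : ℝ) ^ 2 * (X : ℝ) ^ (k * (k + 1))) *
          ((3 * s : ℝ) ^ (2 * k) * (2 ^ h / (Y ^ (h ^ 2) * Y ^ (h ^ 2)))) := by
          rw [hdel]; ring
      _ ≤ (X : ℝ) ^ (8 * s ^ 2 - 4 * s) *
          (Y ^ (h ^ 2) * (C1 : ℝ) ^ (2 * (48 * k)) * (X : ℝ) ^ (4 * s)) *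
          ((3 * s : ℝ) ^ (2 * k) * (2 ^ h / (Y ^ (h ^ 2) * Y ^ (h ^ 2)))) := by
          refine mul_le_mul_of_nonneg_right ?_ (by positivity)
          exact mul_le_mul_of_nonneg_left hJ2 (by positivity)
      _ = ((X : ℝ) ^ (8 * s ^ 2 - 4 * s) * (X : ℝ) ^ (4 * s)) *
          (((C1 : ℝ) ^ (2 * (48 * k)) * (3 * s : ℝ) ^ (2 * k) * 2 ^ h) / Y ^ (h ^ 2)) := by
          field_simp
      _ = (X : ℝ) ^ (8 * s ^ 2) *
          (((C1 : ℝ) ^ (2 * (48 * k)) * (3 * s : ℝ) ^ (2 * k) * 2 ^ h) / Y ^ (h ^ 2)) := by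
          rw [← pow_add, Nat.sub_add_cancel]
          nlinarith
      _ ≤ (X : ℝ) ^ (8 * s ^ 2) *
          ((2 : ℝ) ^ (9515 * k ^ 4) / 2 ^ (9604 * (E + 1) * k ^ 4)) := by
          refine mul_le_mul_of_nonneg_left ?_ (by positivity)
          exact div_le_div₀ (by positivity) hnum' (by positivity) hYpow
      _ ≤ (X : ℝ) ^ (8 * s ^ 2) * ε ^ (4 * s ^ 2) := by
          refine mul_le_mul_of_nonneg_left ?_ (by positivity)
          have e1 : 4 * s ^ 2 = 9604 * k ^ 4 := by rw [hs]; ring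
          rw [e1]
          have e2 : ((1 / 2 : ℝ) ^ E) ^ (9604 * k ^ 4) ≤ ε ^ (9604 * k ^ 4) :=
            pow_le_pow_left₀ (by positivity) hE.le _
          refine le_trans ?_ e2
          rw [← pow_mul, one_div, inv_pow, div_le_iff₀ (by positivity), ← div_eq_inv_mul,
            le_div_iff₀ (by positivity), ← pow_add]
          apply pow_le_pow_right₀ (by norm_num)
          have e3 : 9604 * (E + 1) * k ^ 4 = E * (9604 * k ^ 4) + 9604 * k ^ 4 := by ring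
          rw [e3]
          omega
      _ = (ε * (X : ℝ) ^ 2) ^ (4 * s ^ 2) := by
          rw [mul_pow, ← pow_mul, mul_comm]
          congr 2
          ring
  have hne : 4 * s ^ 2 ≠ 0 := by positivity
  exact le_of_pow_le_pow_left₀ hne (by positivity) hfin

end Pool.Agent.Half
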