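import Pool.Agent.Half.VkA

/-! Module VKE. PROOF: `vka` with `ε / 2`. For `n = x y ≤ X ^ 2 ≤ X1 ^ 2`: `|β n| ≤ X1 ^ (-2) ≤ 1`, Taylor polynomial of degree
`k = 12 h` of `exp` at `β n`: error `≤ |β n| ^ (k + 1) ≤ X1 ^ (- 24 h - 2)`, times `|t| ≤ X1 ^ (24 h - 2)`: error of the argument
`≤ X1 ^ (-4)`, of the exponential `≤ 2 π X1 ^ (-4) ≤ ε / 2` (`X1 ≥ exp C`, increase `C`). The constant term `e(t)` has modulus `1`, the
rest is `fourier 1` of the point of `vka`. -/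

open MeasureTheory Filter Topology

namespace Pool.Agent.Half

theorem VkE_exp (A B : ℝ) : ‖Complex.exp (2 * Real.pi * Complex.I * (A : ℝ)) -
    Complex.exp (2 * Real.pi * Complex.I * (B : ℝ))‖ ≤ 2 * Real.pi * |A - B| := by
  have h1 : Complex.exp (2 * Real.pi * Complex.I * (A : ℝ)) -
      Complex.exp (2 * Real.pi * Complex.I * (B : ℝ)) =
      Complex.exp (2 * Real.pi * Complex.I * (B : ℝ)) *
        (Complex.exp (Complex.I * ((2 * Real.pi * (A - B) : ℝ) : ℂ)) - 1) := by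
    rw [mul_sub, ← Complex.exp_add, mul_one]
    congr 2
    push_cast
    ring
  have h2 : ‖Complex.exp (2 * Real.pi * Complex.I * (B : ℝ))‖ = 1 := by
    have h3 : (2 * Real.pi * Complex.I * (B : ℝ) : ℂ) = ((2 * Real.pi * B : ℝ) : ℂ) * Complex.I := by
      push_cast
      ring
    rw [h3, Complex.norm_exp_ofReal_mul_I]
  rw [h1, norm_mul, h2, one_mul]
  refine (Real.norm_exp_I_mul_ofReal_sub_one_le).trans ?_
  rw [Real.norm_eq_abs, abs_mul, abs_of_pos (by positivity)]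

theorem VkE_coe (k : ℕ) (n : ℕ) (c : Fin k → ℝ) :
    (∑ i : Fin k, (n ^ (i.val + 1)) • ((c i : ℝ) : AddCircle (1 : ℝ))) =
      ((∑ i : Fin k, (n : ℝ) ^ (i.val + 1) * c i : ℝ) : AddCircle (1 : ℝ)) := by
  have h1 : ∀ i : Fin k, (n ^ (i.val + 1)) • ((c i : ℝ) : AddCircle (1 : ℝ)) =
      (((n : ℝ) ^ (i.val + 1) * c i : ℝ) : AddCircle (1 : ℝ)) := by
    intro i
    rw [← AddCircle.coe_nsmul, nsmul_eq_mul]
    push_cast
    rfl
  rw [Finset.sum_congr rfl fun i _ => h1 i]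
  exact (map_sum (QuotientAddGroup.mk' (AddSubgroup.zmultiples (1 : ℝ))) _ _).symm

/-- Taylor polynomial -/
theorem VkE_taylor {k : ℕ} (hk : 1 ≤ k) {z : ℝ} (hz : |z| ≤ 1) :
    |Real.exp z - (1 + ∑ i : Fin k, z ^ (i.val + 1) / ((i.val + 1).factorial : ℝ))| ≤
      |z| ^ (k + 1) := by
  have h1 := Real.exp_bound hz (n := k + 1) (by omega)
  have h2 : ∑ m ∈ Finset.range (k + 1), z ^ m / (m.factorial : ℝ) =
      1 + ∑ i : Fin k, z ^ (i.val + 1) / ((i.val + 1).factorial : ℝ) := by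
    rw [Finset.sum_range_succ', Fin.sum_univ_eq_sum_range
      (fun i => z ^ (i + 1) / ((i + 1).factorial : ℝ)) k]
    simp [add_comm]
  rw [h2] at h1
  refine h1.trans ?_
  have h3 : ((k + 1).succ : ℝ) / ((k + 1).factorial * ((k + 1 : ℕ) : ℝ)) ≤ 1 := by
    rw [div_le_one (by positivity)]
    have h4 : (k + 1).succ ≤ (k + 1).factorial * (k + 1) := by
      have h5 : 2 ≤ (k + 1).factorial := by
        calc 2 = Nat.factorial 2 := rfl
          _ ≤ (k + 1).factorial := Nat.factorial_le (by omega)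
      calc (k + 1).succ ≤ 2 * (k + 1) := by omega
        _ ≤ _ := Nat.mul_le_mul_right _ h5
    exact_mod_cast h4
  calc |z| ^ (k + 1) * (((k + 1).succ : ℝ) / ((k + 1).factorial * ((k + 1 : ℕ) : ℝ)))
      ≤ |z| ^ (k + 1) * 1 := mul_le_mul_of_nonneg_left h3 (by positivity)
    _ = _ := mul_one _

/-- the error of the argument -/
theorem VkE_arg {h : ℕ} (hh : 1 ≤ h) {X1 t β : ℝ} (hX1 : 1 ≤ X1) (hβ : |β| * X1 ^ 4 = 1)
    (ht : |t| * X1 ^ 2 ≤ X1 ^ (24 * h)) {n : ℕ} (hn : (n : ℝ) ≤ X1 ^ 2) :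
    |t * Real.exp (β * (n : ℝ)) - (t + ∑ i : Fin (12 * h), (n : ℝ) ^ (i.val + 1) *
      (t * β ^ (i.val + 1) / ((i.val + 1).factorial : ℝ)))| * X1 ^ 4 ≤ 1 := by
  have hX0 : 0 < X1 := by linarith
  have hz2 : |β * n| * X1 ^ 2 ≤ 1 := by
    rw [abs_mul, Nat.abs_cast]
    calc |β| * n * X1 ^ 2 ≤ |β| * X1 ^ 2 * X1 ^ 2 := by gcongr
      _ = |β| * X1 ^ 4 := by ring
      _ = 1 := hβ
  have hz : |β * n| ≤ 1 := by
    have h1 : 1 ≤ X1 ^ 2 := one_le_pow₀ hX1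
    calc |β * n| = |β * n| * 1 := (mul_one _).symm
      _ ≤ |β * n| * X1 ^ 2 := by gcongr
      _ ≤ 1 := hz2
  have h1 := VkE_taylor (k := 12 * h) (by omega) hz
  have h2 : t * Real.exp (β * (n : ℝ)) - (t + ∑ i : Fin (12 * h), (n : ℝ) ^ (i.val + 1) *
      (t * β ^ (i.val + 1) / ((i.val + 1).factorial : ℝ))) =
      t * (Real.exp (β * n) - (1 + ∑ i : Fin (12 * h), (β * n) ^ (i.val + 1) /
        ((i.val + 1).factorial : ℝ))) := by
    rw [mul_sub, mul_add, mul_one, Finset.mul_sum]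
    congr 2
    refine Finset.sum_congr rfl fun i _ => ?_
    rw [mul_pow]
    ring
  rw [h2, abs_mul]
  have h3 : |β * n| ^ (12 * h + 1) * X1 ^ (24 * h + 2) ≤ 1 := by
    have h4 : |β * n| ^ (12 * h + 1) * X1 ^ (24 * h + 2) = (|β * n| * X1 ^ 2) ^ (12 * h + 1) := by
      rw [mul_pow, ← pow_mul]
      congr 2
      ring
    rw [h4]
    exact pow_le_one₀ (by positivity) hz2
  have h5 : |t| * X1 ^ 4 * |β * n| ^ (12 * h + 1) ≤ 1 := by
    calc |t| * X1 ^ 4 * |β * n| ^ (12 * h + 1)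
        = (|t| * X1 ^ 2) * (X1 ^ 2 * |β * n| ^ (12 * h + 1)) := by ring
      _ ≤ X1 ^ (24 * h) * (X1 ^ 2 * |β * n| ^ (12 * h + 1)) := by gcongr
      _ = |β * n| ^ (12 * h + 1) * X1 ^ (24 * h + 2) := by ring
      _ ≤ 1 := h3
  calc |t| * |Real.exp (β * n) - (1 + ∑ i : Fin (12 * h), (β * n) ^ (i.val + 1) /
        ((i.val + 1).factorial : ℝ))| * X1 ^ 4 ≤ |t| * |β * n| ^ (12 * h + 1) * X1 ^ 4 := by gcongr
    _ = |t| * X1 ^ 4 * |β * n| ^ (12 * h + 1) := by ring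
    _ ≤ 1 := h5

theorem vke {ε : ℝ} (hε : 0 < ε) : ∃ C h0 : ℕ, ∀ h : ℕ, h0 ≤ h → ∀ X1 : ℝ, Real.exp (C * h ^ 2) ≤ X1 →
    ∃ X : ℕ, 0 < X ∧ (X : ℝ) ≤ X1 ∧ ∀ t β : ℝ, |β| * X1 ^ 4 = 1 → X1 ^ (45 * h) ≤ |t| ^ 2 →
      |t| * X1 ^ 2 ≤ X1 ^ (24 * h) →
      ‖∑ x ∈ Finset.range X, ∑ y ∈ Finset.range X,
        Complex.exp (2 * Real.pi * Complex.I * (t * Real.exp (β * ((x * y : ℕ) : ℝ)) : ℝ))‖ ≤
        ε * (X : ℝ) ^ 2 := by
  obtain ⟨C0, h0, hmain⟩ := vka (half_pos hε)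
  obtain ⟨C1, hC1⟩ := exists_nat_ge (4 * Real.pi / ε)
  refine ⟨C0 + C1, h0 + 1, fun h hh X1 hX1 => ?_⟩
  have hh1 : (1 : ℝ) ≤ (h : ℝ) ^ 2 := one_le_pow₀ (by exact_mod_cast (by omega : 1 ≤ h))
  have hX0 : Real.exp (C0 * h ^ 2) ≤ X1 := by
    refine le_trans (Real.exp_le_exp.2 ?_) hX1
    push_cast
    nlinarith [Nat.cast_nonneg (α := ℝ) C1]
  have hXC : 4 * Real.pi / ε ≤ X1 := by
    refine hC1.trans (le_trans ?_ hX1)
    have h1 := Real.add_one_le_exp ((C0 + C1 : ℕ) * (h : ℝ) ^ 2 : ℝ)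
    push_cast at h1 ⊢
    nlinarith [Nat.cast_nonneg (α := ℝ) C1, Nat.cast_nonneg (α := ℝ) C0,
      mul_nonneg (Nat.cast_nonneg (α := ℝ) C1) (sub_nonneg.2 hh1),
      mul_nonneg (Nat.cast_nonneg (α := ℝ) C0) (sub_nonneg.2 hh1)]
  have hX1' : 1 ≤ X1 := le_trans (Real.one_le_exp (by positivity)) hX0
  have hXpos : 0 < X1 := by linarith
  obtain ⟨X, hX, hXX, hW⟩ := hmain h (by omega) X1 hX0
  refine ⟨X, hX, hXX, fun t β hβ ht1 ht2 => ?_⟩
  have hb := hW t β hβ ht1 ht2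
  -- the polynomial phase
  set P : ℕ → ℝ := fun n => ∑ i : Fin (12 * h), (n : ℝ) ^ (i.val + 1) *
      (t * β ^ (i.val + 1) / ((i.val + 1).factorial : ℝ)) with hP
  have h4 : ∀ x y : ℕ, fourier 1 (∑ i : Fin (12 * h), (x * y) ^ (i.val + 1) •
          ((t * β ^ (i.val + 1) / ((i.val + 1).factorial : ℝ) : ℝ) : AddCircle (1 : ℝ))) =
      Complex.exp (2 * Real.pi * Complex.I * (P (x * y) : ℝ)) := by
    intro x y
    rw [VkE_coe, fourier_coe_apply]
    congr 1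
    simp only [hP]
    push_cast
    ring
  have hsum : ‖∑ x ∈ Finset.range X, ∑ y ∈ Finset.range X,
      Complex.exp (2 * Real.pi * Complex.I * ((t + P (x * y) : ℝ) : ℂ))‖ ≤ ε / 2 * (X : ℝ) ^ 2 := by
    have h5 : ∑ x ∈ Finset.range X, ∑ y ∈ Finset.range X,
        Complex.exp (2 * Real.pi * Complex.I * ((t + P (x * y) : ℝ) : ℂ)) =
        Complex.exp (2 * Real.pi * Complex.I * (t : ℝ)) * ∑ x ∈ Finset.range X,
          ∑ y ∈ Finset.range X, fourier 1 (∑ i : Fin (12 * h), (x * y) ^ (i.val + 1) •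
          ((t * β ^ (i.val + 1) / ((i.val + 1).factorial : ℝ) : ℝ) : AddCircle (1 : ℝ))) := by
      rw [Finset.mul_sum]
      refine Finset.sum_congr rfl fun x _ => ?_
      rw [Finset.mul_sum]
      refine Finset.sum_congr rfl fun y _ => ?_
      rw [h4, ← Complex.exp_add]
      congr 1
      push_cast
      ring
    have h6 : ‖Complex.exp (2 * Real.pi * Complex.I * (t : ℝ))‖ = 1 := by
      have h3 : (2 * Real.pi * Complex.I * (t : ℝ) : ℂ) =
          ((2 * Real.pi * t : ℝ) : ℂ) * Complex.I := by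
        push_cast
        ring
      rw [h3, Complex.norm_exp_ofReal_mul_I]
    rw [h5, norm_mul, h6, one_mul]
    exact hb
  have hdiff : ‖∑ x ∈ Finset.range X, ∑ y ∈ Finset.range X,
      (Complex.exp (2 * Real.pi * Complex.I * (t * Real.exp (β * ((x * y : ℕ) : ℝ)) : ℝ)) -
      Complex.exp (2 * Real.pi * Complex.I * ((t + P (x * y) : ℝ) : ℂ)))‖ ≤
      ε / 2 * (X : ℝ) ^ 2 := by
    have h5 : ∀ x ∈ Finset.range X, ∀ y ∈ Finset.range X,
        ‖Complex.exp (2 * Real.pi * Complex.I * (t * Real.exp (β * ((x * y : ℕ) : ℝ)) : ℝ)) -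
        Complex.exp (2 * Real.pi * Complex.I * ((t + P (x * y) : ℝ) : ℂ))‖ ≤ ε / 2 := by
      intro x hx y hy
      refine (VkE_exp _ _).trans ?_
      have hn : ((x * y : ℕ) : ℝ) ≤ X1 ^ 2 := by
        have hx' : (x : ℝ) ≤ X1 :=
          le_trans (by exact_mod_cast (Finset.mem_range.1 hx).le) hXX
        have hy' : (y : ℝ) ≤ X1 :=
          le_trans (by exact_mod_cast (Finset.mem_range.1 hy).le) hXX
        push_cast
        calc (x : ℝ) * y ≤ X1 * X1 := mul_le_mul hx' hy' (by positivity) hXpos.le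
          _ = X1 ^ 2 := by ring
      have h6 := VkE_arg (h := h) (by omega) hX1' hβ ht2 hn
      have h7 : 4 * Real.pi / ε ≤ X1 ^ 4 := by
        refine hXC.trans ?_
        calc X1 = X1 ^ 1 := (pow_one _).symm
          _ ≤ X1 ^ 4 := pow_le_pow_right₀ hX1' (by norm_num)
      rw [div_le_iff₀ hε] at h7
      set E := |t * Real.exp (β * ((x * y : ℕ) : ℝ)) - (t + P (x * y))| with hE
      have hE0 : 0 ≤ E := abs_nonneg _
      have h8 : E * X1 ^ 4 ≤ 1 := h6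
      have h9 : E * (4 * Real.pi) ≤ ε := by
        calc E * (4 * Real.pi) ≤ E * (X1 ^ 4 * ε) := mul_le_mul_of_nonneg_left h7 hE0
          _ = E * X1 ^ 4 * ε := by ring
          _ ≤ 1 * ε := mul_le_mul_of_nonneg_right h8 hε.le
          _ = ε := one_mul _
      linarith
    refine (norm_sum_le _ _).trans ?_
    have h6 : ∀ x ∈ Finset.range X, ‖∑ y ∈ Finset.range X,
        (Complex.exp (2 * Real.pi * Complex.I * (t * Real.exp (β * ((x * y : ℕ) : ℝ)) : ℝ)) -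
        Complex.exp (2 * Real.pi * Complex.I * ((t + P (x * y) : ℝ) : ℂ)))‖ ≤
        (X : ℝ) * (ε / 2) := by
      intro x hx
      refine (norm_sum_le _ _).trans ?_
      refine (Finset.sum_le_sum fun y hy => h5 x hx y hy).trans ?_
      rw [Finset.sum_const, Finset.card_range, nsmul_eq_mul]
    refine (Finset.sum_le_sum h6).trans ?_
    rw [Finset.sum_const, Finset.card_range, nsmul_eq_mul]
    apply le_of_eq
    ring
  have hsplit : ∑ x ∈ Finset.range X, ∑ y ∈ Finset.range X,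
        Complex.exp (2 * Real.pi * Complex.I * (t * Real.exp (β * ((x * y : ℕ) : ℝ)) : ℝ)) =
      (∑ x ∈ Finset.range X, ∑ y ∈ Finset.range X,
      Complex.exp (2 * Real.pi * Complex.I * ((t + P (x * y) : ℝ) : ℂ))) +
      ∑ x ∈ Finset.range X, ∑ y ∈ Finset.range X,
      (Complex.exp (2 * Real.pi * Complex.I * (t * Real.exp (β * ((x * y : ℕ) : ℝ)) : ℝ)) -
      Complex.exp (2 * Real.pi * Complex.I * ((t + P (x * y) : ℝ) : ℂ))) := by
    rw [← Finset.sum_add_distrib]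
    refine Finset.sum_congr rfl fun x _ => ?_
    rw [← Finset.sum_add_distrib]
    refine Finset.sum_congr rfl fun y _ => ?_
    ring
  rw [hsplit]
  refine (norm_add_le _ _).trans ?_
  linarith

end Pool.Agent.Half
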