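import Pool.Agent.Half.EqS

/-! Module WBASE. `PW M 1`. PROOF: `B = k * Bf r + rest`, `rest < Bf r ≤ 2^(Mr)/2 ≤ B / 2^(2r)`. A block starting at `c`:
`θ_{c+b} = 2^(fract (b α + c α))`, so `eq_shift` with `β = c α` gives at most `Bf r (1/|s| + (9|s| + 6)/2^(4r))`.
Altogether `‖FB B s‖ ≤ 1/K0 + (9 * 2^r + 6)/2^(4r) + 2^(-2r)`. -/

open MeasureTheory Filter Topology

namespace Pool.Agent.Half

/-- `|F_B(s)|` is small for `K0 ≤ |s| ≤ 2^(j r)`, `B ≥ 2^((M+2) r)` -/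
def PW (M j : ℕ) : Prop :=
  ∀ ε : ℝ, 0 < ε → ∃ K0 : ℝ, 0 < K0 ∧ ∃ r1 : ℕ, ∀ r, r1 ≤ r → ∀ B : ℕ, 2 ^ ((M + 2) * r) ≤ B →
    ∀ s : ℝ, K0 ≤ |s| → |s| ≤ 2 ^ (j * r) → ‖FB B s‖ ≤ ε

private lemma WBase_blocks (f : ℕ → ℂ) (hf : ∀ b, ‖f b‖ ≤ 1) (L : ℕ) (hL : 0 < L) (K : ℝ)
    (hK0 : 0 ≤ K) (hK : ∀ c, ‖∑ b ∈ Finset.range L, f (c + b)‖ ≤ (L : ℝ) * K) (B : ℕ) :
    ‖∑ b ∈ Finset.range B, f b‖ ≤ (B : ℝ) * K + L := by
  have h1 : ∀ k : ℕ, ‖∑ b ∈ Finset.range (L * k), f b‖ ≤ (k : ℝ) * ((L : ℝ) * K) := by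
    intro k
    induction k with
    | zero => simp
    | succ k ih =>
      rw [Nat.mul_succ, Finset.sum_range_add]
      refine (norm_add_le _ _).trans ?_
      have := hK (L * k)
      push_cast
      linarith
  have h2 : B = L * (B / L) + B % L := (Nat.div_add_mod B L).symm
  have h3 : ∑ b ∈ Finset.range B, f b = ∑ b ∈ Finset.range (L * (B / L)), f b +
      ∑ b ∈ Finset.range (B % L), f (L * (B / L) + b) := by
    conv_lhs => rw [h2]
    rw [Finset.sum_range_add]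
  rw [h3]
  refine (norm_add_le _ _).trans ?_
  have h4 : ‖∑ b ∈ Finset.range (B % L), f (L * (B / L) + b)‖ ≤ L := by
    refine (norm_sum_le _ _).trans ?_
    refine (Finset.sum_le_sum fun b _ => hf _).trans ?_
    rw [Finset.sum_const, Finset.card_range, nsmul_eq_mul, mul_one]
    exact_mod_cast (Nat.mod_lt B hL).le
  have h5 := h1 (B / L)
  have h6 : ((B / L : ℕ) : ℝ) * L ≤ B := by
    have : (B / L) * L ≤ B := Nat.div_mul_le_self B L
    exact_mod_cast this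
  have h7 : ((B / L : ℕ) : ℝ) * ((L : ℝ) * K) ≤ (B : ℝ) * K := by
    rw [← mul_assoc]
    exact mul_le_mul_of_nonneg_right h6 hK0
  linarith

theorem pw_one {M : ℕ} {Bf : ℕ → ℕ} {r0 : ℕ} (h : ∀ r, r0 ≤ r → Ord2.ParP M Bf r) : PW M 1 := by
  intro ε hε
  obtain ⟨r', hr'⟩ := exists_nat_gt (32 / ε)
  refine ⟨2 / ε, by positivity, max r0 r', ?_⟩
  intro r hr B hB s hs1 hs2
  have hr0 : r0 ≤ r := (le_max_left _ _).trans hr
  have hrr : r' ≤ r := (le_max_right _ _).trans hr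
  have hP := h r hr0
  have hP' := hP
  obtain ⟨q, p, N, hq, hN, hω, hω1, hBf, hB4, hB2⟩ := hP'
  have hBfpos : 0 < Bf r := by
    by_contra hcon
    have : Bf r = 0 := by omega
    rw [this] at hB4
    have : 0 < 2 ^ (M * r) := by positivity
    omega
  have hs0 : 0 < |s| := lt_of_lt_of_le (by positivity) hs1
  have hsne : s ≠ 0 := abs_pos.1 hs0
  have hBpos : 0 < B := lt_of_lt_of_le (by positivity) hB
  have hBr : (0 : ℝ) < B := by exact_mod_cast hBpos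
  set K : ℝ := 1 / |s| + (9 * |s| + 6) / 2 ^ (4 * r) with hKdef
  have hK0 : 0 ≤ K := by positivity
  have hterm : ∀ c b : ℕ, Complex.exp (2 * Real.pi * Complex.I * (s * Ord2.th (c + b) : ℝ)) =
      Ord2.eY s (Int.fract ((b : ℝ) * Ord2.al + (c : ℝ) * Ord2.al)) := by
    intro c b
    unfold Ord2.eY Ord2.th
    rw [show ((c + b : ℕ) : ℝ) * Ord2.al = (b : ℝ) * Ord2.al + (c : ℝ) * Ord2.al by push_cast; ring]
  have hmain := WBase_blocks (fun b => Complex.exp (2 * Real.pi * Complex.I * (s * Ord2.th b : ℝ)))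
    (fun b => by
      rw [show (2 * Real.pi * Complex.I * (s * Ord2.th b : ℝ) : ℂ) =
        ((2 * Real.pi * (s * Ord2.th b) : ℝ) : ℂ) * Complex.I by push_cast; ring]
      exact (Complex.norm_exp_ofReal_mul_I _).le) (Bf r) hBfpos K hK0
    (fun c => by
      have := eq_shift hP s hsne ((c : ℝ) * Ord2.al)
      rw [Finset.sum_congr rfl (fun b _ => hterm c b)]
      exact this) B
  unfold FB
  rw [norm_div, Complex.norm_natCast, div_le_iff₀ hBr]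
  refine hmain.trans ?_
  -- bounds
  have hx1 : 1 / |s| ≤ ε / 2 := by
    rw [div_le_iff₀ hs0]
    calc (1 : ℝ) = ε / 2 * (2 / ε) := by field_simp
      _ ≤ ε / 2 * |s| := mul_le_mul_of_nonneg_left hs1 (by positivity)
  have h2r : (32 : ℝ) / ε ≤ 2 ^ r := by
    have h1 : (r : ℝ) ≤ 2 ^ r := by exact_mod_cast (Nat.lt_two_pow_self (n := r)).le
    have h2 : (r' : ℝ) ≤ r := by exact_mod_cast hrr
    linarith
  have h2rpos : (0 : ℝ) < 2 ^ r := by positivity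
  have h1r : (1 : ℝ) ≤ 2 ^ r := one_le_pow₀ (by norm_num)
  have hinv : 16 / (2 : ℝ) ^ r ≤ ε / 2 := by
    rw [div_le_iff₀ h2rpos]
    calc (16 : ℝ) = ε / 2 * (32 / ε) := by field_simp; norm_num
      _ ≤ ε / 2 * 2 ^ r := mul_le_mul_of_nonneg_left h2r (by positivity)
  have hx2 : (9 * |s| + 6) / 2 ^ (4 * r) ≤ 15 / (2 : ℝ) ^ r := by
    rw [one_mul] at hs2
    have h4 : (2 : ℝ) ^ (4 * r) = 2 ^ r * 2 ^ r * (2 ^ r * 2 ^ r) := by
      rw [show 4 * r = r + r + (r + r) by ring, pow_add, pow_add]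
    rw [h4, div_le_div_iff₀ (by positivity) h2rpos]
    have h5 : 9 * |s| + 6 ≤ 15 * 2 ^ r := by linarith
    have h6 : (1 : ℝ) ≤ 2 ^ r * 2 ^ r := by nlinarith
    calc (9 * |s| + 6) * 2 ^ r ≤ 15 * 2 ^ r * 2 ^ r := mul_le_mul_of_nonneg_right h5 h2rpos.le
      _ = 15 * (2 ^ r * 2 ^ r) * 1 := by ring
      _ ≤ 15 * (2 ^ r * 2 ^ r) * (2 ^ r * 2 ^ r) := mul_le_mul_of_nonneg_left h6 (by positivity)
      _ = 15 * (2 ^ r * 2 ^ r * (2 ^ r * 2 ^ r)) := by ring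
  have hx3 : (Bf r : ℝ) ≤ (B : ℝ) * (1 / 2 ^ r) := by
    have h7 : Bf r * 2 ^ r ≤ B := by
      calc Bf r * 2 ^ r ≤ 2 ^ (M * r) * 2 ^ (2 * r) := by
            apply Nat.mul_le_mul (by omega)
            exact Nat.pow_le_pow_right (by norm_num) (by omega)
        _ = 2 ^ ((M + 2) * r) := by rw [← pow_add]; ring_nf
        _ ≤ B := hB
    have h8 : (Bf r : ℝ) * 2 ^ r ≤ B := by exact_mod_cast h7
    rw [mul_one_div, le_div_iff₀ h2rpos]
    exact h8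
  have hKle : K ≤ ε / 2 + 15 / 2 ^ r := by rw [hKdef]; linarith
  have h9 : (B : ℝ) * K ≤ (B : ℝ) * (ε / 2 + 15 / 2 ^ r) := mul_le_mul_of_nonneg_left hKle hBr.le
  have h10 : (B : ℝ) * (16 / 2 ^ r) ≤ (B : ℝ) * (ε / 2) := mul_le_mul_of_nonneg_left hinv hBr.le
  have h11 : (B : ℝ) * (ε / 2 + 15 / 2 ^ r) + (B : ℝ) * (1 / 2 ^ r) =
      (B : ℝ) * (ε / 2) + (B : ℝ) * (16 / 2 ^ r) := by ring
  linarith

end Pool.Agent.Half
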