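import Pool.Agent.Half.CntB

/-! Module WCLOSE. Number of `q' < C` with `θ_q'` close to `θ_q`. PROOF: `fract (q' α) = log θ_q' / log 2`, so
`|fract (q α) - fract (q' α)| ≤ 3/2 |θ_q - θ_q'|` (`θ ≥ 1`, `1/log 2 < 3/2`); `cnt_le` for the interval
`[max 0 (y - 3d/2), min 1 (y + 3d/2))`, `y = fract (q α)`. (The factor 2 is not needed.) -/

open MeasureTheory Filter Topology

namespace Pool.Agent.Half

private lemma WClose_aux {a b : ℝ} (hb : 0 ≤ b) (hab : b ≤ a) :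
    a - b ≤ 3 / 2 * ((2 : ℝ) ^ a - (2 : ℝ) ^ b) := by
  have hl : (2 : ℝ) / 3 ≤ Real.log 2 := by
    have := Real.log_two_gt_d9
    linarith
  have h1 : (2 : ℝ) ^ a = (2 : ℝ) ^ b * (2 : ℝ) ^ (a - b) := by
    rw [← Real.rpow_add (by norm_num)]
    congr 1
    ring
  have h2 : (1 : ℝ) ≤ (2 : ℝ) ^ b := Real.one_le_rpow (by norm_num) hb
  have h3 : Real.log 2 * (a - b) + 1 ≤ (2 : ℝ) ^ (a - b) := by
    rw [Real.rpow_def_of_pos (by norm_num)]
    exact Real.add_one_le_exp _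
  have h4 : 0 ≤ a - b := by linarith
  have h5 : (2 : ℝ) / 3 * (a - b) ≤ Real.log 2 * (a - b) := mul_le_mul_of_nonneg_right hl h4
  have h6 : (2 : ℝ) ^ a - (2 : ℝ) ^ b = (2 : ℝ) ^ b * ((2 : ℝ) ^ (a - b) - 1) := by
    rw [h1]; ring
  have h7 : (2 : ℝ) ^ (a - b) - 1 ≤ (2 : ℝ) ^ b * ((2 : ℝ) ^ (a - b) - 1) := by
    have : 0 ≤ (2 : ℝ) ^ (a - b) - 1 := by nlinarith
    nlinarith
  rw [h6]
  linarith

private lemma WClose_aux2 {a b : ℝ} (ha : 0 ≤ a) (hb : 0 ≤ b) :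
    |a - b| ≤ 3 / 2 * |(2 : ℝ) ^ a - (2 : ℝ) ^ b| := by
  rcases le_total b a with h | h
  · have := WClose_aux hb h
    rw [abs_of_nonneg (by linarith : 0 ≤ a - b)]
    exact this.trans (mul_le_mul_of_nonneg_left (le_abs_self _) (by norm_num))
  · have := WClose_aux ha h
    rw [abs_sub_comm, abs_of_nonneg (by linarith : 0 ≤ b - a), abs_sub_comm]
    exact this.trans (mul_le_mul_of_nonneg_left (le_abs_self _) (by norm_num))

theorem close_cnt {M : ℕ} {Bf : ℕ → ℕ} {r : ℕ} (h : Ord2.ParP M Bf r) (C q : ℕ) (d : ℝ) (hd : 0 < d) :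
    (((Finset.range C).filter fun q' : ℕ => |Ord2.th q - Ord2.th q'| < d).card : ℝ)
      ≤ 2 * ((C : ℝ) * (3 * d + 16 / 2 ^ (4 * r)) + Bf r) := by
  set y := Int.fract ((q : ℝ) * Ord2.al) with hy
  have hy0 : 0 ≤ y := Int.fract_nonneg _
  have hy1 : y < 1 := Int.fract_lt_one _
  have hc := cnt_le h C 0 (max 0 (y - 3 * d / 2)) (min 1 (y + 3 * d / 2)) (le_max_left _ _)
    (by
      apply le_min
      · exact max_le (by norm_num) (by linarith)
      · exact max_le (by linarith) (by linarith)) (min_le_left _ _)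
  have hsub : ((Finset.range C).filter fun q' : ℕ => |Ord2.th q - Ord2.th q'| < d) ⊆
      (Finset.range C).filter fun b : ℕ =>
        max 0 (y - 3 * d / 2) ≤ Int.fract ((b : ℝ) * Ord2.al + 0) ∧
          Int.fract ((b : ℝ) * Ord2.al + 0) < min 1 (y + 3 * d / 2) := by
    intro q' hq'
    rw [Finset.mem_filter] at hq' ⊢
    refine ⟨hq'.1, ?_⟩
    rw [add_zero]
    have h1 := WClose_aux2 hy0 (Int.fract_nonneg ((q' : ℝ) * Ord2.al))
    have h2 : |(2 : ℝ) ^ y - (2 : ℝ) ^ (Int.fract ((q' : ℝ) * Ord2.al))| < d := hq'.2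
    have h3 : |y - Int.fract ((q' : ℝ) * Ord2.al)| < 3 / 2 * d := by linarith
    rw [abs_lt] at h3
    refine ⟨max_le (Int.fract_nonneg _) (by linarith [h3.2]), lt_min (Int.fract_lt_one _) (by linarith [h3.1])⟩
  have hcard : ((((Finset.range C).filter fun q' : ℕ => |Ord2.th q - Ord2.th q'| < d).card : ℕ) : ℝ) ≤
      (((Finset.range C).filter fun b : ℕ =>
        max 0 (y - 3 * d / 2) ≤ Int.fract ((b : ℝ) * Ord2.al + 0) ∧
          Int.fract ((b : ℝ) * Ord2.al + 0) < min 1 (y + 3 * d / 2)).card : ℝ) := by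
    exact_mod_cast Finset.card_le_card hsub
  have hlen : min 1 (y + 3 * d / 2) - max 0 (y - 3 * d / 2) ≤ 3 * d := by
    have := min_le_right 1 (y + 3 * d / 2)
    have := le_max_right 0 (y - 3 * d / 2)
    linarith
  have hC0 : (0 : ℝ) ≤ C := Nat.cast_nonneg C
  have hB0 : (0 : ℝ) ≤ Bf r := Nat.cast_nonneg _
  have hp : (0 : ℝ) ≤ 16 / 2 ^ (4 * r) := by positivity
  have h8 : (C : ℝ) * (min 1 (y + 3 * d / 2) - max 0 (y - 3 * d / 2) + 16 / 2 ^ (4 * r)) ≤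
      (C : ℝ) * (3 * d + 16 / 2 ^ (4 * r)) := mul_le_mul_of_nonneg_left (by linarith) hC0
  have h9 : 0 ≤ (C : ℝ) * (3 * d + 16 / 2 ^ (4 * r)) := by positivity
  linarith

end Pool.Agent.Half
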