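import Pool.Agent.Half.CntB

/-! Module WSHIFT. Multiplication by `θ_q`. PROOF: `(1/B) ∑_b (e(s θ_b) - e(s θ_{b+q}))` is at most `2 q / B`; and
`θ_{b+q} = θ_b θ_q` unless `fract (b α) + fract (q α) ≥ 1`, i.e. `fract (b α) ≥ 1 - v`, at most `B (v + 16/2^(4r)) + Bf r`
values of `b` (`cnt_le` with `β = 0`, `[1 - v, 1)`). -/

open MeasureTheory Filter Topology

namespace Pool.Agent.Half

private noncomputable def WShift_E (x : ℝ) : ℂ := Complex.exp (2 * Real.pi * Complex.I * (x : ℝ))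

private lemma WShift_norm (x : ℝ) : ‖WShift_E x‖ = 1 := by
  unfold WShift_E
  rw [show (2 * Real.pi * Complex.I * (x : ℝ) : ℂ) = ((2 * Real.pi * x : ℝ) : ℂ) * Complex.I by
    push_cast; ring]
  exact Complex.norm_exp_ofReal_mul_I _

private lemma WShift_th {b q : ℕ} (h : Int.fract ((b : ℝ) * Ord2.al) + Int.fract ((q : ℝ) * Ord2.al) < 1) :
    Ord2.th (b + q) = Ord2.th b * Ord2.th q := by
  unfold Ord2.th
  rw [← Real.rpow_add (by norm_num)]
  congr 1
  have e : ((b + q : ℕ) : ℝ) * Ord2.al = (b : ℝ) * Ord2.al + (q : ℝ) * Ord2.al := by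
    push_cast; ring
  rw [e, Int.fract_eq_iff]
  refine ⟨add_nonneg (Int.fract_nonneg _) (Int.fract_nonneg _), h,
    ⌊(b : ℝ) * Ord2.al⌋ + ⌊(q : ℝ) * Ord2.al⌋, ?_⟩
  rw [Int.fract, Int.fract]
  push_cast
  ring

theorem wshift {M : ℕ} {Bf : ℕ → ℕ} {r : ℕ} (h : Ord2.ParP M Bf r) (B : ℕ) (hB : 0 < B) (s v : ℝ)
    (hv0 : 0 ≤ v) (hv1 : v ≤ 1) (q : ℕ) (hq : Int.fract ((q : ℝ) * Ord2.al) < v) :
    ‖FB B s - FB B (s * Ord2.th q)‖ ≤
      2 * (q : ℝ) / B + 2 * (v + 16 / 2 ^ (4 * r) + (Bf r : ℝ) / B) := by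
  have hBr : (0 : ℝ) < B := by exact_mod_cast hB
  have hFB : ∀ t : ℝ, FB B t = (∑ b ∈ Finset.range B, WShift_E (t * Ord2.th b)) / (B : ℂ) := by
    intro t
    rfl
  rw [hFB, hFB, ← sub_div, norm_div, Complex.norm_natCast, div_le_iff₀ hBr]
  have key : (2 * (q : ℝ) / B + 2 * (v + 16 / 2 ^ (4 * r) + (Bf r : ℝ) / B)) * B =
      2 * (q : ℝ) + 2 * ((B : ℝ) * (1 - (1 - v) + 16 / 2 ^ (4 * r)) + Bf r) := by
    field_simp
    ring
  rw [key]
  have hc := cnt_le h B 0 (1 - v) 1 (by linarith) (by linarith) le_rfl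
  set Bad := (Finset.range B).filter fun b : ℕ =>
        1 - v ≤ Int.fract ((b : ℝ) * Ord2.al + 0) ∧ Int.fract ((b : ℝ) * Ord2.al + 0) < 1 with hBad
  have hsplit : (∑ b ∈ Finset.range B, WShift_E (s * Ord2.th b)) -
        ∑ b ∈ Finset.range B, WShift_E (s * Ord2.th q * Ord2.th b) =
      ((∑ b ∈ Finset.range q, WShift_E (s * Ord2.th b)) -
        ∑ b ∈ Finset.range q, WShift_E (s * Ord2.th (B + b))) +
      ∑ b ∈ Finset.range B, (WShift_E (s * Ord2.th (b + q)) - WShift_E (s * Ord2.th q * Ord2.th b)) := by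
    have h1 := Finset.sum_range_add (fun b => WShift_E (s * Ord2.th b)) B q
    have h2 := Finset.sum_range_add (fun b => WShift_E (s * Ord2.th b)) q B
    rw [add_comm q B] at h2
    rw [Finset.sum_sub_distrib]
    have h3 : ∑ b ∈ Finset.range B, WShift_E (s * Ord2.th (b + q)) =
        ∑ b ∈ Finset.range B, WShift_E (s * Ord2.th (q + b)) :=
      Finset.sum_congr rfl fun b _ => by rw [add_comm]
    rw [h3]
    linear_combination h2 - h1
  rw [hsplit]
  have hA : ‖(∑ b ∈ Finset.range q, WShift_E (s * Ord2.th b)) -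
        ∑ b ∈ Finset.range q, WShift_E (s * Ord2.th (B + b))‖ ≤ 2 * (q : ℝ) := by
    refine (norm_sub_le _ _).trans ?_
    have h1 : ∀ f : ℕ → ℝ, ‖∑ b ∈ Finset.range q, WShift_E (f b)‖ ≤ q := by
      intro f
      refine (norm_sum_le _ _).trans ?_
      simp [WShift_norm]
    have := h1 (fun b => s * Ord2.th b)
    have := h1 (fun b => s * Ord2.th (B + b))
    linarith
  have hC : ‖∑ b ∈ Finset.range B, (WShift_E (s * Ord2.th (b + q)) - WShift_E (s * Ord2.th q * Ord2.th b))‖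
      ≤ 2 * (Bad.card : ℝ) := by
    refine (norm_sum_le _ _).trans ?_
    have h1 : ∀ b ∈ Finset.range B, ‖WShift_E (s * Ord2.th (b + q)) - WShift_E (s * Ord2.th q * Ord2.th b)‖
        ≤ if b ∈ Bad then 2 else 0 := by
      intro b hb
      split_ifs with hbad
      · refine (norm_sub_le _ _).trans ?_
        rw [WShift_norm, WShift_norm]
        norm_num
      · have h2 : Int.fract ((b : ℝ) * Ord2.al) < 1 - v := by
          by_contra hcon
          rw [not_lt] at hcon
          apply hbad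
          rw [hBad, Finset.mem_filter]
          refine ⟨hb, ?_, ?_⟩
          · rw [add_zero]; exact hcon
          · exact Int.fract_lt_one _
        rw [WShift_th (by linarith)]
        rw [show s * (Ord2.th b * Ord2.th q) = s * Ord2.th q * Ord2.th b by ring]
        simp
    refine (Finset.sum_le_sum h1).trans ?_
    rw [Finset.sum_ite_mem, Finset.sum_const, nsmul_eq_mul]
    have h3 : ((Finset.range B ∩ Bad).card : ℝ) ≤ Bad.card := by
      exact_mod_cast Finset.card_le_card Finset.inter_subset_right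
    linarith
  refine (norm_add_le _ _).trans ?_
  linarith

end Pool.Agent.Half
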