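import Pool.Agent.Half.HDefs

/-! Module WVDC. Cauchy-Schwarz: for a finite nonempty set `Q` of indices,
`|(1/|Q|) ∑_{q ∈ Q} F_B(s θ_q)|^2 ≤ (1/|Q|^2) ∑_{q, q'} |F_B(s (θ_q - θ_q'))|`. PROOF: the left side is
`|(1/B) ∑_b (1/|Q|) ∑_q e(s θ_q θ_b)|^2 ≤ (1/B) ∑_b |(1/|Q|) ∑_q e(s θ_q θ_b)|^2`, expand the square and exchange the sums;
take norms. -/

open MeasureTheory Filter Topology

namespace Pool.Agent.Half

private noncomputable def WvdC_E (x : ℝ) : ℂ := Complex.exp (2 * Real.pi * Complex.I * (x : ℝ))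

private lemma WvdC_E_mul_conj (x y : ℝ) :
    WvdC_E x * (starRingEnd ℂ) (WvdC_E y) = WvdC_E (x - y) := by
  unfold WvdC_E
  rw [← Complex.exp_conj, ← Complex.exp_add]
  congr 1
  simp only [map_mul, Complex.conj_ofReal, Complex.conj_I, map_ofNat]
  push_cast
  ring

private lemma WvdC_sq (Q : Finset ℕ) (f : ℕ → ℝ) :
    ((‖∑ q ∈ Q, WvdC_E (f q)‖ ^ 2 : ℝ) : ℂ) = ∑ q ∈ Q, ∑ q' ∈ Q, WvdC_E (f q - f q') := by
  have h1 : ((‖∑ q ∈ Q, WvdC_E (f q)‖ ^ 2 : ℝ) : ℂ) =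
      (∑ q ∈ Q, WvdC_E (f q)) * (starRingEnd ℂ) (∑ q ∈ Q, WvdC_E (f q)) := by
    rw [Complex.mul_conj, Complex.normSq_eq_norm_sq]
  rw [h1, map_sum, Finset.sum_mul_sum]
  refine Finset.sum_congr rfl fun q _ => Finset.sum_congr rfl fun q' _ => ?_
  exact WvdC_E_mul_conj _ _

theorem wvdc (B : ℕ) (hB : 0 < B) (s : ℝ) (Q : Finset ℕ) (hQ : Q.Nonempty) :
    ‖(∑ q ∈ Q, FB B (s * Ord2.th q)) / (Q.card : ℂ)‖ ^ 2 ≤
      (∑ q ∈ Q, ∑ q' ∈ Q, ‖FB B (s * (Ord2.th q - Ord2.th q'))‖) / (Q.card : ℝ) ^ 2 := by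
  have hBr : (0 : ℝ) < B := by exact_mod_cast hB
  have hc : (0 : ℝ) < (Q.card : ℝ) := by exact_mod_cast hQ.card_pos
  have hFB : ∀ t : ℝ, FB B t = (∑ b ∈ Finset.range B, WvdC_E (t * Ord2.th b)) / (B : ℂ) := by
    intro t
    rfl
  rw [norm_div, Complex.norm_natCast, div_pow]
  refine div_le_div_of_nonneg_right ?_ (by positivity)
  have h1 : ∑ q ∈ Q, FB B (s * Ord2.th q) =
      (∑ b ∈ Finset.range B, ∑ q ∈ Q, WvdC_E (s * Ord2.th q * Ord2.th b)) / (B : ℂ) := by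
    rw [Finset.sum_comm, Finset.sum_div]
    exact Finset.sum_congr rfl fun q _ => hFB _
  have h2 : ∑ q ∈ Q, ∑ q' ∈ Q, FB B (s * (Ord2.th q - Ord2.th q')) =
      ((∑ b ∈ Finset.range B, ‖∑ q ∈ Q, WvdC_E (s * Ord2.th q * Ord2.th b)‖ ^ 2 : ℝ) : ℂ) / (B : ℂ) := by
    rw [Complex.ofReal_sum]
    have h3 : ∀ b, ((‖∑ q ∈ Q, WvdC_E (s * Ord2.th q * Ord2.th b)‖ ^ 2 : ℝ) : ℂ) =
        ∑ q ∈ Q, ∑ q' ∈ Q, WvdC_E (s * (Ord2.th q - Ord2.th q') * Ord2.th b) := by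
      intro b
      rw [WvdC_sq]
      refine Finset.sum_congr rfl fun q _ => Finset.sum_congr rfl fun q' _ => ?_
      congr 1
      ring
    rw [Finset.sum_congr rfl fun b _ => h3 b]
    have h9 : (∑ b ∈ Finset.range B, ∑ q ∈ Q, ∑ q' ∈ Q,
        WvdC_E (s * (Ord2.th q - Ord2.th q') * Ord2.th b)) = ∑ q ∈ Q, ∑ q' ∈ Q,
          ∑ b ∈ Finset.range B, WvdC_E (s * (Ord2.th q - Ord2.th q') * Ord2.th b) := by
      rw [Finset.sum_comm]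
      exact Finset.sum_congr rfl fun q _ => Finset.sum_comm
    rw [h9, Finset.sum_div]
    refine Finset.sum_congr rfl fun q _ => ?_
    rw [Finset.sum_div]
    exact Finset.sum_congr rfl fun q' _ => hFB _
  rw [h1, norm_div, Complex.norm_natCast]
  have h4 : (‖∑ b ∈ Finset.range B, ∑ q ∈ Q, WvdC_E (s * Ord2.th q * Ord2.th b)‖ / (B : ℝ)) ^ 2 ≤
      (∑ b ∈ Finset.range B, ‖∑ q ∈ Q, WvdC_E (s * Ord2.th q * Ord2.th b)‖ ^ 2) / (B : ℝ) := by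
    have h5 : ‖∑ b ∈ Finset.range B, ∑ q ∈ Q, WvdC_E (s * Ord2.th q * Ord2.th b)‖ ≤
        ∑ b ∈ Finset.range B, ‖∑ q ∈ Q, WvdC_E (s * Ord2.th q * Ord2.th b)‖ := norm_sum_le _ _
    have h6 := sq_sum_le_card_mul_sum_sq (s := Finset.range B)
      (f := fun b => ‖∑ q ∈ Q, WvdC_E (s * Ord2.th q * Ord2.th b)‖)
    rw [Finset.card_range] at h6
    rw [div_pow, div_le_div_iff₀ (by positivity) hBr]
    have h7 : ‖∑ b ∈ Finset.range B, ∑ q ∈ Q, WvdC_E (s * Ord2.th q * Ord2.th b)‖ ^ 2 ≤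
        (∑ b ∈ Finset.range B, ‖∑ q ∈ Q, WvdC_E (s * Ord2.th q * Ord2.th b)‖) ^ 2 :=
      pow_le_pow_left₀ (norm_nonneg _) h5 2
    nlinarith [h7, h6, hBr]
  refine h4.trans ?_
  have h8 : (∑ b ∈ Finset.range B, ‖∑ q ∈ Q, WvdC_E (s * Ord2.th q * Ord2.th b)‖ ^ 2) / (B : ℝ) =
      ‖∑ q ∈ Q, ∑ q' ∈ Q, FB B (s * (Ord2.th q - Ord2.th q'))‖ := by
    rw [h2, norm_div, Complex.norm_natCast, Complex.norm_real, Real.norm_of_nonneg]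
    exact Finset.sum_nonneg fun _ _ => by positivity
  rw [h8]
  refine (norm_sum_le _ _).trans (Finset.sum_le_sum fun q _ => norm_sum_le _ _)

end Pool.Agent.Half
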