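import Pool.Agent.Half.WBase
import Pool.Agent.Half.WShift
import Pool.Agent.Half.WvdC
import Pool.Agent.Half.WClose

/-! Module WSTEP. `PW M j → PW M (j+1)`. PROOF (text, section 3). `ε ≤ 1`, `ε' = ε/32`, `ε1 = ε^2/8`; `K0`, `r1` from
`PW M j` for `ε1`. If `|s| ≤ 2^(jr)`: nothing to do. Otherwise `κ = ε' 2^(jr)/|s|`, `ε' 2^-r ≤ κ ≤ ε'`,
`v = log(1+κ)/log 2`, `κ ≤ v ≤ 3κ/2`, `C = ⌊ε' B⌋`, `Q = {q < C : fract (q α) < v}` (`⇔ θ_q < 1 + κ`),
`|Q| ≥ C (v - 16/2^(4r)) - Bf r ≥ C κ / 2` for large `r`. By `wshift`, `wvdc` and `close_cnt`. -/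

open MeasureTheory Filter Topology

namespace Pool.Agent.Half

namespace WStep

theorem FB_le_one (B : ℕ) (s : ℝ) : ‖FB B s‖ ≤ 1 := by
  unfold FB
  rw [norm_div]
  have h1 : ‖∑ b ∈ Finset.range B, Complex.exp (2 * Real.pi * Complex.I * (s * Ord2.th b : ℝ))‖ ≤ (B : ℝ) := by
    refine (norm_sum_le _ _).trans ?_
    have : ∀ b ∈ Finset.range B, ‖Complex.exp (2 * Real.pi * Complex.I * (s * Ord2.th b : ℝ))‖ ≤ 1 := by
      intro b _
      have e1 : (2 * Real.pi * Complex.I * (s * Ord2.th b : ℝ) : ℂ)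
          = ((2 * Real.pi * (s * Ord2.th b) : ℝ) : ℂ) * Complex.I := by
        push_cast; ring
      rw [e1, Complex.norm_exp_ofReal_mul_I]
    refine (Finset.sum_le_sum this).trans ?_
    simp
  rw [Complex.norm_natCast]
  rcases Nat.eq_zero_or_pos B with hB | hB
  · subst hB; simp
  · rw [div_le_one (by exact_mod_cast hB)]
    exact h1

theorem th_ge (q : ℕ) : 1 ≤ Ord2.th q := by
  unfold Ord2.th
  exact Real.one_le_rpow (by norm_num) (Int.fract_nonneg _)

/-- the main estimate -/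
theorem main {M : ℕ} {Bf : ℕ → ℕ} {r : ℕ} (h : Ord2.ParP M Bf r) (B : ℕ) (hB : 2 ^ ((M + 2) * r) ≤ B)
    (s : ℝ) (j : ℕ) (hj : 1 ≤ j) (e K0 : ℝ) (he0 : 0 < e) (he1 : e ≤ 1) (hK0 : 0 < K0)
    (c1 : 64 ≤ e / 32 * 2 ^ r) (c2 : 4 ≤ (e / 32) ^ 2 * 2 ^ r)
    (c3 : 4 * (3 * K0 / (e / 32) + 16 / (e / 32) + 1 / (e / 32) ^ 2) ≤ e ^ 2 / 8 * 2 ^ r)
    (hs1 : (2 : ℝ) ^ (j * r) < |s|) (hs2 : |s| ≤ 2 ^ ((j + 1) * r))
    (hF : ∀ t : ℝ, K0 ≤ |t| → |t| ≤ 2 ^ (j * r) → ‖FB B t‖ ≤ e ^ 2 / 8) : ‖FB B s‖ ≤ e := by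
  classical
  set X : ℝ := 2 ^ r with hX
  have hX1 : 1 ≤ X := one_le_pow₀ (by norm_num)
  have hX0 : 0 < X := by linarith
  set Y : ℝ := 2 ^ (j * r) with hY
  have hXY : X ≤ Y := by
    rw [hX, hY]
    exact pow_le_pow_right₀ (by norm_num) (Nat.le_mul_of_pos_left r hj)
  have hY0 : 0 < Y := hX0.trans_le hXY
  have hYX : (2 : ℝ) ^ ((j + 1) * r) = Y * X := by
    rw [hX, hY, ← pow_add]; congr 1; ring
  rw [hYX] at hs2
  have h4r : (2 : ℝ) ^ (4 * r) = X ^ 4 := by rw [hX, ← pow_mul]; congr 1; ring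
  have hs0 : 0 < |s| := lt_trans hY0 hs1
  set f : ℝ := e / 32 with hf
  have hf0 : 0 < f := by positivity
  have hf1 : f ≤ 1 / 32 := by rw [hf]; linarith only [he1]
  set k : ℝ := f * Y / |s| with hk
  have hk0 : 0 < k := by positivity
  have hk1 : k ≤ f := by
    rw [hk, div_le_iff₀ hs0]
    exact mul_le_mul_of_nonneg_left hs1.le hf0.le
  have hk2 : f / X ≤ k := by
    rw [hk, div_le_div_iff₀ hX0 hs0]
    calc f * |s| ≤ f * (Y * X) := mul_le_mul_of_nonneg_left hs2 hf0.le
      _ = f * Y * X := by ring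
  have hk2' : f ≤ k * X := by
    rwa [div_le_iff₀ hX0] at hk2
  have hsk : |s| * k = f * Y := by rw [hk]; field_simp
  set v : ℝ := Real.logb 2 (1 + k) with hv
  have hl1 := Real.log_two_gt_d9
  have hl2 := Real.log_two_lt_d9
  have hl0 : 0 < Real.log 2 := by linarith
  have hvhi : v ≤ 3 / 2 * k := by
    rw [hv, Real.logb, div_le_iff₀ hl0]
    have h1 := Real.log_le_sub_one_of_pos (show 0 < 1 + k by linarith only [hk0])
    have h2 : k * (2 / 3) ≤ k * Real.log 2 :=
      mul_le_mul_of_nonneg_left (by linarith only [hl1]) hk0.le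
    linarith only [h1, h2]
  have hvlo : k ≤ v := by
    rw [hv, Real.logb, le_div_iff₀ hl0]
    have hk1p : 0 < 1 + k := by linarith only [hk0]
    have h1 := Real.one_sub_inv_le_log_of_pos hk1p
    have h2 : k * Real.log 2 ≤ 1 - (1 + k)⁻¹ := by
      have : 1 - (1 + k)⁻¹ = k / (1 + k) := by field_simp; ring
      rw [this, le_div_iff₀ hk1p]
      have h3 : Real.log 2 * (1 + k) ≤ 1 * 1 := by
        have h4 : Real.log 2 * (1 + k) ≤ (7 / 10) * (33 / 32) :=
          mul_le_mul (by linarith only [hl2]) (by linarith only [hk1, hf1]) hk1p.le (by norm_num)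
        linarith only [h4]
      calc k * Real.log 2 * (1 + k) = k * (Real.log 2 * (1 + k)) := by ring
        _ ≤ k * (1 * 1) := mul_le_mul_of_nonneg_left h3 hk0.le
        _ = k := by ring
    exact h2.trans h1
  have hv0 : 0 ≤ v := hk0.le.trans hvlo
  have hv1 : v ≤ 1 := by linarith only [hvhi, hk1, hf1]
  have h2v : (2 : ℝ) ^ v = 1 + k := by
    rw [hv]; exact Real.rpow_logb (by norm_num) (by norm_num) (by linarith only [hk0])
  -- sizes
  have hBR : (2 : ℝ) ^ (M * r) * X ^ 2 ≤ B := by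
    have h1 : ((2 ^ ((M + 2) * r) : ℕ) : ℝ) ≤ B := by exact_mod_cast hB
    push_cast at h1
    refine le_trans (le_of_eq ?_) h1
    rw [hX, ← pow_mul, ← pow_add]; congr 1; ring
  have hMr : (1 : ℝ) ≤ 2 ^ (M * r) := one_le_pow₀ (by norm_num)
  have hBX : X ≤ B := by
    calc X = 1 * (X * 1) := by ring
      _ ≤ 2 ^ (M * r) * (X * X) := by gcongr
      _ = 2 ^ (M * r) * X ^ 2 := by ring
      _ ≤ B := hBR
  have hBpos : (0 : ℝ) < B := by linarith
  have hBn : 0 < B := by exact_mod_cast hBpos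
  set b0 : ℝ := (Bf r : ℝ) with hb0
  have hb00 : 0 ≤ b0 := Nat.cast_nonneg _
  have hb1 : b0 * (2 * X ^ 2) ≤ B := by
    obtain ⟨_, _, _, _, _, _, _, _, _, h2⟩ := h
    have h3 : ((2 * Bf r : ℕ) : ℝ) ≤ ((2 ^ (M * r) : ℕ) : ℝ) := by exact_mod_cast h2
    push_cast at h3
    calc b0 * (2 * X ^ 2) = (2 * b0) * X ^ 2 := by ring
      _ ≤ 2 ^ (M * r) * X ^ 2 := by
        apply mul_le_mul_of_nonneg_right h3 (by positivity)
      _ ≤ B := hBR
  set C : ℕ := ⌊f * (B : ℝ)⌋₊ with hC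
  have hCle : (C : ℝ) ≤ f * B := Nat.floor_le (by positivity)
  have hfB : 64 ≤ f * B := by
    refine c1.trans ?_
    exact mul_le_mul_of_nonneg_left hBX hf0.le
  have hCge : f * B / 2 ≤ C := by
    have := Nat.lt_floor_add_one (f * (B : ℝ))
    rw [← hC] at this
    linarith
  have hC0 : (0 : ℝ) < C := by linarith
  -- b0 ≤ C k / (f ^ 2 X)
  have hb2 : b0 * (f * X ^ 2) ≤ C := by
    have : b0 * (f * X ^ 2) = (b0 * (2 * X ^ 2)) * f / 2 := by ring
    rw [this]
    refine le_trans ?_ hCge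
    have := mul_le_mul_of_nonneg_right hb1 hf0.le
    linarith only [this]
  have hb3 : b0 * (f ^ 2 * X) ≤ C * k := by
    have h1 : b0 * (f ^ 2 * X) * X ≤ C * k * X := by
      calc b0 * (f ^ 2 * X) * X = b0 * (f * X ^ 2) * f := by ring
        _ ≤ C * f := mul_le_mul_of_nonneg_right hb2 hf0.le
        _ ≤ C * (k * X) := mul_le_mul_of_nonneg_left hk2' hC0.le
        _ = C * k * X := by ring
    exact le_of_mul_le_mul_right h1 hX0
  have hX4 : 16 / X ^ 4 * (f * X) ≤ 16 * k := by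
    have h1 : 16 / X ^ 4 * (f * X) = 16 * (f / X ^ 3) := by field_simp
    rw [h1]
    have h2 : f / X ^ 3 ≤ k := by
      refine le_trans ?_ hk2
      apply div_le_div_of_nonneg_left hf0.le hX0
      calc X = X ^ 1 := by ring
        _ ≤ X ^ 3 := pow_le_pow_right₀ hX1 (by norm_num)
    linarith only [h2]
  have hX5 : 16 / X ^ 4 ≤ k / 4 := by
    have h2 : 16 / X ^ 4 * (f * X) ≤ k / 4 * (f * X) := by
      refine hX4.trans ?_
      have h3 := mul_le_mul_of_nonneg_left c1 (show 0 ≤ k / 4 by linarith only [hk0])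
      linarith only [h3]
    exact le_of_mul_le_mul_right h2 (mul_pos hf0 hX0)
  have hX40 : 0 ≤ 16 / X ^ 4 := by positivity
  -- the set Q
  set Q : Finset ℕ := (Finset.range C).filter fun b : ℕ =>
        0 ≤ Int.fract ((b : ℝ) * Ord2.al + 0) ∧ Int.fract ((b : ℝ) * Ord2.al + 0) < v with hQ
  have hQcard := le_cnt h C 0 0 v le_rfl hv0 hv1
  rw [← hQ, h4r, ← hb0] at hQcard
  set c : ℝ := (Q.card : ℝ) with hc
  have hQc : (C : ℝ) * k / 2 ≤ c := by
    have h3 : b0 ≤ C * k / 4 := by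
      have h4 : b0 * (f ^ 2 * X) ≤ C * k / 4 * (f ^ 2 * X) := by
        refine hb3.trans ?_
        have h5 := mul_le_mul_of_nonneg_left c2
          (show 0 ≤ (C : ℝ) * k / 4 from (div_nonneg (mul_nonneg hC0.le hk0.le) (by norm_num)))
        linarith only [h5]
      exact le_of_mul_le_mul_right h4 (mul_pos (pow_pos hf0 2) hX0)
    have h5 : (C : ℝ) * (3 * k / 4) ≤ C * (v - 0 - 16 / X ^ 4) :=
      mul_le_mul_of_nonneg_left (by linarith only [hX5, hvlo]) hC0.le
    linarith only [h5, h3, hQcard]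
  have hCk : 0 < (C : ℝ) * k := mul_pos hC0 hk0
  have hc0 : 0 < c := by linarith only [hQc, hCk]
  have hQne : Q.Nonempty := by
    rw [← Finset.card_pos]
    have : (0 : ℝ) < (Q.card : ℝ) := hc0
    exact_mod_cast this
  have hQfr : ∀ q ∈ Q, Int.fract ((q : ℝ) * Ord2.al) < v := by
    intro q hq
    have := (Finset.mem_filter.1 hq).2.2
    rwa [add_zero] at this
  have hQC : ∀ q ∈ Q, q < C := fun q hq => Finset.mem_range.1 (Finset.mem_filter.1 hq).1
  have hQth : ∀ q ∈ Q, Ord2.th q < 1 + k := by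
    intro q hq
    rw [← h2v]
    unfold Ord2.th
    exact Real.rpow_lt_rpow_of_exponent_lt (by norm_num) (hQfr q hq)
  -- step 1
  set A : ℂ := (∑ q ∈ Q, FB B (s * Ord2.th q)) / (Q.card : ℂ) with hA
  have hstep1 : ‖FB B s - A‖ ≤ 6 * f := by
    have hcC : (Q.card : ℂ) ≠ 0 := by
      have : (Q.card : ℝ) ≠ 0 := hc0.ne'
      exact_mod_cast this
    have h1 : FB B s - A = (∑ q ∈ Q, (FB B s - FB B (s * Ord2.th q))) / (Q.card : ℂ) := by
      rw [hA, Finset.sum_sub_distrib, Finset.sum_const, nsmul_eq_mul, sub_div,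
        mul_div_cancel_left₀ _ hcC]
    rw [h1, norm_div, Complex.norm_natCast, div_le_iff₀ hc0]
    refine (norm_sum_le _ _).trans ?_
    have h2 : ∀ q ∈ Q, ‖FB B s - FB B (s * Ord2.th q)‖ ≤ 6 * f := by
      intro q hq
      refine (wshift h B hBn s v hv0 hv1 q (hQfr q hq)).trans ?_
      rw [h4r, ← hb0]
      have h3 : 2 * (q : ℝ) / B ≤ 2 * f := by
        rw [div_le_iff₀ hBpos]
        have : (q : ℝ) ≤ C := by exact_mod_cast (hQC q hq).le
        linarith only [this, hCle]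
      have h4 : b0 / B ≤ f / 64 := by
        rw [div_le_iff₀ hBpos]
        have h5 : 64 * b0 ≤ f * B := by
          have h7 : b0 * 64 ≤ b0 * (f * X ^ 2) := by
            have h8 : 64 ≤ f * X ^ 2 := by
              refine c1.trans ?_
              apply mul_le_mul_of_nonneg_left _ hf0.le
              rw [sq]
              exact le_mul_of_one_le_right hX0.le hX1
            exact mul_le_mul_of_nonneg_left h8 hb00
          linarith only [h7, hb2, hCle]
        linarith only [h5]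
      linarith only [h3, h4, hX5, hvhi, hk1, hf0]
    refine (Finset.sum_le_sum h2).trans ?_
    rw [Finset.sum_const, nsmul_eq_mul]
    exact le_of_eq (mul_comm c (6 * f))
  -- step 2
  have hstep2 : ‖A‖ ^ 2 ≤ e ^ 2 / 4 := by
    refine (wvdc B hBn s Q hQne).trans ?_
    rw [← hc, div_le_iff₀ (by positivity)]
    set d : ℝ := K0 / |s| with hd
    have hd0 : 0 < d := by positivity
    set N : ℝ := 2 * ((C : ℝ) * (3 * d + 16 / X ^ 4) + b0) with hN
    have hin : ∀ q ∈ Q, ∑ q' ∈ Q, ‖FB B (s * (Ord2.th q - Ord2.th q'))‖ ≤ c * (e ^ 2 / 8) + N := by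
      intro q hq
      have h1 : ∀ q' ∈ Q, ‖FB B (s * (Ord2.th q - Ord2.th q'))‖ ≤
          e ^ 2 / 8 + if |Ord2.th q - Ord2.th q'| < d then 1 else 0 := by
        intro q' hq'
        split_ifs with hlt
        · have h2 := FB_le_one B (s * (Ord2.th q - Ord2.th q'))
          have h3 : 0 ≤ e ^ 2 / 8 := by positivity
          linarith only [h2, h3]
        · rw [add_zero]
          apply hF
          · rw [abs_mul]
            have : d ≤ |Ord2.th q - Ord2.th q'| := not_lt.1 hlt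
            calc K0 = |s| * d := by rw [hd]; field_simp
              _ ≤ |s| * |Ord2.th q - Ord2.th q'| := mul_le_mul_of_nonneg_left this hs0.le
          · rw [abs_mul]
            have h2 : |Ord2.th q - Ord2.th q'| ≤ k := by
              rw [abs_le]
              have a1 := th_ge q
              have a2 := th_ge q'
              have a3 := hQth q hq
              have a4 := hQth q' hq'
              constructor <;> linarith only [a1, a2, a3, a4]
            calc |s| * |Ord2.th q - Ord2.th q'| ≤ |s| * k := mul_le_mul_of_nonneg_left h2 hs0.le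
              _ = f * Y := hsk
              _ ≤ 1 * Y := mul_le_mul_of_nonneg_right (by linarith only [hf1]) hY0.le
              _ = Y := one_mul _
      refine (Finset.sum_le_sum h1).trans ?_
      rw [Finset.sum_add_distrib, Finset.sum_const, nsmul_eq_mul, Finset.sum_boole]
      have h2 := close_cnt h C q d hd0
      rw [h4r, ← hb0, ← hN] at h2
      have h3 : ((Q.filter fun q' : ℕ => |Ord2.th q - Ord2.th q'| < d).card : ℝ) ≤
          (((Finset.range C).filter fun q' : ℕ => |Ord2.th q - Ord2.th q'| < d).card : ℝ) := by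
        exact_mod_cast Finset.card_le_card (Finset.filter_subset_filter _ (Finset.filter_subset _ _))
      linarith only [h2, h3]
    have hNle : N ≤ e ^ 2 / 8 * c := by
      have h1 : 3 * d * (f * X) ≤ 3 * K0 * k := by
        have h2 : 3 * d * (f * Y) = 3 * K0 * k := by
          rw [hd, hk]; field_simp
        rw [← h2]
        gcongr
      have hfX : 0 < f * X := by positivity
      have hfX2 : 0 < f ^ 2 * X := by positivity
      have h3 : 3 * d ≤ 3 * K0 / f / X * k := by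
        have : 3 * K0 / f / X * k = 3 * K0 * k / (f * X) := by field_simp
        rw [this, le_div_iff₀ hfX]
        exact h1
      have h4 : 16 / X ^ 4 ≤ 16 / f / X * k := by
        have : 16 / f / X * k = 16 * k / (f * X) := by field_simp
        rw [this, le_div_iff₀ hfX]
        exact hX4
      have h5 : b0 ≤ C * (1 / f ^ 2 / X * k) := by
        have : C * (1 / f ^ 2 / X * k) = C * k / (f ^ 2 * X) := by field_simp
        rw [this, le_div_iff₀ hfX2]
        exact hb3
      set S : ℝ := 3 * K0 / f + 16 / f + 1 / f ^ 2 with hS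
      have h6 : N ≤ 2 * (C * (S / X * k)) := by
        rw [hN]
        have h7 : (C : ℝ) * (3 * d + 16 / X ^ 4) ≤ C * (3 * K0 / f / X * k + 16 / f / X * k) :=
          mul_le_mul_of_nonneg_left (by linarith only [h3, h4]) hC0.le
        have h8 : S / X * k = 3 * K0 / f / X * k + 16 / f / X * k + 1 / f ^ 2 / X * k := by
          rw [hS]; ring
        rw [h8]
        linarith only [h7, h5]
      have h9 : S / X ≤ e ^ 2 / 8 / 4 := by
        rw [div_le_iff₀ hX0]
        linarith only [c3]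
      have h10 : 2 * ((C : ℝ) * (S / X * k)) ≤ e ^ 2 / 8 * (C * k / 2) := by
        have := mul_le_mul_of_nonneg_right h9 hCk.le
        linarith only [this]
      have h11 : e ^ 2 / 8 * (C * k / 2) ≤ e ^ 2 / 8 * c :=
        mul_le_mul_of_nonneg_left hQc (by positivity)
      linarith only [h6, h10, h11]
    refine (Finset.sum_le_sum hin).trans ?_
    rw [Finset.sum_const, nsmul_eq_mul, ← hc]
    have : c * (c * (e ^ 2 / 8) + N) ≤ c * (c * (e ^ 2 / 8) + e ^ 2 / 8 * c) :=
      mul_le_mul_of_nonneg_left (by linarith only [hNle]) hc0.le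
    linarith only [this]
  have hA2 : ‖A‖ ≤ e / 2 := by
    by_contra hlt
    rw [not_le] at hlt
    have h1 : (e / 2) ^ 2 < ‖A‖ ^ 2 := pow_lt_pow_left₀ hlt (by positivity) (by norm_num)
    linarith only [h1, hstep2]
  have : ‖FB B s‖ ≤ ‖FB B s - A‖ + ‖A‖ := by
    have := norm_add_le (FB B s - A) A
    rwa [sub_add_cancel] at this
  linarith only [this, hstep1, hA2, hf, he0]

end WStep

theorem pw_succ {M : ℕ} {Bf : ℕ → ℕ} {r0 : ℕ} (h : ∀ r, r0 ≤ r → Ord2.ParP M Bf r) (j : ℕ) (hj : 1 ≤ j)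
    (hP : PW M j) : PW M (j + 1) := by
  intro ε hε
  obtain ⟨e, he0, he1, heε⟩ : ∃ e : ℝ, 0 < e ∧ e ≤ 1 ∧ e ≤ ε :=
    ⟨min ε 1, lt_min hε one_pos, min_le_right _ _, min_le_left _ _⟩
  obtain ⟨K0, hK0, r1, hr1⟩ := hP (e ^ 2 / 8) (by positivity)
  set f : ℝ := e / 32 with hf
  have hf0 : 0 < f := by positivity
  have hS0 : 0 < 4 * (3 * K0 / f + 16 / f + 1 / f ^ 2) / (e ^ 2 / 8) := by positivity
  have ha0 : 0 < 64 / f := by positivity
  have hb0 : 0 < 4 / f ^ 2 := by positivity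
  obtain ⟨R, hR⟩ := pow_unbounded_of_one_lt
    (64 / f + 4 / f ^ 2 + 4 * (3 * K0 / f + 16 / f + 1 / f ^ 2) / (e ^ 2 / 8))
    (show (1 : ℝ) < 2 by norm_num)
  refine ⟨K0, hK0, max (max r0 r1) R, fun r hr B hB s hs1 hs2 => ?_⟩
  have hr0 : r0 ≤ r := (le_max_left _ _).trans ((le_max_left _ _).trans hr)
  have hr1' : r1 ≤ r := (le_max_right _ _).trans ((le_max_left _ _).trans hr)
  have hRr : R ≤ r := (le_max_right _ _).trans hr
  have hX : (2 : ℝ) ^ R ≤ 2 ^ r := pow_le_pow_right₀ (by norm_num) hRr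
  have he2 : e ^ 2 / 8 ≤ e := by nlinarith
  rcases le_or_gt |s| (2 ^ (j * r)) with hle | hgt
  · exact (hr1 r hr1' B hB s hs1 hle).trans (he2.trans heε)
  · refine le_trans ?_ heε
    refine WStep.main (h r hr0) B hB s j hj e K0 he0 he1 hK0 ?_ ?_ ?_ hgt hs2
      (fun t ht1 ht2 => hr1 r hr1' B hB t ht1 ht2)
    · have h1 : 64 / f ≤ 2 ^ r := by linarith
      rw [div_le_iff₀ hf0, mul_comm] at h1
      exact h1
    · have h1 : 4 / f ^ 2 ≤ 2 ^ r := by linarith
      rw [div_le_iff₀ (by positivity), mul_comm] at h1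
      exact h1
    · have h1 : 4 * (3 * K0 / f + 16 / f + 1 / f ^ 2) / (e ^ 2 / 8) ≤ 2 ^ r := by linarith
      rw [div_le_iff₀ (by positivity), mul_comm (2 ^ r)] at h1
      exact h1

end Pool.Agent.Half
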